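import Pool.Agent.Lib.MP_39df77_nt.OL.E

/-!
# Carlson's step with a power saving error
-/

set_option autoImplicit false

open Complex MeasureTheory Set Filter Topology

namespace OL

/-- `1 - e^{-u} ≤ u^η` -/
lemma E7_exp {u η : ℝ} (hu : 0 ≤ u) (h0 : 0 < η) (h1 : η ≤ 1) : 1 - Real.exp (-u) ≤ u ^ η := by
  rcases le_total u 1 with h | h
  · have a1 := Real.add_one_le_exp (-u)
    rcases hu.eq_or_lt with h2 | h2
    · rw [← h2]
      simp
      positivity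
    · have a2 : u ^ (1 : ℝ) ≤ u ^ η := Real.rpow_le_rpow_of_exponent_ge h2 h h1
      rw [Real.rpow_one] at a2
      linarith
  · have a1 : 1 ≤ u ^ η := Real.one_le_rpow h h0.le
    have := Real.exp_pos (-u)
    linarith

lemma gX_lower {X : ℝ} (hX : 0 < X) (n : ℕ) :
    (d3 n : ℝ) * Real.exp (-(3 * n / X)) ≤ gX X n := by
  rw [d3_eq]
  unfold gX
  push_cast
  rw [Finset.sum_mul]
  refine Finset.sum_le_sum fun p hp => ?_
  rw [Finset.sum_mul, Finset.sum_mul]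
  refine Finset.sum_le_sum fun q hq => ?_
  rw [Nat.mem_divisorsAntidiagonal] at hp hq
  have hn : 0 < n := Nat.pos_of_ne_zero hp.2
  have hp1 : 0 < p.1 := Nat.pos_of_ne_zero hq.2
  have hp2 : 0 < p.2 := by
    rcases Nat.eq_zero_or_pos p.2 with h | h
    · exact absurd (hp.1.symm.trans (by rw [h, mul_zero])) hp.2
    · exact h
  have hq1 : 0 < q.1 := by
    rcases Nat.eq_zero_or_pos q.1 with h | h
    · exact absurd (hq.1.symm.trans (by rw [h, zero_mul])) hq.2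
    · exact h
  have hq2 : 0 < q.2 := by
    rcases Nat.eq_zero_or_pos q.2 with h | h
    · exact absurd (hq.1.symm.trans (by rw [h, mul_zero])) hq.2
    · exact h
  have l1 : p.1 ≤ n := by
    rw [← hp.1]
    exact Nat.le_mul_of_pos_right _ hp2
  have l2 : p.2 ≤ n := by
    rw [← hp.1]
    exact Nat.le_mul_of_pos_left _ hp1
  have l3 : q.1 ≤ n := by
    refine le_trans ?_ l1
    rw [← hq.1]
    exact Nat.le_mul_of_pos_right _ hq2
  have l4 : q.2 ≤ n := by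
    refine le_trans ?_ l1
    rw [← hq.1]
    exact Nat.le_mul_of_pos_left _ hq1
  have l2' : (p.2 : ℝ) ≤ n := by exact_mod_cast l2
  have l3' : (q.1 : ℝ) ≤ n := by exact_mod_cast l3
  have l4' : (q.2 : ℝ) ≤ n := by exact_mod_cast l4
  rw [one_mul, ← Real.exp_add, ← Real.exp_add]
  refine Real.exp_le_exp.2 ?_
  have : (q.1 : ℝ) / X + (q.2 : ℝ) / X + (p.2 : ℝ) / X ≤ 3 * n / X := by
    rw [← add_div, ← add_div]
    refine div_le_div_of_nonneg_right ?_ hX.le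
    linarith
  linarith

/-- the rate of convergence of the main term -/
lemma cX_rate {σ : ℝ} (hσ : 1 / 2 < σ) (hσ1 : σ < 1) : ∃ η C : ℝ, 0 < η ∧ 0 ≤ C ∧ ∀ X : ℝ, 0 < X →
    |∑' n : ℕ, cX σ X n ^ 2 - ∑' n : ℕ, (d3 n : ℝ) ^ 2 * (n : ℝ) ^ (-(2 * σ))| ≤ C * X ^ (-η) := by
  set η : ℝ := (2 * σ - 1) / 2 with hη
  have hη0 : 0 < η := by rw [hη]; linarith
  have hη1 : η ≤ 1 := by rw [hη]; linarith
  have hsum := d3_summable hσ
  have e1 : ∑' n : ℕ, (d3 n : ℝ) ^ 2 * (n : ℝ) ^ (-(2 * σ)) =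
      ∑' n : ℕ, (d3 (n + 1) : ℝ) ^ 2 * ((n + 1 : ℕ) : ℝ) ^ (-(2 * σ)) := by
    rw [hsum.tsum_eq_zero_add]
    have : d3 0 = 0 := by unfold d3; simp
    rw [this]
    simp
  have hb : Summable fun n : ℕ => (d3 (n + 1) : ℝ) ^ 2 * ((n + 1 : ℕ) : ℝ) ^ (-(2 * σ)) :=
    (summable_nat_add_iff 1).2 hsum
  have hs2 : Summable fun n : ℕ => (d3 n : ℝ) ^ 2 * (n : ℝ) ^ (-(2 * (σ - η / 2))) :=
    d3_summable (by rw [hη]; linarith)
  have hb2 : Summable fun n : ℕ => (d3 (n + 1) : ℝ) ^ 2 * ((n + 1 : ℕ) : ℝ) ^ (-(2 * (σ - η / 2))) :=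
    (summable_nat_add_iff 1).2 hs2
  refine ⟨η, 6 ^ η * ∑' n : ℕ, (d3 (n + 1) : ℝ) ^ 2 * ((n + 1 : ℕ) : ℝ) ^ (-(2 * (σ - η / 2))),
    hη0, ?_, fun X hX => ?_⟩
  · exact mul_nonneg (by positivity) (tsum_nonneg fun n => by positivity)
  have hcs : Summable fun n : ℕ => cX σ X n ^ 2 := by
    refine hb.of_nonneg_of_le (fun n => by positivity) fun n => ?_
    rw [cX_sq]
    have h1 := gX_le hX (n + 1)
    have h2 := gX_nonneg X (n + 1)
    gcongr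
  rw [e1, abs_sub_comm, ← hb.tsum_sub hcs]
  have hpt : ∀ n : ℕ, 0 ≤ (d3 (n + 1) : ℝ) ^ 2 * ((n + 1 : ℕ) : ℝ) ^ (-(2 * σ)) - cX σ X n ^ 2 ∧
      (d3 (n + 1) : ℝ) ^ 2 * ((n + 1 : ℕ) : ℝ) ^ (-(2 * σ)) - cX σ X n ^ 2 ≤
        (6 ^ η * X ^ (-η)) * ((d3 (n + 1) : ℝ) ^ 2 * ((n + 1 : ℕ) : ℝ) ^ (-(2 * (σ - η / 2)))) := by
    intro n
    have hn : (0 : ℝ) < ((n + 1 : ℕ) : ℝ) := by positivity
    rw [cX_sq, ← sub_mul]
    have h1 := gX_le hX (n + 1)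
    have h2 := gX_nonneg X (n + 1)
    have h3 := gX_lower hX (n + 1)
    have h4 : gX X (n + 1) ^ 2 ≤ (d3 (n + 1) : ℝ) ^ 2 := pow_le_pow_left₀ h2 h1 2
    constructor
    · exact mul_nonneg (by linarith) (by positivity)
    have h5 : ((d3 (n + 1) : ℝ) * Real.exp (-(3 * ((n + 1 : ℕ) : ℝ) / X))) ^ 2 ≤ gX X (n + 1) ^ 2 :=
      pow_le_pow_left₀ (by positivity) h3 2
    have h6 : Real.exp (-(3 * ((n + 1 : ℕ) : ℝ) / X)) ^ 2 = Real.exp (-(6 * ((n + 1 : ℕ) : ℝ) / X)) := by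
      rw [← Real.exp_nat_mul]
      congr 1
      push_cast
      ring
    have h7 := E7_exp (u := 6 * ((n + 1 : ℕ) : ℝ) / X) (by positivity) hη0 hη1
    have h8 : (6 * ((n + 1 : ℕ) : ℝ) / X) ^ η = 6 ^ η * X ^ (-η) * ((n + 1 : ℕ) : ℝ) ^ η := by
      rw [Real.div_rpow (by positivity) hX.le, Real.mul_rpow (by norm_num) hn.le,
        Real.rpow_neg hX.le]
      field_simp
    have h9 : (d3 (n + 1) : ℝ) ^ 2 - gX X (n + 1) ^ 2 ≤
        (d3 (n + 1) : ℝ) ^ 2 * (6 ^ η * X ^ (-η) * ((n + 1 : ℕ) : ℝ) ^ η) := by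
      rw [mul_pow, h6] at h5
      rw [← h8]
      have := mul_le_mul_of_nonneg_left h7 (sq_nonneg (d3 (n + 1) : ℝ))
      linarith
    refine (mul_le_mul_of_nonneg_right h9 (by positivity)).trans (le_of_eq ?_)
    have h10 : ((n + 1 : ℕ) : ℝ) ^ (-(2 * (σ - η / 2))) =
        ((n + 1 : ℕ) : ℝ) ^ η * ((n + 1 : ℕ) : ℝ) ^ (-(2 * σ)) := by
      rw [← Real.rpow_add hn]
      congr 1
      ring
    rw [h10]
    ring
  have hd := hb.sub hcs
  rw [abs_of_nonneg (tsum_nonneg fun n => (hpt n).1)]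
  refine (hd.tsum_le_tsum (fun n => (hpt n).2) (hb2.mul_left _)).trans (le_of_eq ?_)
  rw [tsum_mul_left]
  ring

/-- the mean value of the smoothed series with a power saving error -/
lemma E7_mean {σ : ℝ} (hσ : 1 / 2 < σ) (hσ1 : σ < 1) : ∃ η C : ℝ, 0 < η ∧ 0 ≤ C ∧
    ∀ T : ℝ, 1 ≤ T → |(T⁻¹ * ∫ t in (0 : ℝ)..T, ‖Sx σ (T ^ (1 / 10 : ℝ)) t‖ ^ 6) -
      ∑' n : ℕ, (d3 n : ℝ) ^ 2 * (n : ℝ) ^ (-(2 * σ))| ≤ C * T ^ (-η) := by
  obtain ⟨η, C, hη, hC, h⟩ := cX_rate hσ hσ1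
  refine ⟨min (1 / 10) (η / 10), 256 + C, lt_min (by norm_num) (by positivity), by positivity,
    fun T hT => ?_⟩
  have hT0 : 0 < T := by linarith
  have hX0 : 0 < T ^ (1 / 10 : ℝ) := by positivity
  have k1 := h _ hX0
  set X : ℝ := T ^ (1 / 10 : ℝ) with hXdef
  obtain ⟨s0, b0⟩ := E2_sum0 (σ := σ) (by linarith) hX0
  obtain ⟨s1, b1⟩ := E2_sum1 (σ := σ) (by linarith) hX0
  have h4 := E1_mv (fun n => cX_nonneg σ X n) s0 s1 hT0.le
  have e : ∀ t : ℝ, ‖∑' n : ℕ, (cX σ X n : ℂ) * ei (-(t * Real.log (n + 1 : ℝ)))‖ ^ 2 =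
      ‖Sx σ X t‖ ^ 6 := by
    intro t
    rw [← Sx_cube hX0, norm_pow, ← pow_mul]
  simp_rw [e] at h4
  have h5 : 4 * ((∑' n, cX σ X n) * ∑' n : ℕ, (n + 1 : ℝ) * cX σ X n) ≤ 256 * X ^ 9 := by
    have n1 : 0 ≤ ∑' n : ℕ, (n + 1 : ℝ) * cX σ X n :=
      tsum_nonneg fun n => mul_nonneg (by positivity) (cX_nonneg _ _ _)
    calc 4 * ((∑' n, cX σ X n) * ∑' n : ℕ, (n + 1 : ℝ) * cX σ X n)
        ≤ 4 * (X ^ 3 * (64 * X ^ 6)) := by gcongr
      _ = 256 * X ^ 9 := by ring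
  have h6 : T⁻¹ * X ^ 9 = T ^ (-(1 / 10 : ℝ)) := by
    rw [hXdef, ← Real.rpow_natCast, ← Real.rpow_mul hT0.le, ← Real.rpow_neg_one,
      ← Real.rpow_add hT0]
    congr 1
    norm_num
  have e2 : (T⁻¹ * ∫ t in (0 : ℝ)..T, ‖Sx σ X t‖ ^ 6) - ∑' n : ℕ, cX σ X n ^ 2 =
      T⁻¹ * ((∫ t in (0 : ℝ)..T, ‖Sx σ X t‖ ^ 6) - T * ∑' n : ℕ, cX σ X n ^ 2) := by
    field_simp
  have k2 : |(T⁻¹ * ∫ t in (0 : ℝ)..T, ‖Sx σ X t‖ ^ 6) - ∑' n : ℕ, cX σ X n ^ 2| ≤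
      256 * T ^ (-(1 / 10 : ℝ)) := by
    rw [e2, abs_mul, abs_of_pos (inv_pos.2 hT0)]
    calc T⁻¹ * _ ≤ T⁻¹ * (256 * X ^ 9) :=
          mul_le_mul_of_nonneg_left (h4.trans h5) (inv_pos.2 hT0).le
      _ = 256 * (T⁻¹ * X ^ 9) := by ring
      _ = _ := by rw [h6]
  have k3 : X ^ (-η) = T ^ (-(η / 10)) := by
    rw [hXdef, ← Real.rpow_mul hT0.le]
    congr 1
    ring
  rw [k3] at k1
  have k4 : T ^ (-(1 / 10 : ℝ)) ≤ T ^ (-(min (1 / 10) (η / 10))) :=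
    Real.rpow_le_rpow_of_exponent_le hT (neg_le_neg (min_le_left _ _))
  have k5 : T ^ (-(η / 10)) ≤ T ^ (-(min (1 / 10) (η / 10))) :=
    Real.rpow_le_rpow_of_exponent_le hT (neg_le_neg (min_le_right _ _))
  calc |(T⁻¹ * ∫ t in (0 : ℝ)..T, ‖Sx σ X t‖ ^ 6) - ∑' n : ℕ, (d3 n : ℝ) ^ 2 * (n : ℝ) ^ (-(2 * σ))|
      ≤ |(T⁻¹ * ∫ t in (0 : ℝ)..T, ‖Sx σ X t‖ ^ 6) - ∑' n : ℕ, cX σ X n ^ 2| +
        |∑' n : ℕ, cX σ X n ^ 2 - ∑' n : ℕ, (d3 n : ℝ) ^ 2 * (n : ℝ) ^ (-(2 * σ))| :=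
        abs_sub_le _ _ _
    _ ≤ 256 * T ^ (-(1 / 10 : ℝ)) + C * T ^ (-(η / 10)) := add_le_add k2 k1
    _ ≤ 256 * T ^ (-(min (1 / 10) (η / 10))) + C * T ^ (-(min (1 / 10) (η / 10))) := by gcongr
    _ = _ := by ring

lemma E7_squeeze {A B R : ℝ → ℝ} {L b r CB CR : ℝ} (hb : 0 < b) (hr : 0 < r) (hCB : 0 ≤ CB)
    (hCR : 0 ≤ CR) (hA : ∀ T : ℝ, 1 ≤ T → 0 ≤ A T)
    (hB : ∀ T : ℝ, 1 ≤ T → |B T - L| ≤ CB * T ^ (-b))
    (hR : ∀ T : ℝ, 1 ≤ T → R T ≤ CR * T ^ (-r))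
    (h1 : ∀ T : ℝ, 1 ≤ T → ∀ l : ℝ, 0 < l → l < 1 → A T ≤ ((1 - l) ^ 5)⁻¹ * B T + (l ^ 5)⁻¹ * R T)
    (h2 : ∀ T : ℝ, 1 ≤ T → ∀ l : ℝ, 0 < l → l < 1 → B T ≤ ((1 - l) ^ 5)⁻¹ * A T + (l ^ 5)⁻¹ * R T) :
    ∃ η C : ℝ, 0 < η ∧ ∀ T : ℝ, 1 ≤ T → |A T - L| ≤ C * T ^ (-η) := by
  set M : ℝ := |L| + CB with hM
  set M' : ℝ := 32 * M + 32 * CR with hM'
  have hM0 : 0 ≤ M := by positivity
  have hM'0 : 0 ≤ M' := by positivity
  have hMM : M ≤ M' := by rw [hM']; linarith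
  set η : ℝ := min b (r / 10) with hη
  refine ⟨η, CB + 31 * M' + 32 * CR, lt_min hb (by positivity), fun T hT => ?_⟩
  have hT0 : 0 < T := by linarith
  set x : ℝ := T ^ (-(r / 10)) with hx
  have hx0 : 0 < x := Real.rpow_pos_of_pos hT0 _
  have hx1 : x ≤ 1 := by
    rw [hx]
    exact Real.rpow_le_one_of_one_le_of_nonpos hT (by linarith)
  have hTb1 : T ^ (-b) ≤ 1 := Real.rpow_le_one_of_one_le_of_nonpos hT (by linarith)
  have hxη : x ≤ T ^ (-η) := by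
    rw [hx]
    exact Real.rpow_le_rpow_of_exponent_le hT (neg_le_neg (min_le_right _ _))
  have hbη : T ^ (-b) ≤ T ^ (-η) :=
    Real.rpow_le_rpow_of_exponent_le hT (neg_le_neg (min_le_left _ _))
  have hl0 : 0 < x / 2 := by positivity
  have hl1 : x / 2 < 1 := by linarith
  have a1 := h1 T hT (x / 2) hl0 hl1
  have a2 := h2 T hT (x / 2) hl0 hl1
  have a3 := hB T hT
  -- the second factor
  have r1 : ((x / 2) ^ 5)⁻¹ * R T ≤ 32 * CR * x := by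
    have e1 : CR * T ^ (-r) = CR * x ^ 10 := by
      rw [hx, ← Real.rpow_natCast, ← Real.rpow_mul hT0.le]
      congr 2
      push_cast
      ring
    have e2 := hR T hT
    rw [e1] at e2
    calc ((x / 2) ^ 5)⁻¹ * R T ≤ ((x / 2) ^ 5)⁻¹ * (CR * x ^ 10) :=
          mul_le_mul_of_nonneg_left e2 (by positivity)
      _ = 32 * CR * x ^ 5 := by
          field_simp
          ring
      _ ≤ 32 * CR * x := by
          have : x ^ 5 ≤ x ^ 1 := pow_le_pow_of_le_one hx0.le hx1 (by norm_num)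
          rw [pow_one] at this
          exact mul_le_mul_of_nonneg_left this (by positivity)
  -- the first factor
  have f1 : ((1 - x / 2) ^ 5)⁻¹ ≤ 1 + 31 * x := by
    have e0 : 0 < 1 - x / 2 := by linarith
    have e1 : (1 - x / 2)⁻¹ ≤ 1 + x := by
      rw [inv_le_iff_one_le_mul₀ e0]
      nlinarith
    have e2 : ((1 - x / 2) ^ 5)⁻¹ ≤ (1 + x) ^ 5 := by
      rw [← inv_pow]
      exact pow_le_pow_left₀ (by positivity) e1 5
    refine e2.trans ?_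
    have p2 : x ^ 2 ≤ x := by nlinarith
    have p3 : x ^ 3 ≤ x := by
      have := pow_le_pow_of_le_one hx0.le hx1 (show 1 ≤ 3 by norm_num)
      rwa [pow_one] at this
    have p4 : x ^ 4 ≤ x := by
      have := pow_le_pow_of_le_one hx0.le hx1 (show 1 ≤ 4 by norm_num)
      rwa [pow_one] at this
    have p5 : x ^ 5 ≤ x := by
      have := pow_le_pow_of_le_one hx0.le hx1 (show 1 ≤ 5 by norm_num)
      rwa [pow_one] at this
    nlinarith
  have f0 : 0 ≤ ((1 - x / 2) ^ 5)⁻¹ := by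
    have e0 : 0 < 1 - x / 2 := by linarith
    positivity
  have f32 : ((1 - x / 2) ^ 5)⁻¹ ≤ 32 := f1.trans (by linarith)
  obtain ⟨a3l, a3r⟩ := abs_le.1 a3
  have hLabs := le_abs_self L
  have hBM : B T ≤ M := by
    have : CB * T ^ (-b) ≤ CB := by
      calc CB * T ^ (-b) ≤ CB * 1 := mul_le_mul_of_nonneg_left hTb1 hCB
        _ = CB := mul_one _
    rw [hM]
    linarith
  have hAM : A T ≤ M' := by
    have q1 : ((1 - x / 2) ^ 5)⁻¹ * B T ≤ 32 * M :=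
      (mul_le_mul_of_nonneg_left hBM f0).trans (mul_le_mul_of_nonneg_right f32 hM0)
    have q2 : 32 * CR * x ≤ 32 * CR := by
      calc 32 * CR * x ≤ 32 * CR * 1 := mul_le_mul_of_nonneg_left hx1 (by positivity)
        _ = _ := mul_one _
    rw [hM']
    linarith
  have hA0 := hA T hT
  have up : A T - L ≤ CB * T ^ (-b) + 31 * M' * x + 32 * CR * x := by
    have q1 : ((1 - x / 2) ^ 5)⁻¹ * B T ≤ B T + 31 * M' * x := by
      rcases le_total 0 (B T) with hB0 | hB0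
      · calc ((1 - x / 2) ^ 5)⁻¹ * B T ≤ (1 + 31 * x) * B T := mul_le_mul_of_nonneg_right f1 hB0
          _ = B T + 31 * B T * x := by ring
          _ ≤ B T + 31 * M' * x := by
              have := hBM.trans hMM
              gcongr
      · have q2 : 1 ≤ ((1 - x / 2) ^ 5)⁻¹ := by
          rw [one_le_inv₀ (by
            have e0 : 0 < 1 - x / 2 := by linarith
            positivity)]
          exact pow_le_one₀ (by linarith) (by linarith)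
        have q3 : ((1 - x / 2) ^ 5)⁻¹ * B T ≤ 1 * B T := mul_le_mul_of_nonpos_right q2 hB0
        have q4 : 0 ≤ 31 * M' * x := by positivity
        linarith
    linarith
  have lo : L - A T ≤ CB * T ^ (-b) + 31 * M' * x + 32 * CR * x := by
    have q1 : ((1 - x / 2) ^ 5)⁻¹ * A T ≤ A T + 31 * M' * x := by
      calc ((1 - x / 2) ^ 5)⁻¹ * A T ≤ (1 + 31 * x) * A T := mul_le_mul_of_nonneg_right f1 hA0
        _ = A T + 31 * A T * x := by ring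
        _ ≤ A T + 31 * M' * x := by gcongr
    linarith
  have fin : CB * T ^ (-b) + 31 * M' * x + 32 * CR * x ≤ (CB + 31 * M' + 32 * CR) * T ^ (-η) := by
    have q1 : CB * T ^ (-b) ≤ CB * T ^ (-η) := mul_le_mul_of_nonneg_left hbη hCB
    have q2 : 31 * M' * x ≤ 31 * M' * T ^ (-η) := mul_le_mul_of_nonneg_left hxη (by positivity)
    have q3 : 32 * CR * x ≤ 32 * CR * T ^ (-η) := mul_le_mul_of_nonneg_left hxη (by positivity)
    nlinarith
  rw [abs_le]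
  constructor <;> linarith

/-- R27 with a power saving -/
lemma E7_diff {s0 : ℝ} (h0 : 1 / 2 ≤ s0) (h1 : s0 < 1)
    (h : ∀ e : ℝ, 0 < e → ∃ C : ℝ, ∀ T : ℝ, 1 ≤ T →
      ∫ t in T..(2 * T), ‖riemannZeta (s0 + t * I)‖ ^ 6 ≤ C * T ^ (1 + e))
    {σ : ℝ} (hs : s0 < σ) (hs1 : σ < 1) :
    ∃ r C : ℝ, 0 < r ∧ 0 ≤ C ∧ ∀ T : ℝ, 1 ≤ T → (T⁻¹ * ∫ t in (0 : ℝ)..T,
      ‖riemannZeta (σ + t * I) - Sx σ (T ^ (1 / 10 : ℝ)) t‖ ^ 6) ≤ C * T ^ (-r) := by
  set e : ℝ := 3 / 10 * (σ - s0) with he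
  have he0 : 0 < e := by rw [he]; linarith
  have he1 : e ≤ 1 := by rw [he]; linarith
  obtain ⟨C1, hC1⟩ := h e he0
  obtain ⟨A, hA0, hA⟩ := E4_GG h0 h1 he0 he1 hC1
  obtain ⟨C, hC0, hC⟩ := smoothing h0 hs hs1
  refine ⟨min e (7 / 10), 32 * C ^ 6 * (1 + 32 * A), lt_min he0 (by norm_num), by positivity,
    fun T hT => ?_⟩
  · have hT0 : 0 < T := by linarith
    obtain ⟨g1, g2⟩ := hA T hT
    set X : ℝ := T ^ (1 / 10 : ℝ) with hX
    have hX1 : 1 ≤ X := Real.one_le_rpow hT (by norm_num)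
    have hX0 : 0 < X := by linarith
    -- pointwise
    have hpt : ∀ t ∈ Icc 0 T, ‖riemannZeta (σ + t * I) - Sx σ X t‖ ^ 6 ≤
        32 * C ^ 6 * (X ^ (1 - σ)) ^ 6 * Real.exp (-t) +
          32 * C ^ 6 * (X ^ (s0 - σ)) ^ 6 * (32 * GG s0 t) := by
      intro t ht
      have b1 := hC X t hX1
      rw [abs_of_nonneg ht.1] at b1
      have hZ0 : 0 ≤ Zl s0 t := by
        unfold Zl
        exact integral_nonneg fun y => by positivity
      have b2 : ‖riemannZeta (σ + t * I) - Sx σ X t‖ ^ 6 ≤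
          (C * (X ^ (1 - σ) * Real.exp (-t)) + C * (X ^ (s0 - σ) * Zl s0 t)) ^ 6 := by
        refine pow_le_pow_left₀ (norm_nonneg _) (b1.trans (le_of_eq ?_)) 6
        ring
      have b3 := E5_conv (x := C * (X ^ (1 - σ) * Real.exp (-t)))
        (y := C * (X ^ (s0 - σ) * Zl s0 t)) (l := 1 / 2) (by positivity) (by positivity)
        (by norm_num) (by norm_num)
      have b4 : Real.exp (-t) ^ 6 ≤ Real.exp (-t) := by
        have : Real.exp (-t) ≤ 1 := by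
          rw [Real.exp_le_one_iff]
          linarith [ht.1]
        calc Real.exp (-t) ^ 6 ≤ Real.exp (-t) ^ 1 :=
              pow_le_pow_of_le_one (Real.exp_pos _).le this (by norm_num)
          _ = _ := pow_one _
      have b5 := E4_Zl6 h0 h1 t
      have n1 : 0 ≤ 32 * C ^ 6 * (X ^ (1 - σ)) ^ 6 := by positivity
      have n2 : 0 ≤ 32 * C ^ 6 * (X ^ (s0 - σ)) ^ 6 := by positivity
      calc _ ≤ _ := b2
        _ ≤ _ := b3
        _ = 32 * C ^ 6 * (X ^ (1 - σ)) ^ 6 * Real.exp (-t) ^ 6 +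
            32 * C ^ 6 * (X ^ (s0 - σ)) ^ 6 * Zl s0 t ^ 6 := by
          norm_num
          ring
        _ ≤ _ := add_le_add (mul_le_mul_of_nonneg_left b4 n1) (mul_le_mul_of_nonneg_left b5 n2)
    have hi1 : IntervalIntegrable (fun t : ℝ => ‖riemannZeta (σ + t * I) - Sx σ X t‖ ^ 6) volume 0 T :=
      (((zeta_cont hs1).sub (Sx_cont hX0 σ)).norm.pow 6).intervalIntegrable _ _
    have hi2 : IntervalIntegrable (fun t : ℝ => 32 * C ^ 6 * (X ^ (1 - σ)) ^ 6 * Real.exp (-t)) volume 0 T :=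
      (Continuous.intervalIntegrable (by fun_prop) _ _)
    have hi3 : IntervalIntegrable (fun t : ℝ => 32 * C ^ 6 * (X ^ (s0 - σ)) ^ 6 * (32 * GG s0 t))
        volume 0 T := (g1.const_mul 32).const_mul _
    have hI := intervalIntegral.integral_mono_on hT0.le hi1 (hi2.add hi3) hpt
    rw [intervalIntegral.integral_add hi2 hi3, intervalIntegral.integral_const_mul,
      intervalIntegral.integral_const_mul, intervalIntegral.integral_const_mul] at hI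
    have hexp : ∫ t in (0 : ℝ)..T, Real.exp (-t) ≤ 1 := by
      have h3 := intervalIntegral.integral_comp_neg (a := 0) (b := T) Real.exp
      rw [h3, neg_zero, integral_exp, Real.exp_zero]
      have := Real.exp_pos (-T)
      linarith
    have x1 : (X ^ (1 - σ)) ^ 6 ≤ T ^ (3 / 10 : ℝ) := by
      rw [← Real.rpow_natCast, ← Real.rpow_mul hX0.le, hX, ← Real.rpow_mul hT0.le]
      refine Real.rpow_le_rpow_of_exponent_le hT ?_
      push_cast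
      linarith
    have x2 : (X ^ (s0 - σ)) ^ 6 = T ^ (-(2 * e)) := by
      rw [← Real.rpow_natCast, ← Real.rpow_mul hX0.le, hX, ← Real.rpow_mul hT0.le, he]
      congr 1
      push_cast
      ring
    have hfin : ∫ t in (0 : ℝ)..T, ‖riemannZeta (σ + t * I) - Sx σ X t‖ ^ 6 ≤
        32 * C ^ 6 * (T ^ (3 / 10 : ℝ) + 32 * A * (T ^ (-(2 * e)) * T ^ (1 + e))) := by
      refine hI.trans ?_
      rw [x2]
      have n0 : 0 ≤ 32 * C ^ 6 := by positivity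
      have n3 : 0 ≤ T ^ (-(2 * e)) := by positivity
      calc 32 * C ^ 6 * (X ^ (1 - σ)) ^ 6 * (∫ t in (0 : ℝ)..T, Real.exp (-t)) +
            32 * C ^ 6 * T ^ (-(2 * e)) * (32 * ∫ t in (0 : ℝ)..T, GG s0 t)
          ≤ 32 * C ^ 6 * T ^ (3 / 10 : ℝ) * 1 +
            32 * C ^ 6 * T ^ (-(2 * e)) * (32 * (A * T ^ (1 + e))) := by
            apply add_le_add
            · exact mul_le_mul (mul_le_mul_of_nonneg_left x1 n0) hexp
                (intervalIntegral.integral_nonneg hT0.le fun t _ => (Real.exp_pos _).le)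
                (by positivity)
            · gcongr
        _ = _ := by ring
    show T⁻¹ * ∫ t in (0 : ℝ)..T, ‖riemannZeta (σ + t * I) - Sx σ X t‖ ^ 6 ≤ _
    have y1 : T⁻¹ * T ^ (3 / 10 : ℝ) = T ^ (-(7 / 10) : ℝ) := by
      rw [← Real.rpow_neg_one, ← Real.rpow_add hT0]
      congr 1
      norm_num
    have y2 : T⁻¹ * (T ^ (-(2 * e)) * T ^ (1 + e)) = T ^ (-e) := by
      rw [← Real.rpow_neg_one, ← Real.rpow_add hT0, ← Real.rpow_add hT0]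
      congr 1
      ring
    calc _ ≤ T⁻¹ * (32 * C ^ 6 * (T ^ (3 / 10 : ℝ) + 32 * A * (T ^ (-(2 * e)) * T ^ (1 + e)))) :=
          mul_le_mul_of_nonneg_left hfin (inv_pos.2 hT0).le
      _ = 32 * C ^ 6 * (T⁻¹ * T ^ (3 / 10 : ℝ) + 32 * A * (T⁻¹ * (T ^ (-(2 * e)) * T ^ (1 + e)))) := by
          ring
      _ = 32 * C ^ 6 * (T ^ (-(7 / 10) : ℝ) + 32 * A * T ^ (-e)) := by rw [y1, y2]
      _ ≤ 32 * C ^ 6 * (T ^ (-(min e (7 / 10))) + 32 * A * T ^ (-(min e (7 / 10)))) := by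
          have z1 : T ^ (-(7 / 10) : ℝ) ≤ T ^ (-(min e (7 / 10))) :=
            Real.rpow_le_rpow_of_exponent_le hT (neg_le_neg (min_le_right _ _))
          have z2 : T ^ (-e) ≤ T ^ (-(min e (7 / 10))) :=
            Real.rpow_le_rpow_of_exponent_le hT (neg_le_neg (min_le_left _ _))
          gcongr
      _ = _ := by ring

/-- **Carlson's step** with a power saving error term. -/
theorem carlson_pow {s0 : ℝ} (h0 : 1 / 2 ≤ s0) (h1 : s0 < 1)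
    (h : ∀ e : ℝ, 0 < e → ∃ C : ℝ, ∀ T : ℝ, 1 ≤ T →
      ∫ t in T..(2 * T), ‖riemannZeta (s0 + t * I)‖ ^ 6 ≤ C * T ^ (1 + e))
    {σ : ℝ} (hs : s0 < σ) (hs1 : σ < 1) :
    Summable (fun n : ℕ => (d3 n : ℝ) ^ 2 * (n : ℝ) ^ (-(2 * σ))) ∧
    ∃ η C : ℝ, 0 < η ∧ ∀ T : ℝ, 1 ≤ T →
      |(T⁻¹ * ∫ t in (0 : ℝ)..T, ‖riemannZeta (σ + t * I)‖ ^ 6) -
        ∑' n : ℕ, (d3 n : ℝ) ^ 2 * (n : ℝ) ^ (-(2 * σ))| ≤ C * T ^ (-η) := by
  have hσ : 1 / 2 < σ := by linarith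
  refine ⟨d3_summable hσ, ?_⟩
  obtain ⟨b, CB, hb, hCB, hB⟩ := E7_mean hσ hs1
  obtain ⟨r, CR, hr, hCR, hR⟩ := E7_diff h0 h1 h hs hs1
  refine E7_squeeze hb hr hCB hCR ?_ hB hR ?_ ?_
  · intro T hT
    have : 0 ≤ ∫ t in (0 : ℝ)..T, ‖riemannZeta (σ + t * I)‖ ^ 6 :=
      intervalIntegral.integral_nonneg (by linarith) fun t _ => by positivity
    positivity
  · intro T hT l hl0 hl1
    have hT0 : 0 < T := by linarith
    set X : ℝ := T ^ (1 / 10 : ℝ) with hX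
    have hX0 : 0 < X := Real.rpow_pos_of_pos hT0 _
    have i1 : IntervalIntegrable (fun t : ℝ => ‖riemannZeta (σ + t * I)‖ ^ 6) volume 0 T :=
      ((zeta_cont hs1).norm.pow 6).intervalIntegrable _ _
    have i2 : IntervalIntegrable (fun t : ℝ => ‖Sx σ X t‖ ^ 6) volume 0 T :=
      ((Sx_cont hX0 σ).norm.pow 6).intervalIntegrable _ _
    have i3 : IntervalIntegrable (fun t : ℝ => ‖riemannZeta (σ + t * I) - Sx σ X t‖ ^ 6) volume 0 T :=
      (((zeta_cont hs1).sub (Sx_cont hX0 σ)).norm.pow 6).intervalIntegrable _ _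
    have hI : ∫ t in (0 : ℝ)..T, ‖riemannZeta (σ + t * I)‖ ^ 6 ≤
        ∫ t in (0 : ℝ)..T, (((1 - l) ^ 5)⁻¹ * ‖Sx σ X t‖ ^ 6 +
          (l ^ 5)⁻¹ * ‖riemannZeta (σ + t * I) - Sx σ X t‖ ^ 6) := by
      refine intervalIntegral.integral_mono_on hT0.le i1 ((i2.const_mul _).add (i3.const_mul _))
        fun t _ => ?_
      refine le_trans (pow_le_pow_left₀ (norm_nonneg _) ?_ 6)
        (E5_conv (norm_nonneg _) (norm_nonneg _) hl0 hl1)
      have := norm_add_le (Sx σ X t) (riemannZeta (σ + t * I) - Sx σ X t)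
      rwa [add_sub_cancel] at this
    rw [intervalIntegral.integral_add (i2.const_mul _) (i3.const_mul _),
      intervalIntegral.integral_const_mul, intervalIntegral.integral_const_mul] at hI
    calc T⁻¹ * ∫ t in (0 : ℝ)..T, ‖riemannZeta (σ + t * I)‖ ^ 6
        ≤ T⁻¹ * (((1 - l) ^ 5)⁻¹ * (∫ t in (0 : ℝ)..T, ‖Sx σ X t‖ ^ 6) +
          (l ^ 5)⁻¹ * ∫ t in (0 : ℝ)..T, ‖riemannZeta (σ + t * I) - Sx σ X t‖ ^ 6) :=
          mul_le_mul_of_nonneg_left hI (inv_pos.2 hT0).le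
      _ = _ := by ring
  · intro T hT l hl0 hl1
    have hT0 : 0 < T := by linarith
    set X : ℝ := T ^ (1 / 10 : ℝ) with hX
    have hX0 : 0 < X := Real.rpow_pos_of_pos hT0 _
    have i1 : IntervalIntegrable (fun t : ℝ => ‖riemannZeta (σ + t * I)‖ ^ 6) volume 0 T :=
      ((zeta_cont hs1).norm.pow 6).intervalIntegrable _ _
    have i2 : IntervalIntegrable (fun t : ℝ => ‖Sx σ X t‖ ^ 6) volume 0 T :=
      ((Sx_cont hX0 σ).norm.pow 6).intervalIntegrable _ _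
    have i3 : IntervalIntegrable (fun t : ℝ => ‖riemannZeta (σ + t * I) - Sx σ X t‖ ^ 6) volume 0 T :=
      (((zeta_cont hs1).sub (Sx_cont hX0 σ)).norm.pow 6).intervalIntegrable _ _
    have hI : ∫ t in (0 : ℝ)..T, ‖Sx σ X t‖ ^ 6 ≤
        ∫ t in (0 : ℝ)..T, (((1 - l) ^ 5)⁻¹ * ‖riemannZeta (σ + t * I)‖ ^ 6 +
          (l ^ 5)⁻¹ * ‖riemannZeta (σ + t * I) - Sx σ X t‖ ^ 6) := by
      refine intervalIntegral.integral_mono_on hT0.le i2 ((i1.const_mul _).add (i3.const_mul _))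
        fun t _ => ?_
      refine le_trans (pow_le_pow_left₀ (norm_nonneg _) ?_ 6)
        (E5_conv (norm_nonneg _) (norm_nonneg _) hl0 hl1)
      have := norm_sub_le (riemannZeta (σ + t * I)) (riemannZeta (σ + t * I) - Sx σ X t)
      rwa [sub_sub_cancel] at this
    rw [intervalIntegral.integral_add (i1.const_mul _) (i3.const_mul _),
      intervalIntegral.integral_const_mul, intervalIntegral.integral_const_mul] at hI
    calc T⁻¹ * ∫ t in (0 : ℝ)..T, ‖Sx σ X t‖ ^ 6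
        ≤ T⁻¹ * (((1 - l) ^ 5)⁻¹ * (∫ t in (0 : ℝ)..T, ‖riemannZeta (σ + t * I)‖ ^ 6) +
          (l ^ 5)⁻¹ * ∫ t in (0 : ℝ)..T, ‖riemannZeta (σ + t * I) - Sx σ X t‖ ^ 6) :=
          mul_le_mul_of_nonneg_left hI (inv_pos.2 hT0).le
      _ = _ := by ring

end OL
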