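import Mathlib

/-! # the binomial series with exponent `-z` -/

set_option autoImplicit false

open Complex MeasureTheory Set Filter Topology
open scoped ComplexConjugate

namespace OL

theorem k11a_coeff (z : ℂ) (k : ℕ) :
    Ring.choose (z + k - 1) k = ∏ i ∈ Finset.range k, (z + i) / (i + 1) := by
  rw [← Ring.multichoose_eq]
  have h := Ring.factorial_nsmul_multichoose_eq_ascPochhammer z k
  rw [Polynomial.ascPochhammer_smeval_eq_eval] at h
  have h2 : ∀ n : ℕ, Polynomial.eval z (ascPochhammer ℂ n) = ∏ i ∈ Finset.range n, (z + i) := by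
    intro n
    induction n with
    | zero => simp
    | succ n ih => rw [ascPochhammer_succ_eval, ih, Finset.prod_range_succ]
  rw [h2] at h
  have h3 : ((k.factorial : ℕ) : ℂ) = ∏ i ∈ Finset.range k, ((i : ℂ) + 1) := by
    rw [← Finset.prod_range_add_one_eq_factorial]
    push_cast
    rfl
  have h4 : ((k.factorial : ℕ) : ℂ) ≠ 0 := Nat.cast_ne_zero.2 (Nat.factorial_ne_zero k)
  rw [Finset.prod_div_distrib, ← h, ← h3, nsmul_eq_mul]
  field_simp

/-- Row `k-11a`. The binomial series. PROOF: for `z : ℝ`, `‖w‖ < 1`: `∑_k (∏_{i<k} (z+i)/(i+1)) w^k = (1-w)^(-z)`.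
Mathlib: `Mathlib/Analysis/Analytic/Binomial.lean` (`binomialSeries`, `one_add_cpow_hasFPowerSeriesOnBall_zero` and similar; `Ring.choose (-z) k * (-1)^k
= ∏_{i<k}(z+i)/(i+1)`), or by hand: the series is `f(w)`, `(1-w) f'(w) = z f(w)`, so `f(w) (1-w)^z` is constant. Also summability of the norms. -/
theorem binom_ser {z : ℝ} {w : ℂ} (hw : ‖w‖ < 1) :
    Summable (fun k : ℕ => ‖((∏ i ∈ Finset.range k, (z + i) / (i + 1) : ℝ) : ℂ) * w ^ k‖) ∧
    ∑' k : ℕ, ((∏ i ∈ Finset.range k, (z + i) / (i + 1) : ℝ) : ℂ) * w ^ k = (1 - w) ^ (-(z : ℂ)) := by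
  have H := Complex.one_div_one_sub_cpow_hasFPowerSeriesOnBall_zero (z : ℂ)
  have hterm : ∀ k : ℕ, (FormalMultilinearSeries.ofScalars ℂ (fun n : ℕ => Ring.choose ((z : ℂ) + n - 1) n)) k (fun _ => w)
      = ((∏ i ∈ Finset.range k, (z + i) / (i + 1) : ℝ) : ℂ) * w ^ k := by
    intro k
    rw [FormalMultilinearSeries.ofScalars_apply_eq, k11a_coeff, smul_eq_mul]
    congr 1
    push_cast
    rfl
  have hmem : w ∈ Metric.eball (0 : ℂ) 1 := by
    rw [← ENNReal.ofReal_one, Metric.eball_ofReal]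
    simpa using hw
  constructor
  · have h1 := (FormalMultilinearSeries.ofScalars ℂ (fun n : ℕ => Ring.choose ((z : ℂ) + n - 1) n)).summable_norm_apply
      (x := w) (Metric.eball_subset_eball H.r_le hmem)
    refine h1.congr (fun k => ?_)
    rw [hterm]
  · have h2 := (H.hasSum hmem).tsum_eq
    rw [zero_add] at h2
    rw [cpow_neg, ← one_div, ← h2]
    exact tsum_congr (fun k => (hterm k).symm)

end OL
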