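import Pool.Agent.Lib.MP_39df77_nt.OL.K0

/-! # the coefficients of `ζ(s)^z` -/

set_option autoImplicit false

open Complex MeasureTheory Set Filter Topology
open scoped ComplexConjugate

namespace OL

lemma k13_pos {z : ℝ} (hz : 0 < z) (j : ℕ) : 0 ≤ ∏ i ∈ Finset.range j, (z + i) / (i + 1) :=
  Finset.prod_nonneg fun i _ => by positivity

/-- Row `k-13`, part 1. PROOF: a product of nonnegative numbers. -/
lemma dz_nonneg {z : ℝ} (hz : 0 < z) (n : ℕ) : 0 ≤ dz z n := by
  unfold dz Finsupp.prod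
  exact Finset.prod_nonneg fun p _ => k13_pos hz _

/-- part 2 (`Nat.factorization_mul_of_coprime`, `Finsupp.prod_add_index_of_disjoint`) -/
lemma dz_mul (z : ℝ) {m n : ℕ} (h : Nat.Coprime m n) : dz z (m * n) = dz z m * dz z n := by
  unfold dz
  rw [Nat.factorization_mul_of_coprime h]
  apply Finsupp.prod_add_index_of_disjoint
  rw [Nat.support_factorization, Nat.support_factorization]
  exact h.disjoint_primeFactors

/-- part 3 (`Nat.Prime.factorization_pow`, `Finsupp.prod_single_index`) -/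
lemma dz_pow (z : ℝ) {p : ℕ} (hp : p.Prime) (k : ℕ) : dz z (p ^ k) = ∏ i ∈ Finset.range k, (z + i) / (i + 1) := by
  unfold dz
  rw [hp.factorization_pow]
  exact Finsupp.prod_single_index (by simp)

/-- part 4 -/
lemma dz_one (n : ℕ) : dz 1 n = 1 := by
  unfold dz Finsupp.prod
  refine Finset.prod_eq_one fun p _ => Finset.prod_eq_one fun i _ => ?_
  rw [add_comm]
  exact div_self (by positivity)

lemma k13_Z {z : ℝ} (hz : 0 < z) (j : ℕ) :
    ∏ i ∈ Finset.range j, (z + i) / (i + 1) ≤ (max 1 z) ^ j := by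
  calc ∏ i ∈ Finset.range j, (z + i) / (i + 1) ≤ ∏ _i ∈ Finset.range j, max 1 z := by
        refine Finset.prod_le_prod (fun i _ => by positivity) fun i _ => ?_
        rw [div_le_iff₀ (by positivity)]
        have h1 : (1 : ℝ) ≤ max 1 z := le_max_left _ _
        have h2 : z ≤ max 1 z := le_max_right _ _
        have h3 : (0 : ℝ) ≤ i := Nat.cast_nonneg i
        nlinarith
    _ = _ := by rw [Finset.prod_const, Finset.card_range]

lemma k13_poly {z : ℝ} (hz : 0 < z) {k : ℕ} (hk : z ≤ k) (j : ℕ) :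
    ∏ i ∈ Finset.range j, (z + i) / (i + 1) ≤ ((j : ℝ) + 1) ^ k := by
  induction j with
  | zero => simp
  | succ j ih =>
    rw [Finset.prod_range_succ]
    have hj : (0 : ℝ) < (j : ℝ) + 1 := by positivity
    have h1 : (z + j) / (j + 1) ≤ (((j : ℝ) + 1 + 1) / (j + 1)) ^ k := by
      have h0 : (0 : ℝ) ≤ 1 / ((j : ℝ) + 1) := by positivity
      have hb := one_add_mul_le_pow (a := 1 / ((j : ℝ) + 1)) (by linarith) k
      have e1 : ((j : ℝ) + 1 + 1) / (j + 1) = 1 + 1 / ((j : ℝ) + 1) := by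
        field_simp
      rw [e1]
      refine le_trans ?_ hb
      have e2 : 1 + (k : ℝ) * (1 / ((j : ℝ) + 1)) = ((j : ℝ) + 1 + k) / (j + 1) := by
        field_simp
      rw [e2]
      refine div_le_div_of_nonneg_right ?_ hj.le
      linarith
    calc (∏ i ∈ Finset.range j, (z + i) / (i + 1)) * ((z + j) / (j + 1))
        ≤ ((j : ℝ) + 1) ^ k * (((j : ℝ) + 1 + 1) / (j + 1)) ^ k :=
          mul_le_mul ih h1 (by positivity) (by positivity)
      _ = (((j + 1 : ℕ) : ℝ) + 1) ^ k := by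
          rw [← mul_pow]
          congr 1
          push_cast
          field_simp

lemma k13_D {e : ℝ} (he : 0 < e) (k : ℕ) : ∃ D : ℝ, 1 ≤ D ∧
    ∀ j : ℕ, ((j : ℝ) + 1) ^ k ≤ D * (2 : ℝ) ^ ((j : ℝ) * e) := by
  have hc : 0 < e * Real.log 2 := mul_pos he (Real.log_pos one_lt_two)
  refine ⟨max 1 (k.factorial / (e * Real.log 2) ^ k * Real.exp (e * Real.log 2)),
    le_max_left _ _, fun j => ?_⟩
  have h1 := Real.pow_div_factorial_le_exp (((j : ℝ) + 1) * (e * Real.log 2)) (by positivity) k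
  rw [div_le_iff₀ (by positivity), mul_pow] at h1
  have h2 : (2 : ℝ) ^ ((j : ℝ) * e) = Real.exp (j * (e * Real.log 2)) := by
    rw [Real.rpow_def_of_pos two_pos]
    congr 1
    ring
  have h3 : Real.exp (((j : ℝ) + 1) * (e * Real.log 2)) =
      Real.exp (e * Real.log 2) * Real.exp (j * (e * Real.log 2)) := by
    rw [← Real.exp_add]
    congr 1
    ring
  rw [h3] at h1
  have h4 : ((j : ℝ) + 1) ^ k ≤ (k.factorial / (e * Real.log 2) ^ k *
      Real.exp (e * Real.log 2)) * Real.exp (j * (e * Real.log 2)) := by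
    rw [div_mul_eq_mul_div, div_mul_eq_mul_div, le_div_iff₀ (by positivity)]
    calc _ ≤ _ := h1
      _ = _ := by ring
  rw [h2]
  exact h4.trans (mul_le_mul_of_nonneg_right (le_max_right _ _) (Real.exp_pos _).le)

/-- part 5. PROOF: put `r_j = ∏_{i<j} (z+i)/(i+1)`, `Z = max 1 z`. Then `r_j ≤ Z^j`, and `r_j ≤ (j+1)^k` with a natural number `k ≥ z`
(`(z+i)/(i+1) ≤ (1 + 1/(i+1))^k`), so for every `e > 0` there is `D ≥ 1` with `r_j ≤ D 2^(je)` for all `j`. For a prime `p` with `p^e ≥ Z`: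
`r_j ≤ p^(je)`; otherwise `r_j ≤ D p^(je)`. So `dz z n ≤ D^(number of primes p with p^e < Z) * ∏_p p^(je) ≤ C n^e`. (Compare `fm_div` in
`MP_39df77_nt/U6/A06.lean`.) -/
theorem dz_bound {z e : ℝ} (hz : 0 < z) (he : 0 < e) : ∃ C : ℝ, 1 ≤ C ∧ ∀ n : ℕ, n ≠ 0 → dz z n ≤ C * (n : ℝ) ^ e := by
  obtain ⟨k, hk⟩ := exists_nat_ge z
  obtain ⟨D, hD1, hD⟩ := k13_D he k
  obtain ⟨N, hN⟩ := exists_nat_ge ((max 1 z) ^ (1 / e))
  have hZ : 1 ≤ max 1 z := le_max_left _ _
  have hZ0 : 0 ≤ max 1 z := by linarith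
  refine ⟨D ^ N, one_le_pow₀ hD1, fun n hn => ?_⟩
  have key : ∀ p ∈ n.primeFactors, (∏ i ∈ Finset.range (n.factorization p), (z + i) / (i + 1)) ≤
      (if p < N then D else 1) * ((p : ℝ) ^ (n.factorization p)) ^ e := by
    intro p hp
    have hpp := Nat.prime_of_mem_primeFactors hp
    obtain ⟨j, hj⟩ : ∃ j, j = n.factorization p := ⟨_, rfl⟩
    rw [← hj]
    have hp2 : (2 : ℝ) ≤ p := by exact_mod_cast hpp.two_le
    have hp0 : (0 : ℝ) ≤ p := by linarith
    have e1 : ((p : ℝ) ^ j) ^ e = (p : ℝ) ^ ((j : ℝ) * e) := by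
      rw [← Real.rpow_natCast, ← Real.rpow_mul hp0]
    split_ifs with h
    · calc _ ≤ ((j : ℝ) + 1) ^ k := k13_poly hz hk j
        _ ≤ D * 2 ^ ((j : ℝ) * e) := hD j
        _ ≤ D * (p : ℝ) ^ ((j : ℝ) * e) :=
            mul_le_mul_of_nonneg_left (Real.rpow_le_rpow two_pos.le hp2 (by positivity))
              (by linarith)
        _ = _ := by rw [e1]
    · rw [one_mul, e1, mul_comm (j : ℝ) e, Real.rpow_mul hp0, Real.rpow_natCast]
      have h2 : max 1 z ≤ (p : ℝ) ^ e := by
        have h3 : (max 1 z) ^ (1 / e) ≤ p := hN.trans (by exact_mod_cast not_lt.1 h)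
        calc max 1 z = ((max 1 z) ^ (1 / e)) ^ e := by
              rw [← Real.rpow_mul hZ0, one_div_mul_cancel he.ne', Real.rpow_one]
          _ ≤ _ := Real.rpow_le_rpow (Real.rpow_nonneg hZ0 _) h3 he.le
      exact (k13_Z hz j).trans (pow_le_pow_left₀ hZ0 h2 j)
  unfold dz Finsupp.prod
  rw [Nat.support_factorization]
  calc ∏ p ∈ n.primeFactors, ∏ i ∈ Finset.range (n.factorization p), (z + i) / (i + 1)
      ≤ ∏ p ∈ n.primeFactors, (if p < N then D else 1) * ((p : ℝ) ^ (n.factorization p)) ^ e :=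
        Finset.prod_le_prod (fun p _ => k13_pos hz _) key
    _ = (∏ p ∈ n.primeFactors, (if p < N then D else 1)) * (n : ℝ) ^ e := by
        rw [Finset.prod_mul_distrib, Real.finsetProd_rpow _ _ (fun p _ => by positivity)]
        congr 2
        conv_rhs => rw [← Nat.prod_factorization_pow_eq_self hn]
        unfold Finsupp.prod
        rw [Nat.support_factorization]
        push_cast
        rfl
    _ ≤ D ^ N * (n : ℝ) ^ e := by
        refine mul_le_mul_of_nonneg_right ?_ (Real.rpow_nonneg (Nat.cast_nonneg n) _)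
        rw [Finset.prod_ite, Finset.prod_const, Finset.prod_const_one, mul_one]
        apply pow_le_pow_right₀ hD1
        calc (n.primeFactors.filter (· < N)).card ≤ (Finset.range N).card := by
              apply Finset.card_le_card
              intro p hp
              exact Finset.mem_range.2 (Finset.mem_filter.1 hp).2
          _ = N := Finset.card_range N

end OL
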