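import Pool.Agent.Lib.MP_39df77_nt.OL.K0
import Pool.Agent.Lib.MP_39df77_nt.OL.K11a
import Pool.Agent.Lib.MP_39df77_nt.OL.K13

/-! # powers of the Euler product over small primes -/

set_option autoImplicit false

open Complex MeasureTheory Set Filter Topology
open scoped ComplexConjugate

namespace OL

/-- the multiplicative function -/
noncomputable def k11b_f (z : ℝ) (s : ℂ) (n : ℕ) : ℂ := (dz z n : ℂ) * (n : ℂ) ^ (-s)

lemma k11b_one (z : ℝ) (s : ℂ) : k11b_f z s 1 = 1 := by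
  have h : dz z 1 = 1 := by
    unfold dz
    rw [Nat.factorization_one, Finsupp.prod_zero_index]
  unfold k11b_f
  rw [h, Nat.cast_one, one_cpow]
  simp

lemma k11b_mul (z : ℝ) (s : ℂ) {m n : ℕ} (h : Nat.Coprime m n) :
    k11b_f z s (m * n) = k11b_f z s m * k11b_f z s n := by
  unfold k11b_f
  rw [dz_mul z h, Nat.cast_mul, natCast_mul_natCast_cpow]
  push_cast
  ring

lemma k11b_cpow (s : ℂ) (p k : ℕ) : ((p ^ k : ℕ) : ℂ) ^ (-s) = ((p : ℂ) ^ (-s)) ^ k := by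
  induction k with
  | zero => rw [pow_zero, Nat.cast_one, one_cpow, pow_zero]
  | succ k ih => rw [pow_succ, Nat.cast_mul, natCast_mul_natCast_cpow, ih, pow_succ]

lemma k11b_pow (z : ℝ) (s : ℂ) {p : ℕ} (hp : p.Prime) (k : ℕ) : k11b_f z s (p ^ k) =
    ((∏ i ∈ Finset.range k, (z + i) / (i + 1) : ℝ) : ℂ) * ((p : ℂ) ^ (-s)) ^ k := by
  unfold k11b_f
  rw [dz_pow z hp k, k11b_cpow]

lemma k11b_norm {σ : ℝ} (hσ : 0 < σ) (t : ℝ) {p : ℕ} (hp : p.Prime) :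
    ‖(p : ℂ) ^ (-(σ + t * I : ℂ))‖ < 1 := by
  rw [norm_natCast_cpow_of_pos hp.pos]
  apply Real.rpow_lt_one_of_one_lt_of_neg
  · exact_mod_cast hp.one_lt
  · simp
    exact hσ

/-- Row `k-11b`, part 1. PROOF: `EulerProduct.summable_and_hasSum_smoothNumbers_prod_primesBelow_tsum` for the multiplicative
function `f n = (dz z n : ℂ) * n^(-s)` (`f 1 = 1`, `f (m n) = f m * f n` for coprime `m, n` by `dz_mul`, `f 0 = 0` if `s ≠ 0`), with
`f (p^k) = (∏_{i<k}(z+i)/(i+1)) (p^{-s})^k` (`dz_pow`), and `binom_ser` with `w = p^{-s}`, `‖w‖ = p^{-σ} < 1`. `EZ` is a sum over `n + 1` with the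
indicator function of `M.smoothNumbers`; `(n+1)^{-σ} ei(-t log(n+1)) = (n+1)^{-s}` (`E2_pow`). -/
theorem EZ_prod (M : ℕ) {z σ : ℝ} (hz : 0 < z) (hσ : 0 < σ) (t : ℝ) :
    EZ M z σ t = ∏ p ∈ M.primesBelow, (1 - (p : ℂ) ^ (-(σ + t * I : ℂ))) ^ (-(z : ℂ)) := by
  classical
  obtain ⟨s, hs⟩ : ∃ s : ℂ, s = σ + t * I := ⟨_, rfl⟩
  have hsum : ∀ {p : ℕ}, p.Prime → Summable (fun n : ℕ => ‖k11b_f z s (p ^ n)‖) := by
    intro p hp
    have h1 := (binom_ser (z := z) (k11b_norm hσ t hp)).1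
    refine h1.congr fun n => ?_
    rw [k11b_pow z s hp n, hs]
  have h2 := (EulerProduct.summable_and_hasSum_smoothNumbers_prod_primesBelow_tsum (f := k11b_f z s)
    (k11b_one z s) (fun {m n} h => k11b_mul z s h) hsum M).2
  have h3 : ∏ p ∈ M.primesBelow, ∑' n : ℕ, k11b_f z s (p ^ n) =
      ∏ p ∈ M.primesBelow, (1 - (p : ℂ) ^ (-(σ + t * I : ℂ))) ^ (-(z : ℂ)) := by
    refine Finset.prod_congr rfl fun p hp => ?_
    have hpp : p.Prime := Nat.prime_of_mem_primesBelow hp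
    rw [← (binom_ser (z := z) (k11b_norm hσ t hpp)).2]
    refine tsum_congr fun n => ?_
    rw [k11b_pow z s hpp n, hs]
  rw [h3] at h2
  have h4 : HasSum (Set.indicator (Nat.smoothNumbers M) (k11b_f z s))
      (∏ p ∈ M.primesBelow, (1 - (p : ℂ) ^ (-(σ + t * I : ℂ))) ^ (-(z : ℂ))) :=
    hasSum_subtype_iff_indicator.mp h2
  rw [← hasSum_nat_add_iff' 1] at h4
  have h5 : ∑ i ∈ Finset.range 1, Set.indicator (Nat.smoothNumbers M) (k11b_f z s) i = 0 := by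
    rw [Finset.sum_range_one]
    exact Set.indicator_of_notMem (fun h => Nat.ne_zero_of_mem_smoothNumbers h rfl) _
  rw [h5, sub_zero] at h4
  rw [← h4.tsum_eq]
  unfold EZ
  refine tsum_congr fun n => ?_
  by_cases hn : n + 1 ∈ Nat.smoothNumbers M
  · rw [Set.indicator_of_mem hn, sI, if_pos hn]
    unfold k11b_f
    have h6 := E2_pow (n := n) σ t
    have h7 : ((n + 1 : ℕ) : ℂ) = ((n + 1 : ℝ) : ℂ) := by push_cast; rfl
    rw [h7, hs, h6]
    push_cast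
    ring
  · rw [Set.indicator_of_notMem hn, sI, if_neg hn]
    simp

/-- part 2. PROOF: `EZ_prod` with `z = 1` (`dz 1 n = 1`, so `EZ M 1 = EM M`) and with `z = A/2`; `‖u^(-z)‖ = ‖u‖^(-z)` for real `z` and
`u ≠ 0` (`Complex.norm_cpow_real` or `Complex.norm_cpow_of_ne_zero`). -/
theorem EM_pow (M : ℕ) {A σ : ℝ} (hA : 0 < A) (hσ : 0 < σ) (t : ℝ) :
    ‖EM M σ t‖ ^ A = ‖EZ M (A / 2) σ t‖ ^ 2 := by
  have h1 : EM M σ t = EZ M 1 σ t := by
    unfold EM EZ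
    refine tsum_congr fun n => ?_
    rw [dz_one, mul_one]
  have h2 : ∀ z : ℝ, 0 < z → ‖EZ M z σ t‖ =
      ∏ p ∈ M.primesBelow, ‖1 - (p : ℂ) ^ (-(σ + t * I : ℂ))‖ ^ (-z) := by
    intro z hz
    rw [EZ_prod M hz hσ t, norm_prod]
    refine Finset.prod_congr rfl fun p _ => ?_
    have h3 : (-(z : ℂ)) = ((-z : ℝ) : ℂ) := by push_cast; rfl
    rw [h3, norm_cpow_real]
  rw [h1, h2 1 one_pos, h2 (A / 2) (by linarith), ← Finset.prod_pow,
    ← Real.finsetProd_rpow _ _ (fun p _ => Real.rpow_nonneg (norm_nonneg _) _)]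
  refine Finset.prod_congr rfl fun p _ => ?_
  rw [← Real.rpow_natCast, ← Real.rpow_mul (norm_nonneg _), ← Real.rpow_mul (norm_nonneg _)]
  congr 1
  push_cast
  ring

end OL
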