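import Pool.Agent.Lib.MP_39df77_nt.OL.K0

/-! # mean value of an absolutely convergent series -/

set_option autoImplicit false

open Complex MeasureTheory Set Filter Topology
open scoped ComplexConjugate

namespace OL

/-- the mean value as a double series -/
lemma k12_expand {c : ℕ → ℝ} (hc : ∀ n, 0 ≤ c n) (hs : Summable c) (T : ℝ) :
    ((T⁻¹ * ∫ t in (0 : ℝ)..T,
      ‖∑' n : ℕ, (c n : ℂ) * ei (-(t * Real.log (n + 1 : ℝ)))‖ ^ 2 : ℝ) : ℂ) =
    ∑' p : ℕ × ℕ, ((c p.1 * c p.2 : ℝ) : ℂ) * ((T : ℂ)⁻¹ * ∫ t in (0 : ℝ)..T,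
        ei (t * (Real.log (p.2 + 1 : ℝ) - Real.log (p.1 + 1 : ℝ)))) := by
  have hcs : Summable fun n : ℕ => ‖(c n : ℂ)‖ := by
    simpa [abs_of_nonneg (hc _)] using hs
  have hnorm : ∀ t : ℝ, Summable fun n : ℕ => ‖(c n : ℂ) * ei (-(t * Real.log (n + 1 : ℝ)))‖ := by
    intro t
    simpa [norm_mul, ei_norm] using hcs
  have hprod : ∀ t : ℝ, (((‖∑' n : ℕ, (c n : ℂ) * ei (-(t * Real.log (n + 1 : ℝ)))‖ ^ 2 : ℝ)) : ℂ) =
      ∑' p : ℕ × ℕ, ((c p.1 * c p.2 : ℝ) : ℂ) *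
        ei (t * (Real.log (p.2 + 1 : ℝ) - Real.log (p.1 + 1 : ℝ))) := by
    intro t
    have h1 : ∀ z : ℂ, ((‖z‖ ^ 2 : ℝ) : ℂ) = z * (starRingEnd ℂ) z := by
      intro z
      rw [mul_conj, normSq_eq_norm_sq]
    have h2 : (starRingEnd ℂ) (∑' n : ℕ, (c n : ℂ) * ei (-(t * Real.log (n + 1 : ℝ)))) =
        ∑' n : ℕ, (c n : ℂ) * ei (t * Real.log (n + 1 : ℝ)) := by
      rw [conj_tsum]
      congr 1
      funext n
      rw [map_mul, conj_ofReal, ei_conj, neg_neg]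
    have hnorm' : Summable fun n : ℕ => ‖(c n : ℂ) * ei (t * Real.log (n + 1 : ℝ))‖ := by
      simpa [norm_mul, ei_norm] using hcs
    rw [h1, h2, tsum_mul_tsum_of_summable_norm (hnorm t) hnorm']
    congr 1
    funext p
    have h3 : ei (t * (Real.log (p.2 + 1 : ℝ) - Real.log (p.1 + 1 : ℝ))) =
        ei (-(t * Real.log (p.1 + 1 : ℝ))) * ei (t * Real.log (p.2 + 1 : ℝ)) := by
      rw [← ei_add]
      congr 1
      ring
    rw [h3]
    push_cast
    ring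
  have hcc : Summable fun p : ℕ × ℕ => c p.1 * c p.2 := hs.mul_of_nonneg hs hc hc
  have hint : HasSum (fun p : ℕ × ℕ => ∫ t in (0 : ℝ)..T, ((c p.1 * c p.2 : ℝ) : ℂ) *
      ei (t * (Real.log (p.2 + 1 : ℝ) - Real.log (p.1 + 1 : ℝ))))
      (∫ t in (0 : ℝ)..T, ∑' p : ℕ × ℕ, ((c p.1 * c p.2 : ℝ) : ℂ) *
        ei (t * (Real.log (p.2 + 1 : ℝ) - Real.log (p.1 + 1 : ℝ)))) := by
    refine intervalIntegral.hasSum_integral_of_dominated_convergence
      (fun p _ => c p.1 * c p.2) (fun p => ?_) (fun p => ?_) ?_ ?_ ?_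
    · refine (Continuous.aestronglyMeasurable ?_)
      exact continuous_const.mul (ei_cont.comp (by fun_prop))
    · refine Eventually.of_forall fun t _ => ?_
      rw [norm_mul, ei_norm, mul_one, Complex.norm_real, Real.norm_of_nonneg
        (mul_nonneg (hc _) (hc _))]
    · exact Eventually.of_forall fun t _ => hcc
    · exact intervalIntegrable_const
    · refine Eventually.of_forall fun t _ => ?_
      refine Summable.hasSum (Summable.of_norm ?_)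
      refine hcc.congr fun p => ?_
      rw [norm_mul, ei_norm, mul_one, Complex.norm_real, Real.norm_of_nonneg
        (mul_nonneg (hc _) (hc _))]
  rw [ofReal_mul, ← intervalIntegral.integral_ofReal]
  simp_rw [hprod]
  rw [← hint.tsum_eq, ← tsum_mul_left, ofReal_inv]
  congr 1
  funext p
  rw [intervalIntegral.integral_const_mul]
  ring

/-- the kernel is bounded by `1` -/
lemma k12_norm (u : ℝ) {T : ℝ} (hT : 0 < T) :
    ‖(T : ℂ)⁻¹ * ∫ t in (0 : ℝ)..T, ei (t * u)‖ ≤ 1 := by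
  have h1 : ‖∫ t in (0 : ℝ)..T, ei (t * u)‖ ≤ 1 * |T - 0| :=
    intervalIntegral.norm_integral_le_of_norm_le_const fun t _ => (ei_norm _).le
  rw [norm_mul, norm_inv, Complex.norm_real, Real.norm_of_nonneg hT.le, ← div_eq_inv_mul,
    div_le_one hT]
  refine h1.trans (le_of_eq ?_)
  rw [sub_zero, one_mul, abs_of_pos hT]

/-- the limit of the kernel -/
lemma k12_lim (m n : ℕ) : Tendsto (fun T : ℝ => (T : ℂ)⁻¹ * ∫ t in (0 : ℝ)..T,
    ei (t * (Real.log (n + 1 : ℝ) - Real.log (m + 1 : ℝ)))) atTop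
    (𝓝 (if m = n then (1 : ℂ) else 0)) := by
  rw [tendsto_iff_norm_sub_tendsto_zero]
  have h0 : Tendsto (fun T : ℝ => (2 * ((m + 1 : ℝ) + (n + 1 : ℝ))) * T⁻¹) atTop (𝓝 0) := by
    have := tendsto_inv_atTop_zero (𝕜 := ℝ)
    simpa using this.const_mul (2 * ((m + 1 : ℝ) + (n + 1 : ℝ)))
  refine squeeze_zero' (Eventually.of_forall fun T => norm_nonneg _) ?_ h0
  filter_upwards [eventually_gt_atTop (0 : ℝ)] with T hT
  have hTC : (T : ℂ) ≠ 0 := by exact_mod_cast hT.ne'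
  have e : (T : ℂ)⁻¹ * (∫ t in (0 : ℝ)..T,
      ei (t * (Real.log (n + 1 : ℝ) - Real.log (m + 1 : ℝ)))) - (if m = n then (1 : ℂ) else 0) =
      (T : ℂ)⁻¹ * ((∫ t in (0 : ℝ)..T,
        ei (t * (Real.log (n + 1 : ℝ) - Real.log (m + 1 : ℝ)))) -
          (if m = n then (T : ℂ) else 0)) := by
    rw [mul_sub]
    congr 1
    split_ifs
    · rw [inv_mul_cancel₀ hTC]
    · rw [mul_zero]
  rw [e, norm_mul, norm_inv, Complex.norm_real, Real.norm_of_nonneg hT.le, mul_comm]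
  exact mul_le_mul_of_nonneg_right E1_J (inv_nonneg.2 hT.le)

/-- Row `k-12`. PROOF: expand `‖∑ a_n ei(..)‖^2` as a double series (as in `E1_mv`, `OL/E1.lean`), integrate termwise:
`T⁻¹ ∫_0^T = ∑'_{(m,n)} a_m a_n k_T(m,n)`, `k_T(m,n) = T⁻¹ ∫_0^T ei(t (log(n+1) - log(m+1))) dt`, `‖k_T‖ ≤ 1`, `k_T(m,n) → [m=n]` (`E1_J`); dominated
convergence (`tendsto_tsum_of_dominated_convergence`). Or: `E1_mv` for the truncated sequence `a_n 1[n<N]`, and
`|‖S‖^2 - ‖S_N‖^2| ≤ 2 (∑ a) ∑_{n≥N} a_n`. -/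
theorem mv_abs {a : ℕ → ℝ} (ha : ∀ n, 0 ≤ a n) (hs : Summable a) :
    Tendsto (fun T : ℝ => T⁻¹ * ∫ t in (0 : ℝ)..T,
      ‖∑' n : ℕ, (a n : ℂ) * ei (-(t * Real.log (n + 1 : ℝ)))‖ ^ 2) atTop (𝓝 (∑' n, a n ^ 2)) := by
  have hcc : Summable fun p : ℕ × ℕ => a p.1 * a p.2 := hs.mul_of_nonneg hs ha ha
  have hS : Summable fun p : ℕ × ℕ => ((a p.1 * a p.2 : ℝ) : ℂ) *
      (if p.1 = p.2 then (1 : ℂ) else 0) := by
    refine Summable.of_norm_bounded hcc fun p => ?_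
    rw [norm_mul, Complex.norm_real, Real.norm_of_nonneg (mul_nonneg (ha _) (ha _))]
    split_ifs
    · rw [norm_one, mul_one]
    · rw [norm_zero, mul_zero]
      exact mul_nonneg (ha _) (ha _)
  have h2 : ∑' p : ℕ × ℕ, ((a p.1 * a p.2 : ℝ) : ℂ) * (if p.1 = p.2 then (1 : ℂ) else 0) =
      ((∑' n : ℕ, a n ^ 2 : ℝ) : ℂ) := by
    rw [hS.tsum_prod]
    have h3 : ∀ m : ℕ, ∑' n : ℕ, ((a m * a n : ℝ) : ℂ) * (if m = n then (1 : ℂ) else 0) =
        ((a m ^ 2 : ℝ) : ℂ) := by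
      intro m
      rw [tsum_eq_single m]
      · rw [if_pos rfl]
        push_cast
        ring
      · intro n hn
        rw [if_neg hn.symm, mul_zero]
    simp only [h3]
    rw [← ofReal_tsum]
  have hmain : Tendsto (fun T : ℝ => ∑' p : ℕ × ℕ, ((a p.1 * a p.2 : ℝ) : ℂ) *
      ((T : ℂ)⁻¹ * ∫ t in (0 : ℝ)..T,
        ei (t * (Real.log (p.2 + 1 : ℝ) - Real.log (p.1 + 1 : ℝ))))) atTop
      (𝓝 (∑' p : ℕ × ℕ, ((a p.1 * a p.2 : ℝ) : ℂ) * (if p.1 = p.2 then (1 : ℂ) else 0))) := by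
    refine tendsto_tsum_of_dominated_convergence hcc (fun p => ?_) ?_
    · exact (k12_lim p.1 p.2).const_mul _
    · filter_upwards [eventually_gt_atTop (0 : ℝ)] with T hT p
      rw [norm_mul, Complex.norm_real, Real.norm_of_nonneg (mul_nonneg (ha _) (ha _))]
      exact mul_le_of_le_one_right (mul_nonneg (ha _) (ha _)) (k12_norm _ hT)
  rw [h2] at hmain
  have hre := (Complex.continuous_re.tendsto _).comp hmain
  rw [ofReal_re] at hre
  refine hre.congr fun T => ?_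
  rw [Function.comp_apply, ← k12_expand ha hs T, ofReal_re]

end OL
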