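import Pool.Agent.Lib.MP_39df77_nt.OL.K0

/-! # the smooth part -/

set_option autoImplicit false

open Complex MeasureTheory Set Filter Topology
open scoped ComplexConjugate

namespace OL

/-- the multiplicative function `n ^ (-σ)` -/
noncomputable def k10_f (σ : ℝ) : ℕ →* ℝ where
  toFun n := (n : ℝ) ^ (-σ)
  map_one' := by rw [Nat.cast_one, Real.one_rpow]
  map_mul' a b := by rw [Nat.cast_mul, Real.mul_rpow (Nat.cast_nonneg a) (Nat.cast_nonneg b)]

lemma k10_nonneg (M n : ℕ) : 0 ≤ sI M n := by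
  unfold sI
  split_ifs <;> norm_num

lemma k10_le (M n : ℕ) : sI M n ≤ 1 := by
  unfold sI
  split_ifs <;> norm_num

lemma k10_sum {σ : ℝ} (hσ : 0 < σ) (M : ℕ) :
    Summable (fun n : ℕ => sI M (n + 1) * (n + 1 : ℝ) ^ (-σ)) := by
  have h1 := (EulerProduct.summable_and_hasSum_smoothNumbers_prod_primesBelow_geometric
    (f := k10_f σ) (fun {p} hp => by
      show ‖((p : ℝ) ^ (-σ) : ℝ)‖ < 1
      rw [Real.norm_of_nonneg (by positivity)]
      exact Real.rpow_lt_one_of_one_lt_of_neg (by exact_mod_cast hp.one_lt) (by linarith)) M).1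
  have h2 := (summable_subtype_iff_indicator
    (s := Nat.smoothNumbers M) (f := fun n : ℕ => ‖k10_f σ n‖)).1 h1
  have h3 := h2.comp_injective (i := fun n : ℕ => n + 1) (add_left_injective 1)
  refine h3.congr fun n => ?_
  show (Nat.smoothNumbers M).indicator (fun n : ℕ => ‖k10_f σ n‖) (n + 1) = _
  unfold sI
  by_cases h : n + 1 ∈ Nat.smoothNumbers M
  · rw [Set.indicator_of_mem h, if_pos h, one_mul]
    show ‖(((n + 1 : ℕ) : ℝ) ^ (-σ) : ℝ)‖ = _
    rw [Real.norm_of_nonneg (by positivity)]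
    push_cast
    rfl
  · rw [Set.indicator_of_notMem h, if_neg h, zero_mul]


/-- Row `k-10`, part 1. PROOF: `EulerProduct.summable_and_hasSum_smoothNumbers_prod_primesBelow_geometric` for the real
function `n ↦ n^(-σ)` (a `ℕ →*₀ ℝ`), values `< 1` at primes as `σ > 0`; transfer from the subtype `M.smoothNumbers` to `ℕ` and shift by one
(`0` is not smooth). -/
theorem sI_summable (M : ℕ) {σ : ℝ} (hσ : 0 < σ) : Summable fun n : ℕ => sI M (n + 1) * (n + 1 : ℝ) ^ (-σ) := k10_sum hσ M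

/-- part 2. PROOF: the difference is `∑' n, sI M (n+1) (e^{-(n+1)/X} - 1) (n+1)^{-σ} ei(..)`, of modulus
`≤ ∑' n, sI M (n+1) (1 - e^{-(n+1)/X}) (n+1)^{-σ}`, which tends to `0` as `X → ∞` by dominated convergence
(`tendsto_tsum_of_dominated_convergence`, bound from part 1). -/
theorem Sx_split (M : ℕ) {σ : ℝ} (hσ : 0 < σ) {ε : ℝ} (hε : 0 < ε) :
    ∀ᶠ X : ℝ in atTop, ∀ t : ℝ, ‖Sx σ X t - Qx M σ X t - EM M σ t‖ ≤ ε := by
  have hsum := k10_sum hσ M
  have hr : ∀ n : ℕ, 0 ≤ (n + 1 : ℝ) ^ (-σ) := fun n => by positivity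
  have hlim : Tendsto (fun X : ℝ => ∑' n : ℕ, sI M (n + 1) *
      (1 - Real.exp (-((n + 1 : ℝ) / X))) * (n + 1 : ℝ) ^ (-σ)) atTop (𝓝 (∑' _n : ℕ, (0 : ℝ))) := by
    refine tendsto_tsum_of_dominated_convergence hsum (fun n => ?_) ?_
    · have h1 : Tendsto (fun X : ℝ => (n + 1 : ℝ) / X) atTop (𝓝 0) :=
        tendsto_const_nhds.div_atTop tendsto_id
      have h2 : Tendsto (fun X : ℝ => Real.exp (-((n + 1 : ℝ) / X))) atTop (𝓝 (Real.exp (-0))) :=
        (Real.continuous_exp.tendsto _).comp h1.neg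
      have h3 := ((tendsto_const_nhds (x := (1 : ℝ))).sub h2).const_mul (sI M (n + 1))
      have h4 := h3.mul_const ((n + 1 : ℝ) ^ (-σ))
      simpa using h4
    · filter_upwards [eventually_gt_atTop (0 : ℝ)] with X hX n
      have h1 : Real.exp (-((n + 1 : ℝ) / X)) ≤ 1 := by
        rw [Real.exp_le_one_iff]
        have : 0 ≤ (n + 1 : ℝ) / X := by positivity
        linarith
      have h2 := Real.exp_pos (-((n + 1 : ℝ) / X))
      have h3 := k10_nonneg M (n + 1)
      rw [Real.norm_of_nonneg (mul_nonneg (mul_nonneg h3 (by linarith)) (hr n))]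
      refine mul_le_mul_of_nonneg_right ?_ (hr n)
      exact mul_le_of_le_one_right h3 (by linarith)
  rw [tsum_zero] at hlim
  filter_upwards [hlim.eventually (gt_mem_nhds hε), eventually_gt_atTop (0 : ℝ)] with X h1 hX t
  have hS := (E2_real hX σ).2.1
  have hNR : ∀ n : ℕ, NR M X (n + 1) = (1 - sI M (n + 1)) * Real.exp (-((n + 1 : ℝ) / X)) := by
    intro n
    show (if n + 1 = 0 ∨ n + 1 ∈ Nat.smoothNumbers M then (0 : ℝ) else
      Real.exp (-(((n + 1 : ℕ) : ℝ) / X))) = _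
    unfold sI
    by_cases h : n + 1 ∈ Nat.smoothNumbers M
    · rw [if_pos (Or.inr h), if_pos h]
      ring
    · rw [if_neg (by simpa using h), if_neg h]
      push_cast
      ring
  have hei : ∀ n : ℕ, ‖ei (-(t * Real.log (n + 1 : ℝ)))‖ = 1 := fun n => ei_norm _
  have hb : ∀ {a : ℕ → ℝ}, Summable (fun n => ‖a n‖) →
      Summable fun n : ℕ => ((a n : ℝ) : ℂ) * ei (-(t * Real.log (n + 1 : ℝ))) := by
    intro a ha
    refine Summable.of_norm (ha.congr fun n => ?_)
    rw [norm_mul, hei, mul_one, Complex.norm_real]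
  have s1 : Summable fun n : ℕ => ‖Real.exp (-((n + 1 : ℝ) / X)) * (n + 1 : ℝ) ^ (-σ)‖ := hS.norm
  have s2 : Summable fun n : ℕ => ‖NR M X (n + 1) * (n + 1 : ℝ) ^ (-σ)‖ := by
    refine Summable.of_nonneg_of_le (fun n => norm_nonneg _) (fun n => ?_) s1
    rw [hNR, norm_mul, norm_mul, norm_mul]
    refine mul_le_mul_of_nonneg_right ?_ (norm_nonneg _)
    refine mul_le_of_le_one_left (norm_nonneg _) ?_
    have h2 := k10_nonneg M (n + 1)
    have h3 := k10_le M (n + 1)
    rw [Real.norm_eq_abs, abs_le]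
    constructor <;> linarith
  have s3 : Summable fun n : ℕ => ‖sI M (n + 1) * (n + 1 : ℝ) ^ (-σ)‖ := hsum.norm
  have s4 : Summable fun n : ℕ => ‖sI M (n + 1) * (1 - Real.exp (-((n + 1 : ℝ) / X))) *
      (n + 1 : ℝ) ^ (-σ)‖ := by
    refine Summable.of_nonneg_of_le (fun n => norm_nonneg _) (fun n => ?_) s3
    rw [norm_mul, norm_mul, norm_mul]
    refine mul_le_mul_of_nonneg_right ?_ (norm_nonneg _)
    refine mul_le_of_le_one_right (norm_nonneg _) ?_
    have h2 : Real.exp (-((n + 1 : ℝ) / X)) ≤ 1 := by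
      rw [Real.exp_le_one_iff]
      have : 0 ≤ (n + 1 : ℝ) / X := by positivity
      linarith
    have h3 := Real.exp_pos (-((n + 1 : ℝ) / X))
    rw [Real.norm_eq_abs, abs_le]
    constructor <;> linarith
  have e1 : Sx σ X t - Qx M σ X t - EM M σ t = - ∑' n : ℕ,
      ((sI M (n + 1) * (1 - Real.exp (-((n + 1 : ℝ) / X))) * (n + 1 : ℝ) ^ (-σ) : ℝ) : ℂ) *
        ei (-(t * Real.log (n + 1 : ℝ))) := by
    unfold Sx Qx EM
    rw [← (hb s1).tsum_sub (hb s2), ← ((hb s1).sub (hb s2)).tsum_sub (hb s3), ← tsum_neg]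
    refine tsum_congr fun n => ?_
    rw [hNR]
    push_cast
    ring
  rw [e1, norm_neg]
  refine le_trans (norm_tsum_le_tsum_norm ((hb s4).norm)) ?_
  refine le_trans (le_of_eq (tsum_congr fun n => ?_)) h1.le
  have h2 : Real.exp (-((n + 1 : ℝ) / X)) ≤ 1 := by
    rw [Real.exp_le_one_iff]
    have : 0 ≤ (n + 1 : ℝ) / X := by positivity
    linarith
  rw [norm_mul, hei, mul_one, Complex.norm_real,
    Real.norm_of_nonneg (mul_nonneg (mul_nonneg (k10_nonneg M (n + 1)) (by linarith)) (hr n))]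

/-- part 3. PROOF: `continuous_tsum`. -/
theorem EM_cont (M : ℕ) {σ : ℝ} (hσ : 0 < σ) : Continuous fun t : ℝ => EM M σ t := by
  unfold EM
  refine continuous_tsum (u := fun n : ℕ => sI M (n + 1) * (n + 1 : ℝ) ^ (-σ))
    (fun n => ?_) (k10_sum hσ M) (fun n t => ?_)
  · exact continuous_const.mul (ei_cont.comp (by fun_prop))
  · rw [norm_mul, ei_norm, mul_one, Complex.norm_real,
      Real.norm_of_nonneg (mul_nonneg (k10_nonneg M (n + 1)) (by positivity))]

end OL
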