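import Pool.Agent.Lib.MP_39df77_nt.OL.K13
import Pool.Agent.Lib.MP_39df77_nt.OL.K10

/-! # sums with the coefficients of `ζ(s)^z` -/

set_option autoImplicit false

open Complex MeasureTheory Set Filter Topology
open scoped ComplexConjugate

namespace OL

/-- `n ↦ n^(-δ)` as a completely multiplicative function -/
noncomputable def k13b_hom (δ : ℝ) : ℕ →* ℝ where
  toFun n := (n : ℝ) ^ (-δ)
  map_one' := by
    rw [Nat.cast_one, Real.one_rpow]
  map_mul' m n := by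
    rw [Nat.cast_mul, Real.mul_rpow (Nat.cast_nonneg m) (Nat.cast_nonneg n)]

lemma k13b_smooth {δ : ℝ} (hδ : 0 < δ) (M : ℕ) :
    Summable (fun n : ℕ => sI M (n + 1) * (n + 1 : ℝ) ^ (-δ)) := by
  classical
  have h1 := (EulerProduct.summable_and_hasSum_smoothNumbers_prod_primesBelow_geometric
    (F := ℝ) (f := k13b_hom δ) (fun {p} hp => by
      have hp2 : (1 : ℝ) < p := by exact_mod_cast hp.one_lt
      change ‖(p : ℝ) ^ (-δ)‖ < 1
      rw [Real.norm_of_nonneg (Real.rpow_nonneg (by linarith) _)]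
      exact Real.rpow_lt_one_of_one_lt_of_neg hp2 (by linarith)) M).1
  have h2 : Summable (fun n : ℕ => (Nat.smoothNumbers M).indicator (fun n : ℕ => (n : ℝ) ^ (-δ)) n) := by
    rw [← summable_subtype_iff_indicator]
    refine h1.congr fun m => ?_
    change ‖((m : ℕ) : ℝ) ^ (-δ)‖ = ((m : ℕ) : ℝ) ^ (-δ)
    exact Real.norm_of_nonneg (Real.rpow_nonneg (Nat.cast_nonneg _) _)
  have h3 := (summable_nat_add_iff 1).2 h2
  refine h3.congr fun n => ?_
  unfold sI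
  by_cases h : n + 1 ∈ Nat.smoothNumbers M
  · rw [Set.indicator_of_mem h, if_pos h, one_mul]
    push_cast
    rfl
  · rw [Set.indicator_of_notMem h, if_neg h, zero_mul]

lemma k13b_rpow {x e : ℝ} (hx : 0 < x) : (x ^ e) ^ 2 = x ^ (2 * e) := by
  rw [← Real.rpow_natCast, ← Real.rpow_mul hx.le]
  congr 1
  push_cast
  ring

theorem k13b_dz {z σ : ℝ} (hz : 0 < z) (hσ : 1 / 2 < σ) :
    Summable (fun n : ℕ => dz z (n + 1) ^ 2 * (n + 1 : ℝ) ^ (-(2 * σ))) := by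
  obtain ⟨e, he⟩ : ∃ e, e = (σ - 1 / 2) / 2 := ⟨_, rfl⟩
  have he0 : 0 < e := by rw [he]; linarith
  obtain ⟨C, hC, H⟩ := dz_bound hz he0
  have h1 : Summable (fun n : ℕ => C ^ 2 * (n + 1 : ℝ) ^ (-(2 * (σ - e)))) := by
    apply Summable.mul_left
    have h2 : Summable (fun n : ℕ => ((n : ℝ)) ^ (-(2 * (σ - e)))) := by
      rw [Real.summable_nat_rpow]
      linarith
    have h3 := (summable_nat_add_iff 1).2 h2
    refine h3.congr fun n => ?_
    push_cast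
    rfl
  refine Summable.of_nonneg_of_le (fun n => ?_) (fun n => ?_) h1
  · have : (0 : ℝ) < n + 1 := by positivity
    positivity
  · have hn : (0 : ℝ) < n + 1 := by positivity
    have h2 := H (n + 1) (Nat.succ_ne_zero n)
    push_cast at h2
    have h3 : dz z (n + 1) ^ 2 ≤ C ^ 2 * (n + 1 : ℝ) ^ (2 * e) := by
      have h4 := pow_le_pow_left₀ (dz_nonneg hz (n + 1)) h2 2
      rwa [mul_pow, k13b_rpow hn] at h4
    calc dz z (n + 1) ^ 2 * (n + 1 : ℝ) ^ (-(2 * σ)) ≤ (C ^ 2 * (n + 1 : ℝ) ^ (2 * e)) * (n + 1 : ℝ) ^ (-(2 * σ)) :=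
          mul_le_mul_of_nonneg_right h3 (Real.rpow_nonneg hn.le _)
      _ = C ^ 2 * (n + 1 : ℝ) ^ (-(2 * (σ - e))) := by
          rw [mul_assoc, ← Real.rpow_add hn]
          congr 2
          ring

/-- Row `k-13b`, part 1. PROOF: `dz_bound` with `e = (2σ-1)/4`, as `d3_summable` (`OL/E3.lean`). -/
theorem dz_summable {z σ : ℝ} (hz : 0 < z) (hσ : 1 / 2 < σ) :
    Summable fun n : ℕ => dz z n ^ 2 * (n : ℝ) ^ (-(2 * σ)) := by
  rw [← summable_nat_add_iff 1]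
  refine (k13b_dz hz hσ).congr fun n => ?_
  push_cast
  rfl

lemma k13b_sI_nonneg (M n : ℕ) : 0 ≤ sI M n := by
  unfold sI
  split_ifs <;> norm_num

lemma k13b_sI_le_one (M n : ℕ) : sI M n ≤ 1 := by
  unfold sI
  split_ifs <;> norm_num

/-- part 2. PROOF: `dz_bound` with `e = σ/2` and `sI_summable` at `σ/2`. -/
theorem EZ_summable (M : ℕ) {z σ : ℝ} (hz : 0 < z) (hσ : 0 < σ) :
    Summable fun n : ℕ => sI M (n + 1) * dz z (n + 1) * (n + 1 : ℝ) ^ (-σ) := by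
  obtain ⟨C, hC, H⟩ := dz_bound hz (half_pos hσ)
  refine Summable.of_nonneg_of_le (fun n => ?_) (fun n => ?_) ((k13b_smooth (half_pos hσ) M).mul_left C)
  · have hn : (0 : ℝ) < n + 1 := by positivity
    exact mul_nonneg (mul_nonneg (k13b_sI_nonneg _ _) (dz_nonneg hz _)) (Real.rpow_nonneg hn.le _)
  · have hn : (0 : ℝ) < n + 1 := by positivity
    have h2 := H (n + 1) (Nat.succ_ne_zero n)
    push_cast at h2
    calc sI M (n + 1) * dz z (n + 1) * (n + 1 : ℝ) ^ (-σ)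
        ≤ sI M (n + 1) * (C * (n + 1 : ℝ) ^ (σ / 2)) * (n + 1 : ℝ) ^ (-σ) := by
          apply mul_le_mul_of_nonneg_right _ (Real.rpow_nonneg hn.le _)
          exact mul_le_mul_of_nonneg_left h2 (k13b_sI_nonneg _ _)
      _ = C * (sI M (n + 1) * ((n + 1 : ℝ) ^ (σ / 2) * (n + 1 : ℝ) ^ (-σ))) := by ring
      _ = C * (sI M (n + 1) * (n + 1 : ℝ) ^ (-(σ / 2))) := by
          rw [← Real.rpow_add hn]
          congr 3
          ring

theorem k13b_lim {z σ : ℝ} (hz : 0 < z) (hσ : 1 / 2 < σ) :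
    Tendsto (fun M : ℕ => ∑' n : ℕ, (sI M (n + 1) * dz z (n + 1) * (n + 1 : ℝ) ^ (-σ)) ^ 2) atTop
      (𝓝 (∑' n : ℕ, dz z (n + 1) ^ 2 * (n + 1 : ℝ) ^ (-(2 * σ)))) := by
  have hsq : ∀ n : ℕ, ((n + 1 : ℝ) ^ (-σ)) ^ 2 = (n + 1 : ℝ) ^ (-(2 * σ)) := by
    intro n
    rw [k13b_rpow (by positivity)]
    congr 1
    ring
  refine tendsto_tsum_of_dominated_convergence (k13b_dz hz hσ) (fun n => ?_) ?_
  · have h1 : ∀ᶠ M : ℕ in atTop, (sI M (n + 1) * dz z (n + 1) * (n + 1 : ℝ) ^ (-σ)) ^ 2 =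
        dz z (n + 1) ^ 2 * (n + 1 : ℝ) ^ (-(2 * σ)) := by
      filter_upwards [eventually_gt_atTop (n + 1)] with M hM
      have h2 : sI M (n + 1) = 1 := by
        unfold sI
        rw [if_pos]
        rw [Nat.mem_smoothNumbers']
        intro p hp hpn
        exact (Nat.le_of_dvd (Nat.succ_pos n) hpn).trans_lt hM
      rw [h2, one_mul, mul_pow, hsq]
    exact tendsto_nhds_of_eventually_eq h1
  · refine Eventually.of_forall fun M n => ?_
    rw [Real.norm_of_nonneg (by positivity), mul_pow, mul_pow, hsq]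
    have h3 : sI M (n + 1) ^ 2 ≤ 1 := pow_le_one₀ (k13b_sI_nonneg _ _) (k13b_sI_le_one _ _)
    have hn : (0 : ℝ) < n + 1 := by positivity
    have h4 : 0 ≤ dz z (n + 1) ^ 2 * (n + 1 : ℝ) ^ (-(2 * σ)) := by positivity
    calc sI M (n + 1) ^ 2 * dz z (n + 1) ^ 2 * (n + 1 : ℝ) ^ (-(2 * σ)) =
        sI M (n + 1) ^ 2 * (dz z (n + 1) ^ 2 * (n + 1 : ℝ) ^ (-(2 * σ))) := by ring
      _ ≤ 1 * (dz z (n + 1) ^ 2 * (n + 1 : ℝ) ^ (-(2 * σ))) := mul_le_mul_of_nonneg_right h3 h4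
      _ = _ := one_mul _

/-- part 3. PROOF: dominated convergence (`tendsto_tsum_of_dominated_convergence`, bound from part 1 shifted by one):
every `n + 1` is `M`-smooth for `M > n + 1`; the term `n = 0` of the limit vanishes. -/
theorem EZ_lim {z σ : ℝ} (hz : 0 < z) (hσ : 1 / 2 < σ) :
    Tendsto (fun M : ℕ => ∑' n : ℕ, (sI M (n + 1) * dz z (n + 1) * (n + 1 : ℝ) ^ (-σ)) ^ 2) atTop
      (𝓝 (∑' n : ℕ, dz z n ^ 2 * (n : ℝ) ^ (-(2 * σ)))) := by
  have h1 : ∑' n : ℕ, dz z n ^ 2 * (n : ℝ) ^ (-(2 * σ)) =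
      ∑' n : ℕ, dz z (n + 1) ^ 2 * (n + 1 : ℝ) ^ (-(2 * σ)) := by
    rw [(dz_summable hz hσ).tsum_eq_zero_add, Nat.cast_zero, Real.zero_rpow (by linarith), mul_zero, zero_add]
    push_cast
    rfl
  rw [h1]
  exact k13b_lim hz hσ

end OL
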