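import Mathlib

/-! # limits of means of real order -/

set_option autoImplicit false

open Complex MeasureTheory Set Filter Topology
open scoped ComplexConjugate

namespace OL

lemma k14_tangent {x c θ : ℝ} (hx : 0 ≤ x) (hc : 0 < c) (h0 : 0 < θ) (h1 : θ ≤ 1) :
    x ^ θ ≤ θ * c ^ (θ - 1) * x + (1 - θ) * c ^ θ := by
  have h := Real.geom_mean_le_arith_mean2_weighted h0.le (by linarith : 0 ≤ 1 - θ) hx hc.le (by ring)
  have h2 := mul_le_mul_of_nonneg_right h (Real.rpow_nonneg hc.le (θ - 1))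
  have e1 : x ^ θ * c ^ (1 - θ) * c ^ (θ - 1) = x ^ θ := by
    rw [mul_assoc, ← Real.rpow_add hc]
    simp
  have e2 : c * c ^ (θ - 1) = c ^ θ := by
    have := Real.rpow_add hc 1 (θ - 1)
    rw [Real.rpow_one] at this
    rw [← this]
    congr 1
    ring
  rw [e1] at h2
  calc x ^ θ ≤ (θ * x + (1 - θ) * c) * c ^ (θ - 1) := h2
    _ = θ * c ^ (θ - 1) * x + (1 - θ) * (c * c ^ (θ - 1)) := by ring
    _ = _ := by rw [e2]

lemma k14_mean {f : ℝ → ℝ} (hf : Continuous f) (h0 : ∀ t, 0 ≤ f t) {A B T c : ℝ} (hA : 0 < A) (hAB : A ≤ B)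
    (hT : 0 < T) (hc : 0 < c) : T⁻¹ * (∫ t in (0 : ℝ)..T, f t ^ A) ≤
      A / B * c ^ (A / B - 1) * (T⁻¹ * ∫ t in (0 : ℝ)..T, f t ^ B) + (1 - A / B) * c ^ (A / B) := by
  have hB : 0 < B := by linarith
  have hcA : Continuous fun t => f t ^ A := hf.rpow_const fun t => Or.inr hA.le
  have hcB : Continuous fun t => f t ^ B := hf.rpow_const fun t => Or.inr hB.le
  have h1 : (∫ t in (0 : ℝ)..T, f t ^ A) ≤
      ∫ t in (0 : ℝ)..T, (A / B * c ^ (A / B - 1) * f t ^ B + (1 - A / B) * c ^ (A / B)) := by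
    apply intervalIntegral.integral_mono hT.le (hcA.intervalIntegrable _ _)
    · exact ((continuous_const.mul hcB).add continuous_const).intervalIntegrable _ _
    · intro t
      have h2 := k14_tangent (Real.rpow_nonneg (h0 t) B) hc (div_pos hA hB) ((div_le_one hB).2 hAB)
      rw [← Real.rpow_mul (h0 t), mul_div_cancel₀ _ hB.ne'] at h2
      exact h2
  have cc : Continuous fun t => A / B * c ^ (A / B - 1) * f t ^ B := continuous_const.mul hcB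
  have cd : Continuous fun _ : ℝ => (1 - A / B) * c ^ (A / B) := continuous_const
  rw [intervalIntegral.integral_add (cc.intervalIntegrable _ _)
    (cd.intervalIntegrable _ _), intervalIntegral.integral_const_mul,
    intervalIntegral.integral_const] at h1
  have h3 := mul_le_mul_of_nonneg_left h1 (inv_nonneg.2 hT.le)
  refine h3.trans (le_of_eq ?_)
  rw [sub_zero, smul_eq_mul]
  field_simp

/-- Row `k-14`, part 1: power means. PROOF: Hoelder (`intervalIntegral`/`MeasureTheory.integral_mul_le_Lp_mul_Lq_of_nonneg` with the exponent `B/A` and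
the constant function `1`), or Jensen. -/
theorem pmean {f : ℝ → ℝ} (hf : Continuous f) (h0 : ∀ t, 0 ≤ f t) {A B T : ℝ} (hA : 0 < A) (hAB : A ≤ B)
    (hT : 0 < T) : T⁻¹ * (∫ t in (0 : ℝ)..T, f t ^ A) ≤ (T⁻¹ * ∫ t in (0 : ℝ)..T, f t ^ B) ^ (A / B) := by
  have hB : 0 < B := by linarith
  have hθ : 0 < A / B := div_pos hA hB
  have hθ1 : A / B ≤ 1 := (div_le_one hB).2 hAB
  obtain ⟨m, hm⟩ : ∃ m, m = T⁻¹ * ∫ t in (0 : ℝ)..T, f t ^ B := ⟨_, rfl⟩
  have hm0 : 0 ≤ m := by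
    rw [hm]
    exact mul_nonneg (inv_nonneg.2 hT.le) (intervalIntegral.integral_nonneg hT.le
      fun t _ => Real.rpow_nonneg (h0 t) _)
  rw [← hm]
  rcases hm0.eq_or_lt with h | h
  · rw [← h, Real.zero_rpow hθ.ne']
    refine le_of_forall_pos_le_add fun ε hε => ?_
    have h1 := k14_mean hf h0 hA hAB hT (Real.rpow_pos_of_pos hε (A / B)⁻¹)
    rw [← hm, ← h, mul_zero, zero_add, ← Real.rpow_mul hε.le, inv_mul_cancel₀ hθ.ne',
      Real.rpow_one] at h1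
    have h2 : (1 - A / B) * ε ≤ ε := by nlinarith
    linarith
  · have h1 := k14_mean hf h0 hA hAB hT h
    rw [← hm] at h1
    have e2 : m ^ (A / B - 1) * m = m ^ (A / B) := by
      have := Real.rpow_add h (A / B - 1) 1
      rw [Real.rpow_one] at this
      rw [← this]
      congr 1
      ring
    calc T⁻¹ * (∫ t in (0 : ℝ)..T, f t ^ A)
        ≤ A / B * m ^ (A / B - 1) * m + (1 - A / B) * m ^ (A / B) := h1
      _ = A / B * (m ^ (A / B - 1) * m) + (1 - A / B) * m ^ (A / B) := by ring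
      _ = m ^ (A / B) := by rw [e2]; ring

lemma k14_ineq {A l : ℝ} (hA : 0 < A) (hl : 0 < l) : ∃ K : ℝ, 0 ≤ K ∧ ∀ x y : ℂ,
    ‖x‖ ^ A ≤ (1 + l) * ‖y‖ ^ A + K * ‖x - y‖ ^ A := by
  obtain ⟨μ, hμ⟩ : ∃ μ, μ = (1 + l) ^ A⁻¹ - 1 := ⟨_, rfl⟩
  have hμ0 : 0 < μ := by
    have := Real.one_lt_rpow (by linarith : 1 < 1 + l) (inv_pos.2 hA)
    linarith
  have hμA : (1 + μ) ^ A = 1 + l := by
    rw [hμ, add_sub_cancel, ← Real.rpow_mul (by linarith), inv_mul_cancel₀ hA.ne', Real.rpow_one]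
  refine ⟨(1 + 1 / μ) ^ A, by positivity, ?_⟩
  intro x y
  have htri : ‖x‖ ≤ ‖y‖ + ‖x - y‖ := by
    calc ‖x‖ = ‖y + (x - y)‖ := by rw [add_sub_cancel]
      _ ≤ _ := norm_add_le _ _
  rcases le_or_gt ‖x - y‖ (μ * ‖y‖) with h | h
  · have h1 : ‖x‖ ≤ (1 + μ) * ‖y‖ := by linarith
    have h2 : ‖x‖ ^ A ≤ (1 + l) * ‖y‖ ^ A := by
      rw [← hμA, ← Real.mul_rpow (by linarith) (norm_nonneg _)]
      exact Real.rpow_le_rpow (norm_nonneg _) h1 hA.le
    have h3 : 0 ≤ (1 + 1 / μ) ^ A * ‖x - y‖ ^ A := by positivity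
    linarith
  · have h1 : ‖x‖ ≤ (1 + 1 / μ) * ‖x - y‖ := by
      have h2 : ‖y‖ ≤ 1 / μ * ‖x - y‖ := by
        rw [one_div, ← div_eq_inv_mul, le_div_iff₀ hμ0]
        linarith
      linarith
    have h2 : ‖x‖ ^ A ≤ (1 + 1 / μ) ^ A * ‖x - y‖ ^ A := by
      rw [← Real.mul_rpow (by positivity) (norm_nonneg _)]
      exact Real.rpow_le_rpow (norm_nonneg _) h1 hA.le
    have h3 : 0 ≤ (1 + l) * ‖y‖ ^ A := by positivity
    linarith

lemma k14_int {F G : ℝ → ℂ} (hF : Continuous F) (hG : Continuous G) {A l K : ℝ} (hA : 0 < A)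
    (hK : ∀ x y : ℂ, ‖x‖ ^ A ≤ (1 + l) * ‖y‖ ^ A + K * ‖x - y‖ ^ A) {T : ℝ} (hT : 0 < T) :
    T⁻¹ * (∫ t in (0 : ℝ)..T, ‖F t‖ ^ A) ≤ (1 + l) * (T⁻¹ * ∫ t in (0 : ℝ)..T, ‖G t‖ ^ A) +
      K * (T⁻¹ * ∫ t in (0 : ℝ)..T, ‖F t - G t‖ ^ A) := by
  have c1 : Continuous fun t => ‖F t‖ ^ A := hF.norm.rpow_const fun t => Or.inr hA.le
  have c2 : Continuous fun t => ‖G t‖ ^ A := hG.norm.rpow_const fun t => Or.inr hA.le
  have c3 : Continuous fun t => ‖F t - G t‖ ^ A := (hF.sub hG).norm.rpow_const fun t => Or.inr hA.le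
  have h1 : (∫ t in (0 : ℝ)..T, ‖F t‖ ^ A) ≤
      ∫ t in (0 : ℝ)..T, ((1 + l) * ‖G t‖ ^ A + K * ‖F t - G t‖ ^ A) := by
    apply intervalIntegral.integral_mono hT.le (c1.intervalIntegrable _ _)
    · exact ((continuous_const.mul c2).add (continuous_const.mul c3)).intervalIntegrable _ _
    · intro t
      exact hK _ _
  have cc : Continuous fun t => (1 + l) * ‖G t‖ ^ A := continuous_const.mul c2
  have cd : Continuous fun t => K * ‖F t - G t‖ ^ A := continuous_const.mul c3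
  rw [intervalIntegral.integral_add (cc.intervalIntegrable _ _)
    (cd.intervalIntegrable _ _), intervalIntegral.integral_const_mul,
    intervalIntegral.integral_const_mul] at h1
  have h3 := mul_le_mul_of_nonneg_left h1 (inv_nonneg.2 hT.le)
  refine h3.trans (le_of_eq ?_)
  ring

/-- part 2. PROOF: for `0 < l < 1` there is `K` with `‖x‖^A ≤ (1+l) ‖y‖^A + K ‖x-y‖^A` for all `x, y` (if `‖x-y‖ ≤ μ ‖y‖` then
`‖x‖^A ≤ (1+μ)^A ‖y‖^A`, `(1+μ)^A ≤ 1+l` for `μ` small; otherwise `‖x‖ ≤ (1+1/μ) ‖x-y‖`). Use it with `(x,y) = (F t, G M t)` and with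
`(G M t, F t)`, integrate, let `T → ∞`, then `M → ∞` (so `K η_M → 0`), then `l → 0`. Written with `ε`: for every `ε > 0`, choose `l`, then `M`, then `T` large. -/
theorem mean_lim {F : ℝ → ℂ} (hF : Continuous F) {G : ℕ → ℝ → ℂ} (hG : ∀ M, Continuous (G M)) {A : ℝ}
    (hA : 0 < A) {L : ℕ → ℝ} {L0 : ℝ} (hL : Tendsto L atTop (𝓝 L0))
    (h1 : ∀ M, Tendsto (fun T : ℝ => T⁻¹ * ∫ t in (0 : ℝ)..T, ‖G M t‖ ^ A) atTop (𝓝 (L M)))
    {η : ℕ → ℝ} (hη : Tendsto η atTop (𝓝 0))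
    (h2 : ∀ M, ∀ᶠ T : ℝ in atTop, T⁻¹ * (∫ t in (0 : ℝ)..T, ‖F t - G M t‖ ^ A) ≤ η M) :
    Tendsto (fun T : ℝ => T⁻¹ * ∫ t in (0 : ℝ)..T, ‖F t‖ ^ A) atTop (𝓝 L0) := by
  rw [Metric.tendsto_nhds]
  intro ε hε
  obtain ⟨l, hl0, hl⟩ : ∃ l : ℝ, 0 < l ∧ l * (|L0| + ε) = ε / 4 := by
    have h3 : 0 < |L0| + ε := by positivity
    refine ⟨ε / 4 / (|L0| + ε), by positivity, ?_⟩
    field_simp
  obtain ⟨K, hK0, hK⟩ := k14_ineq hA hl0
  have hLM : ∀ᶠ M in atTop, |L M - L0| < ε / 8 := by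
    have := (Metric.tendsto_nhds.1 hL) (ε / 8) (by positivity)
    simpa only [Real.dist_eq] using this
  have hηM : ∀ᶠ M in atTop, K * η M < ε / 8 := by
    have h3 : Tendsto (fun M => K * η M) atTop (𝓝 (K * 0)) := hη.const_mul K
    rw [mul_zero] at h3
    exact (tendsto_order.1 h3).2 _ (by positivity)
  obtain ⟨M, hM1, hM2⟩ := (hLM.and hηM).exists
  have hT1 : ∀ᶠ T : ℝ in atTop, |(T⁻¹ * ∫ t in (0 : ℝ)..T, ‖G M t‖ ^ A) - L M| < ε / 8 := by
    have := (Metric.tendsto_nhds.1 (h1 M)) (ε / 8) (by positivity)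
    simpa only [Real.dist_eq] using this
  filter_upwards [hT1, h2 M, eventually_gt_atTop (0 : ℝ)] with T hT2 hT3 hT0
  have e1 := k14_int hF (hG M) hA hK hT0
  have e2 := k14_int (hG M) hF hA hK hT0
  have e3 : (∫ t in (0 : ℝ)..T, ‖G M t - F t‖ ^ A) = ∫ t in (0 : ℝ)..T, ‖F t - G M t‖ ^ A := by
    congr 1
    funext t
    rw [norm_sub_rev]
  rw [e3] at e2
  have e4 : K * (T⁻¹ * ∫ t in (0 : ℝ)..T, ‖F t - G M t‖ ^ A) ≤ K * η M :=
    mul_le_mul_of_nonneg_left hT3 hK0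
  obtain ⟨a, ha⟩ : ∃ a, a = T⁻¹ * ∫ t in (0 : ℝ)..T, ‖F t‖ ^ A := ⟨_, rfl⟩
  obtain ⟨b, hb⟩ : ∃ b, b = T⁻¹ * ∫ t in (0 : ℝ)..T, ‖G M t‖ ^ A := ⟨_, rfl⟩
  rw [Real.dist_eq, ← ha, abs_lt]
  rw [← ha, ← hb] at e1 e2
  rw [← hb] at hT2
  rw [abs_lt] at hT2 hM1
  have hb1 : b < L0 + ε / 4 := by linarith
  have hb2 : L0 - ε / 4 < b := by linarith
  have f1 : L0 ≤ |L0| := le_abs_self _
  have f2 : -|L0| ≤ L0 := neg_abs_le _
  have ha0 : 0 ≤ a := by
    rw [ha]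
    exact mul_nonneg (inv_nonneg.2 hT0.le) (intervalIntegral.integral_nonneg hT0.le
      fun t _ => by positivity)
  have g1 : l * b ≤ ε / 4 := by
    have : l * b ≤ l * (|L0| + ε) := mul_le_mul_of_nonneg_left (by linarith) hl0.le
    linarith
  constructor
  · -- lower bound
    by_contra hcon
    push Not at hcon
    have h5 : a ≤ L0 - ε := by linarith
    have h6 : l * a ≤ l * (|L0| + ε) := mul_le_mul_of_nonneg_left (by linarith) hl0.le
    have h7 : b ≤ a + l * a + K * η M := by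
      calc b ≤ (1 + l) * a + K * (T⁻¹ * ∫ t in (0 : ℝ)..T, ‖F t - G M t‖ ^ A) := e2
        _ ≤ (1 + l) * a + K * η M := by linarith
        _ = _ := by ring
    linarith
  · have h7 : a ≤ b + l * b + K * η M := by
      calc a ≤ (1 + l) * b + K * (T⁻¹ * ∫ t in (0 : ℝ)..T, ‖F t - G M t‖ ^ A) := e1
        _ ≤ (1 + l) * b + K * η M := by linarith
        _ = _ := by ring
    linarith

end OL
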