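import Pool.Agent.Lib.MP_39df77_nt.OL.K8a

/-! # the non-smooth part: mean value -/

set_option autoImplicit false

open Complex MeasureTheory Set Filter Topology
open scoped ComplexConjugate

namespace OL

/-- Row `k-8b`. PROOF: `E1_mv` for `c n = ((NR M X)^m) (n+1) * (n+1)^(-σ)` and `Qx_pow`, `NR_pow_le`, `NR_pow_zero`:
`∫_0^T ‖Qx‖^(2m) ≤ T ∑ c_n^2 + 4 (∑ c_n)(∑ (n+1) c_n)`; `∑ c_n ≤ X^m` and `∑ (n+1) c_n ≤ (4X^2)^m` by comparison with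
`M3_real`, `M3_sum0`, `M3_sum1` (`MP_069854_nt/R8/M3.lean, M3b.lean`); `c_n^2 ≤ [M ≤ n+1] (oneR^m)(n+1)^2 (n+1)^(-2σ)` (`ER_le`, `af_pow_mono`),
summable by `oneR_sq_summable`. -/
theorem Qx_mean {m M : ℕ} (hm : 1 ≤ m) {σ : ℝ} (hσ : 1 / 2 < σ) {T X : ℝ} (hT : 0 < T) (hX : 0 < X) :
    T⁻¹ * (∫ t in (0 : ℝ)..T, ‖Qx M σ X t‖ ^ (2 * m)) ≤ tl m M σ + T⁻¹ * (4 * (X ^ m * (4 * X ^ 2) ^ m)) := by
  obtain ⟨c, hc⟩ : ∃ c : ℕ → ℝ, c = fun n => ((NR M X) ^ m) (n + 1) * (n + 1 : ℝ) ^ (-σ) := ⟨_, rfl⟩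
  obtain ⟨d, hd⟩ : ∃ d : ℕ → ℝ, d = fun n => ((ER X) ^ m) (n + 1) * (n + 1 : ℝ) ^ (-σ) := ⟨_, rfl⟩
  have hp : ∀ n : ℕ, (0 : ℝ) < (n + 1 : ℝ) ^ (-σ) := fun n => by positivity
  have hc0 : ∀ n, 0 ≤ c n := by
    intro n
    rw [hc]
    exact mul_nonneg (NR_pow_le (n + 1)).1 (hp n).le
  have hcd : ∀ n, c n ≤ d n := by
    intro n
    rw [hc, hd]
    exact mul_le_mul_of_nonneg_right (NR_pow_le (n + 1)).2 (hp n).le
  have s0 : Summable d := by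
    rw [hd]
    exact (M3_real (k := m) hX σ).1
  have b0 : ∑' n, d n ≤ X ^ m := by
    rw [hd]
    exact M3_sum0 (k := m) (σ := σ) (by linarith) hX
  have s1 : Summable fun n : ℕ => (n + 1 : ℝ) * d n := by
    rw [hd]
    exact (M3_sum1 (k := m) (σ := σ) (by linarith) hX).1
  have b1 : ∑' n : ℕ, (n + 1 : ℝ) * d n ≤ (4 * X ^ 2) ^ m := by
    rw [hd]
    exact (M3_sum1 (k := m) (σ := σ) (by linarith) hX).2
  have sc0 : Summable c := s0.of_nonneg_of_le hc0 hcd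
  have sc1 : Summable fun n : ℕ => (n + 1 : ℝ) * c n :=
    s1.of_nonneg_of_le (fun n => mul_nonneg (by positivity) (hc0 n))
      fun n => mul_le_mul_of_nonneg_left (hcd n) (by positivity)
  have bc0 : ∑' n, c n ≤ X ^ m := (sc0.tsum_le_tsum hcd s0).trans b0
  have bc1 : ∑' n : ℕ, (n + 1 : ℝ) * c n ≤ (4 * X ^ 2) ^ m :=
    (sc1.tsum_le_tsum (fun n => mul_le_mul_of_nonneg_left (hcd n) (by positivity)) s1).trans b1
  have h := (abs_le.1 (E1_mv hc0 sc0 sc1 hT.le)).2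
  have e1 : ∀ t : ℝ, ‖Qx M σ X t‖ ^ (2 * m) =
      ‖∑' n : ℕ, (c n : ℂ) * ei (-(t * Real.log (n + 1 : ℝ)))‖ ^ 2 := by
    intro t
    rw [mul_comm 2 m, pow_mul, ← norm_pow, Qx_pow hX σ t, hc]
  have e2 : (∫ t in (0 : ℝ)..T, ‖Qx M σ X t‖ ^ (2 * m)) =
      ∫ t in (0 : ℝ)..T, ‖∑' n : ℕ, (c n : ℂ) * ei (-(t * Real.log (n + 1 : ℝ)))‖ ^ 2 := by
    congr 1
    funext t
    exact e1 t
  have h4 : 4 * ((∑' n, c n) * ∑' n : ℕ, (n + 1 : ℝ) * c n) ≤ 4 * (X ^ m * (4 * X ^ 2) ^ m) := by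
    have n1 : 0 ≤ ∑' n : ℕ, (n + 1 : ℝ) * c n :=
      tsum_nonneg fun n => mul_nonneg (by positivity) (hc0 n)
    gcongr
  have hterm : ∀ n : ℕ, c n ^ 2 ≤
      if M ≤ n + 1 then (oneR ^ m) (n + 1) ^ 2 * (n + 1 : ℝ) ^ (-(2 * σ)) else 0 := by
    intro n
    split_ifs with hM
    · have g1 : ((NR M X) ^ m) (n + 1) ≤ (oneR ^ m) (n + 1) :=
        (NR_pow_le (n + 1)).2.trans (af_pow_mono (ER_nonneg X) (ER_le hX) _ _)
      have g2 : ((n + 1 : ℝ) ^ (-σ)) ^ 2 = (n + 1 : ℝ) ^ (-(2 * σ)) := by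
        rw [sq, ← Real.rpow_add (by positivity)]
        congr 1
        ring
      have g0 : 0 ≤ ((NR M X) ^ m) (n + 1) := (NR_pow_le (n + 1)).1
      have g3 : c n ^ 2 = ((NR M X) ^ m) (n + 1) ^ 2 * (n + 1 : ℝ) ^ (-(2 * σ)) := by
        rw [hc, ← g2]
        ring
      rw [g3]
      have : (0 : ℝ) ≤ (n + 1 : ℝ) ^ (-(2 * σ)) := by positivity
      gcongr
    · have g0 : ((NR M X) ^ m) (n + 1) = 0 := NR_pow_zero hm (not_le.1 hM)
      have : c n = 0 := by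
        rw [hc]
        simp only [g0, zero_mul]
      rw [this]
      norm_num
  have stl : Summable fun n : ℕ =>
      if M ≤ n + 1 then (oneR ^ m) (n + 1) ^ 2 * (n + 1 : ℝ) ^ (-(2 * σ)) else 0 := by
    refine (oneR_sq_summable m (s := 2 * σ) (by linarith)).of_nonneg_of_le (fun n => ?_) fun n => ?_
    · split_ifs
      · positivity
      · exact le_rfl
    · split_ifs
      · exact le_rfl
      · positivity
  have hsq : ∑' n, c n ^ 2 ≤ tl m M σ := by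
    unfold tl
    exact (stl.of_nonneg_of_le (fun n => sq_nonneg _) hterm).tsum_le_tsum hterm stl
  rw [e2]
  have hT1 : 0 < T⁻¹ := inv_pos.2 hT
  calc T⁻¹ * (∫ t in (0 : ℝ)..T, ‖∑' n : ℕ, (c n : ℂ) * ei (-(t * Real.log (n + 1 : ℝ)))‖ ^ 2)
      ≤ T⁻¹ * (T * tl m M σ + 4 * (X ^ m * (4 * X ^ 2) ^ m)) := by
        apply mul_le_mul_of_nonneg_left _ hT1.le
        have : T * ∑' n, c n ^ 2 ≤ T * tl m M σ := mul_le_mul_of_nonneg_left hsq hT.le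
        linarith
    _ = _ := by
        field_simp

/-- part 2. PROOF: tail of a convergent series (`oneR_sq_summable`, `tendsto_tsum_of_dominated_convergence`). -/
theorem tl_tendsto (m : ℕ) {σ : ℝ} (hσ : 1 / 2 < σ) : Tendsto (fun M : ℕ => tl m M σ) atTop (𝓝 0) := by
  have hs := oneR_sq_summable m (s := 2 * σ) (by linarith)
  have h := tendsto_tsum_of_dominated_convergence (𝓕 := (atTop : Filter ℕ))
    (f := fun M n : ℕ => if M ≤ n + 1 then (oneR ^ m) (n + 1) ^ 2 * (n + 1 : ℝ) ^ (-(2 * σ)) else 0)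
    (g := fun _ : ℕ => (0 : ℝ)) hs ?_ ?_
  · simpa [tl] using h
  · intro n
    apply tendsto_const_nhds.congr'
    filter_upwards [eventually_gt_atTop (n + 1)] with M hM
    rw [if_neg (not_le.2 hM)]
  · refine Eventually.of_forall fun M n => ?_
    have h0 : 0 ≤ (oneR ^ m) (n + 1) ^ 2 * (n + 1 : ℝ) ^ (-(2 * σ)) := by positivity
    split_ifs
    · rw [Real.norm_of_nonneg h0]
    · rw [norm_zero]
      exact h0

/-- part 3 -/
theorem tl_nonneg (m M : ℕ) (σ : ℝ) : 0 ≤ tl m M σ := by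
  unfold tl
  refine tsum_nonneg fun n => ?_
  split_ifs
  · positivity
  · exact le_rfl

end OL
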