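import Pool.Agent.Lib.MP_39df77_nt.OL.K7
import Pool.Agent.Lib.MP_39df77_nt.OL.K8b
import Pool.Agent.Lib.MP_39df77_nt.OL.K11b
import Pool.Agent.Lib.MP_39df77_nt.OL.K12
import Pool.Agent.Lib.MP_39df77_nt.OL.K13b
import Pool.Agent.Lib.MP_39df77_nt.OL.K14

/-! # From an upper bound on a line to the asymptotic formula to the right of it, all real orders -/

set_option autoImplicit false

open Complex MeasureTheory Set Filter Topology
open scoped ComplexConjugate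

namespace OL

/-- three summands -/
lemma k15_three {A : ℝ} (hA : 0 < A) (x y z : ℂ) :
    ‖x + y + z‖ ^ A ≤ 3 ^ A * (‖x‖ ^ A + ‖y‖ ^ A + ‖z‖ ^ A) := by
  obtain ⟨m, hm⟩ : ∃ m, m = max ‖x‖ (max ‖y‖ ‖z‖) := ⟨_, rfl⟩
  have h1 : ‖x‖ ≤ m := by rw [hm]; exact le_max_left _ _
  have h2 : ‖y‖ ≤ m := by rw [hm]; exact (le_max_left _ _).trans (le_max_right _ _)
  have h3 : ‖z‖ ≤ m := by rw [hm]; exact (le_max_right _ _).trans (le_max_right _ _)
  have hm0 : 0 ≤ m := (norm_nonneg x).trans h1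
  have h4 : ‖x + y + z‖ ≤ 3 * m := (norm_add₃_le).trans (by linarith)
  have h5 : m ^ A ≤ ‖x‖ ^ A + ‖y‖ ^ A + ‖z‖ ^ A := by
    have hx : 0 ≤ ‖x‖ ^ A := by positivity
    have hy : 0 ≤ ‖y‖ ^ A := by positivity
    have hz : 0 ≤ ‖z‖ ^ A := by positivity
    rcases max_choice ‖x‖ (max ‖y‖ ‖z‖) with h | h
    · rw [hm, h]; linarith
    · rcases max_choice ‖y‖ ‖z‖ with h' | h'
      · rw [hm, h, h']; linarith
      · rw [hm, h, h']; linarith
  calc ‖x + y + z‖ ^ A ≤ (3 * m) ^ A := Real.rpow_le_rpow (norm_nonneg _) h4 hA.le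
    _ = 3 ^ A * m ^ A := Real.mul_rpow (by norm_num) hm0
    _ ≤ _ := mul_le_mul_of_nonneg_left h5 (by positivity)

/-- **asymptotic formula for all orders `0 < A ≤ A0` to the right of `s0`** -/
theorem mean_real {s0 A0 : ℝ} (h0 : 1 / 2 ≤ s0) (hA0 : 1 ≤ A0) (h : MB s0 A0) {σ A : ℝ} (h1 : s0 < σ)
    (h2 : σ < 1) (hA : 0 < A) (hAA : A ≤ A0) :
    Summable (fun n : ℕ => dz (A / 2) n ^ 2 * (n : ℝ) ^ (-(2 * σ))) ∧
    Tendsto (fun T : ℝ => T⁻¹ * ∫ t in (0 : ℝ)..T, ‖riemannZeta (σ + t * I)‖ ^ A) atTop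
      (𝓝 (∑' n : ℕ, dz (A / 2) n ^ 2 * (n : ℝ) ^ (-(2 * σ)))) := by
  have hσ0 : 0 < σ := by linarith
  have hσh : 1 / 2 < σ := by linarith
  have hA2 : 0 < A / 2 := by linarith
  refine ⟨dz_summable hA2 hσh, ?_⟩
  -- an even exponent `2 m ≥ A`
  obtain ⟨m, hm1, hmA⟩ : ∃ m : ℕ, 1 ≤ m ∧ A0 ≤ 2 * m := by
    refine ⟨⌈A0⌉₊ + 1, by omega, ?_⟩
    have := Nat.le_ceil A0
    push_cast
    linarith
  have hmR : (1 : ℝ) ≤ m := by exact_mod_cast hm1
  obtain ⟨δ, hδ⟩ : ∃ δ : ℝ, δ = 1 / (4 * m) := ⟨_, rfl⟩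
  have hδ0 : 0 < δ := by rw [hδ]; positivity
  have hδA : δ * A0 < 1 := by
    rw [hδ, one_div, inv_mul_lt_iff₀ (by positivity)]
    linarith
  have hdiff := K7_diff h0 h1 h2 hA0 hδ0 hδA h
  have hX : Tendsto (fun T : ℝ => T ^ δ) atTop atTop := tendsto_rpow_atTop hδ0
  have hζc := zeta_cont h2
  -- the three errors
  have hr1 : Tendsto (fun T : ℝ => (T⁻¹ * ∫ t in (0 : ℝ)..T,
      ‖riemannZeta (σ + t * I) - Sx σ (T ^ δ) t‖ ^ A0) ^ (A / A0)) atTop (𝓝 0) := by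
    have := hdiff.rpow_const (p := A / A0) (Or.inr (by positivity))
    rwa [Real.zero_rpow (by positivity)] at this
  have hr3 : Tendsto (fun T : ℝ => T⁻¹ * (4 * ((T ^ δ) ^ m * (4 * (T ^ δ) ^ 2) ^ m))) atTop (𝓝 0) := by
    have e1 : (fun T : ℝ => 4 * 4 ^ m * T ^ (-(1 / 4 : ℝ))) =ᶠ[atTop]
        (fun T : ℝ => T⁻¹ * (4 * ((T ^ δ) ^ m * (4 * (T ^ δ) ^ 2) ^ m))) := by
      filter_upwards [eventually_gt_atTop 0] with T hT
      have e2 : (T ^ δ) ^ m = T ^ (1 / 4 : ℝ) := by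
        rw [← Real.rpow_natCast, ← Real.rpow_mul hT.le, hδ]
        congr 1
        field_simp
      have e3 : (4 * (T ^ δ) ^ 2) ^ m = 4 ^ m * T ^ (1 / 2 : ℝ) := by
        rw [mul_pow, ← pow_mul, mul_comm 2 m, pow_mul, e2, ← Real.rpow_natCast (T ^ (1 / 4 : ℝ)) 2,
          ← Real.rpow_mul hT.le]
        norm_num
      rw [e2, e3, ← Real.rpow_neg_one T]
      have e4 : T ^ (-(1 / 4 : ℝ)) = T ^ (-1 : ℝ) * (T ^ (1 / 4 : ℝ) * T ^ (1 / 2 : ℝ)) := by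
        rw [← Real.rpow_add hT, ← Real.rpow_add hT]
        norm_num
      rw [e4]
      ring
    refine Tendsto.congr' e1 ?_
    have := (tendsto_rpow_neg_atTop (y := 1 / 4) (by norm_num)).const_mul (4 * 4 ^ m : ℝ)
    simpa using this
  obtain ⟨η, hη⟩ : ∃ η : ℕ → ℝ, η = fun M : ℕ => 3 ^ A * (1 / ((M : ℝ) + 1) + 1 / ((M : ℝ) + 1) +
      (tl m M σ + 1 / ((M : ℝ) + 1)) ^ (A / (2 * m))) := ⟨_, rfl⟩
  have hinv : Tendsto (fun M : ℕ => 1 / ((M : ℝ) + 1)) atTop (𝓝 0) := tendsto_one_div_add_atTop_nhds_zero_nat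
  have hηl : Tendsto η atTop (𝓝 0) := by
    have e1 := ((tl_tendsto m hσh).add hinv).rpow_const (p := A / (2 * m)) (Or.inr (by positivity))
    rw [add_zero, Real.zero_rpow (by positivity)] at e1
    have e2 := ((hinv.add hinv).add e1).const_mul (3 ^ A)
    rw [hη]
    simpa using e2
  refine mean_lim (G := fun M t => EM M σ t) hζc (fun M => EM_cont M hσ0) hA (EZ_lim hA2 hσh)
    (fun M => ?_) hηl (fun M => ?_)
  · -- the mean value of the Euler product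
    have e1 := mv_abs (a := fun n : ℕ => sI M (n + 1) * dz (A / 2) (n + 1) * (n + 1 : ℝ) ^ (-σ))
      (fun n => by
        have a1 : 0 ≤ sI M (n + 1) := by unfold sI; split_ifs <;> norm_num
        have a2 := dz_nonneg hA2 (n + 1)
        positivity) (EZ_summable M hA2 hσ0)
    refine e1.congr fun T => ?_
    congr 1
    refine intervalIntegral.integral_congr fun t _ => ?_
    show _ = ‖EM M σ t‖ ^ A
    rw [EM_pow M hA hσ0 t]
    rfl
  · -- the difference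
    have hM0 : (0 : ℝ) < 1 / ((M : ℝ) + 1) := by positivity
    obtain ⟨ε, hε0, hεA⟩ : ∃ ε : ℝ, 0 < ε ∧ ε ^ A = 1 / ((M : ℝ) + 1) := by
      refine ⟨(1 / ((M : ℝ) + 1)) ^ (1 / A), by positivity, ?_⟩
      rw [← Real.rpow_mul hM0.le, one_div_mul_cancel hA.ne', Real.rpow_one]
    have hsp := hX.eventually (Sx_split M hσ0 hε0)
    filter_upwards [hsp, hr1.eventually (gt_mem_nhds hM0), hr3.eventually (gt_mem_nhds hM0),
      eventually_gt_atTop 0] with T hT1 hT2 hT3 hT0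
    have hXp : 0 < T ^ δ := by positivity
    have c1 : Continuous fun t : ℝ => ‖riemannZeta (σ + t * I) - Sx σ (T ^ δ) t‖ :=
      (hζc.sub (Sx_cont hXp σ)).norm
    have c2 : Continuous fun t : ℝ => ‖Sx σ (T ^ δ) t - Qx M σ (T ^ δ) t - EM M σ t‖ :=
      (((Sx_cont hXp σ).sub (Qx_cont M hXp σ)).sub (EM_cont M hσ0)).norm
    have c3 : Continuous fun t : ℝ => ‖Qx M σ (T ^ δ) t‖ := (Qx_cont M hXp σ).norm
    have d1 : ∀ a b : ℝ, IntervalIntegrable (fun t : ℝ => ‖riemannZeta (σ + t * I) - Sx σ (T ^ δ) t‖ ^ A)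
      volume a b := fun a b => (c1.rpow_const fun _ => Or.inr hA.le).intervalIntegrable a b
    have d2 : ∀ a b : ℝ, IntervalIntegrable (fun t : ℝ => ‖Sx σ (T ^ δ) t - Qx M σ (T ^ δ) t - EM M σ t‖ ^ A)
      volume a b := fun a b => (c2.rpow_const fun _ => Or.inr hA.le).intervalIntegrable a b
    have d3 : ∀ a b : ℝ, IntervalIntegrable (fun t : ℝ => ‖Qx M σ (T ^ δ) t‖ ^ A)
      volume a b := fun a b => (c3.rpow_const fun _ => Or.inr hA.le).intervalIntegrable a b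
    have d0 : ∀ a b : ℝ, IntervalIntegrable (fun t : ℝ => ‖riemannZeta (σ + t * I) - EM M σ t‖ ^ A)
      volume a b := fun a b =>
        ((hζc.sub (EM_cont M hσ0)).norm.rpow_const fun _ => Or.inr hA.le).intervalIntegrable a b
    have hTi : 0 ≤ T⁻¹ := by positivity
    have g0 : ∫ t in (0 : ℝ)..T, ‖riemannZeta (σ + t * I) - EM M σ t‖ ^ A ≤
        3 ^ A * ((∫ t in (0 : ℝ)..T, ‖riemannZeta (σ + t * I) - Sx σ (T ^ δ) t‖ ^ A) +
          (∫ t in (0 : ℝ)..T, ‖Sx σ (T ^ δ) t - Qx M σ (T ^ δ) t - EM M σ t‖ ^ A) +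
          ∫ t in (0 : ℝ)..T, ‖Qx M σ (T ^ δ) t‖ ^ A) := by
      rw [← intervalIntegral.integral_add (d1 _ _) (d2 _ _),
        ← intervalIntegral.integral_add ((d1 _ _).add (d2 _ _)) (d3 _ _), ← intervalIntegral.integral_const_mul]
      refine intervalIntegral.integral_mono_on hT0.le (d0 _ _) ((((d1 _ _).add (d2 _ _)).add (d3 _ _)).const_mul _)
        fun t _ => ?_
      have e1 : riemannZeta (σ + t * I) - EM M σ t = (riemannZeta (σ + t * I) - Sx σ (T ^ δ) t) +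
          (Sx σ (T ^ δ) t - Qx M σ (T ^ δ) t - EM M σ t) + Qx M σ (T ^ δ) t := by ring
      rw [e1]
      exact k15_three hA _ _ _
    have g1 : T⁻¹ * (∫ t in (0 : ℝ)..T, ‖riemannZeta (σ + t * I) - Sx σ (T ^ δ) t‖ ^ A) ≤
        1 / ((M : ℝ) + 1) :=
      (pmean c1 (fun t => norm_nonneg _) hA hAA hT0).trans hT2.le
    have g2 : T⁻¹ * (∫ t in (0 : ℝ)..T, ‖Sx σ (T ^ δ) t - Qx M σ (T ^ δ) t - EM M σ t‖ ^ A) ≤
        1 / ((M : ℝ) + 1) := by
      have a1 : ∫ t in (0 : ℝ)..T, ‖Sx σ (T ^ δ) t - Qx M σ (T ^ δ) t - EM M σ t‖ ^ A ≤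
          ∫ _t in (0 : ℝ)..T, 1 / ((M : ℝ) + 1) := by
        refine intervalIntegral.integral_mono_on hT0.le (d2 _ _) intervalIntegrable_const fun t _ => ?_
        rw [← hεA]
        exact Real.rpow_le_rpow (norm_nonneg _) (hT1 t) hA.le
      rw [intervalIntegral.integral_const, sub_zero, smul_eq_mul] at a1
      calc _ ≤ T⁻¹ * (T * (1 / ((M : ℝ) + 1))) := mul_le_mul_of_nonneg_left a1 hTi
        _ = _ := by rw [← mul_assoc, inv_mul_cancel₀ hT0.ne', one_mul]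
    have g3 : T⁻¹ * (∫ t in (0 : ℝ)..T, ‖Qx M σ (T ^ δ) t‖ ^ A) ≤
        (tl m M σ + 1 / ((M : ℝ) + 1)) ^ (A / (2 * m)) := by
      refine (pmean (B := 2 * m) c3 (fun t => norm_nonneg _) hA (hAA.trans hmA) hT0).trans ?_
      refine Real.rpow_le_rpow ?_ ?_ (by positivity)
      · exact mul_nonneg hTi (intervalIntegral.integral_nonneg hT0.le fun t _ => by positivity)
      · have a1 := Qx_mean (M := M) hm1 hσh hT0 hXp
        have a2 : ∀ t : ℝ, ‖Qx M σ (T ^ δ) t‖ ^ (2 * m : ℝ) = ‖Qx M σ (T ^ δ) t‖ ^ (2 * m) := by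
          intro t
          rw [← Real.rpow_natCast]
          push_cast
          rfl
        simp only [a2]
        linarith
    calc T⁻¹ * (∫ t in (0 : ℝ)..T, ‖riemannZeta (σ + t * I) - EM M σ t‖ ^ A)
        ≤ T⁻¹ * (3 ^ A * ((∫ t in (0 : ℝ)..T, ‖riemannZeta (σ + t * I) - Sx σ (T ^ δ) t‖ ^ A) +
          (∫ t in (0 : ℝ)..T, ‖Sx σ (T ^ δ) t - Qx M σ (T ^ δ) t - EM M σ t‖ ^ A) +
          ∫ t in (0 : ℝ)..T, ‖Qx M σ (T ^ δ) t‖ ^ A)) := mul_le_mul_of_nonneg_left g0 hTi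
      _ = 3 ^ A * (T⁻¹ * (∫ t in (0 : ℝ)..T, ‖riemannZeta (σ + t * I) - Sx σ (T ^ δ) t‖ ^ A) +
          T⁻¹ * (∫ t in (0 : ℝ)..T, ‖Sx σ (T ^ δ) t - Qx M σ (T ^ δ) t - EM M σ t‖ ^ A) +
          T⁻¹ * ∫ t in (0 : ℝ)..T, ‖Qx M σ (T ^ δ) t‖ ^ A) := by ring
      _ ≤ 3 ^ A * (1 / ((M : ℝ) + 1) + 1 / ((M : ℝ) + 1) +
          (tl m M σ + 1 / ((M : ℝ) + 1)) ^ (A / (2 * m))) := by
          refine mul_le_mul_of_nonneg_left ?_ (by positivity)
          exact add_le_add (add_le_add g1 g2) g3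
      _ = η M := by rw [hη]

end OL
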