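import Pool.Agent.Lib.MP_39df77_nt.OL.Main
import Pool.Agent.Lib.MP_39df77_nt.OL.H26

/-! Moments of all real orders between `4` and `8` (and slightly beyond) off the critical line: assembly. -/

set_option autoImplicit false

open Complex MeasureTheory Set Filter Topology

namespace OL

/-- level sets, all orders -/
theorem hRA_x : ∃ d : ℝ, 0 < d ∧ d ≤ 1 / 1000 ∧ ∀ a c : ℝ, 1 / 8 - d / 1000 ≤ a → a < 1 / 4 → 0 < c →
    c ≤ (1 - 4 * a) * (1 / 3400000 / 4000) → c ≤ (1 - 4 * a) * (d / 1000) → HRA a c := by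
  obtain ⟨T0, h1, h2⟩ := hA3_at (1 / 340) (by norm_num) (by norm_num)
  have e : (1 / 340 / 10000 : ℝ) = 1 / 3400000 := by norm_num
  rw [e] at h2
  obtain ⟨δ, C, hδ, hC, h⟩ := T12.twelfth_x
  set d : ℝ := min δ (1 / 1000) with hd
  have hd0 : 0 < d := lt_min hδ (by norm_num)
  have hd1 : d ≤ 1 / 1000 := min_le_right _ _
  have hdδ : d ≤ δ := min_le_left _ _
  have h12 : HR22 12 (2 - d) := by
    refine hr22_of 12 (by norm_num) (by linarith) ⟨C, fun T hT => (h T hT).trans ?_⟩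
    exact mul_le_mul_of_nonneg_left (Real.rpow_le_rpow_of_exponent_le hT (by linarith)) hC.le
  exact ⟨d, hd0, hd1, fun a c ha1 ha2 hc hc1 hc2 => rA_at hA1 hA2 ha1 ha2 (by norm_num) (by norm_num)
    hd0 hd1 hc hc1 hc2 h1 h2 hr21 hr22_4 hr22_6 h12 hr23⟩

/-- the eighth moment to the left of `5/8` -/
theorem eighth : ∃ c0 : ℝ, 0 < c0 ∧ ∀ c : ℝ, 0 < c → c ≤ c0 → ∀ e : ℝ, 0 < e → ∃ C : ℝ, ∀ T : ℝ, 1 ≤ T →
    ∫ t in T..(2 * T), ‖riemannZeta ((5 / 8 - c : ℝ) + t * I)‖ ^ 8 ≤ C * T ^ (1 + e) := by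
  obtain ⟨d, hd0, hd1, h⟩ := hRA_x
  refine ⟨min (1 / 2 * (1 / 3400000 / 4000)) (1 / 2 * (d / 1000)), lt_min (by norm_num) (by positivity),
    fun c hc hcc e he => ?_⟩
  have hc1 := hcc.trans (min_le_left _ _)
  have hc2 := hcc.trans (min_le_right _ _)
  obtain ⟨C, hC⟩ := rA_moment (a := 1 / 8) (c := c) (by norm_num) (by norm_num) hc
    (h (1 / 8) c (by linarith) (by norm_num) hc (by norm_num at hc1 ⊢; exact hc1) (by linarith)) e he
  refine ⟨C, fun T hT => ?_⟩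
  have h1 := hC T hT
  have e1 : (3 / 4 - 1 / 8 - c : ℝ) = 5 / 8 - c := by ring
  rw [e1] at h1
  have e2 : ∀ t : ℝ, ‖riemannZeta ((5 / 8 - c : ℝ) + t * I)‖ ^ (1 / (1 / 8) : ℝ) =
      ‖riemannZeta ((5 / 8 - c : ℝ) + t * I)‖ ^ 8 := by
    intro t
    rw [← Real.rpow_natCast]
    norm_num
  simp only [e2] at h1
  exact h1

/-- continuity on a vertical line to the left of `1` -/
lemma M3_cont {σ : ℝ} (hσ : σ < 1) : Continuous (fun t : ℝ => ‖riemannZeta (σ + t * I)‖) := by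
  rw [continuous_iff_continuousAt]
  intro t
  have h1 : ((σ : ℂ) + t * I) ≠ 1 := by
    intro h
    have := congrArg Complex.re h
    simp at this
    linarith
  exact (((differentiableAt_riemannZeta h1).continuousAt.comp (f := fun t : ℝ => (σ : ℂ) + t * I)
    (Continuous.continuousAt (by fun_prop))).norm)

/-- **all real orders**: `m(σ) ≥ 4/(3 - 4σ) + c (σ - 1/2)` for `1/2 < σ ≤ 5/8` -/
theorem main_all : ∃ c0 : ℝ, 0 < c0 ∧ ∀ σ : ℝ, 1 / 2 < σ → σ ≤ 5 / 8 → ∀ A : ℝ, 0 ≤ A →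
    A ≤ 4 / (3 - 4 * σ) + c0 * (σ - 1 / 2) → ∀ e : ℝ, 0 < e →
    ∃ C : ℝ, ∀ T : ℝ, 1 ≤ T → ∫ t in (0 : ℝ)..T, ‖riemannZeta (σ + t * I)‖ ^ A ≤ C * T ^ (1 + e) := by
  obtain ⟨d, hd0, hd1, hH0⟩ := hRA_x
  obtain ⟨g, hg⟩ : ∃ g, g = min (1 / 3400000 / 8000) (d / 2000) := ⟨_, rfl⟩
  have hg0 : 0 < g := by rw [hg]; exact lt_min (by norm_num) (by positivity)
  have hg1 : g ≤ 1 / 3400000 / 8000 := by rw [hg]; exact min_le_left _ _
  have hg2 : g ≤ d / 2000 := by rw [hg]; exact min_le_right _ _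
  refine ⟨64 * g, by positivity, fun σ h1 h2 A hA0 hA e he => ?_⟩
  set x : ℝ := 3 / 4 - σ with hx
  have hx1 : 1 / 8 ≤ x := by linarith
  have hx2 : x < 1 / 4 := by linarith
  have hp1 : 0 < 1 - 4 * x := by linarith
  set c : ℝ := (1 - 4 * x) * g with hc
  have hc0 : 0 < c := by rw [hc]; positivity
  have hcq : c ≤ 1 / 2 * g := by
    rw [hc]
    exact mul_le_mul_of_nonneg_right (by linarith) hg0.le
  have hcq1 : c ≤ (1 - 4 * x) * (1 / 3400000 / 8000) := by
    rw [hc]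
    exact mul_le_mul_of_nonneg_left hg1 hp1.le
  have hcq2 : c ≤ (1 - 4 * x) * (d / 2000) := by
    rw [hc]
    exact mul_le_mul_of_nonneg_left hg2 hp1.le
  set a : ℝ := x - c with ha
  have ha1 : 1 / 8 - d / 1000 ≤ a := by rw [ha]; linarith
  have ha19 : 1 / 9 ≤ a := by linarith
  have ha2 : a < 1 / 4 := by rw [ha]; linarith
  have ha0 : 0 < a := by linarith
  have hca1 : c ≤ (1 - 4 * a) * (1 / 3400000 / 4000) := by
    have : (1 - 4 * x) * (1 / 3400000 / 4000) ≤ (1 - 4 * a) * (1 / 3400000 / 4000) :=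
      mul_le_mul_of_nonneg_right (by rw [ha]; linarith) (by norm_num)
    linarith
  have hca2 : c ≤ (1 - 4 * a) * (d / 1000) := by
    have : (1 - 4 * x) * (d / 1000) ≤ (1 - 4 * a) * (d / 1000) :=
      mul_le_mul_of_nonneg_right (by rw [ha]; linarith) (by positivity)
    linarith
  have hH := hH0 a c ha1 ha2 hc0 hca1 hca2
  obtain ⟨C, hC⟩ := rA_moment ha19 ha2 hc0 hH e he
  have hσe : (3 / 4 - a - c : ℝ) = σ := by rw [ha, hx]; ring
  rw [hσe] at hC
  have hσ1 : σ < 1 := by linarith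
  have hpa : 0 ≤ 1 / a := by positivity
  have hcont1 : Continuous (fun t : ℝ => ‖riemannZeta (σ + t * I)‖ ^ (1 / a)) :=
    (M3_cont hσ1).rpow_const fun _ => Or.inr hpa
  have hcont2 : Continuous (fun t : ℝ => ‖riemannZeta (σ + t * I)‖ ^ A) :=
    (M3_cont hσ1).rpow_const fun _ => Or.inr hA0
  have hdy := F2_dyadic hcont1 (fun t => Real.rpow_nonneg (norm_nonneg _) _) (m := 1 + e) (by linarith)
    (abs_nonneg C) (fun T hT => (hC T hT).trans (mul_le_mul_of_nonneg_right (le_abs_self C)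
      (Real.rpow_nonneg (by linarith) _)))
  -- `A ≤ 1 / a`
  have hA1 : A ≤ 1 / a := by
    refine hA.trans ?_
    have hx0 : 0 < x := by linarith
    have e1 : 4 / (3 - 4 * σ) = 1 / x := by
      rw [div_eq_div_iff (by linarith) hx0.ne']
      rw [hx]; ring
    have e3 : 1 / x + 16 * c ≤ 1 / a := by
      rw [← sub_nonneg]
      have e4 : 1 / a - (1 / x + 16 * c) = c * (1 - 16 * (x * a)) / (x * a) := by
        have : x = a + c := by rw [ha]; ring
        have hac : a + c ≠ 0 := by rw [← this]; exact hx0.ne'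
        rw [this]
        field_simp
        ring
      rw [e4]
      have e5 : x * a ≤ 1 / 4 * (1 / 4) := mul_le_mul hx2.le ha2.le ha0.le (by norm_num)
      have e6 : 0 < x * a := by positivity
      have e7 : 0 ≤ c * (1 - 16 * (x * a)) := mul_nonneg hc0.le (by linarith)
      positivity
    have e8 : 64 * g * (σ - 1 / 2) = 16 * c := by
      rw [hc, hx]; ring
    rw [e1]
    linarith
  refine ⟨1 + ((∫ t in (0 : ℝ)..2, ‖riemannZeta (σ + t * I)‖ ^ (1 / a)) + |C|), fun T hT => ?_⟩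
  have hpt : ∀ t : ℝ, ‖riemannZeta (σ + t * I)‖ ^ A ≤ 1 + ‖riemannZeta (σ + t * I)‖ ^ (1 / a) := by
    intro t
    set z := ‖riemannZeta (σ + t * I)‖ with hz
    have hz0 : 0 ≤ z := norm_nonneg _
    rcases le_total z 1 with h | h
    · have : z ^ A ≤ 1 := Real.rpow_le_one hz0 h hA0
      have h3 : 0 ≤ z ^ (1 / a) := Real.rpow_nonneg hz0 _
      linarith
    · have : z ^ A ≤ z ^ (1 / a) := Real.rpow_le_rpow_of_exponent_le h hA1
      linarith
  calc ∫ t in (0 : ℝ)..T, ‖riemannZeta (σ + t * I)‖ ^ A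
      ≤ ∫ t in (0 : ℝ)..T, (1 + ‖riemannZeta (σ + t * I)‖ ^ (1 / a)) := by
        refine intervalIntegral.integral_mono_on (by linarith) (hcont2.intervalIntegrable _ _)
          ((continuous_const.add hcont1).intervalIntegrable _ _) fun t _ => hpt t
    _ = T + ∫ t in (0 : ℝ)..T, ‖riemannZeta (σ + t * I)‖ ^ (1 / a) := by
        rw [intervalIntegral.integral_add (by simp) (hcont1.intervalIntegrable _ _)]
        simp
    _ ≤ T ^ (1 + e) + ((∫ t in (0 : ℝ)..2, ‖riemannZeta (σ + t * I)‖ ^ (1 / a)) + |C|) * T ^ (1 + e) := by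
        refine add_le_add ?_ (hdy T hT)
        calc T = T ^ (1:ℝ) := (Real.rpow_one T).symm
          _ ≤ T ^ (1 + e) := Real.rpow_le_rpow_of_exponent_le hT (by linarith)
    _ = _ := by ring

end OL
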