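import Pool.Agent.Lib.MP_39df77_nt.OL.Defs
import Pool.Agent.Lib.MP_39df77_nt.U6.A06

/-! products of Dirichlet polynomials -/

set_option autoImplicit false

open Complex MeasureTheory Set Filter Topology
open scoped Real ComplexConjugate

namespace OL

lemma A09a_ei_add (x y : ℝ) : ei (x + y) = ei x * ei y := by
  unfold ei
  rw [← Complex.exp_add]
  congr 1
  push_cast
  ring

/-- product of two Dirichlet polynomials -/
theorem dir_mul (s s' u : Finset ℕ) (hs : ∀ n ∈ s, 1 ≤ n) (hs' : ∀ n ∈ s', 1 ≤ n)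
    (hu : ∀ x ∈ s, ∀ y ∈ s', x * y ∈ u) (a b : ℕ → ℂ) : ∃ c : ℕ → ℂ,
    (∀ t : ℝ, (∑ n ∈ s, a n * ei (-(t * Real.log n))) * (∑ n ∈ s', b n * ei (-(t * Real.log n))) =
      ∑ n ∈ u, c n * ei (-(t * Real.log n))) ∧
    (∀ n ∈ u, ‖c n‖ ≤ ∑ d ∈ n.divisors, if d ∈ s ∧ n / d ∈ s' then ‖a d‖ * ‖b (n / d)‖ else 0) := by
  refine ⟨fun n => ∑ d ∈ n.divisors, if d ∈ s ∧ n / d ∈ s' then a d * b (n / d) else 0, ?_, ?_⟩
  · intro t
    have hmap : ∀ p ∈ s ×ˢ s', p.1 * p.2 ∈ u := by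
      intro p hp
      rw [Finset.mem_product] at hp
      exact hu _ hp.1 _ hp.2
    rw [Finset.sum_mul_sum, ← Finset.sum_product',
      ← Finset.sum_fiberwise_of_maps_to (g := fun p : ℕ × ℕ => p.1 * p.2) hmap]
    refine Finset.sum_congr rfl fun n _ => ?_
    simp only
    rw [← Finset.sum_filter, Finset.sum_mul]
    refine Finset.sum_nbij' (fun p : ℕ × ℕ => p.1) (fun d => (d, n / d)) ?_ ?_ ?_ ?_ ?_
    · intro p hp
      rw [Finset.mem_filter, Finset.mem_product] at hp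
      obtain ⟨⟨p1, p2⟩, p3⟩ := hp
      have q1 := hs _ p1
      have q2 := hs' _ p2
      have hn : n ≠ 0 := by rw [← p3]; exact Nat.mul_ne_zero (by omega) (by omega)
      have hq : n / p.1 = p.2 := by rw [← p3]; exact Nat.mul_div_cancel_left _ (by omega)
      simp only [Finset.mem_filter, Nat.mem_divisors]
      exact ⟨⟨⟨p.2, p3.symm⟩, hn⟩, p1, by rw [hq]; exact p2⟩
    · intro d hd
      rw [Finset.mem_filter, Nat.mem_divisors] at hd
      rw [Finset.mem_filter, Finset.mem_product]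
      exact ⟨⟨hd.2.1, hd.2.2⟩, Nat.mul_div_cancel' hd.1.1⟩
    · intro p hp
      rw [Finset.mem_filter, Finset.mem_product] at hp
      obtain ⟨⟨p1, p2⟩, p3⟩ := hp
      have q1 := hs _ p1
      have hq : n / p.1 = p.2 := by rw [← p3]; exact Nat.mul_div_cancel_left _ (by omega)
      simp only [hq]
    · intro d _
      rfl
    · intro p hp
      rw [Finset.mem_filter, Finset.mem_product] at hp
      obtain ⟨⟨p1, p2⟩, p3⟩ := hp
      have q1 := hs _ p1
      have q2 := hs' _ p2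
      have hq : n / p.1 = p.2 := by rw [← p3]; exact Nat.mul_div_cancel_left _ (by omega)
      have r1 : (0:ℝ) < p.1 := by exact_mod_cast q1
      have r2 : (0:ℝ) < p.2 := by exact_mod_cast q2
      have h1 : Real.log n = Real.log p.1 + Real.log p.2 := by
        rw [← p3]
        push_cast
        exact Real.log_mul r1.ne' r2.ne'
      simp only [hq]
      rw [h1, show -(t * (Real.log p.1 + Real.log p.2)) =
        -(t * Real.log p.1) + -(t * Real.log p.2) by ring, A09a_ei_add]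
      ring
  · intro n _
    refine (norm_sum_le _ _).trans (Finset.sum_le_sum fun d _ => ?_)
    split_ifs
    · rw [norm_mul]
    · simp

/-- the square; `Ioc ⌊N²⌋ ⌊4N²⌋` are the products of two elements of `(N, 2N]`; divisor bound `U6.fm_div` -/
theorem Dn_sq {e : ℝ} (he : 0 < e) : ∃ C : ℝ, 1 ≤ C ∧ ∀ (N : ℕ) (a : ℕ → ℂ), 1 ≤ N → (∀ n, ‖a n‖ ≤ 1) →
    ∃ b : ℕ → ℂ, (∀ t : ℝ, Dn a N t ^ 2 = Dp b ((N : ℝ) ^ 2) t) ∧
      ∀ n ∈ Finset.Ioc ⌊(N : ℝ) ^ 2⌋₊ ⌊4 * (N : ℝ) ^ 2⌋₊, ‖b n‖ ≤ C * (N : ℝ) ^ e := by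
  obtain ⟨C0, hC0, hC⟩ := U6.FM.fm_div (e / 2) (by positivity)
  refine ⟨C0 * 4 ^ (e / 2), ?_, ?_⟩
  · have : (1:ℝ) ≤ 4 ^ (e / 2) := Real.one_le_rpow (by norm_num) (by positivity)
    nlinarith
  intro N a hN ha
  have hN0 : (0:ℝ) < N := by exact_mod_cast hN
  have f1 : ⌊(N : ℝ) ^ 2⌋₊ = N ^ 2 := by exact_mod_cast Nat.floor_natCast (R := ℝ) (N ^ 2)
  have f2 : ⌊4 * (N : ℝ) ^ 2⌋₊ = 4 * N ^ 2 := by exact_mod_cast Nat.floor_natCast (R := ℝ) (4 * N ^ 2)
  obtain ⟨c, hc1, hc2⟩ := dir_mul (Finset.Ioc N (2 * N)) (Finset.Ioc N (2 * N))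
    (Finset.Ioc (N ^ 2) (4 * N ^ 2)) (fun n hn => by rw [Finset.mem_Ioc] at hn; omega)
    (fun n hn => by rw [Finset.mem_Ioc] at hn; omega)
    (fun x hx y hy => by
      rw [Finset.mem_Ioc] at hx hy ⊢
      constructor
      · nlinarith
      · nlinarith) a a
  refine ⟨c, ?_, ?_⟩
  · intro t
    unfold Dn Dp
    rw [f1, f2, sq, hc1 t]
  · rw [f1, f2]
    intro n hn
    have hn' := hn
    rw [Finset.mem_Ioc] at hn'
    have hn0 : n ≠ 0 := by
      have : 0 < N ^ 2 := by positivity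
      omega
    refine (hc2 n hn).trans ?_
    calc (∑ d ∈ n.divisors, if d ∈ Finset.Ioc N (2 * N) ∧ n / d ∈ Finset.Ioc N (2 * N)
          then ‖a d‖ * ‖a (n / d)‖ else 0) ≤ ∑ d ∈ n.divisors, (1:ℝ) := by
          refine Finset.sum_le_sum fun d _ => ?_
          split_ifs
          · calc ‖a d‖ * ‖a (n / d)‖ ≤ 1 * 1 :=
                mul_le_mul (ha _) (ha _) (norm_nonneg _) zero_le_one
              _ = 1 := one_mul 1
          · exact zero_le_one
      _ = (n.divisors.card : ℝ) := by simp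
      _ ≤ C0 * (n : ℝ) ^ (e / 2) := hC n hn0
      _ ≤ C0 * (4 * (N:ℝ) ^ 2) ^ (e / 2) := by
          refine mul_le_mul_of_nonneg_left ?_ (by linarith)
          refine Real.rpow_le_rpow (by positivity) ?_ (by positivity)
          exact_mod_cast hn'.2
      _ = C0 * 4 ^ (e / 2) * (N:ℝ) ^ e := by
          rw [Real.mul_rpow (by norm_num) (by positivity), ← Real.rpow_natCast, ← Real.rpow_mul hN0.le,
            show ((2:ℕ):ℝ) * (e / 2) = e by push_cast; ring]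
          ring

/-- the cube -/
theorem Dn_cube {e : ℝ} (he : 0 < e) : ∃ C : ℝ, 1 ≤ C ∧ ∀ (N : ℕ) (a : ℕ → ℂ), 1 ≤ N → (∀ n, ‖a n‖ ≤ 1) →
    ∃ b : ℕ → ℂ, (∀ t : ℝ, Dn a N t ^ 3 = ∑ n ∈ Finset.Icc 1 (8 * N ^ 3), b n * ei (-(t * Real.log n))) ∧
      ∀ n, ‖b n‖ ≤ C * (N : ℝ) ^ e := by
  obtain ⟨C0, hC0, hC⟩ := U6.FM.fm_div (e / 6) (by positivity)
  obtain ⟨C1, hC1, hsq⟩ := Dn_sq (e := e / 2) (by positivity)
  refine ⟨C0 * 8 ^ (e / 6) * C1, ?_, ?_⟩
  · have : (1:ℝ) ≤ 8 ^ (e / 6) := Real.one_le_rpow (by norm_num) (by positivity)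
    have h2 : (1:ℝ) ≤ C0 * 8 ^ (e / 6) := by nlinarith
    nlinarith
  intro N a hN ha
  have hN0 : (0:ℝ) < N := by exact_mod_cast hN
  have f1 : ⌊(N : ℝ) ^ 2⌋₊ = N ^ 2 := by exact_mod_cast Nat.floor_natCast (R := ℝ) (N ^ 2)
  have f2 : ⌊4 * (N : ℝ) ^ 2⌋₊ = 4 * N ^ 2 := by exact_mod_cast Nat.floor_natCast (R := ℝ) (4 * N ^ 2)
  obtain ⟨b, hb1, hb2⟩ := hsq N a hN ha
  rw [f1, f2] at hb2
  obtain ⟨c, hc1, hc2⟩ := dir_mul (Finset.Ioc (N ^ 2) (4 * N ^ 2)) (Finset.Ioc N (2 * N))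
    (Finset.Icc 1 (8 * N ^ 3)) (fun n hn => by
      rw [Finset.mem_Ioc] at hn
      omega)
    (fun n hn => by rw [Finset.mem_Ioc] at hn; omega)
    (fun x hx y hy => by
      rw [Finset.mem_Ioc] at hx hy
      rw [Finset.mem_Icc]
      constructor
      · exact Nat.one_le_iff_ne_zero.2 (Nat.mul_ne_zero (by omega) (by omega))
      · calc x * y ≤ (4 * N ^ 2) * (2 * N) := Nat.mul_le_mul hx.2 hy.2
          _ = 8 * N ^ 3 := by ring) b a
  refine ⟨fun n => if n ∈ Finset.Icc 1 (8 * N ^ 3) then c n else 0, ?_, ?_⟩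
  · intro t
    have h1 : Dn a N t ^ 3 = Dn a N t ^ 2 * Dn a N t := by ring
    rw [h1, hb1 t]
    have h2 : Dp b ((N:ℝ) ^ 2) t = ∑ n ∈ Finset.Ioc (N ^ 2) (4 * N ^ 2), b n * ei (-(t * Real.log n)) := by
      unfold Dp
      rw [f1, f2]
    have h3 : Dn a N t = ∑ n ∈ Finset.Ioc N (2 * N), a n * ei (-(t * Real.log n)) := rfl
    rw [h2, h3, hc1 t]
    refine Finset.sum_congr rfl fun n hn => ?_
    simp only
    rw [if_pos hn]
  · intro n
    simp only
    split_ifs with hn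
    · have hn' := hn
      rw [Finset.mem_Icc] at hn'
      have hn0 : n ≠ 0 := by omega
      refine (hc2 n hn).trans ?_
      have hpos : 0 ≤ C1 * (N:ℝ) ^ (e / 2) := by positivity
      calc (∑ d ∈ n.divisors, if d ∈ Finset.Ioc (N ^ 2) (4 * N ^ 2) ∧ n / d ∈ Finset.Ioc N (2 * N)
            then ‖b d‖ * ‖a (n / d)‖ else 0) ≤ ∑ d ∈ n.divisors, C1 * (N:ℝ) ^ (e / 2) := by
            refine Finset.sum_le_sum fun d _ => ?_
            split_ifs with hd
            · calc ‖b d‖ * ‖a (n / d)‖ ≤ (C1 * (N:ℝ) ^ (e / 2)) * 1 :=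
                  mul_le_mul (hb2 _ hd.1) (ha _) (norm_nonneg _) hpos
                _ = _ := mul_one _
            · exact hpos
        _ = (n.divisors.card : ℝ) * (C1 * (N:ℝ) ^ (e / 2)) := by
            rw [Finset.sum_const, nsmul_eq_mul]
        _ ≤ (C0 * (8 ^ (e / 6) * (N:ℝ) ^ (e / 2))) * (C1 * (N:ℝ) ^ (e / 2)) := by
            refine mul_le_mul_of_nonneg_right ((hC n hn0).trans ?_) hpos
            refine mul_le_mul_of_nonneg_left ?_ (by linarith)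
            calc (n:ℝ) ^ (e / 6) ≤ (8 * (N:ℝ) ^ 3) ^ (e / 6) := by
                  refine Real.rpow_le_rpow (by positivity) ?_ (by positivity)
                  exact_mod_cast hn'.2
              _ = 8 ^ (e / 6) * (N:ℝ) ^ (e / 2) := by
                  rw [Real.mul_rpow (by norm_num) (by positivity), ← Real.rpow_natCast,
                    ← Real.rpow_mul hN0.le, show ((3:ℕ):ℝ) * (e / 6) = e / 2 by push_cast; ring]
        _ = C0 * 8 ^ (e / 6) * C1 * ((N:ℝ) ^ (e / 2) * (N:ℝ) ^ (e / 2)) := by ring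
        _ = C0 * 8 ^ (e / 6) * C1 * (N:ℝ) ^ e := by
            rw [← Real.rpow_add hN0, add_halves]
    · rw [norm_zero]
      positivity

end OL
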