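import Pool.Agent.Lib.MP_39df77_nt.OL.G2
import Pool.Agent.Lib.MP_39df77_nt.OL.A09a

/-! large values of a block, line `7/12 - 1/745` -/

set_option autoImplicit false

open Complex MeasureTheory Set Filter Topology
open scoped Real ComplexConjugate

namespace OL

/-- `thmK` with `g = 1 / 10000` for the square of a polynomial of length `T^ν`, for one value of `k` -/
theorem blockG_aux {k : ℕ} (hk : 1 ≤ k) : ∃ T0 : ℝ, 2 ≤ T0 ∧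
    ∀ (T ν w r : ℝ) (N : ℕ) (a : ℕ → ℂ) (S : Finset ℝ), T0 ≤ T →
    0 ≤ ν → ν ≤ 1 / 2 → 1 ≤ k * (1 - 2 * ν) → 0 ≤ r →
    (N : ℝ) = T ^ ν → (∀ n, ‖a n‖ ≤ 1) → Sep S → InI S T → (∀ t ∈ S, T ^ w / 2 ≤ ‖Dn a N t‖) →
    (∀ α : ℝ, α = 3 / 2 * ν - 2 * w + 1 / 10 ^ 7 →
    1 / 10000 ≤ r - (2 * ν) / 2 - 2 * α ∧
    1 / 10000 ≤ 3 / 2 * r + 3 / 2 * (2 * ν) - 2 - 6 * α ∧
    1 / 10000 ≤ (1 + 1 / (k : ℝ)) * r + (2 * ν) / 2 - 1 - 6 * α ∧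
    1 / 10000 ≤ 2 * r + (2 * ν) / 2 - 3 / 2 - 8 * α ∧
    1 / 10000 ≤ (3 / 2 + 1 / (2 * (k : ℝ))) * r + 3 / 2 * (2 * ν) - 2 - 8 * α ∧
    1 / 10000 ≤ (5 / 4 + 1 / (4 * (k : ℝ))) * r + 5 / 4 * (2 * ν) - 7 / 4 - 7 * α ∧
    1 / 10000 ≤ (1 + 1 / (2 * (k : ℝ))) * r + 7 / 4 * (2 * ν) - 2 - 7 * α) →
    (S.card : ℝ) ≤ T ^ r := by
  obtain ⟨T1, hT1, hG⟩ := thmK hk (g := 1 / 10000) (by norm_num) (by norm_num)
  have he : (0 : ℝ) < 1 / 10 ^ 7 := by positivity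
  obtain ⟨C, hC, hsq⟩ := Dn_sq he
  have hlim : Tendsto (fun T : ℝ => T ^ (1 / 10 ^ 7 : ℝ)) atTop atTop :=
    tendsto_rpow_atTop (by positivity)
  obtain ⟨T2, hT2⟩ := eventually_atTop.mp (hlim.eventually_ge_atTop (max C 4))
  refine ⟨max T1 T2, hT1.trans (le_max_left _ _), ?_⟩
  intro T ν w r N a S hT hν0 hν1 hkν hr hN ha hS hI hV hcond
  have hTT1 : T1 ≤ T := (le_max_left _ _).trans hT
  have hT2' : 2 ≤ T := hT1.trans hTT1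
  have hT1' : 1 ≤ T := by linarith
  have hT0 : 0 < T := by linarith
  have hmax : max C 4 ≤ T ^ (1 / 10 ^ 7 : ℝ) := hT2 T ((le_max_right _ _).trans hT)
  have hCT : C ≤ T ^ (1 / 10 ^ 7 : ℝ) := (le_max_left _ _).trans hmax
  have h4T : 4 ≤ T ^ (1 / 10 ^ 7 : ℝ) := (le_max_right _ _).trans hmax
  have hNpos : (0 : ℝ) < N := by
    rw [hN]
    exact Real.rpow_pos_of_pos hT0 _
  have hN1 : 1 ≤ N := by
    have : 0 < N := by exact_mod_cast hNpos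
    omega
  obtain ⟨b, hb1, hb2⟩ := hsq N a hN1 ha
  have hN2 : (N : ℝ) ^ 2 = T ^ (2 * ν) := by
    rw [hN, ← Real.rpow_natCast, ← Real.rpow_mul hT0.le]
    congr 1
    push_cast
    ring
  rw [hN2] at hb1 hb2
  have hb3 : ∀ n ∈ Finset.Ioc ⌊T ^ (2 * ν)⌋₊ ⌊4 * T ^ (2 * ν)⌋₊,
      ‖b n‖ ≤ T ^ ((1 / 10000 : ℝ) / 100) := by
    intro n hn
    refine (hb2 n hn).trans ?_
    have h1 : (N : ℝ) ^ (1 / 10 ^ 7 : ℝ) ≤ T ^ (1 / 10 ^ 7 : ℝ) := by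
      rw [hN, ← Real.rpow_mul hT0.le]
      exact Real.rpow_le_rpow_of_exponent_le hT1' (by nlinarith)
    calc C * (N : ℝ) ^ (1 / 10 ^ 7 : ℝ) ≤ T ^ (1 / 10 ^ 7 : ℝ) * T ^ (1 / 10 ^ 7 : ℝ) :=
          mul_le_mul hCT h1 (Real.rpow_nonneg hNpos.le _) (Real.rpow_nonneg hT0.le _)
      _ = T ^ (1 / 10 ^ 7 + 1 / 10 ^ 7 : ℝ) := by rw [← Real.rpow_add hT0]
      _ ≤ T ^ ((1 / 10000 : ℝ) / 100) :=
          Real.rpow_le_rpow_of_exponent_le hT1' (by norm_num)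
  have hV2 : ∀ t ∈ S, T ^ (3 / 4 * (2 * ν) - (3 / 2 * ν - 2 * w + 1 / 10 ^ 7)) ≤
      ‖Dp b (T ^ (2 * ν)) t‖ := by
    intro t ht
    rw [← hb1 t, norm_pow]
    have h1 : T ^ (3 / 4 * (2 * ν) - (3 / 2 * ν - 2 * w + 1 / 10 ^ 7)) =
        (T ^ w) ^ 2 / T ^ (1 / 10 ^ 7 : ℝ) := by
      rw [← Real.rpow_natCast (T ^ w) 2, ← Real.rpow_mul hT0.le, ← Real.rpow_sub hT0]
      congr 1
      push_cast
      ring
    have h2 : (T ^ w / 2) ^ 2 ≤ ‖Dn a N t‖ ^ 2 :=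
      pow_le_pow_left₀ (by positivity) (hV t ht) 2
    rw [h1]
    refine le_trans ?_ h2
    calc (T ^ w) ^ 2 / T ^ (1 / 10 ^ 7 : ℝ) ≤ (T ^ w) ^ 2 / 4 :=
          div_le_div_of_nonneg_left (by positivity) (by norm_num) h4T
      _ = (T ^ w / 2) ^ 2 := by ring
  obtain ⟨c1, c2, c3, c4, c5, c6, c7⟩ := hcond _ rfl
  exact hG T (2 * ν) (3 / 2 * ν - 2 * w + 1 / 10 ^ 7) r S b hTT1 (by linarith) hkν hr hS hI hb3 hV2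
    c1 c2 c3 c4 c5 c6 c7

/-- `thmK` with `g = 1 / 10000`, `μ = 2 ν`, `α = 3/2 ν - 2 w + 1 / 10^7`, `r = 1 - 6 v`, `k = 6` if
`ν ≤ 5/12` and `k = 32` otherwise; `Dn_sq` with `e = 1 / 10^7`. -/
theorem blockG : ∃ T0 : ℝ, 2 ≤ T0 ∧ ∀ (T v ν w : ℝ) (N : ℕ) (a : ℕ → ℂ) (S : Finset ℝ), T0 ≤ T →
    398 / 1000 ≤ ν → ν ≤ 48428 / 100000 → 733 / 745 * ν - 1 / 10 ^ 7 ≤ 6 * v →
    2 * v + (5 / 3 + 4 / 745) * ν ≤ 99 / 100 → v + (7 / 12 - 1 / 745) * ν - 1 / 10 ^ 7 ≤ w →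
    (N : ℝ) = T ^ ν → (∀ n, ‖a n‖ ≤ 1) → Sep S → InI S T → (∀ t ∈ S, T ^ w / 2 ≤ ‖Dn a N t‖) →
    (S.card : ℝ) ≤ T ^ (1 - 6 * v) := by
  obtain ⟨T6, hT6, h6⟩ := blockG_aux (k := 6) (by norm_num)
  obtain ⟨T32, hT32, h32⟩ := blockG_aux (k := 32) (by norm_num)
  refine ⟨max T6 T32, hT6.trans (le_max_left _ _), ?_⟩
  intro T v ν w N a S hT hν1 hν2 hv1 hv2 hw hN ha hS hI hV
  rcases le_total ν (5 / 12) with h | h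
  · refine h6 T ν w (1 - 6 * v) N a S ((le_max_left _ _).trans hT) (by linarith) (by linarith)
      (by simp only [Nat.cast_ofNat]; linarith) (by linarith) hN ha hS hI hV ?_
    rintro α rfl
    simp only [Nat.cast_ofNat]
    clear hV ha hS hI hT hN h6 h32
    refine ⟨?_, ?_, ?_, ?_, ?_, ?_, ?_⟩ <;> linarith
  · refine h32 T ν w (1 - 6 * v) N a S ((le_max_right _ _).trans hT) (by linarith) (by linarith)
      (by simp only [Nat.cast_ofNat]; linarith) (by linarith) hN ha hS hI hV ?_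
    rintro α rfl
    simp only [Nat.cast_ofNat]
    clear hV ha hS hI hT hN h6 h32
    refine ⟨?_, ?_, ?_, ?_, ?_, ?_, ?_⟩ <;> linarith

end OL
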