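import Pool.Agent.Lib.MP_39df77_nt.OL.D24

/-! Exponents for the level sets of `ζ(7/12 - 1/745 + it)`. -/

set_option autoImplicit false

namespace OL.R25

/-- exponent of the size of a block, line `7/12 - 1/745` -/
noncomputable def wg (e v y ν : ℝ) : ℝ := v + (7 / 12 - 1 / 745) * ν - e * y

/-- the two ways to bound a block -/
def Cg (v ν : ℝ) : Prop :=
  ν ≤ 398 / 1000 ∨ (398 / 1000 ≤ ν ∧ ν ≤ 48428 / 100000 ∧ 733 / 745 * ν - 1 / 10 ^ 7 ≤ 6 * v ∧
    2 * v + (5 / 3 + 4 / 745) * ν ≤ 99 / 100)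

/-- `y = 745/733 6 v` if `6 v ≤ 81/170`, `y = 81/170 745/733` if `81/170 < 6 v ≤ 89/170`,
`y = max (745/733 (1 - 6 v)) (1/100)` otherwise -/
lemma choose_yg {e v : ℝ} (he : 0 < e) (he2 : e ≤ 1 / 10 ^ 7) (hv : 0 < v) :
    ∃ y : ℝ, min (6 * v) (1 / 100) ≤ y ∧ y ≤ 51 / 100 ∧
    (∀ ν : ℝ, 0 ≤ ν → ν ≤ (1 + e) * y → Cg v ν) ∧
    ((1 + e) - 4 * (v + (1 / 12 - 1 / 745) * y) ≤ 1 - 6 * v + e ∨
     (5 / 4 - 1 / 85) - 6 * (v + (1 / 12 - 1 / 745) * y) ≤ 1 - 6 * v + e ∨
     2 - 12 * (v + (1 / 12 - 1 / 745) * y) ≤ 1 - 6 * v + e) := by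
  have hcap : ∀ y : ℝ, 0 ≤ y → y ≤ 51 / 100 → e * y ≤ 51 / 10 ^ 9 := by
    intro y h0 h1
    calc e * y ≤ 1 / 10 ^ 7 * (51 / 100) := mul_le_mul he2 h1 h0 (by norm_num)
      _ = 51 / 10 ^ 9 := by norm_num
  rcases le_or_gt (6 * v) (81 / 170) with h1 | h1
  · -- first region
    have hy0 : (0 : ℝ) ≤ 745 / 733 * (6 * v) := by positivity
    have hy1 : (745 : ℝ) / 733 * (6 * v) ≤ 51 / 100 := by linarith
    have hey := hcap _ hy0 hy1
    refine ⟨745 / 733 * (6 * v), le_trans (min_le_left _ _) (by linarith), hy1, ?_,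
      Or.inl (by linarith)⟩
    intro ν _ hν
    rw [add_mul, one_mul] at hν
    rcases le_or_gt ν (398 / 1000) with h2 | h2
    · exact Or.inl h2
    · refine Or.inr ⟨h2.le, by linarith, by linarith, by linarith⟩
  · rcases le_or_gt (6 * v) (89 / 170) with h3 | h3
    · -- second region
      have hey := hcap (81 / 170 * (745 / 733)) (by norm_num) (by norm_num)
      refine ⟨81 / 170 * (745 / 733), le_trans (min_le_right _ _) (by norm_num), by norm_num, ?_,
        Or.inr (Or.inl (by linarith))⟩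
      intro ν _ hν
      rw [add_mul, one_mul] at hν
      rcases le_or_gt ν (398 / 1000) with h2 | h2
      · exact Or.inl h2
      · refine Or.inr ⟨h2.le, by linarith, by linarith, by linarith⟩
    · -- third region
      have hy1 : max ((745 : ℝ) / 733 * (1 - 6 * v)) (1 / 100) ≤ 51 / 100 :=
        max_le (by linarith) (by norm_num)
      have hy0 : (0 : ℝ) ≤ max ((745 : ℝ) / 733 * (1 - 6 * v)) (1 / 100) :=
        le_trans (by norm_num) (le_max_right _ _)
      have hey := hcap _ hy0 hy1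
      have hyl := le_max_left ((745 : ℝ) / 733 * (1 - 6 * v)) (1 / 100)
      refine ⟨max (745 / 733 * (1 - 6 * v)) (1 / 100),
        le_trans (min_le_right _ _) (le_max_right _ _), hy1, ?_, Or.inr (Or.inr (by linarith))⟩
      intro ν _ hν
      rw [add_mul, one_mul] at hν
      rcases le_or_gt ν (398 / 1000) with h2 | h2
      · exact Or.inl h2
      · have hmax : max ((745 : ℝ) / 733 * (1 - 6 * v)) (1 / 100) = 745 / 733 * (1 - 6 * v) := by
          rcases max_choice ((745 : ℝ) / 733 * (1 - 6 * v)) (1 / 100) with h | h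
          · exact h
          · rw [h] at hν hey
            exfalso
            linarith
        rw [hmax] at hν hey
        refine Or.inr ⟨h2.le, by linarith, by linarith, by linarith⟩

end OL.R25
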