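import Pool.Agent.Lib.MP_39df77_nt.OL.D25
import Pool.Agent.Lib.MP_39df77_nt.OL.G3
import Pool.Agent.Lib.MP_39df77_nt.OL.G4

/-! Level sets of `ζ(7/12 - 1/745 + it)`: a block. -/

set_option autoImplicit false

open Complex MeasureTheory Set

namespace OL.R25

lemma expo_low_g {e v y ν : ℝ} (hν0 : 0 ≤ ν) (hν : ν ≤ 398 / 1000) :
    max 1 (3 * ν) + 3 * ν - 6 * wg e v y ν ≤ 1 - 6 * v + 6 * (e * y) := by
  unfold wg
  rcases le_total (3 * ν) 1 with h | h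
  · rw [max_eq_left h]
    linarith
  · rw [max_eq_right h]
    linarith

theorem block_bound_g (h1 : HA1) {e : ℝ} (he : 0 < e) (he2 : e ≤ 1 / 10 ^ 7) :
    ∃ C T0 : ℝ, 0 < C ∧ 1 < T0 ∧ ∀ (T v y ν : ℝ) (N : ℕ) (a : ℕ → ℂ) (S : Finset ℝ),
      T0 ≤ T → 0 ≤ ν → ν ≤ 1 → 0 ≤ y → y ≤ 1 → Cg v ν → (N : ℝ) = T ^ ν → 1 ≤ N →
      (∀ n, ‖a n‖ ≤ 1) → Sep S → InI S T → (∀ t ∈ S, T ^ (wg e v y ν) / 2 ≤ ‖Dn a N t‖) →
      (S.card : ℝ) ≤ C * T ^ (1 - 6 * v + 14 * e) := by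
  obtain ⟨C1, hC1, H1⟩ := h1 e he
  obtain ⟨T3, hT3, H3⟩ := blockG
  refine ⟨128 * C1 + 1, T3, by positivity, by linarith, ?_⟩
  intro T v y ν N a S hT hν0 hν1 hy0 hy1 hcond hNT hN ha hS hI hD
  have hT2 : 2 ≤ T := le_trans hT3 hT
  have hT0 : 0 < T := by linarith
  have hT1 : 1 ≤ T := by linarith
  have hey : e * y ≤ e := by nlinarith
  have hey0 : 0 ≤ e * y := by positivity
  set w := wg e v y ν with hw
  have hW : 0 < T ^ w / 2 := by positivity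
  have hP : ∀ x : ℝ, 0 < T ^ x := fun x => Real.rpow_pos_of_pos hT0 x
  have hmono : ∀ x z : ℝ, x ≤ z → T ^ x ≤ T ^ z := fun x z h => Real.rpow_le_rpow_of_exponent_le hT1 h
  have hTN : (T * (N : ℝ)) ^ e ≤ T ^ (2 * e) := by
    rw [hNT, show T * T ^ ν = T ^ (1 + ν) by rw [Real.rpow_add hT0, Real.rpow_one], ← Real.rpow_mul hT0.le]
    exact hmono _ _ (by nlinarith)
  rcases hcond with h | ⟨g1, g2, g3, g4⟩
  · have key := H1 T N a S (T ^ w / 2) hT1 hN ha hS hI hW hD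
    have hex := expo_low_g (e := e) (v := v) (y := y) hν0 h
    rw [← hw] at hex
    have e1 : (N : ℝ) ^ 3 = T ^ (3 * ν) := by rw [hNT, rpow_nat hT0.le]; norm_num
    have e2 : (T ^ w / 2) ^ (-6 : ℝ) = 64 * T ^ (-6 * w) := by
      have := half_rpow (T := T) (w := w) hT0 6
      norm_num at this ⊢
      exact this
    have e3 : T + (N : ℝ) ^ 3 ≤ 2 * T ^ (max 1 (3 * ν)) := by
      rw [e1]
      have a1 := hmono _ _ (le_max_left 1 (3 * ν))
      have a2 := hmono _ _ (le_max_right 1 (3 * ν))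
      rw [Real.rpow_one] at a1
      linarith
    calc (S.card : ℝ) ≤ C1 * (T * N) ^ e * ((T + (N : ℝ) ^ 3) * (N : ℝ) ^ 3) * (T ^ w / 2) ^ (-6 : ℝ) := key
      _ ≤ C1 * T ^ (2 * e) * ((2 * T ^ (max 1 (3 * ν))) * T ^ (3 * ν)) * (64 * T ^ (-6 * w)) := by
          rw [e2]
          apply mul_le_mul_of_nonneg_right _ (by positivity)
          apply mul_le_mul (mul_le_mul_of_nonneg_left hTN hC1.le) _ (by positivity) (by positivity)
          rw [e1] at e3 ⊢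
          exact mul_le_mul_of_nonneg_right e3 (hP _).le
      _ = 128 * C1 * T ^ (2 * e + max 1 (3 * ν) + 3 * ν + (-6 * w)) := by
          rw [Real.rpow_add hT0, Real.rpow_add hT0, Real.rpow_add hT0]; ring
      _ ≤ 128 * C1 * T ^ (1 - 6 * v + 14 * e) := by
          apply mul_le_mul_of_nonneg_left (hmono _ _ (by linarith)) (by positivity)
      _ ≤ _ := mul_le_mul_of_nonneg_right (by linarith) (hP _).le
  · have hwe : v + (7 / 12 - 1 / 745) * ν - 1 / 10 ^ 7 ≤ w := by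
      rw [hw]; unfold wg; linarith
    have key := H3 T v ν w N a S hT g1 g2 g3 g4 hwe hNT ha hS hI hD
    calc (S.card : ℝ) ≤ T ^ (1 - 6 * v) := key
      _ ≤ T ^ (1 - 6 * v + 14 * e) := hmono _ _ (by linarith)
      _ = 1 * T ^ (1 - 6 * v + 14 * e) := (one_mul _).symm
      _ ≤ _ := mul_le_mul_of_nonneg_right (by linarith) (hP _).le

end OL.R25
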