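import Pool.Agent.Lib.MP_39df77_nt.OL.F2
import Pool.Agent.Lib.MP_39df77_nt.OL.E7

/-! The sixth moment to the left of `7/12 - c`, general slope. -/

set_option autoImplicit false

open Complex MeasureTheory Set Filter Topology

namespace OL

/-- **the sixth moment to the left of `7/12 - c`**, slope `s` -/
theorem left_s {c1 c s : ℝ} (hc : 0 < c) (hc1 : c < c1) (hc2 : c1 ≤ 1 / 500) (hs0 : 0 < s)
    (hs1 : 1 / 4 - 1 / 85 ≤ s * (1 / 12 - c1)) (h : HR26 c1)
    (h6 : ∃ C : ℝ, ∀ T : ℝ, 1 ≤ T →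
      ∫ t in T..(2 * T), ‖riemannZeta ((1 / 2 : ℝ) + t * I)‖ ^ 6 ≤ C * T ^ (5 / 4 - 1 / 85 : ℝ)) {σ : ℝ}
    (hσ : 1 / 2 ≤ σ) (hσ1 : σ ≤ 7 / 12 - c) : ∃ C : ℝ, ∀ T : ℝ, 1 ≤ T →
      ∫ t in (0 : ℝ)..T, ‖riemannZeta (σ + t * I)‖ ^ 6 ≤ C * T ^ (1 + s * (7 / 12 - c - σ)) := by
  have hcont := F2_cont (σ := σ) (by linarith)
  have hsσ : 0 ≤ s * (7 / 12 - c - σ) := mul_nonneg hs0.le (by linarith)
  have hsc : 0 < s * (c1 - c) := mul_pos hs0 (by linarith)
  rcases le_or_gt σ (7 / 12 - c1) with hs | hs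
  · -- convexity
    suffices hd : ∃ C : ℝ, ∀ T : ℝ, 1 ≤ T →
        ∫ t in T..(2 * T), ‖riemannZeta (σ + t * I)‖ ^ 6 ≤ C * T ^ (1 + s * (7 / 12 - c - σ)) by
      obtain ⟨C, hC⟩ := hd
      refine ⟨(∫ t in (0 : ℝ)..2, ‖riemannZeta (σ + t * I)‖ ^ 6) + |C|, ?_⟩
      refine F2_dyadic hcont (fun t => by positivity) (by linarith) (abs_nonneg C) ?_
      intro T hT
      exact (hC T hT).trans (mul_le_mul_of_nonneg_right (le_abs_self C)
        (Real.rpow_nonneg (by linarith) _))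
    have hD : 0 < 1 / 12 - c1 := by linarith
    set θ : ℝ := (σ - 1 / 2) / (1 / 12 - c1) with hθ
    have hθ0 : 0 ≤ θ := div_nonneg (by linarith) hD.le
    have hθ1 : θ ≤ 1 := by rw [hθ, div_le_one hD]; linarith
    have hθe : θ * (1 / 12 - c1) = σ - 1 / 2 := by rw [hθ, div_mul_cancel₀ _ hD.ne']
    obtain ⟨C, hC⟩ := convex6 (s0 := 1 / 2) (s1 := 7 / 12 - c1) (m0 := 5 / 4 - 1 / 85)
      (m1 := 1 + s * (c1 - c)) (θ := θ) le_rfl (by linarith) (by linarith) hθ0 hθ1 (by norm_num)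
      (by linarith) h6 (h (s * (c1 - c)) (by linarith))
    have e1 : (1 - θ) * (1 / 2) + θ * (7 / 12 - c1) = σ := by linarith
    rw [e1] at hC
    refine ⟨|C|, fun T hT => (hC T hT).trans ?_⟩
    refine mul_le_mul (le_abs_self C) ?_ (Real.rpow_nonneg (by linarith) _) (abs_nonneg C)
    refine Real.rpow_le_rpow_of_exponent_le hT ?_
    have h1 : (1 - θ) * (1 / 4 - 1 / 85) ≤ (1 - θ) * (s * (1 / 12 - c1)) :=
      mul_le_mul_of_nonneg_left (by linarith) (by linarith)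
    have h2 : θ * (s * (c1 - c)) ≤ 1 * (s * (c1 - c)) :=
      mul_le_mul_of_nonneg_right hθ1 hsc.le
    have h3 : (1 - θ) * (s * (1 / 12 - c1)) = s * (1 / 12 - c1) - s * (σ - 1 / 2) := by
      rw [← hθe]; ring
    have h4 : (1 - θ) * (5 / 4 - 1 / 85) + θ * (1 + s * (c1 - c)) =
        1 + (1 - θ) * (1 / 4 - 1 / 85) + θ * (s * (c1 - c)) := by ring
    rw [h4]
    have h5 : 1 + s * (7 / 12 - c - σ) =
        1 + (s * (1 / 12 - c1) - s * (σ - 1 / 2)) + 1 * (s * (c1 - c)) := by ring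
    rw [h5]
    linarith
  · -- the asymptotic formula
    have hint : ∀ a b : ℝ, IntervalIntegrable (fun t : ℝ => ‖riemannZeta (σ + t * I)‖ ^ 6) volume a b :=
      fun a b => hcont.intervalIntegrable a b
    obtain ⟨-, hlim⟩ := of_HR26 (by linarith) (by linarith) h hs (by linarith)
    set L := ∑' n : ℕ, (d3 n : ℝ) ^ 2 * (n : ℝ) ^ (-(2 * σ)) with hL
    obtain ⟨T0, hT0⟩ := Filter.eventually_atTop.1 (hlim.eventually_le_const (show L < |L| + 1 by
      linarith [le_abs_self L]))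
    set T1 := max T0 1 with hT1
    set J := ∫ t in (0 : ℝ)..T1, ‖riemannZeta (σ + t * I)‖ ^ 6 with hJ
    have hT11 : 1 ≤ T1 := le_max_right _ _
    have hJ0 : 0 ≤ J := intervalIntegral.integral_nonneg (by linarith) fun t _ => by positivity
    refine ⟨|L| + 1 + J, fun T hT => ?_⟩
    have hx : 1 ≤ 1 + s * (7 / 12 - c - σ) := by linarith
    have hTx : T ≤ T ^ (1 + s * (7 / 12 - c - σ)) := by
      calc T = T ^ (1:ℝ) := (Real.rpow_one T).symm
        _ ≤ _ := Real.rpow_le_rpow_of_exponent_le hT hx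
    have hLp : 0 ≤ |L| + 1 := by positivity
    rcases le_total T1 T with h3 | h3
    · have h4 := hT0 T ((le_max_left _ _).trans h3)
      rw [inv_mul_le_iff₀ (by linarith)] at h4
      have h5 : (|L| + 1) * T ≤ (|L| + 1) * T ^ (1 + s * (7 / 12 - c - σ)) :=
        mul_le_mul_of_nonneg_left hTx hLp
      have h6 : 0 ≤ J * T ^ (1 + s * (7 / 12 - c - σ)) := by positivity
      linarith
    · have h4 : ∫ t in (0 : ℝ)..T, ‖riemannZeta (σ + t * I)‖ ^ 6 ≤ J := by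
        refine intervalIntegral.integral_mono_interval le_rfl (by linarith) h3 ?_ (hint _ _)
        exact Filter.Eventually.of_forall fun t => by positivity
      have h5 : 1 ≤ T ^ (1 + s * (7 / 12 - c - σ)) := hT.trans hTx
      have h6 : J * 1 ≤ J * T ^ (1 + s * (7 / 12 - c - σ)) := mul_le_mul_of_nonneg_left h5 hJ0
      have h7 : 0 ≤ (|L| + 1) * T ^ (1 + s * (7 / 12 - c - σ)) := by positivity
      linarith

end OL
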