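import Pool.Agent.Lib.MP_39df77_nt.OL.Main
import Pool.Agent.Lib.MP_39df77_nt.OL.G6
import Pool.Agent.Lib.MP_39df77_nt.OL.G7

/-! The sixth moment of zeta to the left of `7/12`: assembly, `c = 1/750`. -/

set_option autoImplicit false

open Complex MeasureTheory Set Filter Topology

namespace OL

/-- level sets on the line `7/12 - 1/745` -/
theorem hr25_g : HR25 (1 / 745) := r25_g hA1 hr21 hr22_4 hr22_6 hr22_12 hr23

/-- the sixth moment on the line `7/12 - 1/745` -/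
theorem hr26_g : HR26 (1 / 745) := r26 (by norm_num) hr25_g

/-- **upper bound to the left of `7/12 - 1/750`** -/
theorem main_left_g {σ : ℝ} (h1 : 1 / 2 ≤ σ) (h2 : σ ≤ 7 / 12 - 1 / 750) : ∃ C : ℝ, ∀ T : ℝ, 1 ≤ T →
    ∫ t in (0 : ℝ)..T, ‖riemannZeta (σ + t * I)‖ ^ 6 ≤
      C * T ^ (1 + 291 / 100 * (7 / 12 - 1 / 750 - σ)) :=
  left_s (by norm_num) (by norm_num) (by norm_num) (by norm_num) (by norm_num) hr26_g six_half h1 h2

/-- **asymptotic formula to the right of `7/12 - 1/750`** -/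
theorem main_right_g {σ : ℝ} (h1 : 7 / 12 - 1 / 750 < σ) (h2 : σ < 1) :
    Summable (fun n : ℕ => (d3 n : ℝ) ^ 2 * (n : ℝ) ^ (-(2 * σ))) ∧
    ∃ η C : ℝ, 0 < η ∧ ∀ T : ℝ, 1 ≤ T → |T⁻¹ * (∫ t in (0 : ℝ)..T, ‖riemannZeta (σ + t * I)‖ ^ 6) -
      ∑' n : ℕ, (d3 n : ℝ) ^ 2 * (n : ℝ) ^ (-(2 * σ))| ≤ C * T ^ (-η) := by
  refine carlson_pow (s0 := 7 / 12 - 1 / 745) (by norm_num) (by norm_num) hr26_g ?_ h2
  linarith

end OL
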