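import Pool.Agent.Lib.MP_39df77_nt.OL.K5
import Pool.Agent.Lib.MP_39df77_nt.OL.K15
import Pool.Agent.Lib.MP_39df77_nt.OL.Main3
import Pool.Agent.Lib.MP_39df77_nt.OL.MainG

/-! # Moments of zeta of all real orders off the critical line: explicit range, asymptotic formula -/

set_option autoImplicit false

open Complex MeasureTheory Set Filter Topology
open scoped ComplexConjugate

namespace OL

lemma mb_half : MB (1 / 2) 4 := by
  intro e he
  obtain ⟨C, hC⟩ := U6.fourth_moment e he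
  have hc : Continuous fun t : ℝ => ‖riemannZeta ((1 / 2 : ℝ) + t * I)‖ ^ 4 :=
    (zeta_cont (by norm_num)).norm.pow 4
  obtain ⟨C1, -, h1⟩ := Cx.from_zero hc (fun t => by positivity) (m := 1 + e) (by linarith) (abs_nonneg C)
    (fun T hT => by
      have h2 := hC T hT
      have e1 : ∀ t : ℝ, ‖riemannZeta (((1 / 2 : ℝ) : ℂ) + t * I)‖ ^ 4 =
          ‖riemannZeta (1 / 2 + t * I)‖ ^ 4 := by
        intro t
        push_cast
        rfl
      simp only [e1]
      exact h2.trans (mul_le_mul_of_nonneg_right (le_abs_self C) (Real.rpow_nonneg (by linarith) _)))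
  refine ⟨C1, fun T hT => ?_⟩
  have e2 : ∀ t : ℝ, ‖riemannZeta (((1 / 2 : ℝ) : ℂ) + t * I)‖ ^ (4 : ℝ) =
      ‖riemannZeta (((1 / 2 : ℝ) : ℂ) + t * I)‖ ^ 4 := by
    intro t
    rw [← Real.rpow_natCast]
    norm_num
  simp only [e2]
  exact h1 T hT

lemma mb_six0 : MB (7 / 12 - 1 / 745) 6 := by
  intro e he
  obtain ⟨C, hC⟩ := hr26_g e he
  have hc : Continuous fun t : ℝ => ‖riemannZeta ((7 / 12 - 1 / 745 : ℝ) + t * I)‖ ^ 6 :=
    (zeta_cont (by norm_num)).norm.pow 6
  obtain ⟨C1, -, h1⟩ := Cx.from_zero hc (fun t => by positivity) (m := 1 + e) (by linarith) (abs_nonneg C)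
    (fun T hT => (hC T hT).trans (mul_le_mul_of_nonneg_right (le_abs_self C)
      (Real.rpow_nonneg (by linarith) _)))
  refine ⟨C1, fun T hT => ?_⟩
  have e2 : ∀ t : ℝ, ‖riemannZeta ((7 / 12 - 1 / 745 : ℝ) + t * I)‖ ^ (6 : ℝ) =
      ‖riemannZeta ((7 / 12 - 1 / 745 : ℝ) + t * I)‖ ^ 6 := by
    intro t
    rw [← Real.rpow_natCast]
    norm_num
  simp only [e2]
  exact h1 T hT

/-- an asymptotic formula gives an upper bound -/
lemma mb_of_tendsto {σ A L : ℝ} (hσ : σ < 1) (hA : 0 ≤ A)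
    (h : Tendsto (fun T : ℝ => T⁻¹ * ∫ t in (0 : ℝ)..T, ‖riemannZeta (σ + t * I)‖ ^ A) atTop (𝓝 L)) :
    MB σ A := by
  intro e he
  obtain ⟨T0, hT0⟩ := Filter.eventually_atTop.1 (h.eventually_le_const (show L < |L| + 1 by
    linarith [le_abs_self L]))
  obtain ⟨T1, hT1⟩ : ∃ T1, T1 = max T0 1 := ⟨_, rfl⟩
  have hT11 : 1 ≤ T1 := by rw [hT1]; exact le_max_right _ _
  have hT10 : T0 ≤ T1 := by rw [hT1]; exact le_max_left _ _
  have hc : Continuous fun t : ℝ => ‖riemannZeta (σ + t * I)‖ ^ A :=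
    (zeta_cont hσ).norm.rpow_const fun _ => Or.inr hA
  obtain ⟨J, hJ⟩ : ∃ J, J = ∫ t in (0 : ℝ)..T1, ‖riemannZeta (σ + t * I)‖ ^ A := ⟨_, rfl⟩
  have hJ0 : 0 ≤ J := by
    rw [hJ]; exact intervalIntegral.integral_nonneg (by linarith) fun t _ => by positivity
  refine ⟨|L| + 1 + J, fun T hT => ?_⟩
  have hT0' : 0 < T := by linarith
  have hTx : T ≤ T ^ (1 + e) := by
    calc T = T ^ (1 : ℝ) := (Real.rpow_one T).symm
      _ ≤ _ := Real.rpow_le_rpow_of_exponent_le hT (by linarith)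
  have hLp : 0 ≤ |L| + 1 := by positivity
  rcases le_total T1 T with h3 | h3
  · have h4 := hT0 T (hT10.trans h3)
    rw [inv_mul_le_iff₀ hT0'] at h4
    have h5 : (|L| + 1) * T ≤ (|L| + 1) * T ^ (1 + e) := mul_le_mul_of_nonneg_left hTx hLp
    have h6 : 0 ≤ J * T ^ (1 + e) := by positivity
    linarith
  · have h4 : ∫ t in (0 : ℝ)..T, ‖riemannZeta (σ + t * I)‖ ^ A ≤ J := by
      rw [hJ]
      refine intervalIntegral.integral_mono_interval le_rfl (by linarith) h3 ?_ (hc.intervalIntegrable _ _)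
      exact Filter.Eventually.of_forall fun t => by positivity
    have h6 : J * 1 ≤ J * T ^ (1 + e) := mul_le_mul_of_nonneg_left (hT.trans hTx) hJ0
    have h7 : 0 ≤ (|L| + 1) * T ^ (1 + e) := by positivity
    linarith

lemma mb_six : MB (291 / 500) 6 :=
  mb_of_tendsto (by norm_num) (by norm_num)
    (mean_real (by norm_num) (by norm_num) mb_six0 (by norm_num) (by norm_num) (by norm_num) le_rfl).2

lemma mb_eight : MB (5 / 8) 8 := by
  obtain ⟨c0, hc0, h⟩ := main_all
  intro e he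
  have := h (5 / 8) (by norm_num) le_rfl 8 (by norm_num) (by
    have : (0 : ℝ) < c0 * (5 / 8 - 1 / 2) := by positivity
    have e1 : (4 / (3 - 4 * (5 / 8)) : ℝ) = 8 := by norm_num
    linarith) e he
  exact this

lemma left_pt {f : ℝ → ℝ} {σ a A : ℝ} (hf : ContinuousAt f σ) (ha : a < σ) (h : A < f σ) :
    ∃ s, a < s ∧ s < σ ∧ A < f s := by
  have h1 : ∀ᶠ s in 𝓝[<] σ, A < f s := (hf.tendsto.mono_left nhdsWithin_le_nhds).eventually (lt_mem_nhds h)
  have h2 : ∀ᶠ s in 𝓝[<] σ, s ∈ Ioo a σ := Ioo_mem_nhdsLT ha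
  obtain ⟨s, hs1, hs2⟩ := (h1.and h2).exists
  exact ⟨s, hs2.1, hs2.2, hs1⟩

/-- **all real orders, asymptotic formula** -/
theorem main_k : ∃ c : ℝ, 0 < c ∧ ∀ σ : ℝ, 1 / 2 < σ → σ ≤ 5 / 8 → ∀ A : ℝ, 0 < A →
    (A < 492 / (373 - 500 * σ) ∧ A < 516 / (377 - 500 * σ) ∨
      A ≤ 4 / (3 - 4 * σ) + c * (σ - 1 / 2)) →
    Summable (fun n : ℕ => dz (A / 2) n ^ 2 * (n : ℝ) ^ (-(2 * σ))) ∧
    Tendsto (fun T : ℝ => T⁻¹ * ∫ t in (0 : ℝ)..T, ‖riemannZeta (σ + t * I)‖ ^ A) atTop
      (𝓝 (∑' n : ℕ, dz (A / 2) n ^ 2 * (n : ℝ) ^ (-(2 * σ)))) := by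
  obtain ⟨c0, hc0, h⟩ := main_all
  refine ⟨c0 / 2, by positivity, fun σ h1 h2 A hA hr => ?_⟩
  suffices hs : ∃ s B : ℝ, 1 / 2 ≤ s ∧ s < σ ∧ 1 ≤ B ∧ A ≤ B ∧ MB s B by
    obtain ⟨s, B, hs1, hs2, hB1, hB2, hMB⟩ := hs
    exact mean_real hs1 hB1 hMB hs2 (by linarith) hA hB2
  rcases hr with ⟨hr1, hr2⟩ | hr
  · rcases le_or_gt σ (291 / 500) with h3 | h3
    · -- between `1/2` and `0.582`
      have hcont : ContinuousAt (fun s : ℝ => 492 / (373 - 500 * s)) σ := by
        refine ContinuousAt.div (by fun_prop) (by fun_prop) ?_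
        have : 0 < 373 - 500 * σ := by linarith
        exact this.ne'
      obtain ⟨s, hs1, hs2, hs3⟩ := left_pt hcont h1 hr1
      have hp : 0 < 373 - 500 * s := by linarith
      have hB : 4 ≤ 492 / (373 - 500 * s) := by
        rw [le_div_iff₀ hp]
        linarith
      refine ⟨s, 492 / (373 - 500 * s), hs1.le, hs2, by linarith, hs3.le, ?_⟩
      have hMB := convexP (s0 := 1 / 2) (s1 := 291 / 500) (θ := (s - 1 / 2) * (500 / 41)) (A0 := 4) (A1 := 6)
        (A := 492 / (373 - 500 * s)) le_rfl (by norm_num) (by norm_num)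
        (mul_nonneg (by linarith) (by norm_num)) (by linarith) (by norm_num) (by norm_num)
        (by positivity) (by
          rw [one_div_div]
          ring) mb_half mb_six
      have e1 : (1 - (s - 1 / 2) * (500 / 41)) * (1 / 2) + (s - 1 / 2) * (500 / 41) * (291 / 500) = s := by
        ring
      rwa [e1] at hMB
    · -- between `0.582` and `5/8`
      have hcont : ContinuousAt (fun s : ℝ => 516 / (377 - 500 * s)) σ := by
        refine ContinuousAt.div (by fun_prop) (by fun_prop) ?_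
        have : 0 < 377 - 500 * σ := by linarith
        exact this.ne'
      obtain ⟨s, hs1, hs2, hs3⟩ := left_pt hcont h3 hr2
      have hp : 0 < 377 - 500 * s := by linarith
      have hB : 4 ≤ 516 / (377 - 500 * s) := by
        rw [le_div_iff₀ hp]
        linarith
      refine ⟨s, 516 / (377 - 500 * s), by linarith, hs2, by linarith, hs3.le, ?_⟩
      have hMB := convexP (s0 := 291 / 500) (s1 := 5 / 8) (θ := (s - 291 / 500) * (1000 / 43)) (A0 := 6)
        (A1 := 8) (A := 516 / (377 - 500 * s)) (by norm_num) (by norm_num) (by norm_num)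
        (mul_nonneg (by linarith) (by norm_num)) (by linarith) (by norm_num) (by norm_num)
        (by positivity) (by
          rw [one_div_div]
          ring) mb_six mb_eight
      have e1 : (1 - (s - 291 / 500) * (1000 / 43)) * (291 / 500) + (s - 291 / 500) * (1000 / 43) * (5 / 8) =
          s := by
        ring
      rwa [e1] at hMB
  · have hcont : ContinuousAt (fun s : ℝ => 4 / (3 - 4 * s) + c0 * (s - 1 / 2)) σ := by
      refine ContinuousAt.add (ContinuousAt.div (by fun_prop) (by fun_prop) ?_) (by fun_prop)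
      have : 0 < 3 - 4 * σ := by linarith
      exact this.ne'
    have hlt : A < 4 / (3 - 4 * σ) + c0 * (σ - 1 / 2) := by
      have : 0 < c0 * (σ - 1 / 2) := mul_pos hc0 (by linarith)
      linarith
    obtain ⟨s, hs1, hs2, hs3⟩ := left_pt hcont h1 hlt
    have hp : 0 < 3 - 4 * s := by linarith
    have hB : 4 ≤ 4 / (3 - 4 * s) := by
      rw [le_div_iff₀ hp]
      linarith
    have hB2 : 0 < c0 * (s - 1 / 2) := mul_pos hc0 (by linarith)
    refine ⟨s, 4 / (3 - 4 * s) + c0 * (s - 1 / 2), hs1.le, hs2, by linarith, hs3.le, ?_⟩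
    exact h s hs1 (by linarith) _ (by linarith) le_rfl

end OL
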