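import Pool.Agent.Lib.MP_39df77_nt.OL.Defs

/-! separated sets -/

set_option autoImplicit false

open Complex MeasureTheory Set Filter Topology
open scoped Real ComplexConjugate

namespace OL

/-- Gallagher-Sobolev. Proof: there is `u0` in the interval with `‖f u0‖^2 ≤ ∫ ‖f‖^2` (mean value), and
`‖f t‖^2 - ‖f u0‖^2 = ∫_{u0}^t 2 Re (f' conj f)`. -/
theorem sobolev {f f' : ℝ → ℂ} (hf : ∀ x, HasDerivAt f (f' x) x) (hf' : Continuous f') (t : ℝ) :
    ‖f t‖ ^ 2 ≤ ∫ u in (t - 1 / 2)..(t + 1 / 2), (‖f u‖ ^ 2 + 2 * ‖f u‖ * ‖f' u‖) := by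
  have hfc : Continuous f := continuous_iff_continuousAt.2 fun x => (hf x).continuousAt
  have hg : ∀ x, HasDerivAt (fun u => ‖f u‖ ^ 2) (2 * inner ℝ (f x) (f' x)) x := fun x =>
    (hf x).norm_sq
  have hgc : Continuous fun x => 2 * inner ℝ (f x) (f' x) :=
    continuous_const.mul (hfc.inner hf')
  have hhc : Continuous fun u => 2 * ‖f u‖ * ‖f' u‖ :=
    (continuous_const.mul hfc.norm).mul hf'.norm
  have hsc : Continuous fun u => ‖f u‖ ^ 2 := hfc.norm.pow 2
  set C : ℝ := ∫ u in (t - 1 / 2)..(t + 1 / 2), 2 * ‖f u‖ * ‖f' u‖ with hC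
  have hb : ∀ x, |2 * inner ℝ (f x) (f' x)| ≤ 2 * ‖f x‖ * ‖f' x‖ := by
    intro x
    rw [abs_mul, abs_two, mul_assoc]
    exact mul_le_mul_of_nonneg_left (abs_real_inner_le_norm _ _) (by norm_num)
  have key : ∀ u ∈ Icc (t - 1 / 2) (t + 1 / 2), ‖f t‖ ^ 2 ≤ ‖f u‖ ^ 2 + C := by
    intro u hu
    have h1 : ∫ x in u..t, 2 * inner ℝ (f x) (f' x) = ‖f t‖ ^ 2 - ‖f u‖ ^ 2 :=
      intervalIntegral.integral_eq_sub_of_hasDerivAt (fun x _ => hg x)
        (hgc.intervalIntegrable _ _)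
    have h2 : ‖∫ x in u..t, 2 * inner ℝ (f x) (f' x)‖ ≤
        |∫ x in u..t, 2 * ‖f x‖ * ‖f' x‖| := by
      refine intervalIntegral.norm_integral_le_abs_of_norm_le ?_ (hhc.intervalIntegrable _ _)
      filter_upwards with x
      rw [Real.norm_eq_abs]
      exact hb x
    have h3 : |∫ x in u..t, 2 * ‖f x‖ * ‖f' x‖| ≤ C := by
      rcases le_total u t with h | h
      · rw [abs_of_nonneg (intervalIntegral.integral_nonneg h fun x _ => by positivity)]
        refine intervalIntegral.integral_mono_interval hu.1 h (by linarith)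
          (Filter.Eventually.of_forall fun x => by positivity) (hhc.intervalIntegrable _ _)
      · rw [intervalIntegral.integral_symm, abs_neg,
          abs_of_nonneg (intervalIntegral.integral_nonneg h fun x _ => by positivity)]
        refine intervalIntegral.integral_mono_interval (by linarith) h hu.2
          (Filter.Eventually.of_forall fun x => by positivity) (hhc.intervalIntegrable _ _)
    have h4 : ‖f t‖ ^ 2 - ‖f u‖ ^ 2 ≤ ‖∫ x in u..t, 2 * inner ℝ (f x) (f' x)‖ := by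
      rw [h1, Real.norm_eq_abs]
      exact le_abs_self _
    linarith
  have h5 : ∫ u in (t - 1 / 2)..(t + 1 / 2), ‖f t‖ ^ 2 ≤
      ∫ u in (t - 1 / 2)..(t + 1 / 2), (‖f u‖ ^ 2 + C) :=
    intervalIntegral.integral_mono_on (by linarith) (continuous_const.intervalIntegrable _ _)
      ((hsc.add continuous_const).intervalIntegrable _ _) key
  rw [intervalIntegral.integral_add (hsc.intervalIntegrable _ _)
    (continuous_const.intervalIntegrable _ _)] at h5
  rw [intervalIntegral.integral_add (hsc.intervalIntegrable _ _) (hhc.intervalIntegrable _ _)]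
  simp only [intervalIntegral.integral_const, smul_eq_mul] at h5
  have h6 : t + 1 / 2 - (t - 1 / 2) = 1 := by ring
  rw [h6, one_mul, one_mul] at h5
  exact h5

theorem sep_disj {S : Finset ℝ} (hS : Sep S) :
    (S : Set ℝ).PairwiseDisjoint fun t => Ioc (t - 1 / 2) (t + 1 / 2) := by
  intro s hs t ht hst
  rw [Function.onFun, Set.disjoint_left]
  intro u hu hu'
  have h1 := hS s hs t ht hst
  have h2 : |s - t| < 1 := by
    rw [abs_lt]
    constructor <;> linarith [hu.1, hu.2, hu'.1, hu'.2]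
  linarith

/-- the intervals `(t - 1/2, t + 1/2)` are disjoint -/
theorem sep_sum_int {S : Finset ℝ} (hS : Sep S) {F : ℝ → ℝ} (hF : Integrable F) (h0 : ∀ x, 0 ≤ F x) :
    ∑ t ∈ S, ∫ u in (t - 1 / 2)..(t + 1 / 2), F u ≤ ∫ u, F u := by
  have h1 : ∑ t ∈ S, ∫ u in (t - 1 / 2)..(t + 1 / 2), F u =
      ∫ u in ⋃ t ∈ S, Ioc (t - 1 / 2) (t + 1 / 2), F u := by
    rw [integral_biUnion_finset S (fun t _ => measurableSet_Ioc) (sep_disj hS)
      (fun t _ => hF.integrableOn)]
    refine Finset.sum_congr rfl fun t _ => ?_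
    rw [intervalIntegral.integral_of_le (by linarith)]
  rw [h1]
  exact setIntegral_le_integral hF (Filter.Eventually.of_forall h0)

/-- `1/(1+(t-x)²) ≤ 2 ∫_{t-1/2}^{t+1/2} du/(1+(u-x)²)`, total `≤ 2π` -/
theorem sep_sum {S : Finset ℝ} (hS : Sep S) (x : ℝ) : ∑ t ∈ S, 1 / (1 + (t - x) ^ 2) ≤ 8 := by
  have hI : Integrable fun u : ℝ => (1 + (u - x) ^ 2)⁻¹ :=
    integrable_inv_one_add_sq.comp_sub_right x
  have hv : ∫ u : ℝ, (1 + (u - x) ^ 2)⁻¹ = π := by
    rw [integral_sub_right_eq_self (fun u : ℝ => (1 + u ^ 2)⁻¹) x]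
    exact integral_univ_inv_one_add_sq
  have h1 := sep_sum_int hS hI (fun u => by positivity)
  have h2 : ∀ t ∈ S, 1 / (1 + (t - x) ^ 2) ≤
      2 * ∫ u in (t - 1 / 2)..(t + 1 / 2), (1 + (u - x) ^ 2)⁻¹ := by
    intro t _
    have h3 : ∫ u in (t - 1 / 2)..(t + 1 / 2), 1 / (2 * (1 + (t - x) ^ 2)) ≤
        ∫ u in (t - 1 / 2)..(t + 1 / 2), (1 + (u - x) ^ 2)⁻¹ := by
      refine intervalIntegral.integral_mono_on (by linarith)
        (continuous_const.intervalIntegrable _ _) hI.intervalIntegrable fun u hu => ?_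
      rw [← one_div]
      apply one_div_le_one_div_of_le (by positivity)
      have h4 : (u - t) ^ 2 ≤ 1 / 4 := by
        have h5 : |u - t| ≤ 1 / 2 := by
          rw [abs_le]; constructor <;> linarith [hu.1, hu.2]
        calc (u - t) ^ 2 = |u - t| ^ 2 := (sq_abs _).symm
          _ ≤ (1 / 2) ^ 2 := by gcongr
          _ = 1 / 4 := by norm_num
      nlinarith [sq_nonneg ((t - x) - (u - t))]
    rw [intervalIntegral.integral_const, smul_eq_mul] at h3
    have h6 : t + 1 / 2 - (t - 1 / 2) = 1 := by ring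
    rw [h6, one_mul] at h3
    have h7 : 1 / (1 + (t - x) ^ 2) = 2 * (1 / (2 * (1 + (t - x) ^ 2))) := by
      have : (1 + (t - x) ^ 2) ≠ 0 := by positivity
      field_simp
    rw [h7]
    linarith
  calc ∑ t ∈ S, 1 / (1 + (t - x) ^ 2)
      ≤ ∑ t ∈ S, 2 * ∫ u in (t - 1 / 2)..(t + 1 / 2), (1 + (u - x) ^ 2)⁻¹ :=
        Finset.sum_le_sum h2
    _ = 2 * ∑ t ∈ S, ∫ u in (t - 1 / 2)..(t + 1 / 2), (1 + (u - x) ^ 2)⁻¹ := by
        rw [Finset.mul_sum]
    _ ≤ 2 * π := by rw [hv] at h1; linarith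
    _ ≤ 8 := by linarith [Real.pi_le_four]

theorem sep_card {S : Finset ℝ} {T : ℝ} (hT : 0 ≤ T) (hS : Sep S) (hI : InI S T) :
    (S.card : ℝ) ≤ T + 1 := by
  obtain ⟨A, hA⟩ := hI
  set F : ℝ → ℝ := (Ioc (A - 1 / 2) (A + T + 1 / 2)).indicator fun _ => 1 with hF
  have hFi : Integrable F := by
    rw [hF, integrable_indicator_iff measurableSet_Ioc]
    exact integrableOn_const (by simp)
  have h0 : ∀ x, 0 ≤ F x := fun x => Set.indicator_nonneg (fun _ _ => zero_le_one) x
  have h1 := sep_sum_int hS hFi h0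
  have h2 : ∫ u, F u = T + 1 := by
    rw [hF, integral_indicator measurableSet_Ioc]
    simp only [integral_const, smul_eq_mul, mul_one, MeasurableSet.univ, measureReal_restrict_apply,
      univ_inter]
    rw [Real.volume_real_Ioc_of_le (by linarith)]
    ring
  have h3 : ∀ t ∈ S, ∫ u in (t - 1 / 2)..(t + 1 / 2), F u = 1 := by
    intro t ht
    have h4 : ∫ u in (t - 1 / 2)..(t + 1 / 2), F u = ∫ u in (t - 1 / 2)..(t + 1 / 2), (1 : ℝ) := by
      rw [intervalIntegral.integral_of_le (by linarith), intervalIntegral.integral_of_le (by linarith)]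
      refine setIntegral_congr_fun measurableSet_Ioc fun u hu => ?_
      have : u ∈ Ioc (A - 1 / 2) (A + T + 1 / 2) := by
        obtain ⟨ha, hb⟩ := hA t ht
        constructor
        · linarith [hu.1]
        · linarith [hu.2]
      rw [hF]
      exact Set.indicator_of_mem this _
    rw [h4]
    simp
    norm_num
  rw [Finset.sum_congr rfl h3, h2] at h1
  simpa using h1

theorem sep_sub {S S' : Finset ℝ} (h : S' ⊆ S) (hS : Sep S) : Sep S' :=
  fun s hs t ht hst => hS s (h hs) t (h ht) hst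

theorem inI_sub {S S' : Finset ℝ} {T : ℝ} (h : S' ⊆ S) (hS : InI S T) : InI S' T := by
  obtain ⟨A, hA⟩ := hS
  exact ⟨A, fun t ht => hA t (h ht)⟩

end OL
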