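import Pool.Agent.Lib.MP_39df77_nt.OL.Defs
import Pool.Agent.Lib.MP_39df77_nt.Part01

/-! the Poisson coefficients in closed form -/

set_option autoImplicit false

open Complex MeasureTheory Set Filter Topology
open scoped Real ComplexConjugate

namespace OL

theorem A01_conj_ei (x : ℝ) : conj (ei x) = ei (-x) := by
  unfold ei
  rw [← Complex.exp_conj]
  congr 1
  simp

/-- Proof: `S6.exp_int` with `s = a + 1/2 + iτ`, `W = 1 + 2πimM`; `wt u * ei (..) = u^(s-1) exp(-W u)` on `u > 0`. -/
theorem Km_eq (a : ℕ) (M τ : ℝ) (m : ℤ) :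
    Km a M τ m = ((1 : ℂ) + 2 * π * m * M * I) ^ (-((a : ℂ) + 1 / 2 + τ * I)) *
      Gamma ((a : ℂ) + 1 / 2 + τ * I) := by
  have hs : 0 < ((a : ℂ) + 1 / 2 + τ * I).re := by
    simp
    positivity
  have hW : 0 < ((1 : ℂ) + 2 * π * m * M * I).re := by
    simp
  rw [← S6.exp_int hs hW]
  unfold Km
  refine setIntegral_congr_fun measurableSet_Ioi (fun u hu => ?_)
  have hu : 0 < u := hu
  have hu' : (u : ℂ) ≠ 0 := by exact_mod_cast hu.ne'
  unfold wt ei
  rw [Real.rpow_def_of_pos hu, Complex.cpow_def_of_ne_zero hu', ← Complex.ofReal_log hu.le]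
  push_cast
  rw [← Complex.exp_add, ← Complex.exp_add, ← Complex.exp_add]
  congr 1
  ring

theorem Km_conj (a : ℕ) (M τ : ℝ) (m : ℤ) : conj (Km a M τ m) = Km a M (-τ) (-m) := by
  unfold Km
  rw [← integral_conj]
  refine setIntegral_congr_fun measurableSet_Ioi (fun u _ => ?_)
  simp only [map_mul, Complex.conj_ofReal, A01_conj_ei]
  congr 2
  push_cast
  ring

theorem KY_conj (a Y : ℕ) (M τ : ℝ) : conj (KY a Y M τ) = KY a Y M (-τ) := by
  unfold KY
  simp only [map_mul, map_sum, Complex.conj_ofReal, A01_conj_ei, Km_conj]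
  congr 1
  · congr 2
    ring
  · refine Finset.sum_bij' (fun m _ => -m) (fun m _ => -m) ?_ ?_ ?_ ?_ ?_
    · intro m hm
      simp only [Zs, Finset.mem_erase, Finset.mem_Icc] at hm ⊢
      omega
    · intro m hm
      simp only [Zs, Finset.mem_erase, Finset.mem_Icc] at hm ⊢
      omega
    · intro m _
      simp
    · intro m _
      simp
    · intro m _
      rfl

theorem K_conj (a : ℕ) (M τ : ℝ) : conj (K a M τ) = K a M (-τ) := by
  unfold K
  rw [Complex.conj_tsum]
  refine tsum_congr (fun n => ?_)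
  simp only [map_mul, Complex.conj_ofReal, A01_conj_ei]
  congr 2
  ring

end OL
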