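import Pool.Agent.Lib.MP_39df77_nt.OL.Defs
import Pool.Agent.Lib.MP_39df77_nt.Part01

/-! the Gamma function on the line `a + 1/2` -/

set_option autoImplicit false

open Complex MeasureTheory Set Filter Topology
open scoped Real ComplexConjugate

namespace OL

/-- Proof: `Γ(s+1) = s Γ(s)` and `S6.Gamma_half`. -/
theorem Gamma_shift (a : ℕ) : ∃ C : ℝ, 0 < C ∧ ∀ τ : ℝ,
    ‖Gamma ((a : ℂ) + 1 / 2 + τ * I)‖ ≤ C * (1 + |τ|) ^ a * Real.exp (-(π * |τ| / 2)) := by
  induction a with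
  | zero =>
    refine ⟨Real.sqrt (2 * π), Real.sqrt_pos.mpr (by positivity), fun τ => ?_⟩
    have h1 := S6.Gamma_half τ
    have h2 : (Real.sqrt (2 * π) * Real.exp (-(π * |τ| / 2))) ^ 2 =
        2 * π * Real.exp (-(π * |τ|)) := by
      rw [mul_pow, Real.sq_sqrt (by positivity), ← Real.exp_nat_mul]
      congr 2
      push_cast
      ring
    rw [← h2] at h1
    have h3 := abs_le_of_sq_le_sq h1 (by positivity)
    rw [abs_of_nonneg (norm_nonneg _)] at h3
    simpa using h3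
  | succ a ih =>
    obtain ⟨C, hC, h⟩ := ih
    refine ⟨((a : ℝ) + 1) * C, by positivity, fun τ => ?_⟩
    have hne : ((a : ℂ) + 1 / 2 + τ * I) ≠ 0 := by
      intro h0
      have := congrArg Complex.re h0
      simp at this
      have ha : (0 : ℝ) ≤ a := Nat.cast_nonneg a
      norm_num at this
      linarith
    have h1 : (((a + 1 : ℕ) : ℂ) + 1 / 2 + τ * I) = ((a : ℂ) + 1 / 2 + τ * I) + 1 := by
      push_cast
      ring
    rw [h1, Complex.Gamma_add_one _ hne, norm_mul]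
    have h2 : ‖((a : ℂ) + 1 / 2 + τ * I)‖ ≤ ((a : ℝ) + 1) * (1 + |τ|) := by
      have h3 : ‖((a : ℂ) + 1 / 2 + τ * I)‖ ≤ ((a : ℝ) + 1 / 2) + |τ| := by
        refine (norm_add_le _ _).trans (add_le_add ?_ ?_)
        · have h4 : ((a : ℂ) + 1 / 2) = (((a : ℝ) + 1 / 2 : ℝ) : ℂ) := by push_cast; ring
          rw [h4, Complex.norm_real, Real.norm_eq_abs, abs_of_nonneg (by positivity)]
        · rw [norm_mul, Complex.norm_I, mul_one, Complex.norm_real, Real.norm_eq_abs]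
      have h5 : 0 ≤ (a : ℝ) * |τ| := by positivity
      nlinarith [h3, h5]
    calc ‖((a : ℂ) + 1 / 2 + τ * I)‖ * ‖Gamma ((a : ℂ) + 1 / 2 + τ * I)‖
        ≤ (((a : ℝ) + 1) * (1 + |τ|)) * (C * (1 + |τ|) ^ a * Real.exp (-(π * |τ| / 2))) :=
          mul_le_mul h2 (h τ) (norm_nonneg _) (by positivity)
      _ = ((a : ℝ) + 1) * C * (1 + |τ|) ^ (a + 1) * Real.exp (-(π * |τ| / 2)) := by ring

end OL
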