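import Pool.Agent.Lib.MP_39df77_nt.OL.A01
import Pool.Agent.Lib.MP_39df77_nt.OL.A02

/-! bounds for the Poisson coefficients -/

set_option autoImplicit false

open Complex MeasureTheory Set Filter Topology
open scoped Real ComplexConjugate

namespace OL

/-- Proof: `Km_eq`, `‖W^(-s)‖ = |W|^(-(a+1/2)) exp(τ arg W)`, `|arg W| ≤ π/2` (`Re W > 0`), `|W| ≥ |m| M`, `Gamma_shift`. -/
theorem Km_le (a : ℕ) : ∃ C : ℝ, 0 < C ∧ ∀ (M τ : ℝ) (m : ℤ), 0 < M → m ≠ 0 →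
    ‖Km a M τ m‖ ≤ C * (1 + |τ|) ^ a * (|(m : ℝ)| * M) ^ (-((a : ℝ) + 1 / 2)) := by
  obtain ⟨C, hC, hG⟩ := Gamma_shift a
  refine ⟨C, hC, ?_⟩
  intro M τ m hM hm
  rw [Km_eq, norm_mul]
  set W : ℂ := (1 : ℂ) + 2 * π * m * M * I with hW
  have hre : W.re = 1 := by simp [hW]
  have him : W.im = 2 * π * m * M := by simp [hW]
  have hW0 : W ≠ 0 := by
    intro h
    have := congrArg Complex.re h
    rw [hre] at this
    simp at this
  have hm' : 0 < |(m : ℝ)| := abs_pos.2 (by exact_mod_cast hm)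
  have harg : |W.arg| ≤ π / 2 := Complex.abs_arg_le_pi_div_two_iff.2 (by rw [hre]; norm_num)
  have hsre : (-((a : ℂ) + 1 / 2 + τ * I)).re = -((a : ℝ) + 1 / 2) := by simp
  have hsim : (-((a : ℂ) + 1 / 2 + τ * I)).im = -τ := by simp
  have hnorm : |(m : ℝ)| * M ≤ ‖W‖ := by
    have h1 : |W.im| ≤ ‖W‖ := Complex.abs_im_le_norm W
    rw [him, abs_mul, abs_mul, abs_mul, abs_of_pos hM, abs_of_pos Real.pi_pos, abs_two] at h1
    have h2 : 1 ≤ 2 * π := by linarith [Real.pi_gt_three]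
    have h3 : 0 < |(m : ℝ)| * M := mul_pos hm' hM
    nlinarith
  have h1 : ‖W ^ (-((a : ℂ) + 1 / 2 + τ * I))‖ ≤
      (|(m : ℝ)| * M) ^ (-((a : ℝ) + 1 / 2)) * Real.exp (π * |τ| / 2) := by
    rw [Complex.norm_cpow_of_ne_zero hW0, hsre, hsim, div_eq_mul_inv, ← Real.exp_neg]
    refine mul_le_mul ?_ ?_ (Real.exp_pos _).le (Real.rpow_nonneg (by positivity) _)
    · exact Real.rpow_le_rpow_of_nonpos (by positivity) hnorm (by
        have : (0 : ℝ) ≤ a := Nat.cast_nonneg a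
        linarith)
    · refine Real.exp_le_exp.2 ?_
      have h2 : -(W.arg * -τ) = W.arg * τ := by ring
      rw [h2]
      calc W.arg * τ ≤ |W.arg * τ| := le_abs_self _
        _ = |W.arg| * |τ| := abs_mul _ _
        _ ≤ π / 2 * |τ| := mul_le_mul_of_nonneg_right harg (abs_nonneg _)
        _ = π * |τ| / 2 := by ring
  have h2 := hG τ
  calc ‖W ^ (-((a : ℂ) + 1 / 2 + τ * I))‖ * ‖Gamma ((a : ℂ) + 1 / 2 + τ * I)‖
      ≤ ((|(m : ℝ)| * M) ^ (-((a : ℝ) + 1 / 2)) * Real.exp (π * |τ| / 2)) *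
        (C * (1 + |τ|) ^ a * Real.exp (-(π * |τ| / 2))) :=
        mul_le_mul h1 h2 (norm_nonneg _) (by positivity)
    _ = C * (1 + |τ|) ^ a * (|(m : ℝ)| * M) ^ (-((a : ℝ) + 1 / 2)) *
        (Real.exp (π * |τ| / 2) * Real.exp (-(π * |τ| / 2))) := by ring
    _ = _ := by rw [← Real.exp_add, add_neg_cancel, Real.exp_zero, mul_one]

theorem Km_zero (a : ℕ) : ∃ C : ℝ, 0 < C ∧ ∀ M τ : ℝ, ‖Km a M τ 0‖ ≤ C / (1 + τ ^ 2) ^ 2 := by
  obtain ⟨C, hC, hG⟩ := Gamma_shift a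
  refine ⟨C * ((a + 4).factorial * Real.exp 1), by positivity, ?_⟩
  intro M τ
  rw [Km_eq]
  have e1 : ((1 : ℂ) + 2 * π * ((0 : ℤ) : ℂ) * M * I) = 1 := by simp
  rw [e1, Complex.one_cpow, one_mul]
  refine (hG τ).trans ?_
  rw [le_div_iff₀ (by positivity)]
  have h0 : 0 ≤ |τ| := abs_nonneg τ
  have h1 : (1 + τ ^ 2) ^ 2 ≤ (1 + |τ|) ^ 4 := by
    have : 1 + τ ^ 2 ≤ (1 + |τ|) ^ 2 := by nlinarith [sq_abs τ]
    calc (1 + τ ^ 2) ^ 2 ≤ ((1 + |τ|) ^ 2) ^ 2 := pow_le_pow_left₀ (by positivity) this 2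
      _ = (1 + |τ|) ^ 4 := by ring
  have h2 : (1 + |τ|) ^ (a + 4) ≤ (a + 4).factorial * Real.exp (1 + |τ|) := by
    have := Real.pow_div_factorial_le_exp (1 + |τ|) (by positivity) (a + 4)
    rw [div_le_iff₀ (by positivity)] at this
    linarith
  have h3 : Real.exp (1 + |τ|) * Real.exp (-(π * |τ| / 2)) ≤ Real.exp 1 := by
    rw [← Real.exp_add]
    refine Real.exp_le_exp.2 ?_
    nlinarith [Real.pi_gt_three]
  calc C * (1 + |τ|) ^ a * Real.exp (-(π * |τ| / 2)) * (1 + τ ^ 2) ^ 2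
      ≤ C * (1 + |τ|) ^ a * Real.exp (-(π * |τ| / 2)) * (1 + |τ|) ^ 4 :=
        mul_le_mul_of_nonneg_left h1 (by positivity)
    _ = C * ((1 + |τ|) ^ (a + 4) * Real.exp (-(π * |τ| / 2))) := by ring
    _ ≤ C * (((a + 4).factorial * Real.exp (1 + |τ|)) * Real.exp (-(π * |τ| / 2))) := by
        gcongr
    _ = C * ((a + 4).factorial * (Real.exp (1 + |τ|) * Real.exp (-(π * |τ| / 2)))) := by ring
    _ ≤ C * ((a + 4).factorial * Real.exp 1) := by gcongr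

end OL
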