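import Pool.Agent.Lib.MP_39df77_nt.OL.A03

/-! Poisson summation -/

set_option autoImplicit false

open Complex MeasureTheory Set Filter Topology
open scoped Real ComplexConjugate FourierTransform

namespace OL

theorem poi_wt_zero {a : ℕ} (ha : 2 ≤ a) : wt a 0 = 0 := by
  unfold wt
  have h : (a : ℝ) - 1 / 2 ≠ 0 := by
    have : (2 : ℝ) ≤ a := by exact_mod_cast ha
    intro h
    linarith
  rw [Real.zero_rpow h, zero_mul]

theorem poi_wt_cont {a : ℕ} (ha : 2 ≤ a) : Continuous (wt a) := by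
  unfold wt
  have h : 0 ≤ (a : ℝ) - 1 / 2 := by
    have : (2 : ℝ) ≤ a := by exact_mod_cast ha
    linarith
  exact (Real.continuous_rpow_const h).mul (Real.continuous_exp.comp continuous_neg)

theorem poi_wt_nonneg (a : ℕ) {u : ℝ} (hu : 0 ≤ u) : 0 ≤ wt a u :=
  mul_nonneg (Real.rpow_nonneg hu _) (Real.exp_pos _).le

theorem poi_norm_ei (x : ℝ) : ‖ei x‖ = 1 := by
  unfold ei
  exact Complex.norm_exp_ofReal_mul_I x

/-- the summand as a function on the line -/
noncomputable def poiF (a : ℕ) (M τ u : ℝ) : ℂ :=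
  ((wt a (max u 0 / M) : ℝ) : ℂ) * ei (τ * Real.log u)

theorem poi_norm (a : ℕ) {M : ℝ} (hM : 0 < M) (τ u : ℝ) : ‖poiF a M τ u‖ = wt a (max u 0 / M) := by
  unfold poiF
  rw [norm_mul, poi_norm_ei, mul_one, Complex.norm_real, Real.norm_of_nonneg]
  exact poi_wt_nonneg a (div_nonneg (le_max_right _ _) hM.le)

theorem poi_zero {a : ℕ} (ha : 2 ≤ a) (M τ : ℝ) {u : ℝ} (hu : u ≤ 0) : poiF a M τ u = 0 := by
  unfold poiF
  rw [max_eq_right hu, zero_div, poi_wt_zero ha]
  simp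

theorem poi_cont {a : ℕ} (ha : 2 ≤ a) {M : ℝ} (hM : 0 < M) (τ : ℝ) : Continuous (poiF a M τ) := by
  rw [continuous_iff_continuousAt]
  intro u
  have hw : Continuous (fun u : ℝ => wt a (max u 0 / M)) :=
    (poi_wt_cont ha).comp ((continuous_id.max continuous_const).div_const M)
  by_cases h : u = 0
  · subst h
    have h0 : poiF a M τ 0 = 0 := poi_zero ha M τ le_rfl
    unfold ContinuousAt
    rw [h0, tendsto_zero_iff_norm_tendsto_zero]
    have h1 : (fun u : ℝ => ‖poiF a M τ u‖) = fun u : ℝ => wt a (max u 0 / M) := by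
      funext u
      exact poi_norm a hM τ u
    rw [h1]
    have h2 := hw.tendsto 0
    rw [max_self, zero_div, poi_wt_zero ha] at h2
    exact h2
  · unfold poiF
    refine ContinuousAt.mul ?_ ?_
    · exact (Complex.continuous_ofReal.comp hw).continuousAt
    · unfold ei
      have h1 : ContinuousAt (fun u : ℝ => τ * Real.log u) u :=
        continuousAt_const.mul (Real.continuousAt_log h)
      exact ((Complex.continuous_ofReal.continuousAt.comp h1).mul continuousAt_const).cexp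

theorem poi_decay {a : ℕ} (ha : 2 ≤ a) {M : ℝ} (hM : 0 < M) (τ : ℝ) :
    Asymptotics.IsBigO (cocompact ℝ) (poiF a M τ) fun x : ℝ => |x| ^ (-(2 : ℝ)) := by
  rw [cocompact_eq_atBot_atTop, Asymptotics.isBigO_sup]
  constructor
  · refine Asymptotics.IsBigO.of_bound 0 ?_
    filter_upwards [eventually_le_atBot (0 : ℝ)] with x hx
    rw [poi_zero ha M τ hx]
    simp
  · have h1 := isLittleO_exp_neg_mul_rpow_atTop (a := 1) one_pos (-((a : ℝ) - 1 / 2) - 2)
    have h2 : Tendsto (fun x : ℝ => x / M) atTop atTop := tendsto_id.atTop_div_const hM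
    have h3 := (h1.isBigO.comp_tendsto h2)
    obtain ⟨C, hC⟩ := h3.bound
    refine Asymptotics.IsBigO.of_bound (C * M ^ (2 : ℝ)) ?_
    filter_upwards [hC, eventually_gt_atTop (0 : ℝ)] with x hx hx0
    rw [poi_norm a hM, max_eq_left hx0.le]
    have hxM : 0 < x / M := div_pos hx0 hM
    simp only [Function.comp_apply] at hx
    rw [Real.norm_of_nonneg (Real.exp_pos _).le, Real.norm_of_nonneg (Real.rpow_nonneg hxM.le _)] at hx
    rw [Real.norm_of_nonneg (Real.rpow_nonneg (abs_nonneg _) _), abs_of_pos hx0]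
    unfold wt
    have h4 : (x / M) ^ ((a : ℝ) - 1 / 2) * (x / M) ^ (-((a : ℝ) - 1 / 2) - 2) = (x / M) ^ (-(2 : ℝ)) := by
      rw [← Real.rpow_add hxM]
      congr 1
      ring
    have h5 : (x / M) ^ (-(2 : ℝ)) = M ^ (2 : ℝ) * x ^ (-(2 : ℝ)) := by
      rw [Real.div_rpow hx0.le hM.le, Real.rpow_neg hM.le, div_inv_eq_mul, mul_comm]
    rw [neg_one_mul] at hx
    calc (x / M) ^ ((a : ℝ) - 1 / 2) * Real.exp (-(x / M))
        ≤ (x / M) ^ ((a : ℝ) - 1 / 2) * (C * (x / M) ^ (-((a : ℝ) - 1 / 2) - 2)) :=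
          mul_le_mul_of_nonneg_left hx (Real.rpow_nonneg hxM.le _)
      _ = C * ((x / M) ^ ((a : ℝ) - 1 / 2) * (x / M) ^ (-((a : ℝ) - 1 / 2) - 2)) := by ring
      _ = C * M ^ (2 : ℝ) * x ^ (-(2 : ℝ)) := by rw [h4, h5]; ring

theorem poi_ei_add (x y : ℝ) : ei (x + y) = ei x * ei y := by
  unfold ei
  rw [← Complex.exp_add]
  push_cast
  ring_nf

theorem poi_fourier {a : ℕ} (ha : 2 ≤ a) {M : ℝ} (hM : 0 < M) (τ : ℝ) (m : ℤ) :
    𝓕 (poiF a M τ) (m : ℝ) = (M : ℂ) * ei (τ * Real.log M) * Km a M τ m := by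
  rw [Real.fourier_real_eq_integral_exp_smul]
  have h1 : ∫ v : ℝ, cexp (((-2 * π * v * (m : ℝ) : ℝ) : ℂ) * I) • poiF a M τ v =
      ∫ v in Ioi (0 : ℝ), cexp (((-2 * π * v * (m : ℝ) : ℝ) : ℂ) * I) • poiF a M τ v := by
    refine (setIntegral_eq_integral_of_forall_compl_eq_zero ?_).symm
    intro x hx
    rw [poi_zero ha M τ (not_lt.1 hx), smul_zero]
  have h2 := integral_comp_mul_left_Ioi
    (fun v : ℝ => cexp (((-2 * π * v * (m : ℝ) : ℝ) : ℂ) * I) • poiF a M τ v) 0 hM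
  rw [mul_zero] at h2
  have h3 : ∫ v in Ioi (0 : ℝ), cexp (((-2 * π * v * (m : ℝ) : ℝ) : ℂ) * I) • poiF a M τ v =
      (M : ℂ) * ∫ x in Ioi (0 : ℝ), cexp (((-2 * π * (M * x) * (m : ℝ) : ℝ) : ℂ) * I) •
        poiF a M τ (M * x) := by
    rw [h2, Complex.real_smul, ← mul_assoc]
    have : (M : ℂ) * ((M⁻¹ : ℝ) : ℂ) = 1 := by
      rw [← Complex.ofReal_mul, mul_inv_cancel₀ hM.ne', Complex.ofReal_one]
    rw [this, one_mul]
  rw [h1, h3, mul_assoc]
  congr 1
  unfold Km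
  rw [← integral_const_mul]
  refine setIntegral_congr_fun measurableSet_Ioi ?_
  intro u hu
  have hu0 : (0 : ℝ) < u := hu
  simp only [smul_eq_mul]
  unfold poiF
  rw [max_eq_left (mul_pos hM hu0).le, mul_div_cancel_left₀ _ hM.ne',
    Real.log_mul hM.ne' hu0.ne']
  have h4 : τ * (Real.log M + Real.log u) = τ * Real.log M + τ * Real.log u := by ring
  have h5 : τ * Real.log u - 2 * π * m * M * u = τ * Real.log u + (-2 * π * (M * u) * (m : ℝ)) := by
    ring
  rw [h4, h5, poi_ei_add, poi_ei_add]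
  have h6 : cexp (((-2 * π * (M * u) * (m : ℝ) : ℝ) : ℂ) * I) = ei (-2 * π * (M * u) * (m : ℝ)) := rfl
  rw [h6]
  ring

theorem poi_summable {a : ℕ} (ha : 2 ≤ a) {M : ℝ} (hM : 0 < M) (τ : ℝ) :
    Summable (fun m : ℤ => Km a M τ m) := by
  obtain ⟨C, hC, hb⟩ := Km_le a
  have hexp : 1 < (a : ℝ) + 1 / 2 := by
    have : (2 : ℝ) ≤ a := by exact_mod_cast ha
    linarith
  have h1 : Summable (fun m : ℤ => |(m : ℝ)| ^ (-((a : ℝ) + 1 / 2))) :=
    Real.summable_abs_int_rpow hexp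
  have h2 : Summable (fun m : ℤ => C * (1 + |τ|) ^ a * M ^ (-((a : ℝ) + 1 / 2)) *
      |(m : ℝ)| ^ (-((a : ℝ) + 1 / 2))) := h1.mul_left _
  refine Summable.of_norm_bounded_eventually h2 ?_
  have h3 : ∀ᶠ m : ℤ in cofinite, m ≠ 0 := by
    rw [Filter.eventually_cofinite]
    simp
  filter_upwards [h3] with m hm
  refine (hb M τ m hM hm).trans_eq ?_
  rw [Real.mul_rpow (abs_nonneg _) hM.le]
  ring

/-- Proof: `Real.tsum_eq_tsum_fourier_of_rpow_decay_of_summable` for `f u = wt a (u/M) u^{iτ}` (`u > 0`), `0` for `u ≤ 0`. -/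
theorem K_poisson {a : ℕ} (ha : 2 ≤ a) {M : ℝ} (hM : 1 ≤ M) (τ : ℝ) :
    Summable (fun m : ℤ => Km a M τ m) ∧
    K a M τ = (M : ℂ) * ei (τ * Real.log M) * ∑' m : ℤ, Km a M τ m := by
  have hM0 : 0 < M := lt_of_lt_of_le one_pos hM
  have hs := poi_summable ha hM0 τ
  refine ⟨hs, ?_⟩
  have hF : Summable fun n : ℤ => 𝓕 (poiF a M τ) n := by
    have : (fun n : ℤ => 𝓕 (poiF a M τ) n) =
        fun n : ℤ => (M : ℂ) * ei (τ * Real.log M) * Km a M τ n := by
      funext n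
      exact poi_fourier ha hM0 τ n
    rw [this]
    exact hs.mul_left _
  have h := Real.tsum_eq_tsum_fourier_of_rpow_decay_of_summable (poi_cont ha hM0 τ) one_lt_two
    (poi_decay ha hM0 τ) hF 0
  have hR : ∑' n : ℤ, 𝓕 (poiF a M τ) n * fourier n ((0 : ℝ) : UnitAddCircle) =
      (M : ℂ) * ei (τ * Real.log M) * ∑' m : ℤ, Km a M τ m := by
    rw [← tsum_mul_left]
    refine tsum_congr ?_
    intro n
    rw [poi_fourier ha hM0 τ n]
    simp
  rw [hR] at h
  rw [← h]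
  unfold K
  have hinj : Function.Injective (fun n : ℕ => ((n : ℤ) + 1)) := by
    intro x y hxy
    simpa using hxy
  have hsupp : Function.support (fun n : ℤ => poiF a M τ (0 + n)) ⊆
      Set.range (fun n : ℕ => ((n : ℤ) + 1)) := by
    intro n hn
    have hn' : poiF a M τ (0 + n) ≠ 0 := hn
    have hpos : 0 < n := by
      by_contra hc
      refine hn' (poi_zero ha M τ ?_)
      rw [zero_add]
      exact_mod_cast not_lt.1 hc
    refine ⟨(n - 1).toNat, ?_⟩
    simp only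
    omega
  rw [← hinj.tsum_eq hsupp]
  refine tsum_congr ?_
  intro n
  have hn : (0 : ℝ) ≤ (n : ℝ) + 1 := by positivity
  unfold poiF
  push_cast
  rw [zero_add, max_eq_left hn]

end OL
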