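import Pool.Agent.Lib.MP_39df77_nt.OL.A05a

/-! the truncated dual sum as an average of `P Y` -/

set_option autoImplicit false

open Complex MeasureTheory Set Filter Topology
open scoped Real ComplexConjugate

namespace OL

theorem A05_ei_norm (x : ℝ) : ‖ei x‖ = 1 := by
  rw [ei, Complex.norm_exp_ofReal_mul_I]

theorem A05_ei_cont : Continuous ei := by
  unfold ei
  fun_prop

theorem A05_Gamma_cont {c : ℝ} (hc : 0 < c) (f : ℝ → ℝ) (hf : Continuous f) :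
    Continuous fun y : ℝ => Gamma ((c : ℂ) + f y * I) := by
  rw [continuous_iff_continuousAt]
  intro y
  have h1 : ∀ m : ℕ, (c : ℂ) + f y * I ≠ -m := by
    intro m h
    have := congrArg Complex.re h
    simp at this
    have h2 : (0 : ℝ) ≤ m := Nat.cast_nonneg m
    linarith
  have h2 : ContinuousAt Gamma ((c : ℂ) + f y * I) := (differentiableAt_Gamma _ h1).continuousAt
  have h3 : ContinuousAt (fun y : ℝ => (c : ℂ) + f y * I) y := by fun_prop
  exact ContinuousAt.comp (f := fun y : ℝ => (c : ℂ) + f y * I) h2 h3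

/-- integrability of the right side of `KY_le` and its first moment -/
theorem Gamma_int {a : ℕ} (ha : 1 ≤ a) : Integrable fun y : ℝ => ‖Gamma ((a : ℂ) + y * I)‖ := by
  have h := (S6.exp_mellin (c := a) (by exact_mod_cast ha) (W := 1) (by simp)).1
  simp only [one_cpow, mul_one] at h
  exact_mod_cast h.norm

theorem P_le (Y : ℕ) (v : ℝ) : ‖P Y v‖ ≤ 2 * Real.sqrt Y := by
  have h1 : ‖P Y v‖ ≤ ∑ m ∈ Finset.Icc 1 Y, (Real.sqrt m)⁻¹ := by
    refine (norm_sum_le _ _).trans (Finset.sum_le_sum fun m _ => ?_)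
    rw [norm_mul, A05_ei_norm, mul_one, Complex.norm_real, Real.norm_of_nonneg (by positivity)]
  refine h1.trans ?_
  clear h1
  induction Y with
  | zero => simp
  | succ Y ih =>
    rw [Finset.sum_Icc_succ_top (by omega)]
    have h2 : (Real.sqrt ((Y + 1 : ℕ) : ℝ))⁻¹ ≤ 2 * (Real.sqrt ((Y + 1 : ℕ) : ℝ) - Real.sqrt Y) := by
      have hpos : 0 < Real.sqrt ((Y + 1 : ℕ) : ℝ) := Real.sqrt_pos.2 (by positivity)
      have hle : Real.sqrt (Y : ℝ) ≤ Real.sqrt ((Y + 1 : ℕ) : ℝ) :=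
        Real.sqrt_le_sqrt (by push_cast; linarith)
      have hs1 : Real.sqrt ((Y + 1 : ℕ) : ℝ) ^ 2 = (Y : ℝ) + 1 := by
        rw [Real.sq_sqrt (by positivity)]; push_cast; ring
      have hs2 : Real.sqrt (Y : ℝ) ^ 2 = (Y : ℝ) := Real.sq_sqrt (by positivity)
      rw [inv_le_iff_one_le_mul₀ hpos]
      nlinarith [Real.sqrt_nonneg (Y : ℝ)]
    linarith

theorem P_cont (Y : ℕ) : Continuous (P Y) := by
  unfold P
  refine continuous_finsetSum _ fun m _ => ?_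
  exact continuous_const.mul (A05_ei_cont.comp (by fun_prop))

/-- the base of the powers -/
noncomputable def A05z (M δ : ℝ) (m : ℤ) : ℂ := (δ : ℂ) + 2 * π * m * M * I

theorem A05z_im (M δ : ℝ) (m : ℤ) : (A05z M δ m).im = 2 * π * m * M := by
  simp [A05z]

theorem A05z_re (M δ : ℝ) (m : ℤ) : (A05z M δ m).re = δ := by
  simp [A05z]

theorem A05z_ne {M : ℝ} (hM : 0 < M) (δ : ℝ) {m : ℤ} (hm : m ≠ 0) : A05z M δ m ≠ 0 := by
  intro h
  have h1 := congrArg Complex.im h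
  rw [A05z_im, Complex.zero_im] at h1
  have hm' : (m : ℝ) ≠ 0 := by exact_mod_cast hm
  have := Real.pi_pos
  rcases mul_eq_zero.1 h1 with h2 | h2
  · rcases mul_eq_zero.1 h2 with h3 | h3
    · linarith
    · exact hm' h3
  · linarith

/-- the norm of one factor -/
theorem A05_norm_cpow {z : ℂ} (hz : z ≠ 0) (hre : 0 ≤ z.re) (v : ℝ) :
    ‖Gamma (1 / 2 + (v : ℂ) * I)‖ * ‖z ^ (-(1 / 2 + (v : ℂ) * I))‖ ≤
      Real.sqrt (2 * π) * (Real.sqrt ‖z‖)⁻¹ := by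
  have hG : ‖Gamma (1 / 2 + (v : ℂ) * I)‖ ≤ Real.sqrt (2 * π) * Real.exp (-(π * |v| / 2)) := by
    have h1 := S6.Gamma_half v
    have h2 : Real.sqrt (‖Gamma (1 / 2 + (v : ℂ) * I)‖ ^ 2) ≤
        Real.sqrt (2 * π * Real.exp (-(π * |v|))) := Real.sqrt_le_sqrt h1
    rw [Real.sqrt_sq (norm_nonneg _), Real.sqrt_mul (by positivity)] at h2
    refine h2.trans (le_of_eq ?_)
    congr 1
    rw [← Real.exp_half]
    congr 1
    ring
  have hz' : 0 < ‖z‖ := norm_pos_iff.2 hz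
  have hpow : ‖z ^ (-(1 / 2 + (v : ℂ) * I))‖ ≤ (Real.sqrt ‖z‖)⁻¹ * Real.exp (π * |v| / 2) := by
    rw [norm_cpow_of_ne_zero hz]
    have e1 : (-(1 / 2 + (v : ℂ) * I)).re = -(1 / 2) := by simp
    have e2 : (-(1 / 2 + (v : ℂ) * I)).im = -v := by simp
    rw [e1, e2, Real.rpow_neg hz'.le, ← Real.sqrt_eq_rpow, div_eq_mul_inv, ← Real.exp_neg]
    refine mul_le_mul_of_nonneg_left (Real.exp_le_exp.2 ?_) (by positivity)
    have h3 : |arg z| ≤ π / 2 := abs_arg_le_pi_div_two_iff.2 hre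
    have h4 : -(arg z * -v) ≤ |arg z| * |v| := by
      rw [← abs_mul]
      refine le_trans (le_of_eq (by ring)) (le_abs_self _)
    have h5 : |arg z| * |v| ≤ π / 2 * |v| := mul_le_mul_of_nonneg_right h3 (abs_nonneg v)
    linarith
  calc ‖Gamma (1 / 2 + (v : ℂ) * I)‖ * ‖z ^ (-(1 / 2 + (v : ℂ) * I))‖
      ≤ (Real.sqrt (2 * π) * Real.exp (-(π * |v| / 2))) *
        ((Real.sqrt ‖z‖)⁻¹ * Real.exp (π * |v| / 2)) :=
        mul_le_mul hG hpow (norm_nonneg _) (by positivity)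
    _ = Real.sqrt (2 * π) * (Real.sqrt ‖z‖)⁻¹ *
        (Real.exp (-(π * |v| / 2)) * Real.exp (π * |v| / 2)) := by ring
    _ = _ := by rw [← Real.exp_add]; simp

/-- the norm of the base -/
theorem A05z_norm {M : ℝ} (hM : 0 < M) (δ : ℝ) {m : ℤ} (hm : m ≠ 0) :
    2 * π * M ≤ ‖A05z M δ m‖ := by
  have h1 := Complex.abs_im_le_norm (A05z M δ m)
  rw [A05z_im] at h1
  refine le_trans ?_ h1
  have hm' : (1 : ℝ) ≤ |(m : ℝ)| := by
    have := Int.one_le_abs hm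
    exact_mod_cast this
  have hpi := Real.pi_pos
  rw [abs_mul, abs_mul, abs_of_pos (by positivity : (0:ℝ) < 2 * π), abs_of_pos hM]
  have : 2 * π * 1 ≤ 2 * π * |(m : ℝ)| := mul_le_mul_of_nonneg_left hm' (by positivity)
  nlinarith

/-- the sum of powers -/
noncomputable def A05S (Y : ℕ) (M δ v : ℝ) : ℂ :=
  ∑ m ∈ Zs Y, A05z M δ m ^ (-(1 / 2 + (v : ℂ) * I))

theorem mem_Zs_ne {Y : ℕ} {m : ℤ} (h : m ∈ Zs Y) : m ≠ 0 := (Finset.mem_erase.1 h).1

/-- a positive real factor -/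
theorem A05_mul_cpow {m : ℕ} (hm : 1 ≤ m) {z : ℂ} (hz : z ≠ 0) (w : ℂ) :
    ((m : ℂ) * z) ^ w = (m : ℂ) ^ w * z ^ w := by
  have hm0 : (m : ℂ) ≠ 0 := by exact_mod_cast (by omega : m ≠ 0)
  have h1 : log ((m : ℂ) * z) = Real.log m + log z := by
    have := log_ofReal_mul (r := (m : ℝ)) (by exact_mod_cast hm) hz
    rwa [Complex.ofReal_natCast] at this
  rw [cpow_def_of_ne_zero (mul_ne_zero hm0 hz), cpow_def_of_ne_zero hm0, cpow_def_of_ne_zero hz, h1,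
    ← Complex.exp_add]
  congr 1
  rw [Complex.ofReal_log (Nat.cast_nonneg m), Complex.ofReal_natCast]
  ring

theorem A05_nat_cpow {m : ℕ} (hm : 1 ≤ m) (v : ℝ) :
    (m : ℂ) ^ (-(1 / 2 + (v : ℂ) * I)) = (((Real.sqrt m)⁻¹ : ℝ) : ℂ) * ei (-(v * Real.log m)) := by
  have hm0 : (m : ℂ) ≠ 0 := by exact_mod_cast (by omega : m ≠ 0)
  have hmr : (0 : ℝ) < m := by exact_mod_cast hm
  have h1 : (((Real.sqrt m)⁻¹ : ℝ) : ℂ) = cexp (-(1 / 2) * Real.log m) := by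
    rw [Real.sqrt_eq_rpow, ← Real.rpow_neg hmr.le, Real.rpow_def_of_pos hmr, Complex.ofReal_exp]
    congr 1
    push_cast
    ring
  rw [h1, ei, ← Complex.exp_add, cpow_def_of_ne_zero hm0]
  congr 1
  rw [Complex.ofReal_neg, Complex.ofReal_mul, Complex.ofReal_log hmr.le, Complex.ofReal_natCast]
  ring

/-- the sum at `δ = 0` -/
theorem A05S_zero {M : ℝ} (hM : 0 < M) (Y : ℕ) (v : ℝ) : A05S Y M 0 v =
    (A05z M 0 1 ^ (-(1 / 2 + (v : ℂ) * I)) + A05z M 0 (-1) ^ (-(1 / 2 + (v : ℂ) * I))) * P Y v := by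
  have hpos : ∀ m : ℕ, 1 ≤ m → A05z M 0 (m : ℤ) ^ (-(1 / 2 + (v : ℂ) * I)) =
      (m : ℂ) ^ (-(1 / 2 + (v : ℂ) * I)) * A05z M 0 1 ^ (-(1 / 2 + (v : ℂ) * I)) := by
    intro m hm
    rw [← A05_mul_cpow hm (A05z_ne hM 0 one_ne_zero)]
    congr 1
    simp only [A05z]
    push_cast
    ring
  have hneg : ∀ m : ℕ, 1 ≤ m → A05z M 0 (-(m : ℤ)) ^ (-(1 / 2 + (v : ℂ) * I)) =
      (m : ℂ) ^ (-(1 / 2 + (v : ℂ) * I)) * A05z M 0 (-1) ^ (-(1 / 2 + (v : ℂ) * I)) := by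
    intro m hm
    rw [← A05_mul_cpow hm (A05z_ne hM 0 (by norm_num))]
    congr 1
    simp only [A05z]
    push_cast
    ring
  have hZs : Zs Y = (Finset.Icc 1 Y).image (fun m : ℕ => (m : ℤ)) ∪
      (Finset.Icc 1 Y).image (fun m : ℕ => -(m : ℤ)) := by
    ext m
    simp only [Zs, Finset.mem_erase, Finset.mem_Icc, Finset.mem_union, Finset.mem_image]
    constructor
    · rintro ⟨h0, h1, h2⟩
      rcases lt_or_gt_of_ne h0 with h | h
      · right
        exact ⟨m.natAbs, by omega, by omega⟩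
      · left
        exact ⟨m.natAbs, by omega, by omega⟩
    · rintro (⟨k, hk, rfl⟩ | ⟨k, hk, rfl⟩) <;> omega
  rw [A05S, hZs, Finset.sum_union, Finset.sum_image, Finset.sum_image]
  · rw [Finset.sum_congr rfl fun m hm => hpos m (Finset.mem_Icc.1 hm).1,
      Finset.sum_congr rfl fun m hm => hneg m (Finset.mem_Icc.1 hm).1, ← Finset.sum_mul,
      ← Finset.sum_mul]
    have hP : ∑ m ∈ Finset.Icc 1 Y, (m : ℂ) ^ (-(1 / 2 + (v : ℂ) * I)) = P Y v := by
      rw [P]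
      exact Finset.sum_congr rfl fun m hm => A05_nat_cpow (Finset.mem_Icc.1 hm).1 v
    rw [hP]
    ring
  · intro x _ y _ h
    simpa using h
  · intro x _ y _ h
    simpa using h
  · rw [Finset.disjoint_left]
    intro x hx hy
    simp only [Finset.mem_image, Finset.mem_Icc] at hx hy
    obtain ⟨k, hk, rfl⟩ := hx
    obtain ⟨l, hl, h⟩ := hy
    omega

/-- the integrand in the bound -/
noncomputable def A05F (a Y : ℕ) (M τ δ y : ℝ) : ℝ :=
  ‖Gamma ((a : ℂ) + y * I)‖ * (‖Gamma (1 / 2 + ((τ - y : ℝ) : ℂ) * I)‖ * ‖A05S Y M δ (τ - y)‖)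

theorem A05F_le {a : ℕ} (Y : ℕ) {M : ℝ} (hM : 0 < M) (τ : ℝ) {δ : ℝ} (hδ : 0 ≤ δ) (y : ℝ) :
    A05F a Y M τ δ y ≤ ‖Gamma ((a : ℂ) + y * I)‖ *
      ((Zs Y).card * (Real.sqrt (2 * π) * (Real.sqrt (2 * π * M))⁻¹)) := by
  refine mul_le_mul_of_nonneg_left ?_ (norm_nonneg _)
  have hpi := Real.pi_pos
  calc ‖Gamma (1 / 2 + ((τ - y : ℝ) : ℂ) * I)‖ * ‖A05S Y M δ (τ - y)‖
      ≤ ‖Gamma (1 / 2 + ((τ - y : ℝ) : ℂ) * I)‖ *
        ∑ m ∈ Zs Y, ‖A05z M δ m ^ (-(1 / 2 + ((τ - y : ℝ) : ℂ) * I))‖ :=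
        mul_le_mul_of_nonneg_left (norm_sum_le _ _) (norm_nonneg _)
    _ = ∑ m ∈ Zs Y, ‖Gamma (1 / 2 + ((τ - y : ℝ) : ℂ) * I)‖ *
        ‖A05z M δ m ^ (-(1 / 2 + ((τ - y : ℝ) : ℂ) * I))‖ := Finset.mul_sum _ _ _
    _ ≤ ∑ m ∈ Zs Y, (Real.sqrt (2 * π) * (Real.sqrt (2 * π * M))⁻¹) := by
        refine Finset.sum_le_sum fun m hm => ?_
        have hm0 := mem_Zs_ne hm
        refine (A05_norm_cpow (A05z_ne hM δ hm0) (by rw [A05z_re]; exact hδ) (τ - y)).trans ?_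
        refine mul_le_mul_of_nonneg_left ?_ (by positivity)
        refine inv_anti₀ (Real.sqrt_pos.2 (by positivity)) ?_
        exact Real.sqrt_le_sqrt (A05z_norm hM δ hm0)
    _ = _ := by rw [Finset.sum_const, nsmul_eq_mul]

theorem A05S_cont (Y : ℕ) {M : ℝ} (hM : 0 < M) (δ τ : ℝ) :
    Continuous fun y : ℝ => A05S Y M δ (τ - y) := by
  unfold A05S
  refine continuous_finsetSum _ fun m hm => ?_
  have hz := A05z_ne hM δ (mem_Zs_ne hm)
  exact Continuous.const_cpow (by fun_prop) (Or.inl hz)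

theorem A05F_cont {a : ℕ} (ha : 1 ≤ a) (Y : ℕ) {M : ℝ} (hM : 0 < M) (τ δ : ℝ) :
    Continuous (A05F a Y M τ δ) := by
  unfold A05F
  have h1 : Continuous fun y : ℝ => Gamma ((a : ℂ) + y * I) := by
    have := A05_Gamma_cont (c := a) (by exact_mod_cast ha) (fun y => y) continuous_id
    exact_mod_cast this
  have h2 : Continuous fun y : ℝ => Gamma (1 / 2 + ((τ - y : ℝ) : ℂ) * I) := by
    have := A05_Gamma_cont (c := 1 / 2) (by norm_num) (fun y => τ - y) (by fun_prop)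
    refine this.congr fun y => ?_
    congr 2
    push_cast
    ring
  exact h1.norm.mul (h2.norm.mul (A05S_cont Y hM δ τ).norm)

/-- the bound for `δ > 0` -/
theorem A05_sum_le {a : ℕ} (ha : 1 ≤ a) (Y : ℕ) {M : ℝ} (hM : 0 < M) (τ : ℝ) {δ : ℝ} (h0 : 0 < δ)
    (h1 : δ < 1) : ‖∑ m ∈ Zs Y, Km a M τ m‖ ≤
      (1 - δ) ^ (-(a : ℝ)) / (2 * π) * ∫ y : ℝ, A05F a Y M τ δ y := by
  have hpi := Real.pi_pos
  have hint : ∀ m ∈ Zs Y, Integrable fun y : ℝ => Gamma ((a : ℂ) + y * I) *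
      ei (-(y * Real.log (1 - δ))) * (Gamma (1 / 2 + (τ - y : ℝ) * I) *
        ((δ : ℂ) + 2 * π * m * M * I) ^ (-(1 / 2 + (τ - y : ℝ) * I : ℂ))) := by
    intro m hm
    have hz : A05z M δ m ≠ 0 := A05z_ne hM δ (mem_Zs_ne hm)
    have c1 : Continuous fun y : ℝ => Gamma ((a : ℂ) + y * I) := by
      have := A05_Gamma_cont (c := a) (by exact_mod_cast ha) (fun y => y) continuous_id
      exact_mod_cast this
    have c2 : Continuous fun y : ℝ => Gamma (1 / 2 + ((τ - y : ℝ) : ℂ) * I) := by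
      have := A05_Gamma_cont (c := 1 / 2) (by norm_num) (fun y => τ - y) (by fun_prop)
      refine this.congr fun y => ?_
      congr 2
      push_cast
      ring
    have c3 : Continuous fun y : ℝ => A05z M δ m ^ (-(1 / 2 + ((τ - y : ℝ) : ℂ) * I)) :=
      Continuous.const_cpow (by fun_prop) (Or.inl hz)
    have c4 : Continuous fun y : ℝ => ei (-(y * Real.log (1 - δ))) :=
      A05_ei_cont.comp (by fun_prop)
    refine Integrable.mono' ((Gamma_int ha).mul_const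
      (Real.sqrt (2 * π) * (Real.sqrt ‖A05z M δ m‖)⁻¹)) ?_ ?_
    · exact ((c1.mul c4).mul (c2.mul c3)).aestronglyMeasurable
    · refine Filter.Eventually.of_forall fun y => ?_
      rw [norm_mul, norm_mul, A05_ei_norm, mul_one, norm_mul]
      refine mul_le_mul_of_nonneg_left ?_ (norm_nonneg _)
      exact A05_norm_cpow hz (by rw [A05z_re]; exact h0.le) (τ - y)
  rw [Finset.sum_congr rfl fun m _ => Km_mellin ha hM τ m h0 h1, ← Finset.mul_sum,
    ← integral_finsetSum _ hint, norm_mul, Complex.norm_real, Real.norm_of_nonneg (by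
      have : 0 < 1 - δ := by linarith
      positivity)]
  refine mul_le_mul_of_nonneg_left ?_ (by
      have : 0 < 1 - δ := by linarith
      positivity)
  refine (norm_integral_le_integral_norm _).trans (le_of_eq ?_)
  refine integral_congr_ae (Filter.Eventually.of_forall fun y => ?_)
  simp only
  rw [← Finset.mul_sum, norm_mul, norm_mul, A05_ei_norm, mul_one, ← Finset.mul_sum, norm_mul]
  rfl

/-- Proof: sum `Km_mellin` over `m ∈ Zs Y`, let `δ → 0+` (dominated by `‖Γ(a+iy)‖ √(2π) (2π|m|M)^{-1/2}`); for `m > 0`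
`(±2πimM)^{-1/2-iv} = m^{-1/2-iv} (±2πiM)^{-1/2-iv}` and `‖Γ(1/2+iv)‖ ‖(±2πiM)^{-1/2-iv}‖ ≤ M^{-1/2}` (`S6.Gamma_half`). -/
theorem KY_le {a : ℕ} (ha : 1 ≤ a) (Y : ℕ) {M : ℝ} (hM : 0 < M) (τ : ℝ) :
    ‖KY a Y M τ‖ ≤ Real.sqrt M * ∫ y : ℝ, ‖Gamma ((a : ℂ) + y * I)‖ * ‖P Y (τ - y)‖ := by
  have hpi := Real.pi_pos
  -- the limit `δ → 0`
  let δ : ℕ → ℝ := fun n => 1 / ((n : ℝ) + 2)
  have hδ0 : ∀ n, 0 < δ n := fun n => by positivity
  have hδ1 : ∀ n, δ n < 1 := fun n => by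
    have : (0 : ℝ) ≤ n := Nat.cast_nonneg n
    rw [div_lt_one (by linarith)]
    linarith
  have hδt : Tendsto δ atTop (𝓝 0) := by
    have h := (tendsto_one_div_add_atTop_nhds_zero_nat (𝕜 := ℝ)).comp (tendsto_add_atTop_nat 1)
    refine h.congr fun n => ?_
    simp only [Function.comp, δ]
    push_cast
    congr 1
    ring
  have hlim : Tendsto (fun n => (1 - δ n) ^ (-(a : ℝ)) / (2 * π) * ∫ y : ℝ, A05F a Y M τ (δ n) y)
      atTop (𝓝 ((1 - 0) ^ (-(a : ℝ)) / (2 * π) * ∫ y : ℝ, A05F a Y M τ 0 y)) := by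
    refine Tendsto.mul ?_ ?_
    · refine Tendsto.div_const ?_ _
      have h1 : ContinuousAt (fun x : ℝ => x ^ (-(a : ℝ))) (1 - 0) :=
        Real.continuousAt_rpow_const _ _ (Or.inl (by norm_num))
      exact h1.tendsto.comp (tendsto_const_nhds.sub hδt)
    · refine tendsto_integral_of_dominated_convergence
        (fun y => ‖Gamma ((a : ℂ) + y * I)‖ *
          ((Zs Y).card * (Real.sqrt (2 * π) * (Real.sqrt (2 * π * M))⁻¹)))
        (fun n => (A05F_cont ha Y hM τ (δ n)).aestronglyMeasurable)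
        ((Gamma_int ha).mul_const _) (fun n => Filter.Eventually.of_forall fun y => ?_)
        (Filter.Eventually.of_forall fun y => ?_)
      · rw [Real.norm_of_nonneg (by unfold A05F; positivity)]
        exact A05F_le Y hM τ (hδ0 n).le y
      · unfold A05F
        refine Tendsto.mul tendsto_const_nhds (Tendsto.mul tendsto_const_nhds (Tendsto.norm ?_))
        unfold A05S
        refine tendsto_finsetSum _ fun m hm => ?_
        have hsl : A05z M 0 m ∈ slitPlane := by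
          rw [mem_slitPlane_iff]
          right
          rw [A05z_im]
          have hm' : (m : ℝ) ≠ 0 := by exact_mod_cast mem_Zs_ne hm
          positivity
        have h1 : ContinuousAt (fun z : ℂ => z ^ (-(1 / 2 + ((τ - y : ℝ) : ℂ) * I))) (A05z M 0 m) :=
          continuousAt_cpow_const hsl
        refine h1.tendsto.comp ?_
        unfold A05z
        refine Tendsto.add_const _ ?_
        have h2 : Tendsto (fun n => ((δ n : ℝ) : ℂ)) atTop (𝓝 ((0 : ℝ) : ℂ)) :=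
          (Complex.continuous_ofReal.tendsto 0).comp hδt
        exact h2
  have hsum : ‖∑ m ∈ Zs Y, Km a M τ m‖ ≤ 1 / (2 * π) * ∫ y : ℝ, A05F a Y M τ 0 y := by
    have h1 := ge_of_tendsto' hlim (fun n => A05_sum_le ha Y hM τ (hδ0 n) (hδ1 n))
    rw [sub_zero, Real.one_rpow] at h1
    exact h1
  -- the value at `δ = 0`
  have hPi : Integrable fun y : ℝ => ‖Gamma ((a : ℂ) + y * I)‖ * ‖P Y (τ - y)‖ := by
    have c1 : Continuous fun y : ℝ => Gamma ((a : ℂ) + y * I) := by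
      have := A05_Gamma_cont (c := a) (by exact_mod_cast ha) (fun y => y) continuous_id
      exact_mod_cast this
    refine Integrable.mono' ((Gamma_int ha).mul_const (2 * Real.sqrt Y)) ?_ ?_
    · exact (c1.norm.mul ((P_cont Y).comp (by fun_prop : Continuous fun y : ℝ => τ - y)).norm).aestronglyMeasurable
    · refine Filter.Eventually.of_forall fun y => ?_
      rw [Real.norm_of_nonneg (by positivity)]
      exact mul_le_mul_of_nonneg_left (P_le Y _) (norm_nonneg _)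
  have hbound : ∫ y : ℝ, A05F a Y M τ 0 y ≤
      ∫ y : ℝ, (2 * (Real.sqrt M)⁻¹) * (‖Gamma ((a : ℂ) + y * I)‖ * ‖P Y (τ - y)‖) := by
    refine integral_mono_of_nonneg (Filter.Eventually.of_forall fun y => by
      unfold A05F; positivity) (hPi.const_mul _) (Filter.Eventually.of_forall fun y => ?_)
    simp only [A05F]
    rw [A05S_zero hM, norm_mul]
    have hone : ∀ m : ℤ, m = 1 ∨ m = -1 → ‖Gamma (1 / 2 + ((τ - y : ℝ) : ℂ) * I)‖ *
        ‖A05z M 0 m ^ (-(1 / 2 + ((τ - y : ℝ) : ℂ) * I))‖ ≤ (Real.sqrt M)⁻¹ := by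
      intro m hm
      have hm0 : m ≠ 0 := by rcases hm with rfl | rfl <;> norm_num
      refine (A05_norm_cpow (A05z_ne hM 0 hm0) (by rw [A05z_re]) (τ - y)).trans ?_
      have h2 : (Real.sqrt ‖A05z M 0 m‖)⁻¹ ≤ (Real.sqrt (2 * π * M))⁻¹ :=
        inv_anti₀ (Real.sqrt_pos.2 (by positivity)) (Real.sqrt_le_sqrt (A05z_norm hM 0 hm0))
      refine (mul_le_mul_of_nonneg_left h2 (by positivity)).trans (le_of_eq ?_)
      rw [Real.sqrt_mul (by positivity : (0:ℝ) ≤ 2 * π) M, mul_inv, ← mul_assoc,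
        mul_inv_cancel₀ (Real.sqrt_pos.2 (by positivity)).ne', one_mul]
    have h3 := hone 1 (Or.inl rfl)
    have h4 := hone (-1) (Or.inr rfl)
    have h5 := norm_add_le (A05z M 0 1 ^ (-(1 / 2 + ((τ - y : ℝ) : ℂ) * I)))
      (A05z M 0 (-1) ^ (-(1 / 2 + ((τ - y : ℝ) : ℂ) * I)))
    have hG0 := norm_nonneg (Gamma (1 / 2 + ((τ - y : ℝ) : ℂ) * I))
    have h6 : ‖Gamma (1 / 2 + ((τ - y : ℝ) : ℂ) * I)‖ *
        ‖A05z M 0 1 ^ (-(1 / 2 + ((τ - y : ℝ) : ℂ) * I)) +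
          A05z M 0 (-1) ^ (-(1 / 2 + ((τ - y : ℝ) : ℂ) * I))‖ ≤ 2 * (Real.sqrt M)⁻¹ := by
      have := mul_le_mul_of_nonneg_left h5 hG0
      rw [mul_add] at this
      linarith
    have h7 : 0 ≤ ‖Gamma ((a : ℂ) + y * I)‖ * ‖P Y (τ - y)‖ := by positivity
    calc ‖Gamma ((a : ℂ) + y * I)‖ * (‖Gamma (1 / 2 + ((τ - y : ℝ) : ℂ) * I)‖ *
          (‖A05z M 0 1 ^ (-(1 / 2 + ((τ - y : ℝ) : ℂ) * I)) +
            A05z M 0 (-1) ^ (-(1 / 2 + ((τ - y : ℝ) : ℂ) * I))‖ * ‖P Y (τ - y)‖))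
        = (‖Gamma (1 / 2 + ((τ - y : ℝ) : ℂ) * I)‖ *
          ‖A05z M 0 1 ^ (-(1 / 2 + ((τ - y : ℝ) : ℂ) * I)) +
            A05z M 0 (-1) ^ (-(1 / 2 + ((τ - y : ℝ) : ℂ) * I))‖) *
          (‖Gamma ((a : ℂ) + y * I)‖ * ‖P Y (τ - y)‖) := by ring
      _ ≤ _ := mul_le_mul_of_nonneg_right h6 h7
  rw [integral_const_mul] at hbound
  have hI0 : 0 ≤ ∫ y : ℝ, ‖Gamma ((a : ℂ) + y * I)‖ * ‖P Y (τ - y)‖ :=
    integral_nonneg fun y => by positivity
  have hfin : ‖∑ m ∈ Zs Y, Km a M τ m‖ ≤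
      (Real.sqrt M)⁻¹ * ∫ y : ℝ, ‖Gamma ((a : ℂ) + y * I)‖ * ‖P Y (τ - y)‖ := by
    refine hsum.trans ((mul_le_mul_of_nonneg_left hbound (by positivity)).trans ?_)
    have h8 : 1 / (2 * π) * 2 ≤ 1 := by
      rw [div_mul_eq_mul_div, div_le_one (by positivity)]
      nlinarith [Real.pi_gt_three]
    have h9 : 0 ≤ (Real.sqrt M)⁻¹ * ∫ y : ℝ, ‖Gamma ((a : ℂ) + y * I)‖ * ‖P Y (τ - y)‖ := by
      positivity
    calc 1 / (2 * π) * (2 * (Real.sqrt M)⁻¹ * ∫ y : ℝ, ‖Gamma ((a : ℂ) + y * I)‖ * ‖P Y (τ - y)‖)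
        = (1 / (2 * π) * 2) * ((Real.sqrt M)⁻¹ *
          ∫ y : ℝ, ‖Gamma ((a : ℂ) + y * I)‖ * ‖P Y (τ - y)‖) := by ring
      _ ≤ 1 * _ := mul_le_mul_of_nonneg_right h8 h9
      _ = _ := one_mul _
  rw [KY, norm_mul, norm_mul, A05_ei_norm, mul_one, Complex.norm_real, Real.norm_of_nonneg hM.le]
  refine (mul_le_mul_of_nonneg_left hfin hM.le).trans (le_of_eq ?_)
  rw [← mul_assoc]
  congr 1
  have hs : Real.sqrt M ≠ 0 := (Real.sqrt_pos.2 hM).ne'
  field_simp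
  rw [Real.sq_sqrt hM.le]

end OL
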