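import Pool.Agent.Lib.MP_39df77_nt.OL.A01

/-! Mellin form of the Poisson coefficients -/

set_option autoImplicit false

open Complex MeasureTheory Set Filter Topology
open scoped Real ComplexConjugate

namespace OL

theorem A05a_cpow {u : ℝ} (hu : 0 < u) (z : ℂ) : (u : ℂ) ^ z = cexp ((Real.log u : ℂ) * z) := by
  rw [cpow_def_of_ne_zero (ofReal_ne_zero.2 hu.ne'), ← ofReal_log hu.le]

theorem A05a_norm_ei (x : ℝ) : ‖ei x‖ = 1 := by
  unfold ei
  exact norm_exp_ofReal_mul_I x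

theorem A05a_cont_ei : Continuous ei := by
  unfold ei
  fun_prop

/-- `u^a e^{-u} = e^{-δu} (1-δ)^{-a} (2π)^{-1} ∫ Γ(a+iy) ((1-δ)u)^{-iy} dy` (`S6.exp_mellin`, `c = a`), Fubini, `S6.exp_int`. -/
theorem Km_mellin {a : ℕ} (ha : 1 ≤ a) {M : ℝ} (hM : 0 < M) (τ : ℝ) (m : ℤ) {δ : ℝ} (h0 : 0 < δ) (h1 : δ < 1) :
    Km a M τ m = (((1 - δ) ^ (-(a : ℝ)) / (2 * π) : ℝ) : ℂ) * ∫ y : ℝ, Gamma ((a : ℂ) + y * I) *
      ei (-(y * Real.log (1 - δ))) * (Gamma (1 / 2 + (τ - y : ℝ) * I) *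
        ((δ : ℂ) + 2 * π * m * M * I) ^ (-(1 / 2 + (τ - y : ℝ) * I : ℂ))) := by
  have h1δ : 0 < 1 - δ := by linarith
  have ha0 : (0 : ℝ) < a := by exact_mod_cast ha
  obtain ⟨W, hW⟩ : ∃ W : ℂ, W = (δ : ℂ) + 2 * π * m * M * I := ⟨_, rfl⟩
  have hWre : 0 < W.re := by
    rw [hW]
    simp [h0]
  obtain ⟨G, hG⟩ : ∃ G : ℝ → ℂ, G = fun u : ℝ =>
      (u : ℂ) ^ ((1 / 2 + (τ : ℂ) * I) - 1) * cexp (-(W * u)) := ⟨_, rfl⟩
  obtain ⟨H, hH⟩ : ∃ H : ℝ → ℂ, H = fun y : ℝ =>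
      Gamma ((a : ℂ) + y * I) * ei (-(y * Real.log (1 - δ))) := ⟨_, rfl⟩
  have hsre : ∀ t : ℝ, 0 < ((1 / 2 : ℂ) + (t : ℂ) * I).re := by
    intro t
    simp
  have hGint : IntegrableOn G (Ioi 0) := by
    rw [hG]
    exact S6.exp_int_intg (hsre τ) hWre
  -- powers
  have hpow : ∀ (u : ℝ), 0 < u → ∀ y : ℝ, (((1 - δ) * u : ℝ) : ℂ) ^ (-((a : ℝ) + y * I : ℂ)) =
      (((1 - δ) ^ (-(a : ℝ)) * u ^ (-(a : ℝ)) : ℝ) : ℂ) *
        (ei (-(y * Real.log (1 - δ))) * ei (-(y * Real.log u))) := by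
    intro u hu y
    rw [A05a_cpow (mul_pos h1δ hu), Real.log_mul h1δ.ne' hu.ne', Real.rpow_def_of_pos h1δ,
      Real.rpow_def_of_pos hu, ofReal_mul, ofReal_exp, ofReal_exp]
    unfold ei
    rw [← Complex.exp_add, ← Complex.exp_add, ← Complex.exp_add]
    congr 1
    push_cast
    ring
  have hHint : Integrable H := by
    have h2 := (S6.exp_mellin (c := (a : ℝ)) ha0 (W := (1 : ℂ)) (by simp)).1
    have h3 : Integrable fun y : ℝ => Gamma ((a : ℂ) + y * I) := by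
      refine h2.congr (Eventually.of_forall fun y => ?_)
      show Gamma (((a : ℝ) : ℂ) + y * I) * (1 : ℂ) ^ (-(((a : ℝ) : ℂ) + y * I)) = _
      rw [one_cpow, mul_one, ofReal_natCast]
    rw [hH]
    refine h3.mono (h3.aestronglyMeasurable.mul ?_) (Eventually.of_forall fun y => ?_)
    · exact (A05a_cont_ei.comp (by fun_prop)).aestronglyMeasurable
    · rw [norm_mul, A05a_norm_ei, mul_one]
  -- the double integral
  have hF : Integrable (Function.uncurry fun (u y : ℝ) => G u * H y * ei (-(y * Real.log u)))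
      ((volume.restrict (Ioi 0)).prod volume) := by
    have h2 : Integrable (fun p : ℝ × ℝ => G p.1 * H p.2)
        ((volume.restrict (Ioi 0)).prod volume) := Integrable.mul_prod hGint hHint
    refine h2.mono (h2.aestronglyMeasurable.mul ?_) (Eventually.of_forall fun p => ?_)
    · have h3 : Measurable fun p : ℝ × ℝ => ei (-(p.2 * Real.log p.1)) :=
        A05a_cont_ei.measurable.comp
          ((measurable_snd.mul (Real.measurable_log.comp measurable_fst)).neg)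
      exact h3.aestronglyMeasurable
    · show ‖G p.1 * H p.2 * ei (-(p.2 * Real.log p.1))‖ ≤ ‖G p.1 * H p.2‖
      rw [norm_mul, A05a_norm_ei, mul_one]
  -- integration over y
  have hy : ∀ u : ℝ, 0 < u → ((wt a u : ℝ) : ℂ) * ei (τ * Real.log u - 2 * Real.pi * m * M * u) =
      (((1 - δ) ^ (-(a : ℝ)) / (2 * π) : ℝ) : ℂ) *
        ∫ y : ℝ, G u * H y * ei (-(y * Real.log u)) := by
    intro u hu
    have hre : 0 < (((1 - δ) * u : ℝ) : ℂ).re := by
      rw [ofReal_re]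
      positivity
    have h2 := (S6.exp_mellin (c := (a : ℝ)) ha0 hre).2
    have h3 : ∀ y : ℝ, Gamma (((a : ℝ) : ℂ) + y * I) *
        (((1 - δ) * u : ℝ) : ℂ) ^ (-(((a : ℝ) : ℂ) + y * I)) =
        (((1 - δ) ^ (-(a : ℝ)) * u ^ (-(a : ℝ)) : ℝ) : ℂ) * (H y * ei (-(y * Real.log u))) := by
      intro y
      rw [hpow u hu y, hH]
      simp only [ofReal_natCast]
      ring
    simp only [h3] at h2
    rw [integral_const_mul] at h2
    have h4 : ∫ y : ℝ, G u * H y * ei (-(y * Real.log u)) =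
        G u * ∫ y : ℝ, H y * ei (-(y * Real.log u)) := by
      rw [← integral_const_mul]
      exact integral_congr_ae (Eventually.of_forall fun y => mul_assoc _ _ _)
    rw [h4]
    have h5 : ((u ^ (a : ℝ) : ℝ) : ℂ) * ((u ^ (-(a : ℝ)) : ℝ) : ℂ) = 1 := by
      rw [← ofReal_mul, ← Real.rpow_add hu, add_neg_cancel, Real.rpow_zero, ofReal_one]
    have h6 : (((1 - δ) ^ (-(a : ℝ)) / (2 * π) : ℝ) : ℂ) *
        (∫ y : ℝ, H y * ei (-(y * Real.log u))) =
        ((u ^ (a : ℝ) : ℝ) : ℂ) * cexp (-(((1 - δ) * u : ℝ) : ℂ)) := by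
      rw [← h2]
      generalize (∫ y : ℝ, H y * ei (-(y * Real.log u))) = J
      have h7 : (((1 - δ) ^ (-(a : ℝ)) / (2 * π) : ℝ) : ℂ) =
          (1 / (2 * π) : ℂ) * (((1 - δ) ^ (-(a : ℝ)) : ℝ) : ℂ) := by
        push_cast
        ring
      rw [h7, ofReal_mul]
      calc (1 / (2 * π) : ℂ) * (((1 - δ) ^ (-(a : ℝ)) : ℝ) : ℂ) * J
          = 1 * ((1 / (2 * π) : ℂ) * (((1 - δ) ^ (-(a : ℝ)) : ℝ) : ℂ) * J) := by ring
        _ = ((u ^ (a : ℝ) : ℝ) : ℂ) * ((u ^ (-(a : ℝ)) : ℝ) : ℂ) *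
            ((1 / (2 * π) : ℂ) * (((1 - δ) ^ (-(a : ℝ)) : ℝ) : ℂ) * J) := by rw [h5]
        _ = _ := by ring
    have h8 : (((1 - δ) ^ (-(a : ℝ)) / (2 * π) : ℝ) : ℂ) *
        (G u * ∫ y : ℝ, H y * ei (-(y * Real.log u))) =
        G u * (((u ^ (a : ℝ) : ℝ) : ℂ) * cexp (-(((1 - δ) * u : ℝ) : ℂ))) := by
      rw [← h6]
      ring
    rw [h8, hG]
    show _ = (u : ℂ) ^ ((1 / 2 + (τ : ℂ) * I) - 1) * cexp (-(W * u)) * _
    unfold wt ei
    rw [A05a_cpow hu, Real.rpow_def_of_pos hu, Real.rpow_def_of_pos hu, ofReal_mul, ofReal_exp,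
      ofReal_exp, ofReal_exp, ← Complex.exp_add, ← Complex.exp_add, ← Complex.exp_add,
      ← Complex.exp_add, ← Complex.exp_add, hW]
    congr 1
    push_cast
    ring
  -- integration over u
  have hu : ∀ y : ℝ, ∫ u in Ioi (0 : ℝ), G u * H y * ei (-(y * Real.log u)) =
      Gamma ((a : ℂ) + y * I) * ei (-(y * Real.log (1 - δ))) * (Gamma (1 / 2 + (τ - y : ℝ) * I) *
        W ^ (-(1 / 2 + (τ - y : ℝ) * I : ℂ))) := by
    intro y
    have h2 := S6.exp_int (hsre (τ - y)) hWre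
    have h3 : ∫ u in Ioi (0 : ℝ), G u * H y * ei (-(y * Real.log u)) =
        H y * ∫ u in Ioi (0 : ℝ), (u : ℂ) ^ ((1 / 2 + ((τ - y : ℝ) : ℂ) * I) - 1) *
          cexp (-(W * u)) := by
      rw [← integral_const_mul]
      refine setIntegral_congr_fun measurableSet_Ioi fun u hu => ?_
      have hu' : 0 < u := hu
      show G u * H y * ei (-(y * Real.log u)) = H y * ((u : ℂ) ^
        ((1 / 2 + ((τ - y : ℝ) : ℂ) * I) - 1) * cexp (-(W * u)))
      have h4 : G u * ei (-(y * Real.log u)) = (u : ℂ) ^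
          ((1 / 2 + ((τ - y : ℝ) : ℂ) * I) - 1) * cexp (-(W * u)) := by
        rw [hG]
        show (u : ℂ) ^ ((1 / 2 + (τ : ℂ) * I) - 1) * cexp (-(W * u)) * ei (-(y * Real.log u)) = _
        unfold ei
        rw [A05a_cpow hu', A05a_cpow hu', ← Complex.exp_add, ← Complex.exp_add, ← Complex.exp_add]
        congr 1
        push_cast
        ring
      rw [← h4]
      ring
    rw [h3, h2, hH]
    ring
  unfold Km
  rw [setIntegral_congr_fun measurableSet_Ioi fun u hu' => hy u hu', integral_const_mul,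
    integral_integral_swap hF]
  congr 1
  rw [← hW]
  exact integral_congr_ae (Eventually.of_forall fun y => hu y)

end OL
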