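import Pool.Agent.Lib.MP_39df77_nt.OL.A04

/-! splitting of the kernel -/

set_option autoImplicit false

open Complex MeasureTheory Set Filter Topology
open scoped Real ComplexConjugate

namespace OL

private lemma A06_norm_ei (x : ℝ) : ‖ei x‖ = 1 := by
  rw [ei, Complex.norm_exp_ofReal_mul_I]

private lemma A06_tele (Y : ℕ) (hY : 1 ≤ Y) :
    HasSum (fun n : ℕ => 1 / ((n : ℝ) + Y) - 1 / ((n : ℝ) + Y + 1)) (1 / (Y : ℝ)) := by
  have hY0 : (0 : ℝ) < Y := by exact_mod_cast hY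
  rw [hasSum_iff_tendsto_nat_of_nonneg]
  · have h1 : ∀ n : ℕ, ∑ i ∈ Finset.range n, (1 / ((i : ℝ) + Y) - 1 / ((i : ℝ) + Y + 1)) =
        1 / (Y : ℝ) - 1 / ((n : ℝ) + Y) := by
      intro n
      induction n with
      | zero => simp
      | succ n ih =>
        rw [Finset.sum_range_succ, ih]
        push_cast
        have : (n : ℝ) + 1 + Y = (n : ℝ) + Y + 1 := by ring
        rw [this]; ring
    simp_rw [h1]
    have h2 : Tendsto (fun n : ℕ => 1 / ((n : ℝ) + Y)) atTop (𝓝 0) := by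
      have h3 : Tendsto (fun n : ℕ => (n : ℝ) + Y) atTop atTop :=
        tendsto_atTop_add_const_right _ _ tendsto_natCast_atTop_atTop
      have h4 := h3.inv_tendsto_atTop
      refine h4.congr (fun n => ?_)
      simp [one_div]
    have := h2.const_sub (1 / (Y : ℝ))
    simpa using this
  · intro n
    have h1 : (0 : ℝ) ≤ n := Nat.cast_nonneg n
    have : 1 / ((n : ℝ) + Y + 1) ≤ 1 / ((n : ℝ) + Y) :=
      one_div_le_one_div_of_le (by linarith) (by linarith)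
    linarith

/-- one term -/
private lemma A06_term {a : ℕ} (ha : 2 ≤ a) {M : ℝ} (hM : 1 ≤ M) (Y : ℕ) (hY : 1 ≤ Y) (n : ℕ) :
    (((n : ℝ) + Y + 1) * M) ^ (-((a : ℝ) + 1 / 2)) ≤
      (M ^ (-((a : ℝ) + 1 / 2)) * (Y : ℝ) ^ (3 / 2 - (a : ℝ))) *
        (1 / ((n : ℝ) + Y) - 1 / ((n : ℝ) + Y + 1)) := by
  have hY0 : (0 : ℝ) < Y := by exact_mod_cast hY
  have hn : (0 : ℝ) ≤ n := Nat.cast_nonneg n
  have hM0 : (0 : ℝ) < M := by linarith
  have ha' : (2 : ℝ) ≤ a := by exact_mod_cast ha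
  set x : ℝ := (n : ℝ) + Y + 1 with hx
  have hx0 : 0 < x := by rw [hx]; linarith
  rw [Real.mul_rpow hx0.le hM0.le]
  have h1 : x ^ (-((a : ℝ) + 1 / 2)) = x ^ (3 / 2 - (a : ℝ)) * x ^ (-2 : ℝ) := by
    rw [← Real.rpow_add hx0]; congr 1; ring
  have h2 : x ^ (3 / 2 - (a : ℝ)) ≤ (Y : ℝ) ^ (3 / 2 - (a : ℝ)) := by
    apply Real.rpow_le_rpow_of_nonpos hY0 (by rw [hx]; linarith) (by linarith)
  have h3 : x ^ (-2 : ℝ) ≤ 1 / ((n : ℝ) + Y) - 1 / ((n : ℝ) + Y + 1) := by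
    rw [Real.rpow_neg hx0.le, div_sub_div _ _ (by positivity) (by positivity)]
    have h5 : x ^ (2 : ℝ) = x ^ 2 := by norm_cast
    rw [h5, ← one_div]
    have h4 : 1 * ((n : ℝ) + Y + 1) - ((n : ℝ) + Y) * 1 = 1 := by ring
    rw [h4]
    apply one_div_le_one_div_of_le (by positivity)
    rw [hx]; nlinarith
  have h6 : 0 ≤ 1 / ((n : ℝ) + Y) - 1 / ((n : ℝ) + Y + 1) := le_trans (by positivity) h3
  rw [h1]
  calc x ^ (3 / 2 - (a : ℝ)) * x ^ (-2 : ℝ) * M ^ (-((a : ℝ) + 1 / 2))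
      ≤ ((Y : ℝ) ^ (3 / 2 - (a : ℝ)) * (1 / ((n : ℝ) + Y) - 1 / ((n : ℝ) + Y + 1))) *
        M ^ (-((a : ℝ) + 1 / 2)) := by
        apply mul_le_mul_of_nonneg_right _ (by positivity)
        apply mul_le_mul h2 h3 (by positivity) (by positivity)
    _ = _ := by ring

private lemma A06_tail {a : ℕ} (ha : 2 ≤ a) {M : ℝ} (hM : 1 ≤ M) (Y : ℕ) (hY : 1 ≤ Y)
    (f : ℕ → ℂ) (D : ℝ) (hD : 0 ≤ D)
    (hf : ∀ n, ‖f n‖ ≤ D * (((n : ℝ) + Y + 1) * M) ^ (-((a : ℝ) + 1 / 2))) :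
    ‖∑' n, f n‖ ≤ D * M ^ (-((a : ℝ) + 1 / 2)) * (Y : ℝ) ^ (1 / 2 - (a : ℝ)) := by
  have hY0 : (0 : ℝ) < Y := by exact_mod_cast hY
  have h1 := (A06_tele Y hY).mul_left (D * (M ^ (-((a : ℝ) + 1 / 2)) * (Y : ℝ) ^ (3 / 2 - (a : ℝ))))
  have h2 := tsum_of_norm_bounded h1 (f := f) (fun n => by
    refine (hf n).trans ?_
    have := mul_le_mul_of_nonneg_left (A06_term ha hM Y hY n) hD
    calc _ ≤ _ := this
      _ = _ := by ring)
  refine h2.trans (le_of_eq ?_)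
  have h3 : (Y : ℝ) ^ (3 / 2 - (a : ℝ)) * (1 / (Y : ℝ)) = (Y : ℝ) ^ (1 / 2 - (a : ℝ)) := by
    have : (1 : ℝ) / Y = (Y : ℝ) ^ (-1 : ℝ) := by rw [Real.rpow_neg_one, one_div]
    rw [this, ← Real.rpow_add hY0]; congr 1; ring
  rw [← h3]; ring

/-- the split of the sum over the integers -/
private lemma A06_zs (f : ℤ → ℂ) (Y : ℕ) :
    ∑ m ∈ Finset.range (Y + 1), f m + ∑ m ∈ Finset.range Y, f (-((m : ℤ) + 1)) =
      f 0 + ∑ m ∈ Zs Y, f m := by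
  induction Y with
  | zero =>
    have : Zs 0 = ∅ := by
      ext m; simp [Zs]
    rw [this]; simp
  | succ Y ih =>
    rw [Finset.sum_range_succ, Finset.sum_range_succ (fun m : ℕ => f (-((m : ℤ) + 1)))]
    have h1 : Zs (Y + 1) = insert ((Y : ℤ) + 1) (insert (-((Y : ℤ) + 1)) (Zs Y)) := by
      ext m
      simp only [Zs, Finset.mem_erase, Finset.mem_Icc, Finset.mem_insert]
      push_cast
      omega
    rw [h1, Finset.sum_insert, Finset.sum_insert]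
    · push_cast
      linear_combination ih
    · simp only [Zs, Finset.mem_erase, Finset.mem_Icc]; omega
    · simp only [Zs, Finset.mem_erase, Finset.mem_Icc, Finset.mem_insert]; omega

private lemma A06_split_tsum (f : ℤ → ℂ) (hf : Summable f) (Y : ℕ) :
    ∑' m, f m - f 0 - ∑ m ∈ Zs Y, f m =
      ∑' n : ℕ, f (((n + (Y + 1) : ℕ) : ℤ)) + ∑' n : ℕ, f (-(((n + Y : ℕ) : ℤ) + 1)) := by
  have hf1 : Summable (fun n : ℕ => f n) := hf.comp_injective Nat.cast_injective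
  have hf2 : Summable (fun n : ℕ => f (-((n : ℤ) + 1))) :=
    hf.comp_injective (fun a b h => by
      have : -((a : ℤ) + 1) = -((b : ℤ) + 1) := h
      omega)
  have h1 := tsum_of_nat_of_neg_add_one hf1 hf2
  have h2 := hf1.sum_add_tsum_nat_add (Y + 1)
  have h3 := hf2.sum_add_tsum_nat_add Y
  have h4 := A06_zs f Y
  rw [h1, ← h2, ← h3]
  linear_combination h4

/-- Proof: `K_poisson`, `Km_le`, `∑_{m > Y} m^(-a-1/2) ≤ C Y^(1/2-a)`. -/
theorem K_split {a : ℕ} (ha : 2 ≤ a) : ∃ C : ℝ, 0 < C ∧ ∀ (T M τ : ℝ) (Y : ℕ), 1 ≤ T → 1 ≤ M → 1 ≤ Y →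
    |τ| ≤ 4 * T →
    ‖K a M τ - (M : ℂ) * ei (τ * Real.log M) * Km a M τ 0 - KY a Y M τ‖ ≤
      C * T ^ a * (M * Y) ^ (1 / 2 - (a : ℝ)) := by
  obtain ⟨C, hC, hKm⟩ := Km_le a
  refine ⟨2 * 5 ^ a * C, by positivity, fun T M τ Y hT hM hY hτ => ?_⟩
  have hM0 : (0 : ℝ) < M := by linarith
  have hY0 : (0 : ℝ) < Y := by exact_mod_cast hY
  obtain ⟨hs, hK⟩ := K_poisson ha hM τ
  have h1 : K a M τ - (M : ℂ) * ei (τ * Real.log M) * Km a M τ 0 - KY a Y M τ =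
      (M : ℂ) * ei (τ * Real.log M) * (∑' m : ℤ, Km a M τ m - Km a M τ 0 - ∑ m ∈ Zs Y, Km a M τ m) := by
    rw [hK, KY]; ring
  rw [h1, A06_split_tsum _ hs Y, norm_mul, norm_mul, A06_norm_ei, mul_one, Complex.norm_real,
    Real.norm_of_nonneg hM0.le]
  set D : ℝ := C * (1 + |τ|) ^ a with hD
  have hD0 : 0 ≤ D := by positivity
  have hD1 : D ≤ C * (5 * T) ^ a := by
    rw [hD]
    apply mul_le_mul_of_nonneg_left _ hC.le
    apply pow_le_pow_left₀ (by positivity) (by linarith)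
  have ht1 : ‖∑' n : ℕ, Km a M τ (((n + (Y + 1) : ℕ) : ℤ))‖ ≤
      D * M ^ (-((a : ℝ) + 1 / 2)) * (Y : ℝ) ^ (1 / 2 - (a : ℝ)) := by
    apply A06_tail ha hM Y hY _ D hD0
    intro n
    have h := hKm M τ (((n + (Y + 1) : ℕ) : ℤ)) hM0 (by positivity)
    have h2 : |((((n + (Y + 1) : ℕ) : ℤ)) : ℝ)| = (n : ℝ) + Y + 1 := by
      rw [abs_of_nonneg (by positivity)]; push_cast; ring
    rw [h2] at h
    exact h
  have ht2 : ‖∑' n : ℕ, Km a M τ (-(((n + Y : ℕ) : ℤ) + 1))‖ ≤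
      D * M ^ (-((a : ℝ) + 1 / 2)) * (Y : ℝ) ^ (1 / 2 - (a : ℝ)) := by
    apply A06_tail ha hM Y hY _ D hD0
    intro n
    have h := hKm M τ (-(((n + Y : ℕ) : ℤ) + 1)) hM0 (by omega)
    have h2 : |(((-(((n + Y : ℕ) : ℤ) + 1)) : ℤ) : ℝ)| = (n : ℝ) + Y + 1 := by
      push_cast
      rw [abs_neg, abs_of_nonneg (by positivity)]
    rw [h2] at h
    exact h
  have h5 : M * M ^ (-((a : ℝ) + 1 / 2)) = M ^ (1 / 2 - (a : ℝ)) := by
    nth_rewrite 1 [← Real.rpow_one M]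
    rw [← Real.rpow_add hM0]; congr 1; ring
  calc M * ‖∑' n : ℕ, Km a M τ (((n + (Y + 1) : ℕ) : ℤ)) + ∑' n : ℕ, Km a M τ (-(((n + Y : ℕ) : ℤ) + 1))‖
      ≤ M * (D * M ^ (-((a : ℝ) + 1 / 2)) * (Y : ℝ) ^ (1 / 2 - (a : ℝ)) +
          D * M ^ (-((a : ℝ) + 1 / 2)) * (Y : ℝ) ^ (1 / 2 - (a : ℝ))) := by
        apply mul_le_mul_of_nonneg_left _ hM0.le
        exact (norm_add_le _ _).trans (add_le_add ht1 ht2)
    _ = 2 * D * ((M * M ^ (-((a : ℝ) + 1 / 2))) * (Y : ℝ) ^ (1 / 2 - (a : ℝ))) := by ring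
    _ ≤ 2 * (C * (5 * T) ^ a) * ((M * M ^ (-((a : ℝ) + 1 / 2))) * (Y : ℝ) ^ (1 / 2 - (a : ℝ))) := by
        apply mul_le_mul_of_nonneg_right (by linarith) (by positivity)
    _ = 2 * 5 ^ a * C * T ^ a * (M * Y) ^ (1 / 2 - (a : ℝ)) := by
        rw [h5, Real.mul_rpow hM0.le hY0.le, mul_pow]; ring

/-- all nonzero frequencies -/
theorem K_split0 {a : ℕ} (ha : 2 ≤ a) : ∃ C : ℝ, 0 < C ∧ ∀ (T M τ : ℝ), 1 ≤ T → 1 ≤ M → |τ| ≤ 4 * T →
    ‖K a M τ - (M : ℂ) * ei (τ * Real.log M) * Km a M τ 0‖ ≤ C * T ^ a * M ^ (1 / 2 - (a : ℝ)) := by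
  obtain ⟨C, hC, hKm⟩ := Km_le a
  obtain ⟨C', hC', hS⟩ := K_split ha
  refine ⟨C' + 2 * 5 ^ a * C, by positivity, fun T M τ hT hM hτ => ?_⟩
  have hM0 : (0 : ℝ) < M := by linarith
  have h1 := hS T M τ 1 hT hM le_rfl hτ
  rw [Nat.cast_one, mul_one] at h1
  have hZ : Zs 1 = {1, -1} := by
    ext m
    simp only [Zs, Finset.mem_erase, Finset.mem_Icc, Finset.mem_insert, Finset.mem_singleton]
    push_cast
    omega
  have hD1 : C * (1 + |τ|) ^ a ≤ C * (5 * T) ^ a := by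
    apply mul_le_mul_of_nonneg_left _ hC.le
    apply pow_le_pow_left₀ (by positivity) (by linarith)
  have h5 : M * M ^ (-((a : ℝ) + 1 / 2)) = M ^ (1 / 2 - (a : ℝ)) := by
    nth_rewrite 1 [← Real.rpow_one M]
    rw [← Real.rpow_add hM0]; congr 1; ring
  have hb : ‖KY a 1 M τ‖ ≤ 2 * 5 ^ a * C * T ^ a * M ^ (1 / 2 - (a : ℝ)) := by
    rw [KY, hZ, Finset.sum_pair (by norm_num), norm_mul, norm_mul, A06_norm_ei, mul_one,
      Complex.norm_real, Real.norm_of_nonneg hM0.le]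
    have e1 := hKm M τ 1 hM0 (by norm_num)
    have e2 := hKm M τ (-1) hM0 (by norm_num)
    simp only [Int.cast_one, Int.cast_neg, abs_neg, abs_one, one_mul] at e1 e2
    calc M * ‖Km a M τ 1 + Km a M τ (-1)‖
        ≤ M * (C * (1 + |τ|) ^ a * M ^ (-((a : ℝ) + 1 / 2)) +
            C * (1 + |τ|) ^ a * M ^ (-((a : ℝ) + 1 / 2))) := by
          apply mul_le_mul_of_nonneg_left _ hM0.le
          exact (norm_add_le _ _).trans (add_le_add e1 e2)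
      _ = 2 * (C * (1 + |τ|) ^ a) * (M * M ^ (-((a : ℝ) + 1 / 2))) := by ring
      _ ≤ 2 * (C * (5 * T) ^ a) * (M * M ^ (-((a : ℝ) + 1 / 2))) := by
          apply mul_le_mul_of_nonneg_right (by linarith) (by positivity)
      _ = 2 * 5 ^ a * C * T ^ a * M ^ (1 / 2 - (a : ℝ)) := by
          rw [h5, mul_pow]; ring
  calc ‖K a M τ - (M : ℂ) * ei (τ * Real.log M) * Km a M τ 0‖
      = ‖(K a M τ - (M : ℂ) * ei (τ * Real.log M) * Km a M τ 0 - KY a 1 M τ) + KY a 1 M τ‖ := by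
        congr 1; ring
    _ ≤ C' * T ^ a * M ^ (1 / 2 - (a : ℝ)) + 2 * 5 ^ a * C * T ^ a * M ^ (1 / 2 - (a : ℝ)) :=
        (norm_add_le _ _).trans (add_le_add h1 hb)
    _ = _ := by ring

end OL
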