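import Pool.Agent.Lib.MP_39df77_nt.OL.A05
import Pool.Agent.Lib.MP_39df77_nt.OL.A06

/-! pointwise bound for the kernel -/

set_option autoImplicit false

open Complex MeasureTheory Set Filter Topology
open scoped Real ComplexConjugate

namespace OL

theorem A07_ei (x : ℝ) : ‖ei x‖ = 1 := by
  rw [ei, Complex.norm_exp_ofReal_mul_I]

theorem A07_pow {a : ℕ} (ha : 2 ≤ a) {T x : ℝ} (hT : 1 ≤ T) (hx : T ≤ x) :
    T ^ a * x ^ (1 / 2 - (a : ℝ)) ≤ T ^ (1 / 2 : ℝ) := by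
  have hT0 : 0 < T := by linarith
  have ha' : (2 : ℝ) ≤ a := by exact_mod_cast ha
  have h1 : x ^ (1 / 2 - (a : ℝ)) ≤ T ^ (1 / 2 - (a : ℝ)) :=
    Real.rpow_le_rpow_of_nonpos hT0 hx (by linarith)
  calc T ^ a * x ^ (1 / 2 - (a : ℝ)) ≤ T ^ a * T ^ (1 / 2 - (a : ℝ)) := by gcongr
    _ = T ^ (1 / 2 : ℝ) := by
      rw [← Real.rpow_natCast, ← Real.rpow_add hT0]
      congr 1
      ring

/-- Proof: `T = 1 + |τ|`. If `M ≤ T`: `Y = ⌈T/M⌉`, `T ≤ MY ≤ 2T`, `K_split` (error `≤ C T^(1/2)`), `KY_le`, `P_le`.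
If `M > T`: `K_split0`, `T^a M^(1/2-a) ≤ T^(1/2)`. `Km_zero` for the frequency 0. -/
theorem K_le {a : ℕ} (ha : 2 ≤ a) : ∃ C : ℝ, 0 < C ∧ ∀ M τ : ℝ, 1 ≤ M →
    ‖K a M τ‖ ≤ C * (M / (1 + τ ^ 2) ^ 2 + (1 + |τ|) ^ (1 / 2 : ℝ)) := by
  obtain ⟨C₁, hC₁, h1⟩ := K_split ha
  obtain ⟨C₂, hC₂, h2⟩ := K_split0 ha
  obtain ⟨C₀, hC₀, h0⟩ := Km_zero a
  set I₀ : ℝ := ∫ y : ℝ, ‖Gamma ((a : ℂ) + y * I)‖ with hI₀
  have hI₀' : 0 ≤ I₀ := integral_nonneg fun y => norm_nonneg _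
  refine ⟨C₀ + C₁ + C₂ + 4 * I₀, by positivity, ?_⟩
  intro M τ hM
  set T : ℝ := 1 + |τ| with hTdef
  have hT : 1 ≤ T := by rw [hTdef]; linarith [abs_nonneg τ]
  have hT0 : 0 < T := by linarith
  have hM0 : 0 < M := by linarith
  have hτ : |τ| ≤ 4 * T := by rw [hTdef]; linarith [abs_nonneg τ]
  have hz : ‖(M : ℂ) * ei (τ * Real.log M) * Km a M τ 0‖ ≤ C₀ * (M / (1 + τ ^ 2) ^ 2) := by
    rw [norm_mul, norm_mul, A07_ei, mul_one, Complex.norm_real, Real.norm_of_nonneg hM0.le]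
    calc M * ‖Km a M τ 0‖ ≤ M * (C₀ / (1 + τ ^ 2) ^ 2) := by gcongr; exact h0 M τ
      _ = C₀ * (M / (1 + τ ^ 2) ^ 2) := by ring
  have hq : 0 ≤ M / (1 + τ ^ 2) ^ 2 := by positivity
  have hr : 0 ≤ T ^ (1 / 2 : ℝ) := by positivity
  by_cases hMT : T < M
  · have h3 := h2 T M τ hT hM hτ
    have h4 := A07_pow ha hT hMT.le
    have h5 : ‖K a M τ‖ ≤ ‖K a M τ - (M : ℂ) * ei (τ * Real.log M) * Km a M τ 0‖ +
        ‖(M : ℂ) * ei (τ * Real.log M) * Km a M τ 0‖ := by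
      have := norm_add_le (K a M τ - (M : ℂ) * ei (τ * Real.log M) * Km a M τ 0)
        ((M : ℂ) * ei (τ * Real.log M) * Km a M τ 0)
      rwa [sub_add_cancel] at this
    have h6 : C₂ * T ^ a * M ^ (1 / 2 - (a : ℝ)) ≤ C₂ * T ^ (1 / 2 : ℝ) := by
      rw [mul_assoc]
      gcongr
    have e1 : 0 ≤ C₁ * (M / (1 + τ ^ 2) ^ 2) := by positivity
    have e2 : 0 ≤ C₂ * (M / (1 + τ ^ 2) ^ 2) := by positivity
    have e3 : 0 ≤ I₀ * (M / (1 + τ ^ 2) ^ 2) := by positivity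
    have e4 : 0 ≤ C₀ * T ^ (1 / 2 : ℝ) := by positivity
    have e5 : 0 ≤ C₁ * T ^ (1 / 2 : ℝ) := by positivity
    have e6 : 0 ≤ I₀ * T ^ (1 / 2 : ℝ) := by positivity
    nlinarith
  · have hMT' : M ≤ T := not_lt.1 hMT
    set Y : ℕ := ⌈T / M⌉₊ with hY
    have hY0 : 0 < Y := Nat.ceil_pos.2 (by positivity)
    have hY1 : T / M ≤ Y := Nat.le_ceil _
    have hY2 : (Y : ℝ) < T / M + 1 := Nat.ceil_lt_add_one (by positivity)
    have hMY1 : T ≤ M * Y := by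
      rw [div_le_iff₀ hM0] at hY1
      linarith
    have hMY2 : M * Y ≤ 2 * T := by
      have : M * Y ≤ M * (T / M + 1) := by gcongr
      have e : M * (T / M + 1) = T + M := by field_simp
      linarith
    have h3 := h1 T M τ Y hT hM hY0 hτ
    have h4 := A07_pow ha hT hMY1
    have h5 : ‖K a M τ‖ ≤ ‖K a M τ - (M : ℂ) * ei (τ * Real.log M) * Km a M τ 0 - KY a Y M τ‖ +
        ‖(M : ℂ) * ei (τ * Real.log M) * Km a M τ 0‖ + ‖KY a Y M τ‖ := by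
      have := norm_add₃_le (a := K a M τ - (M : ℂ) * ei (τ * Real.log M) * Km a M τ 0 - KY a Y M τ)
        (b := (M : ℂ) * ei (τ * Real.log M) * Km a M τ 0) (c := KY a Y M τ)
      have e : K a M τ - (M : ℂ) * ei (τ * Real.log M) * Km a M τ 0 - KY a Y M τ +
        (M : ℂ) * ei (τ * Real.log M) * Km a M τ 0 + KY a Y M τ = K a M τ := by ring
      rwa [e] at this
    have h6 : C₁ * T ^ a * (M * Y) ^ (1 / 2 - (a : ℝ)) ≤ C₁ * T ^ (1 / 2 : ℝ) := by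
      rw [mul_assoc]
      gcongr
    have h7 : ‖KY a Y M τ‖ ≤ 4 * I₀ * T ^ (1 / 2 : ℝ) := by
      have g1 := KY_le (a := a) (by omega) Y hM0 τ
      have g2 : ∫ y : ℝ, ‖Gamma ((a : ℂ) + y * I)‖ * ‖P Y (τ - y)‖ ≤
          ∫ y : ℝ, ‖Gamma ((a : ℂ) + y * I)‖ * (2 * Real.sqrt Y) := by
        refine integral_mono_of_nonneg ?_ ?_ ?_
        · exact Filter.Eventually.of_forall fun y => by positivity
        · exact (Gamma_int (a := a) (by omega)).mul_const _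
        · refine Filter.Eventually.of_forall fun y => ?_
          simp only
          gcongr
          exact P_le Y _
      rw [integral_mul_const] at g2
      have g3 : Real.sqrt M * Real.sqrt Y = Real.sqrt (M * Y) := (Real.sqrt_mul hM0.le _).symm
      have g4 : Real.sqrt (M * Y) ≤ 2 * T ^ (1 / 2 : ℝ) := by
        rw [← Real.sqrt_eq_rpow]
        calc Real.sqrt (M * Y) ≤ Real.sqrt (2 * T) := Real.sqrt_le_sqrt hMY2
          _ ≤ Real.sqrt (2 ^ 2 * T) := Real.sqrt_le_sqrt (by linarith)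
          _ = 2 * Real.sqrt T := by
            rw [Real.sqrt_mul (by norm_num), Real.sqrt_sq (by norm_num)]
      calc ‖KY a Y M τ‖ ≤ Real.sqrt M * (I₀ * (2 * Real.sqrt Y)) := by
            refine g1.trans ?_
            gcongr
        _ = 2 * I₀ * (Real.sqrt M * Real.sqrt Y) := by ring
        _ ≤ 2 * I₀ * (2 * T ^ (1 / 2 : ℝ)) := by rw [g3]; gcongr
        _ = 4 * I₀ * T ^ (1 / 2 : ℝ) := by ring
    have e1 : 0 ≤ C₁ * (M / (1 + τ ^ 2) ^ 2) := by positivity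
    have e2 : 0 ≤ C₂ * (M / (1 + τ ^ 2) ^ 2) := by positivity
    have e3 : 0 ≤ I₀ * (M / (1 + τ ^ 2) ^ 2) := by positivity
    have e4 : 0 ≤ C₀ * T ^ (1 / 2 : ℝ) := by positivity
    have e5 : 0 ≤ C₂ * T ^ (1 / 2 : ℝ) := by positivity
    have e6 : 0 ≤ I₀ * T ^ (1 / 2 : ℝ) := by positivity
    nlinarith

end OL
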