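import Pool.Agent.Lib.MP_39df77_nt.OL.Defs
import Pool.Agent.Lib.MP_39df77_nt.F4.A

/-! A08 (R05): mean square of a Dirichlet polynomial over a separated set. -/

set_option autoImplicit false

open Complex MeasureTheory Set

namespace OL

lemma A08_norm_ei (x : ℝ) : ‖ei x‖ = 1 := by
  unfold ei
  exact Complex.norm_exp_ofReal_mul_I x

lemma A08_ei_add (x y : ℝ) : ei (x + y) = ei x * ei y := by
  unfold ei
  rw [← Complex.exp_add]
  congr 1
  push_cast
  ring

/-- one variable Sobolev inequality -/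
lemma A08_sobolev {g g' : ℝ → ℝ} (hg : ∀ x, HasDerivAt g (g' x) x) (hc : Continuous g') (t : ℝ) :
    g t ≤ ∫ u in (t - 1 / 2)..(t + 1 / 2), (g u + |g' u|) := by
  have hgc : Continuous g := continuous_iff_continuousAt.2 fun x => (hg x).continuousAt
  have hci : ∀ a b : ℝ, IntervalIntegrable g' volume a b := fun a b => hc.intervalIntegrable a b
  set J := ∫ u in (t - 1 / 2)..(t + 1 / 2), |g' u| with hJ
  have h1 : ∀ u ∈ Icc (t - 1 / 2) (t + 1 / 2), g t ≤ g u + J := by
    intro u hu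
    have h2 : ∫ x in u..t, g' x = g t - g u :=
      intervalIntegral.integral_eq_sub_of_hasDerivAt (fun x _ => hg x) (hci _ _)
    have h3 : |∫ x in u..t, g' x| ≤ J := by
      have e1 := intervalIntegral.norm_integral_le_abs_integral_norm (f := g') (a := u) (b := t)
        (μ := volume)
      simp only [Real.norm_eq_abs] at e1
      refine e1.trans ?_
      have e2 := intervalIntegral.abs_integral_mono_interval (μ := volume) (f := fun x => |g' x|)
        (a := u) (b := t) (c := t - 1 / 2) (d := t + 1 / 2) ?_ ?_ (hc.abs.intervalIntegrable _ _)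
      · rw [abs_of_nonneg (a := ∫ x in (t - 1 / 2)..(t + 1 / 2), |g' x|)
          (intervalIntegral.integral_nonneg (by linarith) fun x _ => abs_nonneg _)] at e2
        exact e2
      · rw [uIoc_of_le (by linarith : t - 1 / 2 ≤ t + 1 / 2)]
        intro x hx
        rw [mem_uIoc] at hx
        obtain ⟨u1, u2⟩ := hu
        rcases hx with ⟨x1, x2⟩ | ⟨x1, x2⟩
        · exact ⟨by linarith, by linarith⟩
        · exact ⟨by linarith, by linarith⟩
      · exact Filter.Eventually.of_forall fun x => abs_nonneg _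
    have := le_abs_self (∫ x in u..t, g' x)
    rw [h2] at this h3
    linarith
  have h2 : ∫ u in (t - 1 / 2)..(t + 1 / 2), g t ≤ ∫ u in (t - 1 / 2)..(t + 1 / 2), (g u + J) := by
    refine intervalIntegral.integral_mono_on (by linarith) (by simp) ?_ h1
    exact (hgc.add continuous_const).intervalIntegrable _ _
  rw [intervalIntegral.integral_const, intervalIntegral.integral_add (hgc.intervalIntegrable _ _)
    (by simp), intervalIntegral.integral_const] at h2
  rw [intervalIntegral.integral_add (hgc.intervalIntegrable _ _) (hc.abs.intervalIntegrable _ _)]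
  have e : t + 1 / 2 - (t - 1 / 2) = 1 := by ring
  rw [e, one_smul, one_smul] at h2
  exact h2

/-- integrals over the unit intervals around the points of a separated set -/
lemma A08_sep_integral {F : ℝ → ℝ} (hF : Continuous F) (h0 : ∀ x, 0 ≤ F x) {S : Finset ℝ} (hS : Sep S)
    {A T : ℝ} (hT0 : 0 ≤ T) (hST : ∀ t ∈ S, A ≤ t ∧ t ≤ A + T) :
    ∑ t ∈ S, ∫ u in (t - 1 / 2)..(t + 1 / 2), F u ≤ ∫ u in (A - 1 / 2)..(A + T + 1 / 2), F u := by
  rcases S.eq_empty_or_nonempty with rfl | ⟨t0, ht0⟩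
  · rw [Finset.sum_empty]
    exact intervalIntegral.integral_nonneg (by linarith) fun x _ => h0 x
  · have hT : A ≤ A + T := (hST t0 ht0).1.trans (hST t0 ht0).2
    have e1 : ∀ t : ℝ, ∫ u in (t - 1 / 2)..(t + 1 / 2), F u = ∫ u in Ioc (t - 1 / 2) (t + 1 / 2), F u :=
      fun t => intervalIntegral.integral_of_le (by linarith)
    simp only [e1]
    rw [intervalIntegral.integral_of_le (by linarith)]
    have hint : ∀ a b : ℝ, IntegrableOn F (Ioc a b) := fun a b =>
      (hF.integrableOn_Icc (a := a) (b := b)).mono_set Ioc_subset_Icc_self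
    rw [← integral_biUnion_finset S (fun t _ => measurableSet_Ioc) ?_ (fun t _ => hint _ _)]
    · refine setIntegral_mono_set (hint _ _) (Filter.Eventually.of_forall fun x => h0 x) ?_
      refine LE.le.eventuallyLE ?_
      intro x hx
      simp only [mem_iUnion] at hx
      obtain ⟨t, ht, hx1, hx2⟩ := hx
      have := hST t ht
      exact ⟨by linarith [this.1], by linarith [this.2]⟩
    · intro s hs t ht hst
      have h := hS s hs t ht hst
      simp only [Function.onFun]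
      rw [Set.disjoint_left]
      intro x hx1 hx2
      obtain ⟨a1, a2⟩ := hx1
      obtain ⟨b1, b2⟩ := hx2
      rcases le_abs.1 h with h | h <;> linarith

/-- Dirichlet polynomial with frequencies `log n`, `1 ≤ n ≤ N` -/
noncomputable def dp (v : ℕ → ℂ) (N : ℕ) (t : ℝ) : ℂ :=
  ∑ n ∈ Finset.Icc 1 N, v n * ei (-(t * Real.log n))

lemma A08_ei_natpow {n : ℕ} (hn : 1 ≤ n) (t : ℝ) : ei (-(t * Real.log n)) = (n : ℂ) ^ (-(t * I)) := by
  rw [F4.natpow_eq hn]
  unfold ei
  congr 1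
  push_cast
  ring

/-- mean value theorem on an interval of length `T + 1` -/
lemma A08_mvt_shift {T : ℝ} (hT : 1 ≤ T) (v : ℕ → ℂ) (N : ℕ) (A : ℝ) :
    ∫ u in (A - 1 / 2)..(A + T + 1 / 2), ‖dp v N u‖ ^ 2 ≤
      40 * (T + N) * ∑ n ∈ Finset.Icc 1 N, ‖v n‖ ^ 2 := by
  set c := A + T / 2 with hc
  have h1 : ∀ x : ℝ, dp v N (x + c) =
      ∑ n ∈ Finset.Icc 1 N, (v n * ei (-(c * Real.log n))) * (n : ℂ) ^ (-(x * I)) := by
    intro x
    unfold dp
    refine Finset.sum_congr rfl fun n hn => ?_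
    rw [← A08_ei_natpow (Finset.mem_Icc.1 hn).1, mul_assoc, ← A08_ei_add]
    congr 2
    ring
  have hcont : Continuous fun x : ℝ => ∑ n ∈ Finset.Icc 1 N,
      (v n * ei (-(c * Real.log n))) * (n : ℂ) ^ (-(x * I)) := by
    refine continuous_finsetSum _ fun n hn => ?_
    refine continuous_const.mul ?_
    have : (fun x : ℝ => (n : ℂ) ^ (-(x * I))) = fun x : ℝ => ei (-(x * Real.log n)) := by
      funext x
      rw [A08_ei_natpow (Finset.mem_Icc.1 hn).1]
    rw [this]
    unfold ei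
    fun_prop
  have h2 := F4.mvt_fin (T := T + 1) (by linarith) (Finset.Icc 1 N)
    (fun m hm => (Finset.mem_Icc.1 hm).1) (fun n => v n * ei (-(c * Real.log n)))
  have h3 : ∫ u in (A - 1 / 2)..(A + T + 1 / 2), ‖dp v N u‖ ^ 2 =
      ∫ x in (-((T + 1) / 2))..((T + 1) / 2), ‖dp v N (x + c)‖ ^ 2 := by
    rw [intervalIntegral.integral_comp_add_right (fun u => ‖dp v N u‖ ^ 2)]
    congr 1 <;> rw [hc] <;> ring
  set g : ℝ → ℝ := fun x => ‖∑ n ∈ Finset.Icc 1 N,
      (v n * ei (-(c * Real.log n))) * (n : ℂ) ^ (-(x * I))‖ ^ 2 with hg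
  have hgc : Continuous g := hcont.norm.pow 2
  have hg0 : ∀ x, 0 ≤ g x := fun x => by simp only [hg]; positivity
  have hgb : ∀ x, g x ≤ (∑ n ∈ Finset.Icc 1 N, ‖v n‖) ^ 2 := by
    intro x
    refine pow_le_pow_left₀ (norm_nonneg _) ?_ 2
    refine (norm_sum_le _ _).trans (Finset.sum_le_sum fun n hn => ?_)
    rw [← A08_ei_natpow (Finset.mem_Icc.1 hn).1, norm_mul, norm_mul, A08_norm_ei, A08_norm_ei, mul_one, mul_one]
  have hint : Integrable fun x : ℝ => g x * ((T + 1) ^ 2 / ((T + 1) ^ 2 + x ^ 2)) := by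
    refine ((F4.integrable_cauchy (T := T + 1) (by linarith)).const_mul
      ((∑ n ∈ Finset.Icc 1 N, ‖v n‖) ^ 2)).mono' ?_ ?_
    · refine (hgc.mul ?_).aestronglyMeasurable
      refine continuous_const.div (by fun_prop) fun x => ?_
      positivity
    · refine Filter.Eventually.of_forall fun x => ?_
      have h4 : 0 ≤ (T + 1) ^ 2 / ((T + 1) ^ 2 + x ^ 2) := by positivity
      rw [Real.norm_eq_abs, abs_of_nonneg (mul_nonneg (hg0 x) h4)]
      exact mul_le_mul_of_nonneg_right (hgb x) h4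
  have h5 : ∫ x in (-((T + 1) / 2))..((T + 1) / 2), ‖dp v N (x + c)‖ ^ 2 ≤
      2 * ∫ x : ℝ, g x * ((T + 1) ^ 2 / ((T + 1) ^ 2 + x ^ 2)) := by
    calc ∫ x in (-((T + 1) / 2))..((T + 1) / 2), ‖dp v N (x + c)‖ ^ 2
        ≤ ∫ x in (-((T + 1) / 2))..((T + 1) / 2), 2 * (g x * ((T + 1) ^ 2 / ((T + 1) ^ 2 + x ^ 2))) := by
          have hc1 : Continuous fun x : ℝ => ‖dp v N (x + c)‖ ^ 2 := by
            have : (fun x : ℝ => ‖dp v N (x + c)‖ ^ 2) = g := by
              funext x; rw [h1 x]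
            rw [this]; exact hgc
          refine intervalIntegral.integral_mono_on (by linarith) (hc1.intervalIntegrable _ _)
            (hint.const_mul 2).intervalIntegrable fun x hx => ?_
          rw [h1 x]
          have h6 : 1 ≤ 2 * ((T + 1) ^ 2 / ((T + 1) ^ 2 + x ^ 2)) := by
            rw [← mul_div_assoc, one_le_div (by positivity)]
            obtain ⟨x1, x2⟩ := hx
            have : x ^ 2 ≤ (T + 1) ^ 2 := by
              rw [sq_le_sq, abs_of_pos (show 0 < T + 1 by linarith), abs_le]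
              constructor <;> linarith
            linarith
          have := mul_le_mul_of_nonneg_left h6 (hg0 x)
          simp only [hg] at this ⊢
          linarith
      _ = 2 * ∫ x in (-((T + 1) / 2))..((T + 1) / 2), g x * ((T + 1) ^ 2 / ((T + 1) ^ 2 + x ^ 2)) := by
          rw [intervalIntegral.integral_const_mul]
      _ ≤ _ := by
          refine mul_le_mul_of_nonneg_left ?_ (by norm_num)
          rw [intervalIntegral.integral_of_le (by linarith)]
          exact setIntegral_le_integral hint (Filter.Eventually.of_forall fun x =>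
            mul_nonneg (hg0 x) (by positivity))
  rw [h3]
  refine h5.trans ?_
  have h6 : ∑ n ∈ Finset.Icc 1 N, ‖v n * ei (-(c * Real.log n))‖ ^ 2 * (T + 1 + n) ≤
      (2 * (T + N)) * ∑ n ∈ Finset.Icc 1 N, ‖v n‖ ^ 2 := by
    rw [Finset.mul_sum]
    refine Finset.sum_le_sum fun n hn => ?_
    rw [norm_mul, A08_norm_ei, mul_one, mul_comm]
    refine mul_le_mul_of_nonneg_right ?_ (by positivity)
    have : (n : ℝ) ≤ N := by exact_mod_cast (Finset.mem_Icc.1 hn).2
    linarith
  have h7 : ∫ x : ℝ, g x * ((T + 1) ^ 2 / ((T + 1) ^ 2 + x ^ 2)) ≤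
      10 * ((2 * (T + N)) * ∑ n ∈ Finset.Icc 1 N, ‖v n‖ ^ 2) :=
    h2.trans (mul_le_mul_of_nonneg_left h6 (by norm_num))
  linarith

lemma A08_dp_deriv (v : ℕ → ℂ) (N : ℕ) (t : ℝ) :
    HasDerivAt (dp v N) (dp (fun n => v n * (-(Real.log n) * I)) N t) t := by
  unfold dp
  refine HasDerivAt.fun_sum fun n _ => ?_
  have h1 : HasDerivAt (fun x : ℝ => ei (-(x * Real.log n))) ((-(Real.log n) * I) * ei (-(t * Real.log n))) t := by
    unfold ei
    have h2 : HasDerivAt (fun x : ℝ => (((-(x * Real.log n) : ℝ) : ℂ)) * I) (-(Real.log n) * I) t := by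
      have h3 : HasDerivAt (fun x : ℝ => (-(x * Real.log n) : ℝ)) (-(Real.log n)) t := by
        have h3a := ((hasDerivAt_id t).mul_const (Real.log n)).fun_neg
        simpa using h3a
      have h4 := (h3.ofReal_comp).mul_const I
      simpa using h4
    have h5 := h2.cexp
    rwa [mul_comm] at h5
  have h6 := h1.const_mul (v n)
  rw [← mul_assoc] at h6
  exact h6

lemma A08_dp_cont (v : ℕ → ℂ) (N : ℕ) : Continuous (dp v N) :=
  continuous_iff_continuousAt.2 fun x => (A08_dp_deriv v N x).continuousAt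

/-- **R05** -/
theorem sep_meansq {T : ℝ} (hT : 1 ≤ T) {N : ℕ} (hN : 1 ≤ N) (v : ℕ → ℂ) {S : Finset ℝ}
    (hS : Sep S) (hI : InI S T) :
    ∑ t ∈ S, ‖dp v N t‖ ^ 2 ≤
      120 * (T + N) * (1 + Real.log N) * ∑ n ∈ Finset.Icc 1 N, ‖v n‖ ^ 2 := by
  obtain ⟨A, hA⟩ := hI
  set v' : ℕ → ℂ := fun n => v n * (-(Real.log n) * I) with hv'
  set L : ℝ := 1 + Real.log N with hL
  have hL1 : 1 ≤ L := by
    have : 0 ≤ Real.log N := Real.log_nonneg (by exact_mod_cast hN)
    linarith
  have hLp : 0 < L := by linarith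
  set F : ℝ → ℝ := fun u => (1 + L) * ‖dp v N u‖ ^ 2 + L⁻¹ * ‖dp v' N u‖ ^ 2 with hF
  have hFc : Continuous F :=
    (continuous_const.mul ((A08_dp_cont v N).norm.pow 2)).add (continuous_const.mul ((A08_dp_cont v' N).norm.pow 2))
  have hF0 : ∀ x, 0 ≤ F x := fun x => by simp only [hF]; positivity
  have h1 : ∀ t : ℝ, ‖dp v N t‖ ^ 2 ≤ ∫ u in (t - 1 / 2)..(t + 1 / 2), F u := by
    intro t
    have hd : ∀ x, HasDerivAt (fun x => ‖dp v N x‖ ^ 2) (2 * inner ℝ (dp v N x) (dp v' N x)) x :=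
      fun x => (A08_dp_deriv v N x).norm_sq
    have hcd : Continuous fun x => 2 * inner ℝ (dp v N x) (dp v' N x) :=
      continuous_const.mul ((A08_dp_cont v N).inner (A08_dp_cont v' N))
    refine (A08_sobolev hd hcd t).trans ?_
    refine intervalIntegral.integral_mono_on (by linarith) ?_ (hFc.intervalIntegrable _ _) fun u _ => ?_
    · exact (((A08_dp_cont v N).norm.pow 2).add hcd.abs).intervalIntegrable _ _
    · have h2 : |2 * inner ℝ (dp v N u) (dp v' N u)| ≤ 2 * (‖dp v N u‖ * ‖dp v' N u‖) := by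
        rw [abs_mul, abs_of_pos (show (0:ℝ) < 2 by norm_num)]
        exact mul_le_mul_of_nonneg_left (abs_real_inner_le_norm _ _) (by norm_num)
      have h3 : 2 * (‖dp v N u‖ * ‖dp v' N u‖) ≤ L * ‖dp v N u‖ ^ 2 + L⁻¹ * ‖dp v' N u‖ ^ 2 := by
        have h4 : 0 ≤ L * (‖dp v N u‖ - L⁻¹ * ‖dp v' N u‖) ^ 2 := by positivity
        have h5 : L * (‖dp v N u‖ - L⁻¹ * ‖dp v' N u‖) ^ 2 =
            L * ‖dp v N u‖ ^ 2 - 2 * (‖dp v N u‖ * ‖dp v' N u‖) + L⁻¹ * ‖dp v' N u‖ ^ 2 := by
          field_simp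
          ring
        linarith
      simp only [hF]
      linarith
  have h2 : ∑ t ∈ S, ‖dp v N t‖ ^ 2 ≤ ∫ u in (A - 1 / 2)..(A + T + 1 / 2), F u :=
    (Finset.sum_le_sum fun t _ => h1 t).trans (A08_sep_integral hFc hF0 hS (by linarith) hA)
  have h3 : ∫ u in (A - 1 / 2)..(A + T + 1 / 2), F u =
      (1 + L) * (∫ u in (A - 1 / 2)..(A + T + 1 / 2), ‖dp v N u‖ ^ 2) +
      L⁻¹ * ∫ u in (A - 1 / 2)..(A + T + 1 / 2), ‖dp v' N u‖ ^ 2 := by
    simp only [hF]
    rw [intervalIntegral.integral_add, intervalIntegral.integral_const_mul,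
      intervalIntegral.integral_const_mul]
    · exact (continuous_const.mul ((A08_dp_cont v N).norm.pow 2)).intervalIntegrable _ _
    · exact (continuous_const.mul ((A08_dp_cont v' N).norm.pow 2)).intervalIntegrable _ _
  have h4 := A08_mvt_shift hT v N A
  have h5 := A08_mvt_shift hT v' N A
  have h6 : ∑ n ∈ Finset.Icc 1 N, ‖v' n‖ ^ 2 ≤ L ^ 2 * ∑ n ∈ Finset.Icc 1 N, ‖v n‖ ^ 2 := by
    rw [Finset.mul_sum]
    refine Finset.sum_le_sum fun n hn => ?_
    obtain ⟨n1, n2⟩ := Finset.mem_Icc.1 hn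
    have e1 : ‖v' n‖ = ‖v n‖ * Real.log n := by
      simp only [hv']
      rw [norm_mul, norm_mul, Complex.norm_I, mul_one, norm_neg, Complex.norm_real, Real.norm_eq_abs,
        abs_of_nonneg (Real.log_nonneg (by exact_mod_cast n1))]
    rw [e1, mul_pow, mul_comm]
    refine mul_le_mul_of_nonneg_right ?_ (by positivity)
    refine pow_le_pow_left₀ (Real.log_nonneg (by exact_mod_cast n1)) ?_ 2
    have : Real.log n ≤ Real.log N :=
      Real.log_le_log (by exact_mod_cast n1) (by exact_mod_cast n2)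
    linarith
  set Q := ∑ n ∈ Finset.Icc 1 N, ‖v n‖ ^ 2 with hQ
  have hQ0 : 0 ≤ Q := Finset.sum_nonneg fun n _ => by positivity
  have hTN : 0 ≤ T + N := by positivity
  have h7 : L⁻¹ * (∫ u in (A - 1 / 2)..(A + T + 1 / 2), ‖dp v' N u‖ ^ 2) ≤ 40 * (T + N) * L * Q := by
    calc L⁻¹ * (∫ u in (A - 1 / 2)..(A + T + 1 / 2), ‖dp v' N u‖ ^ 2)
        ≤ L⁻¹ * (40 * (T + N) * (L ^ 2 * Q)) := by
          refine mul_le_mul_of_nonneg_left (h5.trans ?_) (by positivity)
          exact mul_le_mul_of_nonneg_left h6 (by positivity)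
      _ = _ := by field_simp
  have h8 : (1 + L) * (∫ u in (A - 1 / 2)..(A + T + 1 / 2), ‖dp v N u‖ ^ 2) ≤
      (2 * L) * (40 * (T + N) * Q) := by
    refine mul_le_mul (by linarith) h4 ?_ (by positivity)
    exact intervalIntegral.integral_nonneg (by linarith) fun x _ => by positivity
  rw [h3] at h2
  linarith

theorem mvt_sep : ∃ C : ℝ, 0 < C ∧ ∀ (T : ℝ) (S : Finset ℝ) (N : ℕ) (v : ℕ → ℂ), 1 ≤ T → Sep S → InI S T →
    1 ≤ N → ∑ t ∈ S, ‖∑ n ∈ Finset.Icc 1 N, v n * ei (-(t * Real.log n))‖ ^ 2 ≤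
      C * (T + N) * (1 + Real.log N) * ∑ n ∈ Finset.Icc 1 N, ‖v n‖ ^ 2 :=
  ⟨120, by norm_num, fun _ _ _ v hT hS hI hN => sep_meansq hT hN v hS hI⟩

end OL
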