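import Pool.Agent.Lib.MP_39df77_nt.OL.A09a

/-! powers of `P Y` -/

set_option autoImplicit false

open Complex MeasureTheory Set Filter Topology
open scoped Real ComplexConjugate

namespace OL

/-- pointwise form of the bound for the coefficients of `P Y ^ k` -/
lemma A09_pt (k : ℕ) : ∀ δ : ℝ, 0 < δ → ∃ C : ℝ, 0 < C ∧ ∀ Y : ℕ, 1 ≤ Y → ∃ c : ℕ → ℂ,
    (∀ v : ℝ, P Y v ^ k = ∑ n ∈ Finset.Icc 1 (Y ^ k), c n * ei (-(v * Real.log n))) ∧
    ∀ n ∈ Finset.Icc 1 (Y ^ k), ‖c n‖ ≤ C * (n : ℝ) ^ (δ - 1 / 2) := by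
  induction k with
  | zero =>
    intro δ hδ
    refine ⟨1, one_pos, fun Y hY => ⟨fun _ => 1, fun v => ?_, fun n hn => ?_⟩⟩
    · simp [ei]
    · simp only [pow_zero, Finset.Icc_self, Finset.mem_singleton] at hn
      subst hn
      simp
  | succ k ih =>
    intro δ hδ
    obtain ⟨C, hC0, hC⟩ := ih (δ / 2) (by positivity)
    obtain ⟨D, hD1, hD⟩ := U6.FM.fm_div (δ / 2) (by positivity)
    refine ⟨C * D, by positivity, fun Y hY => ?_⟩
    obtain ⟨c, hc1, hc2⟩ := hC Y hY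
    obtain ⟨c', hc1', hc2'⟩ := dir_mul (Finset.Icc 1 (Y ^ k)) (Finset.Icc 1 Y)
      (Finset.Icc 1 (Y ^ (k + 1))) (fun n hn => (Finset.mem_Icc.1 hn).1)
      (fun n hn => (Finset.mem_Icc.1 hn).1) (fun x hx y hy => by
        rw [Finset.mem_Icc] at hx hy ⊢
        refine ⟨Nat.one_le_iff_ne_zero.2 (Nat.mul_ne_zero (by omega) (by omega)), ?_⟩
        rw [pow_succ]
        exact Nat.mul_le_mul hx.2 hy.2) c (fun m => (((Real.sqrt m)⁻¹ : ℝ) : ℂ))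
    refine ⟨c', fun v => ?_, fun n hn => ?_⟩
    · rw [pow_succ, hc1 v, ← hc1' v]
      rfl
    · have hn' := Finset.mem_Icc.1 hn
      have hn0 : (0:ℝ) < n := by exact_mod_cast hn'.1
      refine (hc2' n hn).trans ?_
      calc (∑ d ∈ n.divisors, if d ∈ Finset.Icc 1 (Y ^ k) ∧ n / d ∈ Finset.Icc 1 Y
            then ‖c d‖ * ‖(((Real.sqrt ((n / d : ℕ) : ℝ))⁻¹ : ℝ) : ℂ)‖ else 0)
          ≤ ∑ d ∈ n.divisors, C * (n : ℝ) ^ (δ / 2 - 1 / 2) := by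
            refine Finset.sum_le_sum fun d hd => ?_
            have hpos : 0 ≤ C * (n : ℝ) ^ (δ / 2 - 1 / 2) := by positivity
            split_ifs with h
            · have hd1 : 1 ≤ d := (Finset.mem_Icc.1 h.1).1
              have hm1 : 1 ≤ n / d := (Finset.mem_Icc.1 h.2).1
              have hdn : d * (n / d) = n := Nat.mul_div_cancel' (Nat.dvd_of_mem_divisors hd)
              have hd0 : (0:ℝ) < d := by exact_mod_cast hd1
              have hm0 : (0:ℝ) < ((n / d : ℕ) : ℝ) := by exact_mod_cast hm1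
              have h1 := hc2 d h.1
              have h2 : ‖(((Real.sqrt ((n / d : ℕ) : ℝ))⁻¹ : ℝ) : ℂ)‖ = ((n / d : ℕ) : ℝ) ^ (-(1 / 2) : ℝ) := by
                rw [Complex.norm_real, Real.norm_eq_abs, abs_of_nonneg (by positivity),
                  Real.rpow_neg hm0.le, Real.sqrt_eq_rpow]
              have h3 : ((n / d : ℕ) : ℝ) ^ (-(1 / 2) : ℝ) ≤ ((n / d : ℕ) : ℝ) ^ (δ / 2 - 1 / 2) :=
                Real.rpow_le_rpow_of_exponent_le (by exact_mod_cast hm1) (by linarith)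
              rw [h2]
              calc ‖c d‖ * ((n / d : ℕ) : ℝ) ^ (-(1 / 2) : ℝ)
                  ≤ (C * (d : ℝ) ^ (δ / 2 - 1 / 2)) * ((n / d : ℕ) : ℝ) ^ (δ / 2 - 1 / 2) :=
                    mul_le_mul h1 h3 (by positivity) (by positivity)
                _ = C * ((d : ℝ) * ((n / d : ℕ) : ℝ)) ^ (δ / 2 - 1 / 2) := by
                    rw [Real.mul_rpow hd0.le hm0.le]; ring
                _ = C * (n : ℝ) ^ (δ / 2 - 1 / 2) := by
                    rw [← Nat.cast_mul, hdn]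
            · exact hpos
        _ = (n.divisors.card : ℝ) * (C * (n : ℝ) ^ (δ / 2 - 1 / 2)) := by
            rw [Finset.sum_const, nsmul_eq_mul]
        _ ≤ (D * (n : ℝ) ^ (δ / 2)) * (C * (n : ℝ) ^ (δ / 2 - 1 / 2)) :=
            mul_le_mul_of_nonneg_right (hD n (by omega)) (by positivity)
        _ = C * D * ((n : ℝ) ^ (δ / 2) * (n : ℝ) ^ (δ / 2 - 1 / 2)) := by ring
        _ = C * D * (n : ℝ) ^ (δ - 1 / 2) := by
            rw [← Real.rpow_add hn0]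
            congr 2
            ring

lemma A09_harm (M : ℕ) : ∑ n ∈ Finset.Icc 1 M, ((n : ℝ))⁻¹ ≤ 1 + Real.log M := by
  have h := harmonic_le_one_add_log M
  rw [harmonic_eq_sum_Icc] at h
  push_cast at h
  exact h

/-- Proof: induction on `k` with `‖c n‖ ≤ C n^(e'-1/2)` (`dir_mul`, `U6.fm_div`), then
`∑_{n ≤ Y^k} n^(2e'-1) ≤ C Y^e`. -/
theorem P_pow (k : ℕ) {e : ℝ} (he : 0 < e) : ∃ C : ℝ, 0 < C ∧ ∀ Y : ℕ, 1 ≤ Y → ∃ c : ℕ → ℂ,
    (∀ v : ℝ, P Y v ^ k = ∑ n ∈ Finset.Icc 1 (Y ^ k), c n * ei (-(v * Real.log n))) ∧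
    ∑ n ∈ Finset.Icc 1 (Y ^ k), ‖c n‖ ^ 2 ≤ C * (Y : ℝ) ^ e := by
  set δ : ℝ := e / (3 * (k + 1)) with hδ
  have hδ0 : 0 < δ := by positivity
  obtain ⟨C, hC0, hC⟩ := A09_pt k δ hδ0
  refine ⟨C ^ 2 * (1 + 1 / δ), by positivity, fun Y hY => ?_⟩
  obtain ⟨c, hc1, hc2⟩ := hC Y hY
  refine ⟨c, hc1, ?_⟩
  have hY1 : (1:ℝ) ≤ Y := by exact_mod_cast hY
  have hY0 : (0:ℝ) < Y := by linarith
  set M : ℕ := Y ^ k with hM
  have hM1 : 1 ≤ M := Nat.one_le_pow _ _ (by omega)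
  have hM1r : (1:ℝ) ≤ M := by exact_mod_cast hM1
  have hM0 : (0:ℝ) < M := by linarith
  have h1 : ∑ n ∈ Finset.Icc 1 M, ‖c n‖ ^ 2 ≤
      ∑ n ∈ Finset.Icc 1 M, (C ^ 2 * (M : ℝ) ^ (2 * δ)) * ((n : ℝ))⁻¹ := by
    refine Finset.sum_le_sum fun n hn => ?_
    obtain ⟨n1, n2⟩ := Finset.mem_Icc.1 hn
    have hn0 : (0:ℝ) < n := by exact_mod_cast n1
    calc ‖c n‖ ^ 2 ≤ (C * (n : ℝ) ^ (δ - 1 / 2)) ^ 2 := pow_le_pow_left₀ (norm_nonneg _) (hc2 n hn) 2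
      _ = C ^ 2 * ((n : ℝ) ^ (δ - 1 / 2)) ^ 2 := by rw [mul_pow]
      _ = C ^ 2 * ((n : ℝ) ^ (2 * δ) * ((n : ℝ))⁻¹) := by
          have e1 : ((n : ℝ) ^ (δ - 1 / 2)) ^ 2 = (n : ℝ) ^ (2 * δ) * ((n : ℝ))⁻¹ := by
            rw [← Real.rpow_natCast ((n : ℝ) ^ (δ - 1 / 2)) 2, ← Real.rpow_mul hn0.le,
              ← Real.rpow_neg_one, ← Real.rpow_add hn0]
            congr 1
            push_cast
            ring
          rw [e1]
      _ ≤ C ^ 2 * ((M : ℝ) ^ (2 * δ) * ((n : ℝ))⁻¹) := by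
          refine mul_le_mul_of_nonneg_left ?_ (by positivity)
          refine mul_le_mul_of_nonneg_right ?_ (by positivity)
          exact Real.rpow_le_rpow hn0.le (by exact_mod_cast n2) (by positivity)
      _ = _ := by ring
  have h2 : 1 + Real.log M ≤ (1 + 1 / δ) * (M:ℝ) ^ δ := by
    have h3 := Real.log_le_rpow_div hM0.le hδ0
    have h4 : 1 ≤ (M:ℝ) ^ δ := Real.one_le_rpow hM1r hδ0.le
    rw [add_mul, one_mul, div_mul_eq_mul_div, one_mul]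
    linarith
  calc ∑ n ∈ Finset.Icc 1 M, ‖c n‖ ^ 2
      ≤ ∑ n ∈ Finset.Icc 1 M, (C ^ 2 * (M : ℝ) ^ (2 * δ)) * ((n : ℝ))⁻¹ := h1
    _ = (C ^ 2 * (M : ℝ) ^ (2 * δ)) * ∑ n ∈ Finset.Icc 1 M, ((n : ℝ))⁻¹ := by rw [Finset.mul_sum]
    _ ≤ (C ^ 2 * (M : ℝ) ^ (2 * δ)) * ((1 + 1 / δ) * (M:ℝ) ^ δ) :=
        mul_le_mul_of_nonneg_left ((A09_harm M).trans h2) (by positivity)
    _ = C ^ 2 * (1 + 1 / δ) * ((M : ℝ) ^ (2 * δ) * (M:ℝ) ^ δ) := by ring
    _ = C ^ 2 * (1 + 1 / δ) * (Y : ℝ) ^ (k * (2 * δ + δ)) := by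
        have e2 : (M : ℝ) = (Y : ℝ) ^ (k : ℝ) := by
          rw [hM, Real.rpow_natCast]
          push_cast
          rfl
        rw [← Real.rpow_add hM0, e2, ← Real.rpow_mul hY0.le]
    _ ≤ C ^ 2 * (1 + 1 / δ) * (Y : ℝ) ^ e := by
        refine mul_le_mul_of_nonneg_left ?_ (by positivity)
        refine Real.rpow_le_rpow_of_exponent_le hY1 ?_
        have h5 : (k:ℝ) * (2 * δ + δ) = e * (k / (k + 1)) := by
          rw [hδ]; field_simp; ring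
        rw [h5]
        have h6 : (k:ℝ) / (k + 1) ≤ 1 := by
          rw [div_le_one (by positivity)]; linarith
        nlinarith

end OL
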