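import Pool.Agent.Lib.MP_39df77_nt.OL.A05
import Pool.Agent.Lib.MP_39df77_nt.OL.A08
import Pool.Agent.Lib.MP_39df77_nt.OL.A09

/-! mean square of the truncated dual sum over separated points -/

set_option autoImplicit false

open Complex MeasureTheory Set Filter Topology
open scoped Real ComplexConjugate

namespace OL

theorem A10_norm_ei (x : ℝ) : ‖ei x‖ = 1 := by
  unfold ei
  exact Complex.norm_exp_ofReal_mul_I x

theorem A10_ei_add (x y : ℝ) : ei (x + y) = ei x * ei y := by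
  unfold ei
  rw [← Complex.exp_add]
  congr 1
  push_cast
  ring

/-- weighted Cauchy-Schwarz inequality -/
theorem A10_cs {g h : ℝ → ℝ} (hg : Integrable g) (h0 : ∀ x, 0 ≤ g x) (hh : Continuous h) {B : ℝ}
    (hB : ∀ x, |h x| ≤ B) :
    Integrable (fun x => g x * h x ^ 2) ∧
    (∫ x, g x * h x) ^ 2 ≤ (∫ x, g x) * ∫ x, g x * h x ^ 2 := by
  have i1 : Integrable (fun x => g x * h x) := by
    refine Integrable.mul_bdd (c := B) hg hh.aestronglyMeasurable (Eventually.of_forall fun x => ?_)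
    rw [Real.norm_eq_abs]
    exact hB x
  have i2 : Integrable (fun x => g x * h x ^ 2) := by
    refine Integrable.mul_bdd (c := B ^ 2) hg (hh.pow 2).aestronglyMeasurable
      (Eventually.of_forall fun x => ?_)
    rw [Real.norm_eq_abs, abs_pow]
    exact pow_le_pow_left₀ (abs_nonneg _) (hB x) 2
  refine ⟨i2, ?_⟩
  have key : ∀ l : ℝ, 0 ≤ (∫ x, g x) * (l * l) + (-2 * ∫ x, g x * h x) * l +
      ∫ x, g x * h x ^ 2 := by
    intro l
    have h1 : (∫ x, g x) * (l * l) + (-2 * ∫ x, g x * h x) * l + ∫ x, g x * h x ^ 2 =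
        ∫ x, g x * (h x - l) ^ 2 := by
      have h2 : ∀ x, g x * (h x - l) ^ 2 = l * l * g x + (-2 * l) * (g x * h x) + g x * h x ^ 2 := by
        intro x
        ring
      simp only [h2]
      have j2 : Integrable (fun x => l * l * g x) := hg.const_mul _
      have j3 : Integrable (fun x => -2 * l * (g x * h x)) := i1.const_mul _
      have j1 : Integrable (fun x => l * l * g x + -2 * l * (g x * h x)) := j2.add j3
      rw [integral_add j1 i2, integral_add j2 j3, integral_const_mul, integral_const_mul]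
      ring
    rw [h1]
    exact integral_nonneg fun x => mul_nonneg (h0 x) (sq_nonneg _)
  have h3 := discrim_le_zero key
  unfold discrim at h3
  nlinarith

/-- sum of `‖P Y‖^2` over separated points: Hölder, `P_pow`, `mvt_sep` -/
theorem P_sum {k : ℕ} (hk : 1 ≤ k) {e : ℝ} (he : 0 < e) : ∃ C : ℝ, 0 < C ∧
    ∀ (T : ℝ) (Y : ℕ) (S : Finset ℝ) (s : ℝ), 1 ≤ T → 1 ≤ Y → T ≤ (Y : ℝ) ^ k → Sep S → InI S T →
    ∑ t ∈ S, ‖P Y (t - s)‖ ^ 2 ≤ C * (Y : ℝ) ^ e * (Y * (S.card : ℝ) ^ (1 - 1 / (k : ℝ))) := by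
  obtain ⟨C1, hC1, H1⟩ := P_pow k (half_pos he)
  obtain ⟨C2, hC2, H2⟩ := mvt_sep
  have hk0 : (0 : ℝ) < k := by exact_mod_cast hk
  set C4 : ℝ := C2 * 2 * (1 + k / (e / 2)) * C1 with hC4
  have hC4p : 0 < C4 := by positivity
  refine ⟨C4 + 1, by positivity, ?_⟩
  intro T Y S s hT hY hTY hS hI
  have hY1 : (1 : ℝ) ≤ Y := by exact_mod_cast hY
  have hY0 : (0 : ℝ) < Y := by linarith
  rcases S.eq_empty_or_nonempty with hS0 | hS0
  · rw [hS0]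
    simp only [Finset.sum_empty, Finset.card_empty]
    positivity
  have hR : (1 : ℝ) ≤ (S.card : ℝ) := by exact_mod_cast hS0.card_pos
  obtain ⟨c, hc1, hc2⟩ := H1 Y hY
  have hYk : 1 ≤ Y ^ k := Nat.one_le_pow _ _ hY
  have hmv := H2 T S (Y ^ k) (fun n => c n * ei (s * Real.log n)) hT hS hI hYk
  have e1 : ∀ t : ℝ, ∑ n ∈ Finset.Icc 1 (Y ^ k), (c n * ei (s * Real.log n)) *
      ei (-(t * Real.log n)) = P Y (t - s) ^ k := by
    intro t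
    rw [hc1]
    refine Finset.sum_congr rfl fun n _ => ?_
    rw [mul_assoc, ← A10_ei_add]
    congr 2
    ring
  have e2 : ∀ n : ℕ, ‖c n * ei (s * Real.log n)‖ ^ 2 = ‖c n‖ ^ 2 := by
    intro n
    rw [norm_mul, A10_norm_ei, mul_one]
  simp only [e1, e2] at hmv
  have hlog : 1 + Real.log ((Y ^ k : ℕ) : ℝ) ≤ (1 + k / (e / 2)) * (Y : ℝ) ^ (e / 2) := by
    rw [Nat.cast_pow, Real.log_pow]
    have h1 : Real.log Y ≤ (Y : ℝ) ^ (e / 2) / (e / 2) :=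
      Real.log_le_rpow_div hY0.le (half_pos he)
    have h2 : (1 : ℝ) ≤ (Y : ℝ) ^ (e / 2) := Real.one_le_rpow hY1 (half_pos he).le
    have h3 : (k : ℝ) * Real.log Y ≤ k * ((Y : ℝ) ^ (e / 2) / (e / 2)) :=
      mul_le_mul_of_nonneg_left h1 hk0.le
    calc 1 + (k : ℝ) * Real.log Y ≤ (Y : ℝ) ^ (e / 2) + k * ((Y : ℝ) ^ (e / 2) / (e / 2)) := by
          linarith
      _ = (1 + k / (e / 2)) * (Y : ℝ) ^ (e / 2) := by ring
  have hlog0 : 0 ≤ 1 + Real.log ((Y ^ k : ℕ) : ℝ) := by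
    have : 0 ≤ Real.log ((Y ^ k : ℕ) : ℝ) := Real.log_nonneg (by exact_mod_cast hYk)
    linarith
  have hsum : ∑ t ∈ S, (‖P Y (t - s)‖ ^ 2) ^ k ≤ C4 * ((Y : ℝ) ^ k * (Y : ℝ) ^ e) := by
    have h1 : ∑ t ∈ S, (‖P Y (t - s)‖ ^ 2) ^ k = ∑ t ∈ S, ‖P Y (t - s) ^ k‖ ^ 2 := by
      refine Finset.sum_congr rfl fun t _ => ?_
      rw [norm_pow, ← pow_mul, ← pow_mul, mul_comm]
    rw [h1]
    refine hmv.trans ?_
    have hce : (0 : ℝ) ≤ ∑ n ∈ Finset.Icc 1 (Y ^ k), ‖c n‖ ^ 2 :=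
      Finset.sum_nonneg fun n _ => by positivity
    have h4 : T + ((Y ^ k : ℕ) : ℝ) ≤ 2 * (Y : ℝ) ^ k := by
      rw [Nat.cast_pow]
      linarith
    have h5 : 0 ≤ T + ((Y ^ k : ℕ) : ℝ) := by positivity
    calc C2 * (T + ((Y ^ k : ℕ) : ℝ)) * (1 + Real.log ((Y ^ k : ℕ) : ℝ)) *
          ∑ n ∈ Finset.Icc 1 (Y ^ k), ‖c n‖ ^ 2
        ≤ C2 * (2 * (Y : ℝ) ^ k) * ((1 + k / (e / 2)) * (Y : ℝ) ^ (e / 2)) *
          (C1 * (Y : ℝ) ^ (e / 2)) := by gcongr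
      _ = C4 * ((Y : ℝ) ^ k * ((Y : ℝ) ^ (e / 2) * (Y : ℝ) ^ (e / 2))) := by
          rw [hC4]
          ring
      _ = C4 * ((Y : ℝ) ^ k * (Y : ℝ) ^ e) := by
          rw [← Real.rpow_add hY0, add_halves]
  obtain ⟨j, rfl⟩ : ∃ j, k = j + 1 := ⟨k - 1, by omega⟩
  have hhol : (∑ t ∈ S, ‖P Y (t - s)‖ ^ 2) ^ (j + 1) ≤
      (S.card : ℝ) ^ j * ∑ t ∈ S, (‖P Y (t - s)‖ ^ 2) ^ (j + 1) := by
    have h1 := pow_sum_div_card_le_sum_pow (s := S) (f := fun t => ‖P Y (t - s)‖ ^ 2)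
      (fun t _ => by positivity) j
    rw [div_le_iff₀ (by positivity)] at h1
    linarith
  refine le_of_pow_le_pow_left₀ (n := j + 1) (by omega) (by positivity) (hhol.trans ?_)
  have hroot : ((S.card : ℝ) ^ (1 - 1 / ((j + 1 : ℕ) : ℝ))) ^ (j + 1) = (S.card : ℝ) ^ j := by
    rw [← Real.rpow_natCast, ← Real.rpow_mul (by positivity), ← Real.rpow_natCast]
    congr 1
    push_cast
    field_simp
    ring
  have hYe : (Y : ℝ) ^ e ≤ ((Y : ℝ) ^ e) ^ (j + 1) :=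
    le_self_pow₀ (Real.one_le_rpow hY1 he.le) (by omega)
  have hC4e : C4 ≤ (C4 + 1) ^ (j + 1) :=
    (by linarith : C4 ≤ C4 + 1).trans (le_self_pow₀ (by linarith) (by omega))
  calc (S.card : ℝ) ^ j * ∑ t ∈ S, (‖P Y (t - s)‖ ^ 2) ^ (j + 1)
      ≤ (S.card : ℝ) ^ j * (C4 * ((Y : ℝ) ^ (j + 1) * (Y : ℝ) ^ e)) := by gcongr
    _ ≤ (S.card : ℝ) ^ j * ((C4 + 1) ^ (j + 1) * ((Y : ℝ) ^ (j + 1) * ((Y : ℝ) ^ e) ^ (j + 1))) := by
        gcongr
    _ = ((C4 + 1) * (Y : ℝ) ^ e * (Y * (S.card : ℝ) ^ (1 - 1 / ((j + 1 : ℕ) : ℝ)))) ^ (j + 1) := by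
        rw [mul_pow, mul_pow, mul_pow, hroot]
        ring

/-- Proof: `KY_le`, Cauchy-Schwarz in `y`, `P_sum` with `s + y`. -/
theorem KY_sum {a k : ℕ} (ha : 1 ≤ a) (hk : 1 ≤ k) {e : ℝ} (he : 0 < e) : ∃ C : ℝ, 0 < C ∧
    ∀ (T M : ℝ) (Y : ℕ) (S : Finset ℝ) (s : ℝ), 1 ≤ T → 1 ≤ M → 1 ≤ Y → T ≤ (Y : ℝ) ^ k → Sep S → InI S T →
    ∑ t ∈ S, ‖KY a Y M (t - s)‖ ^ 2 ≤ C * (Y : ℝ) ^ e * (M * Y * (S.card : ℝ) ^ (1 - 1 / (k : ℝ))) := by
  obtain ⟨C, hC, H⟩ := P_sum hk he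
  have hg := Gamma_int ha
  set g : ℝ → ℝ := fun y : ℝ => ‖Gamma ((a : ℂ) + y * I)‖ with hgdef
  have hg0 : ∀ y, 0 ≤ g y := fun y => norm_nonneg _
  set G : ℝ := ∫ y, g y with hG
  have hG0 : 0 ≤ G := integral_nonneg hg0
  refine ⟨C * (G ^ 2 + 1), by positivity, ?_⟩
  intro T M Y S s hT hM hY hTY hS hI
  have hM0 : 0 < M := by linarith
  have hcont : ∀ t : ℝ, Continuous fun y : ℝ => ‖P Y (t - s - y)‖ := fun t =>
    ((P_cont Y).comp (continuous_const.sub continuous_id)).norm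
  have hbd : ∀ t : ℝ, ∀ y : ℝ, |‖P Y (t - s - y)‖| ≤ 2 * Real.sqrt Y := by
    intro t y
    rw [abs_norm]
    exact P_le Y _
  have hcs : ∀ t : ℝ, _ := fun t => A10_cs hg hg0 (hcont t) (hbd t)
  set D : ℝ := C * (Y : ℝ) ^ e * (Y * (S.card : ℝ) ^ (1 - 1 / (k : ℝ))) with hD
  have hD0 : 0 ≤ D := by positivity
  have h1 : ∑ t ∈ S, ‖KY a Y M (t - s)‖ ^ 2 ≤
      ∑ t ∈ S, M * G * ∫ y, g y * ‖P Y (t - s - y)‖ ^ 2 := by
    refine Finset.sum_le_sum fun t _ => ?_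
    have h2 := KY_le ha Y hM0 (t - s)
    have h3 : ‖KY a Y M (t - s)‖ ^ 2 ≤
        (Real.sqrt M * ∫ y : ℝ, g y * ‖P Y (t - s - y)‖) ^ 2 :=
      pow_le_pow_left₀ (norm_nonneg _) h2 2
    rw [mul_pow, Real.sq_sqrt hM0.le] at h3
    refine h3.trans ?_
    rw [mul_assoc]
    exact mul_le_mul_of_nonneg_left (hcs t).2 hM0.le
  refine h1.trans ?_
  rw [← Finset.mul_sum, ← integral_finsetSum S fun t _ => (hcs t).1]
  have h4 : ∫ y, ∑ t ∈ S, g y * ‖P Y (t - s - y)‖ ^ 2 ≤ ∫ y, g y * D := by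
    refine integral_mono (integrable_finsetSum S fun t _ => (hcs t).1) (hg.mul_const D) fun y => ?_
    show ∑ t ∈ S, g y * ‖P Y (t - s - y)‖ ^ 2 ≤ g y * D
    rw [← Finset.mul_sum]
    refine mul_le_mul_of_nonneg_left ?_ (hg0 y)
    have := H T Y S (s + y) hT hY hTY hS hI
    simp only [← sub_sub] at this
    exact this
  rw [integral_mul_const] at h4
  calc M * G * ∫ y, ∑ t ∈ S, g y * ‖P Y (t - s - y)‖ ^ 2 ≤ M * G * (G * D) :=
        mul_le_mul_of_nonneg_left h4 (by positivity)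
    _ = G ^ 2 * (M * D) := by ring
    _ ≤ (G ^ 2 + 1) * (M * D) := by
        refine mul_le_mul_of_nonneg_right (by linarith) (by positivity)
    _ = C * (G ^ 2 + 1) * (Y : ℝ) ^ e * (M * Y * (S.card : ℝ) ^ (1 - 1 / (k : ℝ))) := by
        rw [hD]
        ring

end OL
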