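import Pool.Agent.Lib.MP_39df77_nt.OL.A00
import Pool.Agent.Lib.MP_39df77_nt.F4.A

/-! integrals of the exponential sum of the times -/

set_option autoImplicit false

open Complex MeasureTheory Set Filter Topology
open scoped Real ComplexConjugate

namespace OL

lemma a11_norm_ei (x : ℝ) : ‖ei x‖ = 1 := Complex.norm_exp_ofReal_mul_I x

lemma a11_ei_add (x y : ℝ) : ei (x + y) = ei x * ei y := by
  unfold ei; rw [← Complex.exp_add]; congr 1; push_cast; ring

lemma a11_ei_zero : ei 0 = 1 := by unfold ei; simp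

lemma a11_ei_conj (x : ℝ) : (starRingEnd ℂ) (ei x) = ei (-x) := by
  unfold ei
  rw [← Complex.exp_conj]; congr 1; simp

lemma a11_ei_cont : Continuous ei := by unfold ei; fun_prop

lemma a11_ei_int (n : ℤ) : ei (2 * Real.pi * n) = 1 := by
  unfold ei
  rw [show (((2 * Real.pi * n : ℝ)) : ℂ) * I = n * (2 * Real.pi * I) by push_cast; ring]
  exact Complex.exp_int_mul_two_pi_mul_I n

lemma a11_rr_cont (S : Finset ℝ) : Continuous (rr S) := by
  unfold rr
  exact continuous_finset_sum _ fun t _ => a11_ei_cont.comp (by fun_prop)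

lemma a11_norm_rr_le (S : Finset ℝ) (x : ℝ) : ‖rr S x‖ ≤ S.card := by
  unfold rr
  refine le_trans (norm_sum_le _ _) ?_
  simp [a11_norm_ei]

/-- `|rr|^2` expanded -/
lemma a11_rr_sq (S : Finset ℝ) (x : ℝ) : ((‖rr S x‖ ^ 2 : ℝ) : ℂ) = ∑ s ∈ S, ∑ t ∈ S, ei ((s - t) * x) := by
  rw [← Complex.normSq_eq_norm_sq, Complex.normSq_eq_conj_mul_self, mul_comm]
  unfold rr
  rw [map_sum, Finset.sum_mul_sum]
  refine Finset.sum_congr rfl fun s _ => Finset.sum_congr rfl fun t _ => ?_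
  rw [a11_ei_conj, ← a11_ei_add]; congr 1; ring

lemma a11_integrable_exp {T : ℝ} (hT : 0 < T) : Integrable (fun x : ℝ => Real.exp (-(T * |x|))) := by
  have h1 : IntegrableOn (fun v : ℝ => Real.exp (-(T * |v|))) (Ioi 0) := by
    refine (integrableOn_exp_mul_Ioi (a := -T) (by simp [hT]) 0).congr_fun ?_ measurableSet_Ioi
    intro v hv
    simp only [abs_of_pos (show 0 < v from hv)]
    congr 1; ring
  have h2 : IntegrableOn (fun v : ℝ => Real.exp (-(T * |v|))) (Iic 0) := by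
    refine (integrableOn_exp_mul_Iic (a := T) hT 0).congr_fun ?_ measurableSet_Iic
    intro v hv
    simp only [abs_of_nonpos (show v ≤ 0 from hv)]
    congr 1
    ring
  rw [← integrableOn_univ, ← Iic_union_Ioi (a := (0:ℝ))]
  exact h2.union h1

/-- `∫ e^{-T|x|} e^{iux} dx = 2T/(T²+u²)` -/
lemma a11_integral_exp {T : ℝ} (hT : 0 < T) (u : ℝ) :
    ∫ x : ℝ, ((Real.exp (-(T * |x|)) : ℝ) : ℂ) * ei (u * x) = ((2 * T / (T ^ 2 + u ^ 2) : ℝ) : ℂ) := by
  have h := F4.fourier_exp_abs hT (-(u / (2 * Real.pi)))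
  rw [Real.fourier_real_eq_integral_exp_smul] at h
  have e1 : (2 * Real.pi * -(u / (2 * Real.pi))) ^ 2 = u ^ 2 := by
    have := Real.pi_pos
    field_simp
  rw [e1] at h
  rw [← h]
  apply integral_congr_ae
  filter_upwards with x
  rw [smul_eq_mul, mul_comm]
  unfold ei
  have := Real.pi_pos
  congr 1
  · congr 2; push_cast; field_simp
  · push_cast; congr 1; ring

lemma a11_norm_sq_int {T : ℝ} (hT : 0 < T) (S : Finset ℝ) :
    ∫ x : ℝ, ‖rr S x‖ ^ 2 * Real.exp (-(T * |x|)) = ∑ s ∈ S, ∑ t ∈ S, 2 * T / (T ^ 2 + (s - t) ^ 2) := by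
  have hI : ∀ u : ℝ, Integrable (fun x : ℝ => ((Real.exp (-(T * |x|)) : ℝ) : ℂ) * ei (u * x)) := by
    intro u
    apply (a11_integrable_exp hT).ofReal.mul_bdd (c := 1)
    · exact (a11_ei_cont.comp (by fun_prop)).aestronglyMeasurable
    · filter_upwards with x; rw [a11_norm_ei]
  apply Complex.ofReal_injective
  rw [← integral_complex_ofReal]
  push_cast
  have : ∀ x : ℝ, ((‖rr S x‖ : ℂ) ^ 2 * cexp (-(T * |x|))) = ∑ s ∈ S, ∑ t ∈ S,
      ((Real.exp (-(T * |x|)) : ℝ) : ℂ) * ei ((s - t) * x) := by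
    intro x
    have h := a11_rr_sq S x
    push_cast at h
    rw [h, Finset.sum_mul]
    refine Finset.sum_congr rfl fun s _ => ?_
    rw [Finset.sum_mul]
    refine Finset.sum_congr rfl fun t _ => ?_
    push_cast; ring
  simp_rw [this]
  rw [integral_finset_sum _ (fun s _ => integrable_finset_sum _ fun t _ => hI _)]
  refine Finset.sum_congr rfl fun s _ => ?_
  rw [integral_finset_sum _ (fun t _ => hI _)]
  refine Finset.sum_congr rfl fun t _ => ?_
  rw [a11_integral_exp hT]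
  push_cast; ring

/-- `En = ∫ |rr|^4 e^{-2|x|}` -/
lemma a11_En_eq (S : Finset ℝ) : ∫ x : ℝ, ‖rr S x‖ ^ 4 * Real.exp (-(2 * |x|)) = En S := by
  have hI : ∀ u : ℝ, Integrable (fun x : ℝ => ((Real.exp (-(2 * |x|)) : ℝ) : ℂ) * ei (u * x)) := by
    intro u
    apply (a11_integrable_exp (by norm_num : (0 : ℝ) < 2)).ofReal.mul_bdd (c := 1)
    · exact (a11_ei_cont.comp (by fun_prop)).aestronglyMeasurable
    · filter_upwards with x; rw [a11_norm_ei]
  apply Complex.ofReal_injective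
  rw [← integral_complex_ofReal]
  unfold En
  push_cast
  have : ∀ x : ℝ, ((‖rr S x‖ : ℂ) ^ 4 * cexp (-(2 * |x|))) = ∑ t1 ∈ S, ∑ t2 ∈ S, ∑ t3 ∈ S, ∑ t4 ∈ S,
      ((Real.exp (-(2 * |x|)) : ℝ) : ℂ) * ei ((t1 + t2 - t3 - t4) * x) := by
    intro x
    have h := a11_rr_sq S x
    push_cast at h
    rw [show ((‖rr S x‖ : ℂ) ^ 4 * cexp (-(2 * |x|))) = (‖rr S x‖ : ℂ) ^ 2 * (‖rr S x‖ : ℂ) ^ 2 * cexp (-(2 * |x|)) by ring, h]
    rw [Finset.sum_mul_sum, Finset.sum_mul]
    refine Finset.sum_congr rfl fun t1 _ => ?_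
    rw [Finset.sum_mul]
    refine Finset.sum_congr rfl fun t2 _ => ?_
    rw [Finset.sum_mul_sum, Finset.sum_mul]
    refine Finset.sum_congr rfl fun t3 _ => ?_
    rw [Finset.sum_mul]
    refine Finset.sum_congr rfl fun t4 _ => ?_
    rw [show (t1 + t2 - t3 - t4) * x = (t1 - t3) * x + (t2 - t4) * x by ring, a11_ei_add]
    push_cast; ring
  simp_rw [this]
  rw [integral_finset_sum _ (fun _ _ => integrable_finset_sum _ fun _ _ => integrable_finset_sum _ fun _ _ =>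
    integrable_finset_sum _ fun _ _ => hI _)]
  refine Finset.sum_congr rfl fun _ _ => ?_
  rw [integral_finset_sum _ (fun _ _ => integrable_finset_sum _ fun _ _ =>
    integrable_finset_sum _ fun _ _ => hI _)]
  refine Finset.sum_congr rfl fun _ _ => ?_
  rw [integral_finset_sum _ (fun _ _ => integrable_finset_sum _ fun _ _ => hI _)]
  refine Finset.sum_congr rfl fun _ _ => ?_
  rw [integral_finset_sum _ (fun _ _ => hI _)]
  refine Finset.sum_congr rfl fun _ _ => ?_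
  rw [a11_integral_exp (by norm_num)]
  push_cast; ring


lemma a11_rr_integrable (S : Finset ℝ) (j : ℕ) {T : ℝ} (hT : 0 < T) :
    Integrable (fun x : ℝ => ‖rr S x‖ ^ j * Real.exp (-(T * |x|))) := by
  apply (a11_integrable_exp hT).bdd_mul (c := (S.card : ℝ) ^ j)
  · exact ((a11_rr_cont S).norm.pow j).aestronglyMeasurable
  · filter_upwards with x
    rw [Real.norm_of_nonneg (by positivity)]
    exact pow_le_pow_left₀ (norm_nonneg _) (a11_norm_rr_le S x) j

/-- `∫ e^{-2|x|} e^{iux} dx = 4/(4+u²)` (`F4.fourier_exp_abs`) -/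
theorem rr4 (S : Finset ℝ) : Integrable (fun x => ‖rr S x‖ ^ 4 * Real.exp (-(2 * |x|))) ∧
    ∫ x, ‖rr S x‖ ^ 4 * Real.exp (-(2 * |x|)) = En S :=
  ⟨a11_rr_integrable S 4 (by norm_num), a11_En_eq S⟩

theorem rr2_le {S : Finset ℝ} (hS : Sep S) : Integrable (fun x => ‖rr S x‖ ^ 2 * Real.exp (-|x|)) ∧
    ∫ x, ‖rr S x‖ ^ 2 * Real.exp (-|x|) ≤ 16 * S.card := by
  have h1 := a11_rr_integrable S 2 (T := 1) (by norm_num)
  have h2 := a11_norm_sq_int (T := 1) (by norm_num) S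
  simp only [one_mul] at h1 h2
  refine ⟨h1, ?_⟩
  rw [h2]
  calc ∑ s ∈ S, ∑ t ∈ S, 2 * 1 / (1 ^ 2 + (s - t) ^ 2) ≤ ∑ s ∈ S, (16 : ℝ) := by
        apply Finset.sum_le_sum
        intro s _
        have h := sep_sum hS s
        have e : ∀ t : ℝ, 2 * 1 / (1 ^ 2 + (s - t) ^ 2) = 2 * (1 / (1 + (t - s) ^ 2)) := by
          intro t
          rw [show (s - t) ^ 2 = (t - s) ^ 2 by ring]
          ring
        simp_rw [e]
        rw [← Finset.mul_sum]
        linarith
    _ = 16 * S.card := by rw [Finset.sum_const, nsmul_eq_mul]; ring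

theorem En_ge (S : Finset ℝ) : (S.card : ℝ) ^ 2 ≤ En S := by
  unfold En
  have h1 : ∀ s ∈ S, ∀ t ∈ S, (1 : ℝ) ≤ ∑ t3 ∈ S, ∑ t4 ∈ S, 4 / (4 + (s + t - t3 - t4) ^ 2) := by
    intro s hs t ht
    have e1 : (1 : ℝ) = 4 / (4 + (s + t - s - t) ^ 2) := by
      rw [show s + t - s - t = 0 by ring]; norm_num
    rw [e1]
    refine le_trans ?_ (Finset.single_le_sum (f := fun t3 => ∑ t4 ∈ S, 4 / (4 + (s + t - t3 - t4) ^ 2))
      (fun t3 _ => Finset.sum_nonneg fun t4 _ => by positivity) hs)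
    exact Finset.single_le_sum (f := fun t4 => 4 / (4 + (s + t - s - t4) ^ 2)) (fun t4 _ => by positivity) ht
  calc (S.card : ℝ) ^ 2 = ∑ _s ∈ S, ∑ _t ∈ S, (1 : ℝ) := by
        simp only [Finset.sum_const, nsmul_eq_mul, mul_one]; ring
    _ ≤ _ := Finset.sum_le_sum fun s hs => Finset.sum_le_sum fun t ht => h1 s hs t ht

theorem rr_cont (S : Finset ℝ) : Continuous (rr S) := a11_rr_cont S

end OL
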