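import Pool.Agent.Lib.MP_39df77_nt.OL.B01a
import Pool.Agent.Lib.MP_39df77_nt.OL.A11

/-! the cubic trace -/

set_option autoImplicit false

open Complex MeasureTheory Set Filter Topology
open scoped Real ComplexConjugate

namespace OL

theorem B01_int_abs : Integrable (fun x : ℝ => Real.exp (-(1 / 4 * |x|))) := by
  have h1 : IntegrableOn (fun x : ℝ => Real.exp (-(1 / 4 * |x|))) (Ioi 0) := by
    refine (integrableOn_exp_mul_Ioi (a := -(1 / 4 : ℝ)) (by norm_num) 0).congr_fun ?_ measurableSet_Ioi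
    intro x hx
    have hx' : (0 : ℝ) < x := hx
    simp only
    rw [abs_of_pos hx']
    congr 1
    ring
  have h2 : IntegrableOn (fun x : ℝ => Real.exp (-(1 / 4 * |x|))) (Iic 0) := by
    refine (integrableOn_exp_mul_Iic (a := (1 / 4 : ℝ)) (by norm_num) 0).congr_fun ?_ measurableSet_Iic
    intro x hx
    have hx' : x ≤ (0 : ℝ) := hx
    simp only
    rw [abs_of_nonpos hx']
    congr 1
    ring
  have := h2.union h1
  rwa [Iic_union_Ioi, integrableOn_univ] at this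

theorem B01_Om_nonneg (a : ℕ) (x y : ℝ) : 0 ≤ Om a x y := by
  unfold Om
  positivity

theorem B01_Om_le_exp {a : ℕ} (ha : 2 ≤ a) (x y : ℝ) :
    Om a x y ≤ Real.exp (-(1 / 4 * |x|)) * Real.exp (-(1 / 4 * |y|)) := by
  have ha' : (2 : ℝ) ≤ a := by exact_mod_cast ha
  set m : ℝ := 1 + Real.exp x + Real.exp y with hm
  have hx0 := Real.exp_pos x
  have hy0 := Real.exp_pos y
  have hm1 : 1 ≤ m := by linarith
  have hm0 : 0 < m := by linarith
  set l : ℝ := Real.log m with hl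
  have hl0 : 0 ≤ l := Real.log_nonneg hm1
  have hlx : x ≤ l := by
    rw [hl, Real.le_log_iff_exp_le hm0]
    linarith
  have hly : y ≤ l := by
    rw [hl, Real.le_log_iff_exp_le hm0]
    linarith
  have e1 : m ^ (-(3 * (a : ℝ) - 1 / 2)) = Real.exp (l * (-(3 * (a : ℝ) - 1 / 2))) := by
    rw [Real.rpow_def_of_pos hm0]
  unfold Om
  rw [← hm, e1, ← Real.exp_add, ← Real.exp_add]
  apply Real.exp_le_exp.mpr
  rcases le_total 0 x with hx | hx <;> rcases le_total 0 y with hy | hy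
  · rw [abs_of_nonneg hx, abs_of_nonneg hy]
    nlinarith [mul_nonneg (show (0 : ℝ) ≤ a - 2 by linarith) hl0,
      mul_nonneg (show (0 : ℝ) ≤ a + 1 / 2 + 1 / 4 by linarith) (show 0 ≤ l - x by linarith),
      mul_nonneg (show (0 : ℝ) ≤ a + 1 / 2 + 1 / 4 by linarith) (show 0 ≤ l - y by linarith)]
  · rw [abs_of_nonneg hx, abs_of_nonpos hy]
    nlinarith [mul_nonneg (show (0 : ℝ) ≤ a - 2 by linarith) hl0,
      mul_nonneg (show (0 : ℝ) ≤ a + 1 / 2 + 1 / 4 by linarith) (show 0 ≤ l - x by linarith),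
      mul_nonneg (show (0 : ℝ) ≤ a + 1 / 2 - 1 / 4 by linarith) (show 0 ≤ l - y by linarith)]
  · rw [abs_of_nonpos hx, abs_of_nonneg hy]
    nlinarith [mul_nonneg (show (0 : ℝ) ≤ a - 2 by linarith) hl0,
      mul_nonneg (show (0 : ℝ) ≤ a + 1 / 2 - 1 / 4 by linarith) (show 0 ≤ l - x by linarith),
      mul_nonneg (show (0 : ℝ) ≤ a + 1 / 2 + 1 / 4 by linarith) (show 0 ≤ l - y by linarith)]
  · rw [abs_of_nonpos hx, abs_of_nonpos hy]
    nlinarith [mul_nonneg (show (0 : ℝ) ≤ a - 2 by linarith) hl0,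
      mul_nonneg (show (0 : ℝ) ≤ a + 1 / 2 - 1 / 4 by linarith) (show 0 ≤ l - x by linarith),
      mul_nonneg (show (0 : ℝ) ≤ a + 1 / 2 - 1 / 4 by linarith) (show 0 ≤ l - y by linarith)]

theorem B01_cont_Om (a : ℕ) : Continuous (fun p : ℝ × ℝ => Om a p.1 p.2) := by
  unfold Om
  refine Continuous.mul (by fun_prop) ?_
  refine Continuous.rpow_const (by fun_prop) (fun p => Or.inl ?_)
  have h1 := Real.exp_pos p.1
  have h2 := Real.exp_pos p.2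
  positivity

theorem Om_int {a : ℕ} (ha : 2 ≤ a) : Integrable (fun p : ℝ × ℝ => Om a p.1 p.2) := by
  refine Integrable.mono' (B01_int_abs.mul_prod B01_int_abs)
    (B01_cont_Om a).aestronglyMeasurable (Eventually.of_forall fun p => ?_)
  rw [Real.norm_of_nonneg (B01_Om_nonneg a p.1 p.2)]
  exact B01_Om_le_exp ha p.1 p.2

/-- the base of the power in the cubic trace -/
noncomputable def B01z (M : ℝ) (m1 m2 m3 : ℤ) (p : ℝ × ℝ) : ℂ :=
  ((1 + Real.exp p.1 + Real.exp p.2 : ℝ) : ℂ) +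
          2 * π * M * (m1 * Real.exp p.1 + m2 * Real.exp p.2 + m3) * I

theorem B01z_re (M : ℝ) (m1 m2 m3 : ℤ) (p : ℝ × ℝ) :
    (B01z M m1 m2 m3 p).re = 1 + Real.exp p.1 + Real.exp p.2 := by
  have : B01z M m1 m2 m3 p = ((1 + Real.exp p.1 + Real.exp p.2 : ℝ) : ℂ) +
    ((2 * π * M * (m1 * Real.exp p.1 + m2 * Real.exp p.2 + m3) : ℝ) : ℂ) * I := by
    unfold B01z
    push_cast
    ring
  rw [this, add_re, ofReal_re, re_ofReal_mul, I_re, mul_zero, add_zero]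

theorem B01z_im (M : ℝ) (m1 m2 m3 : ℤ) (p : ℝ × ℝ) :
    (B01z M m1 m2 m3 p).im = 2 * π * M * (m1 * Real.exp p.1 + m2 * Real.exp p.2 + m3) := by
  have : B01z M m1 m2 m3 p = ((1 + Real.exp p.1 + Real.exp p.2 : ℝ) : ℂ) +
    ((2 * π * M * (m1 * Real.exp p.1 + m2 * Real.exp p.2 + m3) : ℝ) : ℂ) * I := by
    unfold B01z
    push_cast
    ring
  rw [this, add_im, ofReal_im, im_ofReal_mul, I_im, mul_one, zero_add]

theorem B01z_norm_ge (M : ℝ) (m1 m2 m3 : ℤ) (p : ℝ × ℝ) :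
    1 + Real.exp p.1 + Real.exp p.2 ≤ ‖B01z M m1 m2 m3 p‖ := by
  rw [← B01z_re M m1 m2 m3 p]
  exact (le_abs_self _).trans (abs_re_le_norm _)

theorem B01z_norm_sq (M : ℝ) (m1 m2 m3 : ℤ) (p : ℝ × ℝ) :
    1 + (M * (m1 * Real.exp p.1 + m2 * Real.exp p.2 + m3)) ^ 2 ≤ ‖B01z M m1 m2 m3 p‖ ^ 2 := by
  rw [← normSq_eq_norm_sq, normSq_apply, B01z_re, B01z_im]
  have h1 := Real.exp_pos p.1
  have h2 := Real.exp_pos p.2
  set L := (m1 * Real.exp p.1 + m2 * Real.exp p.2 + m3 : ℝ)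
  have h3 : 1 ≤ (1 + Real.exp p.1 + Real.exp p.2) * (1 + Real.exp p.1 + Real.exp p.2) := by
    nlinarith
  have h4 : (M * L) ^ 2 ≤ 2 * π * M * L * (2 * π * M * L) := by
    have : 2 * π * M * L * (2 * π * M * L) = (2 * π) ^ 2 * (M * L) ^ 2 := by ring
    rw [this]
    have h5 : 1 ≤ (2 * π) ^ 2 := by
      nlinarith [Real.pi_gt_three]
    nlinarith [sq_nonneg (M * L)]
  linarith

theorem B01z_ne (M : ℝ) (m1 m2 m3 : ℤ) (p : ℝ × ℝ) : B01z M m1 m2 m3 p ≠ 0 := by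
  intro h
  have h1 := B01z_re M m1 m2 m3 p
  rw [h, zero_re] at h1
  have := Real.exp_pos p.1
  have := Real.exp_pos p.2
  linarith

theorem B01z_pow_le {a : ℕ} (ha : 2 ≤ a) (M : ℝ) (m1 m2 m3 : ℤ) (p : ℝ × ℝ) :
    ‖B01z M m1 m2 m3 p ^ (-(3 * (a : ℂ) + 3 / 2))‖ ≤
      (1 + Real.exp p.1 + Real.exp p.2) ^ (-(3 * (a : ℝ) - 1 / 2)) /
        (1 + (M * (m1 * Real.exp p.1 + m2 * Real.exp p.2 + m3)) ^ 2) := by
  have ha' : (2 : ℝ) ≤ a := by exact_mod_cast ha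
  have e1 : (-(3 * (a : ℂ) + 3 / 2)) = ((-(3 * (a : ℝ) + 3 / 2) : ℝ) : ℂ) := by
    push_cast
    ring
  rw [e1, norm_cpow_real]
  have hz : 0 < ‖B01z M m1 m2 m3 p‖ := norm_pos_iff.mpr (B01z_ne M m1 m2 m3 p)
  have e2 : (-(3 * (a : ℝ) + 3 / 2)) = -(3 * (a : ℝ) - 1 / 2) + (-2 : ℝ) := by ring
  rw [e2, Real.rpow_add hz, Real.rpow_neg hz.le 2, Real.rpow_two, ← div_eq_mul_inv]
  have h0 : 0 < 1 + Real.exp p.1 + Real.exp p.2 := by
    have h1 := Real.exp_pos p.1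
    have h2 := Real.exp_pos p.2
    linarith
  refine div_le_div₀ (by positivity) ?_ (by positivity) (B01z_norm_sq M m1 m2 m3 p)
  exact Real.rpow_le_rpow_of_nonpos h0 (B01z_norm_ge M m1 m2 m3 p) (by linarith)

theorem B01z_cont (a : ℕ) (M : ℝ) (m1 m2 m3 : ℤ) :
    Continuous (fun p => B01z M m1 m2 m3 p ^ (-(3 * (a : ℂ) + 3 / 2))) := by
  refine Continuous.cpow ?_ continuous_const ?_
  · unfold B01z
    fun_prop
  · intro p
    left
    rw [B01z_re]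
    have h1 := Real.exp_pos p.1
    have h2 := Real.exp_pos p.2
    linarith

theorem B01_ei_add (x y : ℝ) : ei (x + y) = ei x * ei y := by
  unfold ei
  rw [← Complex.exp_add]
  congr 1
  push_cast
  ring

theorem B01_norm_ei (x : ℝ) : ‖ei x‖ = 1 := Complex.norm_exp_ofReal_mul_I x

theorem B01_conj_ei (x : ℝ) : conj (ei x) = ei (-x) := by
  unfold ei
  rw [← Complex.exp_conj]
  congr 1
  rw [map_mul, conj_ofReal, conj_I]
  push_cast
  ring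

/-- the integrand of the triple product -/
noncomputable def B01g (a : ℕ) (M : ℝ) (m1 m2 m3 : ℤ) (p : ℝ × ℝ) : ℂ :=
  (Real.exp (((a : ℝ) + 1 / 2) * (p.1 + p.2)) : ℂ) *
    B01z M m1 m2 m3 p ^ (-(3 * (a : ℂ) + 3 / 2)) * Gamma (3 * (a : ℂ) + 3 / 2)

theorem B01g_norm {a : ℕ} (ha : 2 ≤ a) (M : ℝ) (m1 m2 m3 : ℤ) (p : ℝ × ℝ) :
    ‖B01g a M m1 m2 m3 p‖ ≤ ‖Gamma (3 * (a : ℂ) + 3 / 2)‖ * (Om a p.1 p.2 /
          (1 + (M * (m1 * Real.exp p.1 + m2 * Real.exp p.2 + m3)) ^ 2)) := by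
  unfold B01g Om
  rw [norm_mul, norm_mul, norm_real, Real.norm_of_nonneg (Real.exp_pos _).le, mul_comm, mul_div_assoc]
  exact mul_le_mul_of_nonneg_left (mul_le_mul_of_nonneg_left (B01z_pow_le ha M m1 m2 m3 p)
    (Real.exp_pos _).le) (norm_nonneg _)

theorem B01_div_le {x y : ℝ} (hx : 0 ≤ x) : x / (1 + y ^ 2) ≤ x :=
  div_le_self hx (by nlinarith [sq_nonneg y])

theorem B01g_cont (a : ℕ) (M : ℝ) (m1 m2 m3 : ℤ) : Continuous (B01g a M m1 m2 m3) := by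
  unfold B01g
  exact ((by fun_prop : Continuous fun p : ℝ × ℝ =>
    (Real.exp (((a : ℝ) + 1 / 2) * (p.1 + p.2)) : ℂ)).mul (B01z_cont a M m1 m2 m3)).mul
      continuous_const

theorem B01_ei_cont (α β : ℝ) : Continuous (fun p : ℝ × ℝ => ei (α * p.1 + β * p.2)) := by
  unfold ei
  fun_prop

theorem B01_int {a : ℕ} (ha : 2 ≤ a) (M : ℝ) (m1 m2 m3 : ℤ) (α β : ℝ) :
    Integrable (fun p : ℝ × ℝ => B01g a M m1 m2 m3 p * ei (α * p.1 + β * p.2)) := by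
  refine Integrable.mono' ((Om_int ha).const_mul ‖Gamma (3 * (a : ℂ) + 3 / 2)‖)
    (((B01g_cont a M m1 m2 m3).mul (B01_ei_cont α β)).aestronglyMeasurable)
    (Eventually.of_forall fun p => ?_)
  rw [norm_mul, B01_norm_ei, mul_one]
  exact (B01g_norm ha M m1 m2 m3 p).trans
    (mul_le_mul_of_nonneg_left (B01_div_le (B01_Om_nonneg a p.1 p.2)) (norm_nonneg _))

theorem B01_triple {a : ℕ} (ha : 1 ≤ a) (M α β : ℝ) (m1 m2 m3 : ℤ) :
    Km a M α m1 * Km a M β m2 * Km a M (-α - β) m3 =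
      ∫ p : ℝ × ℝ, B01g a M m1 m2 m3 p * ei (α * p.1 + β * p.2) := by
  rw [Km_triple ha]
  congr 1
  funext p
  unfold B01g B01z
  ring

theorem B01_KY_prod {a : ℕ} (ha : 1 ≤ a) (M : ℝ) (Y : ℕ) (s t u : ℝ) :
    KY a Y M (s - t) * KY a Y M (t - u) * KY a Y M (u - s) =
      (M : ℂ) ^ 3 * ∑ m1 ∈ Zs Y, ∑ m2 ∈ Zs Y, ∑ m3 ∈ Zs Y,
        ∫ p : ℝ × ℝ, B01g a M m1 m2 m3 p * ei ((s - t) * p.1 + (t - u) * p.2) := by
  have e1 : ∀ m1 m2 m3 : ℤ, ∫ p : ℝ × ℝ, B01g a M m1 m2 m3 p * ei ((s - t) * p.1 + (t - u) * p.2) =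
      Km a M (s - t) m1 * (Km a M (t - u) m2 * Km a M (u - s) m3) := by
    intro m1 m2 m3
    rw [← B01_triple ha]
    have : -(s - t) - (t - u) = u - s := by ring
    rw [this, mul_assoc]
  simp only [e1]
  simp only [← Finset.mul_sum, ← Finset.sum_mul]
  unfold KY
  have e2 : ei ((s - t) * Real.log M) * ei ((t - u) * Real.log M) * ei ((u - s) * Real.log M) = 1 := by
    rw [← B01_ei_add, ← B01_ei_add]
    have : (s - t) * Real.log M + (t - u) * Real.log M + (u - s) * Real.log M = 0 := by ring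
    rw [this]
    unfold ei
    simp
  generalize ei ((s - t) * Real.log M) = A1 at e2 ⊢
  generalize ei ((t - u) * Real.log M) = A2 at e2 ⊢
  generalize ei ((u - s) * Real.log M) = A3 at e2 ⊢
  generalize (∑ m ∈ Zs Y, Km a M (s - t) m) = B1
  generalize (∑ m ∈ Zs Y, Km a M (t - u) m) = B2
  generalize (∑ m ∈ Zs Y, Km a M (u - s) m) = B3
  calc (M : ℂ) * A1 * B1 * ((M : ℂ) * A2 * B2) * ((M : ℂ) * A3 * B3)
      = (M : ℂ) ^ 3 * (B1 * (B2 * B3)) * (A1 * A2 * A3) := by ring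
    _ = _ := by rw [e2, mul_one]

theorem B01_sum_ei (S : Finset ℝ) (p : ℝ × ℝ) :
    ∑ s ∈ S, ∑ t ∈ S, ∑ u ∈ S, ei ((s - t) * p.1 + (t - u) * p.2) =
      rr S p.1 * (rr S (p.2 - p.1) * conj (rr S p.2)) := by
  have e1 : ∀ s t u : ℝ, ei ((s - t) * p.1 + (t - u) * p.2) =
      ei (s * p.1) * (ei (t * (p.2 - p.1)) * conj (ei (u * p.2))) := by
    intro s t u
    rw [B01_conj_ei, ← B01_ei_add, ← B01_ei_add]
    congr 1
    ring
  simp only [e1, ← Finset.mul_sum]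
  rw [← Finset.sum_mul, ← Finset.sum_mul, ← map_sum]
  rfl

/-- Proof: `Km_triple` with `α = s - t`, `β = t - u`; the phases `ei (τ log M)` cancel; the sum over `s, t, u` inside the
integral is `rr(x) rr(y-x) conj rr(y)`; `‖z^(-(3a+3/2))‖ ≤ (1+e^x+e^y)^(-(3a-1/2)) / (1 + (M L)²)` since
`|z| ≥ 1+e^x+e^y` and `|z|² ≥ 1 + (M L)²`. -/
theorem tr3 {a : ℕ} (ha : 2 ≤ a) : ∃ C : ℝ, 0 < C ∧ ∀ (M : ℝ) (Y : ℕ) (S : Finset ℝ), 1 ≤ M →
    ‖∑ s ∈ S, ∑ t ∈ S, ∑ u ∈ S, KY a Y M (s - t) * KY a Y M (t - u) * KY a Y M (u - s)‖ ≤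
      C * M ^ 3 * ∑ m1 ∈ Zs Y, ∑ m2 ∈ Zs Y, ∑ m3 ∈ Zs Y, ∫ p : ℝ × ℝ,
        ‖rr S p.1‖ * ‖rr S (p.2 - p.1)‖ * ‖rr S p.2‖ * Om a p.1 p.2 /
          (1 + (M * (m1 * Real.exp p.1 + m2 * Real.exp p.2 + m3)) ^ 2) := by
  set G : ℝ := ‖Gamma (3 * (a : ℂ) + 3 / 2)‖ with hG
  refine ⟨G + 1, by positivity, fun M Y S hM => ?_⟩
  have ha1 : 1 ≤ a := by omega
  have hM0 : 0 ≤ M := by linarith
  -- the left side
  have hL : ∑ s ∈ S, ∑ t ∈ S, ∑ u ∈ S, KY a Y M (s - t) * KY a Y M (t - u) * KY a Y M (u - s) =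
      (M : ℂ) ^ 3 * ∑ m1 ∈ Zs Y, ∑ m2 ∈ Zs Y, ∑ m3 ∈ Zs Y,
        ∫ p : ℝ × ℝ, B01g a M m1 m2 m3 p * (rr S p.1 * (rr S (p.2 - p.1) * conj (rr S p.2))) := by
    have h1 : ∀ m1 m2 m3 : ℤ,
        ∫ p : ℝ × ℝ, B01g a M m1 m2 m3 p * (rr S p.1 * (rr S (p.2 - p.1) * conj (rr S p.2))) =
        ∑ s ∈ S, ∑ t ∈ S, ∑ u ∈ S,
          ∫ p : ℝ × ℝ, B01g a M m1 m2 m3 p * ei ((s - t) * p.1 + (t - u) * p.2) := by
      intro m1 m2 m3
      have : (fun p : ℝ × ℝ => B01g a M m1 m2 m3 p * (rr S p.1 * (rr S (p.2 - p.1) * conj (rr S p.2))))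
          = fun p => ∑ s ∈ S, ∑ t ∈ S, ∑ u ∈ S,
            B01g a M m1 m2 m3 p * ei ((s - t) * p.1 + (t - u) * p.2) := by
        funext p
        rw [← B01_sum_ei]
        simp only [Finset.mul_sum]
      rw [this, integral_finsetSum _ fun s _ => integrable_finsetSum _ fun t _ =>
        integrable_finsetSum _ fun u _ => B01_int ha M m1 m2 m3 _ _]
      refine Finset.sum_congr rfl fun s _ => ?_
      rw [integral_finsetSum _ fun t _ =>
        integrable_finsetSum _ fun u _ => B01_int ha M m1 m2 m3 _ _]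
      refine Finset.sum_congr rfl fun t _ => ?_
      rw [integral_finsetSum _ fun u _ => B01_int ha M m1 m2 m3 _ _]
    simp only [h1, B01_KY_prod ha1]
    simp only [← Finset.mul_sum]
    congr 1
    -- swap the sums
    have sw : ∀ (F : ℝ → ℝ → ℝ → ℤ → ℤ → ℤ → ℂ),
        ∑ s ∈ S, ∑ t ∈ S, ∑ u ∈ S, ∑ m1 ∈ Zs Y, ∑ m2 ∈ Zs Y, ∑ m3 ∈ Zs Y, F s t u m1 m2 m3 =
        ∑ m1 ∈ Zs Y, ∑ m2 ∈ Zs Y, ∑ m3 ∈ Zs Y, ∑ s ∈ S, ∑ t ∈ S, ∑ u ∈ S, F s t u m1 m2 m3 := by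
      intro F
      have a1 : ∀ (F : ℝ → ℝ → ℝ → ℤ → ℂ),
          ∑ s ∈ S, ∑ t ∈ S, ∑ u ∈ S, ∑ m ∈ Zs Y, F s t u m =
          ∑ m ∈ Zs Y, ∑ s ∈ S, ∑ t ∈ S, ∑ u ∈ S, F s t u m := by
        intro F
        symm
        rw [Finset.sum_comm]
        refine Finset.sum_congr rfl fun s _ => ?_
        rw [Finset.sum_comm]
        refine Finset.sum_congr rfl fun t _ => ?_
        rw [Finset.sum_comm]
      rw [a1]
      refine Finset.sum_congr rfl fun m1 _ => ?_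
      rw [a1]
      refine Finset.sum_congr rfl fun m2 _ => ?_
      rw [a1]
    exact sw _
  rw [hL, norm_mul, norm_pow, norm_real, Real.norm_of_nonneg hM0]
  have hb : ∀ m1 m2 m3 : ℤ,
      ‖∫ p : ℝ × ℝ, B01g a M m1 m2 m3 p * (rr S p.1 * (rr S (p.2 - p.1) * conj (rr S p.2)))‖ ≤
      (G + 1) * ∫ p : ℝ × ℝ,
        ‖rr S p.1‖ * ‖rr S (p.2 - p.1)‖ * ‖rr S p.2‖ * Om a p.1 p.2 /
          (1 + (M * (m1 * Real.exp p.1 + m2 * Real.exp p.2 + m3)) ^ 2) := by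
    intro m1 m2 m3
    refine (norm_integral_le_integral_norm _).trans ?_
    rw [← integral_const_mul]
    have hrr : ∀ x, ‖rr S x‖ ≤ S.card := by
      intro x
      unfold rr
      refine (norm_sum_le _ _).trans ?_
      simp [B01_norm_ei]
    have hrc := rr_cont S
    refine integral_mono_of_nonneg (Eventually.of_forall fun p => norm_nonneg _) ?_
      (Eventually.of_forall fun p => ?_)
    · refine Integrable.const_mul ?_ _
      refine Integrable.mono' ((Om_int ha).const_mul ((S.card : ℝ) * S.card * S.card)) ?_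
        (Eventually.of_forall fun p => ?_)
      · refine Continuous.aestronglyMeasurable ?_
        refine Continuous.div ?_ (by fun_prop) ?_
        · exact (((hrc.comp continuous_fst).norm.mul
            (hrc.comp (continuous_snd.sub continuous_fst)).norm).mul
            (hrc.comp continuous_snd).norm).mul (B01_cont_Om a)
        · intro p
          positivity
      · have h0 : 0 ≤ ‖rr S p.1‖ * ‖rr S (p.2 - p.1)‖ * ‖rr S p.2‖ * Om a p.1 p.2 :=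
          mul_nonneg (by positivity) (B01_Om_nonneg a p.1 p.2)
        rw [Real.norm_of_nonneg (div_nonneg h0 (by positivity))]
        refine (B01_div_le h0).trans ?_
        refine mul_le_mul_of_nonneg_right ?_ (B01_Om_nonneg a p.1 p.2)
        exact mul_le_mul (mul_le_mul (hrr _) (hrr _) (norm_nonneg _) (by positivity)) (hrr _)
          (norm_nonneg _) (by positivity)
    · simp only
      rw [norm_mul, norm_mul, norm_mul, RCLike.norm_conj]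
      have h1 := B01g_norm ha M m1 m2 m3 p
      have h2 : 0 ≤ Om a p.1 p.2 / (1 + (M * (m1 * Real.exp p.1 + m2 * Real.exp p.2 + m3)) ^ 2) :=
        div_nonneg (B01_Om_nonneg a p.1 p.2) (by positivity)
      calc ‖B01g a M m1 m2 m3 p‖ * (‖rr S p.1‖ * (‖rr S (p.2 - p.1)‖ * ‖rr S p.2‖))
          ≤ ((G + 1) * (Om a p.1 p.2 /
            (1 + (M * (m1 * Real.exp p.1 + m2 * Real.exp p.2 + m3)) ^ 2))) *
            (‖rr S p.1‖ * (‖rr S (p.2 - p.1)‖ * ‖rr S p.2‖)) := by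
              refine mul_le_mul_of_nonneg_right (h1.trans ?_) (by positivity)
              exact mul_le_mul_of_nonneg_right (by linarith) h2
        _ = _ := by ring
  have h3 : ‖∑ m1 ∈ Zs Y, ∑ m2 ∈ Zs Y, ∑ m3 ∈ Zs Y,
        ∫ p : ℝ × ℝ, B01g a M m1 m2 m3 p * (rr S p.1 * (rr S (p.2 - p.1) * conj (rr S p.2)))‖ ≤
      (G + 1) * ∑ m1 ∈ Zs Y, ∑ m2 ∈ Zs Y, ∑ m3 ∈ Zs Y, ∫ p : ℝ × ℝ,
        ‖rr S p.1‖ * ‖rr S (p.2 - p.1)‖ * ‖rr S p.2‖ * Om a p.1 p.2 /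
          (1 + (M * (m1 * Real.exp p.1 + m2 * Real.exp p.2 + m3)) ^ 2) := by
    simp only [Finset.mul_sum]
    refine (norm_sum_le _ _).trans (Finset.sum_le_sum fun m1 _ => ?_)
    refine (norm_sum_le _ _).trans (Finset.sum_le_sum fun m2 _ => ?_)
    refine (norm_sum_le _ _).trans (Finset.sum_le_sum fun m3 _ => ?_)
    exact hb m1 m2 m3
  calc M ^ 3 * ‖∑ m1 ∈ Zs Y, ∑ m2 ∈ Zs Y, ∑ m3 ∈ Zs Y,
        ∫ p : ℝ × ℝ, B01g a M m1 m2 m3 p * (rr S p.1 * (rr S (p.2 - p.1) * conj (rr S p.2)))‖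
      ≤ M ^ 3 * ((G + 1) * ∑ m1 ∈ Zs Y, ∑ m2 ∈ Zs Y, ∑ m3 ∈ Zs Y, ∫ p : ℝ × ℝ,
        ‖rr S p.1‖ * ‖rr S (p.2 - p.1)‖ * ‖rr S p.2‖ * Om a p.1 p.2 /
          (1 + (M * (m1 * Real.exp p.1 + m2 * Real.exp p.2 + m3)) ^ 2)) :=
        mul_le_mul_of_nonneg_left h3 (by positivity)
    _ = _ := by ring

end OL
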