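import Pool.Agent.Lib.MP_39df77_nt.OL.A01

/-! product of three Poisson coefficients as a double integral -/

set_option autoImplicit false

open Complex MeasureTheory Set Filter Topology
open scoped Real ComplexConjugate

namespace OL

theorem b01a_img : Real.exp '' univ = Ioi (0 : ℝ) := by
  rw [image_univ, Real.range_exp]

theorem b01a_cv (g : ℝ → ℂ) :
    ∫ u in Ioi (0 : ℝ), g u = ∫ x : ℝ, ((Real.exp x : ℝ) : ℂ) * g (Real.exp x) := by
  rw [← b01a_img, integral_image_eq_integral_abs_deriv_smul MeasurableSet.univ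
    (f' := Real.exp) (fun x _ => (Real.hasDerivAt_exp x).hasDerivWithinAt)
    Real.exp_injective.injOn, setIntegral_univ]
  congr 1
  ext x
  rw [abs_of_pos (Real.exp_pos x), Complex.real_smul]

theorem b01a_cvi (g : ℝ → ℂ) : IntegrableOn g (Ioi (0 : ℝ)) ↔
    Integrable (fun x : ℝ => ((Real.exp x : ℝ) : ℂ) * g (Real.exp x)) := by
  rw [← b01a_img, integrableOn_image_iff_integrableOn_abs_deriv_smul MeasurableSet.univ
    (f' := Real.exp) (fun x _ => (Real.hasDerivAt_exp x).hasDerivWithinAt)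
    Real.exp_injective.injOn, integrableOn_univ]
  have e : (fun x : ℝ => |Real.exp x| • g (Real.exp x)) =
      fun x : ℝ => ((Real.exp x : ℝ) : ℂ) * g (Real.exp x) := by
    ext x
    rw [abs_of_pos (Real.exp_pos x), Complex.real_smul]
  rw [e]

theorem b01a_cpow (x : ℝ) (w : ℂ) : ((Real.exp x : ℝ) : ℂ) ^ w = cexp (x * w) := by
  rw [Complex.cpow_def_of_ne_zero (by exact_mod_cast (Real.exp_pos x).ne'),
    ← Complex.ofReal_log (Real.exp_pos x).le, Real.log_exp]

/-- the integrand in logarithmic coordinates -/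
noncomputable def b01aH (s W : ℂ) (x : ℝ) : ℂ := cexp (s * x - W * (Real.exp x : ℝ))

theorem b01aH_eq (s W : ℂ) (x : ℝ) : b01aH s W x = ((Real.exp x : ℝ) : ℂ) *
    (((Real.exp x : ℝ) : ℂ) ^ (s - 1) * cexp (-(W * (Real.exp x : ℝ)))) := by
  rw [b01a_cpow, b01aH]
  nth_rewrite 2 [Complex.ofReal_exp]
  rw [← Complex.exp_add, ← Complex.exp_add]
  congr 1
  ring

theorem b01aH_int {s W : ℂ} (hs : 0 < s.re) (hW : 0 < W.re) : Integrable (b01aH s W) := by
  have h := (b01a_cvi _).1 (S6.exp_int_intg hs hW)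
  refine h.congr (Filter.Eventually.of_forall fun x => ?_)
  exact (b01aH_eq s W x).symm

theorem b01aH_val {s W : ℂ} (hs : 0 < s.re) (hW : 0 < W.re) :
    ∫ x : ℝ, b01aH s W x = W ^ (-s) * Gamma s := by
  rw [← S6.exp_int hs hW, b01a_cv]
  congr 1
  ext x
  exact b01aH_eq s W x

theorem b01aH_cont (s W : ℂ) : Continuous (b01aH s W) := by
  unfold b01aH
  fun_prop

/-- the triple integral -/
theorem b01a_triple {s1 s2 s3 W1 W2 W3 : ℂ} (h1 : 0 < s1.re) (h2 : 0 < s2.re) (h3 : 0 < s3.re)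
    (k1 : 0 < W1.re) (k2 : 0 < W2.re) (k3 : 0 < W3.re) :
    (∫ x : ℝ, b01aH s1 W1 x) * (∫ x : ℝ, b01aH s2 W2 x) * (∫ x : ℝ, b01aH s3 W3 x) =
      ∫ p : ℝ × ℝ, ∫ x : ℝ, b01aH s1 W1 (p.1 + x) * b01aH s2 W2 (p.2 + x) * b01aH s3 W3 x := by
  have i1 := b01aH_int h1 k1
  have i2 := b01aH_int h2 k2
  have i3 := b01aH_int h3 k3
  have hint : Integrable (Function.uncurry (fun (p : ℝ × ℝ) (x : ℝ) =>
      b01aH s1 W1 (p.1 + x) * b01aH s2 W2 (p.2 + x) * b01aH s3 W3 x))
      ((volume : Measure (ℝ × ℝ)).prod (volume : Measure ℝ)) := by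
    rw [integrable_prod_iff']
    · constructor
      · refine Filter.Eventually.of_forall fun x => ?_
        have h := ((i1.comp_add_right x).mul_prod (i2.comp_add_right x)).mul_const
          (b01aH s3 W3 x)
        exact h
      · have e : (fun x : ℝ => ∫ p : ℝ × ℝ, ‖Function.uncurry (fun (p : ℝ × ℝ) (x : ℝ) =>
            b01aH s1 W1 (p.1 + x) * b01aH s2 W2 (p.2 + x) * b01aH s3 W3 x) (p, x)‖) =
            fun x : ℝ => ((∫ y : ℝ, ‖b01aH s1 W1 y‖) * ∫ y : ℝ, ‖b01aH s2 W2 y‖) *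
              ‖b01aH s3 W3 x‖ := by
          ext x
          simp only [Function.uncurry, norm_mul]
          rw [integral_mul_const]
          congr 1
          rw [← integral_add_right_eq_self (fun y : ℝ => ‖b01aH s1 W1 y‖) x,
            ← integral_add_right_eq_self (fun y : ℝ => ‖b01aH s2 W2 y‖) x]
          exact integral_prod_mul (fun y : ℝ => ‖b01aH s1 W1 (y + x)‖)
            (fun y : ℝ => ‖b01aH s2 W2 (y + x)‖)
        rw [e]
        exact i3.norm.const_mul _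
    · apply Continuous.aestronglyMeasurable
      have c1 := b01aH_cont s1 W1
      have c2 := b01aH_cont s2 W2
      have c3 := b01aH_cont s3 W3
      unfold Function.uncurry
      fun_prop
  rw [integral_integral_swap hint]
  have e : ∀ x : ℝ, (∫ p : ℝ × ℝ, b01aH s1 W1 (p.1 + x) * b01aH s2 W2 (p.2 + x) *
      b01aH s3 W3 x) = ((∫ y : ℝ, b01aH s1 W1 y) * ∫ y : ℝ, b01aH s2 W2 y) * b01aH s3 W3 x := by
    intro x
    rw [integral_mul_const]
    congr 1
    rw [← integral_add_right_eq_self (fun y : ℝ => b01aH s1 W1 y) x,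
      ← integral_add_right_eq_self (fun y : ℝ => b01aH s2 W2 y) x]
    exact integral_prod_mul (fun y : ℝ => b01aH s1 W1 (y + x))
      (fun y : ℝ => b01aH s2 W2 (y + x))
  simp only [e]
  rw [integral_const_mul]

/-- Proof: `u = e^x`: `Km a M τ m = ∫ e^{(a+1/2)x} e^{-(1+2πimM)e^x} e^{iτx} dx`; the triple integral over `ℝ³`,
shift `x1 → x1 + x3`, `x2 → x2 + x3`, and integrate over `x3` first: `∫ e^{(3a+3/2)x} e^{-z e^x} dx = z^{-(3a+3/2)} Γ(3a+3/2)`
(`S6.exp_int`), `z = 1 + e^{x1} + e^{x2} + 2πiM(m1 e^{x1} + m2 e^{x2} + m3)`. -/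
theorem Km_triple {a : ℕ} (ha : 1 ≤ a) (M α β : ℝ) (m1 m2 m3 : ℤ) :
    Km a M α m1 * Km a M β m2 * Km a M (-α - β) m3 =
      ∫ p : ℝ × ℝ, (Real.exp (((a : ℝ) + 1 / 2) * (p.1 + p.2)) : ℂ) * ei (α * p.1 + β * p.2) *
        (((1 + Real.exp p.1 + Real.exp p.2 : ℝ) : ℂ) +
          2 * π * M * (m1 * Real.exp p.1 + m2 * Real.exp p.2 + m3) * I) ^ (-(3 * (a : ℂ) + 3 / 2)) *
        Gamma (3 * (a : ℂ) + 3 / 2) := by
  have hre : ∀ τ : ℝ, 0 < (((a : ℂ) + 1 / 2 + τ * I)).re := by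
    intro τ
    have : (((a : ℂ) + 1 / 2 + τ * I)).re = (a : ℝ) + 1 / 2 := by simp
    rw [this]
    positivity
  have hW : ∀ m : ℤ, 0 < ((1 : ℂ) + 2 * π * m * M * I).re := by
    intro m
    have : ((1 : ℂ) + 2 * π * m * M * I).re = 1 := by simp
    rw [this]
    norm_num
  have hKm : ∀ (τ : ℝ) (m : ℤ), Km a M τ m =
      ∫ x : ℝ, b01aH ((a : ℂ) + 1 / 2 + τ * I) ((1 : ℂ) + 2 * π * m * M * I) x := by
    intro τ m
    rw [Km_eq, b01aH_val (hre τ) (hW m)]
  rw [hKm, hKm, hKm, b01a_triple (hre _) (hre _) (hre _) (hW _) (hW _) (hW _)]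
  congr 1
  ext p
  set z : ℂ := (((1 + Real.exp p.1 + Real.exp p.2 : ℝ) : ℂ) +
          2 * π * M * (m1 * Real.exp p.1 + m2 * Real.exp p.2 + m3) * I) with hz
  have hzre : 0 < z.re := by
    have : z.re = 1 + Real.exp p.1 + Real.exp p.2 := by
      rw [hz]
      simp [Complex.exp_ofReal_re]
    rw [this]
    positivity
  have hsre : 0 < (3 * (a : ℂ) + 3 / 2).re := by
    have : (3 * (a : ℂ) + 3 / 2).re = 3 * (a : ℝ) + 3 / 2 := by
      simp
    rw [this]
    positivity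
  rw [mul_assoc _ (z ^ _) _, ← b01aH_val hsre hzre, ← integral_const_mul]
  congr 1
  ext x
  have e0 : ((Real.exp (((a : ℝ) + 1 / 2) * (p.1 + p.2)) : ℝ) : ℂ) =
      cexp (((a : ℂ) + 1 / 2) * (p.1 + p.2)) := by
    push_cast
    rfl
  unfold b01aH ei
  rw [e0, ← Complex.exp_add, ← Complex.exp_add, ← Complex.exp_add, ← Complex.exp_add]
  congr 1
  rw [hz, Real.exp_add, Real.exp_add]
  push_cast
  ring

end OL
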