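import Pool.Agent.Lib.MP_39df77_nt.OL.B02a
import Pool.Agent.Lib.MP_39df77_nt.OL.B01

/-! the first factor -/

set_option autoImplicit false

open Complex MeasureTheory Set Filter Topology
open scoped Real ComplexConjugate

namespace OL

/-- pointwise bound of the weight -/
private theorem B02_Om {a : ℕ} (ha : 6 ≤ a) (x r : ℝ) :
    Om a x (x + r) ≤ Real.exp (-|r|) * (Real.exp x * (1 + Real.exp x) ^ (-4 : ℝ)) := by
  have ha' : (6 : ℝ) ≤ a := by exact_mod_cast ha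
  have hX := Real.exp_pos x
  have hY := Real.exp_pos (x + r)
  obtain ⟨l, hl⟩ : ∃ l, l = Real.log (1 + Real.exp x + Real.exp (x + r)) := ⟨_, rfl⟩
  obtain ⟨k, hk⟩ : ∃ k, k = Real.log (1 + Real.exp x) := ⟨_, rfl⟩
  have hx : x ≤ l := by
    rw [hl]
    calc x = Real.log (Real.exp x) := (Real.log_exp x).symm
      _ ≤ _ := Real.log_le_log hX (by linarith)
  have hy : x + r ≤ l := by
    rw [hl]
    calc x + r = Real.log (Real.exp (x + r)) := (Real.log_exp _).symm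
      _ ≤ _ := Real.log_le_log hY (by linarith)
  have hkl : k ≤ l := by
    rw [hl, hk]
    exact Real.log_le_log (by linarith) (by linarith)
  have hl0 : 0 ≤ l := by
    rw [hl]
    exact Real.log_nonneg (by linarith)
  unfold Om
  rw [Real.rpow_def_of_pos (by linarith : (0 : ℝ) < 1 + Real.exp x + Real.exp (x + r)),
    Real.rpow_def_of_pos (by linarith : (0 : ℝ) < 1 + Real.exp x), ← hl, ← hk, ← Real.exp_add,
    ← Real.exp_add, ← Real.exp_add, Real.exp_le_exp]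
  rcases abs_cases r with ⟨h1, _⟩ | ⟨h1, _⟩
  · rw [h1]
    have e1 : ((a : ℝ) - 3 / 2) * x ≤ ((a : ℝ) - 3 / 2) * l :=
      mul_le_mul_of_nonneg_left hx (by linarith)
    have e2 : ((a : ℝ) + 3 / 2) * (x + r) ≤ ((a : ℝ) + 3 / 2) * l :=
      mul_le_mul_of_nonneg_left hy (by linarith)
    have e3 : (0 : ℝ) ≤ ((a : ℝ) - 9 / 2) * l := mul_nonneg (by linarith) hl0
    nlinarith
  · rw [h1]
    have e1 : ((a : ℝ) + 1 / 2) * x ≤ ((a : ℝ) + 1 / 2) * l :=
      mul_le_mul_of_nonneg_left hx (by linarith)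
    have e2 : ((a : ℝ) - 1 / 2) * (x + r) ≤ ((a : ℝ) - 1 / 2) * l :=
      mul_le_mul_of_nonneg_left hy (by linarith)
    have e3 : (0 : ℝ) ≤ ((a : ℝ) - 9 / 2) * l := mul_nonneg (by linarith) hl0
    nlinarith

private theorem B02_wint : Integrable (fun x : ℝ => Real.exp x * (1 + Real.exp x) ^ (-4 : ℝ)) := by
  have h1 := (int_exp_integrable (fun v => (1 + v) ^ (-4 : ℝ))).2 ?_
  · exact h1
  · have h2 : IntegrableOn (fun v : ℝ => (v + 1) ^ (-4 : ℝ)) (Ioi 0) :=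
      integrableOn_add_rpow_Ioi_of_lt (by norm_num) (by norm_num)
    refine h2.congr_fun (fun v _ => ?_) measurableSet_Ioi
    simp only [add_comm]

/-- the bound for one triple -/
private theorem B02_one {a : ℕ} (ha : 6 ≤ a) {C : ℝ} (hC : 0 < C)
    (hone : ∀ M q m : ℝ, 1 ≤ M → 1 ≤ |m| →
      ∫ x : ℝ, Real.exp x * (1 + Real.exp x) ^ (-4 : ℝ) / (1 + (M * (q * Real.exp x + m)) ^ 2) ≤
        C / (M * |m|)) {M : ℝ} (hM : 1 ≤ M) {S : Finset ℝ} (hS : Sep S) (m1 m2 m3 : ℤ)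
    (hm : m3 ≠ 0) :
    ∫ p : ℝ × ℝ, ‖rr S (p.2 - p.1)‖ ^ 2 * Om a p.1 p.2 /
          (1 + (M * (m1 * Real.exp p.1 + m2 * Real.exp p.2 + m3)) ^ 2) ≤
      16 * S.card * (C / (M * |(m3 : ℝ)|)) := by
  have hm3 : (1 : ℝ) ≤ |(m3 : ℝ)| := by
    have h1 : (1 : ℤ) ≤ |m3| := Int.one_le_abs hm
    have h2 : ((1 : ℤ) : ℝ) ≤ ((|m3| : ℤ) : ℝ) := by exact_mod_cast h1
    rw [Int.cast_abs] at h2
    simpa using h2
  obtain ⟨hri, hrr⟩ := rr2_le hS
  -- the substitution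
  have hsub : ∫ p : ℝ × ℝ, ‖rr S (p.2 - p.1)‖ ^ 2 * Om a p.1 p.2 /
          (1 + (M * (m1 * Real.exp p.1 + m2 * Real.exp p.2 + m3)) ^ 2) =
      ∫ z : ℝ × ℝ, ‖rr S z.2‖ ^ 2 * Om a z.1 (z.1 + z.2) /
          (1 + (M * (m1 * Real.exp z.1 + m2 * Real.exp (z.1 + z.2) + m3)) ^ 2) := by
    have hmp : MeasurePreserving (MeasurableEquiv.shearAddRight ℝ)
        (volume.prod volume) (volume.prod volume) :=
      measurePreserving_prod_add (volume : Measure ℝ) volume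
    have h1 := hmp.integral_comp' (fun p : ℝ × ℝ => ‖rr S (p.2 - p.1)‖ ^ 2 * Om a p.1 p.2 /
          (1 + (M * (m1 * Real.exp p.1 + m2 * Real.exp p.2 + m3)) ^ 2))
    rw [Measure.volume_eq_prod, ← h1]
    refine integral_congr_ae (Eventually.of_forall fun z => ?_)
    show ‖rr S (z.1 + z.2 - z.1)‖ ^ 2 * Om a z.1 (z.1 + z.2) / _ = _
    rw [add_sub_cancel_left]
    rfl
  rw [hsub]
  -- the majorant
  obtain ⟨G, hG⟩ : ∃ G : ℝ × ℝ → ℝ, G = fun z => Real.exp z.1 * (1 + Real.exp z.1) ^ (-4 : ℝ) /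
      (1 + (M * ((m1 + m2 * Real.exp z.2) * Real.exp z.1 + m3)) ^ 2) *
        (‖rr S z.2‖ ^ 2 * Real.exp (-|z.2|)) := ⟨_, rfl⟩
  have hden : ∀ t : ℝ, 1 ≤ 1 + t ^ 2 := fun t => by nlinarith [sq_nonneg t]
  have hGint : Integrable G (volume.prod volume) := by
    have h1 := B02_wint.mul_prod hri
    refine h1.mono' ?_ (Eventually.of_forall fun z => ?_)
    · rw [hG]
      apply AEStronglyMeasurable.mul
      · apply Continuous.aestronglyMeasurable
        refine Continuous.div ?_ ?_ ?_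
        · refine (Real.continuous_exp.comp continuous_fst).mul ?_
          refine Continuous.rpow_const (continuous_const.add
            (Real.continuous_exp.comp continuous_fst)) fun z => Or.inl ?_
          have := Real.exp_pos z.1
          show 1 + Real.exp z.1 ≠ 0
          linarith
        · fun_prop
        · intro z
          have := hden (M * ((m1 + m2 * Real.exp z.2) * Real.exp z.1 + m3))
          linarith
      · apply Continuous.aestronglyMeasurable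
        refine Continuous.mul (((rr_cont S).comp continuous_snd).norm.pow 2) ?_
        fun_prop
    · rw [hG]
      have h2 := Real.exp_pos z.1
      have h3 : (0 : ℝ) ≤ (1 + Real.exp z.1) ^ (-4 : ℝ) := Real.rpow_nonneg (by linarith) _
      have h4 : (0 : ℝ) ≤ ‖rr S z.2‖ ^ 2 * Real.exp (-|z.2|) := by positivity
      have h5 := hden (M * ((m1 + m2 * Real.exp z.2) * Real.exp z.1 + m3))
      simp only
      rw [Real.norm_of_nonneg (by positivity)]
      exact mul_le_mul_of_nonneg_right (div_le_self (by positivity) h5) h4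
  have hle : ∫ z : ℝ × ℝ, ‖rr S z.2‖ ^ 2 * Om a z.1 (z.1 + z.2) /
          (1 + (M * (m1 * Real.exp z.1 + m2 * Real.exp (z.1 + z.2) + m3)) ^ 2) ≤
      ∫ z : ℝ × ℝ, G z := by
    rw [Measure.volume_eq_prod]
    refine integral_mono_of_nonneg (Eventually.of_forall fun z => ?_) hGint
      (Eventually.of_forall fun z => ?_)
    · have h1 : 0 ≤ Om a z.1 (z.1 + z.2) := by
        unfold Om
        have := Real.exp_pos z.1
        have := Real.exp_pos (z.1 + z.2)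
        positivity
      have h2 := hden (M * (m1 * Real.exp z.1 + m2 * Real.exp (z.1 + z.2) + m3))
      show 0 ≤ _
      positivity
    · have h1 := B02_Om ha z.1 z.2
      have h2 := hden (M * ((m1 + m2 * Real.exp z.2) * Real.exp z.1 + m3))
      have h3 : m1 * Real.exp z.1 + m2 * Real.exp (z.1 + z.2) + m3 =
          (m1 + m2 * Real.exp z.2) * Real.exp z.1 + m3 := by
        rw [Real.exp_add]; ring
      show ‖rr S z.2‖ ^ 2 * Om a z.1 (z.1 + z.2) / _ ≤ G z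
      rw [hG]
      simp only
      rw [h3, div_mul_eq_mul_div, div_le_div_iff_of_pos_right (by linarith)]
      calc ‖rr S z.2‖ ^ 2 * Om a z.1 (z.1 + z.2) ≤ ‖rr S z.2‖ ^ 2 *
            (Real.exp (-|z.2|) * (Real.exp z.1 * (1 + Real.exp z.1) ^ (-4 : ℝ))) :=
            mul_le_mul_of_nonneg_left h1 (by positivity)
        _ = _ := by ring
  refine hle.trans ?_
  rw [Measure.volume_eq_prod, integral_prod_symm _ hGint]
  have hin : ∀ y : ℝ, ∫ x : ℝ, G (x, y) =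
      (∫ x : ℝ, Real.exp x * (1 + Real.exp x) ^ (-4 : ℝ) /
        (1 + (M * ((m1 + m2 * Real.exp y) * Real.exp x + m3)) ^ 2)) *
        (‖rr S y‖ ^ 2 * Real.exp (-|y|)) := by
    intro y
    rw [hG]
    simp only
    rw [integral_mul_const]
  have h6 : ∫ y : ℝ, ∫ x : ℝ, G (x, y) ≤
      ∫ y : ℝ, C / (M * |(m3 : ℝ)|) * (‖rr S y‖ ^ 2 * Real.exp (-|y|)) := by
    refine integral_mono_of_nonneg (Eventually.of_forall fun y => ?_)
      (hri.const_mul _) (Eventually.of_forall fun y => ?_)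
    · show 0 ≤ ∫ x : ℝ, G (x, y)
      rw [hin]
      refine mul_nonneg (integral_nonneg fun x => ?_) (by positivity)
      have h2 := Real.exp_pos x
      have h5 := hden (M * ((m1 + m2 * Real.exp y) * Real.exp x + m3))
      show 0 ≤ _ / _
      positivity
    · show ∫ x : ℝ, G (x, y) ≤ _
      rw [hin]
      exact mul_le_mul_of_nonneg_right (hone M (m1 + m2 * Real.exp y) m3 hM hm3) (by positivity)
  refine h6.trans ?_
  rw [integral_const_mul]
  calc C / (M * |(m3 : ℝ)|) * ∫ y : ℝ, ‖rr S y‖ ^ 2 * Real.exp (-|y|) ≤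
      C / (M * |(m3 : ℝ)|) * (16 * S.card) :=
      mul_le_mul_of_nonneg_left hrr (by positivity)
    _ = _ := by ring

private theorem B02_Zs_card (Y : ℕ) : (Zs Y).card = 2 * Y := by
  unfold Zs
  rw [Finset.card_erase_of_mem (Finset.mem_Icc.2 ⟨by simp, by simp⟩), Int.card_Icc]
  omega

private theorem B02_Zs_sum {Y : ℕ} : ∑ m ∈ Zs Y, 1 / |(m : ℝ)| ≤ 2 * (1 + Real.log Y) := by
  classical
  have h0 : ∑ k ∈ Finset.Icc 1 Y, 1 / ((k : ℕ) : ℝ) ≤ 1 + Real.log Y := by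
    have h1 := harmonic_le_one_add_log Y
    rw [harmonic_eq_sum_Icc] at h1
    push_cast at h1
    simpa using h1
  have hsub : Zs Y ⊆ (Finset.Icc 1 Y).image (fun k : ℕ => (k : ℤ)) ∪
      (Finset.Icc 1 Y).image (fun k : ℕ => -(k : ℤ)) := by
    intro m hm
    unfold Zs at hm
    rw [Finset.mem_erase, Finset.mem_Icc] at hm
    obtain ⟨h1, h2, h3⟩ := hm
    rcases lt_or_gt_of_ne h1 with h | h
    · refine Finset.mem_union_right _ (Finset.mem_image.2 ⟨(-m).toNat, ?_, ?_⟩)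
      · rw [Finset.mem_Icc]
        omega
      · omega
    · refine Finset.mem_union_left _ (Finset.mem_image.2 ⟨m.toNat, ?_, ?_⟩)
      · rw [Finset.mem_Icc]
        omega
      · omega
  have hnn : ∀ m : ℤ, 0 ≤ 1 / |(m : ℝ)| := fun m => by positivity
  have h1 := Finset.sum_le_sum_of_subset_of_nonneg hsub (fun m _ _ => hnn m)
    (f := fun m : ℤ => 1 / |(m : ℝ)|)
  have h2 := Finset.sum_union_inter (s₁ := (Finset.Icc 1 Y).image (fun k : ℕ => (k : ℤ)))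
    (s₂ := (Finset.Icc 1 Y).image (fun k : ℕ => -(k : ℤ))) (f := fun m : ℤ => 1 / |(m : ℝ)|)
  have h3 : 0 ≤ ∑ m ∈ (Finset.Icc 1 Y).image (fun k : ℕ => (k : ℤ)) ∩
      (Finset.Icc 1 Y).image (fun k : ℕ => -(k : ℤ)), 1 / |(m : ℝ)| :=
    Finset.sum_nonneg fun m _ => hnn m
  have h4 : ∑ m ∈ (Finset.Icc 1 Y).image (fun k : ℕ => (k : ℤ)), 1 / |(m : ℝ)| =
      ∑ k ∈ Finset.Icc 1 Y, 1 / ((k : ℕ) : ℝ) := by
    rw [Finset.sum_image (fun a _ b _ h => by simpa using h)]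
    refine Finset.sum_congr rfl fun k _ => ?_
    simp
  have h5 : ∑ m ∈ (Finset.Icc 1 Y).image (fun k : ℕ => -(k : ℤ)), 1 / |(m : ℝ)| =
      ∑ k ∈ Finset.Icc 1 Y, 1 / ((k : ℕ) : ℝ) := by
    rw [Finset.sum_image (fun a _ b _ h => by simpa using h)]
    refine Finset.sum_congr rfl fun k _ => ?_
    simp
  linarith

/-- Proof: `y = x + r`, `Om a x (x+r) ≤ e^{-|r|} e^x (1+e^x)^(-4)`, `L = e^x (m1 + m2 e^r) + m3`, `one_int`, `rr2_le`,
`∑_{0<|m|≤Y} 1/|m| ≤ 2 (1 + log Y)`, at most `(2Y)²` pairs. -/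
theorem Q1_le {a : ℕ} (ha : 6 ≤ a) : ∃ C : ℝ, 0 < C ∧ ∀ (M : ℝ) (Y : ℕ) (S : Finset ℝ), 1 ≤ M → 1 ≤ Y →
    Sep S →
    ∑ m1 ∈ Zs Y, ∑ m2 ∈ Zs Y, ∑ m3 ∈ Zs Y, ∫ p : ℝ × ℝ,
        ‖rr S (p.2 - p.1)‖ ^ 2 * Om a p.1 p.2 /
          (1 + (M * (m1 * Real.exp p.1 + m2 * Real.exp p.2 + m3)) ^ 2) ≤
      C * ((Y : ℝ) ^ 2 * (1 + Real.log Y) * S.card / M) := by
  obtain ⟨C, hC, hone⟩ := one_int
  refine ⟨128 * C, by positivity, fun M Y S hM hY hS => ?_⟩
  have hM0 : 0 < M := by linarith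
  have h1 : ∀ m1 ∈ Zs Y, ∀ m2 ∈ Zs Y, ∑ m3 ∈ Zs Y, ∫ p : ℝ × ℝ,
        ‖rr S (p.2 - p.1)‖ ^ 2 * Om a p.1 p.2 /
          (1 + (M * (m1 * Real.exp p.1 + m2 * Real.exp p.2 + m3)) ^ 2) ≤
      16 * S.card * (C / M) * (2 * (1 + Real.log Y)) := by
    intro m1 _ m2 _
    have h2 : ∀ m3 ∈ Zs Y, ∫ p : ℝ × ℝ,
        ‖rr S (p.2 - p.1)‖ ^ 2 * Om a p.1 p.2 /
          (1 + (M * (m1 * Real.exp p.1 + m2 * Real.exp p.2 + m3)) ^ 2) ≤
        16 * S.card * (C / M) * (1 / |(m3 : ℝ)|) := by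
      intro m3 hm3
      have hm : m3 ≠ 0 := by
        unfold Zs at hm3
        exact (Finset.mem_erase.1 hm3).1
      refine (B02_one ha hC hone hM hS m1 m2 m3 hm).trans (le_of_eq ?_)
      have h3 : |(m3 : ℝ)| ≠ 0 := by
        rw [abs_ne_zero]
        exact_mod_cast hm
      field_simp
    refine (Finset.sum_le_sum h2).trans ?_
    rw [← Finset.mul_sum]
    exact mul_le_mul_of_nonneg_left B02_Zs_sum (by positivity)
  have h3 : ∀ m1 ∈ Zs Y, ∑ m2 ∈ Zs Y, ∑ m3 ∈ Zs Y, ∫ p : ℝ × ℝ,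
        ‖rr S (p.2 - p.1)‖ ^ 2 * Om a p.1 p.2 /
          (1 + (M * (m1 * Real.exp p.1 + m2 * Real.exp p.2 + m3)) ^ 2) ≤
      (2 * Y : ℝ) * (16 * S.card * (C / M) * (2 * (1 + Real.log Y))) := by
    intro m1 hm1
    refine (Finset.sum_le_card_nsmul _ _ _ (h1 m1 hm1)).trans (le_of_eq ?_)
    rw [B02_Zs_card, nsmul_eq_mul]
    push_cast
    ring
  refine (Finset.sum_le_card_nsmul _ _ _ h3).trans (le_of_eq ?_)
  rw [B02_Zs_card, nsmul_eq_mul]
  push_cast
  field_simp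
  ring

end OL
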