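import Pool.Agent.Lib.MP_39df77_nt.OL.Defs

/-! a one-dimensional integral -/

set_option autoImplicit false

open Complex MeasureTheory Set Filter Topology
open scoped Real ComplexConjugate

namespace OL

/-- substitution `v = e^x` -/
theorem int_exp (f : ℝ → ℝ) : ∫ x : ℝ, Real.exp x * f (Real.exp x) = ∫ v in Ioi (0 : ℝ), f v := by
  have h := integral_image_eq_integral_abs_deriv_smul (s := univ) (f := Real.exp)
    (f' := Real.exp) MeasurableSet.univ (fun x _ => (Real.hasDerivAt_exp x).hasDerivWithinAt)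
    Real.exp_injective.injOn f
  rw [image_univ, Real.range_exp, setIntegral_univ] at h
  rw [h]
  refine integral_congr_ae (Filter.Eventually.of_forall fun x => ?_)
  simp only [smul_eq_mul]
  rw [abs_of_pos (Real.exp_pos x)]

theorem int_exp_integrable (f : ℝ → ℝ) : Integrable (fun x : ℝ => Real.exp x * f (Real.exp x)) ↔
    IntegrableOn f (Ioi (0 : ℝ)) := by
  have h := integrableOn_image_iff_integrableOn_abs_deriv_smul (s := univ) (f := Real.exp)
    (f' := Real.exp) MeasurableSet.univ (fun x _ => (Real.hasDerivAt_exp x).hasDerivWithinAt)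
    Real.exp_injective.injOn f
  rw [image_univ, Real.range_exp, integrableOn_univ] at h
  rw [h]
  have h2 : (fun x => |Real.exp x| • f (Real.exp x)) = fun x : ℝ => Real.exp x * f (Real.exp x) := by
    funext x
    rw [smul_eq_mul, abs_of_pos (Real.exp_pos x)]
  rw [h2]

private theorem B02a_point {M q m v : ℝ} (hM : 1 ≤ M) (hm : 1 ≤ |m|) (hv : 0 < v) :
    (1 + v) ^ (-4 : ℝ) / (1 + (M * (q * v + m)) ^ 2) ≤
      4 / (M * |m|) * (1 + v ^ 2)⁻¹ + 2 * |q| / |m| * (1 + (M * q * v + M * m) ^ 2)⁻¹ := by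
  have hM0 : 0 < M := by linarith
  have hm0 : 0 < |m| := by linarith
  have hA : (1 + v) ^ (-4 : ℝ) = ((1 + v) ^ 4)⁻¹ := by
    rw [Real.rpow_neg (by positivity)]
    congr 1
    exact_mod_cast Real.rpow_natCast (1 + v) 4
  have hB : (M * q * v + M * m) = M * (q * v + m) := by ring
  rw [hA, hB]
  set B : ℝ := 1 + (M * (q * v + m)) ^ 2 with hBdef
  have hB1 : 1 ≤ B := by rw [hBdef]; nlinarith [sq_nonneg (M * (q * v + m))]
  have hB0 : 0 < B := by linarith
  rcases lt_or_ge (|m| / 2) |q * v + m| with h | h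
  · -- first case
    have h1 : M * |m| / 4 ≤ B := by
      have h2 : (M * |m| / 2) ^ 2 ≤ (M * (q * v + m)) ^ 2 := by
        have h3 : (M * (q * v + m)) ^ 2 = (M * |q * v + m|) ^ 2 := by
          rw [mul_pow, mul_pow, sq_abs]
        rw [h3]
        apply pow_le_pow_left₀ (by positivity)
        nlinarith
      have h4 : 1 ≤ M * |m| := by nlinarith
      rw [hBdef]
      nlinarith [sq_nonneg (M * |m|)]
    have h5 : ((1 + v) ^ 4)⁻¹ ≤ (1 + v ^ 2)⁻¹ := by
      apply inv_anti₀ (by positivity)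
      nlinarith [pow_pos hv 2, pow_pos hv 3, pow_pos hv 4]
    have h6 : ((1 + v) ^ 4)⁻¹ / B ≤ 4 / (M * |m|) * (1 + v ^ 2)⁻¹ := by
      rw [div_eq_mul_inv, mul_comm]
      apply mul_le_mul _ h5 (by positivity) (by positivity)
      rw [← one_div, div_le_div_iff₀ hB0 (by positivity)]
      linarith
    have h7 : 0 ≤ 2 * |q| / |m| * B⁻¹ := by positivity
    linarith
  · -- second case
    have h1 : |m| / 2 ≤ |q| * v := by
      have h2 : |m| ≤ |q * v + m| + |q * v| := by
        calc |m| = |(q * v + m) - q * v| := by ring_nf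
          _ ≤ |q * v + m| + |q * v| := abs_sub _ _
      rw [abs_mul, abs_of_pos hv] at h2
      linarith
    have h3 : ((1 + v) ^ 4)⁻¹ ≤ 2 * |q| / |m| := by
      have h4 : ((1 + v) ^ 4)⁻¹ ≤ v⁻¹ := by
        apply inv_anti₀ hv
        nlinarith [pow_pos hv 2, pow_pos hv 3, pow_pos hv 4]
      refine h4.trans ?_
      rw [inv_eq_one_div, div_le_div_iff₀ hv hm0]
      nlinarith
    have h6 : ((1 + v) ^ 4)⁻¹ / B ≤ 2 * |q| / |m| * B⁻¹ := by
      rw [div_eq_mul_inv]
      gcongr
    have h7 : 0 ≤ 4 / (M * |m|) * (1 + v ^ 2)⁻¹ := by positivity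
    linarith

private theorem B02a_int1 (c a : ℝ) : Integrable (fun v : ℝ => (1 + (c * v + a) ^ 2)⁻¹) ∨ c = 0 := by
  rcases eq_or_ne c 0 with h | h
  · exact Or.inr h
  · left
    have h1 : Integrable (fun v : ℝ => (1 + (v + a) ^ 2)⁻¹) :=
      integrable_inv_one_add_sq.comp_add_right a
    exact h1.comp_mul_left' h

private theorem B02a_int2 {c : ℝ} (a : ℝ) :
    ∫ v : ℝ, (1 + (c * v + a) ^ 2)⁻¹ = |c⁻¹| * π := by
  have h1 := Measure.integral_comp_mul_left (fun v : ℝ => (1 + (v + a) ^ 2)⁻¹) c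
  have h2 : ∫ v : ℝ, (1 + (v + a) ^ 2)⁻¹ = π := by
    rw [integral_add_right_eq_self (fun v : ℝ => (1 + v ^ 2)⁻¹) a]
    exact integral_univ_inv_one_add_sq
  rw [h2] at h1
  exact h1

/-- Proof: `v = e^x`. Where `|vq+m| > |m|/2` the integrand is `≤ 4(1+v)^(-4)/(M²m²) ≤ 4(1+v)^(-4)/(M|m|)`; where
`|vq+m| ≤ |m|/2`: `v ≥ |m|/(2|q|)`, so `(1+v)^(-1) ≤ 2|q|/|m|`, and `∫ dv/(1+M²(vq+m)²) = π/(M|q|)`. -/
theorem one_int : ∃ C : ℝ, 0 < C ∧ ∀ M q m : ℝ, 1 ≤ M → 1 ≤ |m| →
    ∫ x : ℝ, Real.exp x * (1 + Real.exp x) ^ (-4 : ℝ) / (1 + (M * (q * Real.exp x + m)) ^ 2) ≤ C / (M * |m|) := by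
  refine ⟨6 * π, by positivity, fun M q m hM hm => ?_⟩
  have hM0 : 0 < M := by linarith
  have hm0 : 0 < |m| := by linarith
  have h1 : ∫ x : ℝ, Real.exp x * (1 + Real.exp x) ^ (-4 : ℝ) /
      (1 + (M * (q * Real.exp x + m)) ^ 2) =
      ∫ v in Ioi (0 : ℝ), (1 + v) ^ (-4 : ℝ) / (1 + (M * (q * v + m)) ^ 2) := by
    rw [← int_exp]
    refine integral_congr_ae (Filter.Eventually.of_forall fun x => ?_)
    simp only
    ring
  set G : ℝ → ℝ := fun v => 4 / (M * |m|) * (1 + v ^ 2)⁻¹ +
    2 * |q| / |m| * (1 + (M * q * v + M * m) ^ 2)⁻¹ with hG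
  have hGint : Integrable G := by
    apply Integrable.add
    · exact integrable_inv_one_add_sq.const_mul _
    · rcases B02a_int1 (M * q) (M * m) with h | h
      · exact h.const_mul _
      · have hq : q = 0 := by
          rcases mul_eq_zero.1 h with h' | h'
          · exact absurd h' hM0.ne'
          · exact h'
        subst hq
        simp
  have hGnn : ∀ v, 0 ≤ G v := fun v => by
    simp only [hG]
    positivity
  have hGval : ∫ v, G v = 4 / (M * |m|) * π + 2 * |q| / |m| * (|(M * q)⁻¹| * π) := by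
    simp only [hG]
    rw [integral_add, integral_const_mul, integral_const_mul, integral_univ_inv_one_add_sq,
      B02a_int2]
    · exact integrable_inv_one_add_sq.const_mul _
    · rcases B02a_int1 (M * q) (M * m) with h | h
      · exact h.const_mul _
      · have hq : q = 0 := by
          rcases mul_eq_zero.1 h with h' | h'
          · exact absurd h' hM0.ne'
          · exact h'
        subst hq
        simp
  rw [h1]
  calc ∫ v in Ioi (0 : ℝ), (1 + v) ^ (-4 : ℝ) / (1 + (M * (q * v + m)) ^ 2)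
      ≤ ∫ v in Ioi (0 : ℝ), G v := by
        apply integral_mono_of_nonneg
        · filter_upwards [ae_restrict_mem measurableSet_Ioi] with v hv
          have : (0 : ℝ) < 1 + v := by
            have := mem_Ioi.1 hv
            linarith
          simp only [Pi.zero_apply]
          positivity
        · exact hGint.integrableOn
        · filter_upwards [ae_restrict_mem measurableSet_Ioi] with v hv
          exact B02a_point hM hm (mem_Ioi.1 hv)
    _ ≤ ∫ v, G v := setIntegral_le_integral hGint (Filter.Eventually.of_forall hGnn)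
    _ ≤ 6 * π / (M * |m|) := by
        rw [hGval]
        have h2 : 2 * |q| / |m| * (|(M * q)⁻¹| * π) ≤ 2 * π / (M * |m|) := by
          rcases eq_or_ne q 0 with rfl | hq
          · simp only [abs_zero, mul_zero, zero_div, zero_mul]
            positivity
          · have hq0 : 0 < |q| := abs_pos.2 hq
            rw [abs_inv, abs_mul, abs_of_pos hM0]
            apply le_of_eq
            field_simp
        have h3 : 4 / (M * |m|) * π + 2 * π / (M * |m|) = 6 * π / (M * |m|) := by ring
        linarith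

end OL
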