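import Pool.Agent.Lib.MP_39df77_nt.OL.Defs
import Pool.Agent.Lib.MP_39df77_nt.U6.A06

/-! a divisor sum -/

set_option autoImplicit false

open Complex MeasureTheory Set Filter Topology
open scoped Real ComplexConjugate

namespace OL

theorem B03e_xe {e : ℝ} (he : 0 < e) : ∃ C : ℝ, 1 ≤ C ∧ ∀ x : ℝ, 0 ≤ x →
    x ^ e * Real.exp (-(2 * π * x)) ≤ C := by
  refine ⟨((⌈e⌉₊).factorial : ℝ), ?_, ?_⟩
  · exact_mod_cast Nat.one_le_iff_ne_zero.2 (Nat.factorial_ne_zero _)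
  · intro x hx
    have hf : (1 : ℝ) ≤ ((⌈e⌉₊).factorial : ℝ) := by
      exact_mod_cast Nat.one_le_iff_ne_zero.2 (Nat.factorial_ne_zero _)
    have hpi := Real.pi_gt_three
    rcases le_total x 1 with h1 | h1
    · have h2 : x ^ e ≤ 1 := Real.rpow_le_one hx h1 he.le
      have h3 : Real.exp (-(2 * π * x)) ≤ 1 := by
        apply Real.exp_le_one_iff.2
        have : 0 ≤ 2 * π * x := by positivity
        linarith
      calc x ^ e * Real.exp (-(2 * π * x)) ≤ 1 * 1 :=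
            mul_le_mul h2 h3 (Real.exp_pos _).le zero_le_one
        _ ≤ _ := by linarith
    · have h2 : x ^ e ≤ x ^ (⌈e⌉₊) := by
        rw [← Real.rpow_natCast]
        exact Real.rpow_le_rpow_of_exponent_le h1 (Nat.le_ceil e)
      have h3 := Real.pow_div_factorial_le_exp x hx ⌈e⌉₊
      rw [div_le_iff₀ (by positivity)] at h3
      have h4 : Real.exp (-(2 * π * x)) ≤ Real.exp (-x) := by
        apply Real.exp_le_exp.2
        nlinarith
      calc x ^ e * Real.exp (-(2 * π * x))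
          ≤ (Real.exp x * ((⌈e⌉₊).factorial : ℝ)) * Real.exp (-x) :=
            mul_le_mul (h2.trans h3) h4 (Real.exp_pos _).le (by positivity)
        _ = ((⌈e⌉₊).factorial : ℝ) * (Real.exp x * Real.exp (-x)) := by ring
        _ = ((⌈e⌉₊).factorial : ℝ) := by rw [← Real.exp_add]; simp

theorem B03e_card (H Z : Finset ℤ) (k : ℤ) (hk : k ≠ 0) :
    ((H ×ˢ Z).filter (fun p => p.1 * p.2 = k)).card ≤ 2 * k.natAbs.divisors.card := by
  classical
  have h1 : ((H ×ˢ Z).filter (fun p => p.1 * p.2 = k)).card ≤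
      ((k.natAbs.divisors) ×ˢ (Finset.univ : Finset Bool)).card := by
    apply Finset.card_le_card_of_injOn (fun p => (p.2.natAbs, decide (0 < p.2)))
    · intro p hp
      have hp' := (Finset.mem_filter.1 hp).2
      refine Finset.mem_product.2 ⟨?_, Finset.mem_univ _⟩
      rw [Nat.mem_divisors]
      refine ⟨?_, by simpa using hk⟩
      rw [← hp', Int.natAbs_mul]
      exact Dvd.intro_left _ rfl
    · intro p hp q hq hpq
      have hp' := (Finset.mem_filter.1 hp).2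
      have hq' := (Finset.mem_filter.1 hq).2
      have e1 : p.2.natAbs = q.2.natAbs := congrArg Prod.fst hpq
      have e2 : decide (0 < p.2) = decide (0 < q.2) := congrArg Prod.snd hpq
      have e3 : (0 < p.2) ↔ (0 < q.2) := by simpa using e2
      have hp0 : p.2 ≠ 0 := by
        intro h
        rw [h, mul_zero] at hp'
        exact hk hp'.symm
      have e4 : p.2 = q.2 := by omega
      have e5 : p.1 = q.1 := by
        rw [← e4, ← hp'] at hq'
        exact (mul_right_cancel₀ hp0 hq').symm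
      exact Prod.ext e5 e4
  rw [Finset.card_product] at h1
  simp only [Finset.card_univ, Fintype.card_bool] at h1
  linarith

/-- Proof: `k = h m`: `e^{-2π|h|/M} ≤ e^{-2π|k|/(MY)}`, at most `2 d(|k|) ≤ C |k|^e` pairs (`U6.fm_div`),
`|k|^e e^{-2π|k|/(MY)} ≤ C (MY)^e`. -/
theorem hm_sum {e : ℝ} (he : 0 < e) : ∃ C : ℝ, 0 < C ∧ ∀ (M : ℝ) (Y : ℕ) (G : ℤ → ℝ) (E : ℝ), 1 ≤ M → 1 ≤ Y →
    (∀ k, 0 ≤ G k) → (∀ F : Finset ℤ, ∑ k ∈ F, G k ≤ E) → ∀ H : Finset ℤ, (0 : ℤ) ∉ H →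
    ∑ h ∈ H, Real.exp (-(2 * π * |(h : ℝ)| / M)) * ∑ m ∈ Zs Y, G (h * m) ≤ C * (M * Y) ^ e * E := by
  classical
  obtain ⟨C1, hC1, h1⟩ := U6.FM.fm_div e he
  obtain ⟨C2, hC2, h2⟩ := B03e_xe he
  refine ⟨2 * C1 * C2, by positivity, ?_⟩
  intro M Y G E hM hY hG hE H hH
  have hYr : (1 : ℝ) ≤ Y := by exact_mod_cast hY
  have hMY : 0 < M * Y := by positivity
  have hZ0 : (0 : ℤ) ∉ Zs Y := by
    unfold Zs
    exact Finset.notMem_erase _ _
  have hZb : ∀ m ∈ Zs Y, |(m : ℝ)| ≤ Y := by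
    intro m hm
    unfold Zs at hm
    have h3 := Finset.mem_Icc.1 (Finset.mem_of_mem_erase hm)
    rw [abs_le]
    constructor
    · exact_mod_cast h3.1
    · exact_mod_cast h3.2
  have e1 : ∑ h ∈ H, Real.exp (-(2 * π * |(h : ℝ)| / M)) * ∑ m ∈ Zs Y, G (h * m) =
      ∑ p ∈ H ×ˢ Zs Y, Real.exp (-(2 * π * |(p.1 : ℝ)| / M)) * G (p.1 * p.2) := by
    rw [Finset.sum_product]
    apply Finset.sum_congr rfl
    intro h _
    rw [Finset.mul_sum]
  rw [e1]
  set T := (H ×ˢ Zs Y).image (fun p => p.1 * p.2) with hT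
  rw [← Finset.sum_fiberwise_of_maps_to (t := T) (g := fun p : ℤ × ℤ => p.1 * p.2)
    (fun p hp => Finset.mem_image_of_mem _ hp)]
  have hk0 : ∀ k ∈ T, k ≠ 0 := by
    intro k hk
    obtain ⟨p, hp, rfl⟩ := Finset.mem_image.1 hk
    obtain ⟨ha, hb⟩ := Finset.mem_product.1 hp
    exact mul_ne_zero (fun h => hH (h ▸ ha)) (fun h => hZ0 (h ▸ hb))
  have hfib : ∀ k ∈ T, ∑ p ∈ (H ×ˢ Zs Y) with p.1 * p.2 = k,
      Real.exp (-(2 * π * |(p.1 : ℝ)| / M)) * G (p.1 * p.2) ≤ 2 * C1 * C2 * (M * Y) ^ e * G k := by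
    intro k hk
    have hk' := hk0 k hk
    have s1 : ∀ p ∈ (H ×ˢ Zs Y).filter (fun p => p.1 * p.2 = k),
        Real.exp (-(2 * π * |(p.1 : ℝ)| / M)) * G (p.1 * p.2) ≤
          Real.exp (-(2 * π * (|(k : ℝ)| / (M * Y)))) * G k := by
      intro p hp
      obtain ⟨hp1, hp2⟩ := Finset.mem_filter.1 hp
      rw [hp2]
      refine mul_le_mul_of_nonneg_right ?_ (hG k)
      apply Real.exp_le_exp.2
      have hm := hZb _ (Finset.mem_product.1 hp1).2
      have e2 : |(k : ℝ)| = |(p.1 : ℝ)| * |(p.2 : ℝ)| := by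
        rw [← hp2]; push_cast; rw [abs_mul]
      have h3 : |(k : ℝ)| / (M * Y) ≤ |(p.1 : ℝ)| / M := by
        rw [e2, div_le_div_iff₀ hMY (by positivity)]
        have : |(p.1 : ℝ)| * |(p.2 : ℝ)| * M ≤ |(p.1 : ℝ)| * Y * M := by gcongr
        linarith
      have h4 : 2 * π * (|(k : ℝ)| / (M * Y)) ≤ 2 * π * (|(p.1 : ℝ)| / M) := by gcongr
      have e3 : 2 * π * |(p.1 : ℝ)| / M = 2 * π * (|(p.1 : ℝ)| / M) := by ring
      rw [e3]
      linarith
    have s2 := Finset.sum_le_card_nsmul _ _ _ s1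
    rw [nsmul_eq_mul] at s2
    refine s2.trans ?_
    have hcard : ((((H ×ˢ Zs Y).filter (fun p => p.1 * p.2 = k)).card : ℕ) : ℝ) ≤
        2 * (C1 * |(k : ℝ)| ^ e) := by
      have c1 := B03e_card H (Zs Y) k hk'
      have c2 := h1 k.natAbs (by simpa using hk')
      have c3 : ((k.natAbs : ℕ) : ℝ) = |(k : ℝ)| := by
        rw [Nat.cast_natAbs, Int.cast_abs]
      rw [c3] at c2
      have c4 : ((((H ×ˢ Zs Y).filter (fun p => p.1 * p.2 = k)).card : ℕ) : ℝ) ≤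
          2 * ((k.natAbs.divisors.card : ℕ) : ℝ) := by exact_mod_cast c1
      linarith
    have hx : |(k : ℝ)| ^ e = (|(k : ℝ)| / (M * Y)) ^ e * (M * Y) ^ e := by
      rw [← Real.mul_rpow (by positivity) hMY.le, div_mul_cancel₀ _ hMY.ne']
    have h5 := h2 (|(k : ℝ)| / (M * Y)) (by positivity)
    calc ((((H ×ˢ Zs Y).filter (fun p => p.1 * p.2 = k)).card : ℕ) : ℝ) *
          (Real.exp (-(2 * π * (|(k : ℝ)| / (M * Y)))) * G k)
        ≤ (2 * (C1 * |(k : ℝ)| ^ e)) * (Real.exp (-(2 * π * (|(k : ℝ)| / (M * Y)))) * G k) :=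
          mul_le_mul_of_nonneg_right hcard (mul_nonneg (Real.exp_pos _).le (hG k))
      _ = 2 * C1 * ((|(k : ℝ)| / (M * Y)) ^ e * Real.exp (-(2 * π * (|(k : ℝ)| / (M * Y))))) *
          (M * Y) ^ e * G k := by rw [hx]; ring
      _ ≤ 2 * C1 * C2 * (M * Y) ^ e * G k := by
          have := hG k
          gcongr
  calc ∑ k ∈ T, ∑ p ∈ (H ×ˢ Zs Y) with p.1 * p.2 = k,
      Real.exp (-(2 * π * |(p.1 : ℝ)| / M)) * G (p.1 * p.2)
      ≤ ∑ k ∈ T, 2 * C1 * C2 * (M * Y) ^ e * G k := Finset.sum_le_sum hfib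
    _ = 2 * C1 * C2 * (M * Y) ^ e * ∑ k ∈ T, G k := by rw [Finset.mul_sum]
    _ ≤ 2 * C1 * C2 * (M * Y) ^ e * E := by
        have := hE T
        gcongr

end OL
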