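import Pool.Agent.Lib.MP_39df77_nt.OL.B03d
import Pool.Agent.Lib.MP_39df77_nt.OL.B03e

/-! the second factor -/

set_option autoImplicit false

open Complex MeasureTheory Set Filter Topology
open scoped Real ComplexConjugate

namespace OL

lemma b03_card_Zs (Y : ℕ) : (Zs Y).card = 2 * Y := by
  unfold Zs
  rw [Finset.card_erase_of_mem (by simp), Int.card_Icc]
  omega

/-- Proof: `Q2_JJ`; `h = 0`: `‖2Y J_0‖² ≤ C Y²R²`; `h ≠ 0`: Cauchy-Schwarz `‖∑_m J_{hm}‖² ≤ 2Y ∑_m ‖J_{hm}‖²`, `hm_sum`, `bessel`. -/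
theorem Q2_le {a : ℕ} (ha : 6 ≤ a) {e : ℝ} (he : 0 < e) : ∃ C : ℝ, 0 < C ∧
    ∀ (M : ℝ) (Y : ℕ) (S : Finset ℝ), 1 ≤ M → 1 ≤ Y → Sep S →
    ∑ m1 ∈ Zs Y, ∑ m2 ∈ Zs Y, ∫ p : ℝ × ℝ,
        ‖rr S p.1‖ ^ 2 * ‖rr S p.2‖ ^ 2 * Om a p.1 p.2 * Th M (m1 * Real.exp p.1 + m2 * Real.exp p.2) ≤
      C * (M * Y) ^ e / M * ((Y : ℝ) ^ 2 * (S.card : ℝ) ^ 2 + Y * En S) := by
  obtain ⟨C1, hC1, H1⟩ := hm_sum he
  refine ⟨π * (1024 + 4 * C1), by positivity, fun M Y S hM hY hS => ?_⟩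
  have hM0 : 0 < M := by linarith
  have hY' : (1 : ℝ) ≤ Y := by exact_mod_cast hY
  have hMY : 1 ≤ M * Y := by nlinarith
  have hMYe : 1 ≤ (M * Y) ^ e := Real.one_le_rpow hMY he.le
  have hEn : 0 ≤ En S := le_trans (sq_nonneg _) (En_ge S)
  obtain ⟨hs, hle⟩ := Q2_JJ ha hM Y S
  refine le_trans hle ?_
  have hone : ∀ H : Finset ℤ, ∑ h ∈ H, Real.exp (-(2 * π * |(h : ℝ)| / M)) * ‖∑ m ∈ Zs Y, JJ a S (h * m)‖ ^ 2 ≤
      (1024 + 4 * C1) * (M * Y) ^ e * ((Y : ℝ) ^ 2 * (S.card : ℝ) ^ 2 + Y * En S) := by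
    intro H
    have hf0 : ∀ h : ℤ, 0 ≤ Real.exp (-(2 * π * |(h : ℝ)| / M)) * ‖∑ m ∈ Zs Y, JJ a S (h * m)‖ ^ 2 := fun h => by positivity
    have h1 : ∑ h ∈ H, Real.exp (-(2 * π * |(h : ℝ)| / M)) * ‖∑ m ∈ Zs Y, JJ a S (h * m)‖ ^ 2 ≤
        Real.exp (-(2 * π * |((0 : ℤ) : ℝ)| / M)) * ‖∑ m ∈ Zs Y, JJ a S (0 * m)‖ ^ 2 +
        ∑ h ∈ H.erase 0, Real.exp (-(2 * π * |(h : ℝ)| / M)) * ‖∑ m ∈ Zs Y, JJ a S (h * m)‖ ^ 2 := by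
      by_cases h0 : (0 : ℤ) ∈ H
      · rw [← Finset.add_sum_erase H _ h0]
      · rw [Finset.erase_eq_of_notMem h0]
        have := hf0 0
        linarith
    have h2 : Real.exp (-(2 * π * |((0 : ℤ) : ℝ)| / M)) * ‖∑ m ∈ Zs Y, JJ a S (0 * m)‖ ^ 2 ≤ 1024 * ((Y : ℝ) ^ 2 * (S.card : ℝ) ^ 2) := by
      have e1 : ‖∑ m ∈ Zs Y, JJ a S (0 * m)‖ ≤ 2 * Y * (16 * S.card) := by
        refine le_trans (norm_sum_le _ _) ?_
        have := Finset.sum_le_card_nsmul (Zs Y) (fun m => ‖JJ a S (0 * m)‖) (16 * S.card) (fun m _ => JJ_zero ha hS _)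
        rw [b03_card_Zs, nsmul_eq_mul] at this
        push_cast at this
        exact this
      have e2 := pow_le_pow_left₀ (norm_nonneg _) e1 2
      simp only [Int.cast_zero, abs_zero, mul_zero, zero_div, neg_zero, Real.exp_zero, one_mul]
      calc _ ≤ _ := e2
        _ = _ := by ring
    have h3 : ∑ h ∈ H.erase 0, Real.exp (-(2 * π * |(h : ℝ)| / M)) * ‖∑ m ∈ Zs Y, JJ a S (h * m)‖ ^ 2 ≤
        2 * Y * (C1 * (M * Y) ^ e * (2 * En S)) := by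
      have e1 := H1 M Y (fun k => ‖JJ a S k‖ ^ 2) (2 * En S) hM hY (fun k => by positivity) (fun F => bessel ha S F) (H.erase 0) (by simp)
      calc ∑ h ∈ H.erase 0, Real.exp (-(2 * π * |(h : ℝ)| / M)) * ‖∑ m ∈ Zs Y, JJ a S (h * m)‖ ^ 2
          ≤ ∑ h ∈ H.erase 0, 2 * Y * (Real.exp (-(2 * π * |(h : ℝ)| / M)) * ∑ m ∈ Zs Y, ‖JJ a S (h * m)‖ ^ 2) := by
            apply Finset.sum_le_sum
            intro h _
            have e2 : ‖∑ m ∈ Zs Y, JJ a S (h * m)‖ ^ 2 ≤ 2 * Y * ∑ m ∈ Zs Y, ‖JJ a S (h * m)‖ ^ 2 := by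
              calc ‖∑ m ∈ Zs Y, JJ a S (h * m)‖ ^ 2 ≤ (∑ m ∈ Zs Y, ‖JJ a S (h * m)‖) ^ 2 :=
                    pow_le_pow_left₀ (norm_nonneg _) (norm_sum_le _ _) 2
                _ ≤ (Zs Y).card * ∑ m ∈ Zs Y, ‖JJ a S (h * m)‖ ^ 2 := sq_sum_le_card_mul_sum_sq
                _ = _ := by rw [b03_card_Zs]; push_cast; ring
            have := mul_le_mul_of_nonneg_left e2 (Real.exp_pos (-(2 * π * |(h : ℝ)| / M))).le
            linarith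
        _ = 2 * Y * ∑ h ∈ H.erase 0, (Real.exp (-(2 * π * |(h : ℝ)| / M)) * ∑ m ∈ Zs Y, ‖JJ a S (h * m)‖ ^ 2) := by
            rw [Finset.mul_sum]
        _ ≤ _ := mul_le_mul_of_nonneg_left e1 (by positivity)
    have h4 : 1024 * ((Y : ℝ) ^ 2 * (S.card : ℝ) ^ 2) ≤ 1024 * ((M * Y) ^ e * ((Y : ℝ) ^ 2 * (S.card : ℝ) ^ 2)) := by
      have : 0 ≤ (Y : ℝ) ^ 2 * (S.card : ℝ) ^ 2 := by positivity
      nlinarith
    have h5 : 0 ≤ 4 * C1 * (M * Y) ^ e * ((Y : ℝ) ^ 2 * (S.card : ℝ) ^ 2) := by positivity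
    have h6 : 0 ≤ 1024 * (M * Y) ^ e * (Y * En S) := by positivity
    calc _ ≤ _ := h1
      _ ≤ 1024 * ((M * Y) ^ e * ((Y : ℝ) ^ 2 * (S.card : ℝ) ^ 2)) + 2 * Y * (C1 * (M * Y) ^ e * (2 * En S)) := by linarith
      _ ≤ _ := by linarith
  have htot := Real.tsum_le_of_sum_le (fun h => by positivity) hone
  calc π / M * ∑' h : ℤ, Real.exp (-(2 * π * |(h : ℝ)| / M)) * ‖∑ m ∈ Zs Y, JJ a S (h * m)‖ ^ 2
      ≤ π / M * ((1024 + 4 * C1) * (M * Y) ^ e * ((Y : ℝ) ^ 2 * (S.card : ℝ) ^ 2 + Y * En S)) :=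
        mul_le_mul_of_nonneg_left htot (by positivity)
    _ = _ := by ring

end OL
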