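import Pool.Agent.Lib.MP_39df77_nt.OL.Defs
import Pool.Agent.Lib.MP_39df77_nt.F4.A

/-! Poisson summation for the Cauchy kernel -/

set_option autoImplicit false

open Complex MeasureTheory Set Filter Topology
open scoped Real ComplexConjugate FourierTransform

namespace OL

lemma b03a_norm_ei (x : ℝ) : ‖ei x‖ = 1 := Complex.norm_exp_ofReal_mul_I x

lemma b03a_ei_cont : Continuous ei := by unfold ei; fun_prop

lemma b03a_cauchy {M : ℝ} (hM : 0 < M) (θ : ℝ) : Summable (fun m : ℤ => 1 / (1 + (M * (θ + m)) ^ 2)) := by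
  have h := ((Real.summable_one_div_int_pow (p := 2)).2 (by norm_num)).mul_left (4 / M ^ 2)
  refine Summable.of_norm_bounded_eventually h ?_
  have : ∀ᶠ m : ℤ in cofinite, 2 * |θ| + 1 ≤ |(m : ℝ)| := by
    have h1 : Tendsto (fun m : ℤ => |(m : ℝ)|) cofinite atTop :=
      tendsto_norm_cocompact_atTop.comp Int.tendsto_coe_cofinite
    exact h1.eventually_ge_atTop _
  filter_upwards [this] with m hm
  have hm0 : 0 < |(m : ℝ)| := by linarith [abs_nonneg θ]
  have h1 : |(m : ℝ)| / 2 ≤ |θ + m| := by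
    have := abs_sub_abs_le_abs_sub (m : ℝ) (-θ)
    rw [abs_neg, sub_neg_eq_add, add_comm] at this
    linarith
  have h2 : (m : ℝ) ^ 2 / 4 ≤ (θ + m) ^ 2 := by
    have := pow_le_pow_left₀ (by positivity) h1 2
    rw [div_pow, sq_abs, sq_abs] at this
    linarith
  have hm2 : 0 < (m : ℝ) ^ 2 := by rw [← sq_abs]; positivity
  rw [Real.norm_of_nonneg (by positivity)]
  rw [show 4 / M ^ 2 * (1 / (m : ℝ) ^ 2) = 1 / (M ^ 2 * ((m : ℝ) ^ 2 / 4)) by field_simp]
  apply div_le_div_of_nonneg_left (by norm_num) (by positivity)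
  rw [mul_pow]
  have := mul_le_mul_of_nonneg_left h2 (sq_nonneg M)
  linarith

lemma b03a_exp {T : ℝ} (hT : 0 < T) : Summable (fun h : ℤ => Real.exp (-(T * |(h : ℝ)|))) := by
  apply Summable.of_nat_of_neg
  · have := Real.summable_exp_nat_mul_iff.2 (show -T < 0 by linarith)
    refine this.congr fun n => ?_
    congr 1
    rw [Int.cast_natCast, Nat.abs_cast]; ring
  · have := Real.summable_exp_nat_mul_iff.2 (show -T < 0 by linarith)
    refine this.congr fun n => ?_
    congr 1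
    rw [Int.cast_neg, Int.cast_natCast, abs_neg, Nat.abs_cast]; ring

/-- Poisson summation for the Poisson kernel -/
lemma b03a_Th {M : ℝ} (hM : 0 < M) (θ : ℝ) : ((Th M θ : ℝ) : ℂ) =
    ((Real.pi / M : ℝ) : ℂ) * ∑' h : ℤ, ((Real.exp (-(2 * Real.pi / M * |(h : ℝ)|)) : ℝ) : ℂ) * ei (2 * Real.pi * h * θ) := by
  have hpi := Real.pi_pos
  obtain ⟨T, hTdef⟩ : ∃ T, T = 2 * Real.pi / M := ⟨_, rfl⟩
  have hT : 0 < T := by rw [hTdef]; positivity
  obtain ⟨f, hf⟩ : ∃ f : ℝ → ℂ, f = fun x => ((Real.exp (-(T * |x|)) : ℝ) : ℂ) * ei (2 * Real.pi * θ * x) := ⟨_, rfl⟩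
  have hc : Continuous f := by
    rw [hf]
    apply Continuous.mul (by fun_prop)
    exact b03a_ei_cont.comp (by fun_prop)
  have hdec : f =O[cocompact ℝ] fun x : ℝ => |x| ^ (-2 : ℝ) := by
    apply Asymptotics.IsBigO.of_bound (2 / T ^ 2)
    have : ∀ᶠ x : ℝ in cocompact ℝ, x ≠ 0 := by
      have := (isCompact_singleton (x := (0 : ℝ))).compl_mem_cocompact
      filter_upwards [this] with x hx using hx
    filter_upwards [this] with x hx
    have hx' : 0 < |x| := abs_pos.2 hx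
    rw [hf]
    simp only
    rw [norm_mul, b03a_norm_ei, mul_one, Complex.norm_real, Real.norm_of_nonneg (Real.exp_pos _).le,
      Real.norm_of_nonneg (by positivity), Real.rpow_neg hx'.le]
    have e1 : |x| ^ (2 : ℝ) = |x| ^ 2 := by rw [← Real.rpow_natCast]; norm_num
    rw [e1, ← div_eq_mul_inv, div_div, Real.exp_neg, le_div_iff₀ (by positivity), inv_mul_le_iff₀ (Real.exp_pos _)]
    have := Real.quadratic_le_exp_of_nonneg (show 0 ≤ T * |x| by positivity)
    nlinarith [mul_pos hT hx']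
  have hF : ∀ w : ℝ, 𝓕 f w = ((2 * T / (T ^ 2 + (2 * Real.pi * (w - θ)) ^ 2) : ℝ) : ℂ) := by
    intro w
    rw [← F4.fourier_exp_abs hT (w - θ), Real.fourier_real_eq_integral_exp_smul, Real.fourier_real_eq_integral_exp_smul]
    apply integral_congr_ae
    filter_upwards with v
    rw [hf]
    simp only [smul_eq_mul]
    unfold ei
    rw [mul_comm ((Real.exp (-(T * |v|)) : ℝ) : ℂ), ← mul_assoc, ← Complex.exp_add]
    congr 1
    · congr 1; push_cast; ring
    · congr 2; ring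
  have hval : ∀ n : ℤ, 𝓕 f n = ((M / Real.pi : ℝ) : ℂ) * ((1 / (1 + (M * (θ + (-n : ℤ))) ^ 2) : ℝ) : ℂ) := by
    intro n
    rw [hF, ← Complex.ofReal_mul, hTdef]
    congr 1
    push_cast
    field_simp
    ring
  have hsumF : Summable fun n : ℤ => 𝓕 f n := by
    simp_rw [hval]
    apply Summable.mul_left
    have := (b03a_cauchy hM θ).comp_injective (i := fun n : ℤ => -n) neg_injective
    exact Complex.hasSum_ofReal.2 this.hasSum |>.summable
  have hP := Real.tsum_eq_tsum_fourier_of_rpow_decay_of_summable hc (b := 2) (by norm_num) hdec hsumF 0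
  have h2 : ∑' n : ℤ, 𝓕 f n * fourier n ((0 : ℝ) : UnitAddCircle) = ((M / Real.pi : ℝ) : ℂ) * ((Th M θ : ℝ) : ℂ) := by
    simp only [hval]
    have h3 : ∀ n : ℤ, (fourier n ((0 : ℝ) : UnitAddCircle) : ℂ) = 1 := by intro n; simp
    simp only [h3, mul_one]
    rw [tsum_mul_left]
    congr 1
    unfold Th
    rw [Complex.ofReal_tsum]
    exact (Equiv.neg ℤ).tsum_eq (fun n : ℤ => ((1 / (1 + (M * (θ + (n : ℤ))) ^ 2) : ℝ) : ℂ))
  rw [h2] at hP
  have h4 : ∑' h : ℤ, ((Real.exp (-(2 * Real.pi / M * |(h : ℝ)|)) : ℝ) : ℂ) * ei (2 * Real.pi * h * θ) =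
      ∑' n : ℤ, f (0 + n) := by
    apply tsum_congr
    intro n
    rw [hf, hTdef]
    simp only [zero_add]
    congr 2; ring
  rw [h4, hP, ← mul_assoc, ← Complex.ofReal_mul]
  rw [show Real.pi / M * (M / Real.pi) = 1 by field_simp]
  simp


theorem Th_eq {M : ℝ} (hM : 0 < M) (θ : ℝ) :
    Summable (fun m : ℤ => 1 / (1 + (M * (θ + m)) ^ 2)) ∧
    Summable (fun h : ℤ => Real.exp (-(2 * π * |(h : ℝ)| / M))) ∧
    ((Th M θ : ℝ) : ℂ) = ((π / M : ℝ) : ℂ) *
      ∑' h : ℤ, ((Real.exp (-(2 * π * |(h : ℝ)| / M)) : ℝ) : ℂ) * ei (2 * π * h * θ) := by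
  have e : ∀ h : ℤ, 2 * Real.pi / M * |(h : ℝ)| = 2 * π * |(h : ℝ)| / M := by intro h; ring
  refine ⟨b03a_cauchy hM θ, ?_, ?_⟩
  · have := b03a_exp (T := 2 * Real.pi / M) (by positivity)
    simpa only [e] using this
  · have := b03a_Th hM θ
    simpa only [e] using this

end OL
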