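import Pool.Agent.Lib.MP_39df77_nt.OL.Defs

/-! the weight factorises -/

set_option autoImplicit false

open Complex MeasureTheory Set Filter Topology
open scoped Real ComplexConjugate

namespace OL

/-- one-variable weight -/
noncomputable def om (a : ℕ) (x : ℝ) : ℝ :=
  Real.exp (((a : ℝ) + 1 / 2) * x) * (1 + Real.exp x) ^ (-(3 / 2 * (a : ℝ) - 1 / 4))

theorem om_pos (a : ℕ) (x : ℝ) : 0 < om a x := by unfold om; positivity

theorem om_cont (a : ℕ) : Continuous (om a) := by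
  unfold om
  apply Continuous.mul (by fun_prop)
  apply Continuous.rpow_const (by fun_prop)
  intro x; left; positivity

lemma om_w_le {p q r : ℝ} (hp : 0 ≤ p) (hq : r ≤ q) (hpq : r ≤ p - q) (x : ℝ) :
    Real.exp (q * x) * (1 + Real.exp x) ^ (-p) ≤ Real.exp (-(r * |x|)) := by
  rcases le_total 0 x with hx | hx
  · have h1 : (1 + Real.exp x) ^ (-p) ≤ (Real.exp x) ^ (-p) :=
      Real.rpow_le_rpow_of_nonpos (Real.exp_pos x) (by linarith) (by linarith)
    rw [← Real.exp_mul] at h1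
    calc Real.exp (q * x) * (1 + Real.exp x) ^ (-p) ≤ Real.exp (q * x) * Real.exp (x * -p) :=
          mul_le_mul_of_nonneg_left h1 (Real.exp_pos _).le
      _ = Real.exp (q * x + x * -p) := by rw [Real.exp_add]
      _ ≤ _ := by
        apply Real.exp_le_exp.2
        rw [abs_of_nonneg hx]; nlinarith
  · have h1 : (1 + Real.exp x) ^ (-p) ≤ 1 :=
      Real.rpow_le_one_of_one_le_of_nonpos (by linarith [Real.exp_pos x]) (by linarith)
    calc Real.exp (q * x) * (1 + Real.exp x) ^ (-p) ≤ Real.exp (q * x) * 1 :=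
          mul_le_mul_of_nonneg_left h1 (Real.exp_pos _).le
      _ = Real.exp (q * x) := mul_one _
      _ ≤ _ := by
        apply Real.exp_le_exp.2
        rw [abs_of_nonpos hx]; nlinarith

theorem om_le {a : ℕ} (ha : 6 ≤ a) (x : ℝ) : om a x ≤ Real.exp (-|x|) := by
  have ha' : (6 : ℝ) ≤ a := by exact_mod_cast ha
  have h := om_w_le (p := 3 / 2 * (a : ℝ) - 1 / 4) (q := (a : ℝ) + 1 / 2) (r := 1) (by linarith) (by linarith) (by linarith) x
  rw [one_mul] at h
  exact h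

theorem om_sq_le {a : ℕ} (ha : 6 ≤ a) (x : ℝ) :
    om a x ^ 2 * (1 + Real.exp x) ^ 2 * Real.exp (-x) ≤ Real.exp (-(2 * |x|)) := by
  have ha' : (6 : ℝ) ≤ a := by exact_mod_cast ha
  have h := om_w_le (p := 3 * (a : ℝ) - 5 / 2) (q := 2 * a) (r := 2) (by linarith) (by linarith) (by linarith) x
  refine le_trans (le_of_eq ?_) h
  have hpos : 0 < 1 + Real.exp x := by positivity
  unfold om
  rw [mul_pow, ← Real.exp_nat_mul, ← Real.rpow_natCast ((1 + Real.exp x) ^ (-(3 / 2 * (a : ℝ) - 1 / 4))),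
    ← Real.rpow_mul hpos.le, ← Real.rpow_natCast (1 + Real.exp x)]
  rw [mul_assoc, mul_assoc, ← mul_assoc ((1 + Real.exp x) ^ _), ← Real.rpow_add hpos, mul_comm _ (Real.exp (-x)), ← mul_assoc,
    ← Real.exp_add]
  congr 2
  · push_cast; ring
  · push_cast; ring

theorem Om_le {a : ℕ} (ha : 1 ≤ a) (x y : ℝ) : 0 ≤ Om a x y ∧ Om a x y ≤ om a x * om a y := by
  refine ⟨by unfold Om; positivity, ?_⟩
  have ha' : (1 : ℝ) ≤ a := by exact_mod_cast ha
  have hx := Real.exp_pos x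
  have hy := Real.exp_pos y
  unfold Om om
  have e1 : Real.exp (((a : ℝ) + 1 / 2) * (x + y)) = Real.exp (((a : ℝ) + 1 / 2) * x) * Real.exp (((a : ℝ) + 1 / 2) * y) := by
    rw [← Real.exp_add]; congr 1; ring
  have e2 : (1 + Real.exp x + Real.exp y) ^ (-(3 * (a : ℝ) - 1 / 2)) ≤
      (1 + Real.exp x) ^ (-(3 / 2 * (a : ℝ) - 1 / 4)) * (1 + Real.exp y) ^ (-(3 / 2 * (a : ℝ) - 1 / 4)) := by
    rw [← Real.mul_rpow (by positivity) (by positivity)]
    have e3 : (1 + Real.exp x + Real.exp y) ^ (-(3 * (a : ℝ) - 1 / 2)) =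
        ((1 + Real.exp x + Real.exp y) ^ 2) ^ (-(3 / 2 * (a : ℝ) - 1 / 4)) := by
      rw [← Real.rpow_natCast (1 + Real.exp x + Real.exp y), ← Real.rpow_mul (by positivity)]
      congr 1; push_cast; ring
    rw [e3]
    apply Real.rpow_le_rpow_of_nonpos (by positivity) _ (by linarith)
    nlinarith
  rw [e1]
  calc _ ≤ (Real.exp (((a : ℝ) + 1 / 2) * x) * Real.exp (((a : ℝ) + 1 / 2) * y)) * ((1 + Real.exp x) ^ (-(3 / 2 * (a : ℝ) - 1 / 4)) * (1 + Real.exp y) ^ (-(3 / 2 * (a : ℝ) - 1 / 4))) :=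
        mul_le_mul_of_nonneg_left e2 (by positivity)
    _ = _ := by ring

end OL
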