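import Pool.Agent.Lib.MP_39df77_nt.OL.B02a
import Pool.Agent.Lib.MP_39df77_nt.OL.B03b
import Pool.Agent.Lib.MP_39df77_nt.OL.A11

/-! Bessel inequality -/

set_option autoImplicit false

open Complex MeasureTheory Set Filter Topology
open scoped Real ComplexConjugate

namespace OL

lemma b03c_ei_integral (j : ℤ) (n : ℕ) : ∫ v in (n : ℝ)..(n + 1), ei (2 * Real.pi * j * v) = if j = 0 then 1 else 0 := by
  split_ifs with h
  · subst h; simp [a11_ei_zero]
  · have hpi := Real.pi_pos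
    have hj : (j : ℂ) ≠ 0 := by exact_mod_cast h
    have hc : (2 * Real.pi * j * I : ℂ) ≠ 0 := by
      have : (Real.pi : ℂ) ≠ 0 := by exact_mod_cast hpi.ne'
      simp [hj, this]
    have h1 : ∀ v : ℝ, ei (2 * Real.pi * j * v) = cexp ((2 * Real.pi * j * I) * v) := by
      intro v; unfold ei; congr 1; push_cast; ring
    simp_rw [h1]
    rw [integral_exp_mul_complex hc]
    have h2 : cexp (2 * Real.pi * j * I * ((n + 1 : ℝ) : ℂ)) = cexp (2 * Real.pi * j * I * ((n : ℝ) : ℂ)) := by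
      rw [show (2 * Real.pi * j * I * ((n + 1 : ℝ) : ℂ)) = 2 * Real.pi * j * I * ((n : ℝ) : ℂ) + j * (2 * Real.pi * I) by push_cast; ring,
        Complex.exp_add, Complex.exp_int_mul_two_pi_mul_I, mul_one]
    rw [h2, sub_self, zero_div]

/-- trigonometric polynomial -/
noncomputable def b03c_W (F : Finset ℤ) (c : ℤ → ℂ) (v : ℝ) : ℂ := ∑ k ∈ F, c k * ei (2 * Real.pi * k * v)

lemma b03c_W_cont (F : Finset ℤ) (c : ℤ → ℂ) : Continuous (b03c_W F c) := by
  unfold b03c_W
  exact continuous_finset_sum _ fun k _ => continuous_const.mul (a11_ei_cont.comp (by fun_prop))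

lemma b03c_norm_W_le (F : Finset ℤ) (c : ℤ → ℂ) (v : ℝ) : ‖b03c_W F c v‖ ≤ ∑ k ∈ F, ‖c k‖ := by
  unfold b03c_W
  refine le_trans (norm_sum_le _ _) (le_of_eq ?_)
  refine Finset.sum_congr rfl fun k _ => ?_
  rw [norm_mul, a11_norm_ei, mul_one]

lemma b03c_W_unit (F : Finset ℤ) (c : ℤ → ℂ) (n : ℕ) :
    ∫ v in (n : ℝ)..(n + 1), ‖b03c_W F c v‖ ^ 2 = ∑ k ∈ F, ‖c k‖ ^ 2 := by
  apply Complex.ofReal_injective
  rw [← intervalIntegral.integral_ofReal]
  have h1 : ∀ v : ℝ, ((‖b03c_W F c v‖ ^ 2 : ℝ) : ℂ) = ∑ k ∈ F, ∑ l ∈ F, c k * (starRingEnd ℂ) (c l) * ei (2 * Real.pi * (k - l : ℤ) * v) := by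
    intro v
    rw [← Complex.normSq_eq_norm_sq, ← Complex.mul_conj]
    unfold b03c_W
    rw [map_sum, Finset.sum_mul_sum]
    refine Finset.sum_congr rfl fun k _ => Finset.sum_congr rfl fun l _ => ?_
    rw [map_mul, a11_ei_conj, show (2 * Real.pi * ((k - l : ℤ) : ℝ) * v) = 2 * Real.pi * k * v + -(2 * Real.pi * l * v) by push_cast; ring, a11_ei_add]
    ring
  have hI : ∀ k l : ℤ, IntervalIntegrable (fun v : ℝ => c k * (starRingEnd ℂ) (c l) * ei (2 * Real.pi * (k - l : ℤ) * v)) volume (n : ℝ) (n + 1) := by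
    intro k l
    apply Continuous.intervalIntegrable
    exact continuous_const.mul (a11_ei_cont.comp (by fun_prop))
  simp_rw [h1]
  have hI2 : ∀ k : ℤ, IntervalIntegrable (fun v : ℝ => ∑ l ∈ F, c k * (starRingEnd ℂ) (c l) * ei (2 * Real.pi * (k - l : ℤ) * v)) volume (n : ℝ) (n + 1) := by
    intro k
    apply Continuous.intervalIntegrable
    exact continuous_finset_sum _ fun l _ => continuous_const.mul (a11_ei_cont.comp (by fun_prop))
  rw [intervalIntegral.integral_finset_sum (fun k _ => hI2 k)]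
  push_cast
  refine Finset.sum_congr rfl fun k hk => ?_
  rw [intervalIntegral.integral_finset_sum (fun l _ => by simpa using hI k l)]
  rw [Finset.sum_eq_single k]
  · simp only [sub_self, Int.cast_zero, mul_zero, zero_mul, a11_ei_zero, mul_one]
    rw [intervalIntegral.integral_const, Complex.mul_conj, Complex.normSq_eq_norm_sq]
    simp
  · intro l _ hl
    have := b03c_ei_integral (k - l) n
    rw [if_neg (by omega)] at this
    rw [intervalIntegral.integral_const_mul]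
    push_cast at this
    rw [this, mul_zero]
  · intro h; exact absurd hk h

lemma b03c_sum_inv_sq (N : ℕ) : ∑ n ∈ Finset.range N, 1 / (1 + (n : ℝ)) ^ 2 ≤ 2 := by
  have h : ∀ N : ℕ, ∑ n ∈ Finset.range (N + 1), 1 / (1 + (n : ℝ)) ^ 2 ≤ 2 - 1 / ((N : ℝ) + 1) := by
    intro N
    induction N with
    | zero => simp; norm_num
    | succ N ih =>
      rw [Finset.sum_range_succ]
      push_cast
      have h0 : (0 : ℝ) ≤ N := Nat.cast_nonneg _
      have : 1 / (1 + ((N : ℝ) + 1)) ^ 2 ≤ 1 / ((N : ℝ) + 1) - 1 / ((N : ℝ) + 1 + 1) := by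
        rw [div_sub_div _ _ (by positivity) (by positivity), div_le_div_iff₀ (by positivity) (by positivity)]
        nlinarith
      linarith
  rcases N with _ | N
  · simp
  · have := h N
    have h2 : 0 ≤ 1 / ((N : ℝ) + 1) := by positivity
    linarith

lemma b03c_W_Ioi (F : Finset ℤ) (c : ℤ → ℂ) :
    ∫ v in Ioi (0 : ℝ), ‖b03c_W F c v‖ ^ 2 / (1 + v) ^ 2 ≤ 2 * ∑ k ∈ F, ‖c k‖ ^ 2 := by
  have hB : 0 ≤ ∑ k ∈ F, ‖c k‖ ^ 2 := Finset.sum_nonneg fun _ _ => by positivity
  have hint : IntegrableOn (fun v : ℝ => ‖b03c_W F c v‖ ^ 2 / (1 + v) ^ 2) (Ioi 0) := by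
    refine Integrable.mono' (g := fun v => (∑ k ∈ F, ‖c k‖) ^ 2 * (1 + v ^ 2)⁻¹) ?_ ?_ ?_
    · exact (integrable_inv_one_add_sq.const_mul _).integrableOn
    · apply AEStronglyMeasurable.mul
      · exact ((b03c_W_cont F c).norm.pow 2).aestronglyMeasurable
      · apply Measurable.aestronglyMeasurable
        fun_prop
    · filter_upwards [ae_restrict_mem measurableSet_Ioi] with v hv
      have hv0 : 0 < v := hv
      rw [Real.norm_of_nonneg (by positivity), div_eq_mul_inv]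
      apply mul_le_mul _ _ (by positivity) (by positivity)
      · exact pow_le_pow_left₀ (norm_nonneg _) (b03c_norm_W_le F c v) 2
      · apply inv_anti₀ (by positivity); nlinarith
  have ht := intervalIntegral_tendsto_integral_Ioi (0 : ℝ) hint tendsto_natCast_atTop_atTop
  refine le_of_tendsto' ht fun N => ?_
  have hii : ∀ k : ℕ, IntervalIntegrable (fun v : ℝ => ‖b03c_W F c v‖ ^ 2 / (1 + v) ^ 2) volume (k : ℝ) ((k + 1 : ℕ) : ℝ) := by
    intro k
    apply ContinuousOn.intervalIntegrable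
    intro v hv
    rw [Set.uIcc_of_le (by push_cast; linarith)] at hv
    have hv0 : 0 ≤ v := le_trans (Nat.cast_nonneg _) hv.1
    apply ContinuousAt.continuousWithinAt
    apply ContinuousAt.div
    · exact ((b03c_W_cont F c).norm.pow 2).continuousAt
    · fun_prop
    · positivity
  have hs := intervalIntegral.sum_integral_adjacent_intervals (a := fun n : ℕ => (n : ℝ)) (n := N) (fun k _ => hii k)
  simp only [Nat.cast_zero] at hs
  rw [← hs]
  have hone : ∀ k ∈ Finset.range N, ∫ v in (k : ℝ)..((k + 1 : ℕ) : ℝ), ‖b03c_W F c v‖ ^ 2 / (1 + v) ^ 2 ≤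
      (∑ k ∈ F, ‖c k‖ ^ 2) * (1 / (1 + (k : ℝ)) ^ 2) := by
    intro k _
    rw [← b03c_W_unit F c k, ← intervalIntegral.integral_mul_const]
    push_cast
    apply intervalIntegral.integral_mono_on (by linarith)
    · have := hii k; push_cast at this; exact this
    · exact (((b03c_W_cont F c).norm.pow 2).mul continuous_const).intervalIntegrable _ _
    · intro v hv
      have hk : (0 : ℝ) ≤ k := Nat.cast_nonneg _
      rw [div_eq_mul_one_div]
      apply mul_le_mul_of_nonneg_left _ (by positivity)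
      apply div_le_div_of_nonneg_left (by norm_num) (by positivity)
      apply pow_le_pow_left₀ (by positivity)
      linarith [hv.1]
  refine le_trans (Finset.sum_le_sum hone) ?_
  rw [← Finset.mul_sum, mul_comm]
  exact mul_le_mul_of_nonneg_right (b03c_sum_inv_sq N) hB

/-- the density in `J` -/
noncomputable def b03c_G (a : ℕ) (S : Finset ℝ) (x : ℝ) : ℝ := ‖rr S x‖ ^ 2 * om a x

lemma b03c_G_nonneg (a : ℕ) (S : Finset ℝ) (x : ℝ) : 0 ≤ b03c_G a S x := mul_nonneg (by positivity) (om_pos a x).le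

lemma b03c_G_cont (a : ℕ) (S : Finset ℝ) : Continuous (b03c_G a S) :=
  ((a11_rr_cont S).norm.pow 2).mul (om_cont a)

lemma b03c_G_le {a : ℕ} (ha : 6 ≤ a) (S : Finset ℝ) (x : ℝ) : b03c_G a S x ≤ ‖rr S x‖ ^ 2 * Real.exp (-|x|) :=
  mul_le_mul_of_nonneg_left (om_le ha x) (by positivity)

lemma b03c_G_int {a : ℕ} (ha : 6 ≤ a) (S : Finset ℝ) : Integrable (b03c_G a S) := by
  refine (a11_rr_integrable S 2 (T := 1) (by norm_num)).mono' (b03c_G_cont a S).aestronglyMeasurable ?_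
  filter_upwards with x
  rw [Real.norm_of_nonneg (b03c_G_nonneg a S x), one_mul]
  exact b03c_G_le ha S x

/-- `∫ ‖rr S x‖² om(x) e(k e^x) dx` -/
noncomputable def JJ (a : ℕ) (S : Finset ℝ) (k : ℤ) : ℂ :=
  ∫ x : ℝ, ((‖rr S x‖ ^ 2 * om a x : ℝ) : ℂ) * ei (2 * π * k * Real.exp x)

lemma b03c_JJ_int {a : ℕ} (ha : 6 ≤ a) (S : Finset ℝ) (k : ℤ) :
    Integrable (fun x : ℝ => ((b03c_G a S x : ℝ) : ℂ) * ei (2 * Real.pi * k * Real.exp x)) := by
  apply (b03c_G_int ha S).ofReal.mul_bdd (c := 1)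
  · exact (a11_ei_cont.comp (by fun_prop)).aestronglyMeasurable
  · filter_upwards with x; rw [a11_norm_ei]

/-- Bessel's inequality -/
theorem bessel {a : ℕ} (ha : 6 ≤ a) (S : Finset ℝ) (F : Finset ℤ) : ∑ k ∈ F, ‖JJ a S k‖ ^ 2 ≤ 2 * En S := by
  obtain ⟨c, hc⟩ : ∃ c : ℤ → ℂ, c = fun k => (starRingEnd ℂ) (JJ a S k) := ⟨_, rfl⟩
  obtain ⟨B, hB⟩ : ∃ B : ℝ, B = ∑ k ∈ F, ‖JJ a S k‖ ^ 2 := ⟨_, rfl⟩
  have hB0 : 0 ≤ B := by rw [hB]; exact Finset.sum_nonneg fun _ _ => by positivity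
  have hcB : ∑ k ∈ F, ‖c k‖ ^ 2 = B := by
    rw [hB, hc]; refine Finset.sum_congr rfl fun k _ => ?_; rw [RCLike.norm_conj]
  -- B as an integral
  have h1 : ((B : ℝ) : ℂ) = ∫ x : ℝ, ((b03c_G a S x : ℝ) : ℂ) * b03c_W F c (Real.exp x) := by
    have e1 : ∀ x : ℝ, ((b03c_G a S x : ℝ) : ℂ) * b03c_W F c (Real.exp x) = ∑ k ∈ F, c k * (((b03c_G a S x : ℝ) : ℂ) * ei (2 * Real.pi * k * Real.exp x)) := by
      intro x; unfold b03c_W; rw [Finset.mul_sum]; refine Finset.sum_congr rfl fun k _ => ?_; ring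
    simp_rw [e1]
    rw [integral_finset_sum _ (fun k _ => (b03c_JJ_int ha S k).const_mul _), hB]
    push_cast
    refine Finset.sum_congr rfl fun k _ => ?_
    rw [integral_const_mul, hc]
    simp only
    change _ = (starRingEnd ℂ) (JJ a S k) * JJ a S k
    rw [← Complex.normSq_eq_conj_mul_self, Complex.normSq_eq_norm_sq]
    push_cast; ring
  -- integrability of the two squares
  have hP : Integrable (fun x : ℝ => b03c_G a S x ^ 2 * (1 + Real.exp x) ^ 2 * Real.exp (-x)) := by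
    refine (a11_rr_integrable S 4 (T := 2) (by norm_num)).mono' ?_ ?_
    · apply Continuous.aestronglyMeasurable
      exact (((b03c_G_cont a S).pow 2).mul (by fun_prop)).mul (by fun_prop)
    · filter_upwards with x
      rw [Real.norm_of_nonneg (by positivity)]
      have := om_sq_le ha x
      calc b03c_G a S x ^ 2 * (1 + Real.exp x) ^ 2 * Real.exp (-x) = ‖rr S x‖ ^ 4 * (om a x ^ 2 * (1 + Real.exp x) ^ 2 * Real.exp (-x)) := by
            unfold b03c_G; ring
        _ ≤ _ := mul_le_mul_of_nonneg_left this (by positivity)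
  have hPle : ∫ x : ℝ, b03c_G a S x ^ 2 * (1 + Real.exp x) ^ 2 * Real.exp (-x) ≤ En S := by
    rw [← a11_En_eq]
    apply integral_mono hP (a11_rr_integrable S 4 (T := 2) (by norm_num))
    intro x
    have := om_sq_le ha x
    calc b03c_G a S x ^ 2 * (1 + Real.exp x) ^ 2 * Real.exp (-x) = ‖rr S x‖ ^ 4 * (om a x ^ 2 * (1 + Real.exp x) ^ 2 * Real.exp (-x)) := by
          unfold b03c_G; ring
      _ ≤ _ := mul_le_mul_of_nonneg_left this (by positivity)
  have hQ : Integrable (fun x : ℝ => Real.exp x * (‖b03c_W F c (Real.exp x)‖ ^ 2 / (1 + Real.exp x) ^ 2)) := by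
    refine ((a11_integrable_exp (T := 1) (by norm_num)).const_mul ((∑ k ∈ F, ‖c k‖) ^ 2)).mono' ?_ ?_
    · apply Continuous.aestronglyMeasurable
      apply Continuous.mul (by fun_prop)
      apply Continuous.div
      · exact ((b03c_W_cont F c).comp Real.continuous_exp).norm.pow 2
      · fun_prop
      · intro x; positivity
    · filter_upwards with x
      rw [Real.norm_of_nonneg (by positivity)]
      have h := om_w_le (p := 2) (q := 1) (r := 1) (by norm_num) (by norm_num) (by norm_num) x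
      rw [Real.rpow_neg (by positivity), show (1 + Real.exp x) ^ (2 : ℝ) = (1 + Real.exp x) ^ 2 by rw [← Real.rpow_natCast]; norm_num] at h
      calc Real.exp x * (‖b03c_W F c (Real.exp x)‖ ^ 2 / (1 + Real.exp x) ^ 2)
          = ‖b03c_W F c (Real.exp x)‖ ^ 2 * (Real.exp (1 * x) * ((1 + Real.exp x) ^ 2)⁻¹) := by rw [one_mul]; ring
        _ ≤ _ := mul_le_mul (pow_le_pow_left₀ (norm_nonneg _) (b03c_norm_W_le F c _) 2) h (by positivity) (by positivity)
  have hQle : ∫ x : ℝ, Real.exp x * (‖b03c_W F c (Real.exp x)‖ ^ 2 / (1 + Real.exp x) ^ 2) ≤ 2 * B := by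
    have := b03c_W_Ioi F c
    rw [← int_exp (fun v => ‖b03c_W F c v‖ ^ 2 / (1 + v) ^ 2), hcB] at this
    exact this
  have h2 : B ≤ ∫ x : ℝ, (b03c_G a S x ^ 2 * (1 + Real.exp x) ^ 2 * Real.exp (-x) +
      1 / 4 * (Real.exp x * (‖b03c_W F c (Real.exp x)‖ ^ 2 / (1 + Real.exp x) ^ 2))) := by
    have e1 : B = ‖((B : ℝ) : ℂ)‖ := by rw [Complex.norm_real, Real.norm_of_nonneg hB0]
    rw [e1, h1]
    refine le_trans (norm_integral_le_integral_norm _) ?_
    apply integral_mono_of_nonneg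
    · filter_upwards with x; positivity
    · exact hP.add (hQ.const_mul _)
    · filter_upwards with x
      rw [norm_mul, Complex.norm_real, Real.norm_of_nonneg (b03c_G_nonneg a S x)]
      obtain ⟨E, hE⟩ : ∃ E, E = Real.exp (x / 2) := ⟨_, rfl⟩
      have hE0 : 0 < E := by rw [hE]; positivity
      have hE2 : Real.exp x = E ^ 2 := by rw [hE, ← Real.exp_nat_mul]; congr 1; push_cast; ring
      have hE3 : Real.exp (-x) = (E ^ 2)⁻¹ := by rw [Real.exp_neg, hE2]
      rw [hE3, hE2]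
      have key := sq_nonneg (b03c_G a S x * (1 + E ^ 2) / E - 1 / 2 * (‖b03c_W F c (E ^ 2)‖ * E / (1 + E ^ 2)))
      have e2 : (b03c_G a S x * (1 + E ^ 2) / E - 1 / 2 * (‖b03c_W F c (E ^ 2)‖ * E / (1 + E ^ 2))) ^ 2 =
        b03c_G a S x ^ 2 * (1 + E ^ 2) ^ 2 * (E ^ 2)⁻¹ + 1 / 4 * (E ^ 2 * (‖b03c_W F c (E ^ 2)‖ ^ 2 / (1 + E ^ 2) ^ 2)) - b03c_G a S x * ‖b03c_W F c (E ^ 2)‖ := by
        field_simp
        ring
      rw [e2] at key
      linarith
  rw [integral_add hP (hQ.const_mul _), integral_const_mul] at h2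
  rw [← hB]
  linarith


theorem JJ_zero {a : ℕ} (ha : 6 ≤ a) {S : Finset ℝ} (hS : Sep S) (k : ℤ) : ‖JJ a S k‖ ≤ 16 * S.card := by
  obtain ⟨h1, h2⟩ := rr2_le hS
  refine le_trans (norm_integral_le_integral_norm _) (le_trans ?_ h2)
  apply integral_mono_of_nonneg (ae_of_all _ fun x => norm_nonneg _) h1
  filter_upwards with x
  rw [norm_mul, a11_norm_ei, mul_one, Complex.norm_real]
  have := b03c_G_nonneg a S x
  unfold b03c_G at this
  rw [Real.norm_of_nonneg this]
  exact b03c_G_le ha S x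

/-- orthogonality: `∫_n^{n+1} ‖∑_{k ∈ F} c_k e(kv)‖² dv = ∑ ‖c_k‖²` -/
theorem orth (F : Finset ℤ) (c : ℤ → ℂ) (n : ℕ) :
    ∫ v in (n : ℝ)..(n + 1), ‖∑ k ∈ F, c k * ei (2 * π * k * v)‖ ^ 2 = ∑ k ∈ F, ‖c k‖ ^ 2 :=
  b03c_W_unit F c n

end OL
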