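import Pool.Agent.Lib.MP_39df77_nt.OL.B03a
import Pool.Agent.Lib.MP_39df77_nt.OL.B03c

/-! the second factor in terms of `JJ` -/

set_option autoImplicit false

open Complex MeasureTheory Set Filter Topology
open scoped Real ComplexConjugate

namespace OL

lemma b03d_JJ_le {a : ℕ} (ha : 6 ≤ a) (S : Finset ℝ) (k : ℤ) : ‖JJ a S k‖ ≤ ∫ x, b03c_G a S x := by
  refine le_trans (norm_integral_le_integral_norm _) (le_of_eq ?_)
  apply integral_congr_ae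
  filter_upwards with x
  rw [norm_mul, a11_norm_ei, mul_one, Complex.norm_real]
  exact Real.norm_of_nonneg (b03c_G_nonneg a S x)

/-- the weights -/
noncomputable def b03d_w (M : ℝ) (h : ℤ) : ℝ := Real.exp (-(2 * π * |(h : ℝ)| / M))

lemma b03d_w_pos (M : ℝ) (h : ℤ) : 0 < b03d_w M h := Real.exp_pos _

lemma b03d_w_sum {M : ℝ} (hM : 0 < M) : Summable (b03d_w M) := (Th_eq hM 0).2.1

lemma b03d_Th_cont {M : ℝ} (hM : 0 < M) : Continuous (Th M) := by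
  have h1 : Continuous fun θ : ℝ => ∑' h : ℤ, ((b03d_w M h : ℝ) : ℂ) * ei (2 * π * h * θ) := by
    apply continuous_tsum (u := b03d_w M)
    · intro h
      exact continuous_const.mul (a11_ei_cont.comp (by fun_prop))
    · exact b03d_w_sum hM
    · intro h θ
      rw [norm_mul, a11_norm_ei, mul_one, Complex.norm_real, Real.norm_of_nonneg (b03d_w_pos M h).le]
  have h2 : Th M = fun θ => (((π / M : ℝ) : ℂ) * ∑' h : ℤ, ((b03d_w M h : ℝ) : ℂ) * ei (2 * π * h * θ)).re := by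
    funext θ
    have := (Th_eq hM θ).2.2
    change ((Th M θ : ℝ) : ℂ) = ((π / M : ℝ) : ℂ) * ∑' h : ℤ, ((b03d_w M h : ℝ) : ℂ) * ei (2 * π * h * θ) at this
    rw [← this, Complex.ofReal_re]
  rw [h2]
  exact Complex.continuous_re.comp (continuous_const.mul h1)

lemma b03d_Th_nonneg (M θ : ℝ) : 0 ≤ Th M θ := tsum_nonneg fun _ => by positivity

lemma b03d_Th_le {M : ℝ} (hM : 0 < M) (θ : ℝ) : Th M θ ≤ π / M * ∑' h : ℤ, b03d_w M h := by
  have h1 := (Th_eq hM θ).2.2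
  change ((Th M θ : ℝ) : ℂ) = ((π / M : ℝ) : ℂ) * ∑' h : ℤ, ((b03d_w M h : ℝ) : ℂ) * ei (2 * π * h * θ) at h1
  have h2 : Th M θ = ‖((Th M θ : ℝ) : ℂ)‖ := by
    rw [Complex.norm_real, Real.norm_of_nonneg (b03d_Th_nonneg M θ)]
  have hn : ∀ h : ℤ, ‖((b03d_w M h : ℝ) : ℂ) * ei (2 * π * h * θ)‖ = b03d_w M h := by
    intro h
    rw [norm_mul, a11_norm_ei, mul_one, Complex.norm_real, Real.norm_of_nonneg (b03d_w_pos M h).le]
  rw [h2, h1, norm_mul, Complex.norm_real, Real.norm_of_nonneg (by positivity)]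
  apply mul_le_mul_of_nonneg_left _ (by positivity)
  refine le_trans (norm_tsum_le_tsum_norm ?_) (le_of_eq (tsum_congr hn))
  simp_rw [hn]
  exact b03d_w_sum hM

lemma b03d_GG_int {a : ℕ} (ha : 6 ≤ a) (S : Finset ℝ) :
    Integrable (fun p : ℝ × ℝ => b03c_G a S p.1 * b03c_G a S p.2) := by
  rw [Measure.volume_eq_prod]
  exact (b03c_G_int ha S).mul_prod (b03c_G_int ha S)

lemma b03d_GGT_int {a : ℕ} (ha : 6 ≤ a) (S : Finset ℝ) {M : ℝ} (hM : 0 < M) (m1 m2 : ℝ) :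
    Integrable (fun p : ℝ × ℝ => b03c_G a S p.1 * b03c_G a S p.2 * Th M (m1 * Real.exp p.1 + m2 * Real.exp p.2)) := by
  apply (b03d_GG_int ha S).mul_bdd (c := π / M * ∑' h : ℤ, b03d_w M h)
  · exact ((b03d_Th_cont hM).comp (by fun_prop)).aestronglyMeasurable
  · filter_upwards with p
    rw [Real.norm_of_nonneg (b03d_Th_nonneg _ _)]
    exact b03d_Th_le hM _

/-- the double integral as a sum over `h` -/
lemma b03d_eq {a : ℕ} (ha : 6 ≤ a) (S : Finset ℝ) {M : ℝ} (hM : 0 < M) (m1 m2 : ℤ) :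
    HasSum (fun h : ℤ => ((π / M : ℝ) : ℂ) * (((b03d_w M h : ℝ) : ℂ) * (JJ a S (h * m1) * JJ a S (h * m2))))
    ((∫ p : ℝ × ℝ, b03c_G a S p.1 * b03c_G a S p.2 * Th M (m1 * Real.exp p.1 + m2 * Real.exp p.2) : ℝ) : ℂ) := by
  obtain ⟨F, hF⟩ : ∃ F : ℤ → ℝ × ℝ → ℂ, F = fun h p => (((π / M * b03d_w M h : ℝ)) : ℂ) *
      ((((b03c_G a S p.1 : ℝ) : ℂ) * ei (2 * π * (h * m1 : ℤ) * Real.exp p.1)) *
      (((b03c_G a S p.2 : ℝ) : ℂ) * ei (2 * π * (h * m2 : ℤ) * Real.exp p.2))) := ⟨_, rfl⟩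
  have hFi : ∀ h, Integrable (F h) := by
    intro h
    rw [hF]
    apply Integrable.const_mul
    rw [Measure.volume_eq_prod]
    exact (b03c_JJ_int ha S (h * m1)).mul_prod (b03c_JJ_int ha S (h * m2))
  have hFn : ∀ h p, ‖F h p‖ = π / M * b03d_w M h * (b03c_G a S p.1 * b03c_G a S p.2) := by
    intro h p
    rw [hF]
    simp only [norm_mul, a11_norm_ei, mul_one, Complex.norm_real]
    rw [Real.norm_of_nonneg (b03c_G_nonneg a S _), Real.norm_of_nonneg (b03c_G_nonneg a S _),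
      Real.norm_of_nonneg (by positivity : (0 : ℝ) ≤ π / M), Real.norm_of_nonneg (b03d_w_pos M h).le]
  have hsum : Summable fun h => ∫ p, ‖F h p‖ := by
    simp_rw [hFn]
    simp_rw [integral_const_mul]
    exact ((b03d_w_sum hM).mul_left (π / M)).mul_right _
  have h1 := hasSum_integral_of_summable_integral_norm hFi hsum
  have hint : ∀ h, ∫ p, F h p = ((π / M : ℝ) : ℂ) * (((b03d_w M h : ℝ) : ℂ) * (JJ a S (h * m1) * JJ a S (h * m2))) := by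
    intro h
    rw [hF]
    simp only
    rw [integral_const_mul, Measure.volume_eq_prod]
    rw [integral_prod_mul (fun x : ℝ => ((b03c_G a S x : ℝ) : ℂ) * ei (2 * π * (h * m1 : ℤ) * Real.exp x))
      (fun x : ℝ => ((b03c_G a S x : ℝ) : ℂ) * ei (2 * π * (h * m2 : ℤ) * Real.exp x))]
    rw [Complex.ofReal_mul (π / M), mul_assoc]
    rfl
  simp_rw [hint] at h1
  have h2 : ∫ p, ∑' h, F h p = ((∫ p : ℝ × ℝ, b03c_G a S p.1 * b03c_G a S p.2 * Th M (m1 * Real.exp p.1 + m2 * Real.exp p.2) : ℝ) : ℂ) := by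
    rw [← integral_complex_ofReal]
    apply integral_congr_ae
    filter_upwards with p
    have h3 := (Th_eq hM (m1 * Real.exp p.1 + m2 * Real.exp p.2)).2.2
    rw [Complex.ofReal_mul, h3, ← mul_assoc, ← tsum_mul_left]
    apply tsum_congr
    intro h
    rw [hF]
    simp only
    rw [show (2 * π * (h : ℝ) * (m1 * Real.exp p.1 + m2 * Real.exp p.2)) =
      2 * π * ((h * m1 : ℤ) : ℝ) * Real.exp p.1 + 2 * π * ((h * m2 : ℤ) : ℝ) * Real.exp p.2 by push_cast; ring, a11_ei_add]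
    unfold b03d_w
    push_cast
    ring
  rw [h2] at h1
  exact h1

/-- Proof: `Om_le`, `Th_eq`, product of integrals (`integral_prod_mul`), `∑_h` and `∫` commute (`‖rr‖ ≤ R`). -/
theorem Q2_JJ {a : ℕ} (ha : 6 ≤ a) {M : ℝ} (hM : 1 ≤ M) (Y : ℕ) (S : Finset ℝ) :
    Summable (fun h : ℤ => Real.exp (-(2 * π * |(h : ℝ)| / M)) * ‖∑ m ∈ Zs Y, JJ a S (h * m)‖ ^ 2) ∧
    ∑ m1 ∈ Zs Y, ∑ m2 ∈ Zs Y, ∫ p : ℝ × ℝ,
        ‖rr S p.1‖ ^ 2 * ‖rr S p.2‖ ^ 2 * Om a p.1 p.2 * Th M (m1 * Real.exp p.1 + m2 * Real.exp p.2) ≤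
      π / M * ∑' h : ℤ, Real.exp (-(2 * π * |(h : ℝ)| / M)) * ‖∑ m ∈ Zs Y, JJ a S (h * m)‖ ^ 2 := by
  have hM0 : 0 < M := by linarith
  have hG0 : 0 ≤ ∫ x, b03c_G a S x := integral_nonneg fun x => b03c_G_nonneg a S x
  have hbd : ∀ h : ℤ, ‖∑ m ∈ Zs Y, JJ a S (h * m)‖ ≤ (Zs Y).card * ∫ x, b03c_G a S x := by
    intro h
    refine le_trans (norm_sum_le _ _) ?_
    rw [← nsmul_eq_mul]
    exact Finset.sum_le_card_nsmul _ _ _ fun m _ => b03d_JJ_le ha S _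
  have hs : Summable (fun h : ℤ => b03d_w M h * ‖∑ m ∈ Zs Y, JJ a S (h * m)‖ ^ 2) := by
    refine Summable.of_nonneg_of_le (fun h => mul_nonneg (b03d_w_pos M h).le (by positivity)) (fun h => ?_)
      ((b03d_w_sum hM0).mul_right (((Zs Y).card * ∫ x, b03c_G a S x) ^ 2))
    exact mul_le_mul_of_nonneg_left (pow_le_pow_left₀ (norm_nonneg _) (hbd h) 2) (b03d_w_pos M h).le
  refine ⟨hs, ?_⟩
  have hstep : ∀ m1 m2 : ℤ, ∫ p : ℝ × ℝ,
        ‖rr S p.1‖ ^ 2 * ‖rr S p.2‖ ^ 2 * Om a p.1 p.2 * Th M (m1 * Real.exp p.1 + m2 * Real.exp p.2) ≤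
      ∫ p : ℝ × ℝ, b03c_G a S p.1 * b03c_G a S p.2 * Th M (m1 * Real.exp p.1 + m2 * Real.exp p.2) := by
    intro m1 m2
    apply integral_mono_of_nonneg
    · filter_upwards with p
      have := (Om_le (a := a) (by omega) p.1 p.2).1
      have h2 := b03d_Th_nonneg M (m1 * Real.exp p.1 + m2 * Real.exp p.2)
      exact mul_nonneg (mul_nonneg (by positivity) this) h2
    · exact b03d_GGT_int ha S hM0 m1 m2
    · filter_upwards with p
      have h1 := (Om_le (a := a) (by omega) p.1 p.2).2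
      have h2 := b03d_Th_nonneg M (m1 * Real.exp p.1 + m2 * Real.exp p.2)
      apply mul_le_mul_of_nonneg_right _ h2
      calc ‖rr S p.1‖ ^ 2 * ‖rr S p.2‖ ^ 2 * Om a p.1 p.2 ≤ ‖rr S p.1‖ ^ 2 * ‖rr S p.2‖ ^ 2 * (om a p.1 * om a p.2) :=
            mul_le_mul_of_nonneg_left h1 (by positivity)
        _ = _ := by unfold b03c_G; ring
  refine le_trans (Finset.sum_le_sum fun m1 _ => Finset.sum_le_sum fun m2 _ => hstep m1 m2) ?_
  -- complex identity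
  have hcx : HasSum (fun h : ℤ => ((π / M : ℝ) : ℂ) * (((b03d_w M h : ℝ) : ℂ) * (∑ m ∈ Zs Y, JJ a S (h * m)) ^ 2))
      ((∑ m1 ∈ Zs Y, ∑ m2 ∈ Zs Y, ∫ p : ℝ × ℝ, b03c_G a S p.1 * b03c_G a S p.2 * Th M (m1 * Real.exp p.1 + m2 * Real.exp p.2) : ℝ) : ℂ) := by
    have h1 := hasSum_sum (s := Zs Y) (fun m1 _ => hasSum_sum (s := Zs Y) (fun m2 _ => b03d_eq ha S hM0 m1 m2))
    push_cast at h1 ⊢
    refine h1.congr_fun ?_
    intro h
    rw [sq, Finset.sum_mul_sum]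
    simp_rw [Finset.mul_sum]
  have hnn : 0 ≤ ∑ m1 ∈ Zs Y, ∑ m2 ∈ Zs Y, ∫ p : ℝ × ℝ, b03c_G a S p.1 * b03c_G a S p.2 * Th M (m1 * Real.exp p.1 + m2 * Real.exp p.2) :=
    Finset.sum_nonneg fun m1 _ => Finset.sum_nonneg fun m2 _ => integral_nonneg fun p =>
      mul_nonneg (mul_nonneg (b03c_G_nonneg a S _) (b03c_G_nonneg a S _)) (b03d_Th_nonneg _ _)
  rw [show (∑ m1 ∈ Zs Y, ∑ m2 ∈ Zs Y, ∫ p : ℝ × ℝ, b03c_G a S p.1 * b03c_G a S p.2 * Th M (m1 * Real.exp p.1 + m2 * Real.exp p.2)) =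
    ‖((∑ m1 ∈ Zs Y, ∑ m2 ∈ Zs Y, ∫ p : ℝ × ℝ, b03c_G a S p.1 * b03c_G a S p.2 * Th M (m1 * Real.exp p.1 + m2 * Real.exp p.2) : ℝ) : ℂ)‖ by
    rw [Complex.norm_real, Real.norm_of_nonneg hnn]]
  rw [← hcx.tsum_eq]
  have hn : ∀ h : ℤ, ‖((π / M : ℝ) : ℂ) * (((b03d_w M h : ℝ) : ℂ) * (∑ m ∈ Zs Y, JJ a S (h * m)) ^ 2)‖ =
      π / M * (b03d_w M h * ‖∑ m ∈ Zs Y, JJ a S (h * m)‖ ^ 2) := by
    intro h
    rw [norm_mul, norm_mul, norm_pow, Complex.norm_real, Complex.norm_real, Real.norm_of_nonneg (by positivity),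
      Real.norm_of_nonneg (b03d_w_pos M h).le]
  refine le_trans (norm_tsum_le_tsum_norm ?_) ?_
  · simp_rw [hn]; exact hs.mul_left _
  · simp_rw [hn]; rw [tsum_mul_left]; exact le_rfl

end OL
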