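import Pool.Agent.Lib.MP_39df77_nt.OL.B02
import Pool.Agent.Lib.MP_39df77_nt.OL.B03

/-! bound for the cubic trace -/

set_option autoImplicit false

open Complex MeasureTheory Set Filter Topology
open scoped Real ComplexConjugate

namespace OL

lemma b04_Om_cont (a : ℕ) : Continuous (fun p : ℝ × ℝ => Om a p.1 p.2) := by
  unfold Om
  apply Continuous.mul (by fun_prop)
  apply Continuous.rpow_const (by fun_prop)
  intro p; left; positivity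

/-- integrability of a bounded continuous function against `Om` -/
lemma b04_int {a : ℕ} (ha : 6 ≤ a) {f : ℝ × ℝ → ℝ} (hf : Continuous f) {c : ℝ} (hc : ∀ p, |f p| ≤ c) :
    Integrable (fun p : ℝ × ℝ => f p * Om a p.1 p.2) := by
  have h1 : Integrable (fun p : ℝ × ℝ => c * (Real.exp (-(1 * |p.1|)) * Real.exp (-(1 * |p.2|)))) := by
    apply Integrable.const_mul
    rw [Measure.volume_eq_prod]
    exact (a11_integrable_exp (T := 1) (by norm_num)).mul_prod (a11_integrable_exp (T := 1) (by norm_num))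
  refine h1.mono' (hf.mul (b04_Om_cont a)).aestronglyMeasurable ?_
  filter_upwards with p
  have hO := Om_le (a := a) (by omega) p.1 p.2
  rw [norm_mul, Real.norm_eq_abs, Real.norm_of_nonneg hO.1, one_mul, one_mul]
  have h2 : Om a p.1 p.2 ≤ Real.exp (-|p.1|) * Real.exp (-|p.2|) :=
    le_trans hO.2 (mul_le_mul (om_le ha _) (om_le ha _) (om_pos a _).le (Real.exp_pos _).le)
  exact mul_le_mul (hc p) h2 hO.1 (le_trans (abs_nonneg _) (hc p))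

/-- Proof: `tr3`, Cauchy-Schwarz for `∑_{m1,m2,m3} ∫`, `Q1_le`, `Q2_le` (`∑_{m3 ∈ Zs Y} 1/(1+(M(θ+m3))²) ≤ Th M θ`),
`1 + log Y ≤ C (MY)^e`. -/
theorem tr3_le {a : ℕ} (ha : 6 ≤ a) {e : ℝ} (he : 0 < e) : ∃ C : ℝ, 0 < C ∧
    ∀ (M : ℝ) (Y : ℕ) (S : Finset ℝ), 1 ≤ M → 1 ≤ Y → Sep S →
    ‖∑ s ∈ S, ∑ t ∈ S, ∑ u ∈ S, KY a Y M (s - t) * KY a Y M (t - u) * KY a Y M (u - s)‖ ≤
      C * (M * Y) ^ e * (M ^ 2 * ((Y : ℝ) ^ 2 * (S.card : ℝ) ^ (3 / 2 : ℝ) +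
        (Y : ℝ) ^ (3 / 2 : ℝ) * (S.card : ℝ) ^ (1 / 2 : ℝ) * En S ^ (1 / 2 : ℝ))) := by
  obtain ⟨C0, hC0, H0⟩ := tr3 (a := a) (by omega)
  obtain ⟨C1, hC1, H1⟩ := Q1_le ha
  obtain ⟨C2, hC2, H2⟩ := Q2_le ha he
  refine ⟨C0 * Real.sqrt (C1 * C2 * (1 + 1 / e)), by positivity, fun M Y S hM hY hS => ?_⟩
  rcases S.eq_empty_or_nonempty with hemp | hne
  · subst hemp
    simp only [Finset.sum_empty, norm_zero]
    have hE : 0 ≤ En ∅ ^ (1 / 2 : ℝ) := Real.rpow_nonneg (le_trans (sq_nonneg _) (En_ge ∅)) _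
    have hM0 : 0 < M := by linarith
    positivity
  have hM0 : 0 < M := by linarith
  have hY' : (1 : ℝ) ≤ Y := by exact_mod_cast hY
  have hY0 : (0 : ℝ) < Y := by linarith
  have hR : (0 : ℝ) < S.card := by exact_mod_cast hne.card_pos
  have hEn : 0 < En S := lt_of_lt_of_le (by positivity) (En_ge S)
  have hlogY : 0 ≤ Real.log Y := Real.log_nonneg hY'
  refine le_trans (H0 M Y S hM) ?_
  obtain ⟨A, hA⟩ : ∃ A, A = C1 * ((Y : ℝ) ^ 2 * (1 + Real.log Y) * S.card / M) := ⟨_, rfl⟩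
  obtain ⟨B, hB⟩ : ∃ B, B = C2 * (M * Y) ^ e / M * ((Y : ℝ) ^ 2 * (S.card : ℝ) ^ 2 + Y * En S) := ⟨_, rfl⟩
  have hA0 : 0 < A := by rw [hA]; positivity
  have hB0 : 0 < B := by rw [hB]; positivity
  have h1 := H1 M Y S hM hY hS
  have h2 := H2 M Y S hM hY hS
  rw [← hA] at h1
  rw [← hB] at h2
  obtain ⟨D, hD⟩ : ∃ D : ℤ → ℤ → ℤ → ℝ × ℝ → ℝ, D = fun (m1 m2 m3 : ℤ) (p : ℝ × ℝ) => 1 + (M * (m1 * Real.exp p.1 + m2 * Real.exp p.2 + m3)) ^ 2 := ⟨_, rfl⟩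
  have hD1 : ∀ m1 m2 m3 p, 1 ≤ D m1 m2 m3 p := by
    intro m1 m2 m3 p; rw [hD]; simp only; nlinarith [sq_nonneg (M * (m1 * Real.exp p.1 + m2 * Real.exp p.2 + m3))]
  have hDc : ∀ m1 m2 m3, Continuous (D m1 m2 m3) := by
    intro m1 m2 m3; rw [hD]; fun_prop
  have hr1 : Continuous (fun p : ℝ × ℝ => ‖rr S p.1‖) := ((rr_cont S).comp continuous_fst).norm
  have hr2 : Continuous (fun p : ℝ × ℝ => ‖rr S p.2‖) := ((rr_cont S).comp continuous_snd).norm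
  have hr3 : Continuous (fun p : ℝ × ℝ => ‖rr S (p.2 - p.1)‖) := ((rr_cont S).comp (by fun_prop)).norm
  have hbR : ∀ x, ‖rr S x‖ ≤ S.card := a11_norm_rr_le S
  have hbd2 : ∀ x, ‖rr S x‖ ^ 2 ≤ (S.card : ℝ) ^ 2 := fun x => pow_le_pow_left₀ (norm_nonneg _) (hbR x) 2
  -- integrability
  have hI1 : ∀ m1 m2 m3, Integrable (fun p : ℝ × ℝ => ‖rr S (p.2 - p.1)‖ ^ 2 * Om a p.1 p.2 / D m1 m2 m3 p) := by
    intro m1 m2 m3
    have := b04_int ha (f := fun p => ‖rr S (p.2 - p.1)‖ ^ 2 / D m1 m2 m3 p) (c := (S.card : ℝ) ^ 2)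
      ((hr3.pow 2).div (hDc m1 m2 m3) (fun p => (lt_of_lt_of_le one_pos (hD1 m1 m2 m3 p)).ne')) (fun p => by
        have hp := hD1 m1 m2 m3 p
        rw [abs_of_nonneg (by positivity)]
        exact le_trans (div_le_self (by positivity) hp) (hbd2 _))
    refine this.congr (ae_of_all _ fun p => ?_)
    simp only; ring
  have hI2 : ∀ m1 m2 m3, Integrable (fun p : ℝ × ℝ => ‖rr S p.1‖ ^ 2 * ‖rr S p.2‖ ^ 2 * Om a p.1 p.2 / D m1 m2 m3 p) := by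
    intro m1 m2 m3
    have := b04_int ha (f := fun p => ‖rr S p.1‖ ^ 2 * ‖rr S p.2‖ ^ 2 / D m1 m2 m3 p) (c := (S.card : ℝ) ^ 2 * (S.card : ℝ) ^ 2)
      (((hr1.pow 2).mul (hr2.pow 2)).div (hDc m1 m2 m3) (fun p => (lt_of_lt_of_le one_pos (hD1 m1 m2 m3 p)).ne')) (fun p => by
        have hp := hD1 m1 m2 m3 p
        rw [abs_of_nonneg (by positivity)]
        exact le_trans (div_le_self (by positivity) hp) (mul_le_mul (hbd2 _) (hbd2 _) (by positivity) (by positivity)))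
    refine this.congr (ae_of_all _ fun p => ?_)
    simp only; ring
  have hI3 : ∀ m1 m2 : ℤ, Integrable (fun p : ℝ × ℝ => ‖rr S p.1‖ ^ 2 * ‖rr S p.2‖ ^ 2 * Om a p.1 p.2 *
      Th M (m1 * Real.exp p.1 + m2 * Real.exp p.2)) := by
    intro m1 m2
    have hTc : Continuous (fun p : ℝ × ℝ => Th M (m1 * Real.exp p.1 + m2 * Real.exp p.2)) :=
      (b03d_Th_cont hM0).comp (by fun_prop)
    have := b04_int ha (f := fun p => ‖rr S p.1‖ ^ 2 * ‖rr S p.2‖ ^ 2 * Th M (m1 * Real.exp p.1 + m2 * Real.exp p.2))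
      (c := (S.card : ℝ) ^ 2 * (S.card : ℝ) ^ 2 * (π / M * ∑' h : ℤ, b03d_w M h))
      (((hr1.pow 2).mul (hr2.pow 2)).mul hTc) (fun p => by
        have hT0 := b03d_Th_nonneg M (m1 * Real.exp p.1 + m2 * Real.exp p.2)
        rw [abs_of_nonneg (by positivity)]
        exact mul_le_mul (mul_le_mul (hbd2 _) (hbd2 _) (by positivity) (by positivity)) (b03d_Th_le hM0 _) hT0 (by positivity))
    refine this.congr (ae_of_all _ fun p => ?_)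
    simp only; ring
  -- Q2 with m3 in Zs
  have h2' : ∑ m1 ∈ Zs Y, ∑ m2 ∈ Zs Y, ∑ m3 ∈ Zs Y, ∫ p : ℝ × ℝ,
      ‖rr S p.1‖ ^ 2 * ‖rr S p.2‖ ^ 2 * Om a p.1 p.2 / D m1 m2 m3 p ≤ B := by
    refine le_trans ?_ h2
    refine Finset.sum_le_sum fun m1 _ => Finset.sum_le_sum fun m2 _ => ?_
    rw [← integral_finset_sum _ (fun m3 _ => hI2 m1 m2 m3)]
    apply integral_mono (integrable_finset_sum _ fun m3 _ => hI2 m1 m2 m3) (hI3 m1 m2)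
    intro p
    simp only
    have hs := (Th_eq hM0 (m1 * Real.exp p.1 + m2 * Real.exp p.2)).1
    have hle := hs.sum_le_tsum (Zs Y) (fun m _ => by positivity)
    have e1 : ∑ m3 ∈ Zs Y, ‖rr S p.1‖ ^ 2 * ‖rr S p.2‖ ^ 2 * Om a p.1 p.2 / D m1 m2 m3 p =
        ‖rr S p.1‖ ^ 2 * ‖rr S p.2‖ ^ 2 * Om a p.1 p.2 * ∑ m3 ∈ Zs Y, 1 / (1 + (M * (m1 * Real.exp p.1 + m2 * Real.exp p.2 + m3)) ^ 2) := by
      rw [Finset.mul_sum, hD]
      refine Finset.sum_congr rfl fun m3 _ => ?_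
      ring
    rw [e1]
    have hO := (Om_le (a := a) (by omega) p.1 p.2).1
    exact mul_le_mul_of_nonneg_left hle (mul_nonneg (by positivity) hO)
  -- Cauchy-Schwarz
  obtain ⟨l, hl⟩ : ∃ l, l = Real.sqrt (B / A) := ⟨_, rfl⟩
  have hl0 : 0 < l := by rw [hl]; exact Real.sqrt_pos.2 (by positivity)
  have hlA : l * A = Real.sqrt (A * B) := by
    rw [hl, show A * B = (B / A) * A ^ 2 by field_simp, Real.sqrt_mul (by positivity), Real.sqrt_sq hA0.le]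
  have hlB : B / l = Real.sqrt (A * B) := by
    rw [div_eq_iff hl0.ne', hl, ← Real.sqrt_mul (by positivity), show A * B * (B / A) = B ^ 2 by field_simp, Real.sqrt_sq hB0.le]
  have hCS : ∑ m1 ∈ Zs Y, ∑ m2 ∈ Zs Y, ∑ m3 ∈ Zs Y, ∫ p : ℝ × ℝ,
      ‖rr S p.1‖ * ‖rr S (p.2 - p.1)‖ * ‖rr S p.2‖ * Om a p.1 p.2 / D m1 m2 m3 p ≤ Real.sqrt (A * B) := by
    have hpt : ∀ m1 m2 m3 : ℤ, ∫ p : ℝ × ℝ, ‖rr S p.1‖ * ‖rr S (p.2 - p.1)‖ * ‖rr S p.2‖ * Om a p.1 p.2 / D m1 m2 m3 p ≤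
        l / 2 * (∫ p : ℝ × ℝ, ‖rr S (p.2 - p.1)‖ ^ 2 * Om a p.1 p.2 / D m1 m2 m3 p) +
        1 / (2 * l) * (∫ p : ℝ × ℝ, ‖rr S p.1‖ ^ 2 * ‖rr S p.2‖ ^ 2 * Om a p.1 p.2 / D m1 m2 m3 p) := by
      intro m1 m2 m3
      rw [← integral_const_mul, ← integral_const_mul, ← integral_add ((hI1 m1 m2 m3).const_mul _) ((hI2 m1 m2 m3).const_mul _)]
      apply integral_mono_of_nonneg
      · filter_upwards with p
        have hO := (Om_le (a := a) (by omega) p.1 p.2).1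
        have hp := hD1 m1 m2 m3 p
        exact div_nonneg (mul_nonneg (by positivity) hO) (by linarith)
      · exact ((hI1 m1 m2 m3).const_mul _).add ((hI2 m1 m2 m3).const_mul _)
      · filter_upwards with p
        have hO := (Om_le (a := a) (by omega) p.1 p.2).1
        have hp := hD1 m1 m2 m3 p
        have key : ‖rr S p.1‖ * ‖rr S (p.2 - p.1)‖ * ‖rr S p.2‖ ≤ l / 2 * ‖rr S (p.2 - p.1)‖ ^ 2 +
            1 / (2 * l) * (‖rr S p.1‖ ^ 2 * ‖rr S p.2‖ ^ 2) := by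
          have h := sq_nonneg (l * ‖rr S (p.2 - p.1)‖ - ‖rr S p.1‖ * ‖rr S p.2‖)
          have e1 : l / 2 * ‖rr S (p.2 - p.1)‖ ^ 2 + 1 / (2 * l) * (‖rr S p.1‖ ^ 2 * ‖rr S p.2‖ ^ 2) -
            ‖rr S p.1‖ * ‖rr S (p.2 - p.1)‖ * ‖rr S p.2‖ = (l * ‖rr S (p.2 - p.1)‖ - ‖rr S p.1‖ * ‖rr S p.2‖) ^ 2 / (2 * l) := by
            field_simp
            ring
          have e2 : 0 ≤ (l * ‖rr S (p.2 - p.1)‖ - ‖rr S p.1‖ * ‖rr S p.2‖) ^ 2 / (2 * l) := by positivity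
          linarith
        have hq : 0 ≤ Om a p.1 p.2 / D m1 m2 m3 p := div_nonneg hO (by linarith)
        have := mul_le_mul_of_nonneg_right key hq
        calc _ = ‖rr S p.1‖ * ‖rr S (p.2 - p.1)‖ * ‖rr S p.2‖ * (Om a p.1 p.2 / D m1 m2 m3 p) := by ring
          _ ≤ _ := this
          _ = _ := by ring
    calc _ ≤ ∑ m1 ∈ Zs Y, ∑ m2 ∈ Zs Y, ∑ m3 ∈ Zs Y, (l / 2 * (∫ p : ℝ × ℝ, ‖rr S (p.2 - p.1)‖ ^ 2 * Om a p.1 p.2 / D m1 m2 m3 p) +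
        1 / (2 * l) * (∫ p : ℝ × ℝ, ‖rr S p.1‖ ^ 2 * ‖rr S p.2‖ ^ 2 * Om a p.1 p.2 / D m1 m2 m3 p)) :=
          Finset.sum_le_sum fun m1 _ => Finset.sum_le_sum fun m2 _ => Finset.sum_le_sum fun m3 _ => hpt m1 m2 m3
      _ = l / 2 * (∑ m1 ∈ Zs Y, ∑ m2 ∈ Zs Y, ∑ m3 ∈ Zs Y, ∫ p : ℝ × ℝ, ‖rr S (p.2 - p.1)‖ ^ 2 * Om a p.1 p.2 / D m1 m2 m3 p) +
        1 / (2 * l) * (∑ m1 ∈ Zs Y, ∑ m2 ∈ Zs Y, ∑ m3 ∈ Zs Y, ∫ p : ℝ × ℝ, ‖rr S p.1‖ ^ 2 * ‖rr S p.2‖ ^ 2 * Om a p.1 p.2 / D m1 m2 m3 p) := by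
          simp only [Finset.sum_add_distrib, Finset.mul_sum]
      _ ≤ l / 2 * A + 1 / (2 * l) * B := by
          have h1' : ∑ m1 ∈ Zs Y, ∑ m2 ∈ Zs Y, ∑ m3 ∈ Zs Y, ∫ p : ℝ × ℝ, ‖rr S (p.2 - p.1)‖ ^ 2 * Om a p.1 p.2 / D m1 m2 m3 p ≤ A := by
            rw [hD]; exact h1
          exact add_le_add (mul_le_mul_of_nonneg_left h1' (by positivity)) (mul_le_mul_of_nonneg_left h2' (by positivity))
      _ = (l * A + B / l) / 2 := by field_simp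
      _ = Real.sqrt (A * B) := by rw [hlA, hlB]; ring
  have hCS' : ∑ m1 ∈ Zs Y, ∑ m2 ∈ Zs Y, ∑ m3 ∈ Zs Y, ∫ p : ℝ × ℝ,
        ‖rr S p.1‖ * ‖rr S (p.2 - p.1)‖ * ‖rr S p.2‖ * Om a p.1 p.2 /
          (1 + (M * (m1 * Real.exp p.1 + m2 * Real.exp p.2 + m3)) ^ 2) ≤ Real.sqrt (A * B) := by
    rw [hD] at hCS; exact hCS
  -- numerics
  have hlog : 1 + Real.log Y ≤ (1 + 1 / e) * (M * Y) ^ e := by
    have a1 := Real.log_le_rpow_div hY0.le he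
    have a2 : (Y : ℝ) ^ e ≤ (M * Y) ^ e := Real.rpow_le_rpow hY0.le (by nlinarith) he.le
    have a3 : 1 ≤ (M * Y) ^ e := Real.one_le_rpow (by nlinarith) he.le
    have a4 : (Y : ℝ) ^ e / e ≤ (M * Y) ^ e / e := div_le_div_of_nonneg_right a2 he.le
    calc 1 + Real.log Y ≤ (M * Y) ^ e + (M * Y) ^ e / e := by linarith
      _ = _ := by ring
  have hP : 0 < (M * Y) ^ e := by positivity
  have hAB : A * B ≤ (C1 * C2 * (1 + 1 / e)) * (((M * Y) ^ e) ^ 2 * ((Y : ℝ) ^ 2 * S.card * (((Y : ℝ) * S.card) ^ 2 + Y * En S) / M ^ 2)) := by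
    rw [hA, hB]
    have hX : 0 ≤ C1 * C2 * (M * Y) ^ e * ((Y : ℝ) ^ 2 * S.card * (((Y : ℝ) * S.card) ^ 2 + Y * En S) / M ^ 2) := by positivity
    have := mul_le_mul_of_nonneg_left hlog hX
    calc _ = C1 * C2 * (M * Y) ^ e * ((Y : ℝ) ^ 2 * S.card * (((Y : ℝ) * S.card) ^ 2 + Y * En S) / M ^ 2) * (1 + Real.log Y) := by
          field_simp
      _ ≤ _ := this
      _ = _ := by ring
  have hsq : Real.sqrt (A * B) ≤ Real.sqrt (C1 * C2 * (1 + 1 / e)) * ((M * Y) ^ e * (Y * Real.sqrt S.card * ((Y : ℝ) * S.card + Real.sqrt (Y * En S)) / M)) := by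
    refine le_trans (Real.sqrt_le_sqrt hAB) ?_
    rw [Real.sqrt_mul (by positivity)]
    apply mul_le_mul_of_nonneg_left _ (Real.sqrt_nonneg _)
    apply Real.sqrt_le_iff.2
    refine ⟨by positivity, ?_⟩
    have s1 : Real.sqrt S.card ^ 2 = S.card := Real.sq_sqrt hR.le
    have s2 : Real.sqrt (Y * En S) ^ 2 = Y * En S := Real.sq_sqrt (by positivity)
    have s3 : ((Y : ℝ) * S.card) ^ 2 + Y * En S ≤ ((Y : ℝ) * S.card + Real.sqrt (Y * En S)) ^ 2 := by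
      have : 0 ≤ (Y : ℝ) * S.card * Real.sqrt (Y * En S) := by positivity
      nlinarith
    calc _ ≤ ((M * Y) ^ e) ^ 2 * ((Y : ℝ) ^ 2 * S.card * (((Y : ℝ) * S.card + Real.sqrt (Y * En S)) ^ 2) / M ^ 2) := by
          gcongr
      _ = ((M * Y) ^ e) ^ 2 * ((Y : ℝ) ^ 2 * Real.sqrt S.card ^ 2 * (((Y : ℝ) * S.card + Real.sqrt (Y * En S)) ^ 2) / M ^ 2) := by rw [s1]
      _ = _ := by ring
  have hfin : M ^ 3 * (Y * Real.sqrt S.card * ((Y : ℝ) * S.card + Real.sqrt (Y * En S)) / M) =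
      M ^ 2 * ((Y : ℝ) ^ 2 * (S.card : ℝ) ^ (3 / 2 : ℝ) + (Y : ℝ) ^ (3 / 2 : ℝ) * (S.card : ℝ) ^ (1 / 2 : ℝ) * En S ^ (1 / 2 : ℝ)) := by
    have r1 : (S.card : ℝ) ^ (3 / 2 : ℝ) = S.card * (S.card : ℝ) ^ (1 / 2 : ℝ) := by
      rw [show (3 / 2 : ℝ) = 1 + 1 / 2 by norm_num, Real.rpow_add hR, Real.rpow_one]
    have r2 : (Y : ℝ) ^ (3 / 2 : ℝ) = Y * (Y : ℝ) ^ (1 / 2 : ℝ) := by
      rw [show (3 / 2 : ℝ) = 1 + 1 / 2 by norm_num, Real.rpow_add hY0, Real.rpow_one]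
    rw [Real.sqrt_mul hY0.le, Real.sqrt_eq_rpow, Real.sqrt_eq_rpow, Real.sqrt_eq_rpow, r1, r2]
    field_simp
  calc _ ≤ C0 * M ^ 3 * Real.sqrt (A * B) := mul_le_mul_of_nonneg_left hCS' (by positivity)
    _ ≤ C0 * M ^ 3 * (Real.sqrt (C1 * C2 * (1 + 1 / e)) * ((M * Y) ^ e * (Y * Real.sqrt S.card * ((Y : ℝ) * S.card + Real.sqrt (Y * En S)) / M))) :=
        mul_le_mul_of_nonneg_left hsq (by positivity)
    _ = C0 * Real.sqrt (C1 * C2 * (1 + 1 / e)) * (M * Y) ^ e * (M ^ 3 * (Y * Real.sqrt S.card * ((Y : ℝ) * S.card + Real.sqrt (Y * En S)) / M)) := by ring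
    _ = _ := by rw [hfin]

end OL
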