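import Pool.Agent.Lib.MP_39df77_nt.OL.Defs

/-! linear algebra -/

set_option autoImplicit false

open Complex MeasureTheory Set Filter Topology
open scoped Real ComplexConjugate

namespace OL

open Matrix in
/-- the quadratic form in the coordinates of an orthonormal eigenbasis -/
lemma spectral_form {n : Type} [Fintype n] [DecidableEq n] (A : Matrix n n ℂ) (hA : A.IsHermitian)
    (x : n → ℂ) :
    (star x ⬝ᵥ A *ᵥ x).re =
      ∑ i, hA.eigenvalues i * ‖(star (hA.eigenvectorUnitary : Matrix n n ℂ) *ᵥ x) i‖ ^ 2 := by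
  set U : Matrix n n ℂ := (hA.eigenvectorUnitary : Matrix n n ℂ) with hU
  set y := star U *ᵥ x with hy
  have h1 : A = U * Matrix.diagonal (RCLike.ofReal ∘ hA.eigenvalues) * star U := by
    have := hA.spectral_theorem
    rw [Unitary.conjStarAlgAut_apply] at this
    exact this
  have h2 : star x ⬝ᵥ A *ᵥ x = star y ⬝ᵥ (Matrix.diagonal (RCLike.ofReal ∘ hA.eigenvalues)) *ᵥ y := by
    conv_lhs => rw [h1]
    rw [← mulVec_mulVec, ← mulVec_mulVec, dotProduct_mulVec, ← hy]
    congr 1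
    rw [hy, star_mulVec, ← star_eq_conjTranspose, star_star]
  rw [h2]
  simp only [dotProduct, mulVec_diagonal, Pi.star_apply, Complex.re_sum, Function.comp_apply]
  refine Finset.sum_congr rfl fun i _ => ?_
  have h3 : star (y i) * (((hA.eigenvalues i : ℝ) : ℂ) * y i) =
      ((hA.eigenvalues i * ‖y i‖ ^ 2 : ℝ) : ℂ) := by
    have := Complex.conj_mul' (y i)
    rw [show star (y i) = conj (y i) from rfl]
    push_cast
    linear_combination ((hA.eigenvalues i : ℝ) : ℂ) * this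
  exact (congrArg Complex.re h3).trans (Complex.ofReal_re _)

open Matrix in
lemma spectral_norm {n : Type} [Fintype n] [DecidableEq n] (A : Matrix n n ℂ) (hA : A.IsHermitian)
    (x : n → ℂ) :
    ∑ i, ‖x i‖ ^ 2 =
      ∑ i, ‖(star (hA.eigenvectorUnitary : Matrix n n ℂ) *ᵥ x) i‖ ^ 2 := by
  set U : Matrix n n ℂ := (hA.eigenvectorUnitary : Matrix n n ℂ) with hU
  set y := star U *ᵥ x with hy
  have h0 : U * star U = 1 := Unitary.coe_mul_star_self hA.eigenvectorUnitary
  have h1 : star y ⬝ᵥ y = star x ⬝ᵥ x := by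
    rw [hy, star_mulVec, ← star_eq_conjTranspose, star_star, ← dotProduct_mulVec, mulVec_mulVec, h0,
      one_mulVec]
  have h2 : ∀ z : n → ℂ, star z ⬝ᵥ z = ((∑ i, ‖z i‖ ^ 2 : ℝ) : ℂ) := by
    intro z
    simp only [dotProduct, Pi.star_apply]
    push_cast
    refine Finset.sum_congr rfl fun i _ => ?_
    exact Complex.conj_mul' (z i)
  rw [h2, h2] at h1
  exact_mod_cast h1.symm

open Matrix in
lemma spectral_trace {n : Type} [Fintype n] [DecidableEq n] (A : Matrix n n ℂ) (hA : A.IsHermitian)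
    (k : ℕ) : (A ^ k).trace = ((∑ i, hA.eigenvalues i ^ k : ℝ) : ℂ) := by
  set U : Matrix n n ℂ := (hA.eigenvectorUnitary : Matrix n n ℂ) with hU
  have h1 : A ^ k = U * (Matrix.diagonal (RCLike.ofReal ∘ hA.eigenvalues)) ^ k * star U := by
    have h2 := congrArg (fun B : Matrix n n ℂ => B ^ k) hA.spectral_theorem
    exact h2.trans (by rw [← map_pow, Unitary.conjStarAlgAut_apply])
  rw [h1, trace_mul_comm, ← mul_assoc, Unitary.coe_star_mul_self, one_mul, diagonal_pow,
    trace_diagonal]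
  push_cast
  refine Finset.sum_congr rfl fun i _ => ?_
  simp

open Matrix in
lemma spectral_core {n : Type} [Fintype n] [DecidableEq n] (A : Matrix n n ℂ) (hA : A.IsHermitian)
    {κ : ℝ} (hκ : 0 ≤ κ) (h : ∀ x : n → ℂ, -κ * ∑ s, ‖x s‖ ^ 2 ≤ (star x ⬝ᵥ A *ᵥ x).re)
    (c : n → ℂ) {q : ℝ} (hq0 : 0 ≤ q) (hc : 0 < ∑ s, ‖c s‖ ^ 2)
    (hq : q * ∑ s, ‖c s‖ ^ 2 ≤ (star c ⬝ᵥ A *ᵥ c).re) :
    q ^ 3 ≤ ‖(A ^ 3).trace‖ + κ * ((A ^ 2).trace).re := by
  set U : Matrix n n ℂ := (hA.eigenvectorUnitary : Matrix n n ℂ) with hU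
  have h0 : star U * U = 1 := Unitary.coe_star_mul_self hA.eigenvectorUnitary
  -- the eigenvalues are at least -κ
  have h1 : ∀ i, -κ ≤ hA.eigenvalues i := by
    intro i
    have e1 := h (U *ᵥ Pi.single i 1)
    rw [spectral_form A hA, spectral_norm A hA, ← hU, mulVec_mulVec, h0, one_mulVec] at e1
    have e2 : ∑ j, ‖(Pi.single i (1 : ℂ) : n → ℂ) j‖ ^ 2 = 1 := by
      rw [Finset.sum_eq_single i]
      · simp
      · intro j _ hj
        simp [hj]
      · simp
    have e3 : ∑ j, hA.eigenvalues j * ‖(Pi.single i (1 : ℂ) : n → ℂ) j‖ ^ 2 =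
        hA.eigenvalues i := by
      rw [Finset.sum_eq_single i]
      · simp
      · intro j _ hj
        simp [hj]
      · simp
    rw [e2, e3] at e1
    linarith
  -- one of them is at least q
  have h2 : ∃ i, q ≤ hA.eigenvalues i := by
    by_contra hcon
    push Not at hcon
    rw [spectral_form A hA, spectral_norm A hA, Finset.mul_sum] at hq
    rw [spectral_norm A hA] at hc
    obtain ⟨i, -, hi⟩ := Finset.exists_ne_zero_of_sum_ne_zero hc.ne'
    refine absurd hq (not_le.mpr ?_)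
    apply Finset.sum_lt_sum
    · intro j _
      exact mul_le_mul_of_nonneg_right (hcon j).le (by positivity)
    · exact ⟨i, Finset.mem_univ _, mul_lt_mul_of_pos_right (hcon i)
        (lt_of_le_of_ne (by positivity) (Ne.symm hi))⟩
  obtain ⟨i, hi⟩ := h2
  rw [spectral_trace A hA 3, spectral_trace A hA 2, Complex.ofReal_re]
  have h3 : ∑ j, hA.eigenvalues j ^ 3 ≤ ‖((∑ j, hA.eigenvalues j ^ 3 : ℝ) : ℂ)‖ := by
    rw [Complex.norm_real]
    exact le_abs_self _
  have h4 : hA.eigenvalues i ^ 3 + κ * hA.eigenvalues i ^ 2 ≤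
      ∑ j, (hA.eigenvalues j ^ 3 + κ * hA.eigenvalues j ^ 2) := by
    apply Finset.single_le_sum (f := fun j => hA.eigenvalues j ^ 3 + κ * hA.eigenvalues j ^ 2)
    · intro j _
      have e1 := h1 j
      have e2 : hA.eigenvalues j ^ 3 + κ * hA.eigenvalues j ^ 2 =
          hA.eigenvalues j ^ 2 * (hA.eigenvalues j + κ) := by ring
      rw [e2]
      exact mul_nonneg (sq_nonneg _) (by linarith)
    · exact Finset.mem_univ _
  rw [Finset.sum_add_distrib, ← Finset.mul_sum] at h4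
  have h5 : q ^ 3 ≤ hA.eigenvalues i ^ 3 := pow_le_pow_left₀ hq0 hi 3
  have h6 : 0 ≤ κ * hA.eigenvalues i ^ 2 := by positivity
  linarith

/-- Proof: spectral theorem for the matrix indexed by `S`; `q ≤ λ_max`, `λ_max³ ≤ ∑ λ³ + κ ∑ λ²` as `λ ≥ -κ`. -/
theorem spectral (S : Finset ℝ) (E : ℝ → ℝ → ℂ) (hE : ∀ s ∈ S, ∀ t ∈ S, E t s = conj (E s t)) {κ : ℝ}
    (hκ : 0 ≤ κ)
    (h : ∀ x : ℝ → ℂ, -κ * ∑ s ∈ S, ‖x s‖ ^ 2 ≤ (∑ s ∈ S, ∑ t ∈ S, conj (x s) * E s t * x t).re)
    (c : ℝ → ℂ) (hc : ∀ s ∈ S, ‖c s‖ = 1) (hS : S.Nonempty) {q : ℝ} (hq0 : 0 ≤ q)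
    (hq : q * S.card ≤ (∑ s ∈ S, ∑ t ∈ S, conj (c s) * E s t * c t).re) :
    q ^ 3 ≤ ‖∑ s ∈ S, ∑ t ∈ S, ∑ u ∈ S, E s t * E t u * E u s‖ + κ * ∑ s ∈ S, ∑ t ∈ S, ‖E s t‖ ^ 2 := by
  classical
  set A : Matrix S S ℂ := fun s t => E s t with hAdef
  have hA : A.IsHermitian := by
    ext s t
    rw [Matrix.conjTranspose_apply]
    show star (E t s) = E s t
    rw [hE s s.2 t t.2]
    simp
  have hform : ∀ x : ℝ → ℂ, ∑ s ∈ S, ∑ t ∈ S, conj (x s) * E s t * x t =
      star (fun s : S => x s) ⬝ᵥ (A.mulVec fun s : S => x s) := by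
    intro x
    simp only [dotProduct, Matrix.mulVec, Pi.star_apply, Finset.mul_sum]
    rw [← Finset.sum_coe_sort S]
    refine Finset.sum_congr rfl fun s _ => ?_
    rw [← Finset.sum_coe_sort S]
    refine Finset.sum_congr rfl fun t _ => ?_
    rw [mul_assoc]
    rfl
  have hcard : ∑ s : S, ‖c s‖ ^ 2 = S.card := by
    rw [Finset.sum_congr rfl (g := fun _ => (1 : ℝ))]
    · simp
    · intro s _
      rw [hc s s.2]
      norm_num
  have hmain := spectral_core A hA hκ (fun x => ?_) (fun s : S => c s) hq0 ?_ ?_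
  · have e3 : (A ^ 3).trace = ∑ s ∈ S, ∑ t ∈ S, ∑ u ∈ S, E s t * E t u * E u s := by
      rw [← Finset.sum_coe_sort S]
      rw [pow_succ, sq]
      simp only [Matrix.trace, Matrix.diag_apply, Matrix.mul_apply]
      refine Finset.sum_congr rfl fun s _ => ?_
      simp only [Finset.sum_mul]
      rw [Finset.sum_comm, ← Finset.sum_coe_sort S]
      refine Finset.sum_congr rfl fun t _ => ?_
      rw [← Finset.sum_coe_sort S]
    have e2 : ((A ^ 2).trace).re = ∑ s ∈ S, ∑ t ∈ S, ‖E s t‖ ^ 2 := by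
      rw [← Finset.sum_coe_sort S]
      rw [sq]
      simp only [Matrix.trace, Matrix.diag_apply, Matrix.mul_apply, Complex.re_sum]
      refine Finset.sum_congr rfl fun s _ => ?_
      rw [← Finset.sum_coe_sort S]
      refine Finset.sum_congr rfl fun t _ => ?_
      show (E s t * E t s).re = _
      rw [hE s s.2 t t.2, Complex.mul_conj, Complex.ofReal_re, Complex.normSq_eq_norm_sq]
    rw [e3, e2] at hmain
    exact hmain
  · -- extend x by zero
    have e1 := h (fun t => if ht : t ∈ S then x ⟨t, ht⟩ else 0)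
    rw [hform] at e1
    have e2 : (fun s : S => (fun t => if ht : t ∈ S then x ⟨t, ht⟩ else 0) (s : ℝ)) = x := by
      funext s
      simp
    rw [e2] at e1
    have e3 : ∑ s ∈ S, ‖(fun t => if ht : t ∈ S then x ⟨t, ht⟩ else 0) s‖ ^ 2 =
        ∑ s : S, ‖x s‖ ^ 2 := by
      rw [← Finset.sum_coe_sort S]
      refine Finset.sum_congr rfl fun s _ => ?_
      simp
    rw [e3] at e1
    exact e1
  · rw [hcard]
    exact_mod_cast hS.card_pos
  · rw [hcard, ← hform c]
    exact hq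

end OL
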