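import Pool.Agent.Lib.MP_39df77_nt.OL.Defs

/-! duality and positivity -/

set_option autoImplicit false

open Complex MeasureTheory Set Filter Topology
open scoped Real ComplexConjugate

namespace OL

private theorem C02_norm_ei (x : ℝ) : ‖ei x‖ = 1 := by
  unfold ei
  exact Complex.norm_exp_ofReal_mul_I x

private theorem C02_ei_add (x y : ℝ) : ei (x + y) = ei x * ei y := by
  unfold ei
  rw [← Complex.exp_add]
  push_cast
  ring_nf

private theorem C02_conj_ei (x : ℝ) : conj (ei x) = ei (-x) := by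
  unfold ei
  rw [← Complex.exp_conj]
  simp

private theorem C02_wt_nonneg (a : ℕ) {u : ℝ} (hu : 0 ≤ u) : 0 ≤ wt a u := by
  unfold wt
  positivity

private theorem C02_wt_summable {a : ℕ} {M : ℝ} (hM : 0 < M) :
    Summable (fun n : ℕ => wt a ((n + 1 : ℝ) / M)) := by
  have h1 : Summable (fun n : ℕ => (n : ℝ) ^ a * Real.exp (-(1 / M) * n)) :=
    Real.summable_pow_mul_exp_neg_nat_mul a (by positivity)
  have h2 : Summable (fun n : ℕ => ((n + 1 : ℕ) : ℝ) ^ a * Real.exp (-(1 / M) * ((n + 1 : ℕ) : ℝ))) :=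
    (summable_nat_add_iff 1).mpr h1
  refine Summable.of_nonneg_of_le (fun n => C02_wt_nonneg a (by positivity)) (fun n => ?_)
    (h2.mul_left ((1 / M) ^ a * M ^ (1 / 2 : ℝ)))
  have hn : (0 : ℝ) < (n + 1 : ℝ) / M := by positivity
  unfold wt
  have e1 : ((n + 1 : ℝ) / M) ^ ((a : ℝ) - 1 / 2) =
      ((n + 1 : ℝ) / M) ^ a * ((n + 1 : ℝ) / M) ^ (-(1 / 2) : ℝ) := by
    rw [sub_eq_add_neg, Real.rpow_add hn, Real.rpow_natCast]
  have e2 : ((n + 1 : ℝ) / M) ^ (-(1 / 2) : ℝ) ≤ M ^ (1 / 2 : ℝ) := by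
    rw [Real.rpow_neg hn.le, ← Real.inv_rpow hn.le]
    refine Real.rpow_le_rpow (by positivity) ?_ (by norm_num)
    rw [inv_div]
    refine div_le_self hM.le ?_
    have : (0 : ℝ) ≤ n := n.cast_nonneg
    linarith
  have e3 : Real.exp (-((n + 1 : ℝ) / M)) = Real.exp (-(1 / M) * ((n + 1 : ℕ) : ℝ)) := by
    congr 1
    push_cast
    ring
  rw [e1, e3]
  calc ((n + 1 : ℝ) / M) ^ a * ((n + 1 : ℝ) / M) ^ (-(1 / 2) : ℝ) *
        Real.exp (-(1 / M) * ((n + 1 : ℕ) : ℝ))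
      ≤ ((n + 1 : ℝ) / M) ^ a * M ^ (1 / 2 : ℝ) * Real.exp (-(1 / M) * ((n + 1 : ℕ) : ℝ)) := by
        gcongr
    _ = (1 / M) ^ a * M ^ (1 / 2 : ℝ) *
          (((n + 1 : ℕ) : ℝ) ^ a * Real.exp (-(1 / M) * ((n + 1 : ℕ) : ℝ))) := by
        push_cast
        rw [div_eq_mul_one_div, mul_pow]
        ring

theorem K_summable {a : ℕ} {M : ℝ} (hM : 0 < M) (τ : ℝ) :
    Summable (fun n : ℕ => ((wt a ((n + 1 : ℝ) / M) : ℝ) : ℂ) * ei (τ * Real.log (n + 1 : ℝ))) := by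
  refine Summable.of_norm ?_
  refine (C02_wt_summable (a := a) hM).congr fun n => ?_
  rw [norm_mul, C02_norm_ei, mul_one, Complex.norm_real, Real.norm_eq_abs,
    abs_of_nonneg (C02_wt_nonneg a (by positivity))]

private theorem C02_hasSum {a : ℕ} {M : ℝ} (hM : 0 < M) (S : Finset ℝ) (x : ℝ → ℂ) :
    HasSum (fun n : ℕ => wt a ((n + 1 : ℝ) / M) *
        ‖∑ t ∈ S, x t * ei (t * Real.log (n + 1 : ℝ))‖ ^ 2)
      (∑ s ∈ S, ∑ t ∈ S, conj (x s) * K a M (t - s) * x t).re := by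
  have h : HasSum (fun n : ℕ => ∑ s ∈ S, ∑ t ∈ S, conj (x s) *
      (((wt a ((n + 1 : ℝ) / M) : ℝ) : ℂ) * ei ((t - s) * Real.log (n + 1 : ℝ))) * x t)
      (∑ s ∈ S, ∑ t ∈ S, conj (x s) * K a M (t - s) * x t) := by
    refine hasSum_sum fun s _ => hasSum_sum fun t _ => ?_
    exact ((K_summable hM (t - s)).hasSum.mul_left _).mul_right _
  have h3 := Complex.hasSum_re h
  convert h3 using 1
  funext n
  set w : ℝ := wt a ((n + 1 : ℝ) / M) with hw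
  set L : ℝ := Real.log (n + 1 : ℝ) with hL
  set A : ℂ := ∑ t ∈ S, x t * ei (t * L) with hA
  have e1 : (∑ s ∈ S, ∑ t ∈ S, conj (x s) * ((w : ℂ) * ei ((t - s) * L)) * x t) =
      (w : ℂ) * (conj A * A) := by
    rw [hA, map_sum, Finset.sum_mul_sum, Finset.mul_sum]
    refine Finset.sum_congr rfl fun s _ => ?_
    rw [Finset.mul_sum]
    refine Finset.sum_congr rfl fun t _ => ?_
    rw [map_mul, C02_conj_ei]
    have e2 : ei ((t - s) * L) = ei (-(s * L)) * ei (t * L) := by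
      rw [← C02_ei_add]
      congr 1
      ring
    rw [e2]
    ring
  rw [e1, Complex.conj_mul']
  have e3 : (w : ℂ) * ((‖A‖ : ℂ) ^ 2) = ((w * ‖A‖ ^ 2 : ℝ) : ℂ) := by push_cast; ring
  rw [e3, Complex.ofReal_re]

/-- Cauchy-Schwarz with weights `wt (n/M) ≥ e^{-4}` for `M < n ≤ 4M`; at most `4M` terms -/
theorem duality {a : ℕ} (ha : 1 ≤ a) {M B V : ℝ} (hM : 1 ≤ M) (hB : 0 ≤ B) (hV : 0 ≤ V) (S : Finset ℝ)
    (b : ℕ → ℂ) (hb : ∀ n ∈ Finset.Ioc ⌊M⌋₊ ⌊4 * M⌋₊, ‖b n‖ ≤ B) (hD : ∀ t ∈ S, V ≤ ‖Dp b M t‖) :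
    ∃ c : ℝ → ℂ, (∀ t, ‖c t‖ = 1) ∧ ((S.card : ℝ) * V) ^ 2 ≤ 4 * Real.exp 4 * B ^ 2 * M *
      (∑ s ∈ S, ∑ t ∈ S, conj (c s) * K a M (t - s) * c t).re := by
  classical
  have hM0 : 0 < M := by linarith
  set D : ℝ → ℂ := fun t => Dp b M t with hDdef
  set c : ℝ → ℂ := fun t => if D t = 0 then 1 else D t / (‖D t‖ : ℂ) with hc
  have hc1 : ∀ t, ‖c t‖ = 1 := fun t => by
    simp only [hc]
    split_ifs with h
    · simp
    · rw [norm_div, Complex.norm_real, norm_norm]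
      exact div_self (norm_ne_zero_iff.mpr h)
  have hc2 : ∀ t, conj (c t) * D t = (‖D t‖ : ℂ) := fun t => by
    simp only [hc]
    split_ifs with h
    · rw [h]; simp
    · have h0 : (‖D t‖ : ℂ) ≠ 0 := by
        rw [Ne, Complex.ofReal_eq_zero]
        exact norm_ne_zero_iff.mpr h
      rw [map_div₀, Complex.conj_ofReal, div_mul_eq_mul_div, Complex.conj_mul']
      field_simp
  refine ⟨c, hc1, ?_⟩
  set N : Finset ℕ := Finset.Ioc ⌊M⌋₊ ⌊4 * M⌋₊ with hN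
  set A : ℕ → ℂ := fun n => ∑ t ∈ S, c t * ei (t * Real.log n) with hA
  -- lower bound
  have h1 : (S.card : ℝ) * V ≤ ∑ t ∈ S, ‖D t‖ := by
    rw [← nsmul_eq_mul]
    exact Finset.card_nsmul_le_sum _ _ _ hD
  have h2 : ((∑ t ∈ S, ‖D t‖ : ℝ) : ℂ) = ∑ n ∈ N, b n * conj (A n) := by
    rw [Complex.ofReal_sum]
    calc ∑ t ∈ S, (‖D t‖ : ℂ) = ∑ t ∈ S, conj (c t) * D t :=
          Finset.sum_congr rfl fun t _ => (hc2 t).symm
      _ = ∑ t ∈ S, ∑ n ∈ N, conj (c t) * (b n * ei (-(t * Real.log n))) := by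
          refine Finset.sum_congr rfl fun t _ => ?_
          rw [← Finset.mul_sum]
          rfl
      _ = ∑ n ∈ N, ∑ t ∈ S, conj (c t) * (b n * ei (-(t * Real.log n))) := Finset.sum_comm
      _ = ∑ n ∈ N, b n * conj (A n) := by
          refine Finset.sum_congr rfl fun n _ => ?_
          rw [hA, map_sum, Finset.mul_sum]
          refine Finset.sum_congr rfl fun t _ => ?_
          rw [map_mul, C02_conj_ei]
          ring
  have h3 : ∑ t ∈ S, ‖D t‖ ≤ ∑ n ∈ N, ‖b n‖ * ‖A n‖ := by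
    have h4 : ∑ t ∈ S, ‖D t‖ = ‖((∑ t ∈ S, ‖D t‖ : ℝ) : ℂ)‖ := by
      rw [Complex.norm_real, Real.norm_of_nonneg (Finset.sum_nonneg fun t _ => norm_nonneg _)]
    rw [h4, h2]
    refine (norm_sum_le _ _).trans (Finset.sum_le_sum fun n _ => ?_)
    rw [norm_mul, RCLike.norm_conj]
  have h5 : (∑ n ∈ N, ‖b n‖ * ‖A n‖) ^ 2 ≤ (∑ n ∈ N, ‖b n‖ ^ 2) * ∑ n ∈ N, ‖A n‖ ^ 2 :=
    Finset.sum_mul_sq_le_sq_mul_sq _ _ _
  have h6 : ∑ n ∈ N, ‖b n‖ ^ 2 ≤ 4 * M * B ^ 2 := by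
    calc ∑ n ∈ N, ‖b n‖ ^ 2 ≤ ∑ _n ∈ N, B ^ 2 := Finset.sum_le_sum fun n hn => by
          have := hb n hn
          gcongr
      _ = (N.card : ℝ) * B ^ 2 := by rw [Finset.sum_const, nsmul_eq_mul]
      _ ≤ 4 * M * B ^ 2 := by
          have h7 : (N.card : ℝ) ≤ 4 * M := by
            rw [hN, Nat.card_Ioc]
            calc ((⌊4 * M⌋₊ - ⌊M⌋₊ : ℕ) : ℝ) ≤ (⌊4 * M⌋₊ : ℝ) := by
                  exact_mod_cast Nat.sub_le _ _
              _ ≤ 4 * M := Nat.floor_le (by positivity)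
          gcongr
  have hwt : ∀ n ∈ N, Real.exp (-4) ≤ wt a ((n : ℝ) / M) := fun n hn => by
    rw [hN, Finset.mem_Ioc] at hn
    have hn1 : M < n := (Nat.floor_lt hM0.le).mp hn.1
    have hn2 : (n : ℝ) ≤ 4 * M := (Nat.le_floor_iff (by positivity)).mp hn.2
    have hu1 : 1 ≤ (n : ℝ) / M := by rw [one_le_div hM0]; exact hn1.le
    have hu2 : (n : ℝ) / M ≤ 4 := by rw [div_le_iff₀ hM0]; exact hn2
    unfold wt
    have ha' : (0 : ℝ) ≤ (a : ℝ) - 1 / 2 := by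
      have : (1 : ℝ) ≤ a := by exact_mod_cast ha
      linarith
    have hp : 1 ≤ ((n : ℝ) / M) ^ ((a : ℝ) - 1 / 2) := Real.one_le_rpow hu1 ha'
    calc Real.exp (-4) ≤ Real.exp (-((n : ℝ) / M)) := Real.exp_le_exp.mpr (by linarith)
      _ ≤ ((n : ℝ) / M) ^ ((a : ℝ) - 1 / 2) * Real.exp (-((n : ℝ) / M)) :=
          le_mul_of_one_le_left (Real.exp_pos _).le hp
  set q : ℝ := (∑ s ∈ S, ∑ t ∈ S, conj (c s) * K a M (t - s) * c t).re with hq
  have hsum := C02_hasSum (a := a) hM0 S c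
  rw [← hq] at hsum
  have h8 : ∑ n ∈ N, wt a ((n : ℝ) / M) * ‖A n‖ ^ 2 ≤ q := by
    have e : ∑ n ∈ N, wt a ((n : ℝ) / M) * ‖A n‖ ^ 2 =
        ∑ m ∈ Finset.Ico ⌊M⌋₊ ⌊4 * M⌋₊, wt a ((m + 1 : ℝ) / M) *
          ‖∑ t ∈ S, c t * ei (t * Real.log (m + 1 : ℝ))‖ ^ 2 := by
      refine Finset.sum_nbij' (fun n => n - 1) (fun m => m + 1) ?_ ?_ ?_ ?_ ?_
      · intro n hn
        rw [hN, Finset.mem_Ioc] at hn
        rw [Finset.mem_Ico]
        omega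
      · intro m hm
        rw [Finset.mem_Ico] at hm
        rw [hN, Finset.mem_Ioc]
        omega
      · intro n hn
        rw [hN, Finset.mem_Ioc] at hn
        show n - 1 + 1 = n
        omega
      · intro m _
        show m + 1 - 1 = m
        omega
      · intro n hn
        rw [hN, Finset.mem_Ioc] at hn
        have h9 : ((n - 1 : ℕ) : ℝ) + 1 = n := by
          have : n - 1 + 1 = n := by omega
          exact_mod_cast this
        show _ = wt a ((((n - 1 : ℕ) : ℝ) + 1) / M) *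
          ‖∑ t ∈ S, c t * ei (t * Real.log (((n - 1 : ℕ) : ℝ) + 1))‖ ^ 2
        rw [h9]
    rw [e]
    exact sum_le_hasSum _ (fun n _ => mul_nonneg (C02_wt_nonneg a (by positivity))
      (sq_nonneg _)) hsum
  have h10 : ∑ n ∈ N, ‖A n‖ ^ 2 ≤ Real.exp 4 * q := by
    calc ∑ n ∈ N, ‖A n‖ ^ 2 ≤ ∑ n ∈ N, Real.exp 4 * (wt a ((n : ℝ) / M) * ‖A n‖ ^ 2) := by
          refine Finset.sum_le_sum fun n hn => ?_
          have h11 := hwt n hn
          have h12 : 1 ≤ Real.exp 4 * wt a ((n : ℝ) / M) := by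
            calc (1 : ℝ) = Real.exp 4 * Real.exp (-4) := by rw [← Real.exp_add]; simp
              _ ≤ _ := by gcongr
          calc ‖A n‖ ^ 2 ≤ (Real.exp 4 * wt a ((n : ℝ) / M)) * ‖A n‖ ^ 2 :=
                le_mul_of_one_le_left (sq_nonneg _) h12
            _ = _ := by ring
      _ = Real.exp 4 * ∑ n ∈ N, wt a ((n : ℝ) / M) * ‖A n‖ ^ 2 := by rw [Finset.mul_sum]
      _ ≤ Real.exp 4 * q := by gcongr
  have hcv : 0 ≤ (S.card : ℝ) * V := by positivity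
  calc ((S.card : ℝ) * V) ^ 2 ≤ (∑ n ∈ N, ‖b n‖ * ‖A n‖) ^ 2 := by
        have := h1.trans h3
        gcongr
    _ ≤ (∑ n ∈ N, ‖b n‖ ^ 2) * ∑ n ∈ N, ‖A n‖ ^ 2 := h5
    _ ≤ (4 * M * B ^ 2) * (Real.exp 4 * q) := by
        refine mul_le_mul h6 h10 (Finset.sum_nonneg fun n _ => sq_nonneg _) (by positivity)
    _ = 4 * Real.exp 4 * B ^ 2 * M * q := by ring

theorem K_psd {a : ℕ} {M : ℝ} (hM : 0 < M) (S : Finset ℝ) (x : ℝ → ℂ) :
    0 ≤ (∑ s ∈ S, ∑ t ∈ S, conj (x s) * K a M (t - s) * x t).re :=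
  (C02_hasSum hM S x).nonneg fun n => mul_nonneg (C02_wt_nonneg a (by positivity)) (sq_nonneg _)

end OL
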