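import Pool.Agent.Lib.MP_39df77_nt.OL.A00
import Pool.Agent.Lib.MP_39df77_nt.OL.A03

/-! Schur test -/

set_option autoImplicit false

open Complex MeasureTheory Set Filter Topology
open scoped Real ComplexConjugate

namespace OL

theorem schur (S : Finset ℝ) (G : ℝ → ℝ → ℂ) {A : ℝ} (h1 : ∀ s ∈ S, ∑ t ∈ S, ‖G s t‖ ≤ A)
    (h2 : ∀ t ∈ S, ∑ s ∈ S, ‖G s t‖ ≤ A) (x : ℝ → ℂ) :
    ‖∑ s ∈ S, ∑ t ∈ S, conj (x s) * G s t * x t‖ ≤ A * ∑ s ∈ S, ‖x s‖ ^ 2 := by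
  have e1 : ‖∑ s ∈ S, ∑ t ∈ S, conj (x s) * G s t * x t‖ ≤
      ∑ s ∈ S, ∑ t ∈ S, (‖x s‖ ^ 2 * ‖G s t‖ / 2 + ‖x t‖ ^ 2 * ‖G s t‖ / 2) := by
    refine (norm_sum_le _ _).trans (Finset.sum_le_sum fun s _ => ?_)
    refine (norm_sum_le _ _).trans (Finset.sum_le_sum fun t _ => ?_)
    rw [norm_mul, norm_mul, RCLike.norm_conj]
    have := norm_nonneg (G s t)
    nlinarith [mul_nonneg this (sq_nonneg (‖x s‖ - ‖x t‖))]
  have e2 : ∑ s ∈ S, ∑ t ∈ S, ‖x s‖ ^ 2 * ‖G s t‖ / 2 ≤ A / 2 * ∑ s ∈ S, ‖x s‖ ^ 2 := by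
    rw [Finset.mul_sum]
    refine Finset.sum_le_sum fun s hs => ?_
    have : ∑ t ∈ S, ‖x s‖ ^ 2 * ‖G s t‖ / 2 = ‖x s‖ ^ 2 / 2 * ∑ t ∈ S, ‖G s t‖ := by
      rw [Finset.mul_sum]
      exact Finset.sum_congr rfl fun t _ => by ring
    rw [this]
    calc ‖x s‖ ^ 2 / 2 * ∑ t ∈ S, ‖G s t‖ ≤ ‖x s‖ ^ 2 / 2 * A :=
          mul_le_mul_of_nonneg_left (h1 s hs) (by positivity)
      _ = A / 2 * ‖x s‖ ^ 2 := by ring
  have e3 : ∑ s ∈ S, ∑ t ∈ S, ‖x t‖ ^ 2 * ‖G s t‖ / 2 ≤ A / 2 * ∑ s ∈ S, ‖x s‖ ^ 2 := by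
    rw [Finset.sum_comm, Finset.mul_sum]
    refine Finset.sum_le_sum fun t ht => ?_
    have : ∑ s ∈ S, ‖x t‖ ^ 2 * ‖G s t‖ / 2 = ‖x t‖ ^ 2 / 2 * ∑ s ∈ S, ‖G s t‖ := by
      rw [Finset.mul_sum]
      exact Finset.sum_congr rfl fun s _ => by ring
    rw [this]
    calc ‖x t‖ ^ 2 / 2 * ∑ s ∈ S, ‖G s t‖ ≤ ‖x t‖ ^ 2 / 2 * A :=
          mul_le_mul_of_nonneg_left (h2 t ht) (by positivity)
      _ = A / 2 * ‖x t‖ ^ 2 := by ring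
  refine e1.trans ?_
  simp_rw [Finset.sum_add_distrib]
  linarith

theorem K0_schur (a : ℕ) : ∃ C : ℝ, 0 < C ∧ ∀ (M : ℝ) (S : Finset ℝ) (x : ℝ → ℂ), 1 ≤ M → Sep S →
    ‖∑ s ∈ S, ∑ t ∈ S, conj (x s) * ((M : ℂ) * ei ((t - s) * Real.log M) * Km a M (t - s) 0) * x t‖ ≤
      C * M * ∑ s ∈ S, ‖x s‖ ^ 2 := by
  obtain ⟨C, hC, hKm⟩ := Km_zero a
  refine ⟨C * 8, by positivity, fun M S x hM hS => ?_⟩
  have hM0 : 0 < M := by linarith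
  have hei : ∀ y : ℝ, ‖ei y‖ = 1 := fun y => by
    rw [ei, Complex.norm_exp_ofReal_mul_I]
  have key : ∀ s t : ℝ, ‖(M : ℂ) * ei ((t - s) * Real.log M) * Km a M (t - s) 0‖ ≤
      C * M * (1 / (1 + (t - s) ^ 2)) := fun s t => by
    rw [norm_mul, norm_mul, hei, mul_one, Complex.norm_real, Real.norm_eq_abs, abs_of_pos hM0]
    have h1 := hKm M (t - s)
    have h2 : C / (1 + (t - s) ^ 2) ^ 2 ≤ C * (1 / (1 + (t - s) ^ 2)) := by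
      have h3 : 1 ≤ 1 + (t - s) ^ 2 := by nlinarith [sq_nonneg (t - s)]
      rw [mul_one_div]
      exact div_le_div_of_nonneg_left hC.le (by linarith) (by nlinarith)
    calc M * ‖Km a M (t - s) 0‖ ≤ M * (C * (1 / (1 + (t - s) ^ 2))) :=
          mul_le_mul_of_nonneg_left (h1.trans h2) hM0.le
      _ = C * M * (1 / (1 + (t - s) ^ 2)) := by ring
  have hCM : 0 ≤ C * M := by positivity
  refine (schur S _ (A := C * 8 * M) (fun s _ => ?_) (fun t _ => ?_) x)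
  · calc ∑ t ∈ S, ‖(M : ℂ) * ei ((t - s) * Real.log M) * Km a M (t - s) 0‖ ≤
          ∑ t ∈ S, C * M * (1 / (1 + (t - s) ^ 2)) := Finset.sum_le_sum fun t _ => key s t
      _ = C * M * ∑ t ∈ S, 1 / (1 + (t - s) ^ 2) := by rw [Finset.mul_sum]
      _ ≤ C * M * 8 := mul_le_mul_of_nonneg_left (sep_sum hS s) hCM
      _ = C * 8 * M := by ring
  · calc ∑ s ∈ S, ‖(M : ℂ) * ei ((t - s) * Real.log M) * Km a M (t - s) 0‖ ≤
          ∑ s ∈ S, C * M * (1 / (1 + (s - t) ^ 2)) := Finset.sum_le_sum fun s _ => by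
            have := key s t
            rwa [show (t - s) ^ 2 = (s - t) ^ 2 by ring] at this
      _ = C * M * ∑ s ∈ S, 1 / (1 + (s - t) ^ 2) := by rw [Finset.mul_sum]
      _ ≤ C * M * 8 := mul_le_mul_of_nonneg_left (sep_sum hS t) hCM
      _ = C * 8 * M := by ring

end OL
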