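import Pool.Agent.Lib.MP_39df77_nt.OL.C02
import Pool.Agent.Lib.MP_39df77_nt.OL.C03
import Pool.Agent.Lib.MP_39df77_nt.OL.A06

/-! the kernel matrix without the frequency 0 is almost positive -/

set_option autoImplicit false

open Complex MeasureTheory Set Filter Topology
open scoped Real ComplexConjugate

namespace OL

lemma c04a_pow {a : ℕ} (ha : 2 ≤ a) {e : ℝ} (he : 0 < e) (hea : 3 / 2 + e ≤ e * a) {T Z : ℝ}
    (hT : 1 ≤ T) (hZ : T ^ (1 + e) ≤ Z) :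
    (T + 1) * (T ^ a * Z ^ (1 / 2 - (a : ℝ))) ≤ 2 := by
  have hT0 : (0 : ℝ) < T := by linarith
  have haR : (2 : ℝ) ≤ a := by exact_mod_cast ha
  have h1 : Z ^ (1 / 2 - (a : ℝ)) ≤ (T ^ (1 + e)) ^ (1 / 2 - (a : ℝ)) :=
    Real.rpow_le_rpow_of_nonpos (by positivity) hZ (by linarith)
  have h2 : T * (T ^ a * (T ^ (1 + e)) ^ (1 / 2 - (a : ℝ))) ≤ 1 := by
    have h3 : T * (T ^ a * (T ^ (1 + e)) ^ (1 / 2 - (a : ℝ))) =
        T ^ (1 + (a : ℝ) + (1 + e) * (1 / 2 - (a : ℝ))) := by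
      have e1 : (T ^ (1 + e)) ^ (1 / 2 - (a : ℝ)) = T ^ ((1 + e) * (1 / 2 - (a : ℝ))) :=
        (Real.rpow_mul hT0.le _ _).symm
      have e2 : T ^ (1 + (a : ℝ) + (1 + e) * (1 / 2 - (a : ℝ))) =
          T ^ (1 : ℝ) * T ^ (a : ℝ) * T ^ ((1 + e) * (1 / 2 - (a : ℝ))) := by
        rw [← Real.rpow_add hT0, ← Real.rpow_add hT0]
      rw [e1, e2, Real.rpow_one, Real.rpow_natCast]
      ring
    rw [h3]
    apply Real.rpow_le_one_of_one_le_of_nonpos hT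
    nlinarith
  have h4 : 0 ≤ T ^ a * (T ^ (1 + e)) ^ (1 / 2 - (a : ℝ)) := by positivity
  have h5 : T ^ a * Z ^ (1 / 2 - (a : ℝ)) ≤ T ^ a * (T ^ (1 + e)) ^ (1 / 2 - (a : ℝ)) :=
    mul_le_mul_of_nonneg_left h1 (by positivity)
  calc (T + 1) * (T ^ a * Z ^ (1 / 2 - (a : ℝ)))
      ≤ (T + 1) * (T ^ a * (T ^ (1 + e)) ^ (1 / 2 - (a : ℝ))) :=
        mul_le_mul_of_nonneg_left h5 (by linarith)
    _ ≤ (2 * T) * (T ^ a * (T ^ (1 + e)) ^ (1 / 2 - (a : ℝ))) :=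
        mul_le_mul_of_nonneg_right (by linarith) h4
    _ = 2 * (T * (T ^ a * (T ^ (1 + e)) ^ (1 / 2 - (a : ℝ)))) := by ring
    _ ≤ 2 := by linarith

/-- Proof: `K_psd`, `K0_schur`, `K_split` (each entry of the error is `≤ C T^a (MY)^(1/2-a)`, `R ≤ T + 1`, and
`T^{a+1} (T^{1+e})^{1/2-a} ≤ 1` as `e a ≥ 3/2 + e`), `schur`. The second part is the same estimate from above. -/
theorem KY_almost {a : ℕ} (ha : 2 ≤ a) {e : ℝ} (he : 0 < e) (hea : 3 / 2 + e ≤ e * a) : ∃ C : ℝ, 0 < C ∧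
    ∀ (T M : ℝ) (Y : ℕ) (S : Finset ℝ) (x : ℝ → ℂ), 1 ≤ T → 1 ≤ M → 1 ≤ Y → T ^ (1 + e) ≤ M * Y →
    Sep S → InI S T →
    -(C * M) * ∑ s ∈ S, ‖x s‖ ^ 2 ≤ (∑ s ∈ S, ∑ t ∈ S, conj (x s) * KY a Y M (t - s) * x t).re ∧
    (∑ s ∈ S, ∑ t ∈ S, conj (x s) * K a M (t - s) * x t).re ≤
      (∑ s ∈ S, ∑ t ∈ S, conj (x s) * KY a Y M (t - s) * x t).re + C * M * ∑ s ∈ S, ‖x s‖ ^ 2 := by
  obtain ⟨C1, hC1, h1⟩ := K0_schur a
  obtain ⟨C2, hC2, h2⟩ := K_split ha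
  refine ⟨C1 + 2 * C2, by positivity, ?_⟩
  intro T M Y S x hT hM hY hMY hS hI
  have hM0 : (0 : ℝ) < M := by linarith
  set E : ℝ → ℝ → ℂ := fun s t => K a M (t - s) -
    (M : ℂ) * ei ((t - s) * Real.log M) * Km a M (t - s) 0 - KY a Y M (t - s) with hE
  set δ : ℝ := C2 * T ^ a * (M * Y) ^ (1 / 2 - (a : ℝ)) with hδ
  have hYR : (0 : ℝ) < Y := by exact_mod_cast hY
  have hδ0 : 0 ≤ δ := by positivity
  have hEb : ∀ s ∈ S, ∀ t ∈ S, ‖E s t‖ ≤ δ := by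
    intro s hs t ht
    apply h2 T M (t - s) Y hT hM hY
    obtain ⟨A, hA⟩ := hI
    have h3 := hA s hs
    have h4 := hA t ht
    rw [abs_le]
    constructor <;> linarith
  have hcard := sep_card (by linarith) hS hI
  have hrow : ∀ f : ℝ → ℝ, (∀ s ∈ S, f s ≤ δ) → ∑ s ∈ S, f s ≤ 2 * C2 := by
    intro f hf
    calc ∑ s ∈ S, f s ≤ ∑ s ∈ S, δ := Finset.sum_le_sum hf
      _ = S.card * δ := by rw [Finset.sum_const, nsmul_eq_mul]
      _ ≤ (T + 1) * δ := mul_le_mul_of_nonneg_right hcard hδ0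
      _ = C2 * ((T + 1) * (T ^ a * (M * Y) ^ (1 / 2 - (a : ℝ)))) := by rw [hδ]; ring
      _ ≤ C2 * 2 := mul_le_mul_of_nonneg_left (c04a_pow ha he hea hT hMY) hC2.le
      _ = 2 * C2 := by ring
  have h3 := schur S E (A := 2 * C2) (fun s hs => hrow _ (fun t ht => hEb s hs t ht))
    (fun t ht => hrow _ (fun s hs => hEb s hs t ht)) x
  have h4 := h1 M S x hM hS
  have h5 := K_psd (a := a) hM0 S x
  have hsum : (∑ s ∈ S, ∑ t ∈ S, conj (x s) * K a M (t - s) * x t) =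
      (∑ s ∈ S, ∑ t ∈ S, conj (x s) * ((M : ℂ) * ei ((t - s) * Real.log M) * Km a M (t - s) 0) * x t) +
      (∑ s ∈ S, ∑ t ∈ S, conj (x s) * KY a Y M (t - s) * x t) +
      (∑ s ∈ S, ∑ t ∈ S, conj (x s) * E s t * x t) := by
    rw [← Finset.sum_add_distrib, ← Finset.sum_add_distrib]
    apply Finset.sum_congr rfl
    intro s _
    rw [← Finset.sum_add_distrib, ← Finset.sum_add_distrib]
    apply Finset.sum_congr rfl
    intro t _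
    simp only [hE]
    ring
  have hre := congrArg Complex.re hsum
  rw [Complex.add_re, Complex.add_re] at hre
  have hx0 : 0 ≤ ∑ s ∈ S, ‖x s‖ ^ 2 := Finset.sum_nonneg (fun s _ => by positivity)
  have h6 : 2 * C2 * ∑ s ∈ S, ‖x s‖ ^ 2 ≤ 2 * C2 * M * ∑ s ∈ S, ‖x s‖ ^ 2 := by
    apply mul_le_mul_of_nonneg_right _ hx0
    nlinarith
  have h7 := (Complex.abs_re_le_norm _).trans h3
  have h8 := (Complex.abs_re_le_norm _).trans h4
  rw [abs_le] at h7 h8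
  have e1 : (C1 + 2 * C2) * M * ∑ s ∈ S, ‖x s‖ ^ 2 =
      C1 * M * ∑ s ∈ S, ‖x s‖ ^ 2 + 2 * C2 * M * ∑ s ∈ S, ‖x s‖ ^ 2 := by ring
  constructor
  · rw [neg_mul, e1]
    linarith [h7.1, h7.2, h8.1, h8.2]
  · rw [e1]
    linarith [h7.1, h7.2, h8.1, h8.2]

end OL
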