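import Pool.Agent.Lib.MP_39df77_nt.OL.C01
import Pool.Agent.Lib.MP_39df77_nt.OL.C04a
import Pool.Agent.Lib.MP_39df77_nt.OL.A10
import Pool.Agent.Lib.MP_39df77_nt.OL.B04

/-! the core inequality -/

set_option autoImplicit false

open Complex MeasureTheory Set Filter Topology
open scoped Real ComplexConjugate

namespace OL

theorem core_tr (S : Finset ℝ) (f : ℝ → ℂ) :
    ∑ s ∈ S, ∑ t ∈ S, ∑ u ∈ S, f (t - s) * f (u - t) * f (s - u) =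
      ∑ s ∈ S, ∑ t ∈ S, ∑ u ∈ S, f (s - t) * f (t - u) * f (u - s) := by
  rw [Finset.sum_comm]
  refine Finset.sum_congr rfl fun s _ => Finset.sum_congr rfl fun t _ =>
    Finset.sum_congr rfl fun u _ => ?_
  ring

/-- Proof: choose `a ≥ 6` with `e a ≥ 3/2 + e`; `duality`, `KY_almost` with `κ = C M`:
`R²V² ≤ C' B² M (R q + κ R)` with `R q = Re ∑ conj(c_s) KY(t-s) c_t`. If `R V² > 2 C' κ B² M` then `q ≥ R V²/(2 C' B² M)`;
`spectral` (`E s t = KY (t - s)`), `tr3_le`, and `∑ ‖KY‖² ≤ R ·` `KY_sum`. -/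
theorem core {k : ℕ} (hk : 1 ≤ k) {e : ℝ} (he : 0 < e) : ∃ C : ℝ, 0 < C ∧
    ∀ (T M B V : ℝ) (Y : ℕ) (S : Finset ℝ) (b : ℕ → ℂ), 1 ≤ T → 1 ≤ M → 1 ≤ Y →
    T ^ (1 + e) ≤ M * Y → M * Y ≤ T ^ 3 → T ≤ (Y : ℝ) ^ k → Sep S → InI S T → S.Nonempty → 0 < B → 0 ≤ V →
    (∀ n ∈ Finset.Ioc ⌊M⌋₊ ⌊4 * M⌋₊, ‖b n‖ ≤ B) → (∀ t ∈ S, V ≤ ‖Dp b M t‖) →
    S.card * V ^ 2 ≤ C * B ^ 2 * M ^ 2 ∨
    (S.card * V ^ 2 / (B ^ 2 * M)) ^ 3 ≤ C * T ^ (4 * e) *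
      (M ^ 2 * ((Y : ℝ) ^ 2 * (S.card : ℝ) ^ (3 / 2 : ℝ) +
        (Y : ℝ) ^ (3 / 2 : ℝ) * (S.card : ℝ) ^ (1 / 2 : ℝ) * En S ^ (1 / 2 : ℝ)) +
        M ^ 2 * Y * (S.card : ℝ) ^ (2 - 1 / (k : ℝ))) := by
  obtain ⟨a, ha6, hea⟩ : ∃ a : ℕ, 6 ≤ a ∧ 3 / 2 + e ≤ e * a := by
    obtain ⟨n, hn⟩ := exists_nat_ge ((3 / 2 + e) / e)
    refine ⟨max 6 n, le_max_left _ _, ?_⟩
    rw [div_le_iff₀ he] at hn
    have : (n : ℝ) ≤ ((max 6 n : ℕ) : ℝ) := by exact_mod_cast le_max_right 6 n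
    nlinarith
  obtain ⟨C1, hC1, h1⟩ := KY_almost (a := a) (by omega) he hea
  obtain ⟨C3, hC3, h3⟩ := tr3_le (a := a) ha6 he
  obtain ⟨C4, hC4, h4⟩ := KY_sum (a := a) (k := k) (by omega) hk he
  set c0 : ℝ := 4 * Real.exp 4 with hc0
  have hc0' : 0 < c0 := by positivity
  refine ⟨2 * c0 * C1 + (2 * c0) ^ 3 * (C3 + C1 * C4), by positivity, ?_⟩
  intro T M B V Y S b hT hM hY hMY1 hMY2 hTY hS hI hne hB hV hb hD
  have hT0 : 0 < T := by linarith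
  have hM0 : 0 < M := by linarith
  have hY0 : (1 : ℝ) ≤ Y := by exact_mod_cast hY
  have hR1 : (1 : ℝ) ≤ S.card := by exact_mod_cast hne.card_pos
  have hR0 : (0 : ℝ) < S.card := by linarith
  by_cases hcase : S.card * V ^ 2 ≤ 2 * c0 * C1 * B ^ 2 * M ^ 2
  · left
    refine hcase.trans ?_
    have h5 : 0 ≤ (2 * c0) ^ 3 * (C3 + C1 * C4) * (B ^ 2 * M ^ 2) := by positivity
    have e8 : (2 * c0 * C1 + (2 * c0) ^ 3 * (C3 + C1 * C4)) * B ^ 2 * M ^ 2 =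
      2 * c0 * C1 * B ^ 2 * M ^ 2 + (2 * c0) ^ 3 * (C3 + C1 * C4) * (B ^ 2 * M ^ 2) := by ring
    rw [e8]
    linarith
  right
  push Not at hcase
  obtain ⟨c, hc1, hc2⟩ := duality (a := a) (by omega) hM hB.le hV S b hb hD
  obtain ⟨k1, k2⟩ := h1 T M Y S c hT hM hY hMY1 hS hI
  have hn : ∑ s ∈ S, ‖c s‖ ^ 2 = S.card := by
    simp [hc1]
  rw [hn] at k2
  set Z : ℝ := (∑ s ∈ S, ∑ t ∈ S, conj (c s) * KY a Y M (t - s) * c t).re with hZ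
  have hkey : ((S.card : ℝ) * V) ^ 2 ≤ c0 * B ^ 2 * M * (Z + C1 * M * S.card) :=
    hc2.trans (mul_le_mul_of_nonneg_left k2 (by positivity))
  set q : ℝ := S.card * V ^ 2 / (2 * c0 * B ^ 2 * M) with hq
  have hq0 : 0 ≤ q := by positivity
  have hqR : q * S.card ≤ Z := by
    have e1 : q * S.card = ((S.card : ℝ) * V) ^ 2 / (2 * c0 * B ^ 2 * M) := by
      rw [hq]; ring
    rw [e1, div_le_iff₀ (by positivity)]
    have h6 : 2 * (c0 * B ^ 2 * M * (C1 * M * S.card)) ≤ ((S.card : ℝ) * V) ^ 2 := by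
      have := mul_le_mul_of_nonneg_right hcase.le hR0.le
      calc 2 * (c0 * B ^ 2 * M * (C1 * M * S.card)) = 2 * c0 * C1 * B ^ 2 * M ^ 2 * S.card := by ring
        _ ≤ S.card * V ^ 2 * S.card := this
        _ = ((S.card : ℝ) * V) ^ 2 := by ring
    have e5 : c0 * B ^ 2 * M * (Z + C1 * M * S.card) =
        c0 * B ^ 2 * M * Z + c0 * B ^ 2 * M * (C1 * M * S.card) := by ring
    have e6 : Z * (2 * c0 * B ^ 2 * M) = 2 * (c0 * B ^ 2 * M * Z) := by ring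
    rw [e5] at hkey
    rw [e6]
    linarith
  have hsp := spectral S (fun s t => KY a Y M (t - s)) (fun s _ t _ => by
      show KY a Y M (s - t) = conj (KY a Y M (t - s))
      rw [KY_conj, neg_sub]) (κ := C1 * M) (by positivity)
    (fun x => (h1 T M Y S x hT hM hY hMY1 hS hI).1) c (fun s _ => hc1 s) hne hq0 hqR
  rw [core_tr S (fun x => KY a Y M x)] at hsp
  have htr := h3 M Y S hM hY hS
  have hsum : ∑ s ∈ S, ∑ t ∈ S, ‖KY a Y M (t - s)‖ ^ 2 ≤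
      S.card * (C4 * (Y : ℝ) ^ e * (M * Y * (S.card : ℝ) ^ (1 - 1 / (k : ℝ)))) := by
    have := Finset.sum_le_sum (s := S) fun s _ => h4 T M Y S s hT hM hY hTY hS hI
    refine this.trans (le_of_eq ?_)
    rw [Finset.sum_const, nsmul_eq_mul]
  -- powers
  have hMYpos : 0 < M * (Y : ℝ) := by positivity
  have p1 : (M * (Y : ℝ)) ^ e ≤ T ^ (4 * e) := by
    calc (M * (Y : ℝ)) ^ e ≤ (T ^ 3) ^ e := Real.rpow_le_rpow hMYpos.le hMY2 he.le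
      _ = T ^ (3 * e) := by
        rw [← Real.rpow_natCast T 3, ← Real.rpow_mul hT0.le]; norm_num
      _ ≤ T ^ (4 * e) := Real.rpow_le_rpow_of_exponent_le hT (by linarith)
  have p2 : (Y : ℝ) ^ e ≤ T ^ (4 * e) := by
    refine le_trans (Real.rpow_le_rpow (by linarith) ?_ he.le) p1
    nlinarith
  have hEn : 0 ≤ En S := by
    unfold En
    refine Finset.sum_nonneg fun _ _ => Finset.sum_nonneg fun _ _ => Finset.sum_nonneg fun _ _ =>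
      Finset.sum_nonneg fun _ _ => by positivity
  set X1 : ℝ := M ^ 2 * ((Y : ℝ) ^ 2 * (S.card : ℝ) ^ (3 / 2 : ℝ) +
        (Y : ℝ) ^ (3 / 2 : ℝ) * (S.card : ℝ) ^ (1 / 2 : ℝ) * En S ^ (1 / 2 : ℝ)) with hX1
  set X2 : ℝ := M ^ 2 * Y * (S.card : ℝ) ^ (2 - 1 / (k : ℝ)) with hX2
  have hX1' : 0 ≤ X1 := by positivity
  have hX2' : 0 ≤ X2 := by positivity
  have hTe : 0 ≤ T ^ (4 * e) := by positivity
  have b1 : ‖∑ s ∈ S, ∑ t ∈ S, ∑ u ∈ S, KY a Y M (s - t) * KY a Y M (t - u) * KY a Y M (u - s)‖ ≤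
      C3 * T ^ (4 * e) * X1 := by
    refine htr.trans ?_
    have := mul_le_mul_of_nonneg_left p1 hC3.le
    exact mul_le_mul_of_nonneg_right this hX1'
  have b2 : C1 * M * ∑ s ∈ S, ∑ t ∈ S, ‖KY a Y M (t - s)‖ ^ 2 ≤ C1 * C4 * T ^ (4 * e) * X2 := by
    have e2 : (S.card : ℝ) ^ (2 - 1 / (k : ℝ)) = S.card * (S.card : ℝ) ^ (1 - 1 / (k : ℝ)) := by
      rw [show 2 - 1 / (k : ℝ) = 1 + (1 - 1 / (k : ℝ)) by ring, Real.rpow_add hR0, Real.rpow_one]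
    have h7 := mul_le_mul_of_nonneg_left hsum (by positivity : 0 ≤ C1 * M)
    refine h7.trans ?_
    have e3 : C1 * M * (S.card * (C4 * (Y : ℝ) ^ e * (M * Y * (S.card : ℝ) ^ (1 - 1 / (k : ℝ))))) =
        C1 * C4 * (Y : ℝ) ^ e * X2 := by
      rw [hX2, e2]; ring
    rw [e3]
    have := mul_le_mul_of_nonneg_left p2 (by positivity : 0 ≤ C1 * C4)
    exact mul_le_mul_of_nonneg_right this hX2'
  have b3 : q ^ 3 ≤ C3 * T ^ (4 * e) * X1 + C1 * C4 * T ^ (4 * e) * X2 := hsp.trans (add_le_add b1 b2)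
  have e4 : (S.card * V ^ 2 / (B ^ 2 * M)) ^ 3 = (2 * c0) ^ 3 * q ^ 3 := by
    rw [hq, ← mul_pow]
    congr 1
    field_simp
  rw [e4]
  have h8 := mul_le_mul_of_nonneg_left b3 (by positivity : 0 ≤ (2 * c0) ^ 3)
  refine h8.trans ?_
  have g3 : 0 ≤ 2 * c0 * C1 * (T ^ (4 * e) * X1 + T ^ (4 * e) * X2) := by positivity
  have g4 : 0 ≤ (2 * c0) ^ 3 * (C3 * (T ^ (4 * e) * X2) + C1 * C4 * (T ^ (4 * e) * X1)) := by positivity
  have e9 : (2 * c0 * C1 + (2 * c0) ^ 3 * (C3 + C1 * C4)) * T ^ (4 * e) * (X1 + X2) =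
      (2 * c0) ^ 3 * (C3 * T ^ (4 * e) * X1 + C1 * C4 * T ^ (4 * e) * X2) +
      2 * c0 * C1 * (T ^ (4 * e) * X1 + T ^ (4 * e) * X2) +
      (2 * c0) ^ 3 * (C3 * (T ^ (4 * e) * X2) + C1 * C4 * (T ^ (4 * e) * X1)) := by ring
  rw [e9]
  linarith

end OL
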