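import Pool.Agent.Lib.MP_39df77_nt.OL.C05a
import Pool.Agent.Lib.MP_39df77_nt.OL.C02

/-! energy inequality -/

set_option autoImplicit false

open Complex MeasureTheory Set Filter Topology
open scoped Real ComplexConjugate

namespace OL

lemma c05_norm_ei (x : ℝ) : ‖ei x‖ = 1 := Complex.norm_exp_ofReal_mul_I x

lemma c05_ei_add (x y : ℝ) : ei (x + y) = ei x * ei y := by
  unfold ei
  rw [← Complex.exp_add]
  congr 1
  push_cast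
  ring

lemma c05_conj_ei (x : ℝ) : conj (ei x) = ei (-x) := by
  unfold ei
  rw [← Complex.exp_conj]
  congr 1
  rw [map_mul, Complex.conj_ofReal, Complex.conj_I]
  push_cast
  ring

lemma c05_conj_rr (S : Finset ℝ) (x : ℝ) : conj (rr S x) = ∑ t ∈ S, ei (-(t * x)) := by
  unfold rr
  rw [map_sum]
  exact Finset.sum_congr rfl fun t _ => c05_conj_ei _

lemma c05_sq (F : Finset ℕ) (w : ℕ → ℂ) (g : ℕ → ℝ) (τ : ℝ) :
    ((‖∑ n ∈ F, w n * ei (τ * g n)‖ ^ 2 : ℝ) : ℂ) =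
      ∑ n ∈ F, ∑ m ∈ F, w n * conj (w m) * ei (τ * (g n - g m)) := by
  push_cast
  rw [← Complex.mul_conj', map_sum, Finset.sum_mul_sum]
  refine Finset.sum_congr rfl fun n _ => Finset.sum_congr rfl fun m _ => ?_
  rw [map_mul, c05_conj_ei, mul_mul_mul_comm, ← c05_ei_add]
  congr 2
  ring

lemma c05_swap (S : Finset ℝ) (F : Finset ℕ) (G : ℝ → ℕ → ℕ → ℂ) :
    ∑ t ∈ S, ∑ n ∈ F, ∑ m ∈ F, G t n m = ∑ n ∈ F, ∑ m ∈ F, ∑ t ∈ S, G t n m := by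
  rw [Finset.sum_comm]
  exact Finset.sum_congr rfl fun n _ => Finset.sum_comm

/-- three times -/
lemma c05_three (S : Finset ℝ) (F : Finset ℕ) (c : ℕ → ℕ → ℂ) (x : ℕ → ℕ → ℝ) (u : ℝ) :
    ∑ t1 ∈ S, ∑ t2 ∈ S, ∑ t3 ∈ S, ∑ n ∈ F, ∑ m ∈ F, c n m * ei (-((u + (t1 + t2 - t3)) * x n m)) =
      ∑ n ∈ F, ∑ m ∈ F, c n m * ei (-(u * x n m)) *
        (conj (rr S (x n m)) * conj (rr S (x n m)) * rr S (x n m)) := by
  have e : ∀ t1 t2 t3 : ℝ, ∀ n m : ℕ, c n m * ei (-((u + (t1 + t2 - t3)) * x n m)) =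
      c n m * ei (-(u * x n m)) * (ei (-(t1 * x n m)) * (ei (-(t2 * x n m)) * ei (t3 * x n m))) := by
    intro t1 t2 t3 n m
    rw [← c05_ei_add, ← c05_ei_add, mul_assoc, ← c05_ei_add]
    congr 2
    ring
  simp only [e]
  simp_rw [c05_swap]
  refine Finset.sum_congr rfl fun n _ => Finset.sum_congr rfl fun m _ => ?_
  rw [c05_conj_rr]
  simp only [← Finset.mul_sum]
  rw [show (∑ i ∈ S, ei (i * x n m)) = rr S (x n m) from rfl]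
  simp only [← Finset.sum_mul]
  ring

/-- four times -/
lemma c05_four (S : Finset ℝ) (F : Finset ℕ) (c : ℕ → ℕ → ℂ) (x : ℕ → ℕ → ℝ) :
    ∑ t1 ∈ S, ∑ t2 ∈ S, ∑ t3 ∈ S, ∑ t4 ∈ S, ∑ n ∈ F, ∑ m ∈ F,
      c n m * ei ((t1 + t2 - t3 - t4) * x n m) =
      ∑ n ∈ F, ∑ m ∈ F, c n m *
        (rr S (x n m) * rr S (x n m) * conj (rr S (x n m)) * conj (rr S (x n m))) := by
  have e : ∀ t1 t2 t3 t4 : ℝ, ∀ n m : ℕ, c n m * ei ((t1 + t2 - t3 - t4) * x n m) =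
      c n m * (ei (t1 * x n m) * (ei (t2 * x n m) * (ei (-(t3 * x n m)) * ei (-(t4 * x n m))))) := by
    intro t1 t2 t3 t4 n m
    rw [← c05_ei_add, ← c05_ei_add, ← c05_ei_add]
    congr 2
    ring
  simp only [e]
  simp_rw [c05_swap]
  refine Finset.sum_congr rfl fun n _ => Finset.sum_congr rfl fun m _ => ?_
  rw [c05_conj_rr]
  simp only [← Finset.mul_sum]
  simp only [← Finset.sum_mul]
  rw [show (∑ i ∈ S, ei (i * x n m)) = rr S (x n m) from rfl]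
  ring

/-- two times -/
lemma c05_two (S : Finset ℝ) (F : Finset ℕ) (c : ℕ → ℕ → ℂ) (x : ℕ → ℕ → ℝ) :
    ∑ s ∈ S, ∑ t ∈ S, ∑ n ∈ F, ∑ m ∈ F, c n m * ei ((s - t) * x n m) =
      ∑ n ∈ F, ∑ m ∈ F, c n m * (rr S (x n m) * conj (rr S (x n m))) := by
  have e : ∀ s t : ℝ, ∀ n m : ℕ, c n m * ei ((s - t) * x n m) =
      c n m * (ei (s * x n m) * ei (-(t * x n m))) := by
    intro s t n m
    rw [← c05_ei_add]
    congr 2
    ring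
  simp only [e]
  simp_rw [c05_swap]
  refine Finset.sum_congr rfl fun n _ => Finset.sum_congr rfl fun m _ => ?_
  rw [c05_conj_rr]
  simp only [← Finset.mul_sum]
  simp only [← Finset.sum_mul]
  rw [show (∑ i ∈ S, ei (i * x n m)) = rr S (x n m) from rfl]

/-- the sum over the three times -/
lemma c05_norm3 (S : Finset ℝ) {M B : ℝ} (hB : 0 ≤ B) (b : ℕ → ℂ)
    (hb : ∀ n ∈ Finset.Ioc ⌊M⌋₊ ⌊4 * M⌋₊, ‖b n‖ ≤ B) (u : ℝ) :
    ∑ t1 ∈ S, ∑ t2 ∈ S, ∑ t3 ∈ S, ‖Dp b M (u + (t1 + t2 - t3))‖ ^ 2 ≤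
      B ^ 2 * ∑ n ∈ Finset.Ioc ⌊M⌋₊ ⌊4 * M⌋₊, ∑ m ∈ Finset.Ioc ⌊M⌋₊ ⌊4 * M⌋₊,
        ‖rr S (Real.log n - Real.log m)‖ ^ 3 := by
  set F := Finset.Ioc ⌊M⌋₊ ⌊4 * M⌋₊ with hF
  have h1 : ∀ τ : ℝ, ((‖Dp b M τ‖ ^ 2 : ℝ) : ℂ) =
      ∑ n ∈ F, ∑ m ∈ F, b n * conj (b m) * ei (-(τ * (Real.log n - Real.log m))) := by
    intro τ
    have h := c05_sq F b (fun n => Real.log n) (-τ)
    have e : Dp b M τ = ∑ n ∈ F, b n * ei (-τ * Real.log n) := by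
      unfold Dp
      refine Finset.sum_congr rfl fun n _ => ?_
      rw [neg_mul]
    rw [e, h]
    refine Finset.sum_congr rfl fun n _ => Finset.sum_congr rfl fun m _ => ?_
    rw [neg_mul]
  have h2 : ((∑ t1 ∈ S, ∑ t2 ∈ S, ∑ t3 ∈ S, ‖Dp b M (u + (t1 + t2 - t3))‖ ^ 2 : ℝ) : ℂ) =
      ∑ n ∈ F, ∑ m ∈ F, b n * conj (b m) * ei (-(u * (Real.log n - Real.log m))) *
        (conj (rr S (Real.log n - Real.log m)) * conj (rr S (Real.log n - Real.log m)) *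
          rr S (Real.log n - Real.log m)) := by
    rw [← c05_three S F (fun n m => b n * conj (b m)) (fun n m => Real.log n - Real.log m) u]
    simp only [Complex.ofReal_sum, h1]
  have h3 : 0 ≤ ∑ t1 ∈ S, ∑ t2 ∈ S, ∑ t3 ∈ S, ‖Dp b M (u + (t1 + t2 - t3))‖ ^ 2 := by positivity
  have h4 := congrArg norm h2
  rw [Complex.norm_real, Real.norm_eq_abs, abs_of_nonneg h3] at h4
  rw [h4, Finset.mul_sum]
  refine (norm_sum_le _ _).trans (Finset.sum_le_sum fun n hn => ?_)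
  rw [Finset.mul_sum]
  refine (norm_sum_le _ _).trans (Finset.sum_le_sum fun m hm => ?_)
  simp only [norm_mul, RCLike.norm_conj, c05_norm_ei, mul_one]
  have hbn := hb n hn
  have hbm := hb m hm
  have : ‖rr S (Real.log n - Real.log m)‖ * ‖rr S (Real.log n - Real.log m)‖ *
      ‖rr S (Real.log n - Real.log m)‖ = ‖rr S (Real.log n - Real.log m)‖ ^ 3 := by ring
  rw [this]
  refine mul_le_mul_of_nonneg_right ?_ (by positivity)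
  rw [sq]
  exact mul_le_mul hbn hbm (norm_nonneg _) hB

/-- the truncated kernel -/
noncomputable def c05_KN (a : ℕ) (M : ℝ) (N : ℕ) (τ : ℝ) : ℂ :=
  ∑ n ∈ Finset.Ico 1 (N + 1), ((wt a ((n : ℝ) / M) : ℝ) : ℂ) * ei (τ * Real.log n)

lemma c05_KN_tendsto (a : ℕ) {M : ℝ} (hM : 0 < M) (τ : ℝ) :
    Tendsto (fun N => c05_KN a M N τ) atTop (𝓝 (K a M τ)) := by
  have h := (K_summable (a := a) hM τ).hasSum.tendsto_sum_nat
  refine h.congr fun N => ?_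
  unfold c05_KN
  have e := Finset.sum_Ico_add' (fun n : ℕ => ((wt a ((n : ℝ) / M) : ℝ) : ℂ) *
    ei (τ * Real.log n)) 0 N 1
  rw [zero_add] at e
  rw [← e, Finset.range_eq_Ico]
  refine Finset.sum_congr rfl fun n _ => ?_
  push_cast
  rfl

lemma c05_wt_nonneg (a : ℕ) {M : ℝ} (hM : 0 < M) (n : ℕ) : 0 ≤ wt a ((n : ℝ) / M) := by
  unfold wt
  have : 0 ≤ (n : ℝ) / M := by positivity
  positivity

lemma c05_two_le (a : ℕ) {M : ℝ} (hM : 1 ≤ M) (S : Finset ℝ) :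
    ∑ n ∈ Finset.Ioc ⌊M⌋₊ ⌊4 * M⌋₊, ∑ m ∈ Finset.Ioc ⌊M⌋₊ ⌊4 * M⌋₊,
      wt a ((n : ℝ) / M) * wt a ((m : ℝ) / M) * ‖rr S (Real.log n - Real.log m)‖ ^ 2 ≤
      ∑ s ∈ S, ∑ t ∈ S, ‖K a M (s - t)‖ ^ 2 := by
  have hM0 : 0 < M := by linarith
  have hlim : Tendsto (fun N => ∑ s ∈ S, ∑ t ∈ S, ‖c05_KN a M N (s - t)‖ ^ 2) atTop
      (𝓝 (∑ s ∈ S, ∑ t ∈ S, ‖K a M (s - t)‖ ^ 2)) :=
    tendsto_finsetSum _ fun s _ => tendsto_finsetSum _ fun t _ =>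
      ((c05_KN_tendsto a hM0 (s - t)).norm).pow 2
  refine ge_of_tendsto hlim ?_
  filter_upwards [eventually_ge_atTop ⌊4 * M⌋₊] with N hN
  set G := Finset.Ico 1 (N + 1) with hG
  have hsub : Finset.Ioc ⌊M⌋₊ ⌊4 * M⌋₊ ⊆ G := by
    intro n hn
    rw [Finset.mem_Ioc] at hn
    rw [hG, Finset.mem_Ico]
    omega
  have h1 : ((∑ s ∈ S, ∑ t ∈ S, ‖c05_KN a M N (s - t)‖ ^ 2 : ℝ) : ℂ) =
      ((∑ n ∈ G, ∑ m ∈ G, wt a ((n : ℝ) / M) * wt a ((m : ℝ) / M) *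
        ‖rr S (Real.log n - Real.log m)‖ ^ 2 : ℝ) : ℂ) := by
    have e := c05_two S G (fun n m => ((wt a ((n : ℝ) / M) : ℝ) : ℂ) *
      conj ((wt a ((m : ℝ) / M) : ℝ) : ℂ)) (fun n m => Real.log n - Real.log m)
    simp only [Complex.ofReal_sum]
    have e1 : ∀ s t : ℝ, ((‖c05_KN a M N (s - t)‖ ^ 2 : ℝ) : ℂ) = _ := fun s t =>
      c05_sq G (fun n => ((wt a ((n : ℝ) / M) : ℝ) : ℂ)) (fun n => Real.log n) (s - t)
    simp only [e1]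
    rw [e]
    refine Finset.sum_congr rfl fun n _ => Finset.sum_congr rfl fun m _ => ?_
    rw [Complex.mul_conj', Complex.conj_ofReal]
    push_cast
    ring
  rw [Complex.ofReal_inj.mp h1]
  have hnn : ∀ n m : ℕ, 0 ≤ wt a ((n : ℝ) / M) * wt a ((m : ℝ) / M) *
      ‖rr S (Real.log n - Real.log m)‖ ^ 2 := fun n m =>
    mul_nonneg (mul_nonneg (c05_wt_nonneg a hM0 n) (c05_wt_nonneg a hM0 m)) (by positivity)
  refine (Finset.sum_le_sum fun n _ => Finset.sum_le_sum_of_subset_of_nonneg hsub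
    fun m _ _ => hnn n m).trans ?_
  exact Finset.sum_le_sum_of_subset_of_nonneg hsub fun n _ _ => Finset.sum_nonneg fun m _ => hnn n m

lemma c05_four_le (a : ℕ) {M : ℝ} (hM : 1 ≤ M) (S : Finset ℝ) :
    ∑ n ∈ Finset.Ioc ⌊M⌋₊ ⌊4 * M⌋₊, ∑ m ∈ Finset.Ioc ⌊M⌋₊ ⌊4 * M⌋₊,
      wt a ((n : ℝ) / M) * wt a ((m : ℝ) / M) * ‖rr S (Real.log n - Real.log m)‖ ^ 4 ≤
      ∑ t1 ∈ S, ∑ t2 ∈ S, ∑ t3 ∈ S, ∑ t4 ∈ S, ‖K a M (t1 + t2 - t3 - t4)‖ ^ 2 := by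
  have hM0 : 0 < M := by linarith
  have hlim : Tendsto (fun N => ∑ t1 ∈ S, ∑ t2 ∈ S, ∑ t3 ∈ S, ∑ t4 ∈ S,
      ‖c05_KN a M N (t1 + t2 - t3 - t4)‖ ^ 2) atTop
      (𝓝 (∑ t1 ∈ S, ∑ t2 ∈ S, ∑ t3 ∈ S, ∑ t4 ∈ S, ‖K a M (t1 + t2 - t3 - t4)‖ ^ 2)) :=
    tendsto_finsetSum _ fun t1 _ => tendsto_finsetSum _ fun t2 _ =>
      tendsto_finsetSum _ fun t3 _ => tendsto_finsetSum _ fun t4 _ =>
      ((c05_KN_tendsto a hM0 (t1 + t2 - t3 - t4)).norm).pow 2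
  refine ge_of_tendsto hlim ?_
  filter_upwards [eventually_ge_atTop ⌊4 * M⌋₊] with N hN
  set G := Finset.Ico 1 (N + 1) with hG
  have hsub : Finset.Ioc ⌊M⌋₊ ⌊4 * M⌋₊ ⊆ G := by
    intro n hn
    rw [Finset.mem_Ioc] at hn
    rw [hG, Finset.mem_Ico]
    omega
  have h1 : ((∑ t1 ∈ S, ∑ t2 ∈ S, ∑ t3 ∈ S, ∑ t4 ∈ S,
      ‖c05_KN a M N (t1 + t2 - t3 - t4)‖ ^ 2 : ℝ) : ℂ) =
      ((∑ n ∈ G, ∑ m ∈ G, wt a ((n : ℝ) / M) * wt a ((m : ℝ) / M) *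
        ‖rr S (Real.log n - Real.log m)‖ ^ 4 : ℝ) : ℂ) := by
    have e := c05_four S G (fun n m => ((wt a ((n : ℝ) / M) : ℝ) : ℂ) *
      conj ((wt a ((m : ℝ) / M) : ℝ) : ℂ)) (fun n m => Real.log n - Real.log m)
    simp only [Complex.ofReal_sum]
    have e1 : ∀ t1 t2 t3 t4 : ℝ, ((‖c05_KN a M N (t1 + t2 - t3 - t4)‖ ^ 2 : ℝ) : ℂ) = _ :=
      fun t1 t2 t3 t4 => c05_sq G (fun n => ((wt a ((n : ℝ) / M) : ℝ) : ℂ))
        (fun n => Real.log n) (t1 + t2 - t3 - t4)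
    simp only [e1]
    rw [e]
    refine Finset.sum_congr rfl fun n _ => Finset.sum_congr rfl fun m _ => ?_
    have e2 : ∀ z : ℂ, z * z * conj z * conj z = ((‖z‖ ^ 4 : ℝ) : ℂ) := by
      intro z
      have : z * z * conj z * conj z = (z * conj z) ^ 2 := by ring
      rw [this, Complex.mul_conj']
      push_cast
      ring
    rw [e2, Complex.conj_ofReal]
    push_cast
    ring
  rw [Complex.ofReal_inj.mp h1]
  have hnn : ∀ n m : ℕ, 0 ≤ wt a ((n : ℝ) / M) * wt a ((m : ℝ) / M) *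
      ‖rr S (Real.log n - Real.log m)‖ ^ 4 := fun n m =>
    mul_nonneg (mul_nonneg (c05_wt_nonneg a hM0 n) (c05_wt_nonneg a hM0 m)) (by positivity)
  refine (Finset.sum_le_sum fun n _ => Finset.sum_le_sum_of_subset_of_nonneg hsub
    fun m _ _ => hnn n m).trans ?_
  exact Finset.sum_le_sum_of_subset_of_nonneg hsub fun n _ _ => Finset.sum_nonneg fun m _ => hnn n m

lemma c05_wt_ge {a : ℕ} (ha : 1 ≤ a) {M : ℝ} (hM : 1 ≤ M) {n : ℕ}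
    (hn : n ∈ Finset.Ioc ⌊M⌋₊ ⌊4 * M⌋₊) : 1 ≤ Real.exp 4 * wt a ((n : ℝ) / M) := by
  have hM0 : 0 < M := by linarith
  rw [Finset.mem_Ioc] at hn
  have h1 : M < n := (Nat.floor_lt hM0.le).mp hn.1
  have h2 : (n : ℝ) ≤ 4 * M := (Nat.le_floor_iff (by linarith)).mp hn.2
  have u1 : 1 ≤ (n : ℝ) / M := by
    rw [le_div_iff₀ hM0]; linarith
  have u2 : (n : ℝ) / M ≤ 4 := by
    rw [div_le_iff₀ hM0]; linarith
  unfold wt
  have ha' : (1 : ℝ) ≤ a := by exact_mod_cast ha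
  have h3 : 1 ≤ ((n : ℝ) / M) ^ ((a : ℝ) - 1 / 2) := Real.one_le_rpow u1 (by linarith)
  have h4 : 1 ≤ Real.exp 4 * Real.exp (-((n : ℝ) / M)) := by
    rw [← Real.exp_add]
    exact Real.one_le_exp (by linarith)
  calc (1 : ℝ) = 1 * 1 := (one_mul 1).symm
    _ ≤ ((n : ℝ) / M) ^ ((a : ℝ) - 1 / 2) * (Real.exp 4 * Real.exp (-((n : ℝ) / M))) :=
        mul_le_mul h3 h4 zero_le_one (by linarith)
    _ = _ := by ring

/-- Cauchy-Schwarz -/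
lemma c05_cs {a : ℕ} (ha : 1 ≤ a) {M : ℝ} (hM : 1 ≤ M) (S : Finset ℝ) :
    ∑ n ∈ Finset.Ioc ⌊M⌋₊ ⌊4 * M⌋₊, ∑ m ∈ Finset.Ioc ⌊M⌋₊ ⌊4 * M⌋₊,
        ‖rr S (Real.log n - Real.log m)‖ ^ 3 ≤
      Real.exp 4 ^ 2 * (Real.sqrt (∑ s ∈ S, ∑ t ∈ S, ‖K a M (s - t)‖ ^ 2) *
      Real.sqrt (∑ t1 ∈ S, ∑ t2 ∈ S, ∑ t3 ∈ S, ∑ t4 ∈ S, ‖K a M (t1 + t2 - t3 - t4)‖ ^ 2)) := by
  have hM0 : 0 < M := by linarith
  set F := Finset.Ioc ⌊M⌋₊ ⌊4 * M⌋₊ with hF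
  set r : ℕ → ℕ → ℝ := fun n m => ‖rr S (Real.log n - Real.log m)‖ with hr
  set W : ℕ → ℕ → ℝ := fun n m => wt a ((n : ℝ) / M) * wt a ((m : ℝ) / M) with hW
  have hW0 : ∀ n m, 0 ≤ W n m := fun n m =>
    mul_nonneg (c05_wt_nonneg a hM0 n) (c05_wt_nonneg a hM0 m)
  have hr0 : ∀ n m, 0 ≤ r n m := fun n m => norm_nonneg _
  have h1 : ∑ n ∈ F, ∑ m ∈ F, r n m ^ 3 ≤ Real.exp 4 ^ 2 * ∑ n ∈ F, ∑ m ∈ F, W n m * r n m ^ 3 := by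
    rw [Finset.mul_sum]
    refine Finset.sum_le_sum fun n hn => ?_
    rw [Finset.mul_sum]
    refine Finset.sum_le_sum fun m hm => ?_
    have a1 := c05_wt_ge ha hM hn
    have a2 := c05_wt_ge ha hM hm
    have a3 : 1 ≤ Real.exp 4 ^ 2 * W n m := by
      calc (1 : ℝ) = 1 * 1 := (one_mul 1).symm
        _ ≤ (Real.exp 4 * wt a ((n : ℝ) / M)) * (Real.exp 4 * wt a ((m : ℝ) / M)) :=
            mul_le_mul a1 a2 zero_le_one (by linarith)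
        _ = _ := by rw [hW]; ring
    have a4 : 0 ≤ r n m ^ 3 := pow_nonneg (hr0 n m) 3
    calc r n m ^ 3 = 1 * r n m ^ 3 := (one_mul _).symm
      _ ≤ (Real.exp 4 ^ 2 * W n m) * r n m ^ 3 := mul_le_mul_of_nonneg_right a3 a4
      _ = _ := by ring
  refine h1.trans (mul_le_mul_of_nonneg_left ?_ (by positivity))
  have h2 := Real.sum_mul_le_sqrt_mul_sqrt (F ×ˢ F) (fun p => Real.sqrt (W p.1 p.2) * r p.1 p.2)
    (fun p => Real.sqrt (W p.1 p.2) * r p.1 p.2 ^ 2)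
  have e1 : ∀ n m, Real.sqrt (W n m) * r n m * (Real.sqrt (W n m) * r n m ^ 2) =
      W n m * r n m ^ 3 := by
    intro n m
    have := Real.mul_self_sqrt (hW0 n m)
    calc _ = (Real.sqrt (W n m) * Real.sqrt (W n m)) * r n m ^ 3 := by ring
      _ = _ := by rw [this]
  have e2 : ∀ n m, (Real.sqrt (W n m) * r n m) ^ 2 = W n m * r n m ^ 2 := by
    intro n m
    rw [mul_pow, Real.sq_sqrt (hW0 n m)]
  have e3 : ∀ n m, (Real.sqrt (W n m) * r n m ^ 2) ^ 2 = W n m * r n m ^ 4 := by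
    intro n m
    rw [mul_pow, Real.sq_sqrt (hW0 n m)]
    ring
  simp only [e1, e2, e3] at h2
  rw [Finset.sum_product, Finset.sum_product, Finset.sum_product] at h2
  refine h2.trans ?_
  exact mul_le_mul (Real.sqrt_le_sqrt (c05_two_le a hM S)) (Real.sqrt_le_sqrt (c05_four_le a hM S))
    (Real.sqrt_nonneg _) (Real.sqrt_nonneg _)

lemma c05_Dp_cont (b : ℕ → ℂ) (M : ℝ) : Continuous (Dp b M) := by
  unfold Dp ei
  fun_prop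

lemma c05_Dp_bound (b : ℕ → ℂ) (M t : ℝ) :
    ‖Dp b M t‖ ≤ ∑ n ∈ Finset.Ioc ⌊M⌋₊ ⌊4 * M⌋₊, ‖b n‖ := by
  unfold Dp
  refine (norm_sum_le _ _).trans (Finset.sum_le_sum fun n _ => ?_)
  rw [norm_mul, c05_norm_ei, mul_one]

lemma c05_w_int : Integrable (fun u : ℝ => 4 / (4 + u ^ 2)) ∧
    ∫ u : ℝ, 4 / (4 + u ^ 2) ≤ 4 * π := by
  have hle : ∀ u : ℝ, 4 / (4 + u ^ 2) ≤ 4 * (1 + u ^ 2)⁻¹ := by
    intro u
    rw [← div_eq_mul_inv]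
    exact div_le_div_of_nonneg_left (by norm_num) (by positivity) (by linarith [sq_nonneg u])
  have hi : Integrable (fun u : ℝ => 4 * (1 + u ^ 2)⁻¹) := integrable_inv_one_add_sq.const_mul 4
  have h1 : Integrable (fun u : ℝ => 4 / (4 + u ^ 2)) := by
    refine hi.mono' ?_ (Eventually.of_forall fun u => ?_)
    · refine Continuous.aestronglyMeasurable ?_
      exact continuous_const.div (by fun_prop) fun u => by positivity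
    · rw [Real.norm_eq_abs, abs_of_nonneg (by positivity)]
      exact hle u
  refine ⟨h1, ?_⟩
  have h2 := integral_mono h1 hi hle
  rw [integral_const_mul, integral_univ_inv_one_add_sq] at h2
  exact h2

/-- Proof: `∑_{t1,t2,t3} ‖Dp b M (u+t1+t2-t3)‖² ≤ B² ∑_{n,n' ∈ (M,4M]} ‖rr(log(n/n'))‖³`, Cauchy-Schwarz with
`1 ≤ e^8 wt(n/M) wt(n'/M)`, and `∑ wt wt' ‖rr‖² = ∑ ‖K(s-t)‖²`, `∑ wt wt' ‖rr‖⁴ = ∑ ‖K(t1+t2-t3-t4)‖²` (sums over all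
`n, n' ≥ 1`). -/
theorem energy0 {a : ℕ} (ha : 1 ≤ a) : ∃ C : ℝ, 0 < C ∧ ∀ (M B V : ℝ) (S : Finset ℝ) (b : ℕ → ℂ), 1 ≤ M → 0 ≤ B →
    0 ≤ V → Sep S → (∀ n ∈ Finset.Ioc ⌊M⌋₊ ⌊4 * M⌋₊, ‖b n‖ ≤ B) → (∀ t ∈ S, V ≤ ‖Dp b M t‖) →
    V ^ 2 * En S ≤ C * B ^ 2 * (Real.sqrt (∑ s ∈ S, ∑ t ∈ S, ‖K a M (s - t)‖ ^ 2) *
      Real.sqrt (∑ t1 ∈ S, ∑ t2 ∈ S, ∑ t3 ∈ S, ∑ t4 ∈ S, ‖K a M (t1 + t2 - t3 - t4)‖ ^ 2)) := by
  refine ⟨4 * (4 * π * 5 * Real.exp 4 ^ 2), by positivity, ?_⟩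
  intro M B V S b hM hB hV hS hb hD
  obtain ⟨b', hb', h⟩ := energy_smooth hM hB hV hS b hb hD
  set X := Real.sqrt (∑ s ∈ S, ∑ t ∈ S, ‖K a M (s - t)‖ ^ 2) *
      Real.sqrt (∑ t1 ∈ S, ∑ t2 ∈ S, ∑ t3 ∈ S, ∑ t4 ∈ S, ‖K a M (t1 + t2 - t3 - t4)‖ ^ 2) with hX
  have hX0 : 0 ≤ X := mul_nonneg (Real.sqrt_nonneg _) (Real.sqrt_nonneg _)
  obtain ⟨wi, wI⟩ := c05_w_int
  have hint : ∀ c : ℝ, Integrable (fun u : ℝ => 4 / (4 + u ^ 2) *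
      (‖Dp b M (u + c)‖ ^ 2 + ‖Dp b' M (u + c)‖ ^ 2)) := by
    intro c
    set A := (∑ n ∈ Finset.Ioc ⌊M⌋₊ ⌊4 * M⌋₊, ‖b n‖) ^ 2 +
      (∑ n ∈ Finset.Ioc ⌊M⌋₊ ⌊4 * M⌋₊, ‖b' n‖) ^ 2 with hA
    refine (wi.mul_const A).mono' ?_ (Eventually.of_forall fun u => ?_)
    · refine Continuous.aestronglyMeasurable ?_
      have c1 := c05_Dp_cont b M
      have c2 := c05_Dp_cont b' M
      refine Continuous.mul (continuous_const.div (by fun_prop) fun u => by positivity) ?_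
      fun_prop
    · rw [norm_mul, Real.norm_eq_abs, Real.norm_eq_abs, abs_of_nonneg (by positivity),
        abs_of_nonneg (by positivity)]
      refine mul_le_mul_of_nonneg_left ?_ (by positivity)
      exact add_le_add (pow_le_pow_left₀ (norm_nonneg _) (c05_Dp_bound b M _) 2)
        (pow_le_pow_left₀ (norm_nonneg _) (c05_Dp_bound b' M _) 2)
  have hsum : ∑ t1 ∈ S, ∑ t2 ∈ S, ∑ t3 ∈ S, ∫ u : ℝ, 4 / (4 + u ^ 2) *
      (‖Dp b M (u + (t1 + t2 - t3))‖ ^ 2 + ‖Dp b' M (u + (t1 + t2 - t3))‖ ^ 2) =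
      ∫ u : ℝ, 4 / (4 + u ^ 2) * ∑ t1 ∈ S, ∑ t2 ∈ S, ∑ t3 ∈ S,
        (‖Dp b M (u + (t1 + t2 - t3))‖ ^ 2 + ‖Dp b' M (u + (t1 + t2 - t3))‖ ^ 2) := by
    simp only [Finset.mul_sum]
    rw [integral_finsetSum _ fun t1 _ => integrable_finsetSum _ fun t2 _ =>
      integrable_finsetSum _ fun t3 _ => hint _]
    refine Finset.sum_congr rfl fun t1 _ => ?_
    rw [integral_finsetSum _ fun t2 _ => integrable_finsetSum _ fun t3 _ => hint _]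
    refine Finset.sum_congr rfl fun t2 _ => ?_
    rw [integral_finsetSum _ fun t3 _ => hint _]
  have hint3 : Integrable (fun u : ℝ => 4 / (4 + u ^ 2) * ∑ t1 ∈ S, ∑ t2 ∈ S, ∑ t3 ∈ S,
        (‖Dp b M (u + (t1 + t2 - t3))‖ ^ 2 + ‖Dp b' M (u + (t1 + t2 - t3))‖ ^ 2)) := by
    simp only [Finset.mul_sum]
    exact integrable_finsetSum _ fun t1 _ => integrable_finsetSum _ fun t2 _ =>
      integrable_finsetSum _ fun t3 _ => hint _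
  have hpt : ∀ u : ℝ, ∑ t1 ∈ S, ∑ t2 ∈ S, ∑ t3 ∈ S,
        (‖Dp b M (u + (t1 + t2 - t3))‖ ^ 2 + ‖Dp b' M (u + (t1 + t2 - t3))‖ ^ 2) ≤
        5 * B ^ 2 * (Real.exp 4 ^ 2 * X) := by
    intro u
    simp only [Finset.sum_add_distrib]
    have h1 := c05_norm3 S hB b hb u
    have h2 := c05_norm3 S (by positivity : 0 ≤ 2 * B) b' hb' u
    have h3 := c05_cs ha hM S
    rw [← hX] at h3
    have h4 := mul_le_mul_of_nonneg_left h3 (by positivity : 0 ≤ 5 * B ^ 2)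
    refine (add_le_add h1 h2).trans (le_trans (le_of_eq ?_) h4)
    ring
  rw [hsum] at h
  refine h.trans ?_
  have hfin : ∫ u : ℝ, 4 / (4 + u ^ 2) * ∑ t1 ∈ S, ∑ t2 ∈ S, ∑ t3 ∈ S,
        (‖Dp b M (u + (t1 + t2 - t3))‖ ^ 2 + ‖Dp b' M (u + (t1 + t2 - t3))‖ ^ 2) ≤
      4 * π * (5 * B ^ 2 * (Real.exp 4 ^ 2 * X)) := by
    have h5 : ∫ u : ℝ, 4 / (4 + u ^ 2) * ∑ t1 ∈ S, ∑ t2 ∈ S, ∑ t3 ∈ S,
        (‖Dp b M (u + (t1 + t2 - t3))‖ ^ 2 + ‖Dp b' M (u + (t1 + t2 - t3))‖ ^ 2) ≤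
        ∫ u : ℝ, 4 / (4 + u ^ 2) * (5 * B ^ 2 * (Real.exp 4 ^ 2 * X)) :=
      integral_mono hint3 (wi.mul_const _) fun u =>
        mul_le_mul_of_nonneg_left (hpt u) (by positivity)
    rw [integral_mul_const] at h5
    exact h5.trans (mul_le_mul_of_nonneg_right wI (by positivity))
  calc 4 * _ ≤ 4 * (4 * π * (5 * B ^ 2 * (Real.exp 4 ^ 2 * X))) :=
        mul_le_mul_of_nonneg_left hfin (by norm_num)
    _ = _ := by ring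

end OL
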