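import Pool.Agent.Lib.MP_39df77_nt.OL.A00
import Pool.Agent.Lib.MP_39df77_nt.OL.A11

/-! energy: smoothing step -/

set_option autoImplicit false

open Complex MeasureTheory Set Filter Topology
open scoped Real ComplexConjugate

namespace OL

/-- the sum `∑ b_n (n/M)^{-it}` -/
noncomputable def C05a_f (b : ℕ → ℂ) (M t : ℝ) : ℂ :=
  ∑ n ∈ Finset.Ioc ⌊M⌋₊ ⌊4 * M⌋₊, b n * ei (-(t * (Real.log n - Real.log M)))

/-- the coefficients of the derivative -/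
noncomputable def C05a_b (b : ℕ → ℂ) (M : ℝ) (n : ℕ) : ℂ :=
  b n * (-((Real.log n - Real.log M : ℝ) : ℂ) * I)

theorem C05a_norm_ei (x : ℝ) : ‖ei x‖ = 1 := by
  unfold ei; exact Complex.norm_exp_ofReal_mul_I x

theorem C05a_Dp (b : ℕ → ℂ) (M t : ℝ) :
    Dp b M t = ei (-(t * Real.log M)) * C05a_f b M t := by
  unfold Dp C05a_f
  rw [Finset.mul_sum]
  refine Finset.sum_congr rfl fun n _ => ?_
  have h : ei (-(t * Real.log n)) =
      ei (-(t * Real.log M)) * ei (-(t * (Real.log n - Real.log M))) := by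
    unfold ei
    rw [← Complex.exp_add]
    congr 1
    push_cast
    ring
  rw [h]; ring

theorem C05a_norm (b : ℕ → ℂ) (M t : ℝ) : ‖Dp b M t‖ = ‖C05a_f b M t‖ := by
  rw [C05a_Dp, norm_mul, C05a_norm_ei, one_mul]

theorem C05a_deriv (b : ℕ → ℂ) (M t : ℝ) :
    HasDerivAt (C05a_f b M) (C05a_f (C05a_b b M) M t) t := by
  unfold C05a_f C05a_b
  refine HasDerivAt.fun_sum fun n _ => ?_
  have h1 : HasDerivAt (fun s : ℝ => (((-(s * (Real.log n - Real.log M)) : ℝ) : ℂ)) * I)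
      (-((Real.log n - Real.log M : ℝ) : ℂ) * I) t := by
    have h2 : HasDerivAt (fun s : ℝ => (-(s * (Real.log n - Real.log M)) : ℝ))
        (-(1 * (Real.log n - Real.log M))) t := ((hasDerivAt_id t).mul_const _).neg
    have h3 := h2.ofReal_comp.mul_const I
    refine h3.congr_deriv ?_
    push_cast
    ring
  have h4 := (h1.cexp).const_mul (b n)
  refine h4.congr_deriv ?_
  unfold ei
  ring

theorem C05a_cont (b : ℕ → ℂ) (M : ℝ) : Continuous (C05a_f b M) := by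
  rw [continuous_iff_continuousAt]
  exact fun t => (C05a_deriv b M t).continuousAt

theorem C05a_bound (b : ℕ → ℂ) (M t : ℝ) :
    ‖C05a_f b M t‖ ≤ ∑ n ∈ Finset.Ioc ⌊M⌋₊ ⌊4 * M⌋₊, ‖b n‖ := by
  unfold C05a_f
  refine (norm_sum_le _ _).trans (Finset.sum_le_sum fun n _ => ?_)
  rw [norm_mul, C05a_norm_ei, mul_one]

theorem C05a_b_le {M B : ℝ} (hM : 1 ≤ M) (hB : 0 ≤ B) (b : ℕ → ℂ)
    (hb : ∀ n ∈ Finset.Ioc ⌊M⌋₊ ⌊4 * M⌋₊, ‖b n‖ ≤ B) :
    ∀ n ∈ Finset.Ioc ⌊M⌋₊ ⌊4 * M⌋₊, ‖C05a_b b M n‖ ≤ 2 * B := by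
  intro n hn
  obtain ⟨h1, h2⟩ := Finset.mem_Ioc.1 hn
  have hM0 : 0 < M := by linarith
  have h3 : M < n := Nat.lt_of_floor_lt h1
  have h4 : (n : ℝ) ≤ 4 * M := (Nat.le_floor_iff (by linarith)).1 h2
  have hn0 : (0 : ℝ) < n := by linarith
  have h5 : 0 ≤ Real.log n - Real.log M := by
    have := Real.log_le_log hM0 h3.le
    linarith
  have h6 : Real.log n - Real.log M ≤ 2 := by
    have h7 : Real.log n ≤ Real.log (4 * M) := Real.log_le_log hn0 h4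
    rw [Real.log_mul (by norm_num) hM0.ne'] at h7
    have h8 : Real.log 4 ≤ 2 := by
      have : (4 : ℝ) = 2 ^ 2 := by norm_num
      rw [this, Real.log_pow]
      have := Real.log_two_lt_d9
      push_cast
      linarith
    linarith
  unfold C05a_b
  rw [norm_mul, norm_mul, norm_neg, Complex.norm_I, mul_one, Complex.norm_real,
    Real.norm_of_nonneg h5]
  calc ‖b n‖ * (Real.log n - Real.log M) ≤ B * 2 :=
        mul_le_mul (hb n hn) h6 h5 hB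
    _ = 2 * B := by ring

/-- comparison of the weights -/
theorem C05a_w {x y : ℝ} (h : |x - y| ≤ 1 / 2) : 4 / (4 + x ^ 2) ≤ 2 * (4 / (4 + y ^ 2)) := by
  have h1 : 0 < 4 + x ^ 2 := by positivity
  have h2 : 0 < 4 + y ^ 2 := by positivity
  rw [mul_div_assoc', div_le_div_iff₀ h1 h2]
  obtain ⟨h3, h4⟩ := abs_le.1 h
  nlinarith [sq_nonneg (x - y), sq_nonneg (x + y), sq_nonneg x, sq_nonneg y, sq_nonneg (x - 1),
    sq_nonneg (x + 1)]

theorem C05a_int_w (c : ℝ) : Integrable (fun u : ℝ => 4 / (4 + (c - u) ^ 2)) := by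
  have h1 : Integrable (fun u : ℝ => (1 + u ^ 2)⁻¹) := integrable_inv_one_add_sq
  have h2 : Integrable (fun u : ℝ => (1 + (c - u) ^ 2)⁻¹) := h1.comp_sub_left c
  refine (h2.const_mul 4).mono' ?_ ?_
  · exact (Continuous.div continuous_const (by fun_prop) fun u => by positivity).aestronglyMeasurable
  · refine Eventually.of_forall fun u => ?_
    have h3 : (0 : ℝ) < 1 + (c - u) ^ 2 := by positivity
    rw [Real.norm_of_nonneg (by positivity), ← div_eq_mul_inv]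
    exact div_le_div_of_nonneg_left (by norm_num) h3 (by linarith)

/-- one value of `t1 + t2 - t3` -/
theorem C05a_one {M V : ℝ} (hV : 0 ≤ V) {S : Finset ℝ} (hS : Sep S)
    (b : ℕ → ℂ) (hD : ∀ t ∈ S, V ≤ ‖Dp b M t‖) (τ : ℝ) :
    ∑ t ∈ S, V ^ 2 * (4 / (4 + (τ - t) ^ 2)) ≤ 4 * ∫ u : ℝ, 4 / (4 + u ^ 2) *
      (‖Dp b M (u + τ)‖ ^ 2 + ‖Dp (C05a_b b M) M (u + τ)‖ ^ 2) := by
  set f := C05a_f b M with hf
  set f' := C05a_f (C05a_b b M) M with hf'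
  have hfc : Continuous f := C05a_cont b M
  have hfc' : Continuous f' := C05a_cont _ M
  set F : ℝ → ℝ := fun u => 4 * (4 / (4 + (τ - u) ^ 2) * (‖f u‖ ^ 2 + ‖f' u‖ ^ 2)) with hF
  have hwc : Continuous (fun u : ℝ => 4 / (4 + (τ - u) ^ 2)) :=
    Continuous.div continuous_const (by fun_prop) fun u => by positivity
  have hFc : Continuous F :=
    (hwc.mul ((hfc.norm.pow 2).add (hfc'.norm.pow 2))).const_mul 4 |>.congr fun _ => rfl
  have hF0 : ∀ u, 0 ≤ F u := fun u => by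
    simp only [hF]; positivity
  obtain ⟨Q, hQ⟩ : ∃ Q : ℝ, ∀ u, ‖f u‖ ^ 2 + ‖f' u‖ ^ 2 ≤ Q :=
    ⟨_, fun u => add_le_add (pow_le_pow_left₀ (norm_nonneg _) (C05a_bound b M u) 2)
      (pow_le_pow_left₀ (norm_nonneg _) (C05a_bound (C05a_b b M) M u) 2)⟩
  have hFi : Integrable F := by
    refine (((C05a_int_w τ).mul_const Q).const_mul 4).mono' hFc.aestronglyMeasurable
      (Eventually.of_forall fun u => ?_)
    rw [Real.norm_of_nonneg (hF0 u)]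
    simp only [hF]
    exact mul_le_mul_of_nonneg_left (mul_le_mul_of_nonneg_left (hQ u) (by positivity))
      (by norm_num)
  have h1 : ∑ t ∈ S, V ^ 2 * (4 / (4 + (τ - t) ^ 2)) ≤
      ∑ t ∈ S, ∫ u in (t - 1 / 2)..(t + 1 / 2), F u := by
    refine Finset.sum_le_sum fun t ht => ?_
    have h2 : V ^ 2 ≤ ‖f t‖ ^ 2 := by
      have := hD t ht
      rw [C05a_norm] at this
      exact pow_le_pow_left₀ hV this 2
    have h3 := sobolev (f := f) (f' := f') (fun x => C05a_deriv b M x) hfc' t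
    have h4 : V ^ 2 * (4 / (4 + (τ - t) ^ 2)) ≤
        (∫ u in (t - 1 / 2)..(t + 1 / 2), (‖f u‖ ^ 2 + 2 * ‖f u‖ * ‖f' u‖)) *
          (4 / (4 + (τ - t) ^ 2)) :=
      mul_le_mul_of_nonneg_right (h2.trans h3) (by positivity)
    refine h4.trans ?_
    rw [← intervalIntegral.integral_mul_const]
    refine intervalIntegral.integral_mono_on (by linarith) ?_ ?_ ?_
    · exact Continuous.intervalIntegrable (by fun_prop) _ _
    · exact hFc.intervalIntegrable _ _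
    · intro u hu
      have h5 : 4 / (4 + (τ - t) ^ 2) ≤ 2 * (4 / (4 + (τ - u) ^ 2)) := by
        apply C05a_w
        rw [abs_le]
        constructor <;> linarith [hu.1, hu.2]
      have h6 : ‖f u‖ ^ 2 + 2 * ‖f u‖ * ‖f' u‖ ≤ 2 * (‖f u‖ ^ 2 + ‖f' u‖ ^ 2) := by
        nlinarith [sq_nonneg (‖f u‖ - ‖f' u‖), sq_nonneg ‖f' u‖]
      calc (‖f u‖ ^ 2 + 2 * ‖f u‖ * ‖f' u‖) * (4 / (4 + (τ - t) ^ 2))
          ≤ (2 * (‖f u‖ ^ 2 + ‖f' u‖ ^ 2)) * (2 * (4 / (4 + (τ - u) ^ 2))) :=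
            mul_le_mul h6 h5 (by positivity) (by positivity)
        _ = F u := by simp only [hF]; ring
  refine h1.trans ((sep_sum_int hS hFi hF0).trans (le_of_eq ?_))
  rw [← integral_add_right_eq_self F τ, ← integral_const_mul]
  refine integral_congr_ae (Eventually.of_forall fun u => ?_)
  simp only [hF, C05a_norm]
  have : τ - (u + τ) = -u := by ring
  rw [this, neg_sq]

/-- `F = ‖f‖² + 2‖f‖‖f'‖`-smoothing. Proof: `f t = ∑ b_n e^{-it log(n/M)}`, `‖f‖ = ‖Dp b M‖`, `f'` has the coefficients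
`-i b_n log(n/M)`, `|log(n/M)| ≤ log 4`; `sobolev`; `4/(4+x²) ≤ 2·4/(4+x'²)` for `|x-x'| ≤ 1/2`; `sep_sum_int`. -/
theorem energy_smooth {M B V : ℝ} (hM : 1 ≤ M) (hB : 0 ≤ B) (hV : 0 ≤ V) {S : Finset ℝ} (hS : Sep S)
    (b : ℕ → ℂ) (hb : ∀ n ∈ Finset.Ioc ⌊M⌋₊ ⌊4 * M⌋₊, ‖b n‖ ≤ B) (hD : ∀ t ∈ S, V ≤ ‖Dp b M t‖) :
    ∃ b' : ℕ → ℂ, (∀ n ∈ Finset.Ioc ⌊M⌋₊ ⌊4 * M⌋₊, ‖b' n‖ ≤ 2 * B) ∧
    V ^ 2 * En S ≤ 4 * ∑ t1 ∈ S, ∑ t2 ∈ S, ∑ t3 ∈ S, ∫ u : ℝ, 4 / (4 + u ^ 2) *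
      (‖Dp b M (u + (t1 + t2 - t3))‖ ^ 2 + ‖Dp b' M (u + (t1 + t2 - t3))‖ ^ 2) := by
  refine ⟨C05a_b b M, C05a_b_le hM hB b hb, ?_⟩
  unfold En
  simp only [Finset.mul_sum]
  refine Finset.sum_le_sum fun t1 _ => Finset.sum_le_sum fun t2 _ =>
    Finset.sum_le_sum fun t3 _ => ?_
  exact C05a_one hV hS b hD (t1 + t2 - t3)

end OL
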