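import Pool.Agent.Lib.MP_39df77_nt.OL.C05
import Pool.Agent.Lib.MP_39df77_nt.OL.A10
import Pool.Agent.Lib.MP_39df77_nt.OL.A06

/-! energy inequality, numerical form -/

set_option autoImplicit false

open Complex MeasureTheory Set Filter Topology
open scoped Real ComplexConjugate

namespace OL

private theorem C06_err {a : ℕ} {e T X : ℝ} (hea : 3 / 2 + e / 2 ≤ e * a) (ha : 1 ≤ a)
    (hT : 1 ≤ T) (hX : T ^ (1 + e) ≤ X) : T ^ a * X ^ (1 / 2 - (a : ℝ)) ≤ 1 / T := by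
  have hT0 : 0 < T := by linarith
  have ha1 : (1 : ℝ) ≤ a := by exact_mod_cast ha
  have h1 : X ^ (1 / 2 - (a : ℝ)) ≤ (T ^ (1 + e)) ^ (1 / 2 - (a : ℝ)) :=
    Real.rpow_le_rpow_of_nonpos (by positivity) hX (by linarith)
  calc T ^ a * X ^ (1 / 2 - (a : ℝ)) ≤ T ^ a * (T ^ (1 + e)) ^ (1 / 2 - (a : ℝ)) := by gcongr
    _ = T ^ ((a : ℝ) + (1 + e) * (1 / 2 - a)) := by
        rw [← Real.rpow_natCast, ← Real.rpow_mul hT0.le, ← Real.rpow_add hT0]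
    _ ≤ T ^ (-1 : ℝ) := Real.rpow_le_rpow_of_exponent_le hT (by nlinarith)
    _ = 1 / T := by rw [Real.rpow_neg_one, one_div]

private theorem C06_ei (x : ℝ) : ‖ei x‖ = 1 := by
  rw [ei, Complex.norm_exp_ofReal_mul_I]

private theorem C06_pt {a : ℕ} {M T τ C1 C2 : ℝ} {Y : ℕ} (hM : 1 ≤ M) (hT : 1 ≤ T)
    (h0 : ‖Km a M τ 0‖ ≤ C2 / (1 + τ ^ 2) ^ 2)
    (h1 : ‖K a M τ - (M : ℂ) * ei (τ * Real.log M) * Km a M τ 0 - KY a Y M τ‖ ≤ C1 / T) :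
    ‖K a M τ‖ ^ 2 ≤ 3 * (M ^ 2 * C2 ^ 2 * (1 / (1 + τ ^ 2)) + (‖KY a Y M τ‖ ^ 2 + C1 ^ 2 / T ^ 2)) := by
  have hT0 : 0 < T := by linarith
  have hM0 : 0 < M := by linarith
  obtain ⟨x, hx⟩ : ∃ x : ℂ, x = (M : ℂ) * ei (τ * Real.log M) * Km a M τ 0 := ⟨_, rfl⟩
  rw [← hx] at h1
  have hxn : ‖x‖ ^ 2 ≤ M ^ 2 * C2 ^ 2 * (1 / (1 + τ ^ 2)) := by
    have e1 : ‖x‖ = M * ‖Km a M τ 0‖ := by
      rw [hx, norm_mul, norm_mul, C06_ei, mul_one, Complex.norm_real, Real.norm_of_nonneg hM0.le]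
    have e2 : ‖Km a M τ 0‖ ^ 2 ≤ C2 ^ 2 * (1 / (1 + τ ^ 2)) := by
      have hτ : 1 ≤ 1 + τ ^ 2 := by nlinarith [sq_nonneg τ]
      calc ‖Km a M τ 0‖ ^ 2 ≤ (C2 / (1 + τ ^ 2) ^ 2) ^ 2 := by gcongr
        _ = C2 ^ 2 * (1 / (1 + τ ^ 2) ^ 4) := by field_simp
        _ ≤ C2 ^ 2 * (1 / (1 + τ ^ 2)) := by
            gcongr
            exact le_self_pow₀ hτ (by norm_num)
    rw [e1, mul_pow, mul_assoc]
    gcongr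
  have htri : ‖K a M τ‖ ≤ ‖x‖ + ‖KY a Y M τ‖ + C1 / T := by
    have e1 : K a M τ = x + KY a Y M τ + (K a M τ - x - KY a Y M τ) := by ring
    calc ‖K a M τ‖ = ‖x + KY a Y M τ + (K a M τ - x - KY a Y M τ)‖ := by rw [← e1]
      _ ≤ ‖x‖ + ‖KY a Y M τ‖ + ‖K a M τ - x - KY a Y M τ‖ :=
        (norm_add_le _ _).trans (by gcongr; exact norm_add_le _ _)
      _ ≤ _ := by gcongr
  have h3 : ‖K a M τ‖ ^ 2 ≤ 3 * (‖x‖ ^ 2 + (‖KY a Y M τ‖ ^ 2 + (C1 / T) ^ 2)) := by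
    have : ‖K a M τ‖ ^ 2 ≤ (‖x‖ + ‖KY a Y M τ‖ + C1 / T) ^ 2 := by gcongr
    nlinarith [sq_nonneg (‖x‖ - ‖KY a Y M τ‖), sq_nonneg (‖x‖ - C1 / T),
      sq_nonneg (‖KY a Y M τ‖ - C1 / T)]
  rw [div_pow] at h3
  linarith

private theorem C06_two (S : Finset ℝ) (f g : ℝ → ℝ → ℝ) {A B D : ℝ} (hA : 0 ≤ A)
    (h : ∀ s ∈ S, ∀ t ∈ S, f s t ≤ 3 * (A * (1 / (1 + (t - s) ^ 2)) + (g s t + D)))
    (hg : ∀ s ∈ S, ∑ t ∈ S, g s t ≤ B) (hS : Sep S) :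
    ∑ s ∈ S, ∑ t ∈ S, f s t ≤ 3 * (S.card * (A * 8 + (B + S.card * D))) := by
  have h1 : ∀ s ∈ S, ∑ t ∈ S, f s t ≤ 3 * (A * 8 + (B + S.card * D)) := by
    intro s hs
    calc ∑ t ∈ S, f s t ≤ ∑ t ∈ S, 3 * (A * (1 / (1 + (t - s) ^ 2)) + (g s t + D)) :=
          Finset.sum_le_sum fun t ht => h s hs t ht
      _ = 3 * (A * ∑ t ∈ S, (1 / (1 + (t - s) ^ 2)) + (∑ t ∈ S, g s t + S.card * D)) := by
          rw [← Finset.mul_sum, Finset.sum_add_distrib, ← Finset.mul_sum, Finset.sum_add_distrib,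
            Finset.sum_const, nsmul_eq_mul]
      _ ≤ _ := by
          gcongr
          · exact sep_sum hS s
          · exact hg s hs
  calc ∑ s ∈ S, ∑ t ∈ S, f s t ≤ ∑ s ∈ S, 3 * (A * 8 + (B + S.card * D)) := Finset.sum_le_sum h1
    _ = _ := by rw [Finset.sum_const, nsmul_eq_mul]; ring

private theorem C06_four (S : Finset ℝ) (f g : ℝ → ℝ → ℝ → ℝ → ℝ) {A B D : ℝ} (hA : 0 ≤ A)
    (h : ∀ t1 ∈ S, ∀ t2 ∈ S, ∀ t3 ∈ S, ∀ t4 ∈ S, f t1 t2 t3 t4 ≤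
      3 * (A * (1 / (1 + (t1 + t2 - t3 - t4) ^ 2)) + (g t1 t2 t3 t4 + D)))
    (hg : ∀ t1 ∈ S, ∀ t2 ∈ S, ∀ t3 ∈ S, ∑ t4 ∈ S, g t1 t2 t3 t4 ≤ B) :
    ∑ t1 ∈ S, ∑ t2 ∈ S, ∑ t3 ∈ S, ∑ t4 ∈ S, f t1 t2 t3 t4 ≤
      3 * (A * En S + (S.card : ℝ) ^ 3 * (B + S.card * D)) := by
  have h1 : ∀ t1 ∈ S, ∀ t2 ∈ S, ∀ t3 ∈ S, ∑ t4 ∈ S, f t1 t2 t3 t4 ≤
      3 * (A * ∑ t4 ∈ S, 4 / (4 + (t1 + t2 - t3 - t4) ^ 2) + (B + S.card * D)) := by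
    intro t1 h1 t2 h2 t3 h3
    calc ∑ t4 ∈ S, f t1 t2 t3 t4 ≤ ∑ t4 ∈ S,
          3 * (A * (1 / (1 + (t1 + t2 - t3 - t4) ^ 2)) + (g t1 t2 t3 t4 + D)) :=
          Finset.sum_le_sum fun t ht => h t1 h1 t2 h2 t3 h3 t ht
      _ = 3 * (A * ∑ t4 ∈ S, (1 / (1 + (t1 + t2 - t3 - t4) ^ 2)) +
          (∑ t4 ∈ S, g t1 t2 t3 t4 + S.card * D)) := by
          rw [← Finset.mul_sum, Finset.sum_add_distrib, ← Finset.mul_sum, Finset.sum_add_distrib,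
            Finset.sum_const, nsmul_eq_mul]
      _ ≤ _ := by
          have e5 : ∑ t4 ∈ S, (1 / (1 + (t1 + t2 - t3 - t4) ^ 2)) ≤
              ∑ t4 ∈ S, 4 / (4 + (t1 + t2 - t3 - t4) ^ 2) := by
            refine Finset.sum_le_sum fun t4 _ => ?_
            rw [div_le_div_iff₀ (by positivity) (by positivity)]
            nlinarith [sq_nonneg (t1 + t2 - t3 - t4)]
          have e6 := mul_le_mul_of_nonneg_left e5 hA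
          have e7 := hg t1 h1 t2 h2 t3 h3
          linarith
  calc ∑ t1 ∈ S, ∑ t2 ∈ S, ∑ t3 ∈ S, ∑ t4 ∈ S, f t1 t2 t3 t4
      ≤ ∑ t1 ∈ S, ∑ t2 ∈ S, ∑ t3 ∈ S,
        3 * (A * ∑ t4 ∈ S, 4 / (4 + (t1 + t2 - t3 - t4) ^ 2) + (B + S.card * D)) :=
        Finset.sum_le_sum fun t1 h1' => Finset.sum_le_sum fun t2 h2' => Finset.sum_le_sum
          fun t3 h3' => h1 t1 h1' t2 h2' t3 h3'
    _ = _ := by
        simp only [← Finset.mul_sum, Finset.sum_add_distrib, Finset.sum_const, nsmul_eq_mul]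
        rw [En]
        ring

private theorem C06_alg {c1 c2 c3 u P X D Z : ℝ} (h1 : 0 ≤ c1) (h2 : 0 ≤ c2) (h3 : 0 ≤ c3)
    (hu : 1 ≤ u) (hZ : 0 ≤ Z) (hZP : Z ≤ P) (hX : 0 ≤ X) (hD : D ≤ 4 * c1) :
    24 * c2 * P + 3 * c3 * u * X + 3 * D * Z ≤ (24 * c2 + 3 * c3 + 12 * c1) * u * (P + X) := by
  have hP : 0 ≤ P := hZ.trans hZP
  have hPu : P ≤ u * P := by nlinarith
  have hXu : 0 ≤ u * X := mul_nonneg (by linarith) hX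
  have hPu0 : 0 ≤ u * P := hP.trans hPu
  have e1 : D * Z ≤ 4 * c1 * Z := mul_le_mul_of_nonneg_right hD hZ
  have e2 : 4 * c1 * Z ≤ 4 * c1 * P := mul_le_mul_of_nonneg_left hZP (by linarith)
  have e3 : c1 * P ≤ c1 * (u * P) := mul_le_mul_of_nonneg_left hPu h1
  have e4 : c2 * P ≤ c2 * (u * P) := mul_le_mul_of_nonneg_left hPu h2
  have e5 := mul_nonneg h1 hXu
  have e6 := mul_nonneg h2 hXu
  have e7 := mul_nonneg h3 hPu0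
  nlinarith

/-- Proof: `energy0`; `‖K‖² ≤ 3(M²‖Km 0‖² + ‖KY‖² + err²)`; `∑ 1/(1+(s-t)²)⁴ ≤ 8R`, `1/(1+x²)⁴ ≤ 4/(4+x²)`, `KY_sum` with
`s = t1+t2-t3` (after `KY(-τ) = conj KY(τ)`), `err ≤ C/T`, `R ≤ T+1`, `En ≥ R²`. -/
theorem energy1 {k : ℕ} (hk : 1 ≤ k) {e : ℝ} (he : 0 < e) : ∃ C : ℝ, 0 < C ∧
    ∀ (T M B V : ℝ) (Y : ℕ) (S : Finset ℝ) (b : ℕ → ℂ), 1 ≤ T → 1 ≤ M → 1 ≤ Y →
    T ^ (1 + e) ≤ M * Y → M * Y ≤ T ^ 3 → T ≤ (Y : ℝ) ^ k → Sep S → InI S T → S.Nonempty → 0 < B → 0 ≤ V →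
    (∀ n ∈ Finset.Ioc ⌊M⌋₊ ⌊4 * M⌋₊, ‖b n‖ ≤ B) → (∀ t ∈ S, V ≤ ‖Dp b M t‖) →
    V ^ 2 * En S ≤ C * T ^ (4 * e) * B ^ 2 *
      ((M ^ 2 * S.card + M * Y * (S.card : ℝ) ^ (2 - 1 / (k : ℝ))) ^ (1 / 2 : ℝ) *
       (M ^ 2 * En S + M * Y * (S.card : ℝ) ^ (4 - 1 / (k : ℝ))) ^ (1 / 2 : ℝ)) := by
  obtain ⟨a, ha2, hea⟩ : ∃ a : ℕ, 2 ≤ a ∧ 3 / 2 + e / 2 ≤ e * a := by
    refine ⟨⌈(3 / 2 + e / 2) / e⌉₊ + 2, by omega, ?_⟩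
    have h1 := Nat.le_ceil ((3 / 2 + e / 2) / e)
    rw [div_le_iff₀ he] at h1
    push_cast
    nlinarith
  have ha1 : 1 ≤ a := by omega
  obtain ⟨C0, hC0, hE⟩ := energy0 ha1
  obtain ⟨C1, hC1, hsplit⟩ := K_split ha2
  obtain ⟨C2, hC2, hzero⟩ := Km_zero a
  obtain ⟨C3, hC3, hKY⟩ := KY_sum ha1 hk he
  obtain ⟨C, hCdef⟩ : ∃ C : ℝ, C = 24 * C2 ^ 2 + 3 * C3 + 12 * C1 ^ 2 := ⟨_, rfl⟩
  have hC : 0 < C := by rw [hCdef]; positivity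
  refine ⟨C0 * C, by positivity, ?_⟩
  intro T M B V Y S b hT hM hY hTY hYT hTk hS hI hne hB hV hb hD
  have hT0 : 0 < T := by linarith
  have hM0 : 0 < M := by linarith
  have hYr : (1 : ℝ) ≤ Y := by exact_mod_cast hY
  obtain ⟨R, hR⟩ : ∃ R : ℝ, R = S.card := ⟨_, rfl⟩
  have hR1 : 1 ≤ R := by
    rw [hR]; exact_mod_cast hne.card_pos
  have hR0 : 0 < R := by linarith
  have hRT : R ≤ T + 1 := by rw [hR]; exact sep_card hT0.le hS hI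
  have hEn : R ^ 2 ≤ En S := by rw [hR]; exact En_ge S
  have hEn0 : 0 ≤ En S := (sq_nonneg R).trans hEn
  obtain ⟨A, hA⟩ := id hI
  have hk1 : (0 : ℝ) < k := by exact_mod_cast hk
  -- pointwise
  have hpt : ∀ τ : ℝ, |τ| ≤ 4 * T → ‖K a M τ‖ ^ 2 ≤
      3 * (M ^ 2 * C2 ^ 2 * (1 / (1 + τ ^ 2)) + (‖KY a Y M τ‖ ^ 2 + C1 ^ 2 / T ^ 2)) := by
    intro τ hτ
    refine C06_pt hM hT (hzero M τ) ((hsplit T M τ Y hT hM hY hτ).trans ?_)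
    rw [mul_assoc]
    have := C06_err hea ha1 hT hTY
    calc C1 * (T ^ a * (M * Y) ^ (1 / 2 - (a : ℝ))) ≤ C1 * (1 / T) := by gcongr
      _ = C1 / T := by rw [mul_one_div]
  -- the bound of the mean squares
  have hYe : (Y : ℝ) ^ e ≤ T ^ (3 * e) := by
    have h1 : (Y : ℝ) ≤ T ^ 3 := le_trans (by nlinarith) hYT
    calc (Y : ℝ) ^ e ≤ (T ^ 3) ^ e := Real.rpow_le_rpow (by positivity) h1 he.le
      _ = T ^ (3 * e) := by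
        rw [← Real.rpow_natCast, ← Real.rpow_mul hT0.le]; norm_num
  have hT3 : 1 ≤ T ^ (3 * e) := Real.one_le_rpow hT (by positivity)
  obtain ⟨Q, hQ⟩ : ∃ Q : ℝ, Q = C3 * T ^ (3 * e) * (M * Y * R ^ (1 - 1 / (k : ℝ))) := ⟨_, rfl⟩
  have hKYs : ∀ s : ℝ, ∑ t ∈ S, ‖KY a Y M (t - s)‖ ^ 2 ≤ Q := by
    intro s
    refine (hKY T M Y S s hT hM hY hTk hS hI).trans ?_
    rw [hQ, ← hR]
    gcongr
  have hKYs' : ∀ s : ℝ, ∑ t ∈ S, ‖KY a Y M (s - t)‖ ^ 2 ≤ Q := by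
    intro s
    refine le_trans (le_of_eq ?_) (hKYs s)
    refine Finset.sum_congr rfl fun t _ => ?_
    rw [← neg_sub t s, ← KY_conj, Complex.norm_conj]
  -- two sums
  have hR' : R ^ (2 - 1 / (k : ℝ)) = R * R ^ (1 - 1 / (k : ℝ)) := by
    rw [show (2 : ℝ) - 1 / k = 1 + (1 - 1 / k) by ring, Real.rpow_add hR0, Real.rpow_one]
  have hR'' : R ^ (4 - 1 / (k : ℝ)) = R ^ 3 * R ^ (1 - 1 / (k : ℝ)) := by
    rw [show (4 : ℝ) - 1 / k = 3 + (1 - 1 / k) by ring, Real.rpow_add hR0]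
    norm_num
  have hRD : R * (C1 ^ 2 / T ^ 2) * R ≤ 4 * C1 ^ 2 := by
    have h1 : R ≤ 2 * T := by linarith
    have h2 : R * R ≤ 4 * T ^ 2 := by nlinarith
    calc R * (C1 ^ 2 / T ^ 2) * R = C1 ^ 2 * (R * R) / T ^ 2 := by ring
      _ ≤ C1 ^ 2 * (4 * T ^ 2) / T ^ 2 := by gcongr
      _ = 4 * C1 ^ 2 := by field_simp
  have hM2 : 1 ≤ M ^ 2 := one_le_pow₀ hM
  have hs1 : ∑ s ∈ S, ∑ t ∈ S, ‖K a M (s - t)‖ ^ 2 ≤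
      C * T ^ (3 * e) * (M ^ 2 * R + M * Y * R ^ (2 - 1 / (k : ℝ))) := by
    have h1 := C06_two S (fun s t => ‖K a M (s - t)‖ ^ 2) (fun s t => ‖KY a Y M (s - t)‖ ^ 2)
      (A := M ^ 2 * C2 ^ 2) (B := Q) (D := C1 ^ 2 / T ^ 2) (by positivity) ?_ (fun s _ => hKYs' s) hS
    · refine h1.trans ?_
      rw [← hR, hQ, hR']
      have e1 : 3 * (R * (M ^ 2 * C2 ^ 2 * 8 + (C3 * T ^ (3 * e) * (M * Y * R ^ (1 - 1 / (k : ℝ))) +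
          R * (C1 ^ 2 / T ^ 2)))) = 24 * C2 ^ 2 * (M ^ 2 * R) + 3 * C3 * T ^ (3 * e) *
          (M * Y * (R * R ^ (1 - 1 / (k : ℝ)))) + 3 * (R * (C1 ^ 2 / T ^ 2) * R) := by ring
      rw [e1]
      have h5 : 1 ≤ M ^ 2 * R := one_le_mul_of_one_le_of_one_le hM2 hR1
      have h6 := C06_alg (c1 := C1 ^ 2) (c2 := C2 ^ 2) (c3 := C3) (u := T ^ (3 * e))
        (P := M ^ 2 * R) (X := M * Y * (R * R ^ (1 - 1 / (k : ℝ)))) (D := R * (C1 ^ 2 / T ^ 2) * R)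
        (Z := 1) (by positivity) (by positivity) hC3.le hT3 zero_le_one h5 (by positivity) hRD
      rw [mul_one] at h6
      rw [hCdef]
      exact h6
    · intro s hs t ht
      have h1 := hA s hs
      have h2 := hA t ht
      have h3 := hpt (s - t) (by rw [abs_le]; constructor <;> linarith)
      have h4 : (t - s) ^ 2 = (s - t) ^ 2 := by ring
      rw [h4]
      exact h3
  have hs2 : ∑ t1 ∈ S, ∑ t2 ∈ S, ∑ t3 ∈ S, ∑ t4 ∈ S, ‖K a M (t1 + t2 - t3 - t4)‖ ^ 2 ≤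
      C * T ^ (3 * e) * (M ^ 2 * En S + M * Y * R ^ (4 - 1 / (k : ℝ))) := by
    have h1 := C06_four S (fun t1 t2 t3 t4 => ‖K a M (t1 + t2 - t3 - t4)‖ ^ 2)
      (fun t1 t2 t3 t4 => ‖KY a Y M (t1 + t2 - t3 - t4)‖ ^ 2)
      (A := M ^ 2 * C2 ^ 2) (B := Q) (D := C1 ^ 2 / T ^ 2) (by positivity) ?_
      (fun t1 _ t2 _ t3 _ => hKYs' (t1 + t2 - t3))
    · refine h1.trans ?_
      rw [← hR, hQ, hR'']
      have e1 : 3 * (M ^ 2 * C2 ^ 2 * En S + R ^ 3 * (C3 * T ^ (3 * e) *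
          (M * Y * R ^ (1 - 1 / (k : ℝ))) + R * (C1 ^ 2 / T ^ 2))) =
          3 * C2 ^ 2 * (M ^ 2 * En S) + 3 * C3 * T ^ (3 * e) *
          (M * Y * (R ^ 3 * R ^ (1 - 1 / (k : ℝ)))) + 3 * (R * (C1 ^ 2 / T ^ 2) * R) * R ^ 2 := by
        ring
      rw [e1]
      have hX2 : R ^ 2 ≤ M ^ 2 * En S := hEn.trans (le_mul_of_one_le_left hEn0 hM2)
      have h6 := C06_alg (c1 := C1 ^ 2) (c2 := C2 ^ 2) (c3 := C3) (u := T ^ (3 * e))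
        (P := M ^ 2 * En S) (X := M * Y * (R ^ 3 * R ^ (1 - 1 / (k : ℝ))))
        (D := R * (C1 ^ 2 / T ^ 2) * R)
        (Z := R ^ 2) (by positivity) (by positivity) hC3.le hT3 (by positivity) hX2
        (by positivity) hRD
      have h7 : 0 ≤ 21 * C2 ^ 2 * (M ^ 2 * En S) := by positivity
      rw [hCdef]
      linarith
    · intro t1 h1 t2 h2 t3 h3 t4 h4
      have k1 := hA t1 h1
      have k2 := hA t2 h2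
      have k3 := hA t3 h3
      have k4 := hA t4 h4
      exact hpt _ (by rw [abs_le]; constructor <;> linarith)
  have hmain := hE M B V S b hM hB.le hV hS hb hD
  refine hmain.trans ?_
  rw [← hR]
  obtain ⟨Z1, hZ1⟩ : ∃ Z : ℝ, Z = M ^ 2 * R + M * Y * R ^ (2 - 1 / (k : ℝ)) := ⟨_, rfl⟩
  obtain ⟨Z2, hZ2⟩ : ∃ Z : ℝ, Z = M ^ 2 * En S + M * Y * R ^ (4 - 1 / (k : ℝ)) := ⟨_, rfl⟩
  rw [← hZ1] at hs1
  rw [← hZ2] at hs2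
  rw [← hZ1, ← hZ2, ← Real.sqrt_eq_rpow, ← Real.sqrt_eq_rpow]
  have hc0 : 0 ≤ C * T ^ (3 * e) := by positivity
  have hprod : Real.sqrt (∑ s ∈ S, ∑ t ∈ S, ‖K a M (s - t)‖ ^ 2) *
      Real.sqrt (∑ t1 ∈ S, ∑ t2 ∈ S, ∑ t3 ∈ S, ∑ t4 ∈ S, ‖K a M (t1 + t2 - t3 - t4)‖ ^ 2) ≤
      C * T ^ (3 * e) * (Real.sqrt Z1 * Real.sqrt Z2) := by
    calc _ ≤ Real.sqrt (C * T ^ (3 * e) * Z1) * Real.sqrt (C * T ^ (3 * e) * Z2) :=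
          mul_le_mul (Real.sqrt_le_sqrt hs1) (Real.sqrt_le_sqrt hs2) (Real.sqrt_nonneg _)
            (Real.sqrt_nonneg _)
      _ = (Real.sqrt (C * T ^ (3 * e)) * Real.sqrt (C * T ^ (3 * e))) *
          (Real.sqrt Z1 * Real.sqrt Z2) := by
          rw [Real.sqrt_mul hc0, Real.sqrt_mul hc0]; ring
      _ = _ := by rw [Real.mul_self_sqrt hc0]
  have hT4 : T ^ (3 * e) ≤ T ^ (4 * e) := Real.rpow_le_rpow_of_exponent_le hT (by linarith)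
  calc C0 * B ^ 2 * (Real.sqrt (∑ s ∈ S, ∑ t ∈ S, ‖K a M (s - t)‖ ^ 2) *
      Real.sqrt (∑ t1 ∈ S, ∑ t2 ∈ S, ∑ t3 ∈ S, ∑ t4 ∈ S, ‖K a M (t1 + t2 - t3 - t4)‖ ^ 2))
      ≤ C0 * B ^ 2 * (C * T ^ (4 * e) * (Real.sqrt Z1 * Real.sqrt Z2)) := by
        refine mul_le_mul_of_nonneg_left (hprod.trans ?_) (by positivity)
        gcongr
    _ = _ := by ring

end OL
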