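import Pool.Agent.Lib.MP_39df77_nt.OL.C06

/-! bound for the energy at the critical size -/

set_option autoImplicit false
set_option maxHeartbeats 4000000

open Complex MeasureTheory Set Filter Topology
open scoped Real ComplexConjugate

namespace OL

/-- solving the quadratic inequality -/
theorem quad_solve {E p q : ℝ} (hp : 0 ≤ p) (hq : 0 ≤ q) (h : E ^ 2 ≤ p * E + q ^ 2) : E ≤ p + q := by
  by_contra hlt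
  push Not at hlt
  have h1 : p + q < E := hlt
  have h2 : 0 < E := by linarith
  nlinarith

theorem e2alg {C q μ τ s ρ E : ℝ} (hC : 0 < C) (hq : 1 ≤ q) (hμ : 0 < μ) (hτ : 0 < τ) (hs : 0 < s) (hρ : 0 < ρ)
    (hρ1 : ρ ≤ 1) (hE : 0 ≤ E)
    (h1 : τ ≤ μ ^ 2 * s) (h2 : q ^ 4 * μ ^ 2 * s ^ 2 ≤ 2 * τ ^ 2) (h3 : τ ^ 4 ≤ q ^ 10 * μ ^ 10)
    (hq2 : 4 * C ^ 2 + 4 * C ≤ q ^ 2)
    (H : μ ^ 12 * E ^ 2 ≤ 4 * C ^ 2 * q ^ 38 * ((μ ^ 8 * s ^ 2 + τ ^ 2 * s ^ 4 * ρ ^ 2) * (μ ^ 8 * E + τ ^ 2 * s ^ 8 * ρ ^ 2))) :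
    E ≤ q ^ 40 * (μ ^ 4 * s ^ 2 + τ * s ^ 5 * ρ / μ ^ 2) := by
  have hq0 : 0 < q := by linarith
  set G : ℝ := τ * s ^ 5 * ρ / μ ^ 2 with hG
  have hGp : 0 < G := by positivity
  have hGm : μ ^ 2 * G = τ * s ^ 5 * ρ := by rw [hG]; field_simp
  -- second coefficient
  have hA : τ ^ 2 * s ^ 4 * ρ ^ 2 ≤ μ ^ 4 * G := by
    have e1 : μ ^ 4 * G = μ ^ 2 * (τ * s ^ 5 * ρ) := by rw [← hGm]; ring
    rw [e1]
    have e2 : τ * ρ ≤ μ ^ 2 * s := by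
      calc τ * ρ ≤ τ * 1 := by gcongr
        _ ≤ μ ^ 2 * s := by linarith
    calc τ ^ 2 * s ^ 4 * ρ ^ 2 = (τ * ρ) * (τ * s ^ 4 * ρ) := by ring
      _ ≤ (μ ^ 2 * s) * (τ * s ^ 4 * ρ) := by gcongr
      _ = μ ^ 2 * (τ * s ^ 5 * ρ) := by ring
  -- the fourth product
  have hB : τ ^ 2 * s ^ 2 * ρ ^ 2 ≤ 2 * q ^ 6 * μ ^ 8 := by
    have e1 : τ ^ 2 * s ^ 2 * ρ ^ 2 ≤ τ ^ 2 * s ^ 2 := by
      have : ρ ^ 2 ≤ 1 := by nlinarith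
      calc τ ^ 2 * s ^ 2 * ρ ^ 2 ≤ τ ^ 2 * s ^ 2 * 1 := by gcongr
        _ = _ := by ring
    refine e1.trans ?_
    have e2 : (q ^ 4 * μ ^ 2) * (τ ^ 2 * s ^ 2) ≤ (q ^ 4 * μ ^ 2) * (2 * q ^ 6 * μ ^ 8) := by
      calc (q ^ 4 * μ ^ 2) * (τ ^ 2 * s ^ 2) = τ ^ 2 * (q ^ 4 * μ ^ 2 * s ^ 2) := by ring
        _ ≤ τ ^ 2 * (2 * τ ^ 2) := by gcongr
        _ = 2 * τ ^ 4 := by ring
        _ ≤ 2 * (q ^ 10 * μ ^ 10) := by gcongr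
        _ = _ := by ring
    exact le_of_mul_le_mul_left e2 (by positivity)
  have hmain : μ ^ 12 * E ^ 2 ≤ μ ^ 12 * ((4 * C ^ 2 * q ^ 38 * (μ ^ 4 * s ^ 2 + G)) * E + (4 * C * q ^ 22 * G) ^ 2) := by
    refine H.trans ?_
    have f1 : (μ ^ 8 * s ^ 2 + τ ^ 2 * s ^ 4 * ρ ^ 2) * (μ ^ 8 * E) ≤ μ ^ 12 * ((μ ^ 4 * s ^ 2 + G) * E) := by
      calc (μ ^ 8 * s ^ 2 + τ ^ 2 * s ^ 4 * ρ ^ 2) * (μ ^ 8 * E) ≤ (μ ^ 8 * s ^ 2 + μ ^ 4 * G) * (μ ^ 8 * E) := by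
            gcongr
        _ = _ := by ring
    have f2 : (μ ^ 8 * s ^ 2) * (τ ^ 2 * s ^ 8 * ρ ^ 2) = μ ^ 12 * G ^ 2 := by
      calc (μ ^ 8 * s ^ 2) * (τ ^ 2 * s ^ 8 * ρ ^ 2) = μ ^ 8 * (τ * s ^ 5 * ρ) ^ 2 := by ring
        _ = μ ^ 8 * (μ ^ 2 * G) ^ 2 := by rw [hGm]
        _ = _ := by ring
    have f3 : (τ ^ 2 * s ^ 4 * ρ ^ 2) * (τ ^ 2 * s ^ 8 * ρ ^ 2) ≤ μ ^ 12 * (2 * q ^ 6 * G ^ 2) := by
      calc (τ ^ 2 * s ^ 4 * ρ ^ 2) * (τ ^ 2 * s ^ 8 * ρ ^ 2) = (τ ^ 2 * s ^ 2 * ρ ^ 2) * (τ * s ^ 5 * ρ) ^ 2 := by ring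
        _ ≤ (2 * q ^ 6 * μ ^ 8) * (τ * s ^ 5 * ρ) ^ 2 := by gcongr
        _ = (2 * q ^ 6 * μ ^ 8) * (μ ^ 2 * G) ^ 2 := by rw [hGm]
        _ = _ := by ring
    have hq6 : (1 : ℝ) ≤ q ^ 6 := one_le_pow₀ hq
    have f4 : (μ ^ 8 * s ^ 2 + τ ^ 2 * s ^ 4 * ρ ^ 2) * (μ ^ 8 * E + τ ^ 2 * s ^ 8 * ρ ^ 2) ≤
        μ ^ 12 * ((μ ^ 4 * s ^ 2 + G) * E + 4 * q ^ 6 * G ^ 2) := by
      have g1 : μ ^ 12 * G ^ 2 ≤ μ ^ 12 * (q ^ 6 * G ^ 2) := by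
        calc μ ^ 12 * G ^ 2 = μ ^ 12 * (1 * G ^ 2) := by ring
          _ ≤ μ ^ 12 * (q ^ 6 * G ^ 2) := by gcongr
      have g2 : 0 ≤ μ ^ 12 * (q ^ 6 * G ^ 2) := by positivity
      have g3 : (μ ^ 8 * s ^ 2 + τ ^ 2 * s ^ 4 * ρ ^ 2) * (μ ^ 8 * E + τ ^ 2 * s ^ 8 * ρ ^ 2) =
        (μ ^ 8 * s ^ 2 + τ ^ 2 * s ^ 4 * ρ ^ 2) * (μ ^ 8 * E) + (μ ^ 8 * s ^ 2) * (τ ^ 2 * s ^ 8 * ρ ^ 2) +
        (τ ^ 2 * s ^ 4 * ρ ^ 2) * (τ ^ 2 * s ^ 8 * ρ ^ 2) := by ring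
      rw [g3, f2]
      have g4 : μ ^ 12 * ((μ ^ 4 * s ^ 2 + G) * E + 4 * q ^ 6 * G ^ 2) =
        μ ^ 12 * ((μ ^ 4 * s ^ 2 + G) * E) + 2 * (μ ^ 12 * (q ^ 6 * G ^ 2)) + μ ^ 12 * (2 * q ^ 6 * G ^ 2) := by ring
      rw [g4]
      linarith
    calc 4 * C ^ 2 * q ^ 38 * ((μ ^ 8 * s ^ 2 + τ ^ 2 * s ^ 4 * ρ ^ 2) * (μ ^ 8 * E + τ ^ 2 * s ^ 8 * ρ ^ 2))
        ≤ 4 * C ^ 2 * q ^ 38 * (μ ^ 12 * ((μ ^ 4 * s ^ 2 + G) * E + 4 * q ^ 6 * G ^ 2)) := by gcongr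
      _ = _ := by ring
  have hmain2 : E ^ 2 ≤ (4 * C ^ 2 * q ^ 38 * (μ ^ 4 * s ^ 2 + G)) * E + (4 * C * q ^ 22 * G) ^ 2 :=
    le_of_mul_le_mul_left hmain (by positivity)
  have hsol := quad_solve (by positivity) (by positivity) hmain2
  refine hsol.trans ?_
  have hq16 : (1 : ℝ) ≤ q ^ 16 := one_le_pow₀ hq
  have k1 : 4 * C * q ^ 22 * G ≤ 4 * C * q ^ 38 * (μ ^ 4 * s ^ 2 + G) := by
    calc 4 * C * q ^ 22 * G = 4 * C * (q ^ 22 * 1) * G := by ring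
      _ ≤ 4 * C * (q ^ 22 * q ^ 16) * (μ ^ 4 * s ^ 2 + G) := by
          gcongr
          have : 0 ≤ μ ^ 4 * s ^ 2 := by positivity
          linarith
      _ = _ := by ring
  calc 4 * C ^ 2 * q ^ 38 * (μ ^ 4 * s ^ 2 + G) + 4 * C * q ^ 22 * G
      ≤ 4 * C ^ 2 * q ^ 38 * (μ ^ 4 * s ^ 2 + G) + 4 * C * q ^ 38 * (μ ^ 4 * s ^ 2 + G) := by gcongr
    _ = (4 * C ^ 2 + 4 * C) * (q ^ 38 * (μ ^ 4 * s ^ 2 + G)) := by ring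
    _ ≤ q ^ 2 * (q ^ 38 * (μ ^ 4 * s ^ 2 + G)) := by gcongr
    _ = _ := by ring


theorem En_nonneg' (S : Finset ℝ) : 0 ≤ En S := by
  unfold En
  refine Finset.sum_nonneg fun _ _ => Finset.sum_nonneg fun _ _ => Finset.sum_nonneg fun _ _ =>
    Finset.sum_nonneg fun _ _ => ?_
  positivity

/-- The energy at the critical size (`c = x0/2000`, `e = c/10`, `k = ⌈2/x0⌉`, `Y = ⌈T^{1+e}/M⌉`); see R17 in the text. -/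
theorem energy2 {x0 : ℝ} (h0 : 0 < x0) (h1 : x0 ≤ 1 / 5) : ∃ T0 : ℝ, 1 ≤ T0 ∧ ∀ (T M : ℝ) (S : Finset ℝ) (b : ℕ → ℂ),
    T0 ≤ T → T ^ (4 / 5 - x0 / 2000) ≤ M → M ≤ T ^ (1 - x0) → Sep S → InI S T →
    T ^ (1 - x0 / 2000) * M ^ (-(1 / 2) : ℝ) ≤ S.card → S.card ≤ 2 * T ^ (1 - x0 / 2000) * M ^ (-(1 / 2) : ℝ) →
    (∀ n ∈ Finset.Ioc ⌊M⌋₊ ⌊4 * M⌋₊, ‖b n‖ ≤ T ^ (x0 / 2000)) →
    (∀ t ∈ S, M ^ (3 / 4 : ℝ) * T ^ (-(x0 / 2000)) ≤ ‖Dp b M t‖) →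
    En S ≤ T ^ (x0 / 200) * (M * S.card + M ^ (-(1 / 2) : ℝ) * T ^ (1 / 2 : ℝ) *
      (S.card : ℝ) ^ (5 / 2 - 1 / (2 * (⌈2 / x0⌉₊ : ℝ)))) := by
  set c : ℝ := x0 / 2000 with hc
  have hx0c : x0 = 2000 * c := by rw [hc]; ring
  have hc0 : 0 < c := by rw [hc]; positivity
  have hc1 : c ≤ 1 / 10000 := by rw [hc]; linarith
  set k : ℕ := ⌈2 / x0⌉₊ with hk
  have hk2 : 2 / x0 ≤ (k : ℝ) := Nat.le_ceil _
  have hk1 : 1 ≤ k := by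
    have : (0 : ℝ) < 2 / x0 := by positivity
    exact Nat.one_le_iff_ne_zero.mpr (Nat.ceil_pos.mpr this).ne'
  have hkr : (1 : ℝ) ≤ (k : ℝ) := by exact_mod_cast hk1
  have he : 0 < c / 10 := by positivity
  obtain ⟨C, hC, H⟩ := energy1 hk1 he
  refine ⟨max 2 ((4 * C ^ 2 + 4 * C) ^ (2 / c)), le_trans (by norm_num) (le_max_left _ _), ?_⟩
  intro T M S b hT hM1 hM2 hS hI hR1 hR2 hb hD
  have hT2 : 2 ≤ T := (le_max_left _ _).trans hT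
  have hT1 : 1 ≤ T := by linarith
  have hT0 : 0 < T := by linarith
  have hTC : (4 * C ^ 2 + 4 * C) ^ (2 / c) ≤ T := (le_max_right _ _).trans hT
  have hM : 1 ≤ M := le_trans (Real.one_le_rpow hT1 (by linarith)) hM1
  have hM0 : 0 < M := by linarith
  set R : ℝ := (S.card : ℝ) with hR
  have hRp : 0 < R := lt_of_lt_of_le (by positivity) hR1
  have hcard : 0 < S.card := by
    rw [hR] at hRp; exact_mod_cast hRp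
  have hR1' : 1 ≤ R := by rw [hR]; exact_mod_cast hcard
  have hne : S.Nonempty := Finset.card_pos.mp hcard
  -- Y
  set Y : ℕ := ⌈T ^ (1 + c / 10) / M⌉₊ with hY
  have hYlow : T ^ (1 + c / 10) / M ≤ (Y : ℝ) := Nat.le_ceil _
  have hYpos : 0 < T ^ (1 + c / 10) / M := by positivity
  have hY1 : 1 ≤ Y := Nat.one_le_iff_ne_zero.mpr (Nat.ceil_pos.mpr hYpos).ne'
  have hMY1 : T ^ (1 + c / 10) ≤ M * Y := by
    rw [div_le_iff₀ hM0] at hYlow; linarith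
  have hMT : M ≤ T ^ (1 + c / 10) :=
    hM2.trans (Real.rpow_le_rpow_of_exponent_le hT1 (by linarith))
  have hYup : (Y : ℝ) ≤ T ^ (1 + c / 10) / M + 1 := (Nat.ceil_lt_add_one hYpos.le).le
  have hMY2 : M * Y ≤ 2 * T ^ (1 + c / 10) := by
    calc M * Y ≤ M * (T ^ (1 + c / 10) / M + 1) := by gcongr
      _ = T ^ (1 + c / 10) + M := by field_simp
      _ ≤ _ := by linarith
  have hMY3 : M * Y ≤ T ^ 3 := by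
    refine hMY2.trans ?_
    calc 2 * T ^ (1 + c / 10) ≤ T * T ^ (2 : ℝ) := by
          refine mul_le_mul hT2 (Real.rpow_le_rpow_of_exponent_le hT1 (by linarith)) (by positivity) hT0.le
      _ = T ^ 3 := by
          rw [show (2 : ℝ) = ((2 : ℕ) : ℝ) by norm_num, Real.rpow_natCast]; ring
  have hYk : T ≤ (Y : ℝ) ^ k := by
    have y1 : T ^ x0 ≤ (Y : ℝ) := by
      refine le_trans ?_ hYlow
      rw [le_div_iff₀ hM0]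
      calc T ^ x0 * M ≤ T ^ x0 * T ^ (1 - x0) := by gcongr
        _ = T ^ (1 : ℝ) := by rw [← Real.rpow_add hT0]; ring_nf
        _ ≤ T ^ (1 + c / 10) := Real.rpow_le_rpow_of_exponent_le hT1 (by linarith)
    have y2 : T ^ (x0 * k) ≤ (Y : ℝ) ^ k := by
      rw [Real.rpow_mul hT0.le, Real.rpow_natCast]
      exact pow_le_pow_left₀ (by positivity) y1 k
    refine le_trans ?_ y2
    have y3 : (1 : ℝ) ≤ x0 * k := by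
      rw [div_le_iff₀ h0] at hk2
      linarith
    calc T = T ^ (1 : ℝ) := (Real.rpow_one T).symm
      _ ≤ _ := Real.rpow_le_rpow_of_exponent_le hT1 y3
  have hmain := H T M (T ^ c) (M ^ (3 / 4 : ℝ) * T ^ (-c)) Y S b hT1 hM hY1 hMY1 hMY3 hYk hS hI hne
    (by positivity) (by positivity) hb hD
  rw [← hR] at hmain
  -- the units
  set E : ℝ := En S with hE
  have hE0 : 0 ≤ E := En_nonneg' S
  clear_value R E c Y k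
  obtain ⟨q, hq⟩ : ∃ q : ℝ, q = T ^ (c / 4) := ⟨_, rfl⟩
  obtain ⟨μ, hμ⟩ : ∃ μ : ℝ, μ = M ^ (1 / 4 : ℝ) := ⟨_, rfl⟩
  obtain ⟨τ, hτ⟩ : ∃ τ : ℝ, τ = T ^ (1 / 2 : ℝ) := ⟨_, rfl⟩
  obtain ⟨s, hs⟩ : ∃ s : ℝ, s = R ^ (1 / 2 : ℝ) := ⟨_, rfl⟩
  obtain ⟨ρ, hρ⟩ : ∃ ρ : ℝ, ρ = R ^ (-(1 / (2 * (k : ℝ)))) := ⟨_, rfl⟩
  have hq1 : 1 ≤ q := by rw [hq]; exact Real.one_le_rpow hT1 (by positivity)
  have hq0 : 0 < q := by linarith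
  have hμ0 : 0 < μ := by rw [hμ]; positivity
  have hτ0 : 0 < τ := by rw [hτ]; positivity
  have hs0 : 0 < s := by rw [hs]; positivity
  have hρ0 : 0 < ρ := by rw [hρ]; positivity
  have hρ1 : ρ ≤ 1 := by
    rw [hρ]
    refine Real.rpow_le_one_of_one_le_of_nonpos hR1' ?_
    have : 0 < 1 / (2 * (k : ℝ)) := by positivity
    linarith
  have qpow : ∀ n : ℕ, q ^ n = T ^ (c / 4 * n) := fun n => by
    rw [hq, ← Real.rpow_natCast, ← Real.rpow_mul hT0.le]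
  have μpow : ∀ n : ℕ, μ ^ n = M ^ (1 / 4 * (n : ℝ)) := fun n => by
    rw [hμ, ← Real.rpow_natCast, ← Real.rpow_mul hM0.le]
  have τpow : ∀ n : ℕ, τ ^ n = T ^ (1 / 2 * (n : ℝ)) := fun n => by
    rw [hτ, ← Real.rpow_natCast, ← Real.rpow_mul hT0.le]
  have spow : ∀ n : ℕ, s ^ n = R ^ (1 / 2 * (n : ℝ)) := fun n => by
    rw [hs, ← Real.rpow_natCast, ← Real.rpow_mul hRp.le]
  have eM : M = μ ^ 4 := by rw [μpow]; norm_num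
  have eT : T = τ ^ 2 := by rw [τpow]; norm_num
  have eR : R = s ^ 2 := by rw [spow]; norm_num
  have eMh : M ^ (-(1 / 2) : ℝ) = (μ ^ 2)⁻¹ := by
    rw [μpow, ← Real.rpow_neg hM0.le]; norm_num
  have eTc : T ^ (1 - c) = τ ^ 2 / q ^ 4 := by
    rw [← eT, qpow, Real.rpow_sub hT0, Real.rpow_one]
    congr 2
    push_cast; ring
  have eρ2 : ρ ^ 2 = R ^ (-(1 / (k : ℝ))) := by
    rw [hρ, ← Real.rpow_natCast, ← Real.rpow_mul hRp.le]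
    congr 1
    push_cast
    field_simp
  have er1 : R ^ (2 - 1 / (k : ℝ)) = s ^ 4 * ρ ^ 2 := by
    rw [eρ2, spow, ← Real.rpow_add hRp]
    congr 1
    push_cast; ring
  have er2 : R ^ (4 - 1 / (k : ℝ)) = s ^ 8 * ρ ^ 2 := by
    rw [eρ2, spow, ← Real.rpow_add hRp]
    congr 1
    push_cast; ring
  have er3 : R ^ (5 / 2 - 1 / (2 * (k : ℝ))) = s ^ 5 * ρ := by
    rw [spow, hρ, ← Real.rpow_add hRp]
    congr 1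
    push_cast; ring
  have e40 : T ^ (x0 / 200) = q ^ 40 := by
    rw [qpow]; congr 1; rw [hx0c]; push_cast; ring
  have eMn : M ^ (3 / 4 : ℝ) = μ ^ 3 := by
    rw [μpow]; congr 1; norm_num
  have eTn : T ^ (-c) = (q ^ 4)⁻¹ := by
    rw [qpow, ← Real.rpow_neg hT0.le]; congr 1; push_cast; ring
  have eTB : T ^ c = q ^ 4 := by
    rw [qpow]; congr 1; push_cast; ring
  have hT4e : T ^ (4 * (c / 10)) ≤ q ^ 2 := by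
    rw [qpow]
    refine Real.rpow_le_rpow_of_exponent_le hT1 ?_
    push_cast; linarith
  have hT1e : M * Y ≤ 2 * q * τ ^ 2 := by
    refine hMY2.trans ?_
    have : T ^ (1 + c / 10) ≤ q * τ ^ 2 := by
      rw [← eT, hq]
      calc T ^ (1 + c / 10) ≤ T ^ (c / 4 + 1) := Real.rpow_le_rpow_of_exponent_le hT1 (by linarith)
        _ = _ := by rw [Real.rpow_add hT0, Real.rpow_one]
    linarith
  -- the hypotheses of the algebra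
  have g1 : τ ≤ μ ^ 2 * s := by
    have a1 : T ≤ M * R := by
      calc T = T ^ (1 : ℝ) := (Real.rpow_one T).symm
        _ ≤ T ^ ((1 - c) + (4 / 5 - c) * (1 / 2)) := Real.rpow_le_rpow_of_exponent_le hT1 (by linarith)
        _ = T ^ (1 - c) * (T ^ (4 / 5 - c)) ^ (1 / 2 : ℝ) := by
            rw [Real.rpow_add hT0, Real.rpow_mul hT0.le]
        _ ≤ T ^ (1 - c) * M ^ (1 / 2 : ℝ) := by gcongr
        _ = M * (T ^ (1 - c) * M ^ (-(1 / 2) : ℝ)) := by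
            have : M ^ (1 / 2 : ℝ) = M * M ^ (-(1 / 2) : ℝ) := by
              rw [← Real.rpow_one_add' hM0.le (by norm_num)]; norm_num
            rw [this]; ring
        _ ≤ M * R := by gcongr
    have a2 : τ ^ 2 ≤ (μ ^ 2 * s) ^ 2 := by
      rw [← eT]
      refine a1.trans_eq ?_
      rw [eM, eR]; ring
    exact (pow_le_pow_iff_left₀ hτ0.le (by positivity) two_ne_zero).mp a2
  have g2 : q ^ 4 * μ ^ 2 * s ^ 2 ≤ 2 * τ ^ 2 := by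
    have a1 : s ^ 2 ≤ 2 * (τ ^ 2 / q ^ 4) * (μ ^ 2)⁻¹ := by
      rw [← eR, ← eTc, ← eMh]; exact hR2
    calc q ^ 4 * μ ^ 2 * s ^ 2 ≤ q ^ 4 * μ ^ 2 * (2 * (τ ^ 2 / q ^ 4) * (μ ^ 2)⁻¹) := by gcongr
      _ = _ := by field_simp
  have g3 : τ ^ 4 ≤ q ^ 10 * μ ^ 10 := by
    rw [τpow, qpow, μpow]
    calc T ^ (1 / 2 * ((4 : ℕ) : ℝ)) ≤ T ^ (c / 4 * ((10 : ℕ) : ℝ) + (4 / 5 - c) * (1 / 4 * ((10 : ℕ) : ℝ))) := by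
          refine Real.rpow_le_rpow_of_exponent_le hT1 ?_
          push_cast; linarith
      _ = T ^ (c / 4 * ((10 : ℕ) : ℝ)) * (T ^ (4 / 5 - c)) ^ (1 / 4 * ((10 : ℕ) : ℝ)) := by
          rw [Real.rpow_add hT0, Real.rpow_mul hT0.le (4 / 5 - c)]
      _ ≤ _ := by gcongr
  have g4 : 4 * C ^ 2 + 4 * C ≤ q ^ 2 := by
    rw [qpow]
    calc 4 * C ^ 2 + 4 * C = ((4 * C ^ 2 + 4 * C) ^ (2 / c)) ^ (c / 2) := by
          rw [← Real.rpow_mul (by positivity)]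
          rw [show 2 / c * (c / 2) = 1 by field_simp, Real.rpow_one]
      _ ≤ T ^ (c / 2) := by gcongr
      _ = _ := by congr 1; push_cast; ring
  -- the inequality
  have g5 : μ ^ 12 * E ^ 2 ≤ 4 * C ^ 2 * q ^ 38 *
      ((μ ^ 8 * s ^ 2 + τ ^ 2 * s ^ 4 * ρ ^ 2) * (μ ^ 8 * E + τ ^ 2 * s ^ 8 * ρ ^ 2)) := by
    obtain ⟨X1, hX1⟩ : ∃ X1 : ℝ, X1 = μ ^ 8 * s ^ 2 + τ ^ 2 * s ^ 4 * ρ ^ 2 := ⟨_, rfl⟩
    obtain ⟨X2, hX2⟩ : ∃ X2 : ℝ, X2 = μ ^ 8 * E + τ ^ 2 * s ^ 8 * ρ ^ 2 := ⟨_, rfl⟩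
    rw [← hX1, ← hX2]
    have hX1p : 0 < X1 := by rw [hX1]; positivity
    have hX2p : 0 < X2 := by rw [hX2]; positivity
    have b1 : M ^ 2 * R + M * Y * R ^ (2 - 1 / (k : ℝ)) ≤ 2 * q * X1 := by
      rw [er1]
      have t1 : M ^ 2 * R ≤ 2 * q * (μ ^ 8 * s ^ 2) := by
        have : M ^ 2 * R = μ ^ 8 * s ^ 2 := by rw [eM, eR]; ring
        rw [this]
        have : 0 ≤ μ ^ 8 * s ^ 2 := by positivity
        nlinarith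
      have t2 : M * Y * (s ^ 4 * ρ ^ 2) ≤ 2 * q * (τ ^ 2 * s ^ 4 * ρ ^ 2) := by
        calc M * Y * (s ^ 4 * ρ ^ 2) ≤ (2 * q * τ ^ 2) * (s ^ 4 * ρ ^ 2) := by gcongr
          _ = _ := by ring
      rw [hX1]; linarith
    have b2 : M ^ 2 * E + M * Y * R ^ (4 - 1 / (k : ℝ)) ≤ 2 * q * X2 := by
      rw [er2]
      have t1 : M ^ 2 * E ≤ 2 * q * (μ ^ 8 * E) := by
        have : M ^ 2 * E = μ ^ 8 * E := by rw [eM]; ring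
        rw [this]
        have : 0 ≤ μ ^ 8 * E := by positivity
        nlinarith
      have t2 : M * Y * (s ^ 8 * ρ ^ 2) ≤ 2 * q * (τ ^ 2 * s ^ 8 * ρ ^ 2) := by
        calc M * Y * (s ^ 8 * ρ ^ 2) ≤ (2 * q * τ ^ 2) * (s ^ 8 * ρ ^ 2) := by gcongr
          _ = _ := by ring
      rw [hX2]; linarith
    obtain ⟨Z1, hZ1⟩ : ∃ Z1 : ℝ, Z1 = M ^ 2 * R + M * Y * R ^ (2 - 1 / (k : ℝ)) := ⟨_, rfl⟩
    obtain ⟨Z2, hZ2⟩ : ∃ Z2 : ℝ, Z2 = M ^ 2 * E + M * Y * R ^ (4 - 1 / (k : ℝ)) := ⟨_, rfl⟩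
    rw [← hZ1] at b1
    rw [← hZ2] at b2
    rw [← hZ1, ← hZ2] at hmain
    have hZ1p : 0 ≤ Z1 := by rw [hZ1]; positivity
    have hZ2p : 0 ≤ Z2 := by rw [hZ2]; positivity
    have b3 : (Z1 ^ (1 / 2 : ℝ) * Z2 ^ (1 / 2 : ℝ)) ^ 2 ≤ 4 * q ^ 2 * (X1 * X2) := by
      have : (Z1 ^ (1 / 2 : ℝ) * Z2 ^ (1 / 2 : ℝ)) ^ 2 = Z1 * Z2 := by
        rw [← Real.sqrt_eq_rpow, ← Real.sqrt_eq_rpow, mul_pow, Real.sq_sqrt hZ1p, Real.sq_sqrt hZ2p]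
      rw [this]
      calc Z1 * Z2 ≤ (2 * q * X1) * (2 * q * X2) := by gcongr
        _ = _ := by ring
    have hQ0 : 0 ≤ Z1 ^ (1 / 2 : ℝ) * Z2 ^ (1 / 2 : ℝ) := by positivity
    obtain ⟨Q, hQ⟩ : ∃ Q : ℝ, Q = Z1 ^ (1 / 2 : ℝ) * Z2 ^ (1 / 2 : ℝ) := ⟨_, rfl⟩
    rw [← hQ] at hQ0 b3 hmain
    rw [eMn, eTn, eTB] at hmain
    have b4 : μ ^ 6 * E ≤ C * q ^ 18 * Q := by
      have u1 : (q ^ 8 * (μ ^ 3 * (q ^ 4)⁻¹) ^ 2) * E = μ ^ 6 * E := by field_simp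
      calc μ ^ 6 * E = q ^ 8 * ((μ ^ 3 * (q ^ 4)⁻¹) ^ 2 * E) := by rw [← u1]; ring
        _ ≤ q ^ 8 * (C * T ^ (4 * (c / 10)) * (q ^ 4) ^ 2 * Q) := by gcongr
        _ ≤ q ^ 8 * (C * q ^ 2 * (q ^ 4) ^ 2 * Q) := by gcongr
        _ = _ := by ring
    calc μ ^ 12 * E ^ 2 = (μ ^ 6 * E) ^ 2 := by ring
      _ ≤ (C * q ^ 18 * Q) ^ 2 := by gcongr
      _ = C ^ 2 * q ^ 36 * Q ^ 2 := by ring
      _ ≤ C ^ 2 * q ^ 36 * (4 * q ^ 2 * (X1 * X2)) := by gcongr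
      _ = _ := by ring
  have hfin := e2alg hC hq1 hμ0 hτ0 hs0 hρ0 hρ1 hE0 g1 g2 g3 g4 g5
  refine hfin.trans_eq ?_
  rw [e40, er3, eMh, ← hτ]
  have : M * R = μ ^ 4 * s ^ 2 := by rw [← eM, ← eR]
  rw [this]
  field_simp

end OL
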