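import Pool.Agent.Lib.MP_39df77_nt.OL.C04
import Pool.Agent.Lib.MP_39df77_nt.OL.C07

/-! Theorem G -/

set_option autoImplicit false

open Complex MeasureTheory Set Filter Topology
open scoped Real ComplexConjugate

namespace OL

/-- the exponent inequalities of R17; `cc = c log T` with `c = x0/2000`, `kr = ρ / k` -/
private theorem C08_lin {t m ρ cc xt kr : ℝ} (hxt : xt = 2000 * cc) (h10 : 10000 * cc ≤ t)
    (hc0 : 0 < cc) (h1 : t - cc - m / 2 ≤ ρ) (h2 : 4 / 5 * t - cc ≤ m) (h3 : m ≤ t - xt)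
    (h4 : 400 * cc ≤ kr) :
    (2 / 5 * cc + (2 * (t + cc / 10) + 3 / 2 * ρ) ≤ 3 * ρ + 3 / 2 * m - 13 * cc) ∧
    (2 / 5 * cc + (m / 2 + 3 / 2 * (t + cc / 10) + ρ / 2 + (5 * cc + (m + ρ) / 2)) ≤
      3 * ρ + 3 / 2 * m - 13 * cc) ∧
    (2 / 5 * cc + (m / 2 + 3 / 2 * (t + cc / 10) + ρ / 2 + (5 * cc + (-(m / 2) + t / 2 + (5 / 2 * ρ - kr / 2)) / 2)) ≤
      3 * ρ + 3 / 2 * m - 13 * cc) ∧
    (2 / 5 * cc + (m + (t + cc / 10) + (2 * ρ - kr)) ≤ 3 * ρ + 3 / 2 * m - 13 * cc) := by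
  refine ⟨?_, ?_, ?_, ?_⟩ <;> linarith

/-- first alternative of `core` -/
private theorem C08_alt1 {t m ρ c C : ℝ} (h : C * Real.exp (2 * (c * t) + 2 * m) <
    Real.exp (ρ + 2 * (3 / 4 * m - c * t))) :
    ¬ (Real.exp ρ * (Real.exp m ^ (3 / 4 : ℝ) * Real.exp t ^ (-c)) ^ 2 ≤
      C * (Real.exp t ^ c) ^ 2 * (Real.exp m) ^ 2) := by
  intro h2
  have e1 : Real.exp ρ * (Real.exp m ^ (3 / 4 : ℝ) * Real.exp t ^ (-c)) ^ 2 =
      Real.exp (ρ + 2 * (3 / 4 * m - c * t)) := by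
    rw [← Real.exp_mul, ← Real.exp_mul, ← Real.exp_add, ← Real.exp_nat_mul, ← Real.exp_add]
    congr 1
    push_cast
    ring
  have e2 : C * (Real.exp t ^ c) ^ 2 * (Real.exp m) ^ 2 = C * Real.exp (2 * (c * t) + 2 * m) := by
    rw [← Real.exp_mul, ← Real.exp_nat_mul, ← Real.exp_nat_mul, mul_assoc, ← Real.exp_add]
    congr 2
    push_cast
    ring
  rw [e1, e2] at h2
  linarith

/-- square root of the energy -/
private theorem C08_sqrt {E A B : ℝ} (hA : 0 ≤ A) (hB : 0 ≤ B) {w : ℝ}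
    (h : E ≤ Real.exp w * (A ^ 2 + B ^ 2)) : E ^ (1 / 2 : ℝ) ≤ Real.exp (w / 2) * (A + B) := by
  rw [← Real.sqrt_eq_rpow]
  have h1 : E ≤ (Real.exp (w / 2) * (A + B)) ^ 2 := by
    refine h.trans ?_
    rw [mul_pow, ← Real.exp_nat_mul]
    have e : ((2 : ℕ) : ℝ) * (w / 2) = w := by push_cast; ring
    rw [e]
    exact mul_le_mul_of_nonneg_left (by nlinarith [mul_nonneg hA hB]) (Real.exp_pos _).le
  exact Real.sqrt_le_iff.2 ⟨by positivity, h1⟩

private theorem C08_exp_rpow (x y : ℝ) : Real.exp x ^ y = Real.exp (x * y) := (Real.exp_mul x y).symm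

/-- second alternative of `core` -/
private theorem C08_alt2 {t m ρ cc kr C E y e : ℝ} {q : ℝ} (hC : 0 < C) (hE : 0 ≤ E) (he : e * t = cc / 10)
    (hkr : ρ * q = 2 * ρ - kr)
    (hy0 : 0 < y) (hy : y ≤ 2 * Real.exp (t + cc / 10 - m))
    (hEn : E ≤ Real.exp (10 * cc) * (Real.exp (m + ρ) + Real.exp (-(m / 2) + t / 2 + (5 / 2 * ρ - kr / 2))))
    (l1 : 2 / 5 * cc + (2 * (t + cc / 10) + 3 / 2 * ρ) ≤ 3 * ρ + 3 / 2 * m - 13 * cc)
    (l2 : 2 / 5 * cc + (m / 2 + 3 / 2 * (t + cc / 10) + ρ / 2 + (5 * cc + (m + ρ) / 2)) ≤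
      3 * ρ + 3 / 2 * m - 13 * cc)
    (l3 : 2 / 5 * cc + (m / 2 + 3 / 2 * (t + cc / 10) + ρ / 2 + (5 * cc +
      (-(m / 2) + t / 2 + (5 / 2 * ρ - kr / 2)) / 2)) ≤ 3 * ρ + 3 / 2 * m - 13 * cc)
    (l4 : 2 / 5 * cc + (m + (t + cc / 10) + (2 * ρ - kr)) ≤ 3 * ρ + 3 / 2 * m - 13 * cc) :
    C * Real.exp t ^ (4 * e) * (Real.exp m ^ 2 * (y ^ 2 * Real.exp ρ ^ (3 / 2 : ℝ) +
        y ^ (3 / 2 : ℝ) * Real.exp ρ ^ (1 / 2 : ℝ) * E ^ (1 / 2 : ℝ)) +
        Real.exp m ^ 2 * y * Real.exp ρ ^ q) ≤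
      16 * C * Real.exp (3 * ρ + 3 / 2 * m - 13 * cc) := by
  set z : ℝ := t + cc / 10 - m with hz
  set W : ℝ := Real.exp (3 * ρ + 3 / 2 * m - 13 * cc) with hW
  have a0 : Real.exp t ^ (4 * e) = Real.exp (2 / 5 * cc) := by
    rw [C08_exp_rpow]; congr 1; linarith
  have a1 : y ^ 2 ≤ 4 * Real.exp (2 * z) := by
    have : y ^ 2 ≤ (2 * Real.exp z) ^ 2 := pow_le_pow_left₀ hy0.le hy 2
    rw [mul_pow, ← Real.exp_nat_mul] at this
    push_cast at this
    linarith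
  have a2 : y ^ (3 / 2 : ℝ) ≤ 4 * Real.exp (3 / 2 * z) := by
    have h1 : y ^ (3 / 2 : ℝ) ≤ (2 * Real.exp z) ^ (3 / 2 : ℝ) :=
      Real.rpow_le_rpow hy0.le hy (by norm_num)
    have h2 : (2 : ℝ) ^ (3 / 2 : ℝ) ≤ 4 := by
      have : (2 : ℝ) ^ (3 / 2 : ℝ) ≤ (2 : ℝ) ^ (2 : ℝ) :=
        Real.rpow_le_rpow_of_exponent_le (by norm_num) (by norm_num)
      refine this.trans ?_
      norm_num
    rw [Real.mul_rpow (by norm_num) (Real.exp_pos _).le, C08_exp_rpow] at h1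
    refine h1.trans ?_
    rw [mul_comm z]
    exact mul_le_mul_of_nonneg_right h2 (Real.exp_pos _).le
  have a3 : y ≤ 4 * Real.exp z := hy.trans (by linarith [Real.exp_pos z])
  have a4 : E ^ (1 / 2 : ℝ) ≤ Real.exp (5 * cc) * (Real.exp ((m + ρ) / 2) +
      Real.exp ((-(m / 2) + t / 2 + (5 / 2 * ρ - kr / 2)) / 2)) := by
    have := C08_sqrt (E := E) (w := 10 * cc) (Real.exp_pos ((m + ρ) / 2)).le
      (Real.exp_pos ((-(m / 2) + t / 2 + (5 / 2 * ρ - kr / 2)) / 2)).le (by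
        rw [← Real.exp_nat_mul, ← Real.exp_nat_mul]
        refine hEn.trans (le_of_eq ?_)
        congr 3 <;> (push_cast; ring))
    rw [show 10 * cc / 2 = 5 * cc by ring] at this
    exact this
  have b1 : Real.exp (2 / 5 * cc) * (Real.exp m ^ 2 * (y ^ 2 * Real.exp ρ ^ (3 / 2 : ℝ))) ≤ 4 * W := by
    calc Real.exp (2 / 5 * cc) * (Real.exp m ^ 2 * (y ^ 2 * Real.exp ρ ^ (3 / 2 : ℝ)))
        ≤ Real.exp (2 / 5 * cc) * (Real.exp m ^ 2 * ((4 * Real.exp (2 * z)) * Real.exp ρ ^ (3 / 2 : ℝ))) := by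
          gcongr
      _ = 4 * Real.exp (2 / 5 * cc + (2 * (t + cc / 10) + 3 / 2 * ρ)) := by
          rw [C08_exp_rpow, ← Real.exp_nat_mul]
          have e : 2 / 5 * cc + (2 * (t + cc / 10) + 3 / 2 * ρ) =
            2 / 5 * cc + ((2 : ℕ) * m + (2 * z + ρ * (3 / 2))) := by
            rw [hz]; push_cast; ring
          rw [e, Real.exp_add, Real.exp_add, Real.exp_add]
          ring
      _ ≤ 4 * W := by
          rw [hW]; gcongr
  have b2 : Real.exp (2 / 5 * cc) * (Real.exp m ^ 2 * (y ^ (3 / 2 : ℝ) * Real.exp ρ ^ (1 / 2 : ℝ) *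
      E ^ (1 / 2 : ℝ))) ≤ 8 * W := by
    calc Real.exp (2 / 5 * cc) * (Real.exp m ^ 2 * (y ^ (3 / 2 : ℝ) * Real.exp ρ ^ (1 / 2 : ℝ) *
          E ^ (1 / 2 : ℝ)))
        ≤ Real.exp (2 / 5 * cc) * (Real.exp m ^ 2 * ((4 * Real.exp (3 / 2 * z)) *
          Real.exp ρ ^ (1 / 2 : ℝ) * (Real.exp (5 * cc) * (Real.exp ((m + ρ) / 2) +
      Real.exp ((-(m / 2) + t / 2 + (5 / 2 * ρ - kr / 2)) / 2))))) := by
          gcongr
      _ = 4 * Real.exp (2 / 5 * cc + (m / 2 + 3 / 2 * (t + cc / 10) + ρ / 2 + (5 * cc + (m + ρ) / 2))) +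
          4 * Real.exp (2 / 5 * cc + (m / 2 + 3 / 2 * (t + cc / 10) + ρ / 2 + (5 * cc +
            (-(m / 2) + t / 2 + (5 / 2 * ρ - kr / 2)) / 2))) := by
          rw [C08_exp_rpow, ← Real.exp_nat_mul]
          have e1 : 2 / 5 * cc + (m / 2 + 3 / 2 * (t + cc / 10) + ρ / 2 + (5 * cc + (m + ρ) / 2)) =
            2 / 5 * cc + ((2 : ℕ) * m + (3 / 2 * z + (ρ * (1 / 2) + (5 * cc + (m + ρ) / 2)))) := by
            rw [hz]; push_cast; ring
          have e2 : 2 / 5 * cc + (m / 2 + 3 / 2 * (t + cc / 10) + ρ / 2 + (5 * cc +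
              (-(m / 2) + t / 2 + (5 / 2 * ρ - kr / 2)) / 2)) =
            2 / 5 * cc + ((2 : ℕ) * m + (3 / 2 * z + (ρ * (1 / 2) + (5 * cc +
              (-(m / 2) + t / 2 + (5 / 2 * ρ - kr / 2)) / 2)))) := by
            rw [hz]; push_cast; ring
          rw [e1, e2]
          simp only [Real.exp_add (2 / 5 * cc), Real.exp_add (((2 : ℕ) : ℝ) * m),
            Real.exp_add (3 / 2 * z), Real.exp_add (ρ * (1 / 2)), Real.exp_add (5 * cc)]
          ring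
      _ ≤ 4 * W + 4 * W := by
          rw [hW]; gcongr
      _ = 8 * W := by ring
  have b3 : Real.exp (2 / 5 * cc) * (Real.exp m ^ 2 * y * Real.exp ρ ^ q) ≤ 4 * W := by
    calc Real.exp (2 / 5 * cc) * (Real.exp m ^ 2 * y * Real.exp ρ ^ q)
        ≤ Real.exp (2 / 5 * cc) * (Real.exp m ^ 2 * (4 * Real.exp z) * Real.exp ρ ^ q) := by
          gcongr
      _ = 4 * Real.exp (2 / 5 * cc + (m + (t + cc / 10) + (2 * ρ - kr))) := by
          rw [C08_exp_rpow, ← Real.exp_nat_mul, hkr]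
          have e : 2 / 5 * cc + (m + (t + cc / 10) + (2 * ρ - kr)) =
            2 / 5 * cc + ((2 : ℕ) * m + (z + (2 * ρ - kr))) := by
            rw [hz]; push_cast; ring
          rw [e, Real.exp_add, Real.exp_add, Real.exp_add]
          ring
      _ ≤ 4 * W := by
          rw [hW]; gcongr
  rw [a0]
  have hs : Real.exp (2 / 5 * cc) * (Real.exp m ^ 2 * (y ^ 2 * Real.exp ρ ^ (3 / 2 : ℝ) +
        y ^ (3 / 2 : ℝ) * Real.exp ρ ^ (1 / 2 : ℝ) * E ^ (1 / 2 : ℝ)) +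
        Real.exp m ^ 2 * y * Real.exp ρ ^ q) ≤ 16 * W := by
    have : Real.exp (2 / 5 * cc) * (Real.exp m ^ 2 * (y ^ 2 * Real.exp ρ ^ (3 / 2 : ℝ) +
        y ^ (3 / 2 : ℝ) * Real.exp ρ ^ (1 / 2 : ℝ) * E ^ (1 / 2 : ℝ)) +
        Real.exp m ^ 2 * y * Real.exp ρ ^ q) =
        Real.exp (2 / 5 * cc) * (Real.exp m ^ 2 * (y ^ 2 * Real.exp ρ ^ (3 / 2 : ℝ))) +
        Real.exp (2 / 5 * cc) * (Real.exp m ^ 2 * (y ^ (3 / 2 : ℝ) * Real.exp ρ ^ (1 / 2 : ℝ) *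
          E ^ (1 / 2 : ℝ))) +
        Real.exp (2 / 5 * cc) * (Real.exp m ^ 2 * y * Real.exp ρ ^ q) := by ring
    rw [this]
    linarith
  rw [mul_assoc]
  calc C * _ ≤ C * (16 * W) := mul_le_mul_of_nonneg_left hs hC.le
    _ = 16 * C * W := by ring

private theorem C08_En_nonneg (S : Finset ℝ) : 0 ≤ En S :=
  Finset.sum_nonneg fun t1 _ => Finset.sum_nonneg fun t2 _ => Finset.sum_nonneg fun t3 _ =>
    Finset.sum_nonneg fun t4 _ => div_nonneg (by norm_num)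
      (add_nonneg (by norm_num) (sq_nonneg (t1 + t2 - t3 - t4)))

/-- Theorem G. Proof: R17 in the text (with `core` and `energy2`; a subset of size between `X` and `2X`,
`X = T^{1-c} M^{-1/2} ≥ 1`). -/
theorem thmG {x0 : ℝ} (h0 : 0 < x0) (h1 : x0 ≤ 1 / 5) : ∃ T0 : ℝ, 1 ≤ T0 ∧ ∀ (T M : ℝ) (S : Finset ℝ) (b : ℕ → ℂ),
    T0 ≤ T → T ^ (4 / 5 - x0 / 2000) ≤ M → M ≤ T ^ (1 - x0) → Sep S → InI S T →
    (∀ n ∈ Finset.Ioc ⌊M⌋₊ ⌊4 * M⌋₊, ‖b n‖ ≤ T ^ (x0 / 2000)) →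
    (∀ t ∈ S, M ^ (3 / 4 : ℝ) * T ^ (-(x0 / 2000)) ≤ ‖Dp b M t‖) →
    (S.card : ℝ) ≤ T ^ (1 - x0 / 2000) * M ^ (-(1 / 2) : ℝ) := by
  obtain ⟨T1, hT1, hen⟩ := energy2 h0 h1
  have hk1 : 1 ≤ ⌈2 / x0⌉₊ := Nat.one_le_iff_ne_zero.2 (Nat.ceil_pos.2 (by positivity)).ne'
  have he0 : 0 < x0 / 20000 := by positivity
  obtain ⟨C, hC, hcore⟩ := core hk1 he0
  generalize hkk : ⌈2 / x0⌉₊ = k at hen hcore hk1
  have hkx : 2 ≤ x0 * k := by
    have : 2 / x0 ≤ k := by rw [← hkk]; exact Nat.le_ceil _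
    rw [div_le_iff₀ h0] at this
    linarith
  have hkx2 : (k : ℝ) * x0 ≤ 11 / 5 := by
    have : (k : ℝ) < 2 / x0 + 1 := by rw [← hkk]; exact Nat.ceil_lt_add_one (by positivity)
    have h2 : (k : ℝ) * x0 ≤ (2 / x0 + 1) * x0 := mul_le_mul_of_nonneg_right this.le h0.le
    have h3 : (2 / x0 + 1) * x0 = 2 + x0 := by field_simp
    linarith
  have hkpos : (0 : ℝ) < k := by exact_mod_cast hk1
  have hcd : x0 / 2000 = x0 / 2000 := rfl
  generalize hcdef : x0 / 2000 = c at hen ⊢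
  have hc0 : 0 < c := by rw [← hcdef]; positivity
  have hxc : x0 = 2000 * c := by rw [← hcdef]; ring
  refine ⟨max T1 (max 2 ((16 * C + 1) ^ (c⁻¹))), le_max_of_le_left hT1, ?_⟩
  intro T M S b hT hM1 hM2 hS hI hb hD
  have hTT1 : T1 ≤ T := (le_max_left _ _).trans hT
  have hT2 : 2 ≤ T := (le_max_left _ _).trans ((le_max_right _ _).trans hT)
  have hTC : 16 * C + 1 ≤ T ^ c := by
    have h := (le_max_right _ _).trans ((le_max_right _ _).trans hT)
    calc 16 * C + 1 = ((16 * C + 1) ^ (c⁻¹)) ^ c := by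
          rw [← Real.rpow_mul (by positivity), inv_mul_cancel₀ hc0.ne', Real.rpow_one]
      _ ≤ T ^ c := Real.rpow_le_rpow (by positivity) h hc0.le
  by_contra hcon
  rw [not_le] at hcon
  have hT0 : 0 < T := by linarith
  have hM0 : 0 < M := lt_of_lt_of_le (Real.rpow_pos_of_pos hT0 _) hM1
  obtain ⟨t, rfl⟩ : ∃ t, Real.exp t = T := ⟨Real.log T, Real.exp_log hT0⟩
  obtain ⟨m, rfl⟩ : ∃ m, Real.exp m = M := ⟨Real.log M, Real.exp_log hM0⟩
  have ht0 : 0 < t := by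
    by_contra h
    have := Real.exp_le_exp.2 (not_lt.1 h)
    rw [Real.exp_zero] at this
    linarith
  have hm1 : t * (4 / 5 - c) ≤ m := by
    have h := hM1
    rw [C08_exp_rpow, Real.exp_le_exp] at h
    exact h
  have hm2 : m ≤ t * (1 - x0) := by
    have h := hM2
    rw [C08_exp_rpow, Real.exp_le_exp] at h
    exact h
  have hct : 0 < c * t := by positivity
  have hc10 : c ≤ 1 / 10000 := by rw [← hcdef]; linarith
  have hcct : 10000 * (c * t) ≤ t := by nlinarith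
  set X : ℝ := Real.exp t ^ (1 - c) * Real.exp m ^ (-(1 / 2) : ℝ) with hX
  have hXe : X = Real.exp (t - c * t - m / 2) := by
    rw [hX, C08_exp_rpow, C08_exp_rpow, ← Real.exp_add]
    congr 1
    ring
  have hmx : m ≤ t - 2000 * (c * t) := by
    rw [hxc] at hm2
    linarith
  have hX1 : 1 ≤ X := by
    rw [hXe]
    exact Real.one_le_exp (by linarith)
  have hX0 : 0 ≤ X := by linarith
  obtain ⟨S', hS'S, hS'c⟩ := Finset.exists_subset_card_eq (s := S) (n := ⌈X⌉₊) (Nat.ceil_le.2 hcon.le)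
  have hR1 : X ≤ S'.card := by rw [hS'c]; exact Nat.le_ceil _
  have hR2 : (S'.card : ℝ) ≤ 2 * X := by
    rw [hS'c]
    have := Nat.ceil_lt_add_one hX0
    linarith
  have hRpos : (0 : ℝ) < S'.card := by linarith
  have hne : S'.Nonempty := by
    rw [← Finset.card_pos]
    exact_mod_cast hRpos
  have hSS := sep_sub hS'S hS
  have hII := inI_sub hS'S hI
  have hDD : ∀ t_1 ∈ S', Real.exp m ^ (3 / 4 : ℝ) * Real.exp t ^ (-c) ≤ ‖Dp b (Real.exp m) t_1‖ :=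
    fun s hs => hD s (hS'S hs)
  have hE1 := hen (Real.exp t) (Real.exp m) S' b hTT1 hM1 hM2 hSS hII hR1
    (by rw [mul_assoc]; exact hR2) hb hDD
  obtain ⟨ρ, hρ⟩ : ∃ ρ, Real.exp ρ = (S'.card : ℝ) := ⟨Real.log _, Real.exp_log hRpos⟩
  have hρ1 : t - c * t - m / 2 ≤ ρ := by
    rw [← hρ, hXe, Real.exp_le_exp] at hR1
    exact hR1
  -- `kr = ρ / k`
  have hkr : 400 * (c * t) ≤ ρ / k := by
    rw [le_div_iff₀ hkpos]
    have hh : t / 2 ≤ ρ := by linarith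
    have : 400 * (c * t) * k = (2 / 10) * t * (k * x0) := by rw [hxc]; ring
    rw [this]
    nlinarith
  obtain ⟨l1, l2, l3, l4⟩ := C08_lin (t := t) (m := m) (ρ := ρ) (cc := c * t) (xt := 2000 * (c * t))
    (kr := ρ / k) rfl hcct hct hρ1 (by linarith) hmx hkr
  -- `Y`
  set y : ℝ := Real.exp (t * (1 + x0 / 20000) - m) with hy
  have hye : y = Real.exp (t + c * t / 10 - m) := by
    rw [hy]
    congr 1
    rw [hxc]
    ring
  have hy1 : 1 ≤ y := by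
    rw [hye]
    exact Real.one_le_exp (by linarith)
  have hY1 : y ≤ (⌈y⌉₊ : ℝ) := Nat.le_ceil _
  have hY2 : (⌈y⌉₊ : ℝ) ≤ 2 * y := by
    have := Nat.ceil_lt_add_one (a := y) (by linarith)
    linarith
  have hYpos : (0 : ℝ) < (⌈y⌉₊ : ℝ) := by linarith
  have hprod : Real.exp m * y = Real.exp t ^ (1 + x0 / 20000) := by
    rw [hy, C08_exp_rpow, ← Real.exp_add]
    congr 1
    ring
  have hE0 : Real.exp t ^ (4 * (x0 / 20000)) = Real.exp t ^ (4 * (x0 / 20000)) := rfl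
  have hcore1 := hcore (Real.exp t) (Real.exp m) (Real.exp t ^ c)
    (Real.exp m ^ (3 / 4 : ℝ) * Real.exp t ^ (-c)) ⌈y⌉₊ S' b (by linarith)
    (Real.one_le_exp (by nlinarith)) (by
      have : 0 < ⌈y⌉₊ := by exact_mod_cast hYpos
      omega)
    (by
      rw [← hprod]
      exact mul_le_mul_of_nonneg_left hY1 (Real.exp_pos _).le)
    (by
      calc Real.exp m * (⌈y⌉₊ : ℝ) ≤ Real.exp m * (2 * y) :=
            mul_le_mul_of_nonneg_left hY2 (Real.exp_pos _).le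
        _ = 2 * (Real.exp m * y) := by ring
        _ ≤ Real.exp t * Real.exp (t * (1 + x0 / 20000)) := by
            rw [hprod, C08_exp_rpow]
            exact mul_le_mul_of_nonneg_right hT2 (Real.exp_pos _).le
        _ ≤ Real.exp t ^ 3 := by
            rw [← Real.exp_add, ← Real.exp_nat_mul, Real.exp_le_exp]
            push_cast
            nlinarith)
    (by
      have h2 : Real.exp (x0 * t) ≤ (⌈y⌉₊ : ℝ) := by
        refine le_trans ?_ hY1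
        rw [hye, Real.exp_le_exp, hxc]
        linarith
      refine le_trans ?_ (pow_le_pow_left₀ (Real.exp_pos _).le h2 k)
      rw [← Real.exp_nat_mul, Real.exp_le_exp]
      nlinarith)
    hSS hII hne (Real.rpow_pos_of_pos (Real.exp_pos _) _) (by positivity) hb hDD
  have hTC' : 16 * C + 1 ≤ Real.exp (c * t) := by
    rw [C08_exp_rpow, mul_comm t c] at hTC
    exact hTC
  rcases hcore1 with hA | hA
  · rw [← hρ] at hA
    refine C08_alt1 ?_ hA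
    have hexp : Real.exp (2 * (c * t) + 2 * m) * Real.exp (c * t) ≤
        Real.exp (ρ + 2 * (3 / 4 * m - c * t)) := by
      rw [← Real.exp_add, Real.exp_le_exp]
      linarith
    have h3 : C < Real.exp (c * t) := by linarith
    calc C * Real.exp (2 * (c * t) + 2 * m) < Real.exp (c * t) * Real.exp (2 * (c * t) + 2 * m) :=
          mul_lt_mul_of_pos_right h3 (Real.exp_pos _)
      _ ≤ _ := by rw [mul_comm]; exact hexp
  · have hEn0 : En S' ≤ Real.exp (10 * (c * t)) * (Real.exp (m + ρ) +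
        Real.exp (-(m / 2) + t / 2 + (5 / 2 * ρ - ρ / k / 2))) := by
      refine hE1.trans (le_of_eq ?_)
      rw [← hρ]
      simp only [C08_exp_rpow, ← Real.exp_add]
      congr 2
      · rw [hxc]; ring
      · congr 1
        field_simp
    have hEnn : 0 ≤ En S' := C08_En_nonneg S'
    have hA2 := C08_alt2 (t := t) (m := m) (ρ := ρ) (cc := c * t) (kr := ρ / k) (C := C)
      (E := En S') (y := (⌈y⌉₊ : ℝ)) (e := x0 / 20000) (q := 2 - 1 / (k : ℝ)) hC hEnn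
      (by rw [hxc]; ring) (by field_simp) hYpos (by rw [← hye]; exact hY2) hEn0 l1 l2 l3 l4
    rw [← hρ] at hA
    have hL : (Real.exp ρ * (Real.exp m ^ (3 / 4 : ℝ) * Real.exp t ^ (-c)) ^ 2 /
        ((Real.exp t ^ c) ^ 2 * Real.exp m)) ^ 3 = Real.exp (3 * ρ + 3 / 2 * m - 12 * (c * t)) := by
      simp only [C08_exp_rpow, ← Real.exp_add, ← Real.exp_nat_mul, ← Real.exp_sub]
      congr 1
      push_cast
      ring
    rw [hL] at hA
    have hfin := hA.trans hA2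
    have hs : Real.exp (3 * ρ + 3 / 2 * m - 12 * (c * t)) =
        Real.exp (c * t) * Real.exp (3 * ρ + 3 / 2 * m - 13 * (c * t)) := by
      rw [← Real.exp_add]
      congr 1
      ring
    rw [hs] at hfin
    have := le_of_mul_le_mul_right hfin (Real.exp_pos _)
    linarith

end OL
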