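import Pool.Agent.Lib.MP_39df77_nt.OL.Defs

/-! Statements of the inputs of R25 (rows R18 - R23), as propositions. -/

set_option autoImplicit false

open Complex MeasureTheory Set

namespace OL

/-- row R19 -/
def HA1 : Prop := ∀ e : ℝ, 0 < e → ∃ C : ℝ, 0 < C ∧ ∀ (T : ℝ) (N : ℕ) (a : ℕ → ℂ) (S : Finset ℝ) (W : ℝ),
  1 ≤ T → 1 ≤ N → (∀ n, ‖a n‖ ≤ 1) → Sep S → InI S T → 0 < W → (∀ t ∈ S, W ≤ ‖Dn a N t‖) →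
  (S.card : ℝ) ≤ C * (T * N) ^ e * ((T + (N : ℝ) ^ 3) * (N : ℝ) ^ 3) * W ^ (-6 : ℝ)

/-- row R20 -/
def HA2 : Prop := ∀ e : ℝ, 0 < e → ∃ C : ℝ, 0 < C ∧ ∀ (T : ℝ) (N : ℕ) (a : ℕ → ℂ) (S : Finset ℝ) (W : ℝ),
  1 ≤ T → 1 ≤ N → (∀ n, ‖a n‖ ≤ 1) → Sep S → InI S T → 0 < W → (∀ t ∈ S, W ≤ ‖Dn a N t‖) →
  (S.card : ℝ) ≤ C * (T * N) ^ e * ((N : ℝ) ^ 4 * W ^ (-4 : ℝ) + T * (N : ℝ) ^ 8 * W ^ (-12 : ℝ))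

/-- row R18 -/
def HA3 : Prop := ∀ x0 : ℝ, 0 < x0 → x0 < 1 / 10 → ∃ c T0 : ℝ, 0 < c ∧ 1 ≤ T0 ∧
  ∀ (T : ℝ) (N : ℕ) (a : ℕ → ℂ) (S : Finset ℝ), T0 ≤ T → T ^ (2 / 5 - c) ≤ N → (N : ℝ) ≤ T ^ (1 / 2 - x0) →
  (∀ n, ‖a n‖ ≤ 1) → Sep S → InI S T → (∀ t ∈ S, (N : ℝ) ^ (3 / 4 : ℝ) * T ^ (-c) ≤ ‖Dn a N t‖) →
  (S.card : ℝ) ≤ T ^ (1 - c) / N

/-- row R21 -/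
def HR21 : Prop := ∀ β σ : ℝ, 1 / 2 ≤ β → β < σ → σ < 1 → ∃ C : ℝ, 0 < C ∧ ∀ X t : ℝ, 1 ≤ X →
  ‖riemannZeta (σ + t * I) - Sx σ X t‖ ≤ C * (X ^ (1 - σ) * Real.exp (-|t|) + X ^ (β - σ) * Zl β t)

/-- row R22, for the pairs `(A, m)` -/
def HR22 (A : ℕ) (m : ℝ) : Prop := ∃ C : ℝ, 0 < C ∧ ∀ (T : ℝ) (S : Finset ℝ), 2 ≤ T → Sep S →
  (∀ t ∈ S, T ≤ t ∧ t ≤ 2 * T) → ∑ t ∈ S, Zl (1 / 2) t ^ A ≤ C * T ^ m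

/-- row R23 -/
def HR23 : Prop := ∀ σ e : ℝ, 0 ≤ σ → σ ≤ 1 → 0 < e → ∃ X0 : ℝ, 1 ≤ X0 ∧
  ∀ (X U : ℝ) (S : Finset ℝ), X0 ≤ X → 8 ≤ U → (∀ t ∈ S, U ≤ ‖Sx σ X t‖) →
  ∃ (N : ℕ) (a : ℕ → ℂ) (S' : Finset ℝ), 1 ≤ N ∧ (N : ℝ) ≤ X ^ (1 + e) ∧ (∀ n, ‖a n‖ ≤ 1) ∧ S' ⊆ S ∧
    (S.card : ℝ) ≤ X ^ e * S'.card ∧ ∀ t ∈ S', (N : ℝ) ^ σ * U ≤ X ^ e * ‖Dn a N t‖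

/-- row R25: level sets at `7/12 - c1` -/
def HR25 (c1 : ℝ) : Prop := ∀ e : ℝ, 0 < e → ∃ C : ℝ, 0 < C ∧ ∀ (T V : ℝ) (S : Finset ℝ), 1 ≤ T → T ^ e ≤ V →
  Sep S → (∀ t ∈ S, T ≤ t ∧ t ≤ 2 * T) → (∀ t ∈ S, V ≤ ‖riemannZeta ((7 / 12 - c1 : ℝ) + t * I)‖) →
  (S.card : ℝ) ≤ C * T ^ (1 + e) * V ^ (-6 : ℝ)

/-- row R26: the sixth moment at `7/12 - c1` -/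
def HR26 (c1 : ℝ) : Prop := ∀ e : ℝ, 0 < e → ∃ C : ℝ, ∀ T : ℝ, 1 ≤ T →
  ∫ t in T..(2 * T), ‖riemannZeta ((7 / 12 - c1 : ℝ) + t * I)‖ ^ 6 ≤ C * T ^ (1 + e)

end OL
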