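import Pool.Agent.Lib.MP_39df77_nt.OL.C08
import Pool.Agent.Lib.MP_39df77_nt.OL.A09a
import Pool.Agent.Lib.MP_39df77_nt.OL.Intf

/-! large values, third form -/

set_option autoImplicit false

open Complex MeasureTheory Set Filter Topology
open scoped Real ComplexConjugate

namespace OL

/-- `HA3` with the constant made explicit -/
theorem hA3_at (x0 : ℝ) (hx0 : 0 < x0) (hx1 : x0 < 1 / 10) : ∃ T0 : ℝ, 1 ≤ T0 ∧
    ∀ (T : ℝ) (N : ℕ) (a : ℕ → ℂ) (S : Finset ℝ), T0 ≤ T → T ^ (2 / 5 - x0 / 10000) ≤ N →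
      (N : ℝ) ≤ T ^ (1 / 2 - x0) → (∀ n, ‖a n‖ ≤ 1) → Sep S → InI S T →
      (∀ t ∈ S, (N : ℝ) ^ (3 / 4 : ℝ) * T ^ (-(x0 / 10000)) ≤ ‖Dn a N t‖) →
      (S.card : ℝ) ≤ T ^ (1 - x0 / 10000) / N := by
  obtain ⟨T1, hT1, hG⟩ := thmG (x0 := 2 * x0) (by linarith) (by linarith)
  have he : 0 < x0 / 1000 := by positivity
  obtain ⟨C, hC, hsq⟩ := Dn_sq he
  have hlim : Tendsto (fun T : ℝ => T ^ (x0 / 2000)) atTop atTop :=
    tendsto_rpow_atTop (by positivity)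
  obtain ⟨T2, hT2⟩ := eventually_atTop.mp (hlim.eventually_ge_atTop C)
  refine ⟨max T1 T2, hT1.trans (le_max_left _ _), ?_⟩
  intro T N a S hT hN1 hN2 ha hS hI hV
  have hTT1 : T1 ≤ T := (le_max_left _ _).trans hT
  have hT1' : 1 ≤ T := hT1.trans hTT1
  have hT0 : 0 < T := by linarith
  have hCT : C ≤ T ^ (x0 / 2000) := hT2 T ((le_max_right _ _).trans hT)
  have hNpos : (0 : ℝ) < N := lt_of_lt_of_le (Real.rpow_pos_of_pos hT0 _) hN1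
  have hN : 1 ≤ N := by
    have : 0 < N := by exact_mod_cast hNpos
    omega
  obtain ⟨b, hb1, hb2⟩ := hsq N a hN ha
  have hM1 : T ^ (4 / 5 - 2 * x0 / 2000) ≤ (N : ℝ) ^ 2 := by
    calc T ^ (4 / 5 - 2 * x0 / 2000) ≤ T ^ ((2 / 5 - x0 / 10000) * 2) :=
          Real.rpow_le_rpow_of_exponent_le hT1' (by linarith)
      _ = (T ^ (2 / 5 - x0 / 10000)) ^ 2 := by
          rw [Real.rpow_mul hT0.le]
          norm_num
      _ ≤ (N : ℝ) ^ 2 := pow_le_pow_left₀ (Real.rpow_nonneg hT0.le _) hN1 2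
  have hM2 : (N : ℝ) ^ 2 ≤ T ^ (1 - 2 * x0) := by
    calc (N : ℝ) ^ 2 ≤ (T ^ (1 / 2 - x0)) ^ 2 := pow_le_pow_left₀ hNpos.le hN2 2
      _ = T ^ (1 - 2 * x0) := by
          rw [← Real.rpow_natCast, ← Real.rpow_mul hT0.le]
          congr 1
          push_cast
          ring
  have hb3 : ∀ n ∈ Finset.Ioc ⌊(N : ℝ) ^ 2⌋₊ ⌊4 * (N : ℝ) ^ 2⌋₊, ‖b n‖ ≤ T ^ (2 * x0 / 2000) := by
    intro n hn
    refine (hb2 n hn).trans ?_
    have h1 : (N : ℝ) ^ (x0 / 1000) ≤ T ^ (x0 / 2000) := by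
      calc (N : ℝ) ^ (x0 / 1000) ≤ (T ^ (1 / 2 - x0)) ^ (x0 / 1000) :=
            Real.rpow_le_rpow hNpos.le hN2 he.le
        _ = T ^ ((1 / 2 - x0) * (x0 / 1000)) := by rw [← Real.rpow_mul hT0.le]
        _ ≤ T ^ (x0 / 2000) := Real.rpow_le_rpow_of_exponent_le hT1' (by nlinarith)
    calc C * (N : ℝ) ^ (x0 / 1000) ≤ T ^ (x0 / 2000) * T ^ (x0 / 2000) :=
          mul_le_mul hCT h1 (Real.rpow_nonneg hNpos.le _) (Real.rpow_nonneg hT0.le _)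
      _ = T ^ (2 * x0 / 2000) := by
          rw [← Real.rpow_add hT0]
          congr 1
          ring
  have hV2 : ∀ t ∈ S, ((N : ℝ) ^ 2) ^ (3 / 4 : ℝ) * T ^ (-(2 * x0 / 2000)) ≤
      ‖Dp b ((N : ℝ) ^ 2) t‖ := by
    intro t ht
    rw [← hb1 t, norm_pow]
    have h1 : ((N : ℝ) ^ 2) ^ (3 / 4 : ℝ) = ((N : ℝ) ^ (3 / 4 : ℝ)) ^ 2 := by
      rw [← Real.rpow_natCast, ← Real.rpow_mul hNpos.le, ← Real.rpow_natCast,
        ← Real.rpow_mul hNpos.le]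
      congr 1
      ring
    have h2 : T ^ (-(2 * x0 / 2000)) ≤ (T ^ (-(x0 / 10000))) ^ 2 := by
      rw [← Real.rpow_natCast, ← Real.rpow_mul hT0.le]
      exact Real.rpow_le_rpow_of_exponent_le hT1' (by push_cast; linarith)
    calc ((N : ℝ) ^ 2) ^ (3 / 4 : ℝ) * T ^ (-(2 * x0 / 2000))
        ≤ ((N : ℝ) ^ (3 / 4 : ℝ)) ^ 2 * (T ^ (-(x0 / 10000))) ^ 2 := by
          rw [h1]
          exact mul_le_mul_of_nonneg_left h2 (sq_nonneg _)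
      _ = ((N : ℝ) ^ (3 / 4 : ℝ) * T ^ (-(x0 / 10000))) ^ 2 := by ring
      _ ≤ ‖Dn a N t‖ ^ 2 := pow_le_pow_left₀
          (mul_nonneg (Real.rpow_nonneg hNpos.le _) (Real.rpow_nonneg hT0.le _)) (hV t ht) 2
  have hfin := hG T ((N : ℝ) ^ 2) S b hTT1 hM1 hM2 hS hI hb3 hV2
  have h3 : ((N : ℝ) ^ 2) ^ (-(1 / 2) : ℝ) = (N : ℝ)⁻¹ := by
    rw [← Real.rpow_natCast, ← Real.rpow_mul hNpos.le, ← Real.rpow_neg_one]
    congr 1
    norm_num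
  rw [h3] at hfin
  refine hfin.trans ?_
  rw [div_eq_mul_inv]
  exact mul_le_mul_of_nonneg_right
    (Real.rpow_le_rpow_of_exponent_le hT1' (by linarith)) (inv_nonneg.mpr hNpos.le)

/-- `HA3`. Proof: `thmG` for `2 * x0`, `M = N²`, `Dn_sq`; `c = x0/10000`. -/
theorem hA3 : HA3 := by
  intro x0 hx0 hx1
  obtain ⟨T0, h1, h2⟩ := hA3_at x0 hx0 hx1
  exact ⟨x0 / 10000, T0, by positivity, h1, h2⟩

end OL
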