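import Pool.Agent.Lib.MP_39df77_nt.OL.Conv
import Pool.Agent.Lib.MP_39df77_nt.OL.Intf

/-! C10 (R19): large values through the cube. -/

set_option autoImplicit false

open Complex MeasureTheory Set

namespace OL

/-- extension of the coefficients by zero -/
noncomputable def C10_ext0 (a : ℕ → ℂ) (N n : ℕ) : ℂ := if N < n then a n else 0

lemma C10_Dn_eq_dp (a : ℕ → ℂ) (N : ℕ) (t : ℝ) : Dn a N t = dp (C10_ext0 a N) (2 * N) t := by
  unfold Dn dp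
  have h1 : Finset.Ioc N (2 * N) ⊆ Finset.Icc 1 (2 * N) := by
    intro n hn
    rw [Finset.mem_Ioc] at hn
    rw [Finset.mem_Icc]
    omega
  rw [← Finset.sum_subset h1]
  · refine Finset.sum_congr rfl fun n hn => ?_
    rw [Finset.mem_Ioc] at hn
    unfold C10_ext0
    rw [if_pos hn.1]
  · intro n hn hn2
    have h2 : ¬ N < n := by
      intro h
      rw [Finset.mem_Icc] at hn
      exact hn2 (Finset.mem_Ioc.2 ⟨h, hn.2⟩)
    unfold C10_ext0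
    rw [if_neg h2, zero_mul]

lemma C10_ext0_le {a : ℕ → ℂ} (ha : ∀ n, ‖a n‖ ≤ 1) (N n : ℕ) : ‖C10_ext0 a N n‖ ≤ 1 := by
  unfold C10_ext0
  split_ifs
  · exact ha n
  · simp

lemma C10_ext0_l1 {a : ℕ → ℂ} (ha : ∀ n, ‖a n‖ ≤ 1) (N : ℕ) :
    ∑ n ∈ Finset.Icc 1 (2 * N), ‖C10_ext0 a N n‖ ≤ N := by
  have h1 : ∀ n ∈ Finset.Icc 1 (2 * N), ‖C10_ext0 a N n‖ ≤ if n ∈ Finset.Ioc N (2 * N) then (1:ℝ) else 0 := by
    intro n hn
    split_ifs with h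
    · exact C10_ext0_le ha N n
    · have h2 : ¬ N < n := by
        intro h3
        rw [Finset.mem_Icc] at hn
        exact h (Finset.mem_Ioc.2 ⟨h3, hn.2⟩)
      unfold C10_ext0
      rw [if_neg h2, norm_zero]
  refine (Finset.sum_le_sum h1).trans ?_
  rw [← Finset.sum_filter, Finset.sum_const, nsmul_eq_mul, mul_one]
  have h2 : ((Finset.Icc 1 (2 * N)).filter (fun n => n ∈ Finset.Ioc N (2 * N))).card ≤ N := by
    refine (Finset.card_le_card (t := Finset.Ioc N (2 * N)) ?_).trans ?_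
    · intro n hn
      exact (Finset.mem_filter.1 hn).2
    · rw [Nat.card_Ioc]; omega
  exact_mod_cast h2

lemma C10_one_add_log_le {e x : ℝ} (he : 0 < e) (hx : 1 ≤ x) : 1 + Real.log x ≤ (1 + 1 / e) * x ^ e := by
  have h1 := Real.log_le_rpow_div (by linarith : (0:ℝ) ≤ x) he
  have h2 : 1 ≤ x ^ e := Real.one_le_rpow hx he.le
  rw [add_mul, one_mul, div_mul_eq_mul_div, one_mul]
  linarith

/-- **R19** -/
theorem hA1 : HA1 := by
  intro e he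
  set δ := e / 12 with hδ
  have hδ0 : 0 < δ := by positivity
  obtain ⟨D, hD0, hD⟩ := U6.dv_le δ hδ0
  refine ⟨120 * 8 * (1 + 1 / δ) * D ^ 2 * (8:ℝ) ^ e, by positivity, ?_⟩
  intro T N a S W hT hN ha hS hI hW hSW
  set v := C10_ext0 a N with hv
  set M2 : ℕ := 2 * N * (2 * N) with hM2
  set M3 : ℕ := M2 * (2 * N) with hM3
  have hN0 : (0:ℝ) < N := by exact_mod_cast hN
  have hN1 : (1:ℝ) ≤ N := by exact_mod_cast hN
  have hM3e : (M3 : ℝ) = 8 * (N:ℝ) ^ 3 := by rw [hM3, hM2]; push_cast; ring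
  have hM31 : 1 ≤ M3 := by
    rw [hM3, hM2]
    exact Nat.one_le_iff_ne_zero.2 (by positivity)
  set c2 := cv v v (2 * N) (2 * N) with hc2
  set c3 := cv c2 v M2 (2 * N) with hc3
  have hcube : ∀ t, Dn a N t ^ 3 = dp c3 M3 t := by
    intro t
    rw [hc3, hM3, ← dp_mul, hc2, hM2, ← dp_mul, C10_Dn_eq_dp]
    ring
  have hdvM : ∀ n : ℕ, 1 ≤ n → n ≤ M3 → (U6.dv n : ℝ) ≤ D * (M3 : ℝ) ^ δ := by
    intro n h1 h2
    refine (hD n h1).trans (mul_le_mul_of_nonneg_left ?_ hD0.le)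
    exact Real.rpow_le_rpow (by positivity) (by exact_mod_cast h2) hδ0.le
  set Q := D * (M3 : ℝ) ^ δ with hQ
  have hQ0 : 0 ≤ Q := by positivity
  have hM23 : M2 ≤ M3 := by
    rw [hM3]; exact Nat.le_mul_of_pos_right _ (by omega)
  have hc2le : ∀ n ∈ Finset.Icc 1 M2, ‖c2 n‖ ≤ Q := by
    intro n hn
    rw [Finset.mem_Icc] at hn
    have h1 := cv_le (v := v) (w := v) (N := 2 * N) (M := 2 * N) zero_le_one zero_le_one
      (fun n _ => C10_ext0_le ha N n) (fun n _ => C10_ext0_le ha N n) hn.1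
    rw [one_mul, mul_one] at h1
    exact h1.trans (hdvM n hn.1 (hn.2.trans hM23))
  have hc3le : ∀ n ∈ Finset.Icc 1 M3, ‖c3 n‖ ≤ Q * Q := by
    intro n hn
    rw [Finset.mem_Icc] at hn
    have h1 := cv_le (v := c2) (w := v) (N := M2) (M := 2 * N) hQ0 zero_le_one
      hc2le (fun n _ => C10_ext0_le ha N n) hn.1
    rw [mul_one] at h1
    exact h1.trans (mul_le_mul_of_nonneg_right (hdvM n hn.1 hn.2) hQ0)
  have hl2 : ∑ n ∈ Finset.Icc 1 M2, ‖c2 n‖ ≤ (N:ℝ) * N := by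
    refine (cv_l1 v v (2 * N) (2 * N)).trans ?_
    have := C10_ext0_l1 ha N
    exact mul_le_mul this this (Finset.sum_nonneg fun _ _ => norm_nonneg _) hN0.le
  have hl3 : ∑ n ∈ Finset.Icc 1 M3, ‖c3 n‖ ≤ (N:ℝ) ^ 3 := by
    refine (cv_l1 c2 v M2 (2 * N)).trans ?_
    have h1 := mul_le_mul hl2 (C10_ext0_l1 ha N) (Finset.sum_nonneg fun _ _ => norm_nonneg _) (by positivity)
    refine h1.trans (le_of_eq ?_)
    ring
  have hsq : ∑ n ∈ Finset.Icc 1 M3, ‖c3 n‖ ^ 2 ≤ Q * Q * (N:ℝ) ^ 3 := by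
    calc ∑ n ∈ Finset.Icc 1 M3, ‖c3 n‖ ^ 2 ≤ ∑ n ∈ Finset.Icc 1 M3, Q * Q * ‖c3 n‖ := by
          refine Finset.sum_le_sum fun n hn => ?_
          rw [sq]
          exact mul_le_mul_of_nonneg_right (hc3le n hn) (norm_nonneg _)
      _ = Q * Q * ∑ n ∈ Finset.Icc 1 M3, ‖c3 n‖ := by rw [Finset.mul_sum]
      _ ≤ _ := mul_le_mul_of_nonneg_left hl3 (by positivity)
  have hmain := sep_meansq hT hM31 c3 hS hI
  have hlow : (S.card : ℝ) * W ^ 6 ≤ ∑ t ∈ S, ‖dp c3 M3 t‖ ^ 2 := by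
    rw [← nsmul_eq_mul, ← Finset.sum_const]
    refine Finset.sum_le_sum fun t ht => ?_
    rw [← hcube t, norm_pow, ← pow_mul]
    exact pow_le_pow_left₀ hW.le (hSW t ht) 6
  have hlog : 1 + Real.log M3 ≤ (1 + 1 / δ) * (M3:ℝ) ^ δ :=
    C10_one_add_log_le hδ0 (by exact_mod_cast hM31)
  have hM3pow : ((M3:ℝ) ^ δ) * (((M3:ℝ) ^ δ) * ((M3:ℝ) ^ δ)) ≤ (8:ℝ) ^ e * (T * N) ^ e := by
    have hM30 : (0:ℝ) < M3 := by exact_mod_cast hM31
    rw [← Real.rpow_add hM30, ← Real.rpow_add hM30]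
    rw [show δ + (δ + δ) = e / 4 by rw [hδ]; ring, hM3e,
      Real.mul_rpow (by norm_num) (by positivity)]
    refine mul_le_mul ?_ ?_ (by positivity) (by positivity)
    · exact Real.rpow_le_rpow_of_exponent_le (by norm_num) (by linarith)
    · have h1 : ((N:ℝ) ^ 3) ^ (e / 4) = (N:ℝ) ^ (3 * (e / 4)) := by
        rw [← Real.rpow_natCast, ← Real.rpow_mul hN0.le]; norm_num
      rw [h1]
      calc (N:ℝ) ^ (3 * (e / 4)) ≤ (N:ℝ) ^ e :=
            Real.rpow_le_rpow_of_exponent_le hN1 (by linarith)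
        _ ≤ (T * N) ^ e := Real.rpow_le_rpow hN0.le (by nlinarith) he.le
  have hup : ∑ t ∈ S, ‖dp c3 M3 t‖ ^ 2 ≤
      120 * 8 * (1 + 1 / δ) * D ^ 2 * (8:ℝ) ^ e * (T * N) ^ e * ((T + (N:ℝ) ^ 3) * (N:ℝ) ^ 3) := by
    have h8 : T + M3 ≤ 8 * (T + (N:ℝ) ^ 3) := by rw [hM3e]; linarith
    calc ∑ t ∈ S, ‖dp c3 M3 t‖ ^ 2
        ≤ 120 * (T + M3) * (1 + Real.log M3) * ∑ n ∈ Finset.Icc 1 M3, ‖c3 n‖ ^ 2 := hmain
      _ ≤ 120 * (8 * (T + (N:ℝ) ^ 3)) * ((1 + 1 / δ) * (M3:ℝ) ^ δ) * (Q * Q * (N:ℝ) ^ 3) := by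
          refine mul_le_mul (mul_le_mul (mul_le_mul_of_nonneg_left h8 (by norm_num)) hlog ?_ ?_) hsq ?_ ?_
          · have := Real.log_nonneg (show (1:ℝ) ≤ M3 by exact_mod_cast hM31)
            linarith
          · positivity
          · exact Finset.sum_nonneg fun _ _ => by positivity
          · positivity
      _ = 120 * 8 * (1 + 1 / δ) * D ^ 2 * ((T + (N:ℝ) ^ 3) * (N:ℝ) ^ 3) *
            (((M3:ℝ) ^ δ) * (((M3:ℝ) ^ δ) * ((M3:ℝ) ^ δ))) := by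
          rw [hQ]; ring
      _ ≤ 120 * 8 * (1 + 1 / δ) * D ^ 2 * ((T + (N:ℝ) ^ 3) * (N:ℝ) ^ 3) *
            ((8:ℝ) ^ e * (T * N) ^ e) := mul_le_mul_of_nonneg_left hM3pow (by positivity)
      _ = _ := by ring
  have hWp : W ^ (-6 : ℝ) = (W ^ 6)⁻¹ := by
    rw [Real.rpow_neg hW.le]
    norm_num
  rw [hWp, ← div_eq_mul_inv, le_div_iff₀ (by positivity)]
  exact hlow.trans hup

end OL
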