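import Pool.Agent.Lib.MP_39df77_nt.OL.A07
import Pool.Agent.Lib.MP_39df77_nt.OL.A09a
import Pool.Agent.Lib.MP_39df77_nt.OL.C02
import Pool.Agent.Lib.MP_39df77_nt.OL.A00
import Pool.Agent.Lib.MP_39df77_nt.OL.Intf

/-! large values, second form -/

set_option autoImplicit false

open Complex MeasureTheory Set Filter Topology
open scoped Real ComplexConjugate

namespace OL

/-- one window -/
private theorem C11_window {C1 : ℝ} (hC1 : 0 < C1) (hK : ∀ M τ : ℝ, 1 ≤ M →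
    ‖K 2 M τ‖ ≤ C1 * (M / (1 + τ ^ 2) ^ 2 + (1 + |τ|) ^ (1 / 2 : ℝ))) {M B V T' : ℝ}
    (hM : 1 ≤ M) (hB : 0 ≤ B) (hV : 0 ≤ V) (hT' : 1 ≤ T') (S : Finset ℝ) (hS : Sep S)
    (hST : ∀ s ∈ S, ∀ t ∈ S, |t - s| ≤ T') (b : ℕ → ℂ)
    (hb : ∀ n ∈ Finset.Ioc ⌊M⌋₊ ⌊4 * M⌋₊, ‖b n‖ ≤ B) (hD : ∀ t ∈ S, V ≤ ‖Dp b M t‖) :
    (S.card : ℝ) * V ^ 2 ≤
      32 * Real.exp 4 * C1 * B ^ 2 * (M ^ 2 + M * S.card * Real.sqrt T') := by
  obtain ⟨c, hc, h⟩ := duality (a := 2) (by norm_num) hM hB hV S b hb hD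
  set R : ℝ := (S.card : ℝ) with hR
  have hR0 : 0 ≤ R := Nat.cast_nonneg _
  have hker : ∀ s ∈ S, ∀ t ∈ S, ‖K 2 M (t - s)‖ ≤
      C1 * (M * (1 / (1 + (t - s) ^ 2)) + 2 * Real.sqrt T') := by
    intro s hs t ht
    refine (hK M (t - s) hM).trans ?_
    apply mul_le_mul_of_nonneg_left _ hC1.le
    apply add_le_add
    · rw [mul_one_div]
      apply div_le_div_of_nonneg_left (by linarith) (by positivity)
      nlinarith [sq_nonneg (t - s)]
    · rw [← Real.sqrt_eq_rpow]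
      have h4 : (2 : ℝ) * Real.sqrt T' = Real.sqrt (4 * T') := by
        rw [Real.sqrt_mul (by norm_num)]
        congr 1
        rw [show (4 : ℝ) = 2 ^ 2 by norm_num, Real.sqrt_sq (by norm_num)]
      rw [h4]
      apply Real.sqrt_le_sqrt
      have := hST s hs t ht
      linarith
  have hsum : (∑ s ∈ S, ∑ t ∈ S, conj (c s) * K 2 M (t - s) * c t).re ≤
      R * (C1 * (M * 8 + 2 * Real.sqrt T' * R)) := by
    refine (Complex.re_le_norm _).trans ((norm_sum_le _ _).trans ?_)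
    have h1 : ∀ s ∈ S, ‖∑ t ∈ S, conj (c s) * K 2 M (t - s) * c t‖ ≤
        C1 * (M * 8 + 2 * Real.sqrt T' * R) := by
      intro s hs
      refine (norm_sum_le _ _).trans ?_
      have h2 : ∀ t ∈ S, ‖conj (c s) * K 2 M (t - s) * c t‖ ≤
          C1 * (M * (1 / (1 + (t - s) ^ 2)) + 2 * Real.sqrt T') := by
        intro t ht
        rw [norm_mul, norm_mul, RCLike.norm_conj, hc, hc, one_mul, mul_one]
        exact hker s hs t ht
      refine (Finset.sum_le_sum h2).trans ?_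
      rw [← Finset.mul_sum, Finset.sum_add_distrib, ← Finset.mul_sum, Finset.sum_const,
        nsmul_eq_mul, ← hR]
      apply mul_le_mul_of_nonneg_left _ hC1.le
      have h3 := sep_sum hS s
      have h4 : M * ∑ t ∈ S, 1 / (1 + (t - s) ^ 2) ≤ M * 8 :=
        mul_le_mul_of_nonneg_left h3 (by linarith)
      linarith
    refine (Finset.sum_le_sum h1).trans ?_
    rw [Finset.sum_const, nsmul_eq_mul]
  have hcoef : 0 ≤ 4 * Real.exp 4 * B ^ 2 * M := by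
    have := Real.exp_pos 4
    positivity
  have h2 : (R * V) ^ 2 ≤ 4 * Real.exp 4 * B ^ 2 * M * (R * (C1 * (M * 8 + 2 * Real.sqrt T' * R))) :=
    h.trans (mul_le_mul_of_nonneg_left hsum hcoef)
  have hsq : 0 ≤ Real.sqrt T' := Real.sqrt_nonneg _
  have hE : 0 < Real.exp 4 := Real.exp_pos 4
  rcases eq_or_lt_of_le hR0 with h0 | h0
  · rw [← h0]
    have : 0 ≤ M ^ 2 := sq_nonneg M
    have h5 : 0 ≤ 32 * Real.exp 4 * C1 * B ^ 2 * (M ^ 2 + M * 0 * Real.sqrt T') := by positivity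
    linarith
  · have h3 : R * (R * V ^ 2) ≤
        R * (4 * Real.exp 4 * B ^ 2 * M * (C1 * (M * 8 + 2 * Real.sqrt T' * R))) := by
      calc R * (R * V ^ 2) = (R * V) ^ 2 := by ring
        _ ≤ _ := h2
        _ = _ := by ring
    have h4 := le_of_mul_le_mul_left h3 h0
    refine h4.trans ?_
    have h5 : 0 ≤ Real.exp 4 * C1 * B ^ 2 * (M * R * Real.sqrt T') := by positivity
    nlinarith

/-- `HA2`. Proof: `Dn_sq`, `M = N²`, `B = C N^{e'}`. For a subset in a window of length `T'`: `duality` and `K_le`: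
`R' W⁴ ≤ C1 B² (M² + M R' T'^{1/2})`. Take `T'^{1/2} = W⁴/(2 C1 B² M)`. If `T' ≥ 1`: `R' ≤ 2 C1 B² N⁴ W^{-4}`, at most
`1 + T/T'` windows. If `T' < 1`: `W⁴ ≤ 2 C1 B² N²`, trivial bound `R ≤ T + 1`. -/
theorem hA2 : HA2 := by
  intro e he
  obtain ⟨C0, hC0, hsq⟩ := Dn_sq (e := e / 6) (by positivity)
  obtain ⟨C1, hC1, hK⟩ := K_le (a := 2) le_rfl
  obtain ⟨C2, hC2⟩ : ∃ C2 : ℝ, C2 = 32 * Real.exp 4 * C1 := ⟨_, rfl⟩
  have hC2p : 0 < C2 := by rw [hC2]; have := Real.exp_pos 4; positivity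
  refine ⟨(16 * C2 ^ 3 + 2 * C2) * C0 ^ 6, by positivity, ?_⟩
  intro T N a S W hT hN ha hS hI hW hD
  obtain ⟨b, hb1, hb2⟩ := hsq N a hN ha
  have hN1 : (1 : ℝ) ≤ N := by exact_mod_cast hN
  obtain ⟨M, hMdef⟩ : ∃ M : ℝ, M = (N : ℝ) ^ 2 := ⟨_, rfl⟩
  have hM : 1 ≤ M := by rw [hMdef]; nlinarith
  obtain ⟨B, hBdef⟩ : ∃ B : ℝ, B = C0 * (N : ℝ) ^ (e / 6) := ⟨_, rfl⟩
  have hB1 : 1 ≤ B := by
    rw [hBdef]
    have := Real.one_le_rpow hN1 (by positivity : 0 ≤ e / 6)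
    nlinarith
  have hD2 : ∀ t ∈ S, W ^ 2 ≤ ‖Dp b M t‖ := by
    intro t ht
    rw [hMdef, ← hb1 t, norm_pow]
    exact pow_le_pow_left₀ hW.le (hD t ht) 2
  have hb : ∀ n ∈ Finset.Ioc ⌊M⌋₊ ⌊4 * M⌋₊, ‖b n‖ ≤ B := by
    rw [hMdef, hBdef]
    exact hb2
  have hW4 : W ^ (-4 : ℝ) = (W ^ 4)⁻¹ := by
    rw [Real.rpow_neg hW.le]
    congr 1
    exact_mod_cast Real.rpow_natCast W 4
  have hW12 : W ^ (-12 : ℝ) = (W ^ 12)⁻¹ := by
    rw [Real.rpow_neg hW.le]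
    congr 1
    exact_mod_cast Real.rpow_natCast W 12
  rw [hW4, hW12]
  have hW4p : 0 < W ^ 4 := by positivity
  -- it is enough to have the bound with `B ^ 6`
  have hred : (S.card : ℝ) ≤ (16 * C2 ^ 3 + 2 * C2) * B ^ 6 *
      ((N : ℝ) ^ 4 * (W ^ 4)⁻¹ + T * (N : ℝ) ^ 8 * (W ^ 12)⁻¹) := by
    obtain ⟨X, hX⟩ : ∃ X : ℝ, X = W ^ 4 / (2 * C2 * B ^ 2 * M) := ⟨_, rfl⟩
    have hXp : 0 < X := by rw [hX]; positivity
    have hXW : X * (2 * C2 * B ^ 2 * M) = W ^ 4 := by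
      rw [hX]; field_simp
    rcases le_or_gt 1 X with h1 | h1
    · -- windows
      have hT1 : 1 ≤ X ^ 2 := by nlinarith
      obtain ⟨A0, hA0⟩ := hI
      have hwin : ∀ S' ⊆ S, (∀ s ∈ S', ∀ t ∈ S', |t - s| ≤ X ^ 2) →
          (S'.card : ℝ) ≤ 2 * C2 * B ^ 2 * (N : ℝ) ^ 4 * (W ^ 4)⁻¹ := by
        intro S' hS' hwd
        have h2 := C11_window hC1 hK hM (by linarith : 0 ≤ B) (sq_nonneg W) hT1 S'
          (sep_sub hS' hS) hwd b hb (fun t ht => hD2 t (hS' ht))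
        rw [← hC2, Real.sqrt_sq hXp.le] at h2
        have h3 : C2 * B ^ 2 * (M * S'.card * X) = S'.card * W ^ 4 / 2 := by
          rw [← hXW]; ring
        have h4 : (S'.card : ℝ) * W ^ 4 ≤ 2 * C2 * B ^ 2 * M ^ 2 := by
          have e1 : (W ^ 2) ^ 2 = W ^ 4 := by ring
          rw [e1] at h2
          nlinarith
        rw [← div_eq_mul_inv, le_div_iff₀ hW4p]
        refine h4.trans (le_of_eq ?_)
        rw [hMdef]; ring
      -- the number of windows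
      have hcard : (S.card : ℝ) ≤ (1 + T / X ^ 2) *
          (2 * C2 * B ^ 2 * (N : ℝ) ^ 4 * (W ^ 4)⁻¹) := by
        have hX2 : 0 < X ^ 2 := by positivity
        have hmaps : ∀ t ∈ S, ⌊(t - A0) / X ^ 2⌋₊ ∈ Finset.range (⌊T / X ^ 2⌋₊ + 1) := by
          intro t ht
          rw [Finset.mem_range, Nat.lt_succ_iff]
          apply Nat.floor_le_floor
          apply div_le_div_of_nonneg_right _ hX2.le
          linarith [(hA0 t ht).2]
        rw [Finset.card_eq_sum_card_fiberwise hmaps]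
        push_cast
        have h5 : ∀ j ∈ Finset.range (⌊T / X ^ 2⌋₊ + 1),
            ((S.filter fun t => ⌊(t - A0) / X ^ 2⌋₊ = j).card : ℝ) ≤
              2 * C2 * B ^ 2 * (N : ℝ) ^ 4 * (W ^ 4)⁻¹ := by
          intro j _
          apply hwin _ (Finset.filter_subset _ _)
          intro s hs t ht
          rw [Finset.mem_filter] at hs ht
          have p1 : 0 ≤ (s - A0) / X ^ 2 := div_nonneg (by linarith [(hA0 s hs.1).1]) hX2.le
          have p2 : 0 ≤ (t - A0) / X ^ 2 := div_nonneg (by linarith [(hA0 t ht.1).1]) hX2.le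
          have q1 := (Nat.floor_eq_iff p1).1 hs.2
          have q2 := (Nat.floor_eq_iff p2).1 ht.2
          have r1 := q1.1
          have r2 := q1.2
          have r3 := q2.1
          have r4 := q2.2
          rw [le_div_iff₀ hX2] at r1 r3
          rw [div_lt_iff₀ hX2] at r2 r4
          rw [abs_le]
          constructor <;> nlinarith
        refine (Finset.sum_le_sum h5).trans ?_
        rw [Finset.sum_const, Finset.card_range, nsmul_eq_mul]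
        apply mul_le_mul_of_nonneg_right _ (by positivity)
        push_cast
        have := Nat.floor_le (by positivity : 0 ≤ T / X ^ 2)
        linarith
      refine hcard.trans ?_
      have hTX : T / X ^ 2 = 4 * C2 ^ 2 * B ^ 4 * T * (N : ℝ) ^ 4 * (W ^ 8)⁻¹ := by
        rw [hX, hMdef]
        field_simp
        ring
      rw [hTX]
      have e1 : (1 + 4 * C2 ^ 2 * B ^ 4 * T * (N : ℝ) ^ 4 * (W ^ 8)⁻¹) *
          (2 * C2 * B ^ 2 * (N : ℝ) ^ 4 * (W ^ 4)⁻¹) =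
          2 * C2 * B ^ 2 * ((N : ℝ) ^ 4 * (W ^ 4)⁻¹) +
            8 * C2 ^ 3 * B ^ 6 * (T * (N : ℝ) ^ 8 * (W ^ 12)⁻¹) := by
        field_simp
        ring
      rw [e1]
      have hy1 : 0 ≤ (N : ℝ) ^ 4 * (W ^ 4)⁻¹ := by positivity
      have hy2 : 0 ≤ T * (N : ℝ) ^ 8 * (W ^ 12)⁻¹ := by positivity
      have hB26 : B ^ 2 ≤ B ^ 6 := pow_le_pow_right₀ hB1 (by norm_num)
      have k1 : 2 * C2 * B ^ 2 * ((N : ℝ) ^ 4 * (W ^ 4)⁻¹) ≤
          (16 * C2 ^ 3 + 2 * C2) * B ^ 6 * ((N : ℝ) ^ 4 * (W ^ 4)⁻¹) := by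
        apply mul_le_mul_of_nonneg_right _ hy1
        have : 0 ≤ 16 * C2 ^ 3 * B ^ 6 := by positivity
        nlinarith
      have k2 : 8 * C2 ^ 3 * B ^ 6 * (T * (N : ℝ) ^ 8 * (W ^ 12)⁻¹) ≤
          (16 * C2 ^ 3 + 2 * C2) * B ^ 6 * (T * (N : ℝ) ^ 8 * (W ^ 12)⁻¹) := by
        apply mul_le_mul_of_nonneg_right _ hy2
        have h6 : 0 ≤ 8 * C2 ^ 3 * B ^ 6 := by positivity
        have h7 : 0 ≤ 2 * C2 * B ^ 6 := by positivity
        nlinarith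
      linarith
    · -- trivial bound
      have h2 : (S.card : ℝ) ≤ T + 1 := sep_card (by linarith) hS hI
      have h3 : W ^ 4 ≤ 2 * C2 * B ^ 2 * M := by
        rw [← hXW]
        have : 0 ≤ 2 * C2 * B ^ 2 * M := by positivity
        nlinarith
      have h4 : W ^ 12 ≤ 8 * C2 ^ 3 * B ^ 6 * (N : ℝ) ^ 8 := by
        have h5 : (W ^ 4) ^ 3 ≤ (2 * C2 * B ^ 2 * M) ^ 3 := pow_le_pow_left₀ hW4p.le h3 3
        have e1 : (W ^ 4) ^ 3 = W ^ 12 := by ring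
        have e2 : (2 * C2 * B ^ 2 * M) ^ 3 = 8 * C2 ^ 3 * B ^ 6 * (N : ℝ) ^ 6 := by
          rw [hMdef]; ring
        rw [e1, e2] at h5
        refine h5.trans ?_
        apply mul_le_mul_of_nonneg_left _ (by positivity)
        exact pow_le_pow_right₀ hN1 (by norm_num)
      have hW12p : 0 < W ^ 12 := by positivity
      have h6 : 1 ≤ 8 * C2 ^ 3 * B ^ 6 * (N : ℝ) ^ 8 * (W ^ 12)⁻¹ := by
        rw [← div_eq_mul_inv, le_div_iff₀ hW12p, one_mul]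
        exact h4
      have hy1 : 0 ≤ (N : ℝ) ^ 4 * (W ^ 4)⁻¹ := by positivity
      have h7 : (T + 1) ≤ 2 * T := by linarith
      have h8 : 2 * T ≤ 2 * T * (8 * C2 ^ 3 * B ^ 6 * (N : ℝ) ^ 8 * (W ^ 12)⁻¹) := by
        nlinarith
      have h9 : 2 * T * (8 * C2 ^ 3 * B ^ 6 * (N : ℝ) ^ 8 * (W ^ 12)⁻¹) =
          16 * C2 ^ 3 * B ^ 6 * (T * (N : ℝ) ^ 8 * (W ^ 12)⁻¹) := by ring
      have hy2 : 0 ≤ T * (N : ℝ) ^ 8 * (W ^ 12)⁻¹ := by positivity
      have k1 : 0 ≤ (16 * C2 ^ 3 + 2 * C2) * B ^ 6 * ((N : ℝ) ^ 4 * (W ^ 4)⁻¹) := by positivity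
      have k2 : 0 ≤ 2 * C2 * B ^ 6 * (T * (N : ℝ) ^ 8 * (W ^ 12)⁻¹) := by positivity
      nlinarith
  refine hred.trans ?_
  have hB6 : B ^ 6 = C0 ^ 6 * (N : ℝ) ^ e := by
    rw [hBdef, mul_pow, ← Real.rpow_natCast ((N : ℝ) ^ (e / 6)) 6, ← Real.rpow_mul (by positivity)]
    congr 2
    push_cast
    ring
  have hNe : (N : ℝ) ^ e ≤ (T * N) ^ e := by
    apply Real.rpow_le_rpow (by positivity) _ he.le
    nlinarith
  have hy : 0 ≤ (N : ℝ) ^ 4 * (W ^ 4)⁻¹ + T * (N : ℝ) ^ 8 * (W ^ 12)⁻¹ := by positivity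
  apply mul_le_mul_of_nonneg_right _ hy
  rw [hB6, mul_assoc ((16 : ℝ) * C2 ^ 3 + 2 * C2) (C0 ^ 6) _]
  apply mul_le_mul_of_nonneg_left _ (by positivity)
  exact mul_le_mul_of_nonneg_left hNe (by positivity)

end OL
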