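import Pool.Agent.Lib.MP_39df77_nt.OL.A08
import Pool.Agent.Lib.MP_39df77_nt.U6.A09

/-! Products of Dirichlet polynomials. -/

set_option autoImplicit false

open Complex MeasureTheory Set

namespace OL

/-- coefficients of the product of two Dirichlet polynomials -/
noncomputable def cv (v w : ℕ → ℂ) (N M n : ℕ) : ℂ :=
  ∑ p ∈ (Finset.Icc 1 N ×ˢ Finset.Icc 1 M).filter (fun p => p.1 * p.2 = n), v p.1 * w p.2

theorem dp_mul (v w : ℕ → ℂ) (N M : ℕ) (t : ℝ) :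
    dp v N t * dp w M t = dp (cv v w N M) (N * M) t := by
  have hmap : ∀ p ∈ Finset.Icc 1 N ×ˢ Finset.Icc 1 M, p.1 * p.2 ∈ Finset.Icc 1 (N * M) := by
    intro p hp
    rw [Finset.mem_product, Finset.mem_Icc, Finset.mem_Icc] at hp
    rw [Finset.mem_Icc]
    exact ⟨Nat.one_le_iff_ne_zero.2 (Nat.mul_ne_zero (by omega) (by omega)),
      Nat.mul_le_mul hp.1.2 hp.2.2⟩
  unfold dp cv
  rw [Finset.sum_mul_sum, ← Finset.sum_product',
    ← Finset.sum_fiberwise_of_maps_to (g := fun p : ℕ × ℕ => p.1 * p.2) hmap]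
  refine Finset.sum_congr rfl fun n hn => ?_
  rw [Finset.sum_mul]
  refine Finset.sum_congr rfl fun p hp => ?_
  rw [Finset.mem_filter, Finset.mem_product, Finset.mem_Icc, Finset.mem_Icc] at hp
  obtain ⟨⟨⟨p1, _⟩, ⟨p2, _⟩⟩, pn⟩ := hp
  have h1 : Real.log n = Real.log p.1 + Real.log p.2 := by
    rw [← pn]
    push_cast
    exact Real.log_mul (by positivity) (by positivity)
  rw [h1, show -(t * (Real.log p.1 + Real.log p.2)) = -(t * Real.log p.1) + -(t * Real.log p.2) by ring,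
    A08_ei_add]
  ring

/-- fibres have at most `d(n)` elements -/
lemma fib_card (N M n : ℕ) (hn : 1 ≤ n) :
    ((Finset.Icc 1 N ×ˢ Finset.Icc 1 M).filter (fun p => p.1 * p.2 = n)).card ≤ U6.dv n := by
  unfold U6.dv
  refine Finset.card_le_card_of_injOn (fun p => p.1) ?_ ?_
  · intro p hp
    simp only [Finset.coe_filter, Finset.mem_product, Set.mem_ofPred_eq] at hp
    simp only [Finset.mem_coe, Nat.mem_divisors]
    exact ⟨⟨p.2, hp.2.symm⟩, by omega⟩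
  · intro p hp q hq h
    simp only [Finset.coe_filter, Finset.mem_product, Finset.mem_Icc, Set.mem_ofPred_eq] at hp hq
    simp only at h
    have h2 : p.1 * p.2 = p.1 * q.2 := by rw [hp.2, h, hq.2]
    have h3 : p.2 = q.2 := Nat.eq_of_mul_eq_mul_left (by omega) h2
    exact Prod.ext h h3

/-- sup bound for the coefficients -/
lemma cv_le {v w : ℕ → ℂ} {N M : ℕ} {A B : ℝ} (hA : 0 ≤ A) (hB : 0 ≤ B)
    (hv : ∀ n ∈ Finset.Icc 1 N, ‖v n‖ ≤ A) (hw : ∀ n ∈ Finset.Icc 1 M, ‖w n‖ ≤ B) {n : ℕ}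
    (hn : 1 ≤ n) : ‖cv v w N M n‖ ≤ U6.dv n * (A * B) := by
  unfold cv
  refine (norm_sum_le _ _).trans ?_
  calc ∑ p ∈ (Finset.Icc 1 N ×ˢ Finset.Icc 1 M).filter (fun p => p.1 * p.2 = n), ‖v p.1 * w p.2‖
      ≤ ∑ p ∈ (Finset.Icc 1 N ×ˢ Finset.Icc 1 M).filter (fun p => p.1 * p.2 = n), A * B := by
        refine Finset.sum_le_sum fun p hp => ?_
        rw [Finset.mem_filter, Finset.mem_product] at hp
        rw [norm_mul]
        exact mul_le_mul (hv _ hp.1.1) (hw _ hp.1.2) (norm_nonneg _) hA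
    _ = (((Finset.Icc 1 N ×ˢ Finset.Icc 1 M).filter (fun p => p.1 * p.2 = n)).card : ℝ) * (A * B) := by
        rw [Finset.sum_const, nsmul_eq_mul]
    _ ≤ _ := mul_le_mul_of_nonneg_right (by exact_mod_cast fib_card N M n hn) (by positivity)

/-- `ℓ¹` bound for the coefficients -/
lemma cv_l1 (v w : ℕ → ℂ) (N M : ℕ) :
    ∑ n ∈ Finset.Icc 1 (N * M), ‖cv v w N M n‖ ≤
      (∑ n ∈ Finset.Icc 1 N, ‖v n‖) * ∑ n ∈ Finset.Icc 1 M, ‖w n‖ := by
  have hmap : ∀ p ∈ Finset.Icc 1 N ×ˢ Finset.Icc 1 M, p.1 * p.2 ∈ Finset.Icc 1 (N * M) := by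
    intro p hp
    rw [Finset.mem_product, Finset.mem_Icc, Finset.mem_Icc] at hp
    rw [Finset.mem_Icc]
    exact ⟨Nat.one_le_iff_ne_zero.2 (Nat.mul_ne_zero (by omega) (by omega)),
      Nat.mul_le_mul hp.1.2 hp.2.2⟩
  rw [Finset.sum_mul_sum, ← Finset.sum_product',
    ← Finset.sum_fiberwise_of_maps_to (g := fun p : ℕ × ℕ => p.1 * p.2) hmap]
  refine Finset.sum_le_sum fun n _ => ?_
  unfold cv
  refine (norm_sum_le _ _).trans (le_of_eq ?_)
  exact Finset.sum_congr rfl fun p _ => norm_mul _ _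

end OL
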