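import Pool.Agent.Lib.MP_39df77_nt.OL.Defs
import Pool.Agent.Lib.MP_39df77_nt.Part01
import Pool.Agent.Lib.MP_39df77_nt.Part02
import Pool.Agent.Lib.MP_39df77_nt.U6.A06

/-!
# R21: zeta and its smoothed Dirichlet series
-/

set_option autoImplicit false

open Complex MeasureTheory Set Filter Topology

namespace OL

/-- powers of positive reals as exponentials -/
lemma D1_cpow {x : ℝ} (hx : 0 < x) (w : ℂ) : (x : ℂ) ^ w = cexp (w * (Real.log x : ℝ)) := by
  rw [cpow_def_of_ne_zero (by exact_mod_cast hx.ne'), ← ofReal_log hx.le, mul_comm]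

lemma D1_norm_cpow {x : ℝ} (hx : 0 < x) (w : ℂ) : ‖(x : ℂ) ^ w‖ = x ^ w.re :=
  norm_cpow_eq_rpow_re_of_pos hx w

/-- the integrand without the two poles `0` and `p = 1 - s` -/
noncomputable def D1F (s : ℂ) (X : ℝ) (w : ℂ) : ℂ := Gamma (w + 1) * (X : ℂ) ^ w * riemannZeta₁ (s + w)

lemma D1_poly {c y : ℝ} (hc : 1 ≤ c) : (c + |y|) ^ 2 * Real.exp (-|y|) ≤ c ^ 2 * (6 * Real.exp 1) / (1 + |y|) := by
  have hy := abs_nonneg y
  have h1 : (1 + |y|) ^ 3 / 6 ≤ Real.exp (1 + |y|) := by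
    have := Real.pow_div_factorial_le_exp (1 + |y|) (by positivity) 3
    simpa [Nat.factorial] using this
  rw [Real.exp_add] at h1
  have h2 : Real.exp |y| * Real.exp (-|y|) = 1 := by rw [← Real.exp_add]; simp
  have h3 : (1 + |y|) ^ 3 * Real.exp (-|y|) ≤ 6 * Real.exp 1 := by
    have h4 := mul_le_mul_of_nonneg_right h1 (Real.exp_pos (-|y|)).le
    have h5 : Real.exp 1 * Real.exp |y| * Real.exp (-|y|) = Real.exp 1 := by
      rw [mul_assoc, h2, mul_one]
    rw [h5] at h4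
    linarith
  rw [le_div_iff₀ (by positivity)]
  have h6 : (c + |y|) ^ 2 ≤ (c * (1 + |y|)) ^ 2 := by
    apply pow_le_pow_left₀ (by positivity)
    nlinarith
  have hE := (Real.exp_pos (-|y|)).le
  calc (c + |y|) ^ 2 * Real.exp (-|y|) * (1 + |y|)
      ≤ (c * (1 + |y|)) ^ 2 * Real.exp (-|y|) * (1 + |y|) := by gcongr
    _ = c ^ 2 * ((1 + |y|) ^ 3 * Real.exp (-|y|)) := by ring
    _ ≤ c ^ 2 * (6 * Real.exp 1) := by gcongr

lemma D1F_diff (s : ℂ) {X : ℝ} (hX : 1 ≤ X) {w : ℂ} (hw : -1 < w.re) :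
    DifferentiableAt ℂ (D1F s X) w := by
  unfold D1F
  have h1 : DifferentiableAt ℂ (fun w : ℂ => Gamma (w + 1)) w := by
    have h : DifferentiableAt ℂ Gamma (w + 1) := differentiableAt_Gamma _ (fun m h => by
      have := congrArg Complex.re h
      have h2 : (0 : ℝ) ≤ m := Nat.cast_nonneg m
      simp at this
      linarith)
    exact h.comp w ((differentiableAt_id).add_const 1)
  have h2 : DifferentiableAt ℂ (fun w : ℂ => (X : ℂ) ^ w) w :=
    (differentiableAt_id).const_cpow (Or.inl (by exact_mod_cast (by linarith : X ≠ 0)))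
  have h3 : DifferentiableAt ℂ (fun w : ℂ => riemannZeta₁ (s + w)) w :=
    (differentiable_riemannZeta₁ _).comp w ((differentiableAt_id).const_add s)
  exact (h1.mul h2).mul h3

lemma D1F_bound {s : ℂ} {X a b : ℝ} (hX : 1 ≤ X) (ha : -1 < a) (hb : 0 ≤ b)
    (hs : 1 / 2 ≤ s.re + a) :
    ∃ C : ℝ, ∀ w : ℂ, a ≤ w.re → w.re ≤ b → ‖D1F s X w‖ ≤ C / (1 + |w.im|) := by
  obtain ⟨C1, hC1⟩ := S6.Gamma_decay (θ := 1) (a := a + 1) (b := b + 1) one_pos
    (by linarith [Real.pi_gt_three]) (by linarith)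
  obtain ⟨C2, hC2, hz⟩ := S6UZ.zeta1_growth
  have hX0 : 0 < X := by linarith
  set c : ℝ := 1 + ‖s‖ + |a| + b with hc
  have hc1 : 1 ≤ c := by
    have := norm_nonneg s
    have := abs_nonneg a
    linarith
  refine ⟨|C1| * X ^ b * (C2 * (c ^ 2 * (6 * Real.exp 1))), fun w h1 h2 => ?_⟩
  have e1 : ‖Gamma (w + 1)‖ ≤ |C1| * Real.exp (-|w.im|) := by
    have := hC1 (w + 1) (by simpa using h1) (by simpa using h2)
    simp only [add_im, one_im, add_zero, one_mul] at this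
    exact this.trans (mul_le_mul_of_nonneg_right (le_abs_self _) (Real.exp_pos _).le)
  have e2 : ‖(X : ℂ) ^ w‖ ≤ X ^ b := by
    rw [D1_norm_cpow hX0]
    exact Real.rpow_le_rpow_of_exponent_le hX h2
  have e3 : ‖riemannZeta₁ (s + w)‖ ≤ C2 * (c + |w.im|) ^ 2 := by
    refine (hz (s + w) (by rw [add_re]; linarith)).trans ?_
    have h3 : ‖s + w‖ ≤ ‖s‖ + ‖w‖ := norm_add_le _ _
    have h4 : ‖w‖ ≤ |w.re| + |w.im| := norm_le_abs_re_add_abs_im w
    have h5 : |w.re| ≤ |a| + b := by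
      rw [abs_le]
      constructor
      · have := neg_abs_le a
        linarith
      · have := abs_nonneg a
        linarith
    have h6 : 1 + ‖s + w‖ ≤ c + |w.im| := by linarith
    have h7 : (1 + ‖s + w‖) ^ 2 ≤ (c + |w.im|) ^ 2 := pow_le_pow_left₀ (by positivity) h6 2
    exact mul_le_mul_of_nonneg_left h7 (by linarith)
  have e4 := D1_poly (y := w.im) hc1
  unfold D1F
  rw [norm_mul, norm_mul]
  calc ‖Gamma (w + 1)‖ * ‖(X : ℂ) ^ w‖ * ‖riemannZeta₁ (s + w)‖
      ≤ (|C1| * Real.exp (-|w.im|)) * X ^ b * (C2 * (c + |w.im|) ^ 2) := by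
        gcongr
    _ = |C1| * X ^ b * (C2 * ((c + |w.im|) ^ 2 * Real.exp (-|w.im|))) := by ring
    _ ≤ |C1| * X ^ b * (C2 * (c ^ 2 * (6 * Real.exp 1) / (1 + |w.im|))) := by
        have hC2' : 0 ≤ C2 := by linarith
        gcongr
    _ = _ := by ring

/-- the integrand on a line away from the poles -/
lemma D1_split (s : ℂ) (X : ℝ) {w : ℂ} (h0 : w ≠ 0) (h1 : s + w ≠ 1) :
    Gamma w * (X : ℂ) ^ w * riemannZeta (s + w) =
      D1F s X w / (w * (w - (1 - s))) := by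
  have h2 : w - (1 - s) ≠ 0 := by
    intro h
    apply h1
    linear_combination h
  unfold D1F
  rw [Gamma_add_one _ h0, U6.FM.zeta1_eq h1]
  field_simp
  ring

/-- integrability on a line of a function of decay `1/(1+|y|)` over a linear factor -/
lemma D1_line_int {F : ℂ → ℂ} {x C : ℝ} (hc : Continuous fun y : ℝ => F (x + y * I))
    (hb : ∀ y : ℝ, ‖F (x + y * I)‖ ≤ C / (1 + |y|)) {p : ℂ} (hp : p.re ≠ x) :
    Integrable fun y : ℝ => F (x + y * I) / (x + y * I - p) := by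
  obtain ⟨c, hc0, hlow⟩ := S6.vs_low (x := x - p.re) (sub_ne_zero.2 (Ne.symm hp))
  have e1 : ∀ y : ℝ, (x + y * I - p : ℂ) = ((x - p.re : ℝ) : ℂ) + ((y - p.im : ℝ) : ℂ) * I := by
    intro y
    apply Complex.ext <;> simp
  have hne : ∀ y : ℝ, (x + y * I - p : ℂ) ≠ 0 := by
    intro y h
    have := congrArg Complex.re h
    rw [e1] at this
    simp at this
    exact hp (by linarith)
  have hC : 0 ≤ C := by
    have := (norm_nonneg _).trans (hb 0)
    simpa using this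
  refine S6.vs_int (C := C * ((1 + |p.im|) / c)) ?_ fun y => ?_
  · exact hc.div (by fun_prop) hne
  · have h1 : c * (1 + |y|) ≤ (1 + |p.im|) * ‖(x + y * I - p : ℂ)‖ := by
      rw [e1]
      have h2 := hlow (y - p.im)
      have h3 : |y| ≤ |y - p.im| + |p.im| := by
        have := abs_add_le (y - p.im) p.im
        simpa using this
      have h4 := abs_nonneg (y - p.im)
      have h5 := abs_nonneg p.im
      have h6 : 1 + |y| ≤ (1 + |p.im|) * (1 + |y - p.im|) := by nlinarith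
      calc c * (1 + |y|) ≤ c * ((1 + |p.im|) * (1 + |y - p.im|)) := by gcongr
        _ = (1 + |p.im|) * (c * (1 + |y - p.im|)) := by ring
        _ ≤ _ := by gcongr
    have hpos : 0 < ‖(x + y * I - p : ℂ)‖ := norm_pos_iff.2 (hne y)
    have hy : 0 < 1 + |y| := by positivity
    rw [norm_div, div_le_iff₀ hpos]
    refine (hb y).trans ?_
    rw [div_mul_eq_mul_div, div_le_div_iff₀ hy (by positivity)]
    have h2 : 1 + |y| ≤ (1 + |p.im|) / c * ‖(x + y * I - p : ℂ)‖ := by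
      rw [div_mul_eq_mul_div, le_div_iff₀ hc0]
      linarith
    calc C * (1 + |y|) ^ 2 = C * (1 + |y|) * (1 + |y|) := by ring
      _ ≤ C * ((1 + |p.im|) / c * ‖(x + y * I - p : ℂ)‖) * (1 + |y|) := by gcongr
      _ = _ := by ring

/-- the shift of the line of integration -/
lemma D1_shift {s : ℂ} {X a b : ℝ} (hX : 1 ≤ X) (ha : -1 < a) (ha0 : a < 0) (hb : 1 ≤ b)
    (hs : 1 / 2 ≤ s.re + a) (hs1 : s.re < 1) (hs0 : 0 < s.re) :
    (∫ y : ℝ, Gamma (b + y * I) * (X : ℂ) ^ (b + y * I : ℂ) * riemannZeta (s + (b + y * I))) -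
      (∫ y : ℝ, Gamma (a + y * I) * (X : ℂ) ^ (a + y * I : ℂ) * riemannZeta (s + (a + y * I))) =
      2 * Real.pi * (riemannZeta s + Gamma (1 - s) * (X : ℂ) ^ (1 - s)) := by
  have hb0 : 0 ≤ b := by linarith
  obtain ⟨C, hC⟩ := D1F_bound (s := s) hX ha hb0 hs
  have hd : ∀ w : ℂ, a ≤ w.re → w.re ≤ b → DifferentiableAt ℂ (D1F s X) w := fun w h1 _ =>
    D1F_diff s hX (by linarith)
  set p : ℂ := 1 - s with hp
  have hpre : p.re = 1 - s.re := by rw [hp]; simp
  have hp0 : p ≠ 0 := by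
    intro h
    rw [h] at hpre
    simp at hpre
    linarith
  have v1 := S6.vshift1 (p := p) (a := a) (b := b) (by rw [hpre]; linarith)
    (by rw [hpre]; linarith) hd hC
  have v0 := S6.vshift1 (p := 0) (a := a) (b := b) (by simpa using ha0)
    (by simp; linarith) hd hC
  have hline : ∀ x : ℝ, a ≤ x → x ≤ b → x ≠ 0 → x ≠ 1 - s.re →
      (∫ y : ℝ, Gamma (x + y * I) * (X : ℂ) ^ (x + y * I : ℂ) * riemannZeta (s + (x + y * I))) =
      p⁻¹ * ((∫ y : ℝ, D1F s X (x + y * I) / (x + y * I - p)) -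
        ∫ y : ℝ, D1F s X (x + y * I) / (x + y * I - 0)) := by
    intro x h1 h2 h3 h4
    have hcx : Continuous fun y : ℝ => D1F s X (x + y * I) := S6.vs_cont h1 h2 hd
    have hbx : ∀ y : ℝ, ‖D1F s X (x + y * I)‖ ≤ C / (1 + |y|) := by
      intro y
      have := hC (x + y * I) (by simpa using h1) (by simpa using h2)
      simpa using this
    have i1 := D1_line_int hcx hbx (p := p) (by rw [hpre]; exact fun h => h4 h.symm)
    have i0 := D1_line_int hcx hbx (p := 0) (by simpa using h3.symm)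
    rw [← integral_sub i1 i0, ← integral_const_mul]
    congr 1
    funext y
    have hw0 : (x + y * I : ℂ) ≠ 0 := by
      intro h
      have := congrArg Complex.re h
      simp at this
      exact h3 this
    have hw1 : s + (x + y * I : ℂ) ≠ 1 := by
      intro h
      have := congrArg Complex.re h
      simp at this
      exact h4 (by linarith)
    have hwp : (x + y * I - p : ℂ) ≠ 0 := by
      intro h
      apply hw1
      rw [hp] at h
      linear_combination h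
    rw [D1_split s X hw0 hw1, ← hp, sub_zero]
    field_simp
    ring
  rw [hline b (by linarith) le_rfl (by linarith) (by linarith),
    hline a le_rfl (by linarith) ha0.ne (by linarith)]
  have hFp : D1F s X p = p * (Gamma p * (X : ℂ) ^ p) := by
    unfold D1F
    have : s + p = 1 := by rw [hp]; ring
    rw [this, riemannZeta₁_one, Gamma_add_one _ hp0]
    ring
  have hs_ne : s ≠ 1 := by
    rintro rfl
    simp at hs1
  have hF0 : D1F s X 0 = -(p * riemannZeta s) := by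
    unfold D1F
    rw [zero_add, Gamma_one, cpow_zero, add_zero, U6.FM.zeta1_eq hs_ne, hp]
    ring
  rw [hFp] at v1
  rw [hF0] at v0
  have e : p⁻¹ * ((∫ y : ℝ, D1F s X (b + y * I) / (b + y * I - p)) -
        ∫ y : ℝ, D1F s X (b + y * I) / (b + y * I - 0)) -
      p⁻¹ * ((∫ y : ℝ, D1F s X (a + y * I) / (a + y * I - p)) -
        ∫ y : ℝ, D1F s X (a + y * I) / (a + y * I - 0)) =
      p⁻¹ * (2 * Real.pi * (p * (Gamma p * (X : ℂ) ^ p)) - 2 * Real.pi * (-(p * riemannZeta s))) := by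
    rw [← v1, ← v0]
    ring
  rw [e]
  field_simp
  ring

/-- the `n`-th term on the line `Re w = 2` -/
noncomputable def D1f (s : ℂ) (X : ℝ) (n : ℕ) (y : ℝ) : ℂ :=
  Gamma ((2 : ℝ) + y * I) * (((n + 1 : ℝ) / X : ℝ) : ℂ) ^ (-((2 : ℝ) + y * I : ℂ)) *
    ((n + 1 : ℝ) : ℂ) ^ (-s)

lemma D1f_int (s : ℂ) {X : ℝ} (hX : 1 ≤ X) (n : ℕ) :
    Integrable (D1f s X n) ∧ ∫ y : ℝ, D1f s X n y =
      2 * Real.pi * (cexp (-(((n + 1 : ℝ) / X : ℝ) : ℂ)) * ((n + 1 : ℝ) : ℂ) ^ (-s)) := by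
  have hX0 : 0 < X := by linarith
  have hW : 0 < ((((n + 1 : ℝ) / X : ℝ) : ℂ)).re := by
    rw [ofReal_re]; positivity
  obtain ⟨h1, h2⟩ := S6.exp_mellin (c := 2) two_pos hW
  refine ⟨h1.mul_const _, ?_⟩
  unfold D1f
  rw [integral_mul_const, ← h2]
  have hpi : (Real.pi : ℂ) ≠ 0 := by exact_mod_cast Real.pi_ne_zero
  have e : ∀ J Z : ℂ, J * Z = 2 * Real.pi * (1 / (2 * Real.pi) * J * Z) := by
    intro J Z
    field_simp
  exact e _ _

lemma D1f_tsum {s : ℂ} (hs : 0 < s.re) {X : ℝ} (hX : 1 ≤ X) (y : ℝ) :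
    ∑' n : ℕ, D1f s X n y = Gamma ((2 : ℝ) + y * I) * (X : ℂ) ^ ((2 : ℝ) + y * I : ℂ) *
      riemannZeta (s + ((2 : ℝ) + y * I)) := by
  have hX0 : 0 < X := by linarith
  rw [zeta_eq_tsum_one_div_nat_add_one_cpow (by simp; linarith), ← tsum_mul_left]
  congr 1
  funext n
  unfold D1f
  have hn : (0 : ℝ) < n + 1 := by positivity
  have hq : (0 : ℝ) < (n + 1) / X := by positivity
  have e0 : ((n : ℂ) + 1) = ((n + 1 : ℝ) : ℂ) := by push_cast; rfl
  rw [e0, D1_cpow hq, D1_cpow hn, D1_cpow hX0, D1_cpow hn, Real.log_div hn.ne' hX0.ne', one_div,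
    ← Complex.exp_neg, mul_assoc, mul_assoc, ← Complex.exp_add, ← Complex.exp_add]
  congr 2
  push_cast
  ring

lemma D1f_norm (s : ℂ) {X : ℝ} (hX : 1 ≤ X) (n : ℕ) (y : ℝ) :
    ‖D1f s X n y‖ = ‖Gamma ((2 : ℝ) + y * I)‖ *
      (((n + 1 : ℝ) / X) ^ (-(2 : ℝ)) * (n + 1 : ℝ) ^ (-s.re)) := by
  have hX0 : 0 < X := by linarith
  have hn : (0 : ℝ) < n + 1 := by positivity
  have hq : (0 : ℝ) < (n + 1) / X := by positivity
  unfold D1f
  rw [norm_mul, norm_mul, D1_norm_cpow hq, D1_norm_cpow hn, mul_assoc]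
  simp

lemma D1_series {s : ℂ} (hs : 0 < s.re) {X : ℝ} (hX : 1 ≤ X) :
    ∫ y : ℝ, Gamma ((2 : ℝ) + y * I) * (X : ℂ) ^ ((2 : ℝ) + y * I : ℂ) *
      riemannZeta (s + ((2 : ℝ) + y * I)) =
    2 * Real.pi * ∑' n : ℕ, (cexp (-(((n + 1 : ℝ) / X : ℝ) : ℂ)) * ((n + 1 : ℝ) : ℂ) ^ (-s)) := by
  have hX0 : 0 < X := by linarith
  have hsum : Summable fun n : ℕ => ∫ y : ℝ, ‖D1f s X n y‖ := by
    have e : ∀ n : ℕ, ∫ y : ℝ, ‖D1f s X n y‖ = (∫ y : ℝ, ‖Gamma ((2 : ℝ) + y * I)‖) *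
        (((n + 1 : ℝ) / X) ^ (-(2 : ℝ)) * (n + 1 : ℝ) ^ (-s.re)) := by
      intro n
      rw [← integral_mul_const]
      congr 1
      funext y
      exact D1f_norm s hX n y
    simp_rw [e]
    apply Summable.mul_left
    have h1 : Summable fun n : ℕ => X ^ (2 : ℝ) * ((n : ℝ) + 1) ^ (-(2 : ℝ)) := by
      apply Summable.mul_left
      have := (summable_nat_add_iff 1).2 (Real.summable_nat_rpow.2 (show (-2 : ℝ) < -1 by norm_num))
      refine this.congr ?_
      intro n; push_cast; rfl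
    refine h1.of_nonneg_of_le (fun n => by positivity) fun n => ?_
    have hn : (0 : ℝ) < n + 1 := by positivity
    rw [Real.div_rpow hn.le hX0.le, Real.rpow_neg hX0.le, div_inv_eq_mul]
    have h2 : ((n : ℝ) + 1) ^ (-s.re) ≤ 1 := by
      apply Real.rpow_le_one_of_one_le_of_nonpos
      · have := Nat.cast_nonneg (α := ℝ) n
        linarith
      · linarith
    calc ((n : ℝ) + 1) ^ (-(2 : ℝ)) * X ^ (2 : ℝ) * ((n : ℝ) + 1) ^ (-s.re)
        ≤ ((n : ℝ) + 1) ^ (-(2 : ℝ)) * X ^ (2 : ℝ) * 1 := by gcongr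
      _ = _ := by ring
  have h := hasSum_integral_of_summable_integral_norm (fun n => (D1f_int s hX n).1) hsum
  have h2 := h.tsum_eq
  simp_rw [(D1f_int s hX _).2, D1f_tsum hs hX] at h2
  rw [← h2, tsum_mul_left]

lemma D1_Sx (σ X t : ℝ) : Sx σ X t =
    ∑' n : ℕ, (cexp (-(((n + 1 : ℝ) / X : ℝ) : ℂ)) * ((n + 1 : ℝ) : ℂ) ^ (-(σ + t * I : ℂ))) := by
  unfold Sx ei
  congr 1
  funext n
  have hn : (0 : ℝ) < n + 1 := by positivity
  rw [D1_cpow hn, ofReal_mul, ofReal_exp, mul_assoc, ofReal_neg]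
  congr 1
  have e : (((n + 1 : ℝ) ^ (-σ) : ℝ) : ℂ) = cexp (-(σ : ℂ) * (Real.log (n + 1 : ℝ) : ℝ)) := by
    rw [ofReal_cpow hn.le, D1_cpow hn]
    push_cast
    rfl
  rw [e, ← Complex.exp_add]
  congr 1
  push_cast
  ring

lemma D1_Zl_int {β : ℝ} (h0 : 1 / 2 ≤ β) (h1 : β < 1) (t : ℝ) :
    Integrable fun y : ℝ => ‖riemannZeta (β + (t + y : ℝ) * I)‖ * Real.exp (-|y|) := by
  obtain ⟨C, hC1, hC⟩ := S6UZ.zeta_growth
  have hne : ∀ y : ℝ, (β + (t + y : ℝ) * I : ℂ) ≠ 1 := by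
    intro y h
    have := congrArg Complex.re h
    simp at this
    linarith
  have hcont : Continuous fun y : ℝ => riemannZeta (β + (t + y : ℝ) * I) := by
    rw [continuous_iff_continuousAt]
    intro y
    exact ContinuousAt.comp (f := fun y : ℝ => (β + (t + y : ℝ) * I : ℂ)) (g := riemannZeta)
      (differentiableAt_riemannZeta (hne y)).continuousAt (by fun_prop)
  set c : ℝ := 1 + |β| + |t| with hc
  have hc1 : 1 ≤ c := by
    have := abs_nonneg β
    have := abs_nonneg t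
    linarith
  set K : ℝ := (1 / (1 - β) + C) * (c * (6 * Real.exp 1)) with hK
  have hb0 : 0 < 1 - β := by linarith
  have hmaj : Integrable fun y : ℝ => K * (1 + y ^ 2)⁻¹ := integrable_inv_one_add_sq.const_mul _
  refine hmaj.mono' ((hcont.norm.mul (by fun_prop)).aestronglyMeasurable)
    (Eventually.of_forall fun y => ?_)
  have hy := abs_nonneg y
  have hE := Real.exp_pos (-|y|)
  rw [Real.norm_of_nonneg (by positivity)]
  have e1 : ‖riemannZeta (β + (t + y : ℝ) * I)‖ ≤ (1 / (1 - β) + C) * (c + |y|) := by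
    refine (hC _ (by simpa using h0) (hne y)).trans ?_
    have h3 : 1 - β ≤ ‖(β + (t + y : ℝ) * I : ℂ) - 1‖ := by
      have := Complex.abs_re_le_norm ((β + (t + y : ℝ) * I : ℂ) - 1)
      have h4 : ((β + (t + y : ℝ) * I : ℂ) - 1).re = β - 1 := by simp
      rw [h4] at this
      have h5 := neg_abs_le (β - 1)
      linarith
    have h4 : 1 / ‖(β + (t + y : ℝ) * I : ℂ) - 1‖ ≤ 1 / (1 - β) :=
      one_div_le_one_div_of_le hb0 h3
    have h5 : ‖(β + (t + y : ℝ) * I : ℂ)‖ ≤ c + |y| := by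
      refine (norm_add_le _ _).trans ?_
      rw [norm_mul, norm_I, mul_one, Complex.norm_real, Complex.norm_real, Real.norm_eq_abs,
        Real.norm_eq_abs]
      have := abs_add_le t y
      rw [hc]
      linarith
    have h6 : 1 ≤ c + |y| := by linarith
    have h7 : 0 ≤ 1 / (1 - β) := by positivity
    calc 1 / ‖(β + (t + y : ℝ) * I : ℂ) - 1‖ + C * ‖(β + (t + y : ℝ) * I : ℂ)‖
        ≤ 1 / (1 - β) * (c + |y|) + C * (c + |y|) := by
          apply add_le_add
          · calc _ ≤ 1 / (1 - β) := h4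
              _ ≤ 1 / (1 - β) * (c + |y|) := le_mul_of_one_le_right h7 h6
          · exact mul_le_mul_of_nonneg_left h5 (by linarith)
      _ = _ := by ring
  have e2 : (c + |y|) * Real.exp (-|y|) ≤ c * (6 * Real.exp 1) * (1 + y ^ 2)⁻¹ := by
    have h1 : (1 + |y|) ^ 3 / 6 ≤ Real.exp (1 + |y|) := by
      have := Real.pow_div_factorial_le_exp (1 + |y|) (by positivity) 3
      simpa [Nat.factorial] using this
    rw [Real.exp_add] at h1
    have h2 : Real.exp |y| * Real.exp (-|y|) = 1 := by rw [← Real.exp_add]; simp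
    have h3 : (1 + |y|) ^ 3 * Real.exp (-|y|) ≤ 6 * Real.exp 1 := by
      have h4 := mul_le_mul_of_nonneg_right h1 hE.le
      have h5 : Real.exp 1 * Real.exp |y| * Real.exp (-|y|) = Real.exp 1 := by
        rw [mul_assoc, h2, mul_one]
      rw [h5] at h4
      linarith
    rw [← div_eq_mul_inv, le_div_iff₀ (by positivity)]
    have h4 : c + |y| ≤ c * (1 + |y|) := by nlinarith
    have h5 : 1 + y ^ 2 ≤ (1 + |y|) ^ 2 := by nlinarith [sq_abs y]
    calc (c + |y|) * Real.exp (-|y|) * (1 + y ^ 2)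
        ≤ (c * (1 + |y|)) * Real.exp (-|y|) * (1 + |y|) ^ 2 := by gcongr
      _ = c * ((1 + |y|) ^ 3 * Real.exp (-|y|)) := by ring
      _ ≤ c * (6 * Real.exp 1) := by gcongr
  have h8 : 0 ≤ 1 / (1 - β) + C := by
    have : 0 ≤ 1 / (1 - β) := by positivity
    linarith
  calc ‖riemannZeta (β + (t + y : ℝ) * I)‖ * Real.exp (-|y|)
      ≤ (1 / (1 - β) + C) * (c + |y|) * Real.exp (-|y|) := by gcongr
    _ = (1 / (1 - β) + C) * ((c + |y|) * Real.exp (-|y|)) := by ring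
    _ ≤ (1 / (1 - β) + C) * (c * (6 * Real.exp 1) * (1 + y ^ 2)⁻¹) := by gcongr
    _ = K * (1 + y ^ 2)⁻¹ := by rw [hK]; ring

/-- R21: `ζ(σ + it)` minus its smoothed Dirichlet series of length `X` is at most the pole term
plus `X^{β-σ}` times the smoothed `ζ` on the line `β`. -/
theorem smoothing {β σ : ℝ} (h0 : 1 / 2 ≤ β) (h1 : β < σ) (h2 : σ < 1) : ∃ C : ℝ, 0 < C ∧
    ∀ X t : ℝ, 1 ≤ X → ‖riemannZeta (σ + t * I) - Sx σ X t‖ ≤
      C * (X ^ (1 - σ) * Real.exp (-|t|) + X ^ (β - σ) * Zl β t) := by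
  obtain ⟨C1, hC1⟩ := S6.Gamma_decay (θ := 1) (a := 1 - σ) (b := 1 - σ) one_pos
    (by linarith [Real.pi_gt_three]) (by linarith)
  obtain ⟨C2, hC2⟩ := S6.Gamma_decay (θ := 1) (a := β - σ + 1) (b := β - σ + 1) one_pos
    (by linarith [Real.pi_gt_three]) (by linarith)
  set a : ℝ := β - σ with ha
  have ha0 : a < 0 := by rw [ha]; linarith
  have ha1 : -1 < a := by rw [ha]; linarith
  refine ⟨|C1| + |C2| / |a| + 1, by positivity, fun X t hX => ?_⟩
  have hX0 : 0 < X := by linarith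
  set s : ℂ := σ + t * I with hs
  have hsre : s.re = σ := by rw [hs]; simp
  have hsim : s.im = t := by rw [hs]; simp
  have key := D1_shift (s := s) (a := a) (b := 2) hX ha1 ha0 one_le_two
    (by rw [hsre, ha]; linarith) (by rw [hsre]; exact h2) (by rw [hsre]; linarith)
  rw [D1_series (s := s) (by rw [hsre]; linarith) hX, ← D1_Sx] at key
  set J : ℂ := ∫ y : ℝ, Gamma (a + y * I) * (X : ℂ) ^ (a + y * I : ℂ) *
    riemannZeta (s + (a + y * I)) with hJ
  have hJb : ‖J‖ ≤ |C2| / |a| * X ^ a * Zl β t := by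
    have hmaj := (D1_Zl_int h0 (h1.trans h2) t).const_mul (|C2| / |a| * X ^ a)
    unfold Zl
    rw [← integral_const_mul]
    refine norm_integral_le_of_norm_le hmaj (Eventually.of_forall fun y => ?_)
    have hw0 : (a + y * I : ℂ) ≠ 0 := by
      intro h
      have := congrArg Complex.re h
      simp at this
      exact ha0.ne this
    have e1 : ‖Gamma (a + y * I)‖ ≤ |C2| / |a| * Real.exp (-|y|) := by
      have g1 := Gamma_add_one _ hw0
      have g2 := hC2 ((a + y * I : ℂ) + 1) (by simp) (by simp)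
      have g3 : |a| ≤ ‖(a + y * I : ℂ)‖ := by
        have := Complex.abs_re_le_norm (a + y * I : ℂ)
        simpa using this
      have g4 : 0 < |a| := abs_pos.2 ha0.ne
      rw [g1, norm_mul] at g2
      simp only [add_im, one_im, add_zero, one_mul, ofReal_im, mul_im, ofReal_re, I_im, mul_one,
        I_re, mul_zero, zero_add] at g2
      have g5 : |a| * ‖Gamma (a + y * I)‖ ≤ |C2| * Real.exp (-|y|) :=
        (mul_le_mul_of_nonneg_right g3 (norm_nonneg _)).trans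
          (g2.trans (mul_le_mul_of_nonneg_right (le_abs_self _) (Real.exp_pos _).le))
      rw [div_mul_eq_mul_div, le_div_iff₀ g4]
      linarith
    have e2 : ‖(X : ℂ) ^ (a + y * I : ℂ)‖ = X ^ a := by
      rw [D1_norm_cpow hX0]
      simp
    have e3 : s + (a + y * I : ℂ) = β + (t + y : ℝ) * I := by
      rw [hs, ha]
      push_cast
      ring
    rw [norm_mul, norm_mul, e2, e3]
    calc ‖Gamma (a + y * I)‖ * X ^ a * ‖riemannZeta (β + (t + y : ℝ) * I)‖
        ≤ (|C2| / |a| * Real.exp (-|y|)) * X ^ a * ‖riemannZeta (β + (t + y : ℝ) * I)‖ := by gcongr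
      _ = _ := by ring
  have hP : ‖Gamma (1 - s) * (X : ℂ) ^ (1 - s)‖ ≤ |C1| * (X ^ (1 - σ) * Real.exp (-|t|)) := by
    have g2 := hC1 (1 - s) (by simp [hsre]) (by simp [hsre])
    rw [norm_mul, D1_norm_cpow hX0]
    have g3 : (1 - s).re = 1 - σ := by simp [hsre]
    have g4 : |(1 - s).im| = |t| := by simp [hsim]
    rw [g4, one_mul] at g2
    rw [g3]
    calc ‖Gamma (1 - s)‖ * X ^ (1 - σ) ≤ (|C1| * Real.exp (-|t|)) * X ^ (1 - σ) := by
          gcongr
          exact g2.trans (mul_le_mul_of_nonneg_right (le_abs_self _) (Real.exp_pos _).le)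
      _ = _ := by ring
  have hpi : (0 : ℝ) < 2 * Real.pi := by positivity
  have hpiC : (2 * (Real.pi : ℂ)) ≠ 0 := by exact_mod_cast hpi.ne'
  have e4 : riemannZeta s - Sx σ X t = -(Gamma (1 - s) * (X : ℂ) ^ (1 - s)) - (2 * Real.pi : ℂ)⁻¹ * J := by
    have : (2 * (Real.pi : ℂ)) * (riemannZeta s - Sx σ X t) =
        (2 * (Real.pi : ℂ)) * (-(Gamma (1 - s) * (X : ℂ) ^ (1 - s)) - (2 * Real.pi : ℂ)⁻¹ * J) := by
      rw [mul_sub, mul_sub, ← mul_assoc (2 * (Real.pi : ℂ)) _ J, mul_inv_cancel₀ hpiC]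
      linear_combination -key
    exact mul_left_cancel₀ hpiC this
  rw [e4]
  have hZ : 0 ≤ Zl β t := by
    unfold Zl
    exact integral_nonneg fun y => by positivity
  have e5 : ‖(2 * Real.pi : ℂ)⁻¹ * J‖ ≤ |C2| / |a| * X ^ a * Zl β t := by
    rw [norm_mul, norm_inv]
    have : ‖(2 * (Real.pi : ℂ))‖ = 2 * Real.pi := by
      have e : (2 * (Real.pi : ℂ)) = ((2 * Real.pi : ℝ) : ℂ) := by push_cast; rfl
      rw [e, Complex.norm_real, Real.norm_of_nonneg hpi.le]
    rw [this]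
    have h5 : (2 * Real.pi)⁻¹ ≤ 1 := inv_le_one_of_one_le₀ (by linarith [Real.pi_gt_three])
    calc (2 * Real.pi)⁻¹ * ‖J‖ ≤ 1 * ‖J‖ := by gcongr
      _ ≤ _ := by rw [one_mul]; exact hJb
  refine (norm_sub_le _ _).trans ?_
  rw [norm_neg]
  have n1 : 0 ≤ X ^ (1 - σ) * Real.exp (-|t|) := by positivity
  have n2 : 0 ≤ X ^ a * Zl β t := by positivity
  have n3 : 0 ≤ |C2| / |a| := by positivity
  have n4 := abs_nonneg C1
  nlinarith [hP, e5]

end OL
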