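import Pool.Agent.Lib.MP_39df77_nt.OL.Defs
import Pool.Agent.Lib.MP_39df77_nt.U6.A06

/-! R22: moments of `Zl` over separated sets. -/

set_option autoImplicit false

open Complex MeasureTheory Set

namespace OL

/-- tangent line inequality for powers -/
lemma D22_tangent_pow {a b : ℝ} (ha : 0 ≤ a) (hb : 0 ≤ b) (A : ℕ) (hA : 1 ≤ A) :
    b ^ A + A * b ^ (A - 1) * (a - b) ≤ a ^ A := by
  rcases hb.eq_or_lt with rfl | hb
  · rcases Nat.lt_or_ge 1 A with h | h
    · have h1 : A ≠ 0 := by omega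
      have h2 : A - 1 ≠ 0 := by omega
      simp only [ne_eq, h1, not_false_eq_true, zero_pow, h2, mul_zero, zero_mul, add_zero]
      positivity
    · obtain rfl : A = 1 := by omega
      simp
  · obtain ⟨n, rfl⟩ : ∃ n, A = n + 1 := ⟨A - 1, by omega⟩
    have h := one_add_mul_le_pow (a := a / b - 1) (by
      have : 0 ≤ a / b := by positivity
      linarith) (n + 1)
    have h1 : (1 + (a / b - 1)) ^ (n + 1) = a ^ (n + 1) / b ^ (n + 1) := by
      rw [show 1 + (a / b - 1) = a / b by ring, div_pow]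
    rw [h1, le_div_iff₀ (by positivity)] at h
    refine le_trans (le_of_eq ?_) h
    simp only [Nat.add_sub_cancel]
    field_simp
    ring

lemma D22_exp_abs_int {c : ℝ} (hc : 0 < c) : Integrable fun y : ℝ => Real.exp (-(c * |y|)) := by
  have h1 : IntegrableOn (fun y : ℝ => Real.exp (-(c * |y|))) (Ioi 0) := by
    refine (exp_neg_integrableOn_Ioi 0 hc).congr_fun ?_ measurableSet_Ioi
    intro y hy
    simp only
    rw [abs_of_pos hy, neg_mul]
  have h2 : IntegrableOn (fun y : ℝ => Real.exp (-(c * |y|))) (Iic 0) := by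
    rw [← Measure.map_neg_eq_self (volume : Measure ℝ)]
    let m : MeasurableEmbedding fun x : ℝ => -x := (Homeomorph.neg ℝ).measurableEmbedding
    rw [m.integrableOn_map_iff]
    simp_rw [Function.comp_def, abs_neg, neg_preimage, neg_Iic, neg_zero]
    exact Iff.mpr integrableOn_Ici_iff_integrableOn_Ioi h1
  have := h2.union h1
  rwa [Iic_union_Ioi, integrableOn_univ] at this

lemma D22_integral_exp_abs : ∫ y : ℝ, Real.exp (-|y|) = 2 := by
  rw [integral_comp_abs (f := fun x => Real.exp (-x)), integral_exp_neg_Ioi_zero]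
  norm_num

/-- Jensen for the weight `e^{-|y|}` -/
lemma D22_jensen_exp {f : ℝ → ℝ} (A : ℕ) (hA : 1 ≤ A) (h0 : ∀ y, 0 ≤ f y)
    (h1 : Integrable fun y => f y * Real.exp (-|y|))
    (h2 : Integrable fun y => f y ^ A * Real.exp (-|y|)) :
    (∫ y, f y * Real.exp (-|y|)) ^ A ≤ 2 ^ A * ∫ y, f y ^ A * Real.exp (-|y|) := by
  set F := ∫ y, f y * Real.exp (-|y|) with hF
  set G := ∫ y, f y ^ A * Real.exp (-|y|) with hG
  have hF0 : 0 ≤ F := integral_nonneg fun y => mul_nonneg (h0 y) (Real.exp_pos _).le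
  have hG0 : 0 ≤ G := integral_nonneg fun y => mul_nonneg (pow_nonneg (h0 y) _) (Real.exp_pos _).le
  set b := F / 2 with hb
  have hb0 : 0 ≤ b := by positivity
  have he := D22_exp_abs_int one_pos
  simp only [one_mul] at he
  have hint : Integrable fun y => (b ^ A - A * b ^ (A - 1) * b) * Real.exp (-|y|) +
      A * b ^ (A - 1) * (f y * Real.exp (-|y|)) := (he.const_mul _).add (h1.const_mul _)
  have key : ∫ y, ((b ^ A - A * b ^ (A - 1) * b) * Real.exp (-|y|) +
      A * b ^ (A - 1) * (f y * Real.exp (-|y|))) ≤ G := by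
    refine integral_mono hint h2 fun y => ?_
    simp only
    have := mul_le_mul_of_nonneg_right (D22_tangent_pow (h0 y) hb0 A hA) (Real.exp_pos (-|y|)).le
    linarith
  rw [integral_add (he.const_mul _) (h1.const_mul _), integral_const_mul, integral_const_mul,
    D22_integral_exp_abs, ← hF] at key
  have e1 : (b ^ A - A * b ^ (A - 1) * b) * 2 + A * b ^ (A - 1) * F = 2 * b ^ A := by
    have : F = 2 * b := by rw [hb]; ring
    rw [this]; ring
  rw [e1, hb, div_pow] at key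
  have h2A : (0:ℝ) < 2 ^ A := by positivity
  have : F ^ A / 2 ^ A ≤ G := by
    have : 0 ≤ F ^ A / 2 ^ A := by positivity
    linarith
  rw [div_le_iff₀ h2A] at this
  linarith

lemma D22_pow_le_exp (A : ℕ) {c : ℝ} (hc : 0 < c) : ∃ C : ℝ, 0 < C ∧ ∀ x : ℝ, 0 ≤ x →
    (1 + x) ^ A ≤ C * Real.exp (c * x) := by
  refine ⟨A.factorial / c ^ A * Real.exp c, by positivity, fun x hx => ?_⟩
  have h := Real.pow_div_factorial_le_exp (c * (1 + x)) (by positivity) A
  rw [div_le_iff₀ (by positivity), mul_pow] at h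
  have h3 : Real.exp (c * (1 + x)) = Real.exp c * Real.exp (c * x) := by
    rw [← Real.exp_add]; ring_nf
  rw [h3] at h
  have hc' : 0 < c ^ A := by positivity
  calc (1 + x) ^ A = (c ^ A * (1 + x) ^ A) / c ^ A := by field_simp
    _ ≤ (Real.exp c * Real.exp (c * x) * A.factorial) / c ^ A :=
        div_le_div_of_nonneg_right h hc'.le
    _ = _ := by ring

/-- the zeta function on the critical line -/
noncomputable def D22_zh (u : ℝ) : ℝ := ‖riemannZeta (1 / 2 + u * I)‖

lemma D22_zh_cont : Continuous D22_zh := U6.FM.fm_zeta_cont.norm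

lemma D22_zh_nonneg (u : ℝ) : 0 ≤ D22_zh u := norm_nonneg _

lemma D22_zh_bound : ∃ C : ℝ, 1 ≤ C ∧ ∀ u : ℝ, D22_zh u ≤ C * (1 + |u|) := by
  obtain ⟨C, hC1, hC⟩ := S6UZ.zeta_growth'
  refine ⟨C, hC1, fun u => ?_⟩
  have hre : (1 / 2 + u * I : ℂ).re = 1 / 2 := by simp
  have h1 : (1:ℝ)/2 ≤ ‖(1 / 2 + u * I : ℂ) - 1‖ := by
    have := Complex.abs_re_le_norm ((1 / 2 + u * I : ℂ) - 1)
    rw [Complex.sub_re, hre, Complex.one_re] at this
    norm_num at this
    norm_num
    exact this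
  refine (hC _ (by rw [hre]) h1).trans ?_
  refine mul_le_mul_of_nonneg_left ?_ (by linarith)
  refine (norm_add_le _ _).trans ?_
  simp only [norm_mul, Complex.norm_real, Complex.norm_I, mul_one, Real.norm_eq_abs]
  norm_num

lemma D22_zh_pow_int (A : ℕ) {c : ℝ} (hc : 0 < c) :
    Integrable fun u : ℝ => D22_zh u ^ A * Real.exp (-(c * |u|)) := by
  obtain ⟨C, hC1, hC⟩ := D22_zh_bound
  obtain ⟨C2, hC20, hC2⟩ := D22_pow_le_exp A (show 0 < c / 2 by positivity)
  refine ((D22_exp_abs_int (show 0 < c / 2 by positivity)).const_mul (C ^ A * C2)).mono' ?_ ?_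
  · exact ((D22_zh_cont.pow A).mul (by fun_prop)).aestronglyMeasurable
  · refine Filter.Eventually.of_forall fun u => ?_
    rw [Real.norm_eq_abs, abs_of_nonneg (mul_nonneg (pow_nonneg (D22_zh_nonneg u) _) (Real.exp_pos _).le)]
    have h1 : D22_zh u ^ A ≤ C ^ A * (C2 * Real.exp (c / 2 * |u|)) := by
      calc D22_zh u ^ A ≤ (C * (1 + |u|)) ^ A := pow_le_pow_left₀ (D22_zh_nonneg u) (hC u) A
        _ = C ^ A * (1 + |u|) ^ A := mul_pow _ _ _
        _ ≤ _ := mul_le_mul_of_nonneg_left (hC2 _ (abs_nonneg u)) (by positivity)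
    calc D22_zh u ^ A * Real.exp (-(c * |u|))
        ≤ C ^ A * (C2 * Real.exp (c / 2 * |u|)) * Real.exp (-(c * |u|)) :=
          mul_le_mul_of_nonneg_right h1 (Real.exp_pos _).le
      _ = C ^ A * C2 * (Real.exp (c / 2 * |u|) * Real.exp (-(c * |u|))) := by ring
      _ = C ^ A * C2 * Real.exp (-(c / 2 * |u|)) := by
          rw [← Real.exp_add]; congr 2; ring

lemma D22_zh_shift_int (A : ℕ) (t : ℝ) :
    Integrable fun u : ℝ => D22_zh u ^ A * Real.exp (-|u - t|) := by
  have h := (D22_zh_pow_int A one_pos).const_mul (Real.exp |t|)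
  refine h.mono' ?_ ?_
  · exact ((D22_zh_cont.pow A).mul (by fun_prop)).aestronglyMeasurable
  · refine Filter.Eventually.of_forall fun u => ?_
    rw [Real.norm_eq_abs, abs_of_nonneg (mul_nonneg (pow_nonneg (D22_zh_nonneg u) _) (Real.exp_pos _).le)]
    have h1 : Real.exp (-|u - t|) ≤ Real.exp |t| * Real.exp (-(1 * |u|)) := by
      rw [← Real.exp_add]
      refine Real.exp_le_exp.2 ?_
      have := abs_add_le (u - t) t
      rw [sub_add_cancel] at this
      linarith
    calc D22_zh u ^ A * Real.exp (-|u - t|) ≤ D22_zh u ^ A * (Real.exp |t| * Real.exp (-(1 * |u|))) :=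
          mul_le_mul_of_nonneg_left h1 (pow_nonneg (D22_zh_nonneg u) _)
      _ = _ := by ring

lemma D22_Zl_pow_le (A : ℕ) (hA : 1 ≤ A) (t : ℝ) :
    Zl (1 / 2) t ^ A ≤ 2 ^ A * ∫ u : ℝ, D22_zh u ^ A * Real.exp (-|u - t|) := by
  have h1 : ∀ B : ℕ, Integrable fun y : ℝ => D22_zh (t + y) ^ B * Real.exp (-|y|) := by
    intro B
    have := (D22_zh_shift_int B t).comp_add_left t
    simpa using this
  have h2 : Zl (1 / 2) t = ∫ y : ℝ, D22_zh (t + y) * Real.exp (-|y|) := by
    unfold Zl D22_zh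
    norm_num
  have h3 : ∫ u : ℝ, D22_zh u ^ A * Real.exp (-|u - t|) = ∫ y : ℝ, D22_zh (t + y) ^ A * Real.exp (-|y|) := by
    rw [← integral_add_left_eq_self (fun u : ℝ => D22_zh u ^ A * Real.exp (-|u - t|)) t]
    simp
  rw [h2, h3]
  exact D22_jensen_exp A hA (fun y => D22_zh_nonneg _) (by simpa using h1 1) (h1 A)

lemma D22_sum_Z_exp : Summable fun j : ℤ => Real.exp (-(|(j : ℝ)| / 2)) := by
  have h : Summable fun n : ℕ => Real.exp (-((n : ℝ) / 2)) := by
    have := Real.summable_exp_nat_mul_of_ge (c := -(1/2)) (by norm_num) (f := fun n => (n : ℝ)) (fun n => le_rfl)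
    refine this.congr fun n => ?_
    congr 1; ring
  refine Summable.of_nat_of_neg ?_ ?_
  · refine h.congr fun n => ?_
    simp
  · refine h.congr fun n => ?_
    simp

/-- exponential sums over separated sets -/
lemma D22_sep_sum : ∃ K : ℝ, 0 < K ∧ ∀ S : Finset ℝ, Sep S → ∀ u : ℝ,
    ∑ t ∈ S, Real.exp (-(|u - t| / 2)) ≤ K := by
  refine ⟨Real.exp (1 / 2) * ∑' j : ℤ, Real.exp (-(|(j : ℝ)| / 2)), ?_, ?_⟩
  · refine mul_pos (Real.exp_pos _) ?_
    exact D22_sum_Z_exp.tsum_pos (fun j => (Real.exp_pos _).le) 0 (Real.exp_pos _)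
  · intro S hS u
    have h1 : ∀ t ∈ S, Real.exp (-(|u - t| / 2)) ≤
        Real.exp (1 / 2) * Real.exp (-(|((⌊u⌋ - ⌊t⌋ : ℤ) : ℝ)| / 2)) := by
      intro t _
      rw [← Real.exp_add]
      refine Real.exp_le_exp.2 ?_
      have a1 := Int.floor_le u
      have a2 := Int.lt_floor_add_one u
      have a3 := Int.floor_le t
      have a4 := Int.lt_floor_add_one t
      have h : |((⌊u⌋ - ⌊t⌋ : ℤ) : ℝ)| ≤ |u - t| + 1 := by
        push_cast
        rw [abs_le]
        constructor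
        · have := neg_abs_le (u - t); linarith
        · have := le_abs_self (u - t); linarith
      linarith
    have hinj : Set.InjOn (fun t : ℝ => (⌊u⌋ - ⌊t⌋ : ℤ)) S := by
      intro s hs t ht hst
      by_contra hne
      have h := hS s hs t ht hne
      have h2 : ⌊s⌋ = ⌊t⌋ := by
        have : (⌊u⌋ - ⌊s⌋ : ℤ) = ⌊u⌋ - ⌊t⌋ := hst
        omega
      have := Int.abs_sub_lt_one_of_floor_eq_floor h2
      linarith
    calc ∑ t ∈ S, Real.exp (-(|u - t| / 2))
        ≤ ∑ t ∈ S, Real.exp (1 / 2) * Real.exp (-(|((⌊u⌋ - ⌊t⌋ : ℤ) : ℝ)| / 2)) :=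
          Finset.sum_le_sum h1
      _ = Real.exp (1 / 2) * ∑ t ∈ S, Real.exp (-(|((⌊u⌋ - ⌊t⌋ : ℤ) : ℝ)| / 2)) := by
          rw [Finset.mul_sum]
      _ = Real.exp (1 / 2) * ∑ j ∈ S.image (fun t : ℝ => (⌊u⌋ - ⌊t⌋ : ℤ)),
            Real.exp (-(|(j : ℝ)| / 2)) := by
          rw [Finset.sum_image hinj]
      _ ≤ _ := by
          refine mul_le_mul_of_nonneg_left ?_ (Real.exp_pos _).le
          exact D22_sum_Z_exp.sum_le_tsum _ fun j _ => (Real.exp_pos _).le

lemma D22_dyadic_piece (A : ℕ) {m C : ℝ} (hm : 0 ≤ m) (hC : 0 ≤ C)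
    (h : ∀ T : ℝ, 1 ≤ T → ∫ t in T..(2 * T), D22_zh t ^ A ≤ C * T ^ m) :
    ∃ C1 : ℝ, 0 ≤ C1 ∧ ∀ T : ℝ, 1 ≤ T → ∫ u in Icc (T / 2) (4 * T), D22_zh u ^ A ≤ C1 * T ^ m := by
  have hint : ∀ a b : ℝ, IntervalIntegrable (fun u => D22_zh u ^ A) volume a b :=
    fun a b => (D22_zh_cont.pow A).intervalIntegrable a b
  have hnn : ∀ u, 0 ≤ D22_zh u ^ A := fun u => pow_nonneg (D22_zh_nonneg u) A
  set J : ℝ := ∫ u in (1/2 : ℝ)..8, D22_zh u ^ A with hJ
  have hJ0 : 0 ≤ J := intervalIntegral.integral_nonneg (by norm_num) fun u _ => hnn u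
  refine ⟨C + C + C * 2 ^ m + J, by positivity, fun T hT => ?_⟩
  have hT0 : 0 < T := by linarith
  have hTm : 1 ≤ T ^ m := Real.one_le_rpow hT hm
  rw [integral_Icc_eq_integral_Ioc, ← intervalIntegral.integral_of_le (by linarith)]
  rcases le_total 2 T with h2 | h2
  · have e : ∫ u in (T / 2)..(4 * T), D22_zh u ^ A =
        (∫ u in (T / 2)..(2 * (T / 2)), D22_zh u ^ A) + (∫ u in T..(2 * T), D22_zh u ^ A) +
          ∫ u in (2 * T)..(2 * (2 * T)), D22_zh u ^ A := by
      rw [show 2 * (T / 2) = T by ring, show 2 * (2 * T) = 4 * T by ring,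
        intervalIntegral.integral_add_adjacent_intervals (hint _ _) (hint _ _),
        intervalIntegral.integral_add_adjacent_intervals (hint _ _) (hint _ _)]
    rw [e]
    have b1 := h (T / 2) (by linarith)
    have b2 := h T hT
    have b3 := h (2 * T) (by linarith)
    have c1 : (T / 2) ^ m ≤ T ^ m := Real.rpow_le_rpow (by positivity) (by linarith) hm
    have c3 : (2 * T) ^ m = 2 ^ m * T ^ m := Real.mul_rpow (by norm_num) hT0.le
    rw [c3] at b3
    have d1 : C * (T / 2) ^ m ≤ C * T ^ m := mul_le_mul_of_nonneg_left c1 hC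
    have d2 : 0 ≤ J * T ^ m := by positivity
    nlinarith
  · have e : ∫ u in (T / 2)..(4 * T), D22_zh u ^ A ≤ J := by
      rw [hJ]
      refine intervalIntegral.integral_mono_interval (by linarith) (by linarith) (by linarith) ?_ (hint _ _)
      exact Filter.Eventually.of_forall fun u => hnn u
    have d1 : J * 1 ≤ J * T ^ m := mul_le_mul_of_nonneg_left hTm hJ0
    have d2 : 0 ≤ (C + C + C * 2 ^ m) * T ^ m := by positivity
    linarith

/-- **R22** -/
theorem sum_Zl (A : ℕ) (hA : 1 ≤ A) {m : ℝ} (hm : 0 ≤ m)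
    (h : ∃ C : ℝ, ∀ T : ℝ, 1 ≤ T →
      ∫ t in T..(2 * T), ‖riemannZeta (1 / 2 + t * I)‖ ^ A ≤ C * T ^ m) :
    ∃ C : ℝ, 0 < C ∧ ∀ T : ℝ, 1 ≤ T → ∀ S : Finset ℝ, Sep S → (∀ t ∈ S, T ≤ t ∧ t ≤ 2 * T) →
      ∑ t ∈ S, Zl (1 / 2) t ^ A ≤ C * T ^ m := by
  obtain ⟨C0, hC0⟩ := h
  obtain ⟨C1, hC10, hC1⟩ := D22_dyadic_piece A hm (abs_nonneg C0) (fun T hT =>
    (hC0 T hT).trans (mul_le_mul_of_nonneg_right (le_abs_self C0)
      (Real.rpow_nonneg (by linarith) _)))
  obtain ⟨K, hK0, hK⟩ := D22_sep_sum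
  set J : ℝ := ∫ u : ℝ, D22_zh u ^ A * Real.exp (-(1 / 4 * |u|)) with hJ
  have hJ0 : 0 ≤ J := integral_nonneg fun u => mul_nonneg (pow_nonneg (D22_zh_nonneg u) _) (Real.exp_pos _).le
  refine ⟨2 ^ A * (K * (C1 + J)) + 1, by positivity, fun T hT S hS hST => ?_⟩
  have hTm : 1 ≤ T ^ m := Real.one_le_rpow hT hm
  have hsum : ∑ t ∈ S, Zl (1 / 2) t ^ A ≤
      2 ^ A * ∫ u : ℝ, D22_zh u ^ A * ∑ t ∈ S, Real.exp (-|u - t|) := by
    calc ∑ t ∈ S, Zl (1 / 2) t ^ A
        ≤ ∑ t ∈ S, 2 ^ A * ∫ u : ℝ, D22_zh u ^ A * Real.exp (-|u - t|) :=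
          Finset.sum_le_sum fun t _ => D22_Zl_pow_le A hA t
      _ = 2 ^ A * ∫ u : ℝ, ∑ t ∈ S, D22_zh u ^ A * Real.exp (-|u - t|) := by
          rw [← Finset.mul_sum, integral_finsetSum _ fun t _ => D22_zh_shift_int A t]
      _ = _ := by simp only [Finset.mul_sum]
  have hI1 : Integrable fun u : ℝ => D22_zh u ^ A * ∑ t ∈ S, Real.exp (-|u - t|) := by
    simp only [Finset.mul_sum]
    exact integrable_finsetSum _ fun t _ => D22_zh_shift_int A t
  have hloc : IntegrableOn (fun u => D22_zh u ^ A) (Icc (T / 2) (4 * T)) :=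
    (D22_zh_cont.pow A).integrableOn_Icc
  have hI2 : Integrable fun u : ℝ => K * ((Icc (T / 2) (4 * T)).indicator (fun u => D22_zh u ^ A) u +
      D22_zh u ^ A * Real.exp (-(1 / 4 * |u|))) :=
    ((hloc.integrable_indicator measurableSet_Icc).add (D22_zh_pow_int A (by norm_num))).const_mul K
  have hmono : ∫ u : ℝ, D22_zh u ^ A * ∑ t ∈ S, Real.exp (-|u - t|) ≤
      ∫ u : ℝ, K * ((Icc (T / 2) (4 * T)).indicator (fun u => D22_zh u ^ A) u +
      D22_zh u ^ A * Real.exp (-(1 / 4 * |u|))) := by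
    refine integral_mono hI1 hI2 fun u => ?_
    simp only
    have hz : 0 ≤ D22_zh u ^ A := pow_nonneg (D22_zh_nonneg u) A
    by_cases hu : u ∈ Icc (T / 2) (4 * T)
    · rw [indicator_of_mem hu]
      have h1 : ∑ t ∈ S, Real.exp (-|u - t|) ≤ K := by
        refine le_trans (Finset.sum_le_sum fun t _ => ?_) (hK S hS u)
        refine Real.exp_le_exp.2 ?_
        have := abs_nonneg (u - t)
        linarith
      have h2 : D22_zh u ^ A * ∑ t ∈ S, Real.exp (-|u - t|) ≤ D22_zh u ^ A * K :=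
        mul_le_mul_of_nonneg_left h1 hz
      have h3 : 0 ≤ K * (D22_zh u ^ A * Real.exp (-(1 / 4 * |u|))) := by positivity
      linarith
    · rw [indicator_of_notMem hu]
      have h1 : ∑ t ∈ S, Real.exp (-|u - t|) ≤ K * Real.exp (-(1 / 4 * |u|)) := by
        calc ∑ t ∈ S, Real.exp (-|u - t|)
            ≤ ∑ t ∈ S, Real.exp (-(|u - t| / 2)) * Real.exp (-(1 / 4 * |u|)) := by
              refine Finset.sum_le_sum fun t ht => ?_
              rw [← Real.exp_add]
              refine Real.exp_le_exp.2 ?_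
              obtain ⟨t1, t2⟩ := hST t ht
              have : |u| ≤ 2 * |u - t| := by
                have hu' : u < T / 2 ∨ 4 * T < u := by
                  by_contra hcon
                  push Not at hcon
                  exact hu ⟨hcon.1, hcon.2⟩
                rcases hu' with hu' | hu'
                · rw [abs_of_neg (show u - t < 0 by linarith), abs_le]
                  constructor <;> linarith
                · rw [abs_of_pos (show 0 < u - t by linarith), abs_le]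
                  constructor <;> linarith
              linarith
          _ = (∑ t ∈ S, Real.exp (-(|u - t| / 2))) * Real.exp (-(1 / 4 * |u|)) := by
              rw [Finset.sum_mul]
          _ ≤ K * Real.exp (-(1 / 4 * |u|)) :=
              mul_le_mul_of_nonneg_right (hK S hS u) (Real.exp_pos _).le
      calc D22_zh u ^ A * ∑ t ∈ S, Real.exp (-|u - t|) ≤ D22_zh u ^ A * (K * Real.exp (-(1 / 4 * |u|))) :=
            mul_le_mul_of_nonneg_left h1 hz
        _ = _ := by ring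
  have heval : ∫ u : ℝ, K * ((Icc (T / 2) (4 * T)).indicator (fun u => D22_zh u ^ A) u +
      D22_zh u ^ A * Real.exp (-(1 / 4 * |u|))) =
      K * ((∫ u in Icc (T / 2) (4 * T), D22_zh u ^ A) + J) := by
    rw [integral_const_mul, integral_add (hloc.integrable_indicator measurableSet_Icc)
      (D22_zh_pow_int A (by norm_num)), integral_indicator measurableSet_Icc]
  rw [heval] at hmono
  have h1 := hC1 T hT
  have h2 : J * 1 ≤ J * T ^ m := mul_le_mul_of_nonneg_left hTm hJ0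
  have h3 : K * ((∫ u in Icc (T / 2) (4 * T), D22_zh u ^ A) + J) ≤ K * ((C1 + J) * T ^ m) := by
    refine mul_le_mul_of_nonneg_left ?_ hK0.le
    linarith
  have h4 : (2:ℝ) ^ A * ∫ u : ℝ, D22_zh u ^ A * ∑ t ∈ S, Real.exp (-|u - t|) ≤
      2 ^ A * (K * ((C1 + J) * T ^ m)) :=
    mul_le_mul_of_nonneg_left (hmono.trans h3) (by positivity)
  calc ∑ t ∈ S, Zl (1 / 2) t ^ A ≤ 2 ^ A * (K * ((C1 + J) * T ^ m)) := hsum.trans h4
    _ ≤ _ := by nlinarith

end OL
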