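import Pool.Agent.Lib.MP_39df77_nt.OL.Defs

/-! R23: dyadic decomposition of the smoothed Dirichlet series. -/

set_option autoImplicit false

open Complex MeasureTheory Set Filter

namespace OL

/-- the general term of `Sx` -/
noncomputable def D23_gx (σ X t : ℝ) (n : ℕ) : ℂ :=
  ((Real.exp (-((n : ℝ) / X)) * (n : ℝ) ^ (-σ) : ℝ) : ℂ) * ei (-(t * Real.log n))

lemma D23_norm_ei' (x : ℝ) : ‖ei x‖ = 1 := by
  unfold ei
  exact Complex.norm_exp_ofReal_mul_I x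

lemma D23_Sx_eq (σ X t : ℝ) : Sx σ X t = ∑' n : ℕ, D23_gx σ X t (n + 1) := by
  unfold Sx D23_gx
  refine tsum_congr fun n => ?_
  push_cast
  rfl

lemma D23_norm_gx_le {σ X : ℝ} (h0 : 0 ≤ σ) (t : ℝ) (n : ℕ) :
    ‖D23_gx σ X t (n + 1)‖ ≤ Real.exp (-(((n : ℝ) + 1) / X)) := by
  unfold D23_gx
  rw [norm_mul, D23_norm_ei', mul_one, Complex.norm_real, Real.norm_eq_abs,
    abs_of_nonneg (by positivity)]
  push_cast
  have : ((n : ℝ) + 1) ^ (-σ) ≤ 1 :=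
    Real.rpow_le_one_of_one_le_of_nonpos (by linarith [Nat.cast_nonneg (α := ℝ) n]) (by linarith)
  nlinarith [Real.exp_pos (-(((n : ℝ) + 1) / X))]

lemma D23_exp_geom {X : ℝ} (hX : 0 < X) (M : ℕ) :
    HasSum (fun n : ℕ => Real.exp (-((((n + M : ℕ) : ℝ) + 1) / X)))
      (Real.exp (-(((M : ℝ) + 1) / X)) * (1 - Real.exp (-(1 / X)))⁻¹) := by
  have h1 : Real.exp (-(1 / X)) < 1 := by
    rw [Real.exp_lt_one_iff]
    have : 0 < 1 / X := by positivity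
    linarith
  have h := (hasSum_geometric_of_lt_one (Real.exp_pos (-(1 / X))).le h1).mul_left
    (Real.exp (-(((M : ℝ) + 1) / X)))
  have e1 : (fun n : ℕ => Real.exp (-((((n + M : ℕ) : ℝ) + 1) / X))) =
      fun n : ℕ => Real.exp (-(((M : ℝ) + 1) / X)) * Real.exp (-(1 / X)) ^ n := by
    funext n
    rw [← Real.exp_nat_mul, ← Real.exp_add]
    congr 1
    push_cast
    ring
  rw [e1]
  exact h

lemma D23_geom_le {X : ℝ} (hX : 0 < X) : (1 - Real.exp (-(1 / X)))⁻¹ ≤ 1 + X := by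
  have h1 : 0 < 1 / X := by positivity
  have h2 : Real.exp (-(1 / X)) ≤ 1 / (1 + 1 / X) := by
    rw [Real.exp_neg, ← one_div]
    exact one_div_le_one_div_of_le (by positivity) (by linarith [Real.add_one_le_exp (1 / X)])
  have h3 : 1 / (1 + X) ≤ 1 - Real.exp (-(1 / X)) := by
    have : 1 / (1 + 1 / X) = 1 - 1 / (1 + X) := by field_simp; ring
    rw [this] at h2
    linarith
  have h4 : (0:ℝ) < 1 / (1 + X) := by positivity
  calc (1 - Real.exp (-(1 / X)))⁻¹ ≤ (1 / (1 + X))⁻¹ := inv_anti₀ h4 h3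
    _ = 1 + X := by simp

lemma D23_gx_summable {σ X : ℝ} (h0 : 0 ≤ σ) (hX : 0 < X) (t : ℝ) :
    Summable fun n : ℕ => D23_gx σ X t (n + 1) := by
  refine Summable.of_norm_bounded ?_ (fun n => D23_norm_gx_le h0 t n)
  have := (D23_exp_geom hX 0).summable
  simpa using this

lemma D23_gx_tail {σ X : ℝ} (h0 : 0 ≤ σ) (hX : 0 < X) (t : ℝ) (M : ℕ) :
    ‖Sx σ X t - ∑ n ∈ Finset.range M, D23_gx σ X t (n + 1)‖ ≤
      Real.exp (-((M : ℝ) / X)) * (1 + X) := by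
  have hs := D23_gx_summable h0 hX t
  rw [D23_Sx_eq, ← hs.sum_add_tsum_nat_add M, add_sub_cancel_left]
  have hg := D23_exp_geom hX M
  have hb : ∀ n : ℕ, ‖D23_gx σ X t (n + M + 1)‖ ≤ Real.exp (-((((n + M : ℕ) : ℝ) + 1) / X)) :=
    fun n => D23_norm_gx_le h0 t (n + M)
  have hn : Summable fun n : ℕ => ‖D23_gx σ X t (n + M + 1)‖ :=
    Summable.of_nonneg_of_le (fun _ => norm_nonneg _) hb hg.summable
  calc ‖∑' n : ℕ, D23_gx σ X t (n + M + 1)‖ ≤ ∑' n : ℕ, ‖D23_gx σ X t (n + M + 1)‖ := norm_tsum_le_tsum_norm hn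
    _ ≤ ∑' n : ℕ, Real.exp (-((((n + M : ℕ) : ℝ) + 1) / X)) := hn.tsum_le_tsum hb hg.summable
    _ = Real.exp (-(((M : ℝ) + 1) / X)) * (1 - Real.exp (-(1 / X)))⁻¹ := hg.tsum_eq
    _ ≤ Real.exp (-((M : ℝ) / X)) * (1 + X) := by
        refine mul_le_mul ?_ (D23_geom_le hX) ?_ (Real.exp_pos _).le
        · refine Real.exp_le_exp.2 ?_
          have : (M : ℝ) / X ≤ ((M : ℝ) + 1) / X := div_le_div_of_nonneg_right (by linarith) hX.le
          linarith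
        · have h1 : Real.exp (-(1 / X)) < 1 := by
            rw [Real.exp_lt_one_iff]
            have : 0 < 1 / X := by positivity
            linarith
          exact inv_nonneg.2 (by linarith)

lemma D23_dyadic_sum (f : ℕ → ℂ) (J : ℕ) :
    ∑ n ∈ Finset.range (2 ^ J), f (n + 1) =
      f 1 + ∑ j ∈ Finset.range J, ∑ n ∈ Finset.Ioc (2 ^ j) (2 * 2 ^ j), f n := by
  induction J with
  | zero => simp
  | succ J ih =>
    rw [Finset.sum_range_succ, ← add_assoc, ← ih]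
    have h1 : ∑ n ∈ Finset.Ioc (2 ^ J) (2 * 2 ^ J), f n =
        ∑ n ∈ Finset.Ico (2 ^ J) (2 ^ (J + 1)), f (n + 1) := by
      rw [Finset.sum_Ico_add' f (2 ^ J) (2 ^ (J + 1)) 1]
      refine Finset.sum_congr ?_ fun _ _ => rfl
      ext n
      simp only [Finset.mem_Ioc, Finset.mem_Ico]
      rw [pow_succ]
      omega
    rw [h1, ← Finset.sum_range_add_sum_Ico _ (Nat.pow_le_pow_right (by norm_num) (Nat.le_succ J))]

/-- coefficients of a dyadic block -/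
noncomputable def D23_ablk (σ X : ℝ) (N n : ℕ) : ℂ :=
  if N < n then ((Real.exp (-((n : ℝ) / X)) * ((N : ℝ) ^ σ * (n : ℝ) ^ (-σ)) : ℝ) : ℂ) else 0

lemma D23_ablk_le {σ X : ℝ} (h0 : 0 ≤ σ) (hX : 0 < X) {N : ℕ} (hN : 1 ≤ N) (n : ℕ) :
    ‖D23_ablk σ X N n‖ ≤ 1 := by
  unfold D23_ablk
  split_ifs with h
  · rw [Complex.norm_real, Real.norm_eq_abs, abs_of_nonneg (by positivity)]
    have h1 : Real.exp (-((n : ℝ) / X)) ≤ 1 := by
      rw [Real.exp_le_one_iff]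
      have : 0 ≤ (n : ℝ) / X := by positivity
      linarith
    have hn : (0:ℝ) < n := by exact_mod_cast (by omega : 0 < n)
    have h2 : (N : ℝ) ^ σ * (n : ℝ) ^ (-σ) ≤ 1 := by
      rw [Real.rpow_neg hn.le, ← div_eq_mul_inv, div_le_one (by positivity)]
      exact Real.rpow_le_rpow (by positivity) (by exact_mod_cast h.le) h0
    calc Real.exp (-((n : ℝ) / X)) * ((N : ℝ) ^ σ * (n : ℝ) ^ (-σ)) ≤ 1 * 1 :=
          mul_le_mul h1 h2 (by positivity) zero_le_one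
      _ = 1 := one_mul 1
  · simp

lemma D23_Dn_ablk {σ X : ℝ} (N : ℕ) (t : ℝ) :
    Dn (D23_ablk σ X N) N t =
      (((N : ℝ) ^ σ : ℝ) : ℂ) * ∑ n ∈ Finset.Ioc N (2 * N), D23_gx σ X t n := by
  unfold Dn
  rw [Finset.mul_sum]
  refine Finset.sum_congr rfl fun n hn => ?_
  rw [Finset.mem_Ioc] at hn
  unfold D23_ablk D23_gx
  rw [if_pos hn.1]
  push_cast
  ring

lemma D23_grow_ev {e : ℝ} (he : 0 < e) : ∃ X0 : ℝ, 1 ≤ X0 ∧ ∀ X : ℝ, X0 ≤ X →
    4 / 3 * (2 * (1 + e) * Real.log X + 1) ≤ X ^ e ∧ Real.exp (-(X ^ e)) * (1 + X) ≤ 1 := by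
  have h1 : ∀ᶠ X : ℝ in atTop, Real.log X ≤ (1 / (8 * (1 + e))) * X ^ e := by
    have h := (isLittleO_log_rpow_atTop he).bound (show 0 < 1 / (8 * (1 + e)) by positivity)
    filter_upwards [h, eventually_ge_atTop 1] with X hX hX1
    rw [Real.norm_eq_abs, Real.norm_eq_abs, abs_of_nonneg (Real.log_nonneg hX1),
      abs_of_nonneg (by positivity)] at hX
    exact hX
  have h2 : ∀ᶠ X : ℝ in atTop, 4 ≤ X ^ e := (tendsto_rpow_atTop he).eventually_ge_atTop 4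
  have h3 : ∀ᶠ X : ℝ in atTop, Real.exp (-(X ^ e)) * (1 + X) ≤ 1 := by
    have t1 := (tendsto_rpow_mul_exp_neg_mul_atTop_nhds_zero (1 / e) 1 one_pos).comp
      (tendsto_rpow_atTop he)
    have t2 := (tendsto_rpow_mul_exp_neg_mul_atTop_nhds_zero 0 1 one_pos).comp
      (tendsto_rpow_atTop he)
    have t3 := t1.add t2
    rw [add_zero] at t3
    have t4 := t3.eventually_le_const (show (0:ℝ) < 1 by norm_num)
    filter_upwards [t4, eventually_ge_atTop 1] with X hX hX1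
    simp only [Function.comp, Real.rpow_zero, one_mul] at hX
    have e1 : (X ^ e) ^ (1 / e) = X := by
      rw [← Real.rpow_mul (by linarith), mul_one_div_cancel he.ne', Real.rpow_one]
    rw [e1, neg_one_mul] at hX
    linarith
  obtain ⟨X0, hX0⟩ := eventually_atTop.1 (h1.and (h2.and h3))
  refine ⟨max X0 1, le_max_right _ _, fun X hX => ?_⟩
  obtain ⟨a1, a2, a3⟩ := hX0 X ((le_max_left _ _).trans hX)
  refine ⟨?_, a3⟩
  have : 2 * (1 + e) * Real.log X ≤ 2 * (1 + e) * (1 / (8 * (1 + e)) * X ^ e) :=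
    mul_le_mul_of_nonneg_left a1 (by positivity)
  have e2 : 2 * (1 + e) * (1 / (8 * (1 + e)) * X ^ e) = X ^ e / 4 := by field_simp; ring
  rw [e2] at this
  linarith

/-- **R23** -/
theorem dyadic_block {σ : ℝ} (h0 : 0 ≤ σ) {e : ℝ} (he : 0 < e) :
    ∃ X0 : ℝ, 1 ≤ X0 ∧ ∀ X : ℝ, X0 ≤ X → ∀ U : ℝ, 8 ≤ U → ∀ S : Finset ℝ,
      (∀ t ∈ S, U ≤ ‖Sx σ X t‖) →
      ∃ N : ℕ, 1 ≤ N ∧ (N : ℝ) ≤ X ^ (1 + e) ∧ ∃ a : ℕ → ℂ, (∀ n, ‖a n‖ ≤ 1) ∧
        ∃ S' ⊆ S, (S.card : ℝ) ≤ X ^ e * S'.card ∧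
          ∀ t ∈ S', (N : ℝ) ^ σ * U ≤ X ^ e * ‖Dn a N t‖ := by
  obtain ⟨X0, hX01, hX0⟩ := D23_grow_ev he
  refine ⟨X0, hX01, fun X hX U hU S hS => ?_⟩
  obtain ⟨g1, g2⟩ := hX0 X hX
  have hX1 : 1 ≤ X := hX01.trans hX
  have hXp : 0 < X := by linarith
  have hXe : 1 ≤ X ^ (1 + e) := Real.one_le_rpow hX1 (by linarith)
  set M0 : ℕ := ⌊X ^ (1 + e)⌋₊ with hM0
  have hM01 : 1 ≤ M0 := Nat.le_floor (by simpa using hXe)
  set J : ℕ := Nat.log 2 M0 with hJ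
  have hJ1 : 2 ^ J ≤ M0 := Nat.pow_log_le_self 2 (by omega)
  have hJ2 : M0 < 2 ^ (J + 1) := Nat.lt_pow_succ_log_self (by norm_num) M0
  have hJ3 : X ^ (1 + e) ≤ (2 : ℝ) ^ (J + 1) := by
    have h1 : X ^ (1 + e) < (M0 : ℝ) + 1 := Nat.lt_floor_add_one _
    have h2 : (M0 : ℝ) + 1 ≤ (2 : ℝ) ^ (J + 1) := by exact_mod_cast hJ2
    linarith
  have hJ4 : (2 : ℝ) ^ J ≤ X ^ (1 + e) := by
    have h1 : ((2 ^ J : ℕ) : ℝ) ≤ M0 := by exact_mod_cast hJ1
    have h2 : (M0 : ℝ) ≤ X ^ (1 + e) := Nat.floor_le (by positivity)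
    push_cast at h1
    linarith
  have hJ5 : (J : ℝ) ≤ 2 * (1 + e) * Real.log X := by
    have h1 := Real.log_le_log (by positivity) hJ4
    rw [Real.log_pow, Real.log_rpow hXp] at h1
    have h2 : (1:ℝ) / 2 ≤ Real.log 2 := by linarith [Real.log_two_gt_d9]
    have h3 : (J : ℝ) * (1 / 2) ≤ J * Real.log 2 := mul_le_mul_of_nonneg_left h2 (by positivity)
    linarith
  have hJe : 4 / 3 * ((J : ℝ) + 1) ≤ X ^ e := by linarith
  have hJpos : (0:ℝ) < (J : ℝ) + 1 := by positivity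
  -- decomposition
  have key : ∀ t ∈ S, ∃ j ∈ Finset.range (J + 1),
      3 / 4 * U / ((J : ℝ) + 1) ≤ ‖∑ n ∈ Finset.Ioc (2 ^ j) (2 * 2 ^ j), D23_gx σ X t n‖ := by
    intro t ht
    have h1 := hS t ht
    have h2 := D23_gx_tail h0 hXp t (2 ^ (J + 1))
    have h3 : Real.exp (-(((2 ^ (J + 1) : ℕ) : ℝ) / X)) * (1 + X) ≤ 1 := by
      refine le_trans (mul_le_mul_of_nonneg_right (Real.exp_le_exp.2 ?_) (by linarith)) g2
      have : X ^ e ≤ ((2 ^ (J + 1) : ℕ) : ℝ) / X := by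
        rw [le_div_iff₀ hXp]
        push_cast
        calc X ^ e * X = X ^ (1 + e) := by
              rw [add_comm, Real.rpow_add hXp, Real.rpow_one]
          _ ≤ _ := hJ3
      linarith
    rw [D23_dyadic_sum] at h2
    have h4 : ‖D23_gx σ X t 1‖ ≤ 1 := by
      have := D23_norm_gx_le (X := X) h0 t 0
      simp only [zero_add] at this
      refine this.trans ?_
      rw [Real.exp_le_one_iff]
      have : 0 ≤ (((0:ℕ):ℝ) + 1) / X := by positivity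
      linarith
    by_contra hcon
    push Not at hcon
    have h5 : ‖∑ j ∈ Finset.range (J + 1), ∑ n ∈ Finset.Ioc (2 ^ j) (2 * 2 ^ j), D23_gx σ X t n‖ <
        3 / 4 * U := by
      refine (norm_sum_le _ _).trans_lt ?_
      have := Finset.sum_lt_sum_of_nonempty (s := Finset.range (J + 1)) (by simp)
        (f := fun j => ‖∑ n ∈ Finset.Ioc (2 ^ j) (2 * 2 ^ j), D23_gx σ X t n‖)
        (g := fun _ => 3 / 4 * U / ((J : ℝ) + 1)) (fun j hj => hcon j hj)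
      refine this.trans_le (le_of_eq ?_)
      rw [Finset.sum_const, Finset.card_range, nsmul_eq_mul]
      push_cast
      field_simp
    have h6 : ‖Sx σ X t‖ ≤ ‖Sx σ X t - (D23_gx σ X t 1 + ∑ j ∈ Finset.range (J + 1),
        ∑ n ∈ Finset.Ioc (2 ^ j) (2 * 2 ^ j), D23_gx σ X t n)‖ + (‖D23_gx σ X t 1‖ +
        ‖∑ j ∈ Finset.range (J + 1), ∑ n ∈ Finset.Ioc (2 ^ j) (2 * 2 ^ j), D23_gx σ X t n‖) := by
      calc ‖Sx σ X t‖ = ‖(Sx σ X t - (D23_gx σ X t 1 + ∑ j ∈ Finset.range (J + 1),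
        ∑ n ∈ Finset.Ioc (2 ^ j) (2 * 2 ^ j), D23_gx σ X t n)) + (D23_gx σ X t 1 +
        ∑ j ∈ Finset.range (J + 1), ∑ n ∈ Finset.Ioc (2 ^ j) (2 * 2 ^ j), D23_gx σ X t n)‖ := by
            rw [sub_add_cancel]
        _ ≤ _ := (norm_add_le _ _).trans (add_le_add_right (norm_add_le _ _) _)
    linarith
  classical
  choose! jf hjf1 hjf2 using key
  obtain ⟨j, hj, hjc⟩ := Finset.exists_le_card_fiber_of_nsmul_le_card_of_maps_to (s := S)
    (t := Finset.range (J + 1)) (f := jf) (b := (S.card : ℝ) / ((J : ℝ) + 1)) hjf1 (by simp) (by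
      rw [Finset.card_range, nsmul_eq_mul]
      push_cast
      rw [mul_div_cancel₀ _ hJpos.ne'])
  refine ⟨2 ^ j, Nat.one_le_two_pow, ?_, D23_ablk σ X (2 ^ j), D23_ablk_le h0 hXp Nat.one_le_two_pow,
    S.filter (fun x => jf x = j), Finset.filter_subset _ _, ?_, ?_⟩
  · push_cast
    refine le_trans (pow_le_pow_right₀ (by norm_num) ?_) hJ4
    have := Finset.mem_range.1 hj
    omega
  · rw [div_le_iff₀ hJpos] at hjc
    refine hjc.trans ?_
    rw [mul_comm]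
    refine mul_le_mul_of_nonneg_right ?_ (by positivity)
    linarith
  · intro t ht
    rw [Finset.mem_filter] at ht
    have h1 := hjf2 t ht.1
    rw [ht.2] at h1
    rw [D23_Dn_ablk, norm_mul, Complex.norm_real, Real.norm_eq_abs, abs_of_nonneg (by positivity)]
    rw [div_le_iff₀ hJpos] at h1
    set Q := ‖∑ n ∈ Finset.Ioc (2 ^ j) (2 * 2 ^ j), D23_gx σ X t n‖ with hQ
    have hQ0 : 0 ≤ Q := norm_nonneg _
    have h2 : U ≤ X ^ e * Q := by
      have h3 : U ≤ 4 / 3 * ((J : ℝ) + 1) * Q := by linarith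
      exact h3.trans (mul_le_mul_of_nonneg_right hJe hQ0)
    have h4 : (0:ℝ) ≤ (((2 ^ j : ℕ) : ℝ)) ^ σ := by positivity
    calc (((2 ^ j : ℕ) : ℝ)) ^ σ * U ≤ (((2 ^ j : ℕ) : ℝ)) ^ σ * (X ^ e * Q) :=
          mul_le_mul_of_nonneg_left h2 h4
      _ = _ := by ring

end OL
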