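import Mathlib

/-! Exponents for the level sets of `ζ(7/12 - c1 + it)`, rows R24. -/

set_option autoImplicit false

namespace OL.R25

/-- the exponent `w` of the size of a block -/
noncomputable def wexp (c e v y ν : ℝ) : ℝ := v + (7 / 12 - c / 1000) * ν - e * y

/-- the three ways to bound a block -/
def Cond (c e v y ν : ℝ) : Prop :=
  ν ≤ 2 / 5 - c ∨
  ((5 / 3 + 4 * c / 1000) * ν + 2 * v ≤ 1 ∧ (1 + 12 * c / 1000) * ν ≤ 6 * v) ∨
  (2 / 5 - c ≤ ν ∧ ν ≤ 1 / 2 - 1 / 340 ∧ 3 / 4 * ν - c / 2 ≤ wexp c e v y ν ∧ 1 - c - ν ≤ 1 - 6 * v)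

lemma expo_low {c e v y ν : ℝ} (hc : 0 < c) (hc2 : c ≤ 1 / 1700) (hν0 : 0 ≤ ν) (hν : ν ≤ 2 / 5 - c) :
    max 1 (3 * ν) + 3 * ν - 6 * wexp c e v y ν ≤ 1 - 6 * v + 6 * (e * y) := by
  have h1 : 0 ≤ c * ν := mul_nonneg hc.le hν0
  have h2 : c * ν ≤ c * (2 / 5) := mul_le_mul_of_nonneg_left (by linarith) hc.le
  unfold wexp
  rcases le_total (3 * ν) 1 with h | h
  · rw [max_eq_left h]
    have : c * ν ≤ 1 / 1700 * ν := mul_le_mul_of_nonneg_right hc2 hν0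
    nlinarith
  · rw [max_eq_right h]
    nlinarith

lemma expo_gamma {c e v y ν : ℝ} (h1 : (5 / 3 + 4 * c / 1000) * ν + 2 * v ≤ 1)
    (h2 : (1 + 12 * c / 1000) * ν ≤ 6 * v) :
    4 * ν - 4 * wexp c e v y ν ≤ 1 - 6 * v + 4 * (e * y) ∧
    1 + 8 * ν - 12 * wexp c e v y ν ≤ 1 - 6 * v + 12 * (e * y) := by
  unfold wexp
  constructor
  · nlinarith
  · nlinarith

/-- Region I -/
lemma regI {c e v y ν : ℝ} (hc : 0 < c) (hc2 : c ≤ 1 / 1700) (he : 0 < e) (he2 : e ≤ c / 100000)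
    (hv : 0 < v) (hv2 : v ≤ 1 / 12 - 1 / 1700) (hy : y = (6 + c / 10) * v)
    (hν0 : 0 ≤ ν) (hν : ν ≤ (1 + e) * y) : Cond c e v y ν := by
  have hcv : c * v ≤ c * (1 / 12) := mul_le_mul_of_nonneg_left (by linarith) hc.le
  have hcv0 : 0 ≤ c * v := by positivity
  have hyb : y ≤ 6 * v + c / 120 := by rw [hy]; nlinarith
  have hy0 : 0 ≤ y := by rw [hy]; positivity
  have hy1 : y ≤ 1 := by linarith
  have hey : e * y ≤ e := by nlinarith
  have hey0 : 0 ≤ e * y := by positivity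
  have hν1 : ν ≤ 1 := by nlinarith
  have hνb : ν ≤ 6 * v + c / 120 + e := by nlinarith
  have hcν0 : 0 ≤ c * ν := mul_nonneg hc.le hν0
  have hcν : c * ν ≤ c := by nlinarith
  unfold Cond
  by_cases h : ν ≤ 2 / 5 - c
  · exact Or.inl h
  right
  push Not at h
  by_cases h6 : ν ≤ 6 * v - c
  · left
    have hcν2 : c * ν ≤ c * (6 * v) := mul_le_mul_of_nonneg_left (by linarith) hc.le
    constructor
    · nlinarith
    · nlinarith
  · right
    push Not at h6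
    refine ⟨h.le, by linarith, ?_, by linarith⟩
    unfold wexp
    nlinarith

/-- Region II -/
lemma regII {c e v y ν : ℝ} (hc : 0 < c) (hc2 : c ≤ 1 / 1700) (he : 0 < e) (he2 : e ≤ c / 100000)
    (hv : 1 / 12 - 1 / 1700 ≤ v) (hv2 : v ≤ 1 / 12 + 1 / 1700) (hy : y = 1 / 2 - 1 / 85)
    (hν0 : 0 ≤ ν) (hν : ν ≤ (1 + e) * y) : Cond c e v y ν := by
  have hν1 : ν ≤ 1 / 2 - 1 / 85 + e := by rw [hy] at hν; nlinarith
  have hcν0 : 0 ≤ c * ν := mul_nonneg hc.le hν0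
  have hcν : c * ν ≤ c * (1 / 2) := mul_le_mul_of_nonneg_left (by linarith) hc.le
  right; left
  constructor
  · nlinarith
  · nlinarith

/-- Region III -/
lemma regIII {c e v y ν : ℝ} (hc : 0 < c) (hc2 : c ≤ 1 / 1700) (he : 0 < e) (he2 : e ≤ c / 100000)
    (hv : 1 / 12 + 1 / 1700 ≤ v) (hy : y = max (1 - 6 * v) 0 + 1 / 1700)
    (hν0 : 0 ≤ ν) (hν : ν ≤ (1 + e) * y) : Cond c e v y ν := by
  by_cases h : ν ≤ 2 / 5 - c
  · exact Or.inl h
  push Not at h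
  rcases le_total (1 - 6 * v) 0 with h0 | h0
  · rw [max_eq_right h0] at hy
    exfalso
    rw [hy] at hν
    nlinarith
  rw [max_eq_left h0] at hy
  have hy1 : y ≤ 1 := by linarith
  have hν1 : ν ≤ 1 - 6 * v + 1 / 1700 + e := by
    have : e * y ≤ e := by nlinarith
    nlinarith
  have hcν0 : 0 ≤ c * ν := mul_nonneg hc.le hν0
  have hcν : c * ν ≤ c * 1 := mul_le_mul_of_nonneg_left (by linarith) hc.le
  right; left
  constructor
  · nlinarith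
  · nlinarith

lemma secI {c e v y : ℝ} (hc : 0 < c) (hc2 : c ≤ 1 / 1700) (hv : 0 < v) (hy : y = (6 + c / 10) * v) :
    (1 + e) - 4 * v - 4 * ((1 / 12 - c / 1000) * y) ≤ 1 - 6 * v + e := by
  have h1 : 0 ≤ c * v := by positivity
  have h2 : c * (c * v) ≤ 1 / 1700 * (c * v) := mul_le_mul_of_nonneg_right hc2 h1
  rw [hy]; nlinarith

lemma secII {c v y : ℝ} (hc : 0 < c) (hc2 : c ≤ 1 / 1700) (hy : y = 1 / 2 - 1 / 85) :
    (5 / 4 - 1 / 85) - 6 * v - 6 * ((1 / 12 - c / 1000) * y) ≤ 1 - 6 * v := by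
  rw [hy]; nlinarith

lemma secIII {c v y : ℝ} (hc : 0 < c) (hc2 : c ≤ 1 / 1700)
    (hv : 1 / 12 + 1 / 1700 ≤ v) (hy : y = max (1 - 6 * v) 0 + 1 / 1700) :
    2 - 12 * v - 12 * ((1 / 12 - c / 1000) * y) ≤ 1 - 6 * v := by
  rcases le_total (1 - 6 * v) 0 with h0 | h0
  · rw [max_eq_right h0] at hy
    rw [hy]; nlinarith
  · rw [max_eq_left h0] at hy
    have : c * (1 - 6 * v) ≤ c * (1 / 2) := mul_le_mul_of_nonneg_left (by linarith) hc.le
    rw [hy]; nlinarith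

end OL.R25
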