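import Pool.Agent.Lib.MP_39df77_nt.OL.Intf
import Pool.Agent.Lib.MP_39df77_nt.OL.D24

/-! Level sets of `ζ(7/12 - c1 + it)`, row R25. -/

set_option autoImplicit false

open Complex MeasureTheory Set

namespace OL.R25

lemma sep_subset {S S' : Finset ℝ} (h : S' ⊆ S) (hS : Sep S) : Sep S' :=
  fun s hs t ht hst => hS s (h hs) t (h ht) hst

lemma inI_subset {S S' : Finset ℝ} {T : ℝ} (h : S' ⊆ S) (hS : InI S T) : InI S' T := by
  obtain ⟨A, hA⟩ := hS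
  exact ⟨A, fun t ht => hA t (h ht)⟩

lemma inI_of {S : Finset ℝ} {T : ℝ} (h : ∀ t ∈ S, T ≤ t ∧ t ≤ 2 * T) : InI S T :=
  ⟨T, fun t ht => ⟨(h t ht).1, by linarith [(h t ht).2]⟩⟩

/-- a separated set in an interval of length `T` has at most `T + 1` elements -/
lemma sep_card {S : Finset ℝ} {T : ℝ} (hT : 0 ≤ T) (hS : Sep S) (hI : InI S T) :
    (S.card : ℝ) ≤ T + 1 := by
  obtain ⟨A, hA⟩ := hI
  have hinj : Set.InjOn (fun t : ℝ => ⌊t - A⌋₊) (S : Set ℝ) := by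
    intro s hs t ht hst
    by_contra hne
    have h1 := hS s hs t ht hne
    have hs0 : 0 ≤ s - A := by linarith [(hA s hs).1]
    have ht0 : 0 ≤ t - A := by linarith [(hA t ht).1]
    have a1 := Nat.floor_le hs0
    have a2 := Nat.lt_floor_add_one (s - A)
    have b1 := Nat.floor_le ht0
    have b2 := Nat.lt_floor_add_one (t - A)
    simp only at hst
    rw [hst] at a1 a2
    have : |s - t| < 1 := by rw [abs_lt]; constructor <;> linarith
    linarith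
  have h2 : S.card ≤ (Finset.range (⌊T⌋₊ + 1)).card := by
    apply Finset.card_le_card_of_injOn (fun t : ℝ => ⌊t - A⌋₊)
    · intro t ht
      simp only [Finset.coe_range, Set.mem_Iio]
      have := Nat.floor_le_floor (show t - A ≤ T by linarith [(hA t ht).2])
      omega
    · exact hinj
  rw [Finset.card_range] at h2
  have h3 : (S.card : ℝ) ≤ ((⌊T⌋₊ + 1 : ℕ) : ℝ) := by exact_mod_cast h2
  push_cast at h3
  linarith [Nat.floor_le hT]

/-- A3 with a smaller `c` -/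
lemma a3_mono {c c' T3 x0 : ℝ} (hT3 : 1 ≤ T3) (hcc : c ≤ c')
    (h : ∀ (T : ℝ) (N : ℕ) (a : ℕ → ℂ) (S : Finset ℝ), T3 ≤ T → T ^ (2 / 5 - c') ≤ N →
      (N : ℝ) ≤ T ^ (1 / 2 - x0) → (∀ n, ‖a n‖ ≤ 1) → Sep S → InI S T →
      (∀ t ∈ S, (N : ℝ) ^ (3 / 4 : ℝ) * T ^ (-c') ≤ ‖Dn a N t‖) → (S.card : ℝ) ≤ T ^ (1 - c') / N)
    (T : ℝ) (N : ℕ) (a : ℕ → ℂ) (S : Finset ℝ) (hT : T3 ≤ T) (h1 : T ^ (2 / 5 - c) ≤ N)
    (h2 : (N : ℝ) ≤ T ^ (1 / 2 - x0)) (ha : ∀ n, ‖a n‖ ≤ 1) (hS : Sep S) (hI : InI S T)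
    (hD : ∀ t ∈ S, (N : ℝ) ^ (3 / 4 : ℝ) * T ^ (-c) ≤ ‖Dn a N t‖) : (S.card : ℝ) ≤ T ^ (1 - c) / N := by
  have hT1 : 1 ≤ T := le_trans hT3 hT
  have hN : (0 : ℝ) < N := lt_of_lt_of_le (Real.rpow_pos_of_pos (by linarith) _) h1
  refine le_trans (h T N a S hT ?_ h2 ha hS hI ?_) ?_
  · exact le_trans (Real.rpow_le_rpow_of_exponent_le hT1 (by linarith)) h1
  · intro t ht
    refine le_trans ?_ (hD t ht)
    exact mul_le_mul_of_nonneg_left (Real.rpow_le_rpow_of_exponent_le hT1 (by linarith))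
      (Real.rpow_nonneg hN.le _)
  · exact div_le_div_of_nonneg_right (Real.rpow_le_rpow_of_exponent_le hT1 (by linarith)) hN.le

lemma rpow_nat {T x : ℝ} (hT : 0 ≤ T) (k : ℕ) : (T ^ x) ^ k = T ^ ((k : ℝ) * x) := by
  rw [← Real.rpow_natCast, ← Real.rpow_mul hT, mul_comm]

lemma half_rpow {T w : ℝ} (hT : 0 < T) (k : ℕ) : (T ^ w / 2) ^ (-(k : ℝ)) = 2 ^ k * T ^ (-(k : ℝ) * w) := by
  rw [Real.div_rpow (Real.rpow_nonneg hT.le _) (by norm_num), ← Real.rpow_mul hT.le,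
    Real.rpow_neg (by norm_num : (0 : ℝ) ≤ 2), Real.rpow_natCast, div_inv_eq_mul, mul_comm w, mul_comm]

theorem block_bound (h1 : HA1) (h2 : HA2) {c T3 : ℝ} (hc : 0 < c) (hc2 : c ≤ 1 / 1700) (hT3 : 1 ≤ T3)
    (h3 : ∀ (T : ℝ) (N : ℕ) (a : ℕ → ℂ) (S : Finset ℝ), T3 ≤ T → T ^ (2 / 5 - c) ≤ N →
      (N : ℝ) ≤ T ^ (1 / 2 - 1 / 340 : ℝ) → (∀ n, ‖a n‖ ≤ 1) → Sep S → InI S T →
      (∀ t ∈ S, (N : ℝ) ^ (3 / 4 : ℝ) * T ^ (-c) ≤ ‖Dn a N t‖) → (S.card : ℝ) ≤ T ^ (1 - c) / N)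
    {e : ℝ} (he : 0 < e) :
    ∃ C T0 : ℝ, 0 < C ∧ 1 < T0 ∧ ∀ (T v y ν : ℝ) (N : ℕ) (a : ℕ → ℂ) (S : Finset ℝ),
      T0 ≤ T → 0 ≤ ν → ν ≤ 1 → 0 ≤ y → y ≤ 1 → Cond c e v y ν → (N : ℝ) = T ^ ν → 1 ≤ N →
      (∀ n, ‖a n‖ ≤ 1) → Sep S → InI S T → (∀ t ∈ S, T ^ (wexp c e v y ν) / 2 ≤ ‖Dn a N t‖) →
      (S.card : ℝ) ≤ C * T ^ (1 - 6 * v + 14 * e) := by
  obtain ⟨C1, hC1, H1⟩ := h1 e he
  obtain ⟨C2, hC2, H2⟩ := h2 e he
  refine ⟨128 * C1 + 4112 * C2 + 1, max (max T3 2) (2 ^ (2 / c)), by positivity,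
    lt_of_lt_of_le (by norm_num) (le_trans (le_max_right T3 2) (le_max_left _ _)), ?_⟩
  intro T v y ν N a S hT hν0 hν1 hy0 hy1 hcond hNT hN ha hS hI hD
  have hT3' : T3 ≤ T := le_trans (le_trans (le_max_left _ _) (le_max_left _ _)) hT
  have hT2 : 2 ≤ T := le_trans (le_trans (le_max_right T3 2) (le_max_left _ _)) hT
  have hTc : 2 ≤ T ^ (c / 2) := by
    have h : (2 : ℝ) ^ (2 / c) ≤ T := le_trans (le_max_right _ _) hT
    have := Real.rpow_le_rpow (by positivity) h (show 0 ≤ c / 2 by positivity)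
    rwa [← Real.rpow_mul (by norm_num), show 2 / c * (c / 2) = 1 by field_simp, Real.rpow_one] at this
  have hT0 : 0 < T := by linarith
  have hT1 : 1 ≤ T := by linarith
  have hey : e * y ≤ e := by nlinarith
  have hey0 : 0 ≤ e * y := by positivity
  set w := wexp c e v y ν with hw
  have hW : 0 < T ^ w / 2 := by positivity
  have hP : ∀ x : ℝ, 0 < T ^ x := fun x => Real.rpow_pos_of_pos hT0 x
  have hmono : ∀ x z : ℝ, x ≤ z → T ^ x ≤ T ^ z := fun x z h => Real.rpow_le_rpow_of_exponent_le hT1 h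
  have hTN : (T * (N : ℝ)) ^ e ≤ T ^ (2 * e) := by
    rw [hNT, show T * T ^ ν = T ^ (1 + ν) by rw [Real.rpow_add hT0, Real.rpow_one], ← Real.rpow_mul hT0.le]
    exact hmono _ _ (by nlinarith)
  rcases hcond with h | ⟨g1, g2⟩ | ⟨g1, g2, g3, g4⟩
  · have key := H1 T N a S (T ^ w / 2) hT1 hN ha hS hI hW hD
    have hex := expo_low (e := e) (v := v) (y := y) hc hc2 hν0 h
    rw [← hw] at hex
    have e1 : (N : ℝ) ^ 3 = T ^ (3 * ν) := by rw [hNT, rpow_nat hT0.le]; norm_num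
    have e2 : (T ^ w / 2) ^ (-6 : ℝ) = 64 * T ^ (-6 * w) := by
      have := half_rpow (T := T) (w := w) hT0 6
      norm_num at this ⊢
      exact this
    have e3 : T + (N : ℝ) ^ 3 ≤ 2 * T ^ (max 1 (3 * ν)) := by
      rw [e1]
      have a1 := hmono _ _ (le_max_left 1 (3 * ν))
      have a2 := hmono _ _ (le_max_right 1 (3 * ν))
      rw [Real.rpow_one] at a1
      linarith
    calc (S.card : ℝ) ≤ C1 * (T * N) ^ e * ((T + (N : ℝ) ^ 3) * (N : ℝ) ^ 3) * (T ^ w / 2) ^ (-6 : ℝ) := key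
      _ ≤ C1 * T ^ (2 * e) * ((2 * T ^ (max 1 (3 * ν))) * T ^ (3 * ν)) * (64 * T ^ (-6 * w)) := by
          rw [e2]
          apply mul_le_mul_of_nonneg_right _ (by positivity)
          apply mul_le_mul (mul_le_mul_of_nonneg_left hTN hC1.le) _ (by positivity) (by positivity)
          rw [e1] at e3 ⊢
          exact mul_le_mul_of_nonneg_right e3 (hP _).le
      _ = 128 * C1 * T ^ (2 * e + max 1 (3 * ν) + 3 * ν + (-6 * w)) := by
          rw [Real.rpow_add hT0, Real.rpow_add hT0, Real.rpow_add hT0]; ring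
      _ ≤ 128 * C1 * T ^ (1 - 6 * v + 14 * e) := by
          apply mul_le_mul_of_nonneg_left (hmono _ _ (by linarith)) (by positivity)
      _ ≤ _ := mul_le_mul_of_nonneg_right (by linarith) (hP _).le
  · have key := H2 T N a S (T ^ w / 2) hT1 hN ha hS hI hW hD
    obtain ⟨x1, x2⟩ := expo_gamma (e := e) (y := y) g1 g2
    rw [← hw] at x1 x2
    have e4 : (N : ℝ) ^ 4 = T ^ (4 * ν) := by rw [hNT, rpow_nat hT0.le]; norm_num
    have e8 : (N : ℝ) ^ 8 = T ^ (8 * ν) := by rw [hNT, rpow_nat hT0.le]; norm_num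
    have w4 : (T ^ w / 2) ^ (-4 : ℝ) = 16 * T ^ (-4 * w) := by
      have := half_rpow (T := T) (w := w) hT0 4
      norm_num at this ⊢
      exact this
    have w12 : (T ^ w / 2) ^ (-12 : ℝ) = 4096 * T ^ (-12 * w) := by
      have := half_rpow (T := T) (w := w) hT0 12
      norm_num at this ⊢
      exact this
    have i1 : (N : ℝ) ^ 4 * (T ^ w / 2) ^ (-4 : ℝ) ≤ 16 * T ^ (1 - 6 * v + 12 * e) := by
      rw [e4, w4, show T ^ (4 * ν) * (16 * T ^ (-4 * w)) = 16 * T ^ (4 * ν + -4 * w) by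
        rw [Real.rpow_add hT0]; ring]
      exact mul_le_mul_of_nonneg_left (hmono _ _ (by linarith)) (by norm_num)
    have i2 : T * (N : ℝ) ^ 8 * (T ^ w / 2) ^ (-12 : ℝ) ≤ 4096 * T ^ (1 - 6 * v + 12 * e) := by
      rw [e8, w12, show T * T ^ (8 * ν) * (4096 * T ^ (-12 * w)) = 4096 * T ^ (1 + 8 * ν + -12 * w) by
        rw [Real.rpow_add hT0, Real.rpow_add hT0, Real.rpow_one]; ring]
      exact mul_le_mul_of_nonneg_left (hmono _ _ (by linarith)) (by norm_num)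
    calc (S.card : ℝ) ≤ _ := key
      _ ≤ C2 * T ^ (2 * e) * (16 * T ^ (1 - 6 * v + 12 * e) + 4096 * T ^ (1 - 6 * v + 12 * e)) := by
          apply mul_le_mul (mul_le_mul_of_nonneg_left hTN hC2.le) (add_le_add i1 i2) (by positivity) (by positivity)
      _ = 4112 * C2 * T ^ (2 * e + (1 - 6 * v + 12 * e)) := by
          rw [Real.rpow_add hT0 (2 * e)]; ring
      _ ≤ 4112 * C2 * T ^ (1 - 6 * v + 14 * e) := by
          apply mul_le_mul_of_nonneg_left (hmono _ _ (by linarith)) (by positivity)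
      _ ≤ _ := mul_le_mul_of_nonneg_right (by linarith) (hP _).le
  · have hN0 : (0 : ℝ) < N := by rw [hNT]; exact hP _
    have key := h3 T N a S hT3' (by rw [hNT]; exact hmono _ _ g1) (by rw [hNT]; exact hmono _ _ g2) ha hS hI (by
      intro t ht
      refine le_trans ?_ (hD t ht)
      rw [hNT, ← Real.rpow_mul hT0.le, ← Real.rpow_add hT0, le_div_iff₀ (by norm_num : (0 : ℝ) < 2)]
      calc T ^ (ν * (3 / 4) + -c) * 2 ≤ T ^ (ν * (3 / 4) + -c) * T ^ (c / 2) :=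
            mul_le_mul_of_nonneg_left hTc (hP _).le
        _ = T ^ (ν * (3 / 4) + -c + c / 2) := by rw [← Real.rpow_add hT0]
        _ ≤ T ^ w := hmono _ _ (by linarith))
    calc (S.card : ℝ) ≤ T ^ (1 - c) / N := key
      _ = T ^ (1 - c - ν) := by rw [hNT, ← Real.rpow_sub hT0]
      _ ≤ T ^ (1 - 6 * v + 14 * e) := hmono _ _ (by linarith)
      _ = 1 * T ^ (1 - 6 * v + 14 * e) := (one_mul _).symm
      _ ≤ _ := mul_le_mul_of_nonneg_right (by nlinarith) (hP _).le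

end OL.R25
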