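import Pool.Agent.Lib.MP_39df77_nt.OL.D25

/-! Level sets of `ζ(7/12 - c1 + it)`, row R25, assembly. -/

set_option autoImplicit false

open Complex MeasureTheory Set

namespace OL.R25

lemma second {A : ℕ} {m : ℝ} (h : HR22 A m) {K : ℝ} (hK : 0 < K) : ∃ C : ℝ, 0 < C ∧
    ∀ (T u : ℝ) (S : Finset ℝ), 2 ≤ T → Sep S → (∀ t ∈ S, T ≤ t ∧ t ≤ 2 * T) →
      (∀ t ∈ S, T ^ u ≤ K * Zl (1 / 2) t) → (S.card : ℝ) ≤ C * T ^ (m - A * u) := by
  obtain ⟨C, hC, H⟩ := h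
  refine ⟨C * K ^ A, by positivity, fun T u S hT hS hI hZ => ?_⟩
  have hT0 : 0 < T := by linarith
  have h1 : (S.card : ℝ) * T ^ ((A : ℝ) * u) ≤ K ^ A * (C * T ^ m) := by
    calc (S.card : ℝ) * T ^ ((A : ℝ) * u) = ∑ _t ∈ S, T ^ ((A : ℝ) * u) := by
          rw [Finset.sum_const, nsmul_eq_mul]
      _ ≤ ∑ t ∈ S, K ^ A * Zl (1 / 2) t ^ A := by
          apply Finset.sum_le_sum
          intro t ht
          rw [← rpow_nat hT0.le, ← mul_pow]
          exact pow_le_pow_left₀ (Real.rpow_nonneg hT0.le _) (hZ t ht) _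
      _ = K ^ A * ∑ t ∈ S, Zl (1 / 2) t ^ A := by rw [Finset.mul_sum]
      _ ≤ K ^ A * (C * T ^ m) := mul_le_mul_of_nonneg_left (H T S hT hS hI) (by positivity)
  rw [Real.rpow_sub hT0, ← mul_div_assoc, le_div_iff₀ (Real.rpow_pos_of_pos hT0 _)]
  calc _ ≤ _ := h1
    _ = _ := by ring

/-- the choice of the length `X = T^y` -/
lemma choose_y {c e v : ℝ} (hc : 0 < c) (hc2 : c ≤ 1 / 1700) (he : 0 < e) (he2 : e ≤ c / 100000)
    (hv : 0 < v) : ∃ y : ℝ, min (6 * v) (1 / 1700) ≤ y ∧ y ≤ 51 / 100 ∧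
    (∀ ν : ℝ, 0 ≤ ν → ν ≤ (1 + e) * y → Cond c e v y ν) ∧
    ((1 + e) - 4 * (v + (1 / 12 - c / 1000) * y) ≤ 1 - 6 * v + e ∨
     (5 / 4 - 1 / 85) - 6 * (v + (1 / 12 - c / 1000) * y) ≤ 1 - 6 * v + e ∨
     2 - 12 * (v + (1 / 12 - c / 1000) * y) ≤ 1 - 6 * v + e) := by
  by_cases h1 : v ≤ 1 / 12 - 1 / 1700
  · refine ⟨(6 + c / 10) * v, ?_, ?_, fun ν h0 hν => regI hc hc2 he he2 hv h1 rfl h0 hν, Or.inl ?_⟩
    · refine le_trans (min_le_left _ _) ?_
      nlinarith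
    · nlinarith
    · have := secI (e := e) hc hc2 hv (rfl : (6 + c / 10) * v = (6 + c / 10) * v)
      linarith
  push Not at h1
  by_cases h2 : v ≤ 1 / 12 + 1 / 1700
  · refine ⟨1 / 2 - 1 / 85, ?_, by norm_num, fun ν h0 hν => regII hc hc2 he he2 h1.le h2 rfl h0 hν,
      Or.inr (Or.inl ?_)⟩
    · refine le_trans (min_le_right _ _) (by norm_num)
    · have := secII (v := v) hc hc2 (rfl : (1 / 2 - 1 / 85 : ℝ) = 1 / 2 - 1 / 85)
      linarith
  push Not at h2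
  refine ⟨max (1 - 6 * v) 0 + 1 / 1700, ?_, ?_, fun ν h0 hν => regIII hc hc2 he he2 h2.le rfl h0 hν,
    Or.inr (Or.inr ?_)⟩
  · refine le_trans (min_le_right _ _) ?_
    linarith [le_max_right (1 - 6 * v) 0]
  · have : max (1 - 6 * v) 0 ≤ 1 / 2 := max_le (by linarith) (by norm_num)
    linarith
  · have := secIII hc hc2 h2.le (rfl : max (1 - 6 * v) 0 + 1 / 1700 = max (1 - 6 * v) 0 + 1 / 1700)
    linarith

lemma exp_small {C : ℝ} (hC : 0 < C) : ∃ T0 : ℝ, ∀ T : ℝ, T0 ≤ T → C * (T * Real.exp (-T)) ≤ 1 := by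
  have h := (Real.tendsto_pow_mul_exp_neg_atTop_nhds_zero 1).const_mul C
  simp only [mul_zero, pow_one] at h
  obtain ⟨T0, hT0⟩ := Filter.eventually_atTop.1 (h.eventually_le_const (show (0 : ℝ) < 1 by norm_num))
  exact ⟨T0, fun T hT => hT0 T hT⟩

lemma zeta_cont_line {σ : ℝ} (hσ : σ < 1) : Continuous (fun t : ℝ => ‖riemannZeta (σ + t * I)‖) := by
  rw [continuous_iff_continuousAt]
  intro t
  apply ContinuousAt.norm
  have h1 : ((σ : ℂ) + t * I) ≠ 1 := by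
    intro h
    have := congrArg Complex.re h
    simp at this
    linarith
  exact (differentiableAt_riemannZeta h1).continuousAt.comp (f := fun t : ℝ => (σ : ℂ) + t * I)
    (Continuous.continuousAt (by fun_prop))

end OL.R25

namespace OL

open OL.R25

/-- R25 with the constant made explicit -/
theorem r25_at (h1 : HA1) (h2 : HA2) {c T3 : ℝ} (hc : 0 < c) (hc2 : c ≤ 1 / 1700) (hT3 : 1 ≤ T3)
    (H3 : ∀ (T : ℝ) (N : ℕ) (a : ℕ → ℂ) (S : Finset ℝ), T3 ≤ T → T ^ (2 / 5 - c) ≤ N →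
      (N : ℝ) ≤ T ^ (1 / 2 - 1 / 340 : ℝ) → (∀ n, ‖a n‖ ≤ 1) → Sep S → InI S T →
      (∀ t ∈ S, (N : ℝ) ^ (3 / 4 : ℝ) * T ^ (-c) ≤ ‖Dn a N t‖) → (S.card : ℝ) ≤ T ^ (1 - c) / N)
    (h21 : HR21) (h4 : ∀ e : ℝ, 0 < e → HR22 4 (1 + e))
    (h6 : HR22 6 (5 / 4 - 1 / 85)) (h12 : HR22 12 2) (h23 : HR23) : HR25 (c / 1000) := by
  intro e he
  obtain ⟨e', he'def⟩ : ∃ e', e' = min (c / 100000) (e / 100) := ⟨_, rfl⟩
  have he' : 0 < e' := by rw [he'def]; positivity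
  have he'1 : e' ≤ c / 100000 := by rw [he'def]; exact min_le_left _ _
  have he'2 : e' ≤ e / 100 := by rw [he'def]; exact min_le_right _ _
  set σ : ℝ := 7 / 12 - c / 1000 with hσ
  obtain ⟨C21, hC21, H21⟩ := h21 (1 / 2) σ le_rfl (by rw [hσ]; linarith) (by rw [hσ]; linarith)
  have hK : 0 < 4 * C21 := by positivity
  obtain ⟨C4, hC4, H4⟩ := second (h4 e' he') hK
  obtain ⟨C6, hC6, H6⟩ := second h6 hK
  obtain ⟨C12, hC12, H12⟩ := second h12 hK
  obtain ⟨X0, hX0, H23⟩ := h23 σ e' (by rw [hσ]; linarith) (by rw [hσ]; linarith) he'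
  obtain ⟨C0, T0, hC0, hT0, H0⟩ := block_bound h1 h2 hc hc2 hT3 H3 he'
  obtain ⟨Te, hTe⟩ := exp_small hC21
  -- thresholds
  obtain ⟨μ, hμdef⟩ : ∃ μ, μ = min (6 * e) (1 / 1700) := ⟨_, rfl⟩
  have hμ : 0 < μ := by rw [hμdef]; positivity
  obtain ⟨T1, hT1def⟩ : ∃ T1, T1 = max (max (max T0 2) (max Te (16 ^ (1 / e)))) (X0 ^ (1 / μ)) := ⟨_, rfl⟩
  have hT1a : T0 ≤ T1 := by rw [hT1def]; simp
  have hT1b : 2 ≤ T1 := by rw [hT1def]; simp
  have hT1c : Te ≤ T1 := by rw [hT1def]; simp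
  have hT1d : (16 : ℝ) ^ (1 / e) ≤ T1 := by rw [hT1def]; simp
  have hT1e : X0 ^ (1 / μ) ≤ T1 := by rw [hT1def]; simp
  -- bound for small T
  obtain ⟨B, hB⟩ : ∃ B : ℝ, ∀ t : ℝ, t ∈ Set.Icc (1 : ℝ) (2 * T1) → ‖riemannZeta (σ + t * I)‖ ≤ B := by
    have := isCompact_Icc.exists_bound_of_continuousOn (f := fun t : ℝ => ‖riemannZeta (σ + t * I)‖)
      (s := Set.Icc (1 : ℝ) (2 * T1)) (zeta_cont_line (by rw [hσ]; linarith)).continuousOn
    obtain ⟨B, hB⟩ := this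
    exact ⟨B, fun t ht => by simpa using hB t ht⟩
  refine ⟨C0 + C4 + C6 + C12 + 2 * (1 + |B|) ^ 6, by positivity, ?_⟩
  intro T V S hT hV hS hI hz
  have hTpos : 0 < T := by linarith
  have hVpos : 0 < V := lt_of_lt_of_le (Real.rpow_pos_of_pos hTpos e) hV
  have hVrp : 0 < V ^ (-6 : ℝ) := Real.rpow_pos_of_pos hVpos _
  rcases S.eq_empty_or_nonempty with hemp | hne
  · rw [hemp]; simp only [Finset.card_empty, Nat.cast_zero]; positivity
  by_cases hTs : T < T1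
  · obtain ⟨t, ht⟩ := hne
    have hVB : V ≤ 1 + |B| := by
      have h := hz t ht
      have h' := hB t ⟨by linarith [(hI t ht).1], by linarith [(hI t ht).2]⟩
      have := le_abs_self B
      linarith
    have hc1 := sep_card (by linarith) hS (inI_of hI)
    have hV6 : 1 ≤ (1 + |B|) ^ 6 * V ^ (-6 : ℝ) := by
      rw [Real.rpow_neg hVpos.le, ← div_eq_mul_inv, le_div_iff₀ (Real.rpow_pos_of_pos hVpos _), one_mul]
      have : V ^ (6 : ℝ) = V ^ 6 := by rw [← Real.rpow_natCast]; norm_num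
      rw [this]
      exact pow_le_pow_left₀ hVpos.le hVB 6
    have hT1e' : T ≤ T ^ (1 + e) := by
      nth_rewrite 1 [← Real.rpow_one T]
      exact Real.rpow_le_rpow_of_exponent_le hT (by linarith)
    have hTe0 : 0 < T ^ (1 + e) := Real.rpow_pos_of_pos hTpos _
    calc (S.card : ℝ) ≤ T + 1 := hc1
      _ ≤ 2 * T ^ (1 + e) * 1 := by linarith
      _ ≤ 2 * T ^ (1 + e) * ((1 + |B|) ^ 6 * V ^ (-6 : ℝ)) := mul_le_mul_of_nonneg_left hV6 (by positivity)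
      _ = 2 * (1 + |B|) ^ 6 * (T ^ (1 + e) * V ^ (-6 : ℝ)) := by ring
      _ ≤ (C0 + C4 + C6 + C12 + 2 * (1 + |B|) ^ 6) * (T ^ (1 + e) * V ^ (-6 : ℝ)) :=
          mul_le_mul_of_nonneg_right (by linarith) (by positivity)
      _ = _ := by ring
  push Not at hTs
  have hT2 : 2 ≤ T := by linarith
  have hTgt : 1 < T := by linarith
  have hlog : 0 < Real.log T := Real.log_pos hTgt
  have hP : ∀ x : ℝ, 0 < T ^ x := fun x => Real.rpow_pos_of_pos hTpos x
  have hmono : ∀ x z : ℝ, x ≤ z → T ^ x ≤ T ^ z := fun x z h => Real.rpow_le_rpow_of_exponent_le hT h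
  -- v
  obtain ⟨v, hv⟩ : ∃ v, v = Real.log V / Real.log T := ⟨_, rfl⟩
  have hVv : V = T ^ v := by
    rw [hv, Real.rpow_def_of_pos hTpos, mul_div_cancel₀ _ hlog.ne', Real.exp_log hVpos]
  have hev : e ≤ v := by
    rw [hVv] at hV
    exact (Real.rpow_le_rpow_left_iff hTgt).1 hV
  have hv0 : 0 < v := by linarith
  have hTe16 : 16 ≤ T ^ e := by
    have h : (16 : ℝ) ^ (1 / e) ≤ T := le_trans hT1d hTs
    have := Real.rpow_le_rpow (by positivity) h he.le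
    rwa [← Real.rpow_mul (by norm_num), one_div, inv_mul_cancel₀ he.ne', Real.rpow_one] at this
  have hV16 : 16 ≤ V := le_trans hTe16 hV
  obtain ⟨y, hy1, hy2, hyc, hysec⟩ := choose_y hc hc2 he' he'1 hv0
  have hyμ : μ ≤ y := by
    refine le_trans ?_ hy1
    rw [hμdef]
    exact min_le_min (by linarith) le_rfl
  have hy0 : 0 < y := by linarith
  set X : ℝ := T ^ y with hX
  have hXX0 : X0 ≤ X := by
    have h : X0 ^ (1 / μ) ≤ T := le_trans hT1e hTs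
    have h' := Real.rpow_le_rpow (Real.rpow_nonneg (by linarith) _) h hμ.le
    rw [← Real.rpow_mul (by linarith), one_div, inv_mul_cancel₀ hμ.ne', Real.rpow_one] at h'
    exact le_trans h' (hmono _ _ hyμ)
  have hX1 : 1 ≤ X := le_trans hX0 hXX0
  have hXT : X ≤ T := by
    calc X ≤ T ^ (1 : ℝ) := hmono _ _ (by linarith)
      _ = T := Real.rpow_one T
  -- split
  have hsplit : ∀ t ∈ S, V / 2 ≤ ‖Sx σ X t‖ ∨ T ^ (v + (1 / 12 - c / 1000) * y) ≤ 4 * C21 * Zl (1 / 2) t := by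
    intro t ht
    by_contra hcon
    push Not at hcon
    obtain ⟨q1, q2⟩ := hcon
    have hzt := hz t ht
    have h21t := H21 X t hX1
    have e1 : X ^ (1 - σ) ≤ T := by
      calc X ^ (1 - σ) ≤ X ^ (1 : ℝ) := Real.rpow_le_rpow_of_exponent_le hX1 (by rw [hσ]; linarith)
        _ = X := Real.rpow_one X
        _ ≤ T := hXT
    have e2 : Real.exp (-|t|) ≤ Real.exp (-T) := by
      apply Real.exp_le_exp.2
      rw [abs_of_nonneg (by linarith [(hI t ht).1])]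
      linarith [(hI t ht).1]
    have e3 : C21 * (X ^ (1 - σ) * Real.exp (-|t|)) ≤ 1 := by
      refine le_trans ?_ (hTe T (le_trans hT1c hTs))
      apply mul_le_mul_of_nonneg_left _ hC21.le
      exact mul_le_mul e1 e2 (Real.exp_pos _).le hTpos.le
    have e4 : V ≤ ‖Sx σ X t‖ + ‖riemannZeta (σ + t * I) - Sx σ X t‖ := by
      calc V ≤ ‖riemannZeta (σ + t * I)‖ := hzt
        _ = ‖Sx σ X t + (riemannZeta (σ + t * I) - Sx σ X t)‖ := by congr 1; ring
        _ ≤ _ := norm_add_le _ _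
    have e5 : V / 4 ≤ C21 * (X ^ (1 / 2 - σ) * Zl (1 / 2) t) := by
      have : C21 * (X ^ (1 - σ) * Real.exp (-|t|) + X ^ (1 / 2 - σ) * Zl (1 / 2) t)
        = C21 * (X ^ (1 - σ) * Real.exp (-|t|)) + C21 * (X ^ (1 / 2 - σ) * Zl (1 / 2) t) := by ring
      linarith
    have e6 : X ^ (1 / 2 - σ) = T ^ (-((1 / 12 - c / 1000) * y)) := by
      rw [hX, ← Real.rpow_mul hTpos.le]; congr 1; rw [hσ]; ring
    have e7 : T ^ (v + (1 / 12 - c / 1000) * y) * T ^ (-((1 / 12 - c / 1000) * y)) = V := by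
      rw [← Real.rpow_add hTpos, hVv]; congr 1; ring
    have e8 : V ≤ 4 * C21 * Zl (1 / 2) t * T ^ (-((1 / 12 - c / 1000) * y)) := by
      rw [e6] at e5
      nlinarith
    have e9 := mul_lt_mul_of_pos_right q2 (hP (-((1 / 12 - c / 1000) * y)))
    rw [e7] at e9
    linarith
  classical
  set S1 := S.filter (fun t => V / 2 ≤ ‖Sx σ X t‖) with hS1
  set S2 := S.filter (fun t => ¬ V / 2 ≤ ‖Sx σ X t‖) with hS2
  have hcard : S.card = S1.card + S2.card := by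
    rw [hS1, hS2]; exact (Finset.card_filter_add_card_filter_not _).symm
  have hS2Z : ∀ t ∈ S2, T ^ (v + (1 / 12 - c / 1000) * y) ≤ 4 * C21 * Zl (1 / 2) t := by
    intro t ht
    rw [hS2, Finset.mem_filter] at ht
    rcases hsplit t ht.1 with h | h
    · exact absurd h ht.2
    · exact h
  have hS2sub : S2 ⊆ S := Finset.filter_subset _ _
  have hS1sub : S1 ⊆ S := Finset.filter_subset _ _
  have hS2I : ∀ t ∈ S2, T ≤ t ∧ t ≤ 2 * T := fun t ht => hI t (hS2sub ht)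
  have hb2 : (S2.card : ℝ) ≤ (C4 + C6 + C12) * T ^ (1 - 6 * v + 15 * e') := by
    have hx : T ^ (1 - 6 * v + e') ≤ T ^ (1 - 6 * v + 15 * e') := hmono _ _ (by linarith)
    rcases hysec with h | h | h
    · have := H4 T _ S2 hT2 (sep_subset hS2sub hS) hS2I hS2Z
      have hq : T ^ (1 + e' - ((4 : ℕ) : ℝ) * (v + (1 / 12 - c / 1000) * y)) ≤ T ^ (1 - 6 * v + e') :=
        hmono _ _ (by push_cast; linarith)
      have hp := hP (1 - 6 * v + 15 * e')
      calc (S2.card : ℝ) ≤ _ := this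
        _ ≤ C4 * T ^ (1 - 6 * v + 15 * e') := mul_le_mul_of_nonneg_left (le_trans hq hx) hC4.le
        _ ≤ _ := mul_le_mul_of_nonneg_right (by linarith) hp.le
    · have := H6 T _ S2 hT2 (sep_subset hS2sub hS) hS2I hS2Z
      have hq : T ^ (5 / 4 - 1 / 85 - ((6 : ℕ) : ℝ) * (v + (1 / 12 - c / 1000) * y)) ≤ T ^ (1 - 6 * v + e') :=
        hmono _ _ (by push_cast; linarith)
      have hp := hP (1 - 6 * v + 15 * e')
      calc (S2.card : ℝ) ≤ _ := this
        _ ≤ C6 * T ^ (1 - 6 * v + 15 * e') := mul_le_mul_of_nonneg_left (le_trans hq hx) hC6.le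
        _ ≤ _ := mul_le_mul_of_nonneg_right (by linarith) hp.le
    · have := H12 T _ S2 hT2 (sep_subset hS2sub hS) hS2I hS2Z
      have hq : T ^ (2 - ((12 : ℕ) : ℝ) * (v + (1 / 12 - c / 1000) * y)) ≤ T ^ (1 - 6 * v + e') :=
        hmono _ _ (by push_cast; linarith)
      have hp := hP (1 - 6 * v + 15 * e')
      calc (S2.card : ℝ) ≤ _ := this
        _ ≤ C12 * T ^ (1 - 6 * v + 15 * e') := mul_le_mul_of_nonneg_left (le_trans hq hx) hC12.le
        _ ≤ _ := mul_le_mul_of_nonneg_right (by linarith) hp.le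
  have hb1 : (S1.card : ℝ) ≤ C0 * T ^ (1 - 6 * v + 15 * e') := by
    obtain ⟨N, a, S', hN1, hNX, ha, hS', hcS, hD⟩ := H23 X (V / 2) S1 hXX0 (by linarith) (by
      intro t ht
      rw [hS1, Finset.mem_filter] at ht
      exact ht.2)
    obtain ⟨ν, hν⟩ : ∃ ν, ν = Real.log N / Real.log T := ⟨_, rfl⟩
    have hNpos : (0 : ℝ) < N := by exact_mod_cast hN1
    have hNν : (N : ℝ) = T ^ ν := by
      rw [hν, Real.rpow_def_of_pos hTpos, mul_div_cancel₀ _ hlog.ne', Real.exp_log hNpos]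
    have hν0 : 0 ≤ ν := by
      rw [hν]; exact div_nonneg (Real.log_nonneg (by exact_mod_cast hN1)) hlog.le
    have hνy : ν ≤ (1 + e') * y := by
      rw [hNν, hX, ← Real.rpow_mul hTpos.le] at hNX
      have := (Real.rpow_le_rpow_left_iff hTgt).1 hNX
      linarith
    have hν1 : ν ≤ 1 := by nlinarith
    have hSS : S' ⊆ S := fun t ht => hS1sub (hS' ht)
    have hb := H0 T v y ν N a S' (le_trans hT1a hTs) hν0 hν1 hy0.le (by linarith) (hyc ν hν0 hνy) hNν hN1 ha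
      (sep_subset hSS hS) (inI_subset hSS (inI_of hI)) (by
        intro t ht
        have hd := hD t ht
        rw [hNν, hX, ← Real.rpow_mul hTpos.le, ← Real.rpow_mul hTpos.le, hVv] at hd
        have e1 : T ^ (wexp c e' v y ν) * T ^ (y * e') = T ^ (ν * σ) * T ^ v := by
          rw [← Real.rpow_add hTpos, ← Real.rpow_add hTpos]; congr 1; unfold wexp; rw [hσ]; ring
        have hp := hP (y * e')
        by_contra hcon
        push Not at hcon
        have := mul_lt_mul_of_pos_left hcon hp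
        have e2 : T ^ (y * e') * (T ^ (wexp c e' v y ν) / 2) = T ^ (ν * σ) * (T ^ v / 2) := by
          rw [← mul_div_assoc, mul_comm, ← mul_div_assoc, ← e1]
        linarith)
    calc (S1.card : ℝ) ≤ X ^ e' * S'.card := hcS
      _ ≤ T ^ e' * (C0 * T ^ (1 - 6 * v + 14 * e')) := by
          exact mul_le_mul (Real.rpow_le_rpow (by linarith) hXT he'.le) hb (Nat.cast_nonneg _) (hP _).le
      _ = C0 * T ^ (e' + (1 - 6 * v + 14 * e')) := by
          rw [Real.rpow_add hTpos e' (1 - 6 * v + 14 * e')]; ring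
      _ = C0 * T ^ (1 - 6 * v + 15 * e') := by congr 2; ring
  have hfin : T ^ (1 - 6 * v + 15 * e') ≤ T ^ (1 + e) * V ^ (-6 : ℝ) := by
    rw [hVv, ← Real.rpow_mul hTpos.le, ← Real.rpow_add hTpos]
    exact hmono _ _ (by linarith)
  have hBp : 0 ≤ 2 * (1 + |B|) ^ 6 := by positivity
  calc (S.card : ℝ) = (S1.card : ℝ) + S2.card := by rw [hcard]; push_cast; ring
    _ ≤ C0 * T ^ (1 - 6 * v + 15 * e') + (C4 + C6 + C12) * T ^ (1 - 6 * v + 15 * e') := add_le_add hb1 hb2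
    _ = (C0 + C4 + C6 + C12) * T ^ (1 - 6 * v + 15 * e') := by ring
    _ ≤ (C0 + C4 + C6 + C12) * (T ^ (1 + e) * V ^ (-6 : ℝ)) := mul_le_mul_of_nonneg_left hfin (by positivity)
    _ ≤ (C0 + C4 + C6 + C12 + 2 * (1 + |B|) ^ 6) * (T ^ (1 + e) * V ^ (-6 : ℝ)) :=
        mul_le_mul_of_nonneg_right (by linarith) (mul_pos (hP (1 + e)) hVrp).le
    _ = _ := by ring

theorem r25 (h1 : HA1) (h2 : HA2) (h3 : HA3) (h21 : HR21) (h4 : ∀ e : ℝ, 0 < e → HR22 4 (1 + e))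
    (h6 : HR22 6 (5 / 4 - 1 / 85)) (h12 : HR22 12 2) (h23 : HR23) :
    ∃ c1 : ℝ, 0 < c1 ∧ c1 < 1 / 12 ∧ HR25 c1 := by
  obtain ⟨c', T3, hc', hT3, H3'⟩ := h3 (1 / 340) (by norm_num) (by norm_num)
  obtain ⟨c, hcdef⟩ : ∃ c, c = min c' (1 / 1700) := ⟨_, rfl⟩
  have hc : 0 < c := by rw [hcdef]; positivity
  have hc2 : c ≤ 1 / 1700 := by rw [hcdef]; exact min_le_right _ _
  have H3 := a3_mono hT3 (show c ≤ c' by rw [hcdef]; exact min_le_left _ _) H3'
  exact ⟨c / 1000, by positivity, by linarith, r25_at h1 h2 hc hc2 hT3 H3 h21 h4 h6 h12 h23⟩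

end OL
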