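import Pool.Agent.Lib.MP_39df77_nt.OL.D25b

/-! The sixth moment at `7/12 - c1` from the level sets, row R26. -/

set_option autoImplicit false

open Complex MeasureTheory Set

namespace OL.R25

lemma level_sum {C e T : ℝ} (hC : 0 < C) (he : 0 ≤ e) (hT : 1 ≤ T) {f : ℝ → ℝ} (hf : ∀ t, 0 ≤ f t) (S : Finset ℝ)
    (H : ∀ V : ℝ, T ^ e ≤ V → ((S.filter (fun t => V ≤ f t)).card : ℝ) ≤ C * T ^ (1 + e) * V ^ (-6 : ℝ)) :
    ∑ t ∈ S, f t ^ 6 ≤ S.card * (T ^ e) ^ 6 +
      Real.exp 6 * (((⌈|Real.log (C * T ^ (1 + e))|⌉₊ : ℝ) + 1) * (C * T ^ (1 + e))) := by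
  classical
  have hT0 : 0 < T := by linarith
  obtain ⟨B, hB⟩ : ∃ B, B = C * T ^ (1 + e) := ⟨_, rfl⟩
  have hB0 : 0 < B := by rw [hB]; exact mul_pos hC (Real.rpow_pos_of_pos hT0 _)
  obtain ⟨L, hL⟩ : ∃ L, L = ⌈|Real.log B|⌉₊ := ⟨_, rfl⟩
  have hLB : Real.log B ≤ L := by
    rw [hL]; exact le_trans (le_abs_self _) (Nat.le_ceil _)
  obtain ⟨V0, hV0⟩ : ∃ V0, V0 = T ^ e := ⟨_, rfl⟩
  have hV0p : 0 < V0 := by rw [hV0]; exact Real.rpow_pos_of_pos hT0 _
  rw [← hB, ← hL, ← hV0]
  rw [← hB, ← hV0] at H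
  -- V^(-6)
  have hneg : ∀ V : ℝ, 0 < V → V ^ (-6 : ℝ) = (V ^ 6)⁻¹ := by
    intro V hV
    rw [Real.rpow_neg hV.le]
    congr 1
    rw [← Real.rpow_natCast]; norm_num
  have hbd : ∀ t ∈ S, V0 ≤ f t → f t ^ 6 ≤ B := by
    intro t ht hft
    have hp : 0 < f t := lt_of_lt_of_le hV0p hft
    have h1 := H (f t) hft
    rw [hneg _ hp] at h1
    have h2 : (1 : ℝ) ≤ ((S.filter (fun s => f t ≤ f s)).card : ℝ) := by
      have : 0 < (S.filter (fun s => f t ≤ f s)).card :=
        Finset.card_pos.2 ⟨t, Finset.mem_filter.2 ⟨ht, le_rfl⟩⟩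
      exact_mod_cast this
    have h3 : (1 : ℝ) ≤ B * (f t ^ 6)⁻¹ := le_trans h2 h1
    rw [← div_eq_mul_inv, le_div_iff₀ (by positivity)] at h3
    linarith
  -- pointwise bound
  have hpt : ∀ t ∈ S, f t ^ 6 ≤ V0 ^ 6 + Real.exp 6 * ∑ i ∈ Finset.range (L + 1),
      (if V0 * Real.exp i ≤ f t then (V0 * Real.exp i) ^ 6 else 0) := by
    intro t ht
    have hsum0 : 0 ≤ Real.exp 6 * ∑ i ∈ Finset.range (L + 1),
      (if V0 * Real.exp i ≤ f t then (V0 * Real.exp i) ^ 6 else 0) := by
      apply mul_nonneg (Real.exp_pos _).le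
      apply Finset.sum_nonneg
      intro i _
      split_ifs <;> positivity
    by_cases hft : V0 ≤ f t
    · have hp : 0 < f t := lt_of_lt_of_le hV0p hft
      obtain ⟨i, hi⟩ : ∃ i, i = ⌊Real.log (f t / V0)⌋₊ := ⟨_, rfl⟩
      have hlog0 : 0 ≤ Real.log (f t / V0) := Real.log_nonneg (by rw [le_div_iff₀ hV0p]; linarith)
      have hi1 : (i : ℝ) ≤ Real.log (f t / V0) := by rw [hi]; exact Nat.floor_le hlog0
      have hi2 : Real.log (f t / V0) < i + 1 := by rw [hi]; exact Nat.lt_floor_add_one _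
      have hdiv : 0 < f t / V0 := by positivity
      have h1 : V0 * Real.exp i ≤ f t := by
        have := Real.exp_le_exp.2 hi1
        rw [Real.exp_log hdiv, le_div_iff₀ hV0p] at this
        linarith
      have h2 : f t ≤ V0 * Real.exp (i + 1) := by
        have := Real.exp_le_exp.2 hi2.le
        rw [Real.exp_log hdiv, div_le_iff₀ hV0p] at this
        linarith
      have hiL : i < L + 1 := by
        by_contra hcon
        push Not at hcon
        have hc : ((L : ℝ) + 1) ≤ i := by exact_mod_cast hcon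
        have e1 : f t ^ 6 ≤ B := hbd t ht hft
        have e2 : Real.log (f t ^ 6) ≤ Real.log B := Real.log_le_log (by positivity) e1
        rw [Real.log_pow] at e2
        have e3 : Real.log (f t / V0) ≤ Real.log (f t) := by
          apply Real.log_le_log hdiv
          rw [div_le_iff₀ hV0p]
          have : 1 ≤ V0 := by rw [hV0]; exact Real.one_le_rpow hT he
          nlinarith
        push_cast at e2
        have : (0 : ℝ) ≤ L := Nat.cast_nonneg _
        linarith
      have h3 : (V0 * Real.exp i) ^ 6 ≤ ∑ i ∈ Finset.range (L + 1),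
          (if V0 * Real.exp i ≤ f t then (V0 * Real.exp i) ^ 6 else 0) := by
        have := Finset.single_le_sum (f := fun i : ℕ => if V0 * Real.exp i ≤ f t then (V0 * Real.exp i) ^ 6 else 0)
          (s := Finset.range (L + 1)) (fun i _ => by split_ifs <;> positivity) (Finset.mem_range.2 hiL)
        simp only [h1, if_true] at this
        exact this
      have h4 : f t ^ 6 ≤ Real.exp 6 * (V0 * Real.exp i) ^ 6 := by
        calc f t ^ 6 ≤ (V0 * Real.exp (i + 1)) ^ 6 := pow_le_pow_left₀ hp.le h2 6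
          _ = Real.exp 6 * (V0 * Real.exp i) ^ 6 := by
            rw [Real.exp_add, mul_pow, mul_pow, mul_pow]
            have : Real.exp 6 = Real.exp 1 ^ 6 := by rw [← Real.exp_nat_mul]; norm_num
            rw [this]; ring
      have h5 := mul_le_mul_of_nonneg_left h3 (Real.exp_pos 6).le
      have : 0 ≤ V0 ^ 6 := by positivity
      linarith
    · push Not at hft
      have : f t ^ 6 ≤ V0 ^ 6 := pow_le_pow_left₀ (hf t) hft.le 6
      linarith
  calc ∑ t ∈ S, f t ^ 6 ≤ ∑ t ∈ S, (V0 ^ 6 + Real.exp 6 * ∑ i ∈ Finset.range (L + 1),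
      (if V0 * Real.exp i ≤ f t then (V0 * Real.exp i) ^ 6 else 0)) := Finset.sum_le_sum hpt
    _ = S.card * V0 ^ 6 + Real.exp 6 * ∑ i ∈ Finset.range (L + 1), ∑ t ∈ S,
      (if V0 * Real.exp i ≤ f t then (V0 * Real.exp i) ^ 6 else 0) := by
        rw [Finset.sum_add_distrib, Finset.sum_const, nsmul_eq_mul, ← Finset.mul_sum, Finset.sum_comm]
    _ ≤ S.card * V0 ^ 6 + Real.exp 6 * ∑ i ∈ Finset.range (L + 1), B := by
        gcongr with i hi
        rw [← Finset.sum_filter, Finset.sum_const, nsmul_eq_mul]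
        have hVp : 0 < V0 * Real.exp i := by positivity
        have h1 := H (V0 * Real.exp i) (by
          have : 1 ≤ Real.exp (i : ℝ) := Real.one_le_exp (Nat.cast_nonneg _)
          nlinarith)
        rw [hneg _ hVp] at h1
        calc _ ≤ (B * ((V0 * Real.exp i) ^ 6)⁻¹) * (V0 * Real.exp i) ^ 6 :=
              mul_le_mul_of_nonneg_right h1 (by positivity)
          _ = B := by field_simp
    _ = S.card * V0 ^ 6 + Real.exp 6 * ((L + 1) * B) := by
        rw [Finset.sum_const, Finset.card_range, nsmul_eq_mul]; push_cast; ring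

/-- the maxima on the pieces of `[T, 2T]` -/
lemma pieces {T : ℝ} (hT : 1 ≤ T) {f : ℝ → ℝ} (hf : ∀ t, 0 ≤ f t) (hc : Continuous f) :
    ∃ S : Fin 3 → Finset ℝ, (∀ r, Sep (S r)) ∧ (∀ r, ∀ t ∈ S r, T ≤ t ∧ t ≤ 2 * T) ∧
      ∫ t in T..(2 * T), f t ^ 6 ≤ ∑ r, ∑ t ∈ S r, f t ^ 6 := by
  classical
  obtain ⟨n, hn⟩ : ∃ n, n = ⌈T⌉₊ := ⟨_, rfl⟩
  have hnT : T ≤ n := by rw [hn]; exact Nat.le_ceil T
  have hnT2 : (n : ℝ) < T + 1 := by rw [hn]; exact Nat.ceil_lt_add_one (by linarith)
  have hn0 : (0 : ℝ) < n := by linarith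
  obtain ⟨h, hh⟩ : ∃ h, h = T / n := ⟨_, rfl⟩
  have hh1 : h ≤ 1 := by rw [hh, div_le_one hn0]; exact hnT
  have hh2 : 1 / 2 ≤ h := by rw [hh, le_div_iff₀ hn0]; linarith
  have hnh : n * h = T := by rw [hh]; field_simp
  have hex : ∀ j : ℕ, ∃ t, t ∈ Set.Icc (T + j * h) (T + (j + 1) * h) ∧
      ∀ s ∈ Set.Icc (T + j * h) (T + (j + 1) * h), f s ≤ f t := by
    intro j
    obtain ⟨t, ht, hmax⟩ := isCompact_Icc.exists_isMaxOn (s := Set.Icc (T + j * h) (T + (j + 1) * h))
      (Set.nonempty_Icc.2 (by nlinarith)) (hc.continuousOn)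
    exact ⟨t, ht, fun s hs => hmax hs⟩
  choose p hp hpmax using hex
  have hint : ∀ j : ℕ, ∫ t in (T + j * h)..(T + (j + 1 : ℕ) * h), f t ^ 6 ≤ f (p j) ^ 6 := by
    intro j
    have hle : T + j * h ≤ T + (j + 1 : ℕ) * h := by push_cast; nlinarith
    calc ∫ t in (T + j * h)..(T + (j + 1 : ℕ) * h), f t ^ 6 ≤ ∫ _t in (T + j * h)..(T + (j + 1 : ℕ) * h), f (p j) ^ 6 := by
          apply intervalIntegral.integral_mono_on hle
          · exact (hc.pow 6).intervalIntegrable _ _
          · exact intervalIntegrable_const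
          · intro t ht
            apply pow_le_pow_left₀ (hf t)
            apply hpmax j t
            push_cast at ht
            exact ht
      _ = h * f (p j) ^ 6 := by
          rw [intervalIntegral.integral_const, smul_eq_mul]; congr 1; push_cast; ring
      _ ≤ f (p j) ^ 6 := by
          have : 0 ≤ f (p j) ^ 6 := pow_nonneg (hf _) 6
          nlinarith
  have htot : ∫ t in T..(2 * T), f t ^ 6 ≤ ∑ j ∈ Finset.range n, f (p j) ^ 6 := by
    have h1 := intervalIntegral.sum_integral_adjacent_intervals (f := fun t => f t ^ 6) (μ := volume)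
      (a := fun j : ℕ => T + j * h) (n := n) (fun k _ => (hc.pow 6).intervalIntegrable _ _)
    simp only [Nat.cast_zero, zero_mul, add_zero] at h1
    rw [hnh, show T + T = 2 * T by ring] at h1
    rw [← h1]
    exact Finset.sum_le_sum fun j _ => hint j
  have hsep : ∀ i j : ℕ, i % 3 = j % 3 → i < j → 1 ≤ |p i - p j| := by
    intro i j hij hlt
    have h3 : i + 3 ≤ j := by omega
    have h3' : (i : ℝ) + 3 ≤ j := by exact_mod_cast h3
    have a1 := (hp i).2
    have a2 := (hp j).1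
    have : 1 ≤ p j - p i := by nlinarith
    rw [abs_sub_comm]
    exact le_trans this (le_abs_self _)
  have hsep' : ∀ i j : ℕ, i % 3 = j % 3 → i ≠ j → 1 ≤ |p i - p j| := by
    intro i j hij hne
    rcases lt_or_gt_of_ne hne with h | h
    · exact hsep i j hij h
    · rw [abs_sub_comm]; exact hsep j i hij.symm h
  have hinj : ∀ i j : ℕ, i % 3 = j % 3 → p i = p j → i = j := by
    intro i j hij hpp
    by_contra hne
    have := hsep' i j hij hne
    rw [hpp, sub_self, abs_zero] at this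
    linarith
  refine ⟨fun r => ((Finset.range n).filter (fun j : ℕ => j % 3 = (r : ℕ))).image p, ?_, ?_, ?_⟩
  · intro r s hs t ht hst
    rw [Finset.mem_image] at hs ht
    obtain ⟨i, hi, rfl⟩ := hs
    obtain ⟨j, hj, rfl⟩ := ht
    rw [Finset.mem_filter] at hi hj
    exact hsep' i j (by rw [hi.2, hj.2]) (fun h => hst (by rw [h]))
  · intro r t ht
    rw [Finset.mem_image] at ht
    obtain ⟨i, hi, rfl⟩ := ht
    rw [Finset.mem_filter, Finset.mem_range] at hi
    have hin : ((i : ℝ) + 1) ≤ n := by exact_mod_cast hi.1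
    have a1 := (hp i).1
    have a2 := (hp i).2
    have hi0 : (0 : ℝ) ≤ i := Nat.cast_nonneg _
    constructor
    · nlinarith
    · nlinarith
  · refine le_trans htot (le_of_eq ?_)
    have h1 : ∀ r : Fin 3, ∑ t ∈ ((Finset.range n).filter (fun j : ℕ => j % 3 = (r : ℕ))).image p, f t ^ 6
        = ∑ j ∈ (Finset.range n).filter (fun j : ℕ => j % 3 = (r : ℕ)), f (p j) ^ 6 := by
      intro r
      apply Finset.sum_image
      intro i hi j hj hij
      simp only [Finset.coe_filter, Set.mem_setOf_eq] at hi hj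
      exact hinj i j (by rw [hi.2, hj.2]) hij
    simp only [h1]
    simp only [Finset.sum_filter]
    rw [Finset.sum_comm]
    apply Finset.sum_congr rfl
    intro j _
    have h3 : j % 3 < 3 := Nat.mod_lt _ (by norm_num)
    rw [Finset.sum_eq_single (⟨j % 3, h3⟩ : Fin 3)]
    · simp
    · intro b _ hb
      rw [if_neg]
      intro h
      apply hb
      ext
      exact h.symm
    · intro h; exact absurd (Finset.mem_univ _) h

end OL.R25

namespace OL

open OL.R25

theorem r26 {c1 : ℝ} (hc1 : 0 < c1) (h25 : HR25 c1) : HR26 c1 := by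
  intro e he
  obtain ⟨e', he'def⟩ : ∃ e', e' = e / 6 := ⟨_, rfl⟩
  have he' : 0 < e' := by rw [he'def]; positivity
  obtain ⟨C, hC, H⟩ := h25 e' he'
  have hCs : (0 : ℝ) ≤ |Real.log C| := abs_nonneg _
  refine ⟨3 * (2 + Real.exp 6 * ((|Real.log C| + (1 + e') / e' + 2) * C)), fun T hT => ?_⟩
  have hT0 : 0 < T := by linarith
  obtain ⟨f, hfdef⟩ : ∃ f : ℝ → ℝ, f = fun t : ℝ => ‖riemannZeta ((7 / 12 - c1 : ℝ) + t * I)‖ := ⟨_, rfl⟩
  have hf : ∀ t, 0 ≤ f t := fun t => by rw [hfdef]; exact norm_nonneg _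
  have hcont : Continuous f := by rw [hfdef]; exact zeta_cont_line (by linarith)
  obtain ⟨S, hS, hI, hint⟩ := pieces hT hf hcont
  have hP : ∀ x : ℝ, 0 < T ^ x := fun x => Real.rpow_pos_of_pos hT0 x
  have hmono : ∀ x z : ℝ, x ≤ z → T ^ x ≤ T ^ z := fun x z h => Real.rpow_le_rpow_of_exponent_le hT h
  have hone : ∀ r, ∑ t ∈ S r, f t ^ 6 ≤ (2 + Real.exp 6 * ((|Real.log C| + (1 + e') / e' + 2) * C)) * T ^ (1 + e) := by
    intro r
    have h1 := level_sum hC he'.le hT hf (S r) (by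
      intro V hV
      classical
      apply H T V _ hT hV (sep_subset (Finset.filter_subset _ _) (hS r))
      · intro t ht
        exact hI r t (Finset.mem_filter.1 ht).1
      · intro t ht
        have := (Finset.mem_filter.1 ht).2
        rw [hfdef] at this
        exact this)
    have h2 := sep_card hT0.le (hS r) (inI_of (hI r))
    have h3 : (S r).card * (T ^ e') ^ 6 ≤ 2 * T ^ (1 + e) := by
      have e1 : (T ^ e') ^ 6 = T ^ e := by
        rw [← Real.rpow_natCast, ← Real.rpow_mul hT0.le]; congr 1; rw [he'def]; push_cast; ring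
      rw [e1, Real.rpow_add hT0, Real.rpow_one]
      have := hP e
      nlinarith
    have hlog : |Real.log (C * T ^ (1 + e'))| ≤ |Real.log C| + (1 + e') / e' * T ^ e' := by
      rw [Real.log_mul hC.ne' (hP _).ne', Real.log_rpow hT0]
      refine le_trans (abs_add_le _ _) ?_
      have hl0 : 0 ≤ Real.log T := Real.log_nonneg hT
      have hl := Real.log_le_rpow_div hT0.le he'
      rw [abs_of_nonneg (by positivity : 0 ≤ (1 + e') * Real.log T)]
      have : (1 + e') * Real.log T ≤ (1 + e') * (T ^ e' / e') := mul_le_mul_of_nonneg_left hl (by positivity)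
      have e2 : (1 + e') * (T ^ e' / e') = (1 + e') / e' * T ^ e' := by ring
      linarith
    have hceil : (⌈|Real.log (C * T ^ (1 + e'))|⌉₊ : ℝ) + 1 ≤ (|Real.log C| + (1 + e') / e' + 2) * T ^ e' := by
      have := Nat.ceil_lt_add_one (abs_nonneg (Real.log (C * T ^ (1 + e'))))
      have h1T : 1 ≤ T ^ e' := Real.one_le_rpow hT he'.le
      nlinarith
    have h4 : ((⌈|Real.log (C * T ^ (1 + e'))|⌉₊ : ℝ) + 1) * (C * T ^ (1 + e')) ≤
        (|Real.log C| + (1 + e') / e' + 2) * C * T ^ (1 + e) := by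
      have hT2 : T ^ e' * T ^ (1 + e') ≤ T ^ (1 + e) := by
        rw [← Real.rpow_add hT0]; apply hmono; rw [he'def]; linarith
      calc _ ≤ ((|Real.log C| + (1 + e') / e' + 2) * T ^ e') * (C * T ^ (1 + e')) :=
            mul_le_mul_of_nonneg_right hceil (mul_pos hC (hP _)).le
        _ = (|Real.log C| + (1 + e') / e' + 2) * C * (T ^ e' * T ^ (1 + e')) := by ring
        _ ≤ _ := mul_le_mul_of_nonneg_left hT2 (by positivity)
    have h5 := mul_le_mul_of_nonneg_left h4 (Real.exp_pos 6).le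
    calc ∑ t ∈ S r, f t ^ 6 ≤ _ := h1
      _ ≤ 2 * T ^ (1 + e) + Real.exp 6 * ((|Real.log C| + (1 + e') / e' + 2) * C * T ^ (1 + e)) := add_le_add h3 h5
      _ = _ := by ring
  have hfin : ∫ t in T..(2 * T), f t ^ 6 ≤
      3 * (2 + Real.exp 6 * ((|Real.log C| + (1 + e') / e' + 2) * C)) * T ^ (1 + e) := by
    refine le_trans hint ?_
    rw [Fin.sum_univ_three]
    have a := hone 0
    have b := hone 1
    have c := hone 2
    linarith
  rw [hfdef] at hfin
  exact hfin

end OL
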