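import Mathlib

/-!
# The sixth moment of zeta off the critical line: definitions

`wt` weight, `K` kernel, `Km` its Poisson coefficients, `KY` the truncated dual sum without the
frequency 0, `rr` the exponential sum of a finite set of times, `En` its (smooth) additive energy.
-/

set_option autoImplicit false

open Complex MeasureTheory Set

namespace OL

/-- `e^{ix}` -/
noncomputable def ei (x : ℝ) : ℂ := cexp (((x : ℝ) : ℂ) * I)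

/-- weight `u^(a-1/2) e^(-u)` -/
noncomputable def wt (a : ℕ) (u : ℝ) : ℝ := u ^ ((a : ℝ) - 1 / 2) * Real.exp (-u)

/-- kernel `∑_{n ≥ 1} wt (n/M) n^{iτ}` -/
noncomputable def K (a : ℕ) (M τ : ℝ) : ℂ :=
  ∑' n : ℕ, ((wt a ((n + 1 : ℝ) / M) : ℝ) : ℂ) * ei (τ * Real.log (n + 1 : ℝ))

/-- Poisson coefficient `∫_0^∞ wt u u^{iτ} e(-m M u) du` -/
noncomputable def Km (a : ℕ) (M τ : ℝ) (m : ℤ) : ℂ :=
  ∫ u in Ioi (0 : ℝ), ((wt a u : ℝ) : ℂ) * ei (τ * Real.log u - 2 * Real.pi * m * M * u)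

/-- the frequencies `0 < |m| ≤ Y` -/
noncomputable def Zs (Y : ℕ) : Finset ℤ := (Finset.Icc (-(Y : ℤ)) (Y : ℤ)).erase 0

/-- truncated dual sum -/
noncomputable def KY (a Y : ℕ) (M τ : ℝ) : ℂ :=
  (M : ℂ) * ei (τ * Real.log M) * ∑ m ∈ Zs Y, Km a M τ m

/-- `∑_{1 ≤ m ≤ Y} m^{-1/2-iv}` -/
noncomputable def P (Y : ℕ) (v : ℝ) : ℂ :=
  ∑ m ∈ Finset.Icc 1 Y, (((Real.sqrt m)⁻¹ : ℝ) : ℂ) * ei (-(v * Real.log m))

/-- the points of `S` have distance at least 1 -/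
def Sep (S : Finset ℝ) : Prop := ∀ s ∈ S, ∀ t ∈ S, s ≠ t → 1 ≤ |s - t|

/-- `S` lies in an interval of length `T` -/
def InI (S : Finset ℝ) (T : ℝ) : Prop := ∃ A : ℝ, ∀ t ∈ S, A ≤ t ∧ t ≤ A + T

/-- `∑_{t ∈ S} e^{itx}` -/
noncomputable def rr (S : Finset ℝ) (x : ℝ) : ℂ := ∑ t ∈ S, ei (t * x)

/-- smooth additive energy -/
noncomputable def En (S : Finset ℝ) : ℝ :=
  ∑ t1 ∈ S, ∑ t2 ∈ S, ∑ t3 ∈ S, ∑ t4 ∈ S, 4 / (4 + (t1 + t2 - t3 - t4) ^ 2)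

/-- Dirichlet polynomial `∑_{M < n ≤ 4M} b_n n^{-it}` -/
noncomputable def Dp (b : ℕ → ℂ) (M t : ℝ) : ℂ :=
  ∑ n ∈ Finset.Ioc ⌊M⌋₊ ⌊4 * M⌋₊, b n * ei (-(t * Real.log n))

/-- Dirichlet polynomial `∑_{N < n ≤ 2N} a_n n^{-it}` -/
noncomputable def Dn (b : ℕ → ℂ) (N : ℕ) (t : ℝ) : ℂ :=
  ∑ n ∈ Finset.Ioc N (2 * N), b n * ei (-(t * Real.log n))

/-- `ζ` smoothed on the line `β`: `∫ |ζ(β + i(t+y))| e^{-|y|} dy` -/
noncomputable def Zl (β t : ℝ) : ℝ := ∫ y : ℝ, ‖riemannZeta (β + (t + y : ℝ) * I)‖ * Real.exp (-|y|)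

/-- smoothed Dirichlet series `∑ e^{-n/X} n^{-σ-it}` -/
noncomputable def Sx (σ X t : ℝ) : ℂ :=
  ∑' n : ℕ, ((Real.exp (-((n + 1 : ℝ) / X)) * (n + 1 : ℝ) ^ (-σ) : ℝ) : ℂ) *
    ei (-(t * Real.log (n + 1 : ℝ)))

/-- weight in the cubic trace -/
noncomputable def Om (a : ℕ) (x y : ℝ) : ℝ :=
  Real.exp (((a : ℝ) + 1 / 2) * (x + y)) * (1 + Real.exp x + Real.exp y) ^ (-(3 * (a : ℝ) - 1 / 2))

/-- `∑_{m ∈ ℤ} 1 / (1 + M² (θ + m)²)` -/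
noncomputable def Th (M θ : ℝ) : ℝ := ∑' m : ℤ, 1 / (1 + (M * (θ + m)) ^ 2)

/-- number of triples `(x, y, z)` with `x y z = n` -/
def d3 (n : ℕ) : ℕ := ∑ d ∈ n.divisors, d.divisors.card

end OL
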