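import Pool.Agent.Lib.MP_39df77_nt.OL.D1

/-!
# R27: the sixth moment of the smoothed zeta function on the line `s0`
-/

set_option autoImplicit false

open Complex MeasureTheory Set Filter Topology

namespace OL

/-- doubling -/
lemma E4_double {φ : ℝ → ℝ} (hφ : Continuous φ) (h0 : ∀ u, 0 ≤ φ u) {e C : ℝ} (he : 0 < e)
    (h : ∀ T : ℝ, 1 ≤ T → ∫ t in T..(2 * T), φ t ≤ C * T ^ (1 + e)) :
    ∃ A : ℝ, 0 ≤ A ∧ ∀ U : ℝ, 1 ≤ U → ∫ t in (0 : ℝ)..U, φ t ≤ A * U ^ (1 + e) := by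
  have hint : ∀ a b : ℝ, IntervalIntegrable φ volume a b := fun a b => hφ.intervalIntegrable a b
  set A : ℝ := max (∫ t in (0 : ℝ)..2, φ t) (max C 0) with hA
  have hA0 : 0 ≤ A := (le_max_right _ _).trans (le_max_right _ _)
  have hAC : C ≤ A := (le_max_left _ _).trans (le_max_right _ _)
  have hA2 : (∫ t in (0 : ℝ)..2, φ t) ≤ A := le_max_left _ _
  refine ⟨A, hA0, ?_⟩
  have key : ∀ n : ℕ, ∀ U : ℝ, 1 ≤ U → U ≤ 2 ^ (n + 1) → ∫ t in (0 : ℝ)..U, φ t ≤ A * U ^ (1 + e) := by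
    intro n
    induction n with
    | zero =>
      intro U h1 h2
      have h3 : (1 : ℝ) ≤ U ^ (1 + e) := Real.one_le_rpow h1 (by linarith)
      have h4 : ∫ t in (0 : ℝ)..U, φ t ≤ ∫ t in (0 : ℝ)..2, φ t := by
        rw [← intervalIntegral.integral_add_adjacent_intervals (hint 0 U) (hint U 2)]
        have : 0 ≤ ∫ t in U..2, φ t :=
          intervalIntegral.integral_nonneg (by simpa using h2) fun t _ => h0 t
        linarith
      nlinarith
    | succ n ih =>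
      intro U h1 h2
      rcases le_or_gt U 2 with h5 | h5
      · exact (ih U h1 (h5.trans (by
          have : (2 : ℝ) ^ 1 ≤ 2 ^ (n + 1) := pow_le_pow_right₀ one_le_two (by omega)
          simpa using this)))
      · have h6 := ih (U / 2) (by linarith) (by
          rw [div_le_iff₀ two_pos, ← pow_succ]
          exact h2)
        have h7 := h (U / 2) (by linarith)
        have e1 : 2 * (U / 2) = U := by ring
        rw [e1] at h7
        rw [← intervalIntegral.integral_add_adjacent_intervals (hint 0 (U / 2)) (hint (U / 2) U)]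
        have h8 : 0 ≤ (U / 2) ^ (1 + e) := by positivity
        have h9 : 2 * (U / 2) ^ (1 + e) ≤ U ^ (1 + e) := by
          have h10 : U ^ (1 + e) = 2 ^ (1 + e) * (U / 2) ^ (1 + e) := by
            rw [← Real.mul_rpow two_pos.le (by linarith)]
            congr 1
            ring
          have h11 : (2 : ℝ) ≤ 2 ^ (1 + e) := by
            have := Real.rpow_le_rpow_of_exponent_le one_le_two (show (1 : ℝ) ≤ 1 + e by linarith)
            rwa [Real.rpow_one] at this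
          rw [h10]
          exact mul_le_mul_of_nonneg_right h11 h8
        calc (∫ t in (0 : ℝ)..(U / 2), φ t) + ∫ t in (U / 2)..U, φ t
            ≤ A * (U / 2) ^ (1 + e) + C * (U / 2) ^ (1 + e) := add_le_add h6 h7
          _ ≤ A * (U / 2) ^ (1 + e) + A * (U / 2) ^ (1 + e) := by gcongr
          _ = A * (2 * (U / 2) ^ (1 + e)) := by ring
          _ ≤ A * U ^ (1 + e) := by gcongr
  intro U hU
  obtain ⟨n, hn⟩ := pow_unbounded_of_one_lt U one_lt_two
  exact key n U hU (hn.le.trans (pow_le_pow_right₀ one_le_two (by omega)))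

/-- Jensen by the tangent -/
lemma E4_six {x c : ℝ} (hx : 0 ≤ x) (hc : 0 ≤ c) : 6 * c ^ 5 * x ≤ x ^ 6 + 5 * c ^ 6 := by
  have h : x ^ 6 + 5 * c ^ 6 - 6 * c ^ 5 * x =
      (x - c) ^ 2 * (x ^ 4 + 2 * c * x ^ 3 + 3 * c ^ 2 * x ^ 2 + 4 * c ^ 3 * x + 5 * c ^ 4) := by ring
  have h2 : 0 ≤ (x - c) ^ 2 * (x ^ 4 + 2 * c * x ^ 3 + 3 * c ^ 2 * x ^ 2 + 4 * c ^ 3 * x + 5 * c ^ 4) := by
    positivity
  linarith

lemma E4_jensen {f w : ℝ → ℝ} (hf : ∀ y, 0 ≤ f y) (hw : ∀ y, 0 ≤ w y) (i1 : Integrable w)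
    (h2 : ∫ y, w y = 2) (i2 : Integrable fun y => f y * w y) (i3 : Integrable fun y => f y ^ 6 * w y) :
    (∫ y, f y * w y) ^ 6 ≤ 32 * ∫ y, f y ^ 6 * w y := by
  set Z : ℝ := ∫ y, f y * w y with hZ
  have hZ0 : 0 ≤ Z := integral_nonneg fun y => mul_nonneg (hf y) (hw y)
  have h3 : ∫ y, 6 * (Z / 2) ^ 5 * (f y * w y) ≤ ∫ y, (f y ^ 6 * w y + 5 * (Z / 2) ^ 6 * w y) := by
    refine integral_mono (i2.const_mul _) (i3.add (i1.const_mul _)) fun y => ?_
    have := mul_le_mul_of_nonneg_right (E4_six (hf y) (c := Z / 2) (by positivity)) (hw y)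
    calc 6 * (Z / 2) ^ 5 * (f y * w y) = 6 * (Z / 2) ^ 5 * f y * w y := by ring
      _ ≤ (f y ^ 6 + 5 * (Z / 2) ^ 6) * w y := this
      _ = _ := by ring
  rw [integral_const_mul, integral_add i3 (i1.const_mul _), integral_const_mul, h2, ← hZ] at h3
  nlinarith

lemma E4_w : Integrable (fun y : ℝ => Real.exp (-|y|)) ∧ ∫ y : ℝ, Real.exp (-|y|) = 2 := by
  constructor
  · have := S6.intg_exp_abs (k := 1) one_pos
    simpa using this
  · have h := integral_comp_abs (f := fun x : ℝ => Real.exp (-x))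
    rw [h, integral_exp_neg_Ioi_zero]
    norm_num

lemma E4_growth {s0 : ℝ} (h0 : 1 / 2 ≤ s0) (h1 : s0 < 1) : ∃ K : ℝ, 1 ≤ K ∧
    ∀ u : ℝ, ‖riemannZeta (s0 + (u : ℝ) * I)‖ ≤ K * (1 + |u|) := by
  obtain ⟨C, hC1, hC⟩ := S6UZ.zeta_growth
  have hb0 : 0 < 1 - s0 := by linarith
  refine ⟨1 / (1 - s0) + C, by
    have : 0 ≤ 1 / (1 - s0) := by positivity
    linarith, fun u => ?_⟩
  have hne : (s0 + (u : ℝ) * I : ℂ) ≠ 1 := by
    intro h
    have := congrArg Complex.re h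
    simp at this
    linarith
  refine (hC _ (by simpa using h0) hne).trans ?_
  have h3 : 1 - s0 ≤ ‖(s0 + (u : ℝ) * I : ℂ) - 1‖ := by
    have := Complex.abs_re_le_norm ((s0 + (u : ℝ) * I : ℂ) - 1)
    have h4 : ((s0 + (u : ℝ) * I : ℂ) - 1).re = s0 - 1 := by simp
    rw [h4] at this
    have h5 := neg_abs_le (s0 - 1)
    linarith
  have h4 : 1 / ‖(s0 + (u : ℝ) * I : ℂ) - 1‖ ≤ 1 / (1 - s0) :=
    one_div_le_one_div_of_le hb0 h3
  have h5 : ‖(s0 + (u : ℝ) * I : ℂ)‖ ≤ 1 + |u| := by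
    refine (norm_add_le _ _).trans ?_
    rw [norm_mul, norm_I, mul_one, Complex.norm_real, Complex.norm_real, Real.norm_eq_abs,
      Real.norm_eq_abs, abs_of_nonneg (by linarith)]
    linarith
  have h7 : 0 ≤ 1 / (1 - s0) := by positivity
  have h8 : 1 ≤ 1 + |u| := by
    have := abs_nonneg u
    linarith
  calc _ ≤ 1 / (1 - s0) * (1 + |u|) + C * (1 + |u|) := by
        apply add_le_add
        · exact h4.trans (le_mul_of_one_le_right h7 h8)
        · exact mul_le_mul_of_nonneg_left h5 (by linarith)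
    _ = _ := by ring

lemma E4_cont {s0 : ℝ} (h1 : s0 < 1) : Continuous fun u : ℝ => ‖riemannZeta (s0 + (u : ℝ) * I)‖ ^ 6 := by
  refine Continuous.pow (Continuous.norm ?_) 6
  rw [continuous_iff_continuousAt]
  intro y
  have hne : (s0 + (y : ℝ) * I : ℂ) ≠ 1 := by
    intro h
    have := congrArg Complex.re h
    simp at this
    linarith
  exact ContinuousAt.comp (f := fun y : ℝ => (s0 + (y : ℝ) * I : ℂ)) (g := riemannZeta)
    (differentiableAt_riemannZeta hne).continuousAt (by fun_prop)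

/-- the smoothed sixth power -/
noncomputable def GG (s0 t : ℝ) : ℝ :=
  ∫ y : ℝ, ‖riemannZeta (s0 + (t + y : ℝ) * I)‖ ^ 6 * Real.exp (-|y|)

lemma E4_maj (y : ℝ) : (1 + |y|) ^ 6 * Real.exp (-|y|) ≤ 40320 * Real.exp 1 * (1 + y ^ 2)⁻¹ := by
  have hy := abs_nonneg y
  have h1 : (1 + |y|) ^ 8 / 40320 ≤ Real.exp (1 + |y|) := by
    have := Real.pow_div_factorial_le_exp (1 + |y|) (by positivity) 8
    simpa [Nat.factorial] using this
  rw [Real.exp_add] at h1
  have h2 : Real.exp |y| * Real.exp (-|y|) = 1 := by rw [← Real.exp_add]; simp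
  have h3 : (1 + |y|) ^ 8 * Real.exp (-|y|) ≤ 40320 * Real.exp 1 := by
    have h4 := mul_le_mul_of_nonneg_right h1 (Real.exp_pos (-|y|)).le
    have h5 : Real.exp 1 * Real.exp |y| * Real.exp (-|y|) = Real.exp 1 := by
      rw [mul_assoc, h2, mul_one]
    rw [h5] at h4
    linarith
  rw [← div_eq_mul_inv, le_div_iff₀ (by positivity)]
  have h5 : 1 + y ^ 2 ≤ (1 + |y|) ^ 2 := by nlinarith [sq_abs y]
  have hE := (Real.exp_pos (-|y|)).le
  calc (1 + |y|) ^ 6 * Real.exp (-|y|) * (1 + y ^ 2)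
      ≤ (1 + |y|) ^ 6 * Real.exp (-|y|) * (1 + |y|) ^ 2 := by gcongr
    _ = (1 + |y|) ^ 8 * Real.exp (-|y|) := by ring
    _ ≤ _ := h3

lemma E4_bound {s0 K : ℝ} (hK1 : 1 ≤ K) (hK : ∀ u : ℝ, ‖riemannZeta (s0 + (u : ℝ) * I)‖ ≤ K * (1 + |u|))
    {T t : ℝ} (ht : |t| ≤ T) (y : ℝ) :
    ‖riemannZeta (s0 + (t + y : ℝ) * I)‖ ^ 6 * Real.exp (-|y|) ≤
      K ^ 6 * (1 + T) ^ 6 * (40320 * Real.exp 1) * (1 + y ^ 2)⁻¹ := by
  have hy := abs_nonneg y
  have ht0 := abs_nonneg t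
  have h1 : ‖riemannZeta (s0 + (t + y : ℝ) * I)‖ ≤ K * ((1 + T) * (1 + |y|)) := by
    refine (hK (t + y)).trans ?_
    have h2 : 1 + |t + y| ≤ (1 + T) * (1 + |y|) := by
      have := abs_add_le t y
      nlinarith
    exact mul_le_mul_of_nonneg_left h2 (by linarith)
  have h2 : ‖riemannZeta (s0 + (t + y : ℝ) * I)‖ ^ 6 ≤ (K * ((1 + T) * (1 + |y|))) ^ 6 :=
    pow_le_pow_left₀ (norm_nonneg _) h1 6
  have hT : 0 ≤ 1 + T := by linarith
  calc _ ≤ (K * ((1 + T) * (1 + |y|))) ^ 6 * Real.exp (-|y|) := by gcongr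
    _ = K ^ 6 * (1 + T) ^ 6 * ((1 + |y|) ^ 6 * Real.exp (-|y|)) := by ring
    _ ≤ K ^ 6 * (1 + T) ^ 6 * (40320 * Real.exp 1 * (1 + y ^ 2)⁻¹) := by
        have := E4_maj y
        gcongr
    _ = _ := by ring

lemma E4_GGint {s0 : ℝ} (h0 : 1 / 2 ≤ s0) (h1 : s0 < 1) (t : ℝ) :
    Integrable fun y : ℝ => ‖riemannZeta (s0 + (t + y : ℝ) * I)‖ ^ 6 * Real.exp (-|y|) := by
  obtain ⟨K, hK1, hK⟩ := E4_growth h0 h1
  have hmaj : Integrable fun y : ℝ => K ^ 6 * (1 + |t|) ^ 6 * (40320 * Real.exp 1) * (1 + y ^ 2)⁻¹ :=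
    integrable_inv_one_add_sq.const_mul _
  refine hmaj.mono' (Continuous.aestronglyMeasurable ?_) (Eventually.of_forall fun y => ?_)
  · exact ((E4_cont h1).comp (continuous_const.add continuous_id)).mul (by fun_prop)
  · rw [Real.norm_of_nonneg (by positivity)]
    exact E4_bound hK1 hK le_rfl y

lemma E4_Zl6 {s0 : ℝ} (h0 : 1 / 2 ≤ s0) (h1 : s0 < 1) (t : ℝ) : Zl s0 t ^ 6 ≤ 32 * GG s0 t := by
  unfold Zl GG
  exact E4_jensen (f := fun y => ‖riemannZeta (s0 + (t + y : ℝ) * I)‖) (w := fun y => Real.exp (-|y|))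
    (fun y => norm_nonneg _) (fun y => (Real.exp_pos _).le) E4_w.1 E4_w.2 (D1_Zl_int h0 h1 t)
    (E4_GGint h0 h1 t)

/-- R27a -/
theorem E4_GG {s0 e C : ℝ} (h0 : 1 / 2 ≤ s0) (h1 : s0 < 1) (he : 0 < e) (he1 : e ≤ 1)
    (h : ∀ T : ℝ, 1 ≤ T → ∫ t in T..(2 * T), ‖riemannZeta (s0 + t * I)‖ ^ 6 ≤ C * T ^ (1 + e)) :
    ∃ A : ℝ, 0 ≤ A ∧ ∀ T : ℝ, 1 ≤ T → IntervalIntegrable (GG s0) volume 0 T ∧
      ∫ t in (0 : ℝ)..T, GG s0 t ≤ A * T ^ (1 + e) := by
  have hcont := E4_cont h1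
  obtain ⟨A, hA0, hA⟩ := E4_double hcont (fun u => by positivity) he h
  obtain ⟨K, hK1, hK⟩ := E4_growth h0 h1
  -- symmetric integrals
  have hsym : ∀ u : ℝ, ‖riemannZeta (s0 + ((-u : ℝ) : ℂ) * I)‖ ^ 6 =
      ‖riemannZeta (s0 + (u : ℝ) * I)‖ ^ 6 := by
    intro u
    have : (s0 + ((-u : ℝ) : ℂ) * I) = (starRingEnd ℂ) (s0 + (u : ℝ) * I) := by
      simp
    rw [this, riemannZeta_conj, Complex.norm_conj]
  have hint : ∀ a b : ℝ, IntervalIntegrable (fun u : ℝ => ‖riemannZeta (s0 + (u : ℝ) * I)‖ ^ 6)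
      volume a b := fun a b => hcont.intervalIntegrable a b
  have hwin : ∀ T : ℝ, 1 ≤ T → ∀ y : ℝ, ∫ t in (0 : ℝ)..T, ‖riemannZeta (s0 + (t + y : ℝ) * I)‖ ^ 6 ≤
      2 * A * T ^ (1 + e) * (1 + |y|) ^ 2 := by
    intro T hT y
    have hy := abs_nonneg y
    set U : ℝ := T + |y| with hU
    have hU1 : 1 ≤ U := by linarith
    have e1 : ∫ t in (0 : ℝ)..T, ‖riemannZeta (s0 + (t + y : ℝ) * I)‖ ^ 6 =
        ∫ t in y..(T + y), ‖riemannZeta (s0 + (t : ℝ) * I)‖ ^ 6 := by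
      have := intervalIntegral.integral_comp_add_right (a := 0) (b := T)
        (fun u : ℝ => ‖riemannZeta (s0 + (u : ℝ) * I)‖ ^ 6) y
      rw [this, zero_add]
    have e2 : ∫ t in y..(T + y), ‖riemannZeta (s0 + (t : ℝ) * I)‖ ^ 6 ≤
        ∫ t in (-U)..U, ‖riemannZeta (s0 + (t : ℝ) * I)‖ ^ 6 := by
      have a1 : -U ≤ y := by
        have := neg_abs_le y
        linarith
      have a2 : T + y ≤ U := by
        have := le_abs_self y
        linarith
      rw [← intervalIntegral.integral_add_adjacent_intervals (hint (-U) y) (hint y U),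
        ← intervalIntegral.integral_add_adjacent_intervals (hint y (T + y)) (hint (T + y) U)]
      have b1 : 0 ≤ ∫ t in (-U)..y, ‖riemannZeta (s0 + (t : ℝ) * I)‖ ^ 6 :=
        intervalIntegral.integral_nonneg a1 fun t _ => by positivity
      have b2 : 0 ≤ ∫ t in (T + y)..U, ‖riemannZeta (s0 + (t : ℝ) * I)‖ ^ 6 :=
        intervalIntegral.integral_nonneg a2 fun t _ => by positivity
      linarith
    have e3 : ∫ t in (-U)..U, ‖riemannZeta (s0 + (t : ℝ) * I)‖ ^ 6 =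
        2 * ∫ t in (0 : ℝ)..U, ‖riemannZeta (s0 + (t : ℝ) * I)‖ ^ 6 := by
      rw [← intervalIntegral.integral_add_adjacent_intervals (hint (-U) 0) (hint 0 U)]
      have h3 : ∫ t in (-U)..0, ‖riemannZeta (s0 + (t : ℝ) * I)‖ ^ 6 =
          ∫ t in (0 : ℝ)..U, ‖riemannZeta (s0 + (t : ℝ) * I)‖ ^ 6 := by
        have h4 := intervalIntegral.integral_comp_neg (a := 0) (b := U)
          (fun u : ℝ => ‖riemannZeta (s0 + (u : ℝ) * I)‖ ^ 6)
        rw [neg_zero] at h4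
        rw [← h4]
        congr 1
        funext t
        exact hsym t
      rw [h3]
      ring
    have e4 := hA U hU1
    have e5 : U ^ (1 + e) ≤ T ^ (1 + e) * (1 + |y|) ^ 2 := by
      have h5 : U ≤ T * (1 + |y|) := by
        rw [hU]
        nlinarith
      have h6 : (1 + |y|) ^ (1 + e) ≤ (1 + |y|) ^ 2 := by
        rw [← Real.rpow_natCast]
        exact Real.rpow_le_rpow_of_exponent_le (by linarith) (by push_cast; linarith)
      calc U ^ (1 + e) ≤ (T * (1 + |y|)) ^ (1 + e) :=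
            Real.rpow_le_rpow (by linarith) h5 (by linarith)
        _ = T ^ (1 + e) * (1 + |y|) ^ (1 + e) := Real.mul_rpow (by linarith) (by linarith)
        _ ≤ _ := by gcongr
    rw [e1]
    refine e2.trans ?_
    rw [e3]
    calc 2 * ∫ t in (0 : ℝ)..U, ‖riemannZeta (s0 + (t : ℝ) * I)‖ ^ 6 ≤ 2 * (A * U ^ (1 + e)) := by
          gcongr
      _ ≤ 2 * (A * (T ^ (1 + e) * (1 + |y|) ^ 2)) := by gcongr
      _ = _ := by ring
  refine ⟨2 * A * ∫ y : ℝ, (1 + |y|) ^ 2 * Real.exp (-|y|), ?_, ?_⟩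
  · have : 0 ≤ ∫ y : ℝ, (1 + |y|) ^ 2 * Real.exp (-|y|) := integral_nonneg fun y => by positivity
    positivity
  intro T hT
  have hT0 : (0 : ℝ) ≤ T := by linarith
  -- Fubini
  set F : ℝ × ℝ → ℝ := fun z => ‖riemannZeta (s0 + (z.1 + z.2 : ℝ) * I)‖ ^ 6 * Real.exp (-|z.2|)
    with hF
  have hFc : Continuous F := by
    have h2 : Continuous fun z : ℝ × ℝ => ‖riemannZeta (s0 + (z.1 + z.2 : ℝ) * I)‖ ^ 6 :=
      hcont.comp (continuous_fst.add continuous_snd)
    exact h2.mul (by fun_prop)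
  have hconst : Integrable (fun _ : ℝ => K ^ 6 * (1 + T) ^ 6 * (40320 * Real.exp 1))
      (volume.restrict (Ioc 0 T)) := by
    exact integrable_const _
  have hFi : Integrable F ((volume.restrict (Ioc 0 T)).prod volume) := by
    have hm := hconst.mul_prod integrable_inv_one_add_sq (μ := volume.restrict (Ioc 0 T))
      (ν := (volume : Measure ℝ))
    refine hm.mono' hFc.aestronglyMeasurable ?_
    have hae : ∀ᵐ z : ℝ × ℝ ∂((volume.restrict (Ioc 0 T)).prod volume), z.1 ∈ Ioc 0 T := by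
      have := (Measure.quasiMeasurePreserving_fst (μ := volume.restrict (Ioc (0 : ℝ) T))
        (ν := (volume : Measure ℝ))).ae (ae_restrict_mem measurableSet_Ioc)
      exact this
    filter_upwards [hae] with z hz
    rw [Real.norm_of_nonneg (by positivity)]
    exact E4_bound hK1 hK (by rw [abs_of_pos hz.1]; exact hz.2) z.2
  have hG : ∀ t, GG s0 t = ∫ y : ℝ, F (t, y) := fun t => rfl
  have hGi : Integrable (GG s0) (volume.restrict (Ioc 0 T)) := hFi.integral_prod_left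
  refine ⟨(intervalIntegrable_iff_integrableOn_Ioc_of_le hT0).2 hGi, ?_⟩
  rw [intervalIntegral.integral_of_le hT0]
  have e6 : ∫ t in Ioc 0 T, GG s0 t = ∫ y : ℝ, ∫ t in Ioc 0 T, F (t, y) := by
    have := integral_integral_swap (μ := volume.restrict (Ioc 0 T)) (ν := (volume : Measure ℝ))
      (f := fun t y => F (t, y)) hFi
    exact this
  rw [e6]
  have hmaj : Integrable fun y : ℝ => (1 + |y|) ^ 2 * Real.exp (-|y|) := by
    have hm : Integrable fun y : ℝ => (40320 * Real.exp 1) * (1 + y ^ 2)⁻¹ :=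
      integrable_inv_one_add_sq.const_mul _
    refine hm.mono' (Continuous.aestronglyMeasurable (by fun_prop)) (Eventually.of_forall fun y => ?_)
    rw [Real.norm_of_nonneg (by positivity)]
    refine le_trans ?_ (E4_maj y)
    have hy := abs_nonneg y
    have : (1 + |y|) ^ 2 ≤ (1 + |y|) ^ 6 := pow_le_pow_right₀ (by linarith) (by norm_num)
    gcongr
  have e7 : ∫ y : ℝ, ∫ t in Ioc 0 T, F (t, y) ≤
      ∫ y : ℝ, 2 * A * T ^ (1 + e) * ((1 + |y|) ^ 2 * Real.exp (-|y|)) := by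
    refine integral_mono hFi.integral_prod_right (hmaj.const_mul _) fun y => ?_
    have h8 : ∫ t in Ioc 0 T, F (t, y) =
        (∫ t in (0 : ℝ)..T, ‖riemannZeta (s0 + (t + y : ℝ) * I)‖ ^ 6) * Real.exp (-|y|) := by
      rw [intervalIntegral.integral_of_le hT0, ← integral_mul_const]
    show ∫ t in Ioc 0 T, F (t, y) ≤ _
    rw [h8]
    calc _ ≤ (2 * A * T ^ (1 + e) * (1 + |y|) ^ 2) * Real.exp (-|y|) :=
          mul_le_mul_of_nonneg_right (hwin T hT y) (Real.exp_pos _).le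
      _ = _ := by ring
  refine e7.trans (le_of_eq ?_)
  rw [integral_const_mul]
  ring

end OL
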