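import Pool.Agent.Lib.MP_39df77_nt.OL.E3
import Pool.Agent.Lib.MP_39df77_nt.OL.E4

/-!
# R27-R30: from an upper bound on the line `s0` to the asymptotic formula to the right of it
-/

set_option autoImplicit false

open Complex MeasureTheory Set Filter Topology

namespace OL

/-- `(x+y)^6 ≤ (1-l)^{-5} x^6 + l^{-5} y^6` -/
lemma E5_conv {x y l : ℝ} (hx : 0 ≤ x) (hy : 0 ≤ y) (h0 : 0 < l) (h1 : l < 1) :
    (x + y) ^ 6 ≤ ((1 - l) ^ 5)⁻¹ * x ^ 6 + (l ^ 5)⁻¹ * y ^ 6 := by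
  have h2 : 0 < 1 - l := by linarith
  have hx' : x / (1 - l) ∈ Ici (0 : ℝ) := by
    simp only [mem_Ici]
    positivity
  have hy' : y / l ∈ Ici (0 : ℝ) := by
    simp only [mem_Ici]
    positivity
  have h := (convexOn_pow (𝕜 := ℝ) 6).2 hx' hy' h2.le h0.le (by ring)
  simp only [smul_eq_mul] at h
  have e1 : (1 - l) * (x / (1 - l)) = x := by field_simp
  have e2 : l * (y / l) = y := by field_simp
  rw [e1, e2] at h
  refine h.trans (le_of_eq ?_)
  rw [div_pow, div_pow]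
  field_simp

lemma E5_squeeze {A B R : ℝ → ℝ} {L : ℝ} (hB : Tendsto B atTop (𝓝 L)) (hR : Tendsto R atTop (𝓝 0))
    (hR0 : ∀ᶠ T in atTop, 0 ≤ R T)
    (h1 : ∀ᶠ T in atTop, ∀ l : ℝ, 0 < l → l < 1 → A T ≤ ((1 - l) ^ 5)⁻¹ * B T + (l ^ 5)⁻¹ * R T)
    (h2 : ∀ᶠ T in atTop, ∀ l : ℝ, 0 < l → l < 1 → B T ≤ ((1 - l) ^ 5)⁻¹ * A T + (l ^ 5)⁻¹ * R T) :
    Tendsto A atTop (𝓝 L) := by
  set q : ℝ → ℝ := fun T => R T + T⁻¹ with hq
  have hq0 : Tendsto q atTop (𝓝 0) := by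
    have := hR.add tendsto_inv_atTop_zero
    simpa using this
  have hl : Tendsto (fun T => q T ^ (1 / 10 : ℝ)) atTop (𝓝 0) := by
    have := hq0.rpow_const (p := 1 / 10) (Or.inr (by norm_num))
    rwa [Real.zero_rpow (by norm_num)] at this
  have hs : Tendsto (fun T => q T ^ (1 / 2 : ℝ)) atTop (𝓝 0) := by
    have := hq0.rpow_const (p := 1 / 2) (Or.inr (by norm_num))
    rwa [Real.zero_rpow (by norm_num)] at this
  have h1l : Tendsto (fun T => (1 - q T ^ (1 / 10 : ℝ)) ^ 5) atTop (𝓝 1) := by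
    have := (hl.const_sub 1).pow 5
    simpa using this
  have hup : Tendsto (fun T => ((1 - q T ^ (1 / 10 : ℝ)) ^ 5)⁻¹ * B T + q T ^ (1 / 2 : ℝ)) atTop (𝓝 L) := by
    have := ((h1l.inv₀ one_ne_zero).mul hB).add hs
    simpa using this
  have hlo : Tendsto (fun T => (1 - q T ^ (1 / 10 : ℝ)) ^ 5 * (B T - q T ^ (1 / 2 : ℝ))) atTop (𝓝 L) := by
    have := h1l.mul (hB.sub hs)
    simpa using this
  have hlt : ∀ᶠ T in atTop, q T ^ (1 / 10 : ℝ) < 1 := hl.eventually (gt_mem_nhds one_pos)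
  have hpos : ∀ᶠ T in atTop, 0 < q T ∧ R T ≤ q T := by
    filter_upwards [hR0, eventually_gt_atTop 0] with T hT hT0
    have : 0 < T⁻¹ := inv_pos.2 hT0
    constructor
    · show 0 < R T + T⁻¹
      linarith
    · show R T ≤ R T + T⁻¹
      linarith
  have hbnd : ∀ᶠ T in atTop, ((q T ^ (1 / 10 : ℝ)) ^ 5)⁻¹ * R T ≤ q T ^ (1 / 2 : ℝ) := by
    filter_upwards [hpos] with T hT
    have e1 : (q T ^ (1 / 10 : ℝ)) ^ 5 = q T ^ (1 / 2 : ℝ) := by
      rw [← Real.rpow_natCast, ← Real.rpow_mul hT.1.le]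
      congr 1
      norm_num
    have e2 : q T = q T ^ (1 / 2 : ℝ) * q T ^ (1 / 2 : ℝ) := by
      rw [← Real.rpow_add hT.1]
      norm_num
    have h3 : 0 < q T ^ (1 / 2 : ℝ) := Real.rpow_pos_of_pos hT.1 _
    rw [e1, inv_mul_le_iff₀ h3, ← e2]
    exact hT.2
  refine tendsto_of_tendsto_of_tendsto_of_le_of_le' hlo hup ?_ ?_
  · filter_upwards [h2, hlt, hpos, hbnd] with T a1 a2 a3 a4
    have hl0 : 0 < q T ^ (1 / 10 : ℝ) := Real.rpow_pos_of_pos a3.1 _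
    have h3 := a1 _ hl0 a2
    have h4 : 0 < (1 - q T ^ (1 / 10 : ℝ)) ^ 5 := pow_pos (by linarith) 5
    have h5 : B T - q T ^ (1 / 2 : ℝ) ≤ ((1 - q T ^ (1 / 10 : ℝ)) ^ 5)⁻¹ * A T := by linarith
    calc (1 - q T ^ (1 / 10 : ℝ)) ^ 5 * (B T - q T ^ (1 / 2 : ℝ))
        ≤ (1 - q T ^ (1 / 10 : ℝ)) ^ 5 * (((1 - q T ^ (1 / 10 : ℝ)) ^ 5)⁻¹ * A T) :=
          mul_le_mul_of_nonneg_left h5 h4.le
      _ = A T := by rw [← mul_assoc, mul_inv_cancel₀ h4.ne', one_mul]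
  · filter_upwards [h1, hlt, hpos, hbnd] with T a1 a2 a3 a4
    have hl0 : 0 < q T ^ (1 / 10 : ℝ) := Real.rpow_pos_of_pos a3.1 _
    have h3 := a1 _ hl0 a2
    linarith

lemma Sx_cont {X : ℝ} (hX : 0 < X) (σ : ℝ) : Continuous (fun t : ℝ => Sx σ X t) := by
  unfold Sx
  have h := (E2_real hX σ).2.1
  refine continuous_tsum (u := fun n : ℕ => Real.exp (-((n + 1 : ℝ) / X)) * (n + 1 : ℝ) ^ (-σ))
    (fun n => ?_) h (fun n t => ?_)
  · exact continuous_const.mul (ei_cont.comp (by fun_prop))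
  · rw [norm_mul, ei_norm, mul_one, Complex.norm_real, Real.norm_of_nonneg (by positivity)]

lemma zeta_cont {σ : ℝ} (h1 : σ < 1) : Continuous fun t : ℝ => riemannZeta (σ + t * I) := by
  rw [continuous_iff_continuousAt]
  intro y
  have hne : (σ + (y : ℝ) * I : ℂ) ≠ 1 := by
    intro h
    have := congrArg Complex.re h
    simp at this
    linarith
  exact ContinuousAt.comp (f := fun y : ℝ => (σ + (y : ℝ) * I : ℂ)) (g := riemannZeta)
    (differentiableAt_riemannZeta hne).continuousAt (by fun_prop)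

/-- R27: the difference is small in `L^6` -/
lemma E5_diff {s0 : ℝ} (h0 : 1 / 2 ≤ s0) (h1 : s0 < 1)
    (h : ∀ e : ℝ, 0 < e → ∃ C : ℝ, ∀ T : ℝ, 1 ≤ T →
      ∫ t in T..(2 * T), ‖riemannZeta (s0 + t * I)‖ ^ 6 ≤ C * T ^ (1 + e))
    {σ : ℝ} (hs : s0 < σ) (hs1 : σ < 1) :
    Tendsto (fun T : ℝ => T⁻¹ * ∫ t in (0 : ℝ)..T,
      ‖riemannZeta (σ + t * I) - Sx σ (T ^ (1 / 10 : ℝ)) t‖ ^ 6) atTop (𝓝 0) := by
  set e : ℝ := 3 / 10 * (σ - s0) with he
  have he0 : 0 < e := by rw [he]; linarith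
  have he1 : e ≤ 1 := by rw [he]; linarith
  obtain ⟨C1, hC1⟩ := h e he0
  obtain ⟨A, hA0, hA⟩ := E4_GG h0 h1 he0 he1 hC1
  obtain ⟨C, hC0, hC⟩ := smoothing h0 hs hs1
  have hlim : Tendsto (fun T : ℝ => 32 * C ^ 6 * (T ^ (-(7 / 10) : ℝ) + 32 * A * T ^ (-e))) atTop (𝓝 0) := by
    have a1 := tendsto_rpow_neg_atTop (y := 7 / 10) (by norm_num)
    have a2 := (tendsto_rpow_neg_atTop he0).const_mul (32 * A)
    have := (a1.add a2).const_mul (32 * C ^ 6)
    simpa using this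
  refine squeeze_zero' ?_ ?_ hlim
  · filter_upwards [eventually_ge_atTop 0] with T hT
    have : 0 ≤ ∫ t in (0 : ℝ)..T, ‖riemannZeta (σ + t * I) - Sx σ (T ^ (1 / 10 : ℝ)) t‖ ^ 6 :=
      intervalIntegral.integral_nonneg hT fun t _ => by positivity
    positivity
  · filter_upwards [eventually_ge_atTop 1] with T hT
    have hT0 : 0 < T := by linarith
    obtain ⟨g1, g2⟩ := hA T hT
    set X : ℝ := T ^ (1 / 10 : ℝ) with hX
    have hX1 : 1 ≤ X := Real.one_le_rpow hT (by norm_num)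
    have hX0 : 0 < X := by linarith
    -- pointwise
    have hpt : ∀ t ∈ Icc 0 T, ‖riemannZeta (σ + t * I) - Sx σ X t‖ ^ 6 ≤
        32 * C ^ 6 * (X ^ (1 - σ)) ^ 6 * Real.exp (-t) +
          32 * C ^ 6 * (X ^ (s0 - σ)) ^ 6 * (32 * GG s0 t) := by
      intro t ht
      have b1 := hC X t hX1
      rw [abs_of_nonneg ht.1] at b1
      have hZ0 : 0 ≤ Zl s0 t := by
        unfold Zl
        exact integral_nonneg fun y => by positivity
      have b2 : ‖riemannZeta (σ + t * I) - Sx σ X t‖ ^ 6 ≤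
          (C * (X ^ (1 - σ) * Real.exp (-t)) + C * (X ^ (s0 - σ) * Zl s0 t)) ^ 6 := by
        refine pow_le_pow_left₀ (norm_nonneg _) (b1.trans (le_of_eq ?_)) 6
        ring
      have b3 := E5_conv (x := C * (X ^ (1 - σ) * Real.exp (-t)))
        (y := C * (X ^ (s0 - σ) * Zl s0 t)) (l := 1 / 2) (by positivity) (by positivity)
        (by norm_num) (by norm_num)
      have b4 : Real.exp (-t) ^ 6 ≤ Real.exp (-t) := by
        have : Real.exp (-t) ≤ 1 := by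
          rw [Real.exp_le_one_iff]
          linarith [ht.1]
        calc Real.exp (-t) ^ 6 ≤ Real.exp (-t) ^ 1 :=
              pow_le_pow_of_le_one (Real.exp_pos _).le this (by norm_num)
          _ = _ := pow_one _
      have b5 := E4_Zl6 h0 h1 t
      have n1 : 0 ≤ 32 * C ^ 6 * (X ^ (1 - σ)) ^ 6 := by positivity
      have n2 : 0 ≤ 32 * C ^ 6 * (X ^ (s0 - σ)) ^ 6 := by positivity
      calc _ ≤ _ := b2
        _ ≤ _ := b3
        _ = 32 * C ^ 6 * (X ^ (1 - σ)) ^ 6 * Real.exp (-t) ^ 6 +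
            32 * C ^ 6 * (X ^ (s0 - σ)) ^ 6 * Zl s0 t ^ 6 := by
          norm_num
          ring
        _ ≤ _ := add_le_add (mul_le_mul_of_nonneg_left b4 n1) (mul_le_mul_of_nonneg_left b5 n2)
    have hi1 : IntervalIntegrable (fun t : ℝ => ‖riemannZeta (σ + t * I) - Sx σ X t‖ ^ 6) volume 0 T :=
      (((zeta_cont hs1).sub (Sx_cont hX0 σ)).norm.pow 6).intervalIntegrable _ _
    have hi2 : IntervalIntegrable (fun t : ℝ => 32 * C ^ 6 * (X ^ (1 - σ)) ^ 6 * Real.exp (-t)) volume 0 T :=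
      (Continuous.intervalIntegrable (by fun_prop) _ _)
    have hi3 : IntervalIntegrable (fun t : ℝ => 32 * C ^ 6 * (X ^ (s0 - σ)) ^ 6 * (32 * GG s0 t))
        volume 0 T := (g1.const_mul 32).const_mul _
    have hI := intervalIntegral.integral_mono_on hT0.le hi1 (hi2.add hi3) hpt
    rw [intervalIntegral.integral_add hi2 hi3, intervalIntegral.integral_const_mul,
      intervalIntegral.integral_const_mul, intervalIntegral.integral_const_mul] at hI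
    have hexp : ∫ t in (0 : ℝ)..T, Real.exp (-t) ≤ 1 := by
      have h3 := intervalIntegral.integral_comp_neg (a := 0) (b := T) Real.exp
      rw [h3, neg_zero, integral_exp, Real.exp_zero]
      have := Real.exp_pos (-T)
      linarith
    have x1 : (X ^ (1 - σ)) ^ 6 ≤ T ^ (3 / 10 : ℝ) := by
      rw [← Real.rpow_natCast, ← Real.rpow_mul hX0.le, hX, ← Real.rpow_mul hT0.le]
      refine Real.rpow_le_rpow_of_exponent_le hT ?_
      push_cast
      linarith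
    have x2 : (X ^ (s0 - σ)) ^ 6 = T ^ (-(2 * e)) := by
      rw [← Real.rpow_natCast, ← Real.rpow_mul hX0.le, hX, ← Real.rpow_mul hT0.le, he]
      congr 1
      push_cast
      ring
    have hfin : ∫ t in (0 : ℝ)..T, ‖riemannZeta (σ + t * I) - Sx σ X t‖ ^ 6 ≤
        32 * C ^ 6 * (T ^ (3 / 10 : ℝ) + 32 * A * (T ^ (-(2 * e)) * T ^ (1 + e))) := by
      refine hI.trans ?_
      rw [x2]
      have n0 : 0 ≤ 32 * C ^ 6 := by positivity
      have n3 : 0 ≤ T ^ (-(2 * e)) := by positivity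
      calc 32 * C ^ 6 * (X ^ (1 - σ)) ^ 6 * (∫ t in (0 : ℝ)..T, Real.exp (-t)) +
            32 * C ^ 6 * T ^ (-(2 * e)) * (32 * ∫ t in (0 : ℝ)..T, GG s0 t)
          ≤ 32 * C ^ 6 * T ^ (3 / 10 : ℝ) * 1 +
            32 * C ^ 6 * T ^ (-(2 * e)) * (32 * (A * T ^ (1 + e))) := by
            apply add_le_add
            · exact mul_le_mul (mul_le_mul_of_nonneg_left x1 n0) hexp
                (intervalIntegral.integral_nonneg hT0.le fun t _ => (Real.exp_pos _).le)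
                (by positivity)
            · gcongr
        _ = _ := by ring
    show T⁻¹ * ∫ t in (0 : ℝ)..T, ‖riemannZeta (σ + t * I) - Sx σ X t‖ ^ 6 ≤ _
    have y1 : T⁻¹ * T ^ (3 / 10 : ℝ) = T ^ (-(7 / 10) : ℝ) := by
      rw [← Real.rpow_neg_one, ← Real.rpow_add hT0]
      congr 1
      norm_num
    have y2 : T⁻¹ * (T ^ (-(2 * e)) * T ^ (1 + e)) = T ^ (-e) := by
      rw [← Real.rpow_neg_one, ← Real.rpow_add hT0, ← Real.rpow_add hT0]
      congr 1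
      ring
    calc _ ≤ T⁻¹ * (32 * C ^ 6 * (T ^ (3 / 10 : ℝ) + 32 * A * (T ^ (-(2 * e)) * T ^ (1 + e)))) :=
          mul_le_mul_of_nonneg_left hfin (inv_pos.2 hT0).le
      _ = 32 * C ^ 6 * (T⁻¹ * T ^ (3 / 10 : ℝ) + 32 * A * (T⁻¹ * (T ^ (-(2 * e)) * T ^ (1 + e)))) := by
          ring
      _ = _ := by rw [y1, y2]

/-- **R30.** Carlson's step. -/
theorem carlson {s0 : ℝ} (h0 : 1 / 2 ≤ s0) (h1 : s0 < 1)
    (h : ∀ e : ℝ, 0 < e → ∃ C : ℝ, ∀ T : ℝ, 1 ≤ T →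
      ∫ t in T..(2 * T), ‖riemannZeta (s0 + t * I)‖ ^ 6 ≤ C * T ^ (1 + e))
    {σ : ℝ} (hs : s0 < σ) (hs1 : σ < 1) :
    Summable (fun n : ℕ => (d3 n : ℝ) ^ 2 * (n : ℝ) ^ (-(2 * σ))) ∧
    Tendsto (fun T : ℝ => T⁻¹ * ∫ t in (0 : ℝ)..T, ‖riemannZeta (σ + t * I)‖ ^ 6) atTop
      (𝓝 (∑' n : ℕ, (d3 n : ℝ) ^ 2 * (n : ℝ) ^ (-(2 * σ)))) := by
  have hσ : 1 / 2 < σ := by linarith
  refine ⟨d3_summable hσ, ?_⟩
  refine E5_squeeze (E3_mean hσ) (E5_diff h0 h1 h hs hs1) ?_ ?_ ?_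
  · filter_upwards [eventually_ge_atTop 0] with T hT
    have : 0 ≤ ∫ t in (0 : ℝ)..T, ‖riemannZeta (σ + t * I) - Sx σ (T ^ (1 / 10 : ℝ)) t‖ ^ 6 :=
      intervalIntegral.integral_nonneg hT fun t _ => by positivity
    positivity
  · filter_upwards [eventually_ge_atTop 1] with T hT l hl0 hl1
    have hT0 : 0 < T := by linarith
    set X : ℝ := T ^ (1 / 10 : ℝ) with hX
    have hX0 : 0 < X := Real.rpow_pos_of_pos hT0 _
    have i1 : IntervalIntegrable (fun t : ℝ => ‖riemannZeta (σ + t * I)‖ ^ 6) volume 0 T :=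
      ((zeta_cont hs1).norm.pow 6).intervalIntegrable _ _
    have i2 : IntervalIntegrable (fun t : ℝ => ‖Sx σ X t‖ ^ 6) volume 0 T :=
      ((Sx_cont hX0 σ).norm.pow 6).intervalIntegrable _ _
    have i3 : IntervalIntegrable (fun t : ℝ => ‖riemannZeta (σ + t * I) - Sx σ X t‖ ^ 6) volume 0 T :=
      (((zeta_cont hs1).sub (Sx_cont hX0 σ)).norm.pow 6).intervalIntegrable _ _
    have hI : ∫ t in (0 : ℝ)..T, ‖riemannZeta (σ + t * I)‖ ^ 6 ≤
        ∫ t in (0 : ℝ)..T, (((1 - l) ^ 5)⁻¹ * ‖Sx σ X t‖ ^ 6 +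
          (l ^ 5)⁻¹ * ‖riemannZeta (σ + t * I) - Sx σ X t‖ ^ 6) := by
      refine intervalIntegral.integral_mono_on hT0.le i1 ((i2.const_mul _).add (i3.const_mul _))
        fun t _ => ?_
      refine le_trans (pow_le_pow_left₀ (norm_nonneg _) ?_ 6)
        (E5_conv (norm_nonneg _) (norm_nonneg _) hl0 hl1)
      have := norm_add_le (Sx σ X t) (riemannZeta (σ + t * I) - Sx σ X t)
      rwa [add_sub_cancel] at this
    rw [intervalIntegral.integral_add (i2.const_mul _) (i3.const_mul _),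
      intervalIntegral.integral_const_mul, intervalIntegral.integral_const_mul] at hI
    calc T⁻¹ * ∫ t in (0 : ℝ)..T, ‖riemannZeta (σ + t * I)‖ ^ 6
        ≤ T⁻¹ * (((1 - l) ^ 5)⁻¹ * (∫ t in (0 : ℝ)..T, ‖Sx σ X t‖ ^ 6) +
          (l ^ 5)⁻¹ * ∫ t in (0 : ℝ)..T, ‖riemannZeta (σ + t * I) - Sx σ X t‖ ^ 6) :=
          mul_le_mul_of_nonneg_left hI (inv_pos.2 hT0).le
      _ = _ := by ring
  · filter_upwards [eventually_ge_atTop 1] with T hT l hl0 hl1
    have hT0 : 0 < T := by linarith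
    set X : ℝ := T ^ (1 / 10 : ℝ) with hX
    have hX0 : 0 < X := Real.rpow_pos_of_pos hT0 _
    have i1 : IntervalIntegrable (fun t : ℝ => ‖riemannZeta (σ + t * I)‖ ^ 6) volume 0 T :=
      ((zeta_cont hs1).norm.pow 6).intervalIntegrable _ _
    have i2 : IntervalIntegrable (fun t : ℝ => ‖Sx σ X t‖ ^ 6) volume 0 T :=
      ((Sx_cont hX0 σ).norm.pow 6).intervalIntegrable _ _
    have i3 : IntervalIntegrable (fun t : ℝ => ‖riemannZeta (σ + t * I) - Sx σ X t‖ ^ 6) volume 0 T :=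
      (((zeta_cont hs1).sub (Sx_cont hX0 σ)).norm.pow 6).intervalIntegrable _ _
    have hI : ∫ t in (0 : ℝ)..T, ‖Sx σ X t‖ ^ 6 ≤
        ∫ t in (0 : ℝ)..T, (((1 - l) ^ 5)⁻¹ * ‖riemannZeta (σ + t * I)‖ ^ 6 +
          (l ^ 5)⁻¹ * ‖riemannZeta (σ + t * I) - Sx σ X t‖ ^ 6) := by
      refine intervalIntegral.integral_mono_on hT0.le i2 ((i1.const_mul _).add (i3.const_mul _))
        fun t _ => ?_
      refine le_trans (pow_le_pow_left₀ (norm_nonneg _) ?_ 6)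
        (E5_conv (norm_nonneg _) (norm_nonneg _) hl0 hl1)
      have := norm_sub_le (riemannZeta (σ + t * I)) (riemannZeta (σ + t * I) - Sx σ X t)
      rwa [sub_sub_cancel] at this
    rw [intervalIntegral.integral_add (i1.const_mul _) (i3.const_mul _),
      intervalIntegral.integral_const_mul, intervalIntegral.integral_const_mul] at hI
    calc T⁻¹ * ∫ t in (0 : ℝ)..T, ‖Sx σ X t‖ ^ 6
        ≤ T⁻¹ * (((1 - l) ^ 5)⁻¹ * (∫ t in (0 : ℝ)..T, ‖riemannZeta (σ + t * I)‖ ^ 6) +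
          (l ^ 5)⁻¹ * ∫ t in (0 : ℝ)..T, ‖riemannZeta (σ + t * I) - Sx σ X t‖ ^ 6) :=
          mul_le_mul_of_nonneg_left hI (inv_pos.2 hT0).le
      _ = _ := by ring

end OL
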