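import Pool.Agent.Lib.MP_39df77_nt.OL.Defs

/-!
# R28: mean value of an absolutely convergent Dirichlet series
-/

set_option autoImplicit false

open Complex MeasureTheory Set Filter Topology

namespace OL

lemma ei_norm (x : ℝ) : ‖ei x‖ = 1 := by
  unfold ei
  exact norm_exp_ofReal_mul_I x

lemma ei_add (x y : ℝ) : ei (x + y) = ei x * ei y := by
  unfold ei
  rw [← Complex.exp_add]
  congr 1
  push_cast
  ring

lemma ei_conj (x : ℝ) : (starRingEnd ℂ) (ei x) = ei (-x) := by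
  unfold ei
  rw [← Complex.exp_conj]
  congr 1
  simp

lemma ei_cont : Continuous ei := by
  unfold ei
  fun_prop

lemma ei_zero : ei 0 = 1 := by
  unfold ei
  simp

/-- `|∫_0^T e^{itu} dt| ≤ 2/|u|` -/
lemma E1_osc {u : ℝ} (hu : u ≠ 0) (T : ℝ) : ‖∫ t in (0 : ℝ)..T, ei (t * u)‖ ≤ 2 / |u| := by
  have huC : ((u : ℂ) * I) ≠ 0 := mul_ne_zero (by exact_mod_cast hu) I_ne_zero
  have e : ∀ t : ℝ, ei (t * u) = cexp ((u : ℂ) * I * t) := by
    intro t
    unfold ei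
    congr 1
    push_cast
    ring
  simp_rw [e]
  rw [integral_exp_mul_complex huC]
  have h1 : ‖(u : ℂ) * I‖ = |u| := by simp
  rw [norm_div, h1]
  apply div_le_div_of_nonneg_right _ (abs_nonneg u)
  refine (norm_sub_le _ _).trans ?_
  have h2 : ‖cexp ((u : ℂ) * I * T)‖ = 1 := by
    have : (u : ℂ) * I * T = ((u * T : ℝ) : ℂ) * I := by push_cast; ring
    rw [this]
    exact norm_exp_ofReal_mul_I _
  have h3 : ‖cexp ((u : ℂ) * I * (0 : ℝ))‖ = 1 := by simp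
  rw [h2, h3]
  norm_num

/-- `|log (m/n)| ≥ 1/max(m,n)` -/
lemma E1_log {m n : ℕ} (h : m ≠ n) :
    1 ≤ |Real.log (m + 1 : ℝ) - Real.log (n + 1 : ℝ)| * ((m + 1 : ℝ) + (n + 1 : ℝ)) := by
  wlog hmn : m < n generalizing m n
  · have := this h.symm (lt_of_le_of_ne (not_lt.1 hmn) h.symm)
    rw [abs_sub_comm, add_comm ((m : ℝ) + 1)]
    exact this
  have hm : (0 : ℝ) < m + 1 := by positivity
  have hn : (0 : ℝ) < n + 1 := by positivity
  have h1 := Real.one_sub_inv_le_log_of_pos (x := (n + 1 : ℝ) / (m + 1)) (by positivity)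
  rw [Real.log_div hn.ne' hm.ne', inv_div] at h1
  have h2 : (m : ℝ) + 1 ≤ n := by exact_mod_cast hmn
  have h3 : 1 / ((n : ℝ) + 1) ≤ 1 - ((m : ℝ) + 1) / (n + 1) := by
    rw [le_sub_iff_add_le, ← add_div, div_le_one hn]
    linarith
  have h4 : 1 / ((n : ℝ) + 1) ≤ |Real.log (m + 1 : ℝ) - Real.log (n + 1 : ℝ)| := by
    rw [abs_sub_comm]
    exact (h3.trans h1).trans (le_abs_self _)
  calc (1 : ℝ) = 1 / ((n : ℝ) + 1) * (n + 1) := by field_simp
    _ ≤ |Real.log (m + 1 : ℝ) - Real.log (n + 1 : ℝ)| * ((m + 1 : ℝ) + (n + 1 : ℝ)) :=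
        mul_le_mul h4 (by linarith) hn.le (abs_nonneg _)

lemma E1_J {m n : ℕ} {T : ℝ} : ‖(∫ t in (0 : ℝ)..T,
    ei (t * (Real.log (n + 1 : ℝ) - Real.log (m + 1 : ℝ)))) - (if m = n then (T : ℂ) else 0)‖ ≤
      2 * ((m + 1 : ℝ) + (n + 1 : ℝ)) := by
  by_cases h : m = n
  · subst h
    simp only [sub_self, mul_zero, ei_zero, if_true]
    rw [intervalIntegral.integral_const]
    simp
    positivity
  · rw [if_neg h, sub_zero]
    have h1 := E1_log h
    have hu : Real.log (n + 1 : ℝ) - Real.log (m + 1 : ℝ) ≠ 0 := by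
      intro h0
      rw [abs_sub_comm, h0, abs_zero, zero_mul] at h1
      linarith
    refine (E1_osc hu T).trans ?_
    rw [div_le_iff₀ (abs_pos.2 hu), abs_sub_comm]
    nlinarith

/-- the mean value -/
theorem E1_mv {c : ℕ → ℝ} (hc : ∀ n, 0 ≤ c n) (hs : Summable c)
    (hs1 : Summable fun n : ℕ => (n + 1 : ℝ) * c n) {T : ℝ} (hT : 0 ≤ T) :
    |(∫ t in (0 : ℝ)..T, ‖∑' n : ℕ, (c n : ℂ) * ei (-(t * Real.log (n + 1 : ℝ)))‖ ^ 2) -
      T * ∑' n : ℕ, c n ^ 2| ≤ 4 * ((∑' n, c n) * ∑' n : ℕ, (n + 1 : ℝ) * c n) := by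
  have hcs : Summable fun n : ℕ => ‖(c n : ℂ)‖ := by
    simpa [abs_of_nonneg (hc _)] using hs
  have hnorm : ∀ t : ℝ, Summable fun n : ℕ => ‖(c n : ℂ) * ei (-(t * Real.log (n + 1 : ℝ)))‖ := by
    intro t
    simpa [norm_mul, ei_norm] using hcs
  -- product expansion
  have hprod : ∀ t : ℝ, (((‖∑' n : ℕ, (c n : ℂ) * ei (-(t * Real.log (n + 1 : ℝ)))‖ ^ 2 : ℝ)) : ℂ) =
      ∑' p : ℕ × ℕ, ((c p.1 * c p.2 : ℝ) : ℂ) *
        ei (t * (Real.log (p.2 + 1 : ℝ) - Real.log (p.1 + 1 : ℝ))) := by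
    intro t
    have h1 : ∀ z : ℂ, ((‖z‖ ^ 2 : ℝ) : ℂ) = z * (starRingEnd ℂ) z := by
      intro z
      rw [mul_conj, normSq_eq_norm_sq]
    have h2 : (starRingEnd ℂ) (∑' n : ℕ, (c n : ℂ) * ei (-(t * Real.log (n + 1 : ℝ)))) =
        ∑' n : ℕ, (c n : ℂ) * ei (t * Real.log (n + 1 : ℝ)) := by
      rw [conj_tsum]
      congr 1
      funext n
      rw [map_mul, conj_ofReal, ei_conj, neg_neg]
    have hnorm' : Summable fun n : ℕ => ‖(c n : ℂ) * ei (t * Real.log (n + 1 : ℝ))‖ := by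
      simpa [norm_mul, ei_norm] using hcs
    rw [h1, h2, tsum_mul_tsum_of_summable_norm (hnorm t) hnorm']
    congr 1
    funext p
    have h3 : ei (t * (Real.log (p.2 + 1 : ℝ) - Real.log (p.1 + 1 : ℝ))) =
        ei (-(t * Real.log (p.1 + 1 : ℝ))) * ei (t * Real.log (p.2 + 1 : ℝ)) := by
      rw [← ei_add]
      congr 1
      ring
    rw [h3]
    push_cast
    ring
  have hcc : Summable fun p : ℕ × ℕ => c p.1 * c p.2 := hs.mul_of_nonneg hs hc hc
  -- integrate termwise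
  have hint : HasSum (fun p : ℕ × ℕ => ∫ t in (0 : ℝ)..T, ((c p.1 * c p.2 : ℝ) : ℂ) *
      ei (t * (Real.log (p.2 + 1 : ℝ) - Real.log (p.1 + 1 : ℝ))))
      (∫ t in (0 : ℝ)..T, ∑' p : ℕ × ℕ, ((c p.1 * c p.2 : ℝ) : ℂ) *
        ei (t * (Real.log (p.2 + 1 : ℝ) - Real.log (p.1 + 1 : ℝ)))) := by
    refine intervalIntegral.hasSum_integral_of_dominated_convergence
      (fun p _ => c p.1 * c p.2) (fun p => ?_) (fun p => ?_) ?_ ?_ ?_
    · refine (Continuous.aestronglyMeasurable ?_)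
      exact continuous_const.mul (ei_cont.comp (by fun_prop))
    · refine Eventually.of_forall fun t _ => ?_
      rw [norm_mul, ei_norm, mul_one, Complex.norm_real, Real.norm_of_nonneg
        (mul_nonneg (hc _) (hc _))]
    · exact Eventually.of_forall fun t _ => hcc
    · exact intervalIntegrable_const
    · refine Eventually.of_forall fun t _ => ?_
      refine Summable.hasSum (Summable.of_norm ?_)
      refine hcc.congr fun p => ?_
      rw [norm_mul, ei_norm, mul_one, Complex.norm_real, Real.norm_of_nonneg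
        (mul_nonneg (hc _) (hc _))]
  -- the diagonal
  have hdiag : HasSum (fun p : ℕ × ℕ => ((c p.1 * c p.2 : ℝ) : ℂ) * (if p.1 = p.2 then (T : ℂ) else 0))
      ((T * ∑' n : ℕ, c n ^ 2 : ℝ) : ℂ) := by
    have hsum2 : Summable fun n : ℕ => c n ^ 2 := by
      have := hcc.comp_injective (i := fun n : ℕ => (n, n)) (fun a b h => by simpa using h)
      refine this.congr fun n => ?_
      simp [sq]
    have hS : Summable fun p : ℕ × ℕ => ((c p.1 * c p.2 : ℝ) : ℂ) *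
        (if p.1 = p.2 then (T : ℂ) else 0) := by
      refine Summable.of_norm_bounded (hcc.mul_right T) fun p => ?_
      rw [norm_mul, Complex.norm_real, Real.norm_of_nonneg (mul_nonneg (hc _) (hc _))]
      refine mul_le_mul_of_nonneg_left ?_ (mul_nonneg (hc _) (hc _))
      split_ifs
      · rw [Complex.norm_real, Real.norm_of_nonneg hT]
      · simpa using hT
    have h2 : ∑' p : ℕ × ℕ, ((c p.1 * c p.2 : ℝ) : ℂ) * (if p.1 = p.2 then (T : ℂ) else 0) =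
        ((T * ∑' n : ℕ, c n ^ 2 : ℝ) : ℂ) := by
      rw [hS.tsum_prod]
      have h3 : ∀ m : ℕ, ∑' n : ℕ, ((c m * c n : ℝ) : ℂ) * (if m = n then (T : ℂ) else 0) =
          ((T * c m ^ 2 : ℝ) : ℂ) := by
        intro m
        rw [tsum_eq_single m]
        · rw [if_pos rfl]
          push_cast
          ring
        · intro n hn
          rw [if_neg hn.symm, mul_zero]
      simp only [h3]
      rw [← ofReal_tsum, tsum_mul_left]
    rw [← h2]
    exact hS.hasSum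
  have hdiff := hint.sub hdiag
  have hfin : ((((∫ t in (0 : ℝ)..T, ‖∑' n : ℕ, (c n : ℂ) * ei (-(t * Real.log (n + 1 : ℝ)))‖ ^ 2) -
      T * ∑' n : ℕ, c n ^ 2 : ℝ)) : ℂ) = ∑' p : ℕ × ℕ, (((c p.1 * c p.2 : ℝ) : ℂ) *
      ((∫ t in (0 : ℝ)..T, ei (t * (Real.log (p.2 + 1 : ℝ) - Real.log (p.1 + 1 : ℝ)))) -
        (if p.1 = p.2 then (T : ℂ) else 0))) := by
    rw [ofReal_sub, ← intervalIntegral.integral_ofReal]
    simp_rw [hprod]
    rw [← hdiff.tsum_eq]
    congr 1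
    funext p
    rw [intervalIntegral.integral_const_mul]
    ring
  have hbd : ∀ p : ℕ × ℕ, ‖((c p.1 * c p.2 : ℝ) : ℂ) *
      ((∫ t in (0 : ℝ)..T, ei (t * (Real.log (p.2 + 1 : ℝ) - Real.log (p.1 + 1 : ℝ)))) -
        (if p.1 = p.2 then (T : ℂ) else 0))‖ ≤
      2 * (((p.1 + 1 : ℝ) * c p.1) * c p.2 + c p.1 * ((p.2 + 1 : ℝ) * c p.2)) := by
    intro p
    rw [norm_mul, Complex.norm_real, Real.norm_of_nonneg (mul_nonneg (hc _) (hc _))]
    calc c p.1 * c p.2 * _ ≤ c p.1 * c p.2 * (2 * ((p.1 + 1 : ℝ) + (p.2 + 1 : ℝ))) :=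
          mul_le_mul_of_nonneg_left E1_J (mul_nonneg (hc _) (hc _))
      _ = _ := by ring
  have hc1 : ∀ n : ℕ, 0 ≤ (n + 1 : ℝ) * c n := fun n => mul_nonneg (by positivity) (hc n)
  have q1 : HasSum (fun p : ℕ × ℕ => ((p.1 + 1 : ℝ) * c p.1) * c p.2)
      ((∑' n : ℕ, (n + 1 : ℝ) * c n) * ∑' n, c n) := by
    rw [hs1.tsum_mul_tsum hs (hs1.mul_of_nonneg hs hc1 hc)]
    exact (hs1.mul_of_nonneg hs hc1 hc).hasSum
  have q2 : HasSum (fun p : ℕ × ℕ => c p.1 * ((p.2 + 1 : ℝ) * c p.2))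
      ((∑' n, c n) * ∑' n : ℕ, (n + 1 : ℝ) * c n) := by
    rw [hs.tsum_mul_tsum hs1 (hs.mul_of_nonneg hs1 hc hc1)]
    exact (hs.mul_of_nonneg hs1 hc hc1).hasSum
  have q3 := tsum_of_norm_bounded ((q1.add q2).mul_left 2) hbd
  rw [← hfin, Complex.norm_real, Real.norm_eq_abs] at q3
  refine q3.trans (le_of_eq ?_)
  ring

end OL
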