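import Pool.Agent.Lib.MP_39df77_nt.OL.E1
import Pool.Agent.Lib.MP_39df77_nt.U6.A06

/-!
# R28: the cube of the smoothed Dirichlet series
-/

set_option autoImplicit false

open Complex MeasureTheory Set Filter Topology

namespace OL


/-- smoothing weights -/
noncomputable def EX (X : ℝ) (n : ℕ) : ℂ := ((Real.exp (-(n / X)) : ℝ) : ℂ)

/-- smoothed `d_3` -/
noncomputable def gX (X : ℝ) (n : ℕ) : ℝ :=
  ∑ p ∈ n.divisorsAntidiagonal,
    (∑ q ∈ p.1.divisorsAntidiagonal, Real.exp (-(q.1 / X)) * Real.exp (-(q.2 / X))) *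
      Real.exp (-(p.2 / X))

lemma gX_nonneg (X : ℝ) (n : ℕ) : 0 ≤ gX X n := by
  unfold gX
  exact Finset.sum_nonneg fun p _ => mul_nonneg
    (Finset.sum_nonneg fun q _ => by positivity) (Real.exp_pos _).le

lemma gX_conv (X : ℝ) : LSeries.convolution (LSeries.convolution (EX X) (EX X)) (EX X) = fun n => ((gX X n : ℝ) : ℂ) := by
  funext n
  rw [LSeries.convolution_def, LSeries.convolution_def]
  unfold gX EX
  push_cast
  rfl

lemma d3_eq (n : ℕ) : d3 n = ∑ p ∈ n.divisorsAntidiagonal, ∑ _q ∈ p.1.divisorsAntidiagonal, 1 := by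
  have h := Nat.sum_divisorsAntidiagonal (n := n) (fun d _ => d.divisors.card)
  unfold d3
  rw [← h]
  refine Finset.sum_congr rfl fun p _ => ?_
  rw [Finset.sum_const, smul_eq_mul, mul_one, ← Nat.map_div_right_divisors, Finset.card_map]

lemma gX_le {X : ℝ} (hX : 0 < X) (n : ℕ) : gX X n ≤ d3 n := by
  have h1 : ∀ m : ℕ, Real.exp (-((m : ℝ) / X)) ≤ 1 := by
    intro m
    rw [Real.exp_le_one_iff]
    have : 0 ≤ (m : ℝ) / X := by positivity
    linarith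
  rw [d3_eq]
  unfold gX
  push_cast
  refine Finset.sum_le_sum fun p _ => ?_
  have h3 : (∑ q ∈ p.1.divisorsAntidiagonal, Real.exp (-((q.1 : ℝ) / X)) *
      Real.exp (-((q.2 : ℝ) / X))) ≤ ∑ _q ∈ p.1.divisorsAntidiagonal, (1 : ℝ) :=
    Finset.sum_le_sum fun q _ => mul_le_one₀ (h1 _) (Real.exp_pos _).le (h1 _)
  calc _ ≤ (∑ _q ∈ p.1.divisorsAntidiagonal, (1 : ℝ)) * 1 :=
        mul_le_mul h3 (h1 _) (Real.exp_pos _).le (Finset.sum_nonneg fun _ _ => zero_le_one)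
    _ = _ := mul_one _

lemma gX_tendsto (n : ℕ) : Tendsto (fun X : ℝ => gX X n) atTop (𝓝 (d3 n : ℝ)) := by
  have h1 : ∀ m : ℕ, Tendsto (fun X : ℝ => Real.exp (-((m : ℝ) / X))) atTop (𝓝 1) := by
    intro m
    have h2 : Tendsto (fun X : ℝ => -((m : ℝ) / X)) atTop (𝓝 0) := by
      have := (tendsto_const_nhds (x := (m : ℝ))).div_atTop tendsto_id (f := fun _ : ℝ => (m : ℝ))
      simpa using this.neg
    have h3 := (Real.continuous_exp.tendsto 0).comp h2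
    rw [Real.exp_zero] at h3
    exact h3
  have h3 : Tendsto (fun X : ℝ => gX X n) atTop (𝓝 (∑ p ∈ n.divisorsAntidiagonal,
      (∑ q ∈ p.1.divisorsAntidiagonal, (1 : ℝ) * 1) * 1)) := by
    unfold gX
    refine tendsto_finsetSum _ fun p _ => ?_
    refine Tendsto.mul ?_ (h1 _)
    exact tendsto_finsetSum _ fun q _ => (h1 _).mul (h1 _)
  have e : (∑ p ∈ n.divisorsAntidiagonal,
      (∑ q ∈ p.1.divisorsAntidiagonal, (1 : ℝ) * 1) * 1) = (d3 n : ℝ) := by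
    rw [d3_eq]
    push_cast
    refine Finset.sum_congr rfl fun p _ => ?_
    rw [mul_one, mul_one]
  rw [e] at h3
  exact h3

lemma EX_summable {X : ℝ} (hX : 0 < X) (s : ℂ) : LSeriesSummable (EX X) s := by
  unfold LSeriesSummable
  obtain ⟨k, hk⟩ := exists_nat_ge (-s.re)
  have h1 := Real.summable_pow_mul_exp_neg_nat_mul k (r := 1 / X) (by positivity)
  refine Summable.of_norm_bounded h1 fun n => ?_
  rcases eq_or_ne n 0 with rfl | hn
  · rw [LSeries.term_zero, norm_zero]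
    positivity
  · have hn0 : (0 : ℝ) < n := by exact_mod_cast Nat.pos_of_ne_zero hn
    have hn1 : (1 : ℝ) ≤ n := by exact_mod_cast Nat.pos_of_ne_zero hn
    rw [LSeries.term_of_ne_zero hn, norm_div, norm_natCast_cpow_of_pos (Nat.pos_of_ne_zero hn)]
    unfold EX
    rw [Complex.norm_real, Real.norm_of_nonneg (Real.exp_pos _).le, div_eq_mul_inv,
      ← Real.rpow_neg hn0.le, mul_comm]
    have h2 : (n : ℝ) ^ (-s.re) ≤ (n : ℝ) ^ k := by
      rw [← Real.rpow_natCast]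
      exact Real.rpow_le_rpow_of_exponent_le hn1 hk
    have h3 : Real.exp (-((n : ℝ) / X)) = Real.exp (-(1 / X) * n) := by
      congr 1
      ring
    rw [h3]
    exact mul_le_mul_of_nonneg_right h2 (Real.exp_pos _).le

lemma E2_shift {f : ℕ → ℂ} {s : ℂ} (h : LSeriesSummable f s) :
    Summable (fun n : ℕ => f (n + 1) * ((n + 1 : ℝ) : ℂ) ^ (-s)) ∧
    LSeries f s = ∑' n : ℕ, f (n + 1) * ((n + 1 : ℝ) : ℂ) ^ (-s) := by
  have e : ∀ n : ℕ, LSeries.term f s (n + 1) = f (n + 1) * ((n + 1 : ℝ) : ℂ) ^ (-s) := by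
    intro n
    rw [LSeries.term_of_ne_zero (Nat.succ_ne_zero n), cpow_neg, div_eq_mul_inv]
    push_cast
    rfl
  constructor
  · have := (summable_nat_add_iff 1).2 h
    exact this.congr e
  · unfold LSeries
    rw [h.tsum_eq_zero_add, LSeries.term_zero, zero_add]
    exact tsum_congr e

lemma E2_cpx {X : ℝ} (hX : 0 < X) (s : ℂ) :
    Summable (fun n : ℕ => ((gX X (n + 1) : ℝ) : ℂ) * ((n + 1 : ℝ) : ℂ) ^ (-s)) ∧
    ∑' n : ℕ, ((gX X (n + 1) : ℝ) : ℂ) * ((n + 1 : ℝ) : ℂ) ^ (-s) =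
      (∑' n : ℕ, EX X (n + 1) * ((n + 1 : ℝ) : ℂ) ^ (-s)) ^ 3 := by
  have h1 := EX_summable hX s
  have h2 := h1.convolution h1
  have h3 := h2.convolution h1
  have h4 := E2_shift h3
  have h5 := E2_shift h1
  rw [gX_conv] at h4
  refine ⟨h4.1, ?_⟩
  rw [← h4.2, ← gX_conv, LSeries_convolution' h2 h1, LSeries_convolution' h1 h1, h5.2]
  ring

lemma E2_Sx (σ X t : ℝ) : Sx σ X t =
    ∑' n : ℕ, EX X (n + 1) * ((n + 1 : ℝ) : ℂ) ^ (-(σ + t * I : ℂ)) := by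
  unfold Sx ei EX
  congr 1
  funext n
  have hn : (0 : ℝ) < n + 1 := by positivity
  rw [cpow_def_of_ne_zero (by exact_mod_cast hn.ne'), ← ofReal_log hn.le, ofReal_mul, mul_assoc]
  have h0 : (((n + 1 : ℕ) : ℝ)) = (n + 1 : ℝ) := by push_cast; rfl
  rw [h0]
  congr 1
  have e : (((n + 1 : ℝ) ^ (-σ) : ℝ) : ℂ) = cexp ((Real.log (n + 1 : ℝ) : ℝ) * -(σ : ℂ)) := by
    rw [ofReal_cpow hn.le, cpow_def_of_ne_zero (by exact_mod_cast hn.ne'), ← ofReal_log hn.le]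
    push_cast
    rfl
  rw [e, ← Complex.exp_add]
  congr 1
  push_cast
  ring

lemma E2_pow {n : ℕ} (σ t : ℝ) : ((n + 1 : ℝ) : ℂ) ^ (-(σ + t * I : ℂ)) =
    (((n + 1 : ℝ) ^ (-σ) : ℝ) : ℂ) * ei (-(t * Real.log (n + 1 : ℝ))) := by
  have hn : (0 : ℝ) < n + 1 := by positivity
  unfold ei
  rw [cpow_def_of_ne_zero (by exact_mod_cast hn.ne'), ← ofReal_log hn.le]
  have e : (((n + 1 : ℝ) ^ (-σ) : ℝ) : ℂ) = cexp ((Real.log (n + 1 : ℝ) : ℝ) * -(σ : ℂ)) := by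
    rw [ofReal_cpow hn.le, cpow_def_of_ne_zero (by exact_mod_cast hn.ne'), ← ofReal_log hn.le]
    push_cast
    rfl
  rw [e, ← Complex.exp_add]
  congr 1
  push_cast
  ring

/-- coefficients of the cube -/
noncomputable def cX (σ X : ℝ) (n : ℕ) : ℝ := gX X (n + 1) * (n + 1 : ℝ) ^ (-σ)

lemma cX_nonneg (σ X : ℝ) (n : ℕ) : 0 ≤ cX σ X n :=
  mul_nonneg (gX_nonneg _ _) (by positivity)

lemma Sx_cube {X : ℝ} (hX : 0 < X) (σ t : ℝ) : Sx σ X t ^ 3 =
    ∑' n : ℕ, (cX σ X n : ℂ) * ei (-(t * Real.log (n + 1 : ℝ))) := by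
  rw [E2_Sx, ← (E2_cpx hX _).2]
  congr 1
  funext n
  unfold cX
  rw [E2_pow]
  push_cast
  ring

/-- real version -/
lemma E2_real {X : ℝ} (hX : 0 < X) (u : ℝ) :
    Summable (cX u X) ∧ Summable (fun n : ℕ => Real.exp (-((n + 1 : ℝ) / X)) * (n + 1 : ℝ) ^ (-u)) ∧
    ∑' n : ℕ, cX u X n = (∑' n : ℕ, Real.exp (-((n + 1 : ℝ) / X)) * (n + 1 : ℝ) ^ (-u)) ^ 3 := by
  have e1 : ∀ n : ℕ, ((n + 1 : ℝ) : ℂ) ^ (-(u : ℂ)) = (((n + 1 : ℝ) ^ (-u) : ℝ) : ℂ) := by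
    intro n
    have hn : (0 : ℝ) < n + 1 := by positivity
    rw [ofReal_cpow hn.le]
    push_cast
    rfl
  have e2 : ∀ n : ℕ, EX X (n + 1) = ((Real.exp (-((n + 1 : ℝ) / X)) : ℝ) : ℂ) := by
    intro n
    unfold EX
    push_cast
    rfl
  have h := E2_cpx hX (u : ℂ)
  have h' := (E2_shift (EX_summable hX (u : ℂ))).1
  simp only [e1, e2, ← ofReal_mul] at h h'
  refine ⟨?_, ?_, ?_⟩
  · exact (Complex.summable_ofReal.1 h.1)
  · exact (Complex.summable_ofReal.1 h')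
  · have h2 := h.2
    rw [← ofReal_tsum, ← ofReal_tsum, ← ofReal_pow] at h2
    exact ofReal_injective h2

lemma E2_geo {X : ℝ} (hX : 0 < X) : Summable (fun n : ℕ => Real.exp (-((n + 1 : ℝ) / X))) ∧
    ∑' n : ℕ, Real.exp (-((n + 1 : ℝ) / X)) ≤ X := by
  have hr0 : 0 < Real.exp (-(1 / X)) := Real.exp_pos _
  have hr1 : Real.exp (-(1 / X)) < 1 := by
    rw [Real.exp_lt_one_iff]
    have : 0 < 1 / X := by positivity
    linarith
  have e : ∀ n : ℕ, Real.exp (-((n + 1 : ℝ) / X)) = Real.exp (-(1 / X)) * Real.exp (-(1 / X)) ^ n := by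
    intro n
    rw [← Real.exp_nat_mul, ← Real.exp_add]
    congr 1
    ring
  simp_rw [e]
  refine ⟨(summable_geometric_of_lt_one hr0.le hr1).mul_left _, ?_⟩
  rw [tsum_mul_left, tsum_geometric_of_lt_one hr0.le hr1, ← div_eq_mul_inv,
    div_le_iff₀ (by linarith)]
  have h1 := Real.add_one_le_exp (1 / X)
  have h2 : Real.exp (1 / X) * Real.exp (-(1 / X)) = 1 := by rw [← Real.exp_add]; simp
  have h3 : (1 / X + 1) * Real.exp (-(1 / X)) ≤ 1 := by
    have := mul_le_mul_of_nonneg_right h1 hr0.le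
    linarith
  have h4 : X * (1 / X) = 1 := by field_simp
  nlinarith

lemma E2_sum0 {σ X : ℝ} (h0 : 0 < σ) (hX : 0 < X) : Summable (cX σ X) ∧ ∑' n : ℕ, cX σ X n ≤ X ^ 3 := by
  obtain ⟨h1, h2, h3⟩ := E2_real hX σ
  obtain ⟨g1, g2⟩ := E2_geo hX
  refine ⟨h1, ?_⟩
  rw [h3]
  apply pow_le_pow_left₀ (tsum_nonneg fun n => by positivity)
  refine le_trans (h2.tsum_le_tsum (fun n => ?_) g1) g2
  refine mul_le_of_le_one_right (Real.exp_pos _).le ?_
  apply Real.rpow_le_one_of_one_le_of_nonpos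
  · have := Nat.cast_nonneg (α := ℝ) n
    linarith
  · linarith

lemma E2_sum1 {σ X : ℝ} (h0 : 0 < σ) (hX : 0 < X) : Summable (fun n : ℕ => (n + 1 : ℝ) * cX σ X n) ∧
    ∑' n : ℕ, (n + 1 : ℝ) * cX σ X n ≤ 64 * X ^ 6 := by
  have e : ∀ n : ℕ, (n + 1 : ℝ) * cX σ X n = cX (σ - 1) X n := by
    intro n
    have hn : (0 : ℝ) < n + 1 := by positivity
    unfold cX
    have : -(σ - 1) = 1 + -σ := by ring
    rw [this, Real.rpow_add hn, Real.rpow_one]
    ring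
  simp_rw [e]
  obtain ⟨h1, h2, h3⟩ := E2_real hX (σ - 1)
  obtain ⟨g1, g2⟩ := E2_geo (X := 2 * X) (by positivity)
  refine ⟨h1, ?_⟩
  rw [h3]
  have h4 : (∑' n : ℕ, Real.exp (-((n + 1 : ℝ) / X)) * (n + 1 : ℝ) ^ (-(σ - 1))) ≤ 4 * X ^ 2 := by
    have h5 : ∀ n : ℕ, Real.exp (-((n + 1 : ℝ) / X)) * (n + 1 : ℝ) ^ (-(σ - 1)) ≤
        2 * X * Real.exp (-((n + 1 : ℝ) / (2 * X))) := by
      intro n
      have hn : (1 : ℝ) ≤ n + 1 := by
        have := Nat.cast_nonneg (α := ℝ) n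
        linarith
      have h6 : (n + 1 : ℝ) ^ (-(σ - 1)) ≤ n + 1 := by
        have := Real.rpow_le_rpow_of_exponent_le hn (show -(σ - 1) ≤ 1 by linarith)
        rwa [Real.rpow_one] at this
      have h7 : (n + 1 : ℝ) / (2 * X) ≤ Real.exp ((n + 1 : ℝ) / (2 * X)) := by
        have := Real.add_one_le_exp ((n + 1 : ℝ) / (2 * X))
        linarith
      have h8 : (n + 1 : ℝ) ≤ 2 * X * Real.exp ((n + 1 : ℝ) / (2 * X)) := by
        rw [div_le_iff₀ (by positivity)] at h7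
        linarith
      have h9 : Real.exp (-((n + 1 : ℝ) / X)) = Real.exp (-((n + 1 : ℝ) / (2 * X))) *
          Real.exp (-((n + 1 : ℝ) / (2 * X))) := by
        rw [← Real.exp_add]
        congr 1
        field_simp
        ring
      have h10 : Real.exp ((n + 1 : ℝ) / (2 * X)) * Real.exp (-((n + 1 : ℝ) / (2 * X))) = 1 := by
        rw [← Real.exp_add]
        simp
      calc Real.exp (-((n + 1 : ℝ) / X)) * (n + 1 : ℝ) ^ (-(σ - 1))
          ≤ Real.exp (-((n + 1 : ℝ) / X)) * (2 * X * Real.exp ((n + 1 : ℝ) / (2 * X))) := by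
            gcongr
            exact h6.trans h8
        _ = 2 * X * Real.exp (-((n + 1 : ℝ) / (2 * X))) *
            (Real.exp ((n + 1 : ℝ) / (2 * X)) * Real.exp (-((n + 1 : ℝ) / (2 * X)))) := by
            rw [h9]; ring
        _ = _ := by rw [h10, mul_one]
    refine le_trans (h2.tsum_le_tsum h5 (g1.mul_left _)) ?_
    rw [tsum_mul_left]
    calc 2 * X * _ ≤ 2 * X * (2 * X) := by gcongr
      _ = 4 * X ^ 2 := by ring
  calc _ ≤ (4 * X ^ 2) ^ 3 := pow_le_pow_left₀ (tsum_nonneg fun n => by positivity) h4 3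
    _ = 64 * X ^ 6 := by ring

end OL
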