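import Pool.Agent.Lib.MP_39df77_nt.OL.E2

/-!
# R28, R29: the mean value of the sixth power of the smoothed series
-/

set_option autoImplicit false

open Complex MeasureTheory Set Filter Topology

namespace OL

/-- divisor bound for `d_3` -/
lemma d3_bound {e : ℝ} (he : 0 < e) : ∃ C : ℝ, 1 ≤ C ∧ ∀ n : ℕ, n ≠ 0 → (d3 n : ℝ) ≤ C * (n : ℝ) ^ e := by
  obtain ⟨C, hC1, hC⟩ := U6.FM.fm_div (e / 2) (by linarith)
  refine ⟨C ^ 2, one_le_pow₀ hC1, fun n hn => ?_⟩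
  have hn0 : (0 : ℝ) < n := by exact_mod_cast Nat.pos_of_ne_zero hn
  have h1 : (d3 n : ℝ) ≤ ∑ _d ∈ n.divisors, C * (n : ℝ) ^ (e / 2) := by
    unfold d3
    push_cast
    refine Finset.sum_le_sum fun d hd => ?_
    have hd1 := Nat.pos_of_mem_divisors hd
    have hd2 := Nat.divisor_le hd
    refine (hC d hd1.ne').trans ?_
    have h3 : (d : ℝ) ^ (e / 2) ≤ (n : ℝ) ^ (e / 2) :=
      Real.rpow_le_rpow (by positivity) (by exact_mod_cast hd2) (by linarith)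
    exact mul_le_mul_of_nonneg_left h3 (by linarith)
  rw [Finset.sum_const, nsmul_eq_mul] at h1
  have h2 := hC n hn
  have h3 : (n : ℝ) ^ e = (n : ℝ) ^ (e / 2) * (n : ℝ) ^ (e / 2) := by
    rw [← Real.rpow_add hn0]
    congr 1
    ring
  rw [h3]
  have h4 : 0 ≤ C * (n : ℝ) ^ (e / 2) := by positivity
  calc (d3 n : ℝ) ≤ (n.divisors.card : ℝ) * (C * (n : ℝ) ^ (e / 2)) := h1
    _ ≤ (C * (n : ℝ) ^ (e / 2)) * (C * (n : ℝ) ^ (e / 2)) := mul_le_mul_of_nonneg_right h2 h4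
    _ = _ := by ring

/-- R29 -/
lemma d3_summable {σ : ℝ} (hσ : 1 / 2 < σ) :
    Summable fun n : ℕ => (d3 n : ℝ) ^ 2 * (n : ℝ) ^ (-(2 * σ)) := by
  obtain ⟨C, hC1, hC⟩ := d3_bound (e := (2 * σ - 1) / 4) (by linarith)
  have h1 : Summable fun n : ℕ => C ^ 2 * (n : ℝ) ^ (-σ - 1 / 2) :=
    (Real.summable_nat_rpow.2 (by linarith)).mul_left _
  refine h1.of_nonneg_of_le (fun n => by positivity) fun n => ?_
  rcases eq_or_ne n 0 with rfl | hn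
  · have : d3 0 = 0 := by unfold d3; simp
    rw [this]
    simp
    positivity
  · have hn0 : (0 : ℝ) < n := by exact_mod_cast Nat.pos_of_ne_zero hn
    have h2 := hC n hn
    have h3 : (d3 n : ℝ) ^ 2 ≤ (C * (n : ℝ) ^ ((2 * σ - 1) / 4)) ^ 2 :=
      pow_le_pow_left₀ (by positivity) h2 2
    calc (d3 n : ℝ) ^ 2 * (n : ℝ) ^ (-(2 * σ))
        ≤ (C * (n : ℝ) ^ ((2 * σ - 1) / 4)) ^ 2 * (n : ℝ) ^ (-(2 * σ)) := by gcongr
      _ = C ^ 2 * ((n : ℝ) ^ ((2 * σ - 1) / 4) * (n : ℝ) ^ ((2 * σ - 1) / 4) *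
          (n : ℝ) ^ (-(2 * σ))) := by ring
      _ = C ^ 2 * (n : ℝ) ^ (-σ - 1 / 2) := by
          rw [← Real.rpow_add hn0, ← Real.rpow_add hn0]
          congr 2
          ring

lemma cX_sq (σ X : ℝ) (n : ℕ) : cX σ X n ^ 2 = gX X (n + 1) ^ 2 * ((n + 1 : ℕ) : ℝ) ^ (-(2 * σ)) := by
  have hn : (0 : ℝ) < n + 1 := by positivity
  unfold cX
  have : (-(2 * σ)) = -σ + -σ := by ring
  rw [this]
  push_cast
  rw [Real.rpow_add hn]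
  ring

lemma cX_lim {σ : ℝ} (hσ : 1 / 2 < σ) : Tendsto (fun X : ℝ => ∑' n : ℕ, cX σ X n ^ 2) atTop
    (𝓝 (∑' n : ℕ, (d3 n : ℝ) ^ 2 * (n : ℝ) ^ (-(2 * σ)))) := by
  have hsum := d3_summable hσ
  have e1 : ∑' n : ℕ, (d3 n : ℝ) ^ 2 * (n : ℝ) ^ (-(2 * σ)) =
      ∑' n : ℕ, (d3 (n + 1) : ℝ) ^ 2 * ((n + 1 : ℕ) : ℝ) ^ (-(2 * σ)) := by
    rw [hsum.tsum_eq_zero_add]
    have : d3 0 = 0 := by unfold d3; simp
    rw [this]
    simp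
  rw [e1]
  have hb : Summable fun n : ℕ => (d3 (n + 1) : ℝ) ^ 2 * ((n + 1 : ℕ) : ℝ) ^ (-(2 * σ)) :=
    (summable_nat_add_iff 1).2 hsum
  refine tendsto_tsum_of_dominated_convergence hb ?_ ?_
  · intro n
    simp_rw [cX_sq]
    exact ((gX_tendsto (n + 1)).pow 2).mul_const _
  · filter_upwards [eventually_gt_atTop 0] with X hX
    intro n
    rw [cX_sq, Real.norm_of_nonneg (by positivity)]
    have h1 := gX_le hX (n + 1)
    have h2 := gX_nonneg X (n + 1)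
    gcongr

lemma E3_mean {σ : ℝ} (hσ : 1 / 2 < σ) :
    Tendsto (fun T : ℝ => T⁻¹ * ∫ t in (0 : ℝ)..T, ‖Sx σ (T ^ (1 / 10 : ℝ)) t‖ ^ 6) atTop
      (𝓝 (∑' n : ℕ, (d3 n : ℝ) ^ 2 * (n : ℝ) ^ (-(2 * σ)))) := by
  have hX : Tendsto (fun T : ℝ => T ^ (1 / 10 : ℝ)) atTop atTop :=
    tendsto_rpow_atTop (by norm_num)
  have h1 := (cX_lim hσ).comp hX
  have h2 : Tendsto (fun T : ℝ => 256 * T ^ (-(1 / 10 : ℝ))) atTop (𝓝 0) := by
    have := (tendsto_rpow_neg_atTop (y := 1 / 10) (by norm_num)).const_mul 256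
    simpa using this
  have h3 : Tendsto (fun T : ℝ => (T⁻¹ * ∫ t in (0 : ℝ)..T, ‖Sx σ (T ^ (1 / 10 : ℝ)) t‖ ^ 6) -
      ∑' n : ℕ, cX σ (T ^ (1 / 10 : ℝ)) n ^ 2) atTop (𝓝 0) := by
    rw [tendsto_zero_iff_abs_tendsto_zero]
    refine squeeze_zero' (Eventually.of_forall fun T => abs_nonneg _) ?_ h2
    filter_upwards [eventually_gt_atTop 0] with T hT
    have hX0 : 0 < T ^ (1 / 10 : ℝ) := by positivity
    set X : ℝ := T ^ (1 / 10 : ℝ) with hXdef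
    obtain ⟨s0, b0⟩ := E2_sum0 (σ := σ) (by linarith) hX0
    obtain ⟨s1, b1⟩ := E2_sum1 (σ := σ) (by linarith) hX0
    have h4 := E1_mv (fun n => cX_nonneg σ X n) s0 s1 hT.le
    have e : ∀ t : ℝ, ‖∑' n : ℕ, (cX σ X n : ℂ) * ei (-(t * Real.log (n + 1 : ℝ)))‖ ^ 2 =
        ‖Sx σ X t‖ ^ 6 := by
      intro t
      rw [← Sx_cube hX0, norm_pow, ← pow_mul]
    simp_rw [e] at h4
    have h5 : 4 * ((∑' n, cX σ X n) * ∑' n : ℕ, (n + 1 : ℝ) * cX σ X n) ≤ 256 * X ^ 9 := by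
      have n1 : 0 ≤ ∑' n : ℕ, (n + 1 : ℝ) * cX σ X n :=
        tsum_nonneg fun n => mul_nonneg (by positivity) (cX_nonneg _ _ _)
      calc 4 * ((∑' n, cX σ X n) * ∑' n : ℕ, (n + 1 : ℝ) * cX σ X n)
          ≤ 4 * (X ^ 3 * (64 * X ^ 6)) := by gcongr
        _ = 256 * X ^ 9 := by ring
    have h6 : T⁻¹ * X ^ 9 = T ^ (-(1 / 10 : ℝ)) := by
      rw [hXdef, ← Real.rpow_natCast, ← Real.rpow_mul hT.le, ← Real.rpow_neg_one,
        ← Real.rpow_add hT]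
      congr 1
      norm_num
    have e2 : (T⁻¹ * ∫ t in (0 : ℝ)..T, ‖Sx σ X t‖ ^ 6) - ∑' n : ℕ, cX σ X n ^ 2 =
        T⁻¹ * ((∫ t in (0 : ℝ)..T, ‖Sx σ X t‖ ^ 6) - T * ∑' n : ℕ, cX σ X n ^ 2) := by
      field_simp
    show |(T⁻¹ * ∫ t in (0 : ℝ)..T, ‖Sx σ X t‖ ^ 6) - ∑' n : ℕ, cX σ X n ^ 2| ≤
      256 * T ^ (-(1 / 10 : ℝ))
    rw [e2, abs_mul, abs_of_pos (inv_pos.2 hT)]
    calc T⁻¹ * _ ≤ T⁻¹ * (256 * X ^ 9) :=
          mul_le_mul_of_nonneg_left (h4.trans h5) (inv_pos.2 hT).le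
      _ = 256 * (T⁻¹ * X ^ 9) := by ring
      _ = _ := by rw [h6]
  have h7 := h3.add h1
  simpa using h7

end OL
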