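import Pool.Agent.Lib.MP_39df77_nt.OL.E
import Pool.Agent.Lib.MP_39df77_nt.OL.Intf

/-!
# R21 in the form of `Intf`, and the last step R26 -> R30
-/

set_option autoImplicit false

open Complex MeasureTheory Set Filter Topology

namespace OL

theorem hr21 : HR21 := fun _ _ h0 h1 h2 => smoothing h0 h1 h2

/-- from the sixth moment at `7/12 - c1` to the asymptotic formula to the right of it -/
theorem of_HR26 {c1 : ℝ} (h0 : 0 < c1) (h1 : c1 < 1 / 12) (h : HR26 c1) {σ : ℝ}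
    (hs : 7 / 12 - c1 < σ) (hs1 : σ < 1) :
    Summable (fun n : ℕ => (d3 n : ℝ) ^ 2 * (n : ℝ) ^ (-(2 * σ))) ∧
    Tendsto (fun T : ℝ => T⁻¹ * ∫ t in (0 : ℝ)..T, ‖riemannZeta (σ + t * I)‖ ^ 6) atTop
      (𝓝 (∑' n : ℕ, (d3 n : ℝ) ^ 2 * (n : ℝ) ^ (-(2 * σ)))) :=
  carlson (s0 := 7 / 12 - c1) (by linarith) (by linarith) h hs hs1

end OL
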