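import Pool.Agent.Lib.MP_39df77_nt.U6.A06

/-! Convexity of the sixth moment in `σ`. -/

set_option autoImplicit false

open Complex MeasureTheory Set Filter Topology
open scoped ComplexConjugate

namespace OL.Cx

/-- the auxiliary function -/
noncomputable def FF (T : ℝ) (s : ℂ) : ℂ :=
  riemannZeta s ^ 3 * cexp (((s - ((3 * T / 2 : ℝ) : ℂ) * I) / (T : ℂ)) ^ 2)

lemma norm_FF {T : ℝ} (hT : T ≠ 0) (σ t : ℝ) : ‖FF T (σ + t * I)‖ =
    ‖riemannZeta (σ + t * I)‖ ^ 3 * Real.exp ((σ ^ 2 - (t - 3 * T / 2) ^ 2) / T ^ 2) := by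
  unfold FF
  rw [norm_mul, norm_pow, Complex.norm_exp]
  congr 2
  have hT' : (T : ℂ) ≠ 0 := by exact_mod_cast hT
  have e1 : ((σ : ℂ) + t * I - ((3 * T / 2 : ℝ) : ℂ) * I) / (T : ℂ) = ((σ / T : ℝ) : ℂ) + (((t - 3 * T / 2) / T : ℝ) : ℂ) * I := by
    push_cast
    field_simp
    ring
  rw [e1]
  simp only [sq, Complex.mul_re, Complex.add_re, Complex.add_im, Complex.ofReal_re, Complex.ofReal_im,
    Complex.mul_im, Complex.I_re, Complex.I_im]
  field_simp
  ring

lemma FF_diff (T : ℝ) : DifferentiableOn ℂ (FF T) {s : ℂ | s.re < 1} := by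
  intro s hs
  have h1 : s ≠ 1 := by
    rintro rfl
    simp at hs
  unfold FF
  apply DifferentiableAt.differentiableWithinAt
  apply DifferentiableAt.mul
  · exact (differentiableAt_riemannZeta h1).pow 3
  · apply DifferentiableAt.cexp
    apply DifferentiableAt.pow
    fun_prop

lemma zeta_le {s1 : ℝ} (h1 : s1 < 1) : ∃ C : ℝ, 1 ≤ C ∧ ∀ σ t : ℝ, 1 / 2 ≤ σ → σ ≤ s1 →
    ‖riemannZeta (σ + t * I)‖ ≤ C * (1 + |t|) := by
  obtain ⟨C, hC, H⟩ := S6UZ.zeta_growth
  have hs : 0 < 1 - s1 := by linarith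
  refine ⟨1 / (1 - s1) + C, ?_, ?_⟩
  · have : 0 < 1 / (1 - s1) := by positivity
    linarith
  intro σ t hσ hσ1
  have hre : ((σ : ℂ) + t * I).re = σ := by simp
  have hne : ((σ : ℂ) + t * I) ≠ 1 := by
    intro h
    have := congrArg Complex.re h
    rw [hre] at this
    simp at this
    linarith
  have h := H _ (by rw [hre]; exact hσ) hne
  have h2 : 1 - s1 ≤ ‖(σ : ℂ) + t * I - 1‖ := by
    have := abs_re_le_norm ((σ : ℂ) + t * I - 1)
    rw [Complex.sub_re, hre, Complex.one_re, abs_of_nonpos (by linarith)] at this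
    linarith
  have h3 : ‖(σ : ℂ) + t * I‖ ≤ 1 + |t| := by
    refine le_trans (norm_add_le _ _) ?_
    rw [norm_mul, Complex.norm_I, mul_one, Complex.norm_real, Complex.norm_real, Real.norm_eq_abs, Real.norm_eq_abs,
      abs_of_nonneg (by linarith : (0 : ℝ) ≤ σ)]
    linarith
  have h4 : 1 / ‖(σ : ℂ) + t * I - 1‖ ≤ 1 / (1 - s1) := div_le_div_of_nonneg_left (by norm_num) hs h2
  have h5 : 0 < 1 / (1 - s1) := by positivity
  have ht := abs_nonneg t
  calc ‖riemannZeta (σ + t * I)‖ ≤ 1 / ‖(σ : ℂ) + t * I - 1‖ + C * ‖(σ : ℂ) + t * I‖ := h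
    _ ≤ 1 / (1 - s1) + C * (1 + |t|) := add_le_add h4 (mul_le_mul_of_nonneg_left h3 (by linarith))
    _ ≤ (1 / (1 - s1) + C) * (1 + |t|) := by nlinarith

/-- decay of `FF` -/
lemma FF_decay {s1 T : ℝ} (h1 : s1 < 1) (hT : 1 ≤ T) : ∃ B : ℝ, 0 < B ∧ ∀ σ t : ℝ, 1 / 2 ≤ σ → σ ≤ s1 →
    ‖FF T (σ + t * I)‖ ≤ B * (1 + ((t - 3 * T / 2) / T) ^ 2)⁻¹ := by
  obtain ⟨C, hC, H⟩ := zeta_le h1
  have hT0 : 0 < T := by linarith
  refine ⟨C ^ 3 * (1 + 5 * T / 2) ^ 3 * (120 * Real.exp (1 + 5 / 4)) * Real.exp 1, by positivity, ?_⟩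
  intro σ t hσ hσ1
  rw [norm_FF hT0.ne']
  obtain ⟨y, hy⟩ : ∃ y, y = |(t - 3 * T / 2) / T| := ⟨_, rfl⟩
  have hy0 : 0 ≤ y := by rw [hy]; exact abs_nonneg _
  have hy2 : ((t - 3 * T / 2) / T) ^ 2 = y ^ 2 := by rw [hy, sq_abs]
  have hty : |t| ≤ 3 * T / 2 + T * y := by
    have e1 : t = 3 * T / 2 + T * ((t - 3 * T / 2) / T) := by field_simp; ring
    rw [e1]
    refine le_trans (abs_add_le _ _) ?_
    rw [abs_mul, abs_of_nonneg (by positivity : 0 ≤ 3 * T / 2), abs_of_pos hT0, hy]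
  have hz := H σ t hσ hσ1
  have hz2 : ‖riemannZeta (σ + t * I)‖ ≤ C * ((1 + 5 * T / 2) * (1 + y)) := by
    refine le_trans hz (mul_le_mul_of_nonneg_left ?_ (by linarith))
    nlinarith
  have hz3 := pow_le_pow_left₀ (norm_nonneg _) hz2 3
  have hexp : Real.exp ((σ ^ 2 - (t - 3 * T / 2) ^ 2) / T ^ 2) ≤ Real.exp 1 * Real.exp (-y ^ 2) := by
    rw [← Real.exp_add]
    apply Real.exp_le_exp.2
    have e1 : (σ ^ 2 - (t - 3 * T / 2) ^ 2) / T ^ 2 = σ ^ 2 / T ^ 2 - ((t - 3 * T / 2) / T) ^ 2 := by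
      field_simp
    rw [e1, hy2]
    have : σ ^ 2 / T ^ 2 ≤ 1 := by
      rw [div_le_one (by positivity)]
      nlinarith
    linarith
  have hpoly : (1 + y) ^ 5 ≤ 120 * Real.exp (1 + y) := by
    have := Real.pow_div_factorial_le_exp (1 + y) (by linarith) 5
    rw [div_le_iff₀ (by positivity)] at this
    have e : ((5 : ℕ).factorial : ℝ) = 120 := by norm_num [Nat.factorial]
    rw [e] at this
    linarith
  have hmain : (1 + y) ^ 3 * Real.exp (-y ^ 2) ≤ 120 * Real.exp (1 + 5 / 4) * (1 + y ^ 2)⁻¹ := by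
    rw [← div_eq_mul_inv, le_div_iff₀ (by positivity)]
    have a1 : (1 + y) ^ 3 * (1 + y ^ 2) ≤ (1 + y) ^ 5 := by nlinarith [pow_pos (by linarith : 0 < 1 + y) 3]
    have a2 : Real.exp (1 + y) * Real.exp (-y ^ 2) ≤ Real.exp (1 + 5 / 4) := by
      rw [← Real.exp_add]
      apply Real.exp_le_exp.2
      nlinarith [sq_nonneg (y - 1 / 2)]
    calc (1 + y) ^ 3 * Real.exp (-y ^ 2) * (1 + y ^ 2) = (1 + y) ^ 3 * (1 + y ^ 2) * Real.exp (-y ^ 2) := by ring
      _ ≤ (1 + y) ^ 5 * Real.exp (-y ^ 2) := mul_le_mul_of_nonneg_right a1 (Real.exp_pos _).le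
      _ ≤ 120 * Real.exp (1 + y) * Real.exp (-y ^ 2) := mul_le_mul_of_nonneg_right hpoly (Real.exp_pos _).le
      _ = 120 * (Real.exp (1 + y) * Real.exp (-y ^ 2)) := by ring
      _ ≤ _ := mul_le_mul_of_nonneg_left a2 (by norm_num)
  rw [hy2]
  calc ‖riemannZeta (σ + t * I)‖ ^ 3 * Real.exp ((σ ^ 2 - (t - 3 * T / 2) ^ 2) / T ^ 2)
      ≤ (C * ((1 + 5 * T / 2) * (1 + y))) ^ 3 * (Real.exp 1 * Real.exp (-y ^ 2)) :=
        mul_le_mul hz3 hexp (Real.exp_pos _).le (by positivity)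
    _ = C ^ 3 * (1 + 5 * T / 2) ^ 3 * Real.exp 1 * ((1 + y) ^ 3 * Real.exp (-y ^ 2)) := by ring
    _ ≤ C ^ 3 * (1 + 5 * T / 2) ^ 3 * Real.exp 1 * (120 * Real.exp (1 + 5 / 4) * (1 + y ^ 2)⁻¹) :=
        mul_le_mul_of_nonneg_left hmain (by positivity)
    _ = _ := by ring

lemma line_cont {f : ℂ → ℂ} (hf : DifferentiableOn ℂ f {s : ℂ | s.re < 1}) {σ : ℝ} (hσ : σ < 1) :
    Continuous (fun t : ℝ => f (σ + t * I)) := by
  have ho : IsOpen {s : ℂ | s.re < 1} := isOpen_lt Complex.continuous_re continuous_const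
  rw [continuous_iff_continuousAt]
  intro t
  have h1 : ((σ : ℂ) + t * I) ∈ {s : ℂ | s.re < 1} := by simp [hσ]
  exact (hf.continuousOn.continuousAt (ho.mem_nhds h1)).comp (f := fun t : ℝ => (σ : ℂ) + t * I)
    (Continuous.continuousAt (by fun_prop))

lemma FF_sq_int {T σ : ℝ} (hT : 1 ≤ T) (h0 : 1 / 2 ≤ σ) (h1 : σ < 1) :
    Integrable (fun t : ℝ => ‖FF T (σ + t * I)‖ ^ 2) := by
  have hT0 : 0 < T := by linarith
  obtain ⟨B, hB, H⟩ := FF_decay h1 hT
  have hi : Integrable (fun t : ℝ => B ^ 2 * (1 + ((t - 3 * T / 2) / T) ^ 2)⁻¹) := by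
    apply Integrable.const_mul
    have := (integrable_inv_one_add_sq.comp_div hT0.ne').comp_sub_right (3 * T / 2)
    exact this
  refine hi.mono' ((line_cont (FF_diff T) h1).norm.pow 2).aestronglyMeasurable ?_
  filter_upwards with t
  rw [Real.norm_of_nonneg (by positivity)]
  have h := H σ t h0 le_rfl
  have h2 : (1 + ((t - 3 * T / 2) / T) ^ 2)⁻¹ ≤ 1 := inv_le_one_of_one_le₀ (by nlinarith [sq_nonneg ((t - 3 * T / 2) / T)])
  have h3 : 0 < (1 + ((t - 3 * T / 2) / T) ^ 2)⁻¹ := by positivity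
  calc ‖FF T (σ + t * I)‖ ^ 2 ≤ (B * (1 + ((t - 3 * T / 2) / T) ^ 2)⁻¹) ^ 2 := pow_le_pow_left₀ (norm_nonneg _) h 2
    _ = B ^ 2 * ((1 + ((t - 3 * T / 2) / T) ^ 2)⁻¹ * (1 + ((t - 3 * T / 2) / T) ^ 2)⁻¹) := by ring
    _ ≤ B ^ 2 * ((1 + ((t - 3 * T / 2) / T) ^ 2)⁻¹ * 1) := by gcongr
    _ = _ := by ring

/-- from dyadic intervals to `[0, T]` -/
lemma from_zero {g : ℝ → ℝ} (hg : Continuous g) (h0 : ∀ t, 0 ≤ g t) {m C : ℝ} (hm : 1 ≤ m) (hC : 0 ≤ C)
    (h : ∀ T : ℝ, 1 ≤ T → ∫ t in T..(2 * T), g t ≤ C * T ^ m) : ∃ C1 : ℝ, 0 ≤ C1 ∧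
    ∀ T : ℝ, 1 ≤ T → ∫ t in (0 : ℝ)..T, g t ≤ C1 * T ^ m := by
  have hi : ∀ a b : ℝ, IntervalIntegrable g volume a b := fun a b => hg.intervalIntegrable a b
  have hA : 0 ≤ ∫ t in (0 : ℝ)..2, g t := intervalIntegral.integral_nonneg (by norm_num) fun t _ => h0 t
  refine ⟨(∫ t in (0 : ℝ)..2, g t) + C, by positivity, ?_⟩
  have key : ∀ n : ℕ, ∀ T : ℝ, 1 ≤ T → T ≤ 2 ^ (n + 1) → ∫ t in (0 : ℝ)..T, g t ≤ ((∫ t in (0 : ℝ)..2, g t) + C) * T ^ m := by
    have hbase : ∀ T : ℝ, 1 ≤ T → T ≤ 2 → ∫ t in (0 : ℝ)..T, g t ≤ ((∫ t in (0 : ℝ)..2, g t) + C) * T ^ m := by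
      intro T hT hT2
      have h1 : ∫ t in (0 : ℝ)..T, g t ≤ ∫ t in (0 : ℝ)..2, g t := by
        rw [← intervalIntegral.integral_add_adjacent_intervals (hi 0 T) (hi T 2)]
        have : 0 ≤ ∫ t in T..2, g t := intervalIntegral.integral_nonneg hT2 fun t _ => h0 t
        linarith
      have h2 : 1 ≤ T ^ m := Real.one_le_rpow hT (by linarith)
      nlinarith
    intro n
    induction n with
    | zero => intro T hT hT2; exact hbase T hT (by simpa using hT2)
    | succ n ih =>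
      intro T hT hT2
      by_cases hT3 : T ≤ 2
      · exact hbase T hT hT3
      push Not at hT3
      have h1 := ih (T / 2) (by linarith) (by rw [pow_succ] at hT2; linarith)
      have h2 := h (T / 2) (by linarith)
      rw [show 2 * (T / 2) = T by ring] at h2
      rw [← intervalIntegral.integral_add_adjacent_intervals (hi 0 (T / 2)) (hi (T / 2) T)]
      have h3 : (T / 2) ^ m ≤ T ^ m / 2 := by
        rw [Real.div_rpow (by linarith) (by norm_num)]
        apply div_le_div_of_nonneg_left (by positivity) (by norm_num)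
        calc (2 : ℝ) = 2 ^ (1 : ℝ) := (Real.rpow_one 2).symm
          _ ≤ 2 ^ m := Real.rpow_le_rpow_of_exponent_le (by norm_num) hm
      have h4 : 0 ≤ (T / 2) ^ m := by positivity
      calc _ ≤ ((∫ t in (0 : ℝ)..2, g t) + C) * (T / 2) ^ m + C * (T / 2) ^ m := add_le_add h1 h2
        _ ≤ 2 * (((∫ t in (0 : ℝ)..2, g t) + C) * (T / 2) ^ m) := by nlinarith [mul_nonneg hA h4]
        _ ≤ 2 * (((∫ t in (0 : ℝ)..2, g t) + C) * (T ^ m / 2)) := by gcongr
        _ = _ := by ring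
  intro T hT
  obtain ⟨n, hn⟩ := pow_unbounded_of_one_lt T (by norm_num : (1 : ℝ) < 2)
  exact key n T hT (by rw [pow_succ]; nlinarith [pow_pos (by norm_num : (0 : ℝ) < 2) n])

/-- a convergent dyadic sum -/
lemma dy_sum {m : ℝ} (hm : 0 ≤ m) (n : ℕ) : ∑ k ∈ Finset.range n, ((2 : ℝ) ^ k) ^ m * Real.exp (-(2 : ℝ) ^ k) ≤
    2 * ((⌈m⌉₊ + 1).factorial : ℝ) := by
  obtain ⟨N, hN⟩ : ∃ N, N = ⌈m⌉₊ + 1 := ⟨_, rfl⟩
  rw [← hN]
  have h1 : ∀ k : ℕ, ((2 : ℝ) ^ k) ^ m * Real.exp (-(2 : ℝ) ^ k) ≤ (N.factorial : ℝ) * (1 / 2) ^ k := by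
    intro k
    obtain ⟨x, hx⟩ : ∃ x : ℝ, x = 2 ^ k := ⟨_, rfl⟩
    have hx1 : 1 ≤ x := by rw [hx]; exact one_le_pow₀ (by norm_num)
    have hx0 : 0 < x := by linarith
    have h2 : x ^ m * x ≤ x ^ N := by
      calc x ^ m * x = x ^ (m + 1) := by rw [Real.rpow_add hx0, Real.rpow_one]
        _ ≤ x ^ (N : ℝ) := by
          apply Real.rpow_le_rpow_of_exponent_le hx1
          rw [hN]; push_cast
          have := Nat.le_ceil m
          linarith
        _ = x ^ N := Real.rpow_natCast x N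
    have h3 := Real.pow_div_factorial_le_exp x hx0.le N
    rw [div_le_iff₀ (by positivity)] at h3
    have h4 : (1 / 2 : ℝ) ^ k = 1 / x := by rw [hx, one_div_pow]
    rw [h4, ← hx, Real.exp_neg, ← div_eq_mul_inv, mul_one_div, div_le_div_iff₀ (Real.exp_pos x) hx0]
    linarith
  refine le_trans (Finset.sum_le_sum fun k _ => h1 k) ?_
  rw [← Finset.mul_sum, mul_comm]
  apply mul_le_mul_of_nonneg_right _ (by positivity)
  have h5 := Summable.sum_le_tsum (Finset.range n) (fun k _ => by positivity) (summable_geometric_two)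
  rw [tsum_geometric_two] at h5
  exact h5

/-- mean square of `FF` on a line -/
lemma FF_L2 {s m : ℝ} (hs0 : 1 / 2 ≤ s) (hs1 : s < 1) (hm : 1 ≤ m)
    (h : ∃ C : ℝ, ∀ T : ℝ, 1 ≤ T → ∫ t in T..(2 * T), ‖riemannZeta (s + t * I)‖ ^ 6 ≤ C * T ^ m) :
    ∃ C : ℝ, 0 < C ∧ ∀ T : ℝ, 1 ≤ T → ∫ t : ℝ, ‖FF T (s + t * I)‖ ^ 2 ≤ C * T ^ m := by
  obtain ⟨C0, h⟩ := h
  obtain ⟨C, hCdef⟩ : ∃ C, C = |C0| := ⟨_, rfl⟩
  have hC : 0 ≤ C := by rw [hCdef]; exact abs_nonneg _
  obtain ⟨g, hg⟩ : ∃ g : ℝ → ℝ, g = fun t : ℝ => ‖riemannZeta (s + t * I)‖ ^ 6 := ⟨_, rfl⟩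
  have hzd : DifferentiableOn ℂ riemannZeta {s : ℂ | s.re < 1} := by
    intro z hz
    have h1 : z ≠ 1 := by rintro rfl; simp at hz
    exact (differentiableAt_riemannZeta h1).differentiableWithinAt
  have hgc : Continuous g := by rw [hg]; exact (line_cont hzd hs1).norm.pow 6
  have hg0 : ∀ t, 0 ≤ g t := by intro t; rw [hg]; positivity
  have hgh : ∀ T : ℝ, 1 ≤ T → ∫ t in T..(2 * T), g t ≤ C * T ^ m := by
    intro T hT
    rw [hg]
    refine le_trans (h T hT) ?_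
    apply mul_le_mul_of_nonneg_right _ (by positivity)
    rw [hCdef]; exact le_abs_self _
  have hgeven : ∀ t, g (-t) = g t := by
    intro t
    rw [hg]
    simp only
    have : ((s : ℂ) + ((-t : ℝ) : ℂ) * I) = conj ((s : ℂ) + t * I) := by simp
    rw [this, riemannZeta_conj, RCLike.norm_conj]
  obtain ⟨C1, hC1, h1⟩ := from_zero hgc hg0 hm hC hgh
  obtain ⟨Sm, hSm⟩ : ∃ Sm : ℝ, Sm = 2 * ((⌈m⌉₊ + 1).factorial : ℝ) := ⟨_, rfl⟩
  have hSm0 : 0 < Sm := by rw [hSm]; positivity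
  refine ⟨2 * (Real.exp 2 * C1 + Real.exp 4 * C * Sm) + 1, by positivity, fun T hT => ?_⟩
  have hT0 : 0 < T := by linarith
  have hTm : 0 < T ^ m := by positivity
  obtain ⟨f, hf⟩ : ∃ f : ℝ → ℝ, f = fun t : ℝ => ‖FF T (s + t * I)‖ ^ 2 := ⟨_, rfl⟩
  have hfeq : ∀ t, f t = g t * Real.exp (2 * ((s ^ 2 - (t - 3 * T / 2) ^ 2) / T ^ 2)) := by
    intro t
    rw [hf, hg]
    simp only
    rw [norm_FF hT0.ne', mul_pow, ← pow_mul, ← Real.exp_nat_mul]
    push_cast; ring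
  have hfi : Integrable f := by rw [hf]; exact FF_sq_int hT hs0 hs1
  have hf0 : ∀ t, 0 ≤ f t := by intro t; rw [hf]; positivity
  have hfc : Continuous f := by rw [hf]; exact (line_cont (FF_diff T) hs1).norm.pow 2
  have hsym : ∀ t, f t ≤ f |t| := by
    intro t
    rw [hfeq, hfeq]
    rcases le_total 0 t with ht | ht
    · rw [abs_of_nonneg ht]
    · rw [abs_of_nonpos ht, hgeven]
      apply mul_le_mul_of_nonneg_left _ (hg0 t)
      apply Real.exp_le_exp.2
      apply mul_le_mul_of_nonneg_left _ (by norm_num)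
      apply div_le_div_of_nonneg_right _ (by positivity)
      nlinarith
  have hfabs : ∫ t : ℝ, f t ≤ 2 * ∫ t in Ioi (0 : ℝ), f t := by
    rw [← integral_comp_abs]
    apply integral_mono hfi _ hsym
    -- integrability of f |t|
    have e1 : IntegrableOn (fun t => f |t|) (Ioi 0) := by
      refine hfi.integrableOn.congr_fun ?_ measurableSet_Ioi
      intro t ht
      simp only [abs_of_pos (show 0 < t from ht)]
    have e2 : IntegrableOn (fun t => f |t|) (Iic 0) := by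
      refine (hfi.comp_neg.integrableOn (s := Iic 0)).congr_fun ?_ measurableSet_Iic
      intro t ht
      simp only [abs_of_nonpos (show t ≤ 0 from ht)]
    rw [← integrableOn_univ, ← Iic_union_Ioi (a := (0:ℝ))]
    exact e2.union e1
  have hle : ∀ n : ℕ, ∫ t in (0 : ℝ)..(2 ^ n * T), f t ≤ (Real.exp 2 * C1 + Real.exp 4 * C * Sm) * T ^ m := by
    intro n
    have hii : ∀ a b : ℝ, IntervalIntegrable f volume a b := fun a b => hfc.intervalIntegrable a b
    rw [← intervalIntegral.integral_add_adjacent_intervals (hii 0 T) (hii T (2 ^ n * T))]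
    have hp1 : ∫ t in (0 : ℝ)..T, f t ≤ Real.exp 2 * C1 * T ^ m := by
      calc ∫ t in (0 : ℝ)..T, f t ≤ ∫ t in (0 : ℝ)..T, Real.exp 2 * g t := by
            apply intervalIntegral.integral_mono_on hT0.le (hii 0 T) ((hgc.const_mul _).intervalIntegrable _ _)
            intro t _
            rw [hfeq, mul_comm]
            apply mul_le_mul_of_nonneg_right _ (hg0 t)
            apply Real.exp_le_exp.2
            have : (s ^ 2 - (t - 3 * T / 2) ^ 2) / T ^ 2 ≤ 1 := by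
              rw [div_le_one (by positivity)]
              nlinarith [sq_nonneg (t - 3 * T / 2)]
            linarith
        _ = Real.exp 2 * ∫ t in (0 : ℝ)..T, g t := by rw [intervalIntegral.integral_const_mul]
        _ ≤ Real.exp 2 * (C1 * T ^ m) := mul_le_mul_of_nonneg_left (h1 T hT) (Real.exp_pos _).le
        _ = _ := by ring
    have hp2 : ∫ t in T..(2 ^ n * T), f t ≤ Real.exp 4 * C * Sm * T ^ m := by
      have hs := intervalIntegral.sum_integral_adjacent_intervals (f := f) (μ := volume) (a := fun k : ℕ => 2 ^ k * T) (n := n)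
        (fun k _ => hii _ _)
      simp only [pow_zero, one_mul] at hs
      rw [← hs]
      have hone : ∀ k ∈ Finset.range n, ∫ t in (2 ^ k * T)..(2 ^ (k + 1) * T), f t ≤
          Real.exp 4 * C * T ^ m * (((2 : ℝ) ^ k) ^ m * Real.exp (-(2 : ℝ) ^ k)) := by
        intro k _
        have hk1 : (1 : ℝ) ≤ 2 ^ k := one_le_pow₀ (by norm_num)
        have hkT : 1 ≤ 2 ^ k * T := by nlinarith
        have e2 : (2 : ℝ) ^ (k + 1) * T = 2 * (2 ^ k * T) := by rw [pow_succ]; ring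
        rw [e2]
        calc ∫ t in (2 ^ k * T)..(2 * (2 ^ k * T)), f t ≤ ∫ t in (2 ^ k * T)..(2 * (2 ^ k * T)), Real.exp 4 * Real.exp (-(2 : ℝ) ^ k) * g t := by
              apply intervalIntegral.integral_mono_on (by nlinarith) (hii _ _) ((hgc.const_mul _).intervalIntegrable _ _)
              intro t ht
              rw [hfeq, mul_comm]
              apply mul_le_mul_of_nonneg_right _ (hg0 t)
              rw [← Real.exp_add]
              apply Real.exp_le_exp.2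
              obtain ⟨x, hx⟩ : ∃ x, x = t / T := ⟨_, rfl⟩
              have htx : t = x * T := by rw [hx]; field_simp
              have hxk : 2 ^ k ≤ x := by rw [hx, le_div_iff₀ hT0]; exact ht.1
              have e3 : (s ^ 2 - (t - 3 * T / 2) ^ 2) / T ^ 2 = s ^ 2 / T ^ 2 - (x - 3 / 2) ^ 2 := by
                rw [htx]; field_simp
              rw [e3]
              have : s ^ 2 / T ^ 2 ≤ 1 := by
                rw [div_le_one (by positivity)]
                nlinarith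
              nlinarith [sq_nonneg (x - 7 / 4)]
          _ = Real.exp 4 * Real.exp (-(2 : ℝ) ^ k) * ∫ t in (2 ^ k * T)..(2 * (2 ^ k * T)), g t := by
              rw [intervalIntegral.integral_const_mul]
          _ ≤ Real.exp 4 * Real.exp (-(2 : ℝ) ^ k) * (C * (2 ^ k * T) ^ m) :=
              mul_le_mul_of_nonneg_left (hgh _ hkT) (by positivity)
          _ = _ := by rw [Real.mul_rpow (by positivity) hT0.le]; ring
      refine le_trans (Finset.sum_le_sum hone) ?_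
      rw [← Finset.mul_sum]
      have := dy_sum (m := m) (by linarith) n
      rw [← hSm] at this
      calc _ ≤ Real.exp 4 * C * T ^ m * Sm := mul_le_mul_of_nonneg_left this (by positivity)
        _ = _ := by ring
    calc _ ≤ _ := add_le_add hp1 hp2
      _ = _ := by ring
  have htend : Tendsto (fun n : ℕ => (2 : ℝ) ^ n * T) atTop atTop :=
    (tendsto_pow_atTop_atTop_of_one_lt (by norm_num)).atTop_mul_const hT0
  have hlim := intervalIntegral_tendsto_integral_Ioi (0 : ℝ) (hfi.integrableOn (s := Ioi 0)) htend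
  have hIoi := le_of_tendsto' hlim hle
  rw [← hf]
  calc ∫ t : ℝ, f t ≤ 2 * ∫ t in Ioi (0 : ℝ), f t := hfabs
    _ ≤ 2 * ((Real.exp 2 * C1 + Real.exp 4 * C * Sm) * T ^ m) := by linarith
    _ ≤ _ := by nlinarith

lemma cs_int {f g : ℝ → ℝ} (hf : Continuous f) (hg : Continuous g) {a b : ℝ} (hab : a ≤ b) :
    (∫ u in a..b, f u * g u) ^ 2 ≤ (∫ u in a..b, f u ^ 2) * ∫ u in a..b, g u ^ 2 := by
  have h : ∀ x : ℝ, 0 ≤ (∫ u in a..b, f u ^ 2) * (x * x) + (-2 * ∫ u in a..b, f u * g u) * x + ∫ u in a..b, g u ^ 2 := by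
    intro x
    have h1 : 0 ≤ ∫ u in a..b, (x * f u - g u) ^ 2 := intervalIntegral.integral_nonneg hab fun _ _ => sq_nonneg _
    have h2 : ∫ u in a..b, (x * f u - g u) ^ 2 = ∫ u in a..b, ((x * x) * f u ^ 2 + (-2 * x) * (f u * g u) + g u ^ 2) := by
      congr 1; ext u; ring
    have i1 : IntervalIntegrable (fun u => (x * x) * f u ^ 2) volume a b := ((hf.pow 2).const_mul _).intervalIntegrable _ _
    have i2 : IntervalIntegrable (fun u => (-2 * x) * (f u * g u)) volume a b := ((hf.mul hg).const_mul _).intervalIntegrable _ _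
    have i3 : IntervalIntegrable (fun u => g u ^ 2) volume a b := (hg.pow 2).intervalIntegrable _ _
    rw [h2, intervalIntegral.integral_add (i1.add i2) i3, intervalIntegral.integral_add i1 i2,
      intervalIntegral.integral_const_mul, intervalIntegral.integral_const_mul] at h1
    linarith
  have := discrim_le_zero h
  unfold discrim at this
  nlinarith

lemma line_cont' {f : ℂ → ℂ} (hf : ContinuousOn f {s : ℂ | s.re < 1}) {z : ℂ} (hz : z.re < 1) :
    Continuous (fun t : ℝ => f (z + t * I)) := by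
  have ho : IsOpen {s : ℂ | s.re < 1} := isOpen_lt Complex.continuous_re continuous_const
  rw [continuous_iff_continuousAt]
  intro t
  have h1 : (z + t * I) ∈ {s : ℂ | s.re < 1} := by simp [hz]
  exact (hf.continuousAt (ho.mem_nhds h1)).comp (f := fun t : ℝ => z + t * I)
    (Continuous.continuousAt (by fun_prop))

/-- the duality integral -/
noncomputable def Ph (T σ : ℝ) (z : ℂ) : ℂ :=
  ∫ u in T..(2 * T), FF T (z + u * I) * conj (FF T (σ + u * I))

lemma Ph_diff {T σ : ℝ} (hσ : σ < 1) : DifferentiableOn ℂ (Ph T σ) {s : ℂ | s.re < 1} := by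
  intro z0 hz0
  have hz0' : z0.re < 1 := hz0
  apply DifferentiableAt.differentiableWithinAt
  have ho : IsOpen {s : ℂ | s.re < 1} := isOpen_lt Complex.continuous_re continuous_const
  obtain ⟨r, hr⟩ : ∃ r, r = (1 - z0.re) / 2 := ⟨_, rfl⟩
  have hr0 : 0 < r := by rw [hr]; linarith
  have hball : ∀ z ∈ Metric.closedBall z0 r, z.re < 1 := by
    intro z hz
    rw [Metric.mem_closedBall, dist_eq_norm] at hz
    have h1 := abs_re_le_norm (z - z0)
    rw [Complex.sub_re] at h1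
    have h2 := le_abs_self (z.re - z0.re)
    rw [hr] at hz
    linarith
  have hd : ContinuousOn (deriv (FF T)) {s : ℂ | s.re < 1} := ((FF_diff T).deriv ho).continuousOn
  have hh : Continuous (fun u : ℝ => conj (FF T (σ + u * I))) :=
    Complex.continuous_conj.comp (line_cont (FF_diff T) hσ)
  -- bound for the derivative
  have hK : IsCompact ((fun p : ℂ × ℝ => p.1 + p.2 * I) '' (Metric.closedBall z0 r ×ˢ Set.uIcc T (2 * T))) := by
    apply IsCompact.image
    · exact (isCompact_closedBall z0 r).prod isCompact_uIcc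
    · fun_prop
  have hKsub : ((fun p : ℂ × ℝ => p.1 + p.2 * I) '' (Metric.closedBall z0 r ×ˢ Set.uIcc T (2 * T))) ⊆ {s : ℂ | s.re < 1} := by
    rintro _ ⟨p, hp, rfl⟩
    have := hball p.1 hp.1
    simpa using this
  obtain ⟨D, hD⟩ := hK.exists_bound_of_continuousOn (hd.mono hKsub)
  have hres := intervalIntegral.hasDerivAt_integral_of_dominated_loc_of_deriv_le (μ := volume) (a := T) (b := 2 * T)
    (F := fun z u => FF T (z + u * I) * conj (FF T (σ + u * I)))
    (F' := fun z u => deriv (FF T) (z + u * I) * conj (FF T (σ + u * I)))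
    (x₀ := z0) (s := Metric.closedBall z0 r) (bound := fun u => D * ‖FF T (σ + u * I)‖)
    (Metric.closedBall_mem_nhds z0 hr0)
    (by
      filter_upwards [Metric.closedBall_mem_nhds z0 hr0] with z hz
      exact ((line_cont' (FF_diff T).continuousOn (hball z hz)).mul hh).aestronglyMeasurable)
    (((line_cont' (FF_diff T).continuousOn hz0').mul hh).intervalIntegrable _ _)
    ((line_cont' hd hz0').mul hh).aestronglyMeasurable
    (by
      refine ae_of_all _ fun u hu z hz => ?_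
      rw [norm_mul, RCLike.norm_conj]
      apply mul_le_mul_of_nonneg_right _ (norm_nonneg _)
      exact hD _ ⟨(z, u), ⟨hz, uIoc_subset_uIcc hu⟩, rfl⟩)
    ((continuous_const.mul (line_cont (FF_diff T) hσ).norm).intervalIntegrable _ _)
    (by
      refine ae_of_all _ fun u _ z hz => ?_
      have h1 : (z + u * I) ∈ {s : ℂ | s.re < 1} := by
        have := hball z hz
        simpa using this
      have h2 : HasDerivAt (FF T) (deriv (FF T) (z + u * I)) (z + u * I) :=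
        ((FF_diff T).differentiableAt (ho.mem_nhds h1)).hasDerivAt
      exact (h2.comp_add_const z (u * I)).mul_const _)
  exact hres.2.differentiableAt

/-- Cauchy-Schwarz for `Ph` on a line -/
lemma Ph_le {T σ s A : ℝ} (hT : 1 ≤ T) (hσ : σ < 1) (hs0 : 1 / 2 ≤ s) (hs1 : s < 1)
    (hA : ∫ t : ℝ, ‖FF T (s + t * I)‖ ^ 2 ≤ A) (z : ℂ) (hz : z.re = s) :
    ‖Ph T σ z‖ ≤ Real.sqrt (A * ∫ u in T..(2 * T), ‖FF T (σ + u * I)‖ ^ 2) := by
  have hT2 : T ≤ 2 * T := by linarith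
  have c1 : Continuous (fun u : ℝ => ‖FF T (z + u * I)‖) :=
    (line_cont' (FF_diff T).continuousOn (by rw [hz]; exact hs1)).norm
  have c2 : Continuous (fun u : ℝ => ‖FF T (σ + u * I)‖) := (line_cont (FF_diff T) hσ).norm
  have h1 : ‖Ph T σ z‖ ≤ ∫ u in T..(2 * T), ‖FF T (z + u * I)‖ * ‖FF T (σ + u * I)‖ := by
    unfold Ph
    refine le_trans (intervalIntegral.norm_integral_le_integral_norm hT2) (le_of_eq ?_)
    congr 1; ext u
    rw [norm_mul, RCLike.norm_conj]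
  have h2 := cs_int c1 c2 hT2
  have h3 : ∫ u in T..(2 * T), ‖FF T (z + u * I)‖ ^ 2 ≤ A := by
    refine le_trans ?_ hA
    have e1 : ∀ u : ℝ, ‖FF T (z + u * I)‖ ^ 2 = (fun t : ℝ => ‖FF T (s + t * I)‖ ^ 2) (z.im + u) := by
      intro u
      simp only
      congr 3
      apply Complex.ext <;> simp [hz]
    simp_rw [e1]
    rw [intervalIntegral.integral_comp_add_left (fun t : ℝ => ‖FF T (s + t * I)‖ ^ 2) z.im,
      intervalIntegral.integral_of_le (by linarith)]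
    exact setIntegral_le_integral (FF_sq_int hT hs0 hs1) (ae_of_all _ fun t => by positivity)
  have hH : 0 ≤ ∫ u in T..(2 * T), ‖FF T (σ + u * I)‖ ^ 2 :=
    intervalIntegral.integral_nonneg hT2 fun _ _ => by positivity
  apply Real.le_sqrt_of_sq_le
  calc ‖Ph T σ z‖ ^ 2 ≤ (∫ u in T..(2 * T), ‖FF T (z + u * I)‖ * ‖FF T (σ + u * I)‖) ^ 2 :=
        pow_le_pow_left₀ (norm_nonneg _) h1 2
    _ ≤ _ := h2
    _ ≤ _ := mul_le_mul_of_nonneg_right h3 hH

end OL.Cx

namespace OL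

open OL.Cx

/-- convexity of the sixth moment in `σ` -/
theorem convex6 {s0 s1 m0 m1 θ : ℝ} (hs0 : 1 / 2 ≤ s0) (hs01 : s0 < s1) (hs1 : s1 < 1) (hθ0 : 0 ≤ θ) (hθ1 : θ ≤ 1)
    (hm0 : 1 ≤ m0) (hm1 : 1 ≤ m1)
    (h0 : ∃ C : ℝ, ∀ T : ℝ, 1 ≤ T → ∫ t in T..(2 * T), ‖riemannZeta (s0 + t * I)‖ ^ 6 ≤ C * T ^ m0)
    (h1 : ∃ C : ℝ, ∀ T : ℝ, 1 ≤ T → ∫ t in T..(2 * T), ‖riemannZeta (s1 + t * I)‖ ^ 6 ≤ C * T ^ m1) :
    ∃ C : ℝ, ∀ T : ℝ, 1 ≤ T → ∫ t in T..(2 * T), ‖riemannZeta (((1 - θ) * s0 + θ * s1 : ℝ) + t * I)‖ ^ 6 ≤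
      C * T ^ ((1 - θ) * m0 + θ * m1) := by
  obtain ⟨C0, hC0, H0⟩ := FF_L2 hs0 (by linarith) hm0 h0
  obtain ⟨C1, hC1, H1⟩ := FF_L2 (by linarith : 1 / 2 ≤ s1) hs1 hm1 h1
  obtain ⟨σ, hσdef⟩ : ∃ σ, σ = (1 - θ) * s0 + θ * s1 := ⟨_, rfl⟩
  have hσ0 : s0 ≤ σ := by rw [hσdef]; nlinarith
  have hσ1 : σ ≤ s1 := by rw [hσdef]; nlinarith
  have hσlt : σ < 1 := by linarith
  refine ⟨Real.exp (1 / 2) * (C0 ^ (1 - θ) * C1 ^ θ), fun T hT => ?_⟩
  rw [← hσdef]
  have hT0 : 0 < T := by linarith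
  have hT2 : T ≤ 2 * T := by linarith
  obtain ⟨H, hH⟩ : ∃ H, H = ∫ u in T..(2 * T), ‖FF T (σ + u * I)‖ ^ 2 := ⟨_, rfl⟩
  have hHn : 0 ≤ H := by rw [hH]; exact intervalIntegral.integral_nonneg hT2 fun _ _ => by positivity
  -- from H to the moment
  have hmom : ∫ t in T..(2 * T), ‖riemannZeta (σ + t * I)‖ ^ 6 ≤ Real.exp (1 / 2) * H := by
    rw [hH, ← intervalIntegral.integral_const_mul]
    have hzd : DifferentiableOn ℂ riemannZeta {s : ℂ | s.re < 1} := by
      intro z hz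
      have h1 : z ≠ 1 := by rintro rfl; simp at hz
      exact (differentiableAt_riemannZeta h1).differentiableWithinAt
    apply intervalIntegral.integral_mono_on hT2
    · exact ((line_cont hzd hσlt).norm.pow 6).intervalIntegrable _ _
    · exact (((line_cont (FF_diff T) hσlt).norm.pow 2).const_mul _).intervalIntegrable _ _
    · intro t ht
      rw [norm_FF hT0.ne', mul_pow, ← pow_mul, ← Real.exp_nat_mul]
      have e1 : Real.exp (1 / 2) * (‖riemannZeta (σ + t * I)‖ ^ (3 * 2) * Real.exp ((2 : ℕ) * ((σ ^ 2 - (t - 3 * T / 2) ^ 2) / T ^ 2))) =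
        ‖riemannZeta (σ + t * I)‖ ^ 6 * Real.exp (1 / 2 + (2 : ℕ) * ((σ ^ 2 - (t - 3 * T / 2) ^ 2) / T ^ 2)) := by
        rw [Real.exp_add]; ring
      rw [e1]
      have h2 : (t - 3 * T / 2) ^ 2 / T ^ 2 ≤ 1 / 4 := by
        rw [div_le_iff₀ (by positivity)]
        have a1 : |t - 3 * T / 2| ≤ T / 2 := by rw [abs_le]; constructor <;> linarith [ht.1, ht.2]
        have a2 := pow_le_pow_left₀ (abs_nonneg _) a1 2
        rw [sq_abs] at a2
        linarith
      have h3 : 1 ≤ Real.exp (1 / 2 + (2 : ℕ) * ((σ ^ 2 - (t - 3 * T / 2) ^ 2) / T ^ 2)) := by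
        apply Real.one_le_exp
        rw [sub_div]
        have : 0 ≤ σ ^ 2 / T ^ 2 := by positivity
        push_cast
        linarith
      have h4 : 0 ≤ ‖riemannZeta (σ + t * I)‖ ^ 6 := by positivity
      nlinarith
  rcases hHn.eq_or_lt with hz | hpos
  · rw [← hz, mul_zero] at hmom
    refine le_trans hmom ?_
    positivity
  -- three lines
  have hP0 : ∀ z : ℂ, z.re = s0 → ‖Ph T σ z‖ ≤ Real.sqrt (C0 * T ^ m0 * H) := by
    intro z hz; rw [hH]; exact Ph_le hT hσlt hs0 (by linarith) (H0 T hT) z hz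
  have hP1 : ∀ z : ℂ, z.re = s1 → ‖Ph T σ z‖ ≤ Real.sqrt (C1 * T ^ m1 * H) := by
    intro z hz; rw [hH]; exact Ph_le hT hσlt (by linarith) hs1 (H1 T hT) z hz
  obtain ⟨B, hB, hBd⟩ := FF_decay hs1 hT
  have hbdd : BddAbove ((norm ∘ Ph T σ) '' HadamardThreeLines.verticalClosedStrip s0 s1) := by
    refine ⟨∫ u in T..(2 * T), B * ‖FF T (σ + u * I)‖, ?_⟩
    rintro _ ⟨z, hz, rfl⟩
    have hz' : z.re ∈ Set.Icc s0 s1 := hz
    simp only [Function.comp_apply]
    unfold Ph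
    refine le_trans (intervalIntegral.norm_integral_le_integral_norm hT2) ?_
    apply intervalIntegral.integral_mono_on hT2
    · exact ((line_cont' (FF_diff T).continuousOn (by linarith [hz'.2])).mul
        (Complex.continuous_conj.comp (line_cont (FF_diff T) hσlt))).norm.intervalIntegrable _ _
    · exact (continuous_const.mul (line_cont (FF_diff T) hσlt).norm).intervalIntegrable _ _
    · intro u _
      rw [norm_mul, RCLike.norm_conj]
      apply mul_le_mul_of_nonneg_right _ (norm_nonneg _)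
      have e1 : z + u * I = ((z.re : ℝ) : ℂ) + ((z.im + u : ℝ) : ℂ) * I := by
        apply Complex.ext <;> simp
      rw [e1]
      refine le_trans (hBd z.re (z.im + u) (by linarith [hz'.1]) hz'.2) ?_
      have := inv_le_one_of_one_le₀ (show 1 ≤ 1 + ((z.im + u - 3 * T / 2) / T) ^ 2 by nlinarith [sq_nonneg ((z.im + u - 3 * T / 2) / T)])
      nlinarith
  have hdc : DiffContOnCl ℂ (Ph T σ) (HadamardThreeLines.verticalStrip s0 s1) := by
    apply DifferentiableOn.diffContOnCl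
    refine (Ph_diff hσlt).mono ?_
    intro z hz
    have hcl : closure (HadamardThreeLines.verticalStrip s0 s1) ⊆ HadamardThreeLines.verticalClosedStrip s0 s1 := by
      apply closure_minimal
      · intro w hw
        exact ⟨le_of_lt (show w.re ∈ Set.Ioo s0 s1 from hw).1, le_of_lt (show w.re ∈ Set.Ioo s0 s1 from hw).2⟩
      · exact isClosed_Icc.preimage Complex.continuous_re
    have := (show z.re ∈ Set.Icc s0 s1 from hcl hz).2
    show z.re < 1
    linarith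
  have hthree := HadamardThreeLines.norm_le_interp_of_mem_verticalClosedStrip' (f := Ph T σ) (z := (σ : ℂ)) hs01
    (show (σ : ℂ).re ∈ Set.Icc s0 s1 by rw [Complex.ofReal_re]; exact ⟨hσ0, hσ1⟩) hdc hbdd
    (fun z hz => hP0 z hz) (fun z hz => hP1 z hz)
  have hθeq : ((σ : ℂ).re - s0) / (s1 - s0) = θ := by
    rw [Complex.ofReal_re, hσdef, div_eq_iff (by linarith)]; ring
  rw [hθeq] at hthree
  have hval : ‖Ph T σ (σ : ℂ)‖ = H := by
    have e1 : Ph T σ (σ : ℂ) = ((H : ℝ) : ℂ) := by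
      unfold Ph
      rw [hH, ← intervalIntegral.integral_ofReal]
      congr 1; ext u
      rw [Complex.mul_conj, Complex.normSq_eq_norm_sq]
    rw [e1, Complex.norm_real, Real.norm_of_nonneg hHn]
  rw [hval] at hthree
  have hA0 : 0 ≤ C0 * T ^ m0 * H := by positivity
  have hA1 : 0 ≤ C1 * T ^ m1 * H := by positivity
  have hsqr : H ^ 2 ≤ (C0 * T ^ m0 * H) ^ (1 - θ) * (C1 * T ^ m1 * H) ^ θ := by
    have h2 := pow_le_pow_left₀ hHn hthree 2
    have e1 : ∀ x p : ℝ, 0 ≤ x → (Real.sqrt x ^ p) ^ 2 = x ^ p := by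
      intro x p hx
      rw [← Real.rpow_natCast, ← Real.rpow_mul (Real.sqrt_nonneg x), Real.sqrt_eq_rpow, ← Real.rpow_mul hx]
      congr 1; push_cast; ring
    rw [mul_pow, e1 _ _ hA0, e1 _ _ hA1] at h2
    exact h2
  have hfin : H ≤ C0 ^ (1 - θ) * C1 ^ θ * T ^ ((1 - θ) * m0 + θ * m1) := by
    have e1 : (C0 * T ^ m0 * H) ^ (1 - θ) * (C1 * T ^ m1 * H) ^ θ = C0 ^ (1 - θ) * C1 ^ θ * T ^ ((1 - θ) * m0 + θ * m1) * H := by
      rw [Real.mul_rpow (by positivity) hHn, Real.mul_rpow (by positivity) hHn, Real.mul_rpow hC0.le (by positivity),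
        Real.mul_rpow hC1.le (by positivity), ← Real.rpow_mul hT0.le, ← Real.rpow_mul hT0.le, Real.rpow_add hT0,
        mul_comm (1 - θ) m0, mul_comm θ m1]
      have e2 : H ^ (1 - θ) * H ^ θ = H := by
        rw [← Real.rpow_add hpos]; simp
      calc _ = C0 ^ (1 - θ) * C1 ^ θ * (T ^ (m0 * (1 - θ)) * T ^ (m1 * θ)) * (H ^ (1 - θ) * H ^ θ) := by ring
        _ = _ := by rw [e2]
    rw [e1, sq] at hsqr
    exact le_of_mul_le_mul_right hsqr hpos
  calc _ ≤ Real.exp (1 / 2) * H := hmom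
    _ ≤ Real.exp (1 / 2) * (C0 ^ (1 - θ) * C1 ^ θ * T ^ ((1 - θ) * m0 + θ * m1)) :=
        mul_le_mul_of_nonneg_left hfin (Real.exp_pos _).le
    _ = _ := by ring

end OL
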