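import Pool.Agent.Lib.MP_39df77_nt.OL.F1
import Pool.Agent.Lib.MP_39df77_nt.OL.Intf
import Pool.Agent.Lib.MP_39df77_nt.OL.E6

/-! The sixth moment to the left of `7/12 - c`: convexity between the critical line and `7/12 - c1`. -/

set_option autoImplicit false

open Complex MeasureTheory Set Filter Topology

namespace OL

/-- continuity on a vertical line to the left of `1` -/
lemma F2_cont {σ : ℝ} (hσ : σ < 1) : Continuous (fun t : ℝ => ‖riemannZeta (σ + t * I)‖ ^ 6) := by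
  rw [continuous_iff_continuousAt]
  intro t
  have h1 : ((σ : ℂ) + t * I) ≠ 1 := by
    intro h
    have := congrArg Complex.re h
    simp at this
    linarith
  exact (((differentiableAt_riemannZeta h1).continuousAt.comp (f := fun t : ℝ => (σ : ℂ) + t * I)
    (Continuous.continuousAt (by fun_prop))).norm).pow 6

/-- from dyadic intervals to `[0, T]` -/
lemma F2_dyadic {f : ℝ → ℝ} (hf : Continuous f) (h0 : ∀ t, 0 ≤ f t) {m C : ℝ} (hm : 1 ≤ m)
    (hC : 0 ≤ C) (h : ∀ T : ℝ, 1 ≤ T → ∫ t in T..(2 * T), f t ≤ C * T ^ m) :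
    ∀ T : ℝ, 1 ≤ T → ∫ t in (0 : ℝ)..T, f t ≤ ((∫ t in (0 : ℝ)..2, f t) + C) * T ^ m := by
  have hint : ∀ a b : ℝ, IntervalIntegrable f volume a b := fun a b => hf.intervalIntegrable a b
  set J := ∫ t in (0 : ℝ)..2, f t with hJ
  have hJ0 : 0 ≤ J := intervalIntegral.integral_nonneg (by norm_num) fun t _ => h0 t
  have key : ∀ n : ℕ, ∀ T : ℝ, 1 ≤ T → T ≤ 2 ^ (n + 1) → ∫ t in (0 : ℝ)..T, f t ≤ (J + C) * T ^ m := by
    intro n
    induction n with
    | zero =>
      intro T hT hT2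
      have h1 : ∫ t in (0 : ℝ)..T, f t ≤ J := by
        refine intervalIntegral.integral_mono_interval le_rfl (by linarith) (by simpa using hT2) ?_ (hint _ _)
        exact Filter.Eventually.of_forall h0
      have h2 : 1 ≤ T ^ m := Real.one_le_rpow hT (by linarith)
      nlinarith
    | succ n ih =>
      intro T hT hT2
      rcases le_total T (2 ^ (n + 1)) with h3 | h3
      · exact ih T hT h3
      · have h4 : (2:ℝ) ≤ T := by
          refine le_trans ?_ h3
          calc (2:ℝ) = 2 ^ 1 := by norm_num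
            _ ≤ 2 ^ (n + 1) := pow_le_pow_right₀ (by norm_num) (by omega)
        have h5 : T / 2 ≤ 2 ^ (n + 1) := by
          rw [pow_succ] at hT2
          linarith
        have h6 := ih (T / 2) (by linarith) h5
        have h7 := h (T / 2) (by linarith)
        rw [show 2 * (T / 2) = T by ring] at h7
        have h8 : ∫ t in (0 : ℝ)..T, f t = (∫ t in (0 : ℝ)..(T / 2), f t) + ∫ t in (T / 2)..T, f t :=
          (intervalIntegral.integral_add_adjacent_intervals (hint _ _) (hint _ _)).symm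
        have h9 : (T / 2) ^ m ≤ T ^ m / 2 := by
          rw [Real.div_rpow (by linarith) (by norm_num)]
          have h10 : (2:ℝ) ≤ 2 ^ m := by
            calc (2:ℝ) = 2 ^ (1:ℝ) := (Real.rpow_one 2).symm
              _ ≤ 2 ^ m := Real.rpow_le_rpow_of_exponent_le (by norm_num) hm
          exact div_le_div_of_nonneg_left (by positivity) (by norm_num) h10
        have h11 : (J + C) * (T / 2) ^ m ≤ (J + C) * (T ^ m / 2) :=
          mul_le_mul_of_nonneg_left h9 (by linarith)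
        have h12 : C * (T / 2) ^ m ≤ C * (T ^ m / 2) := mul_le_mul_of_nonneg_left h9 hC
        have h13 : 0 ≤ J * T ^ m := by positivity
        rw [h8]
        linarith
  intro T hT
  obtain ⟨n, hn⟩ := pow_unbounded_of_one_lt T (show (1:ℝ) < 2 by norm_num)
  refine key n T hT (hn.le.trans ?_)
  exact pow_le_pow_right₀ (by norm_num) (by omega)

/-- **the sixth moment to the left of `7/12 - c`** -/
theorem left_of {c1 c : ℝ} (hc : 0 < c) (hc1 : c < c1) (hc2 : c1 ≤ 1 / 1000) (h : HR26 c1)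
    (h6 : ∃ C : ℝ, ∀ T : ℝ, 1 ≤ T →
      ∫ t in T..(2 * T), ‖riemannZeta ((1 / 2 : ℝ) + t * I)‖ ^ 6 ≤ C * T ^ (5 / 4 - 1 / 85 : ℝ)) {σ : ℝ}
    (hσ : 1 / 2 ≤ σ) (hσ1 : σ ≤ 7 / 12 - c) : ∃ C : ℝ, ∀ T : ℝ, 1 ≤ T →
      ∫ t in (0 : ℝ)..T, ‖riemannZeta (σ + t * I)‖ ^ 6 ≤ C * T ^ (1 + 3 * (7 / 12 - c - σ)) := by
  have hcont := F2_cont (σ := σ) (by linarith)
  have hint : ∀ a b : ℝ, IntervalIntegrable (fun t : ℝ => ‖riemannZeta (σ + t * I)‖ ^ 6) volume a b :=
    fun a b => hcont.intervalIntegrable a b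
  rcases le_or_gt σ (7 / 12 - c1) with hs | hs
  · -- convexity
    suffices hd : ∃ C : ℝ, ∀ T : ℝ, 1 ≤ T →
        ∫ t in T..(2 * T), ‖riemannZeta (σ + t * I)‖ ^ 6 ≤ C * T ^ (1 + 3 * (7 / 12 - c - σ)) by
      obtain ⟨C, hC⟩ := hd
      refine ⟨(∫ t in (0 : ℝ)..2, ‖riemannZeta (σ + t * I)‖ ^ 6) + |C|, ?_⟩
      refine F2_dyadic hcont (fun t => by positivity) (by linarith) (abs_nonneg C) ?_
      intro T hT
      exact (hC T hT).trans (mul_le_mul_of_nonneg_right (le_abs_self C)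
        (Real.rpow_nonneg (by linarith) _))
    have hD : 0 < 1 / 12 - c1 := by linarith
    set θ : ℝ := (σ - 1 / 2) / (1 / 12 - c1) with hθ
    have hθ0 : 0 ≤ θ := div_nonneg (by linarith) hD.le
    have hθ1 : θ ≤ 1 := by rw [hθ, div_le_one hD]; linarith
    have hθe : θ * (1 / 12 - c1) = σ - 1 / 2 := by rw [hθ, div_mul_cancel₀ _ hD.ne']
    obtain ⟨C, hC⟩ := convex6 (s0 := 1 / 2) (s1 := 7 / 12 - c1) (m0 := 5 / 4 - 1 / 85)
      (m1 := 1 + 3 * (c1 - c)) (θ := θ) le_rfl (by linarith) (by linarith) hθ0 hθ1 (by norm_num)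
      (by linarith) h6 (h (3 * (c1 - c)) (by linarith))
    have e1 : (1 - θ) * (1 / 2) + θ * (7 / 12 - c1) = σ := by linarith
    rw [e1] at hC
    refine ⟨|C|, fun T hT => (hC T hT).trans ?_⟩
    refine mul_le_mul (le_abs_self C) ?_ (Real.rpow_nonneg (by linarith) _) (abs_nonneg C)
    refine Real.rpow_le_rpow_of_exponent_le hT ?_
    have h1 : (1 - θ) * (1 / 4 - 1 / 85) ≤ (1 - θ) * (3 * (1 / 12 - c1)) :=
      mul_le_mul_of_nonneg_left (by linarith) (by linarith)
    have h2 : θ * (3 * (c1 - c)) ≤ 1 * (3 * (c1 - c)) :=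
      mul_le_mul_of_nonneg_right hθ1 (by linarith)
    nlinarith
  · -- the asymptotic formula
    obtain ⟨-, hlim⟩ := of_HR26 (by linarith) (by linarith) h hs (by linarith)
    set L := ∑' n : ℕ, (d3 n : ℝ) ^ 2 * (n : ℝ) ^ (-(2 * σ)) with hL
    obtain ⟨T0, hT0⟩ := Filter.eventually_atTop.1 (hlim.eventually_le_const (show L < |L| + 1 by
      linarith [le_abs_self L]))
    set T1 := max T0 1 with hT1
    set J := ∫ t in (0 : ℝ)..T1, ‖riemannZeta (σ + t * I)‖ ^ 6 with hJ
    have hT11 : 1 ≤ T1 := le_max_right _ _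
    have hJ0 : 0 ≤ J := intervalIntegral.integral_nonneg (by linarith) fun t _ => by positivity
    refine ⟨|L| + 1 + J, fun T hT => ?_⟩
    have hx : 1 ≤ 1 + 3 * (7 / 12 - c - σ) := by linarith
    have hTx : T ≤ T ^ (1 + 3 * (7 / 12 - c - σ)) := by
      calc T = T ^ (1:ℝ) := (Real.rpow_one T).symm
        _ ≤ _ := Real.rpow_le_rpow_of_exponent_le hT hx
    have hLp : 0 ≤ |L| + 1 := by positivity
    rcases le_total T1 T with h3 | h3
    · have h4 := hT0 T ((le_max_left _ _).trans h3)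
      rw [inv_mul_le_iff₀ (by linarith)] at h4
      have h5 : (|L| + 1) * T ≤ (|L| + 1) * T ^ (1 + 3 * (7 / 12 - c - σ)) :=
        mul_le_mul_of_nonneg_left hTx hLp
      have h6 : 0 ≤ J * T ^ (1 + 3 * (7 / 12 - c - σ)) := by positivity
      linarith
    · have h4 : ∫ t in (0 : ℝ)..T, ‖riemannZeta (σ + t * I)‖ ^ 6 ≤ J := by
        refine intervalIntegral.integral_mono_interval le_rfl (by linarith) h3 ?_ (hint _ _)
        exact Filter.Eventually.of_forall fun t => by positivity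
      have h5 : 1 ≤ T ^ (1 + 3 * (7 / 12 - c - σ)) := hT.trans hTx
      have h6 : J * 1 ≤ J * T ^ (1 + 3 * (7 / 12 - c - σ)) := mul_le_mul_of_nonneg_left h5 hJ0
      have h7 : 0 ≤ (|L| + 1) * T ^ (1 + 3 * (7 / 12 - c - σ)) := by positivity
      linarith

end OL
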