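import Pool.Agent.Lib.MP_39df77_nt.OL.C07

/-! bound for the energy of a set of large values, sizes of all orders -/

set_option autoImplicit false

open Complex MeasureTheory Set Filter Topology
open scoped Real ComplexConjugate

namespace OL

theorem G1_pow {T : ℝ} (hT0 : 0 < T) (x : ℝ) (n : ℕ) : (T ^ x) ^ n = T ^ (x * n) := by
  rw [← Real.rpow_natCast, ← Real.rpow_mul hT0.le]

/-- the algebra after `energy1` -/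
theorem G1_alg {T μ α ρ η κ e C E Z1 Z2 : ℝ} (hT1 : 1 ≤ T) (he : 0 < e) (hC : 0 < C) (hE : 0 ≤ E)
    (hZ1 : 0 ≤ Z1) (hZ2 : 0 ≤ Z2)
    (hz1 : Z1 ≤ T ^ (2 * μ + ρ) + 2 * T ^ (1 + e + (2 - κ) * ρ))
    (hz2 : Z2 ≤ T ^ (2 * μ) * E + 2 * T ^ (1 + e + (4 - κ) * ρ))
    (h1 : 4 * α + μ + ρ ≤ η) (h2 : 4 * α - μ + 1 + (2 - κ) * ρ ≤ η)
    (h3 : 2 * α - μ / 2 + 1 / 2 + (5 / 2 - κ / 2) * ρ ≤ η)
    (h4 : 2 * α - 3 / 2 * μ + 1 + (3 - κ) * ρ ≤ η)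
    (hmain : (T ^ (3 / 4 * μ - α)) ^ 2 * E ≤ C * T ^ (4 * e) * (T ^ e) ^ 2 *
      (Z1 ^ (1 / 2 : ℝ) * Z2 ^ (1 / 2 : ℝ))) :
    E ≤ (3 * C ^ 2 + 3 * C) * T ^ (13 * e + η) := by
  have hT0 : 0 < T := by linarith
  have mono : ∀ {x y : ℝ}, x ≤ y → T ^ x ≤ T ^ y := fun h => Real.rpow_le_rpow_of_exponent_le hT1 h
  have hQ : (Z1 ^ (1 / 2 : ℝ) * Z2 ^ (1 / 2 : ℝ)) ^ 2 = Z1 * Z2 := by
    rw [← Real.sqrt_eq_rpow, ← Real.sqrt_eq_rpow, mul_pow, Real.sq_sqrt hZ1, Real.sq_sqrt hZ2]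
  have hV : (T ^ (3 / 4 * μ - α)) ^ 4 = T ^ (3 * μ - 4 * α) := by
    rw [G1_pow hT0]; congr 1; push_cast; ring
  have hB : (T ^ (4 * e) * (T ^ e) ^ 2) ^ 2 = T ^ (12 * e) := by
    rw [G1_pow hT0, ← Real.rpow_add hT0, G1_pow hT0]; congr 1; push_cast; ring
  have hsq : T ^ (3 * μ - 4 * α) * E ^ 2 ≤ C ^ 2 * T ^ (12 * e) * (Z1 * Z2) := by
    calc T ^ (3 * μ - 4 * α) * E ^ 2 = ((T ^ (3 / 4 * μ - α)) ^ 2 * E) ^ 2 := by rw [← hV]; ring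
      _ ≤ (C * T ^ (4 * e) * (T ^ e) ^ 2 * (Z1 ^ (1 / 2 : ℝ) * Z2 ^ (1 / 2 : ℝ))) ^ 2 := by gcongr
      _ = C ^ 2 * (T ^ (4 * e) * (T ^ e) ^ 2) ^ 2 * (Z1 ^ (1 / 2 : ℝ) * Z2 ^ (1 / 2 : ℝ)) ^ 2 := by ring
      _ = _ := by rw [hQ, hB]
  have hU : T ^ (4 * α - 3 * μ) * T ^ (3 * μ - 4 * α) = 1 := by
    rw [← Real.rpow_add hT0]; rw [show 4 * α - 3 * μ + (3 * μ - 4 * α) = 0 by ring, Real.rpow_zero]
  have hE2 : E ^ 2 ≤ C ^ 2 * T ^ (12 * e + (4 * α - 3 * μ)) * (Z1 * Z2) := by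
    calc E ^ 2 = T ^ (4 * α - 3 * μ) * (T ^ (3 * μ - 4 * α) * E ^ 2) := by
          rw [← mul_assoc, hU, one_mul]
      _ ≤ T ^ (4 * α - 3 * μ) * (C ^ 2 * T ^ (12 * e) * (Z1 * Z2)) := by gcongr
      _ = _ := by rw [Real.rpow_add hT0]; ring
  have hE3 : E ^ 2 ≤ C ^ 2 * T ^ (12 * e + (4 * α - 3 * μ)) *
      ((T ^ (2 * μ + ρ) + 2 * T ^ (1 + e + (2 - κ) * ρ)) *
        (T ^ (2 * μ) * E + 2 * T ^ (1 + e + (4 - κ) * ρ))) := by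
    refine hE2.trans ?_
    gcongr
  have hp : T ^ (12 * e + (4 * α - 3 * μ)) * ((T ^ (2 * μ + ρ) + 2 * T ^ (1 + e + (2 - κ) * ρ)) *
      T ^ (2 * μ)) ≤ 3 * T ^ (13 * e + η) := by
    have a1 : T ^ (12 * e + (4 * α - 3 * μ)) * (T ^ (2 * μ + ρ) * T ^ (2 * μ)) ≤ T ^ (13 * e + η) := by
      rw [← Real.rpow_add hT0, ← Real.rpow_add hT0]
      exact mono (by linarith)
    have a2 : T ^ (12 * e + (4 * α - 3 * μ)) * (T ^ (1 + e + (2 - κ) * ρ) * T ^ (2 * μ)) ≤ T ^ (13 * e + η) := by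
      rw [← Real.rpow_add hT0, ← Real.rpow_add hT0]
      exact mono (by linarith)
    linear_combination a1 + 2 * a2
  have hq : T ^ (12 * e + (4 * α - 3 * μ)) * ((T ^ (2 * μ + ρ) + 2 * T ^ (1 + e + (2 - κ) * ρ)) *
      (2 * T ^ (1 + e + (4 - κ) * ρ))) ≤ 6 * (T ^ (7 * e + η)) ^ 2 := by
    have a0 : (T ^ (7 * e + η)) ^ 2 = T ^ (14 * e + 2 * η) := by
      rw [G1_pow hT0]; congr 1; push_cast; ring
    have a1 : T ^ (12 * e + (4 * α - 3 * μ)) * (T ^ (2 * μ + ρ) * T ^ (1 + e + (4 - κ) * ρ)) ≤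
        T ^ (14 * e + 2 * η) := by
      rw [← Real.rpow_add hT0, ← Real.rpow_add hT0]
      exact mono (by linarith)
    have a2 : T ^ (12 * e + (4 * α - 3 * μ)) * (T ^ (1 + e + (2 - κ) * ρ) * T ^ (1 + e + (4 - κ) * ρ)) ≤
        T ^ (14 * e + 2 * η) := by
      rw [← Real.rpow_add hT0, ← Real.rpow_add hT0]
      exact mono (by linarith)
    rw [a0]
    linear_combination 2 * a1 + 4 * a2
  have hquad : E ^ 2 ≤ (3 * C ^ 2 * T ^ (13 * e + η)) * E + (3 * C * T ^ (7 * e + η)) ^ 2 := by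
    refine hE3.trans ?_
    have hCC : 0 ≤ C ^ 2 := by positivity
    have b1 := mul_le_mul_of_nonneg_left (mul_le_mul_of_nonneg_right hp hE) hCC
    have b2 := mul_le_mul_of_nonneg_left hq hCC
    have b3 : 0 ≤ C ^ 2 * (T ^ (7 * e + η)) ^ 2 := by positivity
    linear_combination b1 + b2 + 3 * b3
  have hsol := quad_solve (by positivity) (by positivity) hquad
  refine hsol.trans ?_
  have c1 : T ^ (7 * e + η) ≤ T ^ (13 * e + η) := mono (by linarith)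
  have c2 : 3 * C * T ^ (7 * e + η) ≤ 3 * C * T ^ (13 * e + η) := by gcongr
  linear_combination c2

/-- `energy1` with `e = g / 100`, `Y = ⌈T^(1 + e - μ)⌉`, squared, then `quad_solve`:
`En² ≤ P (M² En + M Y R^(4 - 1/k))`, `P = C² T^(8e) B⁴ V^(-4) (M² R + M Y R^(2 - 1/k))`. -/
theorem energyK {k : ℕ} (hk : 1 ≤ k) {g : ℝ} (hg : 0 < g) (hg1 : g ≤ 1 / 100) : ∃ T0 : ℝ, 2 ≤ T0 ∧
    ∀ (T μ α ρ η : ℝ) (S : Finset ℝ) (b : ℕ → ℂ), T0 ≤ T → 0 ≤ μ → 1 ≤ k * (1 - μ) →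
    Sep S → InI S T → (S.card : ℝ) = T ^ ρ →
    (∀ n ∈ Finset.Ioc ⌊T ^ μ⌋₊ ⌊4 * T ^ μ⌋₊, ‖b n‖ ≤ T ^ (g / 100)) →
    (∀ t ∈ S, T ^ (3 / 4 * μ - α) ≤ ‖Dp b (T ^ μ) t‖) →
    4 * α + μ + ρ ≤ η → 4 * α - μ + 1 + (2 - 1 / (k : ℝ)) * ρ ≤ η →
    2 * α - μ / 2 + 1 / 2 + (5 / 2 - 1 / (2 * (k : ℝ))) * ρ ≤ η →
    2 * α - 3 / 2 * μ + 1 + (3 - 1 / (k : ℝ)) * ρ ≤ η →
    En S ≤ T ^ (η + g / 4) := by
  obtain ⟨e, hge⟩ : ∃ e : ℝ, e = g / 100 := ⟨_, rfl⟩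
  have he : 0 < e := by rw [hge]; positivity
  have he1 : e ≤ 1 := by rw [hge]; linarith
  obtain ⟨C, hC, H⟩ := energy1 hk he
  refine ⟨max 2 ((3 * C ^ 2 + 3 * C) ^ (1 / (12 * e))), le_max_left _ _, ?_⟩
  intro T μ α ρ η S b hT hμ hμk hS hI hcard hb hD h1 h2 h3 h4
  rw [← hge] at hb
  have hT2 : 2 ≤ T := (le_max_left _ _).trans hT
  have hTC : (3 * C ^ 2 + 3 * C) ^ (1 / (12 * e)) ≤ T := (le_max_right _ _).trans hT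
  have hT1 : 1 ≤ T := by linarith
  have hT0 : 0 < T := by linarith
  have mono : ∀ {x y : ℝ}, x ≤ y → T ^ x ≤ T ^ y := fun h => Real.rpow_le_rpow_of_exponent_le hT1 h
  have hkr : (1 : ℝ) ≤ (k : ℝ) := by exact_mod_cast hk
  have hμ1 : μ ≤ 1 := by
    by_contra hlt
    push Not at hlt
    have : (k : ℝ) * (1 - μ) ≤ 0 := mul_nonpos_of_nonneg_of_nonpos (by linarith) (by linarith)
    linarith
  have hM : 1 ≤ T ^ μ := Real.one_le_rpow hT1 hμ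
  have hM0 : 0 < T ^ μ := by linarith
  obtain ⟨Y, hY⟩ : ∃ Y : ℕ, Y = ⌈T ^ (1 + e - μ)⌉₊ := ⟨_, rfl⟩
  have hX1 : 1 ≤ T ^ (1 + e - μ) := Real.one_le_rpow hT1 (by linarith)
  have hYlow : T ^ (1 + e - μ) ≤ (Y : ℝ) := by rw [hY]; exact Nat.le_ceil _
  have hYup : (Y : ℝ) ≤ 2 * T ^ (1 + e - μ) := by
    have : (Y : ℝ) < T ^ (1 + e - μ) + 1 := by rw [hY]; exact Nat.ceil_lt_add_one (by linarith)
    linarith
  have hY1 : 1 ≤ Y := by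
    have : (1 : ℝ) ≤ (Y : ℝ) := hX1.trans hYlow
    exact_mod_cast this
  have hadd : T ^ μ * T ^ (1 + e - μ) = T ^ (1 + e) := by
    rw [← Real.rpow_add hT0]; congr 1; ring
  have hMY1 : T ^ (1 + e) ≤ T ^ μ * Y := by
    rw [← hadd]; gcongr
  have hMY2 : T ^ μ * Y ≤ 2 * T ^ (1 + e) := by
    calc T ^ μ * Y ≤ T ^ μ * (2 * T ^ (1 + e - μ)) := by gcongr
      _ = 2 * (T ^ μ * T ^ (1 + e - μ)) := by ring
      _ = _ := by rw [hadd]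
  have hMY3 : T ^ μ * Y ≤ T ^ 3 := by
    refine hMY2.trans ?_
    calc 2 * T ^ (1 + e) ≤ T * T ^ (2 : ℝ) := by
          refine mul_le_mul hT2 (mono (by linarith)) (by positivity) hT0.le
      _ = T ^ 3 := by
          rw [show (2 : ℝ) = ((2 : ℕ) : ℝ) by norm_num, Real.rpow_natCast]; ring
  have hYk : T ≤ (Y : ℝ) ^ k := by
    calc T = T ^ (1 : ℝ) := (Real.rpow_one T).symm
      _ ≤ T ^ ((1 + e - μ) * (k : ℝ)) := mono (by nlinarith)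
      _ = (T ^ (1 + e - μ)) ^ k := (G1_pow hT0 _ _).symm
      _ ≤ (Y : ℝ) ^ k := pow_le_pow_left₀ (by positivity) hYlow k
  have hne : S.Nonempty := by
    rw [Finset.nonempty_iff_ne_empty]
    rintro rfl
    have : (0 : ℝ) < T ^ ρ := by positivity
    rw [← hcard] at this
    simp at this
  have hmain := H T (T ^ μ) (T ^ e) (T ^ (3 / 4 * μ - α)) Y S b hT1 hM hY1 hMY1 hMY3 hYk hS hI hne
    (by positivity) (by positivity) hb hD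
  have hE0 : 0 ≤ En S := En_nonneg' S
  rw [hcard, ← Real.rpow_mul hT0.le, ← Real.rpow_mul hT0.le] at hmain
  have hM2 : (T ^ μ) ^ 2 = T ^ (2 * μ) := by
    rw [G1_pow hT0]; congr 1; push_cast; ring
  have hz1 : (T ^ μ) ^ 2 * T ^ ρ + T ^ μ * Y * T ^ (ρ * (2 - 1 / (k : ℝ))) ≤
      T ^ (2 * μ + ρ) + 2 * T ^ (1 + e + (2 - 1 / (k : ℝ)) * ρ) := by
    have c1 : (T ^ μ) ^ 2 * T ^ ρ = T ^ (2 * μ + ρ) := by rw [hM2, ← Real.rpow_add hT0]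
    have c2 : T ^ μ * Y * T ^ (ρ * (2 - 1 / (k : ℝ))) ≤ 2 * T ^ (1 + e + (2 - 1 / (k : ℝ)) * ρ) := by
      calc T ^ μ * Y * T ^ (ρ * (2 - 1 / (k : ℝ))) ≤ 2 * T ^ (1 + e) * T ^ (ρ * (2 - 1 / (k : ℝ))) := by gcongr
        _ = 2 * (T ^ (1 + e) * T ^ (ρ * (2 - 1 / (k : ℝ)))) := by ring
        _ = _ := by rw [← Real.rpow_add hT0, mul_comm ρ]
    linarith
  have hz2 : (T ^ μ) ^ 2 * En S + T ^ μ * Y * T ^ (ρ * (4 - 1 / (k : ℝ))) ≤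
      T ^ (2 * μ) * En S + 2 * T ^ (1 + e + (4 - 1 / (k : ℝ)) * ρ) := by
    have c2 : T ^ μ * Y * T ^ (ρ * (4 - 1 / (k : ℝ))) ≤ 2 * T ^ (1 + e + (4 - 1 / (k : ℝ)) * ρ) := by
      calc T ^ μ * Y * T ^ (ρ * (4 - 1 / (k : ℝ))) ≤ 2 * T ^ (1 + e) * T ^ (ρ * (4 - 1 / (k : ℝ))) := by gcongr
        _ = 2 * (T ^ (1 + e) * T ^ (ρ * (4 - 1 / (k : ℝ)))) := by ring
        _ = _ := by rw [← Real.rpow_add hT0, mul_comm ρ]
    rw [hM2]; linarith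
  have h3' : 2 * α - μ / 2 + 1 / 2 + (5 / 2 - 1 / (k : ℝ) / 2) * ρ ≤ η := by
    refine le_of_eq_of_le ?_ h3
    have : 1 / (2 * (k : ℝ)) = 1 / (k : ℝ) / 2 := by ring
    rw [this]
  have hfin := G1_alg hT1 he hC hE0 (by positivity) (by positivity) hz1 hz2 h1 h2 h3' h4 hmain
  refine hfin.trans ?_
  have hK : 3 * C ^ 2 + 3 * C ≤ T ^ (12 * e) := by
    calc 3 * C ^ 2 + 3 * C = ((3 * C ^ 2 + 3 * C) ^ (1 / (12 * e))) ^ (12 * e) := by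
          rw [← Real.rpow_mul (by positivity), one_div, inv_mul_cancel₀ (by positivity), Real.rpow_one]
      _ ≤ T ^ (12 * e) := by gcongr
  calc (3 * C ^ 2 + 3 * C) * T ^ (13 * e + η) ≤ T ^ (12 * e) * T ^ (13 * e + η) := by gcongr
    _ = T ^ (η + g / 4) := by
      rw [← Real.rpow_add hT0]
      congr 1
      rw [hge]; ring

end OL
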