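import Pool.Agent.Lib.MP_39df77_nt.OL.C04
import Pool.Agent.Lib.MP_39df77_nt.OL.G1

/-! large value theorem for polynomials of size `M^(3/4) T^(-α)`, `M = T^μ` -/

set_option autoImplicit false

open Complex MeasureTheory Set Filter Topology
open scoped Real ComplexConjugate

namespace OL

theorem G2_exp_rpow (x y : ℝ) : Real.exp x ^ y = Real.exp (x * y) := (Real.exp_mul x y).symm

theorem G2_En_nonneg (S : Finset ℝ) : 0 ≤ En S :=
  Finset.sum_nonneg fun t1 _ => Finset.sum_nonneg fun t2 _ => Finset.sum_nonneg fun t3 _ =>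
    Finset.sum_nonneg fun t4 _ => div_nonneg (by norm_num)
      (add_nonneg (by norm_num) (sq_nonneg (t1 + t2 - t3 - t4)))

/-- second alternative of `core` -/
theorem G2_alt2 {t m R G kR C E y e q h L : ℝ} (hC : 0 < C) (hE : 0 ≤ E)
    (he : t * (4 * e) = G / 25) (hq : R * q = 2 * R - kR)
    (hy0 : 0 < y) (hy : y ≤ 2 * Real.exp (t + G / 100 - m)) (hEn : E ≤ Real.exp (h + G / 4))
    (l1 : G / 25 + (2 * (t + G / 100) + 3 / 2 * R) ≤ L - G / 2)
    (l2 : G / 25 + (m / 2 + 3 / 2 * (t + G / 100) + R / 2 + (h + G / 4) / 2) ≤ L - G / 2)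
    (l3 : G / 25 + (m + (t + G / 100) + (2 * R - kR)) ≤ L - G / 2) :
    C * Real.exp t ^ (4 * e) * (Real.exp m ^ 2 * (y ^ 2 * Real.exp R ^ (3 / 2 : ℝ) +
        y ^ (3 / 2 : ℝ) * Real.exp R ^ (1 / 2 : ℝ) * E ^ (1 / 2 : ℝ)) +
        Real.exp m ^ 2 * y * Real.exp R ^ q) ≤
      12 * C * Real.exp (L - G / 2) := by
  set z : ℝ := t + G / 100 - m with hz
  set W : ℝ := Real.exp (L - G / 2) with hW
  have a0 : Real.exp t ^ (4 * e) = Real.exp (G / 25) := by
    rw [G2_exp_rpow, he]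
  have a1 : y ^ 2 ≤ 4 * Real.exp (2 * z) := by
    have : y ^ 2 ≤ (2 * Real.exp z) ^ 2 := pow_le_pow_left₀ hy0.le hy 2
    rw [mul_pow, ← Real.exp_nat_mul] at this
    push_cast at this
    linarith
  have a2 : y ^ (3 / 2 : ℝ) ≤ 4 * Real.exp (3 / 2 * z) := by
    have h1 : y ^ (3 / 2 : ℝ) ≤ (2 * Real.exp z) ^ (3 / 2 : ℝ) :=
      Real.rpow_le_rpow hy0.le hy (by norm_num)
    have h2 : (2 : ℝ) ^ (3 / 2 : ℝ) ≤ 4 := by
      have : (2 : ℝ) ^ (3 / 2 : ℝ) ≤ (2 : ℝ) ^ (2 : ℝ) :=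
        Real.rpow_le_rpow_of_exponent_le (by norm_num) (by norm_num)
      refine this.trans ?_
      norm_num
    rw [Real.mul_rpow (by norm_num) (Real.exp_pos _).le, G2_exp_rpow] at h1
    refine h1.trans ?_
    rw [mul_comm z]
    exact mul_le_mul_of_nonneg_right h2 (Real.exp_pos _).le
  have a3 : y ≤ 4 * Real.exp z := hy.trans (by linarith [Real.exp_pos z])
  have a4 : E ^ (1 / 2 : ℝ) ≤ Real.exp ((h + G / 4) / 2) := by
    refine (Real.rpow_le_rpow hE hEn (by norm_num)).trans (le_of_eq ?_)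
    rw [G2_exp_rpow]
    congr 1
    ring
  have b1 : Real.exp (G / 25) * (Real.exp m ^ 2 * (y ^ 2 * Real.exp R ^ (3 / 2 : ℝ))) ≤ 4 * W := by
    calc Real.exp (G / 25) * (Real.exp m ^ 2 * (y ^ 2 * Real.exp R ^ (3 / 2 : ℝ)))
        ≤ Real.exp (G / 25) * (Real.exp m ^ 2 * ((4 * Real.exp (2 * z)) *
            Real.exp R ^ (3 / 2 : ℝ))) := by
          gcongr
      _ = 4 * Real.exp (G / 25 + (2 * (t + G / 100) + 3 / 2 * R)) := by
          rw [G2_exp_rpow, ← Real.exp_nat_mul]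
          have e : G / 25 + (2 * (t + G / 100) + 3 / 2 * R) =
            G / 25 + ((2 : ℕ) * m + (2 * z + R * (3 / 2))) := by
            rw [hz]; push_cast; ring
          rw [e, Real.exp_add, Real.exp_add, Real.exp_add]
          ring
      _ ≤ 4 * W := by
          rw [hW]; gcongr
  have b2 : Real.exp (G / 25) * (Real.exp m ^ 2 * (y ^ (3 / 2 : ℝ) * Real.exp R ^ (1 / 2 : ℝ) *
      E ^ (1 / 2 : ℝ))) ≤ 4 * W := by
    calc Real.exp (G / 25) * (Real.exp m ^ 2 * (y ^ (3 / 2 : ℝ) * Real.exp R ^ (1 / 2 : ℝ) *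
          E ^ (1 / 2 : ℝ)))
        ≤ Real.exp (G / 25) * (Real.exp m ^ 2 * ((4 * Real.exp (3 / 2 * z)) *
          Real.exp R ^ (1 / 2 : ℝ) * Real.exp ((h + G / 4) / 2))) := by
          gcongr
      _ = 4 * Real.exp (G / 25 + (m / 2 + 3 / 2 * (t + G / 100) + R / 2 + (h + G / 4) / 2)) := by
          rw [G2_exp_rpow, ← Real.exp_nat_mul]
          have e1 : G / 25 + (m / 2 + 3 / 2 * (t + G / 100) + R / 2 + (h + G / 4) / 2) =
            G / 25 + ((2 : ℕ) * m + (3 / 2 * z + (R * (1 / 2) + (h + G / 4) / 2))) := by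
            rw [hz]; push_cast; ring
          rw [e1, Real.exp_add, Real.exp_add, Real.exp_add, Real.exp_add]
          ring
      _ ≤ 4 * W := by
          rw [hW]; gcongr
  have b3 : Real.exp (G / 25) * (Real.exp m ^ 2 * y * Real.exp R ^ q) ≤ 4 * W := by
    calc Real.exp (G / 25) * (Real.exp m ^ 2 * y * Real.exp R ^ q)
        ≤ Real.exp (G / 25) * (Real.exp m ^ 2 * (4 * Real.exp z) * Real.exp R ^ q) := by
          gcongr
      _ = 4 * Real.exp (G / 25 + (m + (t + G / 100) + (2 * R - kR))) := by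
          rw [G2_exp_rpow, ← Real.exp_nat_mul, hq]
          have e : G / 25 + (m + (t + G / 100) + (2 * R - kR)) =
            G / 25 + ((2 : ℕ) * m + (z + (2 * R - kR))) := by
            rw [hz]; push_cast; ring
          rw [e, Real.exp_add, Real.exp_add, Real.exp_add]
          ring
      _ ≤ 4 * W := by
          rw [hW]; gcongr
  rw [a0]
  have hs : Real.exp (G / 25) * (Real.exp m ^ 2 * (y ^ 2 * Real.exp R ^ (3 / 2 : ℝ) +
        y ^ (3 / 2 : ℝ) * Real.exp R ^ (1 / 2 : ℝ) * E ^ (1 / 2 : ℝ)) +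
        Real.exp m ^ 2 * y * Real.exp R ^ q) ≤ 12 * W := by
    have : Real.exp (G / 25) * (Real.exp m ^ 2 * (y ^ 2 * Real.exp R ^ (3 / 2 : ℝ) +
        y ^ (3 / 2 : ℝ) * Real.exp R ^ (1 / 2 : ℝ) * E ^ (1 / 2 : ℝ)) +
        Real.exp m ^ 2 * y * Real.exp R ^ q) =
        Real.exp (G / 25) * (Real.exp m ^ 2 * (y ^ 2 * Real.exp R ^ (3 / 2 : ℝ))) +
        Real.exp (G / 25) * (Real.exp m ^ 2 * (y ^ (3 / 2 : ℝ) * Real.exp R ^ (1 / 2 : ℝ) *
          E ^ (1 / 2 : ℝ))) +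
        Real.exp (G / 25) * (Real.exp m ^ 2 * y * Real.exp R ^ q) := by ring
    rw [this]
    linarith
  rw [mul_assoc]
  calc C * _ ≤ C * (12 * W) := mul_le_mul_of_nonneg_left hs hC.le
    _ = 12 * C * W := by ring

/-- `core` with `e = g / 100`, `Y = ⌈T^(1 + e - μ)⌉` and `energyK`; `ρ = log |S| / log T > r`, all seven
conditions are increasing in `r`. -/
theorem thmK {k : ℕ} (hk : 1 ≤ k) {g : ℝ} (hg : 0 < g) (hg1 : g ≤ 1 / 100) : ∃ T0 : ℝ, 2 ≤ T0 ∧
    ∀ (T μ α r : ℝ) (S : Finset ℝ) (b : ℕ → ℂ), T0 ≤ T → 0 ≤ μ → 1 ≤ k * (1 - μ) → 0 ≤ r →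
    Sep S → InI S T →
    (∀ n ∈ Finset.Ioc ⌊T ^ μ⌋₊ ⌊4 * T ^ μ⌋₊, ‖b n‖ ≤ T ^ (g / 100)) →
    (∀ t ∈ S, T ^ (3 / 4 * μ - α) ≤ ‖Dp b (T ^ μ) t‖) →
    g ≤ r - μ / 2 - 2 * α →
    g ≤ 3 / 2 * r + 3 / 2 * μ - 2 - 6 * α →
    g ≤ (1 + 1 / (k : ℝ)) * r + μ / 2 - 1 - 6 * α →
    g ≤ 2 * r + μ / 2 - 3 / 2 - 8 * α →
    g ≤ (3 / 2 + 1 / (2 * (k : ℝ))) * r + 3 / 2 * μ - 2 - 8 * α →
    g ≤ (5 / 4 + 1 / (4 * (k : ℝ))) * r + 5 / 4 * μ - 7 / 4 - 7 * α →
    g ≤ (1 + 1 / (2 * (k : ℝ))) * r + 7 / 4 * μ - 2 - 7 * α →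
    (S.card : ℝ) ≤ T ^ r := by
  obtain ⟨T1, hT1, hen⟩ := energyK hk hg hg1
  have he0 : 0 < g / 100 := by positivity
  obtain ⟨C, hC, hcore⟩ := core hk he0
  have hkpos : (0 : ℝ) < k := by exact_mod_cast hk
  refine ⟨max T1 ((12 * C + 1) ^ ((g / 2)⁻¹)), hT1.trans (le_max_left _ _), ?_⟩
  intro T μ α r S b hT hμ hkμ hr hS hI hb hD c1 c2 c3 c4 c5 c6 c7
  have hTT1 : T1 ≤ T := (le_max_left _ _).trans hT
  have hT2 : 2 ≤ T := hT1.trans hTT1
  have hTC : 12 * C + 1 ≤ T ^ (g / 2) := by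
    have h := (le_max_right _ _).trans hT
    calc 12 * C + 1 = ((12 * C + 1) ^ ((g / 2)⁻¹)) ^ (g / 2) := by
          rw [← Real.rpow_mul (by positivity), inv_mul_cancel₀ (by positivity), Real.rpow_one]
      _ ≤ T ^ (g / 2) := Real.rpow_le_rpow (by positivity) h (by positivity)
  by_contra hcon
  rw [not_le] at hcon
  have hT0 : 0 < T := by linarith
  obtain ⟨t, rfl⟩ : ∃ t, Real.exp t = T := ⟨Real.log T, Real.exp_log hT0⟩
  have ht0 : 0 < t := by
    by_contra h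
    have := Real.exp_le_exp.2 (not_lt.1 h)
    rw [Real.exp_zero] at this
    linarith
  have hRpos : (0 : ℝ) < S.card := lt_trans (Real.rpow_pos_of_pos hT0 _) hcon
  have hne : S.Nonempty := by
    rw [← Finset.card_pos]
    exact_mod_cast hRpos
  obtain ⟨R, hR⟩ : ∃ R, Real.exp R = (S.card : ℝ) := ⟨Real.log _, Real.exp_log hRpos⟩
  have hrR : t * r < R := by
    rw [← hR, G2_exp_rpow, Real.exp_lt_exp] at hcon
    exact hcon
  have hR0 : 0 ≤ R := by nlinarith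
  -- everything multiplied by `t`
  obtain ⟨m, hm⟩ : ∃ m, m = t * μ := ⟨_, rfl⟩
  obtain ⟨A, hA⟩ : ∃ A, A = t * α := ⟨_, rfl⟩
  obtain ⟨G, hG⟩ : ∃ G, G = t * g := ⟨_, rfl⟩
  obtain ⟨kR, hkR⟩ : ∃ kR, kR = R / k := ⟨_, rfl⟩
  have hG0 : 0 < G := by rw [hG]; positivity
  have hm0 : 0 ≤ m := by rw [hm]; positivity
  have hkrR : t * r / k ≤ kR := by
    rw [hkR]
    exact div_le_div_of_nonneg_right hrR.le hkpos.le
  have k1 : (1 + 1 / (k : ℝ)) * r * t = t * r + t * r / k := by field_simp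
  have k2 : (3 / 2 + 1 / (2 * (k : ℝ))) * r * t = 3 / 2 * (t * r) + (t * r / k) / 2 := by
    field_simp
  have k3 : (5 / 4 + 1 / (4 * (k : ℝ))) * r * t = 5 / 4 * (t * r) + (t * r / k) / 4 := by
    field_simp
  have k4 : (1 + 1 / (2 * (k : ℝ))) * r * t = t * r + (t * r / k) / 2 := by
    field_simp
  have d1 : G ≤ R - m / 2 - 2 * A := by
    have := mul_le_mul_of_nonneg_left c1 ht0.le
    rw [hG, hm, hA]
    nlinarith
  have d2 : G ≤ 3 / 2 * R + 3 / 2 * m - 2 * t - 6 * A := by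
    have := mul_le_mul_of_nonneg_left c2 ht0.le
    rw [hG, hm, hA]
    nlinarith
  have d3 : G ≤ R + kR + m / 2 - t - 6 * A := by
    have := mul_le_mul_of_nonneg_right c3 ht0.le
    rw [sub_mul, sub_mul, add_mul, k1] at this
    rw [hG, hm, hA]
    linarith
  have d4 : G ≤ 2 * R + m / 2 - 3 / 2 * t - 8 * A := by
    have := mul_le_mul_of_nonneg_left c4 ht0.le
    rw [hG, hm, hA]
    nlinarith
  have d5 : G ≤ 3 / 2 * R + kR / 2 + 3 / 2 * m - 2 * t - 8 * A := by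
    have := mul_le_mul_of_nonneg_right c5 ht0.le
    rw [sub_mul, sub_mul, add_mul, k2] at this
    rw [hG, hm, hA]
    linarith
  have d6 : G ≤ 5 / 4 * R + kR / 4 + 5 / 4 * m - 7 / 4 * t - 7 * A := by
    have := mul_le_mul_of_nonneg_right c6 ht0.le
    rw [sub_mul, sub_mul, add_mul, k3] at this
    rw [hG, hm, hA]
    linarith
  have d7 : G ≤ R + kR / 2 + 7 / 4 * m - 2 * t - 7 * A := by
    have := mul_le_mul_of_nonneg_right c7 ht0.le
    rw [sub_mul, sub_mul, add_mul, k4] at this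
    rw [hG, hm, hA]
    linarith
  -- the energy
  have hρt : t * (R / t) = R := by field_simp
  have hcard : (S.card : ℝ) = Real.exp t ^ (R / t) := by
    rw [G2_exp_rpow, hρt, hR]
  obtain ⟨η, hη⟩ : ∃ η, η = max (max (4 * α + μ + R / t) (4 * α - μ + 1 + (2 - 1 / (k : ℝ)) * (R / t)))
    (max (2 * α - μ / 2 + 1 / 2 + (5 / 2 - 1 / (2 * (k : ℝ))) * (R / t))
      (2 * α - 3 / 2 * μ + 1 + (3 - 1 / (k : ℝ)) * (R / t))) := ⟨_, rfl⟩
  have hE1 := hen (Real.exp t) μ α (R / t) η S b hTT1 hμ hkμ hS hI hcard hb hD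
    (by rw [hη]; exact (le_max_left _ _).trans (le_max_left _ _))
    (by rw [hη]; exact (le_max_right _ _).trans (le_max_left _ _))
    (by rw [hη]; exact (le_max_left _ _).trans (le_max_right _ _))
    (by rw [hη]; exact (le_max_right _ _).trans (le_max_right _ _))
  have hE2 : En S ≤ Real.exp (t * η + G / 4) := by
    refine hE1.trans (le_of_eq ?_)
    rw [G2_exp_rpow, hG]
    congr 1
    ring
  have hηt : t * η ≤ 5 * R + 2 * m - 3 * t - 12 * A - 2 * G := by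
    have e1 : t * (4 * α + μ + R / t) = 4 * A + m + R := by
      rw [mul_add, hρt, hA, hm]; ring
    have e2 : t * (4 * α - μ + 1 + (2 - 1 / (k : ℝ)) * (R / t)) = 4 * A - m + t + 2 * R - kR := by
      rw [hA, hm, hkR]; field_simp; ring
    have e3 : t * (2 * α - μ / 2 + 1 / 2 + (5 / 2 - 1 / (2 * (k : ℝ))) * (R / t)) =
        2 * A - m / 2 + t / 2 + 5 / 2 * R - kR / 2 := by
      rw [hA, hm, hkR]; field_simp; ring
    have e4 : t * (2 * α - 3 / 2 * μ + 1 + (3 - 1 / (k : ℝ)) * (R / t)) =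
        2 * A - 3 / 2 * m + t + 3 * R - kR := by
      rw [hA, hm, hkR]; field_simp; ring
    rw [hη, mul_max_of_nonneg _ _ ht0.le, mul_max_of_nonneg _ _ ht0.le,
      mul_max_of_nonneg _ _ ht0.le, e1, e2, e3, e4]
    refine max_le (max_le ?_ ?_) (max_le ?_ ?_) <;> linarith
  -- `Y`
  have hmt : m ≤ t := by
    have h1 : 0 ≤ 1 - μ := by
      by_contra h
      have : (k : ℝ) * (1 - μ) < 0 := mul_neg_of_pos_of_neg hkpos (not_le.1 h)
      linarith
    rw [hm]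
    nlinarith
  set y : ℝ := Real.exp (t + G / 100 - m) with hy
  have hy1 : 1 ≤ y := Real.one_le_exp (by linarith)
  have hY1 : y ≤ (⌈y⌉₊ : ℝ) := Nat.le_ceil _
  have hY2 : (⌈y⌉₊ : ℝ) ≤ 2 * y := by
    have := Nat.ceil_lt_add_one (a := y) (by linarith)
    linarith
  have hYpos : (0 : ℝ) < (⌈y⌉₊ : ℝ) := by linarith
  have hMe : Real.exp t ^ μ = Real.exp m := by rw [G2_exp_rpow, hm]
  have hBe : Real.exp t ^ (g / 100) = Real.exp (G / 100) := by
    rw [G2_exp_rpow, hG]; congr 1; ring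
  have hVe : Real.exp t ^ (3 / 4 * μ - α) = Real.exp (3 / 4 * m - A) := by
    rw [G2_exp_rpow, hm, hA]; congr 1; ring
  have hprod : Real.exp m * y = Real.exp t ^ (1 + g / 100) := by
    rw [hy, G2_exp_rpow, ← Real.exp_add, hG]
    congr 1
    ring
  rw [hMe, hBe] at hb
  simp only [hMe, hVe] at hD
  have hcore1 := hcore (Real.exp t) (Real.exp m) (Real.exp (G / 100)) (Real.exp (3 / 4 * m - A))
    ⌈y⌉₊ S b (by linarith) (Real.one_le_exp hm0) (by
      have : 0 < ⌈y⌉₊ := by exact_mod_cast hYpos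
      omega)
    (by
      rw [← hprod]
      exact mul_le_mul_of_nonneg_left hY1 (Real.exp_pos _).le)
    (by
      calc Real.exp m * (⌈y⌉₊ : ℝ) ≤ Real.exp m * (2 * y) :=
            mul_le_mul_of_nonneg_left hY2 (Real.exp_pos _).le
        _ = 2 * (Real.exp m * y) := by ring
        _ ≤ Real.exp t * Real.exp (t * (1 + g / 100)) := by
            rw [hprod, G2_exp_rpow]
            exact mul_le_mul_of_nonneg_right hT2 (Real.exp_pos _).le
        _ ≤ Real.exp t ^ 3 := by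
            rw [← Real.exp_add, ← Real.exp_nat_mul, Real.exp_le_exp]
            push_cast
            nlinarith)
    (by
      have h2 : Real.exp (t - m) ≤ (⌈y⌉₊ : ℝ) := by
        refine le_trans ?_ hY1
        rw [hy, Real.exp_le_exp]
        linarith
      refine le_trans ?_ (pow_le_pow_left₀ (Real.exp_pos _).le h2 k)
      rw [← Real.exp_nat_mul, Real.exp_le_exp, hm]
      nlinarith)
    hS hI hne (Real.exp_pos _) (Real.exp_pos _).le hb hD
  have hTC' : 12 * C + 1 ≤ Real.exp (G / 2) := by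
    rw [G2_exp_rpow] at hTC
    rw [hG]
    rw [show t * g / 2 = t * (g / 2) by ring]
    exact hTC
  rcases hcore1 with hA1 | hA1
  · rw [← hR] at hA1
    have e1 : Real.exp R * Real.exp (3 / 4 * m - A) ^ 2 = Real.exp (R + 3 / 2 * m - 2 * A) := by
      rw [← Real.exp_nat_mul, ← Real.exp_add]
      congr 1
      push_cast
      ring
    have e2 : C * Real.exp (G / 100) ^ 2 * Real.exp m ^ 2 = C * Real.exp (G / 50 + 2 * m) := by
      rw [← Real.exp_nat_mul, ← Real.exp_nat_mul, mul_assoc, ← Real.exp_add]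
      congr 2
      push_cast
      ring
    rw [e1, e2] at hA1
    have hexp : Real.exp (G / 2) * Real.exp (G / 50 + 2 * m) ≤ Real.exp (R + 3 / 2 * m - 2 * A) := by
      rw [← Real.exp_add, Real.exp_le_exp]
      linarith
    have := le_of_mul_le_mul_right (hexp.trans hA1) (Real.exp_pos _)
    linarith
  · have hA2 := G2_alt2 (t := t) (m := m) (R := R) (G := G) (kR := kR) (C := C)
      (E := En S) (y := (⌈y⌉₊ : ℝ)) (e := g / 100) (q := 2 - 1 / (k : ℝ)) (h := t * η)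
      (L := 3 * R + 3 / 2 * m - 6 * A - 6 / 100 * G) hC (G2_En_nonneg S)
      (by rw [hG]; ring) (by rw [hkR]; field_simp) hYpos (by rw [← hy]; exact hY2) hE2
      (by linarith) (by linarith) (by linarith)
    rw [← hR] at hA1
    have hL : (Real.exp R * Real.exp (3 / 4 * m - A) ^ 2 /
        (Real.exp (G / 100) ^ 2 * Real.exp m)) ^ 3 =
        Real.exp (G / 2) * Real.exp (3 * R + 3 / 2 * m - 6 * A - 6 / 100 * G - G / 2) := by
      simp only [← Real.exp_add, ← Real.exp_nat_mul, ← Real.exp_sub]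
      congr 1
      push_cast
      ring
    rw [hL] at hA1
    have := le_of_mul_le_mul_right (hA1.trans hA2) (Real.exp_pos _)
    linarith

end OL
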