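import Mathlib

/-! Exponents for the level sets of `ζ(3/4 - a - c + it)`, `a = 1/A`, all real orders `4 < A ≤ 8` and
slightly beyond. The level is `V = T^(a u)`, the target `T^(1 - u)`; `d` is the saving in the twelfth moment. -/

set_option autoImplicit false

namespace OL.H25

/-- the exponent `w` of the size of a block -/
noncomputable def wexp (a c e u y ν : ℝ) : ℝ := a * u + (3 / 4 - a - c) * ν - e * y

/-- the cube -/
def CCube (a c u ν : ℝ) : Prop :=
  (ν ≤ 1 / 3 ∧ (1 - 6 * a) * u ≤ (3 / 2 - 6 * a - 6 * c) * ν) ∨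
  (1 / 3 ≤ ν ∧ (3 / 2 + 6 * a + 6 * c) * ν + (1 - 6 * a) * u ≤ 1)

/-- the square -/
def CGam (a c u ν : ℝ) : Prop :=
  (1 + 4 * a + 4 * c) * ν + (1 - 4 * a) * u ≤ 1 ∧ (12 * a - 1 + 12 * c) * ν ≤ (12 * a - 1) * u

/-- Theorem G -/
def CG (a b c e u y ν : ℝ) : Prop :=
  2 / 5 - b ≤ ν ∧ ν ≤ 1 / 2 - 1 / 340 ∧ 3 / 4 * ν - b / 2 ≤ wexp a c e u y ν ∧ 1 - b - ν ≤ 1 - u

/-- the four ways to bound a block -/
def Cond (a b c e u y ν : ℝ) : Prop :=
  CCube a c u ν ∨ CGam a c u ν ∨ CG a b c e u y ν ∨ ν + 1 / 20 ≤ wexp a c e u y ν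

lemma expo_cube {a c e u y ν : ℝ} (h : CCube a c u ν) :
    max 1 (3 * ν) + 3 * ν - 6 * wexp a c e u y ν ≤ 1 - u + 6 * (e * y) := by
  unfold wexp
  rcases h with ⟨h1, h2⟩ | ⟨h1, h2⟩
  · rw [max_eq_left (by linarith)]
    linarith
  · rw [max_eq_right (by linarith)]
    linarith

lemma expo_gamma {a c e u y ν : ℝ} (h : CGam a c u ν) :
    4 * ν - 4 * wexp a c e u y ν ≤ 1 - u + 4 * (e * y) ∧
    1 + 8 * ν - 12 * wexp a c e u y ν ≤ 1 - u + 12 * (e * y) := by
  obtain ⟨h1, h2⟩ := h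
  unfold wexp
  constructor
  · linarith
  · linarith

/-- the hypotheses on the parameters -/
structure Par (a b c d e : ℝ) : Prop where
  a1 : 1 / 8 - d / 1000 ≤ a
  a2 : a < 1 / 4
  b0 : 0 < b
  b1 : b ≤ 1 / 1700
  d0 : 0 < d
  d1 : d ≤ 1 / 1000
  c0 : 0 < c
  c1 : c ≤ (1 - 4 * a) * (b / 4000)
  c2 : c ≤ (1 - 4 * a) * (d / 1000)
  e0 : 0 < e
  e1 : e ≤ c / 100

/-- small consequences of `Par` -/
lemma par_small {a b c d e : ℝ} (h : Par a b c d e) :
    c ≤ b / 7000 ∧ e ≤ b / 700000 ∧ c ≤ (1 - 4 * a) / 6800000 ∧ c ≤ d / 1900 ∧ 31 / 250 ≤ a := by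
  obtain ⟨a1, a2, b0, b1, d0, d1, c0, c1, c2, e0, e1⟩ := h
  have h0 : 31 / 250 ≤ a := by linarith
  have h1 : (1 - 4 * a) * (b / 4000) ≤ (1 - 4 * (31 / 250)) * (b / 4000) :=
    mul_le_mul_of_nonneg_right (by linarith) (by linarith)
  have h2 : (1 - 4 * a) * (b / 4000) ≤ (1 - 4 * a) * (1 / 6800000) :=
    mul_le_mul_of_nonneg_left (by linarith) (by linarith)
  have h3 : (1 - 4 * a) * (d / 1000) ≤ (1 - 4 * (31 / 250)) * (d / 1000) :=
    mul_le_mul_of_nonneg_right (by linarith) (by linarith)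
  refine ⟨by linarith, by linarith, by linarith, by linarith, h0⟩

/-- Region I -/
lemma regI {a b c d e u y ν : ℝ} (h : Par a b c d e) (hu : 0 < u) (hu2 : u ≤ 1 / 2 - 1 / 200)
    (hy : y = (1 + b / 10) * u) (hν0 : 0 ≤ ν) (hν : ν ≤ (1 + e) * y) : Cond a b c e u y ν := by
  obtain ⟨hcb, heb, hca, hcd, a0⟩ := par_small h
  obtain ⟨a1, a2, b0, b1, d0, d1, c0, c1, c2, e0, e1⟩ := h
  have hbu : b * u ≤ b * (1 / 2) := mul_le_mul_of_nonneg_left (by linarith) b0.le
  have hbu0 : 0 ≤ b * u := by positivity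
  have hyb : y ≤ u + b / 20 := by rw [hy]; linarith
  have hy0 : 0 < y := by rw [hy]; positivity
  have hy1 : y ≤ 1 := by linarith
  have hey : e * y ≤ e * 1 := mul_le_mul_of_nonneg_left hy1 e0.le
  have hey0 : 0 ≤ e * y := by positivity
  have hν1 : ν ≤ 1 := by linarith
  have he9 : e * b ≤ e * 1 := mul_le_mul_of_nonneg_left (by linarith) e0.le
  have hνu : ν * (1 - b / 8) ≤ u := by
    have h1 : ν ≤ (1 + b / 9) * u := by
      have : (1 + e) * (1 + b / 10) ≤ 1 + b / 9 := by linarith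
      calc ν ≤ (1 + e) * y := hν
        _ = ((1 + e) * (1 + b / 10)) * u := by rw [hy]; ring
        _ ≤ (1 + b / 9) * u := mul_le_mul_of_nonneg_right this hu.le
    have h2 : (1 - b / 8) * (1 + b / 9) ≤ 1 := by
      have : 0 ≤ b * b := by positivity
      linarith
    calc ν * (1 - b / 8) ≤ ((1 + b / 9) * u) * (1 - b / 8) :=
          mul_le_mul_of_nonneg_right h1 (by linarith)
      _ = ((1 - b / 8) * (1 + b / 9)) * u := by ring
      _ ≤ 1 * u := mul_le_mul_of_nonneg_right h2 hu.le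
      _ = u := one_mul u
  have hbν : b * ν ≤ b * 1 := mul_le_mul_of_nonneg_left hν1 b0.le
  have hbν0 : 0 ≤ b * ν := by positivity
  have hcν : c * ν ≤ c * 1 := mul_le_mul_of_nonneg_left hν1 c0.le
  have hcν0 : 0 ≤ c * ν := by positivity
  have hcbν : c * ν ≤ b / 7000 * ν := mul_le_mul_of_nonneg_right hcb hν0
  unfold Cond
  by_cases hq : ν ≤ (1 - b / 10) * u
  · have hνu' : ν ≤ u := by linarith
    right; left
    constructor
    · have h1 : (1 + 4 * a) * ν ≤ (1 + 4 * a) * u := mul_le_mul_of_nonneg_left hνu' (by linarith)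
      linarith
    · have h1 : (12 * a - 1) * ν ≤ (12 * a - 1) * ((1 - b / 10) * u) :=
        mul_le_mul_of_nonneg_left hq (by linarith)
      have h3 : b * ν ≤ b * u := mul_le_mul_of_nonneg_left hνu' b0.le
      have h4 : 2 / 5 * (b * u) ≤ (12 * a - 1) * (b * u) :=
        mul_le_mul_of_nonneg_right (by linarith) hbu0
      linarith
  push Not at hq
  have hqu : u * (1 - b / 10) < ν := by linarith
  have hνpos : 0 < ν := by
    refine lt_of_le_of_lt ?_ hqu
    have : 0 ≤ 1 - b / 10 := by linarith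
    positivity
  -- u ≤ (1 + b/9) ν
  have huν : u ≤ (1 + b / 9) * ν := by
    have h2 : 1 ≤ (1 + b / 9) * (1 - b / 10) := by
      have : b * b ≤ b * (1 / 1700) := mul_le_mul_of_nonneg_left b1 b0.le
      linarith
    calc u = 1 * u := (one_mul u).symm
      _ ≤ ((1 + b / 9) * (1 - b / 10)) * u := mul_le_mul_of_nonneg_right h2 hu.le
      _ = (1 + b / 9) * (u * (1 - b / 10)) := by ring
      _ ≤ (1 + b / 9) * ν := mul_le_mul_of_nonneg_left hqu.le (by linarith)
  by_cases hb5 : ν ≤ 2 / 5 - b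
  · left
    rcases le_total ν (1 / 3) with h3 | h3
    · left
      refine ⟨h3, ?_⟩
      rcases le_total (1 - 6 * a) 0 with h6 | h6
      · have h7 : (1 - 6 * a) * u ≤ 0 := mul_nonpos_of_nonpos_of_nonneg h6 hu.le
        have h8 : 0 ≤ (3 / 2 - 6 * a - 6 * c) := by linarith
        have h9 : 0 ≤ (3 / 2 - 6 * a - 6 * c) * ν := by positivity
        linarith
      · calc (1 - 6 * a) * u ≤ (1 - 6 * a) * ((1 + b / 9) * ν) := mul_le_mul_of_nonneg_left huν h6
          _ = ((1 - 6 * a) * (1 + b / 9)) * ν := by ring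
          _ ≤ (3 / 2 - 6 * a - 6 * c) * ν := by
              apply mul_le_mul_of_nonneg_right _ hν0
              have : (1 - 6 * a) * b ≤ 1 * b := mul_le_mul_of_nonneg_right (by linarith) b0.le
              linarith
    · right
      refine ⟨h3, ?_⟩
      have hνb : b * ν ≤ b * (2 / 5) := mul_le_mul_of_nonneg_left (by linarith) b0.le
      rcases le_total (1 - 6 * a) 0 with h6 | h6
      · have h7 : (1 - 6 * a) * u ≤ (1 - 6 * a) * (ν * (1 - b / 8)) :=
          mul_le_mul_of_nonpos_left hνu h6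
        have h8 : (6 * a - 1) * (b * ν) ≤ 1 / 2 * (b * ν) :=
          mul_le_mul_of_nonneg_right (by linarith) hbν0
        linarith
      · have h7 : (1 - 6 * a) * u ≤ (1 - 6 * a) * ((1 + b / 9) * ν) := mul_le_mul_of_nonneg_left huν h6
        have h8 : (1 - 6 * a) * (b * ν) ≤ 3 / 10 * (b * ν) :=
          mul_le_mul_of_nonneg_right (by linarith) hbν0
        linarith
  · push Not at hb5
    right; right; left
    refine ⟨hb5.le, by linarith, ?_, by linarith⟩
    unfold wexp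
    have h7 : a * (ν * (1 - b / 8)) ≤ a * u := mul_le_mul_of_nonneg_left hνu (by linarith)
    have h8 : a * (b * ν) ≤ 1 / 4 * (b * ν) := mul_le_mul_of_nonneg_right a2.le hbν0
    linarith

/-- Region II -/
lemma regII {a b c d e u y ν : ℝ} (h : Par a b c d e) (hu : 1 / 2 - 1 / 200 ≤ u) (hu2 : u ≤ 1 / 2 + 1 / 200)
    (hy : y = 1 / 2 - 1 / 85) (hν0 : 0 ≤ ν) (hν : ν ≤ (1 + e) * y) : Cond a b c e u y ν := by
  obtain ⟨hcb, heb, hca, hcd, a0⟩ := par_small h
  obtain ⟨a1, a2, b0, b1, d0, d1, c0, c1, c2, e0, e1⟩ := h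
  have hν1 : ν ≤ 1 / 2 - 1 / 85 + e := by rw [hy] at hν; linarith
  have hcν0 : 0 ≤ c * ν := mul_nonneg c0.le hν0
  have hcν : c * ν ≤ c * 1 := mul_le_mul_of_nonneg_left (by linarith) c0.le
  have hae : a * e ≤ 1 * e := mul_le_mul_of_nonneg_right (by linarith) e0.le
  right; left
  constructor
  · have h1 : (1 + 4 * a) * ν ≤ (1 + 4 * a) * (1 / 2 - 1 / 85 + e) :=
      mul_le_mul_of_nonneg_left hν1 (by linarith)
    have h2 : (1 - 4 * a) * u ≤ (1 - 4 * a) * (1 / 2 + 1 / 200) :=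
      mul_le_mul_of_nonneg_left hu2 (by linarith)
    linarith
  · have h1 : (12 * a - 1) * ν ≤ (12 * a - 1) * (1 / 2 - 1 / 85 + e) :=
      mul_le_mul_of_nonneg_left hν1 (by linarith)
    have h2 : (12 * a - 1) * (1 / 2 - 1 / 200) ≤ (12 * a - 1) * u :=
      mul_le_mul_of_nonneg_left hu (by linarith)
    linarith

/-- the length in Region III -/
noncomputable def y3 (a d u : ℝ) : ℝ := max (1 - d - (12 * a - 1) * u) 0 / (3 * (1 - 4 * a)) + d / 3

lemma y3_le {a d u : ℝ} (a1 : 31 / 250 ≤ a) (a2 : a < 1 / 4) (d0 : 0 < d) (hu : 1 / 2 ≤ u) :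
    y3 a d u ≤ 1 / 2 + d / 3 := by
  unfold y3
  have h1 : max (1 - d - (12 * a - 1) * u) 0 / (3 * (1 - 4 * a)) ≤ 1 / 2 := by
    rw [div_le_iff₀ (by linarith)]
    apply max_le
    · have : (12 * a - 1) * (1 / 2) ≤ (12 * a - 1) * u := mul_le_mul_of_nonneg_left hu (by linarith)
      linarith
    · linarith
  linarith

/-- Region III -/
lemma regIII {a b c d e u y ν : ℝ} (h : Par a b c d e) (hu : 1 / 2 + 1 / 200 ≤ u) (hy : y = y3 a d u)
    (hν0 : 0 ≤ ν) (hν : ν ≤ (1 + e) * y) : Cond a b c e u y ν := by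
  obtain ⟨hcb, heb, hca, hcd, a0⟩ := par_small h
  obtain ⟨a1, a2, b0, b1, d0, d1, c0, c1, c2, e0, e1⟩ := h
  have hyl : y ≤ 1 / 2 + d / 3 := by rw [hy]; exact y3_le a0 a2 d0 (by linarith)
  have hy0 : 0 ≤ y := by
    rw [hy]
    unfold y3
    have h1 : 0 ≤ max (1 - d - (12 * a - 1) * u) 0 / (3 * (1 - 4 * a)) :=
      div_nonneg (le_max_right _ _) (by linarith)
    linarith
  have hey : e * y ≤ e * 1 := mul_le_mul_of_nonneg_left (by linarith) e0.le
  have hν1 : ν ≤ y + e := by linarith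
  have hν2 : ν ≤ 1 := by linarith
  have hcν0 : 0 ≤ c * ν := mul_nonneg c0.le hν0
  have hcν : c * ν ≤ c * 1 := mul_le_mul_of_nonneg_left hν2 c0.le
  have hD : 0 < 3 * (1 - 4 * a) := by linarith
  have hD2 : 3 * (1 - 4 * a) ≤ 19 / 12 := by linarith
  rcases le_total (1 - d - (12 * a - 1) * u) 0 with h0 | h0
  · -- no large values
    right; right; right
    have hye : y = d / 3 := by
      rw [hy]; unfold y3; rw [max_eq_right h0]; simp
    have hν3 : ν ≤ 1 / 3000 + e := by linarith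
    unfold wexp
    have h1 : 31 / 250 * u ≤ a * u := mul_le_mul_of_nonneg_right a0 (by linarith)
    have h2 : 0 ≤ (3 / 4 - a - c) * ν := mul_nonneg (by linarith) hν0
    linarith
  · right; left
    have hyD : y * (3 * (1 - 4 * a)) = 1 - d - (12 * a - 1) * u + d / 3 * (3 * (1 - 4 * a)) := by
      rw [hy]; unfold y3; rw [max_eq_left h0, add_mul, div_mul_cancel₀ _ hD.ne']
    have hνD : ν * (3 * (1 - 4 * a)) ≤ 1 - d - (12 * a - 1) * u + d / 3 * (3 * (1 - 4 * a)) +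
        e * (3 * (1 - 4 * a)) := by
      have := mul_le_mul_of_nonneg_right hν1 hD.le
      rw [add_mul, hyD] at this
      exact this
    have hpr : (1 + 4 * a) * (3 * (1 - 4 * a)) ≤ 23 / 10 := by
      have : 31 / 250 * (31 / 250) ≤ a * a := mul_le_mul a0 a0 (by norm_num) (by linarith)
      linarith
    have hu2 : u ≤ 5 / 2 := by
      have h3 : 2 / 5 * u ≤ (12 * a - 1) * u := mul_le_mul_of_nonneg_right (by linarith) (by linarith)
      linarith
    constructor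
    · -- multiply by 3 (1 - 4a)
      have key : ((1 + 4 * a + 4 * c) * ν + (1 - 4 * a) * u) * (3 * (1 - 4 * a)) ≤
          1 * (3 * (1 - 4 * a)) := by
        have h1 : (1 + 4 * a) * (ν * (3 * (1 - 4 * a))) ≤ (1 + 4 * a) *
          (1 - d - (12 * a - 1) * u + d / 3 * (3 * (1 - 4 * a)) + e * (3 * (1 - 4 * a))) :=
          mul_le_mul_of_nonneg_left hνD (by linarith)
        have h2 : (4 * c) * (ν * (3 * (1 - 4 * a))) ≤ (4 * c) * (1 * (19 / 12)) := by
          apply mul_le_mul_of_nonneg_left _ (by linarith)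
          exact mul_le_mul hν2 (by linarith) hD.le zero_le_one
        have h3 : (1 + 4 * a) * (1 - (12 * a - 1) * u) + (1 - 4 * a) * u * (3 * (1 - 4 * a)) -
            3 * (1 - 4 * a) = (1 - 8 * a) * (2 * (2 * u - 1)) := by ring
        have h4 : (1 - 8 * a) * (2 * (2 * u - 1)) ≤ (8 * d / 1000) * (2 * (2 * u - 1)) :=
          mul_le_mul_of_nonneg_right (by linarith) (by linarith)
        have h4b : (8 * d / 1000) * (2 * (2 * u - 1)) ≤ (8 * d / 1000) * 8 :=
          mul_le_mul_of_nonneg_left (by linarith) (by linarith)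
        have h5 : (1 + 4 * a) * (d / 3 * (3 * (1 - 4 * a))) ≤ d / 3 * (23 / 10) := by
          calc (1 + 4 * a) * (d / 3 * (3 * (1 - 4 * a))) =
              d / 3 * ((1 + 4 * a) * (3 * (1 - 4 * a))) := by ring
            _ ≤ _ := mul_le_mul_of_nonneg_left hpr (by linarith)
        have h6 : (1 + 4 * a) * (e * (3 * (1 - 4 * a))) ≤ e * (23 / 10) := by
          calc (1 + 4 * a) * (e * (3 * (1 - 4 * a))) = e * ((1 + 4 * a) * (3 * (1 - 4 * a))) := by ring
            _ ≤ _ := mul_le_mul_of_nonneg_left hpr e0.le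
        have h7 : (1 + 4 * (31 / 250)) * d ≤ (1 + 4 * a) * d :=
          mul_le_mul_of_nonneg_right (by linarith) d0.le
        have h8 : ((1 + 4 * a + 4 * c) * ν + (1 - 4 * a) * u) * (3 * (1 - 4 * a)) =
            (1 + 4 * a) * (ν * (3 * (1 - 4 * a))) + (4 * c) * (ν * (3 * (1 - 4 * a))) +
            (1 - 4 * a) * u * (3 * (1 - 4 * a)) := by ring
        have h9 : (1 + 4 * a) *
          (1 - d - (12 * a - 1) * u + d / 3 * (3 * (1 - 4 * a)) + e * (3 * (1 - 4 * a))) =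
          (1 + 4 * a) * (1 - (12 * a - 1) * u) - (1 + 4 * a) * d +
          (1 + 4 * a) * (d / 3 * (3 * (1 - 4 * a))) +
          (1 + 4 * a) * (e * (3 * (1 - 4 * a))) := by ring
        rw [h8]
        rw [h9] at h1
        linarith
      exact le_of_mul_le_mul_right key hD
    · have h1 : (12 * a - 1) * ν ≤ (12 * a - 1) * (1 / 2 + d / 3 + e) :=
        mul_le_mul_of_nonneg_left (by linarith) (by linarith)
      have h2 : (12 * a - 1) * (1 / 2 + 1 / 200) ≤ (12 * a - 1) * u :=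
        mul_le_mul_of_nonneg_left hu (by linarith)
      have hae : a * e ≤ 1 * e := mul_le_mul_of_nonneg_right (by linarith) e0.le
      have had : a * d ≤ 1 * d := mul_le_mul_of_nonneg_right (by linarith) d0.le
      linarith

lemma secI {a b c d e u y : ℝ} (h : Par a b c d e) (hu : 0 < u) (hy : y = (1 + b / 10) * u) :
    (1 + e) - 4 * (a * u + (1 / 4 - a - c) * y) ≤ 1 - u + e := by
  obtain ⟨a1, a2, b0, b1, d0, d1, c0, c1, c2, e0, e1⟩ := h
  rw [hy]
  have h1 : 0 ≤ (1 - 4 * a) * (b / 10) - 4 * c * (1 + b / 10) := by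
    have h2 : c * (1 + b / 10) ≤ c * 2 := mul_le_mul_of_nonneg_left (by linarith) c0.le
    have h3 : 0 ≤ (1 - 4 * a) * b := mul_nonneg (by linarith) b0.le
    linarith
  have h4 := mul_nonneg h1 hu.le
  linarith

lemma secII {a b c d e u y : ℝ} (h : Par a b c d e) (hu : 1 / 2 - 1 / 200 ≤ u) (hu2 : u ≤ 1 / 2 + 1 / 200)
    (hy : y = 1 / 2 - 1 / 85) :
    (5 / 4 - 1 / 85) - 6 * (a * u + (1 / 4 - a - c) * y) ≤ 1 - u := by
  obtain ⟨hcb, heb, hca, hcd, a0⟩ := par_small h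
  obtain ⟨a1, a2, b0, b1, d0, d1, c0, c1, c2, e0, e1⟩ := h
  rw [hy]
  have h1 : (6 * a - 1) * (1 / 2 - u) ≤ 1 / 2 * (1 / 200) := by
    rcases le_total 0 (6 * a - 1) with h6 | h6
    · calc (6 * a - 1) * (1 / 2 - u) ≤ (6 * a - 1) * (1 / 200) :=
          mul_le_mul_of_nonneg_left (by linarith) h6
        _ ≤ 1 / 2 * (1 / 200) := by linarith
    · calc (6 * a - 1) * (1 / 2 - u) = (1 - 6 * a) * (u - 1 / 2) := by ring
        _ ≤ (1 - 6 * a) * (1 / 200) := mul_le_mul_of_nonneg_left (by linarith) (by linarith)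
        _ ≤ 1 / 2 * (1 / 200) := by linarith
  linarith

lemma secIII {a b c d e u y : ℝ} (h : Par a b c d e) (hu : 1 / 2 + 1 / 200 ≤ u) (hy : y = y3 a d u) :
    2 - d - 12 * (a * u + (1 / 4 - a - c) * y) ≤ 1 - u := by
  obtain ⟨hcb, heb, hca, hcd, a0⟩ := par_small h
  obtain ⟨a1, a2, b0, b1, d0, d1, c0, c1, c2, e0, e1⟩ := h
  have hyl : y ≤ 1 / 2 + d / 3 := by rw [hy]; exact y3_le a0 a2 d0 (by linarith)
  have hD : 0 < 3 * (1 - 4 * a) := by linarith
  have hyD : y * (3 * (1 - 4 * a)) = max (1 - d - (12 * a - 1) * u) 0 +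
      d / 3 * (3 * (1 - 4 * a)) := by
    rw [hy]; unfold y3; rw [add_mul, div_mul_cancel₀ _ hD.ne']
  have hm : 1 - d - (12 * a - 1) * u ≤ max (1 - d - (12 * a - 1) * u) 0 := le_max_left _ _
  have hcy : c * y ≤ c * 1 := mul_le_mul_of_nonneg_left (by linarith) c0.le
  linarith

/-- the choice of the length `X = T^y` -/
lemma choose_y {a b c d e u : ℝ} (h : Par a b c d e) (hu : 0 < u) :
    ∃ y : ℝ, min u (d / 3) ≤ y ∧ y ≤ 51 / 100 ∧
    (∀ ν : ℝ, 0 ≤ ν → ν ≤ (1 + e) * y → Cond a b c e u y ν) ∧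
    ((1 + e) - 4 * (a * u + (1 / 4 - a - c) * y) ≤ 1 - u + e ∨
     (5 / 4 - 1 / 85) - 6 * (a * u + (1 / 4 - a - c) * y) ≤ 1 - u + e ∨
     2 - d - 12 * (a * u + (1 / 4 - a - c) * y) ≤ 1 - u + e) := by
  obtain ⟨hcb, heb, hca, hcd, a0⟩ := par_small h
  have ha2 := h.a2
  have hb0 := h.b0
  have hb1 := h.b1
  have he0 := h.e0
  have hd0 := h.d0
  have hd1 := h.d1
  by_cases h1 : u ≤ 1 / 2 - 1 / 200
  · refine ⟨(1 + b / 10) * u, ?_, ?_, fun ν h0 hν => regI h hu h1 rfl h0 hν, Or.inl (secI h hu rfl)⟩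
    · refine le_trans (min_le_left _ _) ?_
      have : 0 ≤ b * u := by positivity
      linarith
    · have : b * u ≤ b * (1 / 2) := mul_le_mul_of_nonneg_left (by linarith) hb0.le
      linarith
  push Not at h1
  by_cases h2 : u ≤ 1 / 2 + 1 / 200
  · refine ⟨1 / 2 - 1 / 85, ?_, by norm_num, fun ν h0 hν => regII h h1.le h2 rfl h0 hν,
      Or.inr (Or.inl ?_)⟩
    · refine le_trans (min_le_right _ _) ?_
      linarith
    · have := secII h h1.le h2 (rfl : (1 / 2 - 1 / 85 : ℝ) = 1 / 2 - 1 / 85)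
      linarith
  push Not at h2
  refine ⟨y3 a d u, ?_, ?_, fun ν h0 hν => regIII h h2.le rfl h0 hν, Or.inr (Or.inr ?_)⟩
  · refine le_trans (min_le_right _ _) ?_
    unfold y3
    have : 0 ≤ max (1 - d - (12 * a - 1) * u) 0 / (3 * (1 - 4 * a)) :=
      div_nonneg (le_max_right _ _) (by linarith)
    linarith
  · exact (y3_le a0 ha2 hd0 (by linarith)).trans (by linarith)
  · have := secIII h h2.le rfl
    linarith

end OL.H25
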