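import Pool.Agent.Lib.MP_39df77_nt.OL.D26
import Pool.Agent.Lib.MP_39df77_nt.OL.H24

/-! Level sets of `ζ(3/4 - a - c + it)`, `a = 1/A`, all real orders `4 < A ≤ 8` and slightly beyond. -/

set_option autoImplicit false

open Complex MeasureTheory Set

namespace OL

open OL.R25

namespace H25

lemma Dn_le {a : ℕ → ℂ} (ha : ∀ n, ‖a n‖ ≤ 1) (N : ℕ) (t : ℝ) : ‖Dn a N t‖ ≤ N := by
  unfold Dn
  refine (norm_sum_le _ _).trans ?_
  calc ∑ n ∈ Finset.Ioc N (2 * N), ‖a n * ei (-(t * Real.log n))‖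
      ≤ ∑ n ∈ Finset.Ioc N (2 * N), (1:ℝ) := by
        refine Finset.sum_le_sum fun n _ => ?_
        rw [norm_mul]
        have : ‖ei (-(t * Real.log n))‖ = 1 := by
          unfold ei
          exact Complex.norm_exp_ofReal_mul_I _
        rw [this, mul_one]
        exact ha n
    _ = N := by
        rw [Finset.sum_const, Nat.card_Ioc, nsmul_eq_mul, mul_one]
        congr 1
        omega

theorem block_bound (h1 : HA1) (h2 : HA2) {al b c T3 : ℝ} (hb : 0 < b) (hT3 : 1 ≤ T3)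
    (h3 : ∀ (T : ℝ) (N : ℕ) (a : ℕ → ℂ) (S : Finset ℝ), T3 ≤ T → T ^ (2 / 5 - b) ≤ N →
      (N : ℝ) ≤ T ^ (1 / 2 - 1 / 340 : ℝ) → (∀ n, ‖a n‖ ≤ 1) → Sep S → InI S T →
      (∀ t ∈ S, (N : ℝ) ^ (3 / 4 : ℝ) * T ^ (-b) ≤ ‖Dn a N t‖) → (S.card : ℝ) ≤ T ^ (1 - b) / N)
    {e : ℝ} (he : 0 < e) :
    ∃ C T0 : ℝ, 0 < C ∧ 1 < T0 ∧ ∀ (T u y ν : ℝ) (N : ℕ) (a : ℕ → ℂ) (S : Finset ℝ),
      T0 ≤ T → 0 ≤ ν → ν ≤ 1 → 0 ≤ y → y ≤ 1 → Cond al b c e u y ν → (N : ℝ) = T ^ ν → 1 ≤ N →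
      (∀ n, ‖a n‖ ≤ 1) → Sep S → InI S T → (∀ t ∈ S, T ^ (wexp al c e u y ν) / 2 ≤ ‖Dn a N t‖) →
      (S.card : ℝ) ≤ C * T ^ (1 - u + 14 * e) := by
  obtain ⟨C1, hC1, H1⟩ := h1 e he
  obtain ⟨C2, hC2, H2⟩ := h2 e he
  refine ⟨128 * C1 + 4112 * C2 + 1, max (max T3 (2 ^ 21)) (2 ^ (2 / b)), by positivity,
    lt_of_lt_of_le (by norm_num) (le_trans (le_max_right T3 (2 ^ 21)) (le_max_left _ _)), ?_⟩
  intro T u y ν N a S hT hν0 hν1 hy0 hy1 hcond hNT hN ha hS hI hD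
  have hT3' : T3 ≤ T := le_trans (le_trans (le_max_left _ _) (le_max_left _ _)) hT
  have hT21 : (2:ℝ) ^ 21 ≤ T := le_trans (le_trans (le_max_right T3 (2 ^ 21)) (le_max_left _ _)) hT
  have hT2 : 2 ≤ T := le_trans (by norm_num) hT21
  have hTc : 2 ≤ T ^ (b / 2) := by
    have h : (2 : ℝ) ^ (2 / b) ≤ T := le_trans (le_max_right _ _) hT
    have := Real.rpow_le_rpow (by positivity) h (show 0 ≤ b / 2 by positivity)
    rwa [← Real.rpow_mul (by norm_num), show 2 / b * (b / 2) = 1 by field_simp, Real.rpow_one] at this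
  have hT0 : 0 < T := by linarith
  have hT1 : 1 ≤ T := by linarith
  have hey : e * y ≤ e := by nlinarith
  have hey0 : 0 ≤ e * y := by positivity
  set w := wexp al c e u y ν with hw
  have hW : 0 < T ^ w / 2 := by positivity
  have hP : ∀ x : ℝ, 0 < T ^ x := fun x => Real.rpow_pos_of_pos hT0 x
  have hmono : ∀ x z : ℝ, x ≤ z → T ^ x ≤ T ^ z := fun x z h => Real.rpow_le_rpow_of_exponent_le hT1 h
  have hTN : (T * (N : ℝ)) ^ e ≤ T ^ (2 * e) := by
    rw [hNT, show T * T ^ ν = T ^ (1 + ν) by rw [Real.rpow_add hT0, Real.rpow_one], ← Real.rpow_mul hT0.le]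
    exact hmono _ _ (by nlinarith)
  rcases hcond with h | h | ⟨g1, g2, g3, g4⟩ | g0
  · have key := H1 T N a S (T ^ w / 2) hT1 hN ha hS hI hW hD
    have hex := expo_cube (e := e) (y := y) h
    rw [← hw] at hex
    have e1 : (N : ℝ) ^ 3 = T ^ (3 * ν) := by rw [hNT, rpow_nat hT0.le]; norm_num
    have e2 : (T ^ w / 2) ^ (-6 : ℝ) = 64 * T ^ (-6 * w) := by
      have := half_rpow (T := T) (w := w) hT0 6
      norm_num at this ⊢
      exact this
    have e3 : T + (N : ℝ) ^ 3 ≤ 2 * T ^ (max 1 (3 * ν)) := by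
      rw [e1]
      have a1 := hmono _ _ (le_max_left 1 (3 * ν))
      have a2 := hmono _ _ (le_max_right 1 (3 * ν))
      rw [Real.rpow_one] at a1
      linarith
    calc (S.card : ℝ) ≤ C1 * (T * N) ^ e * ((T + (N : ℝ) ^ 3) * (N : ℝ) ^ 3) * (T ^ w / 2) ^ (-6 : ℝ) := key
      _ ≤ C1 * T ^ (2 * e) * ((2 * T ^ (max 1 (3 * ν))) * T ^ (3 * ν)) * (64 * T ^ (-6 * w)) := by
          rw [e2]
          apply mul_le_mul_of_nonneg_right _ (by positivity)
          apply mul_le_mul (mul_le_mul_of_nonneg_left hTN hC1.le) _ (by positivity) (by positivity)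
          rw [e1] at e3 ⊢
          exact mul_le_mul_of_nonneg_right e3 (hP _).le
      _ = 128 * C1 * T ^ (2 * e + max 1 (3 * ν) + 3 * ν + (-6 * w)) := by
          rw [Real.rpow_add hT0, Real.rpow_add hT0, Real.rpow_add hT0]; ring
      _ ≤ 128 * C1 * T ^ (1 - u + 14 * e) := by
          apply mul_le_mul_of_nonneg_left (hmono _ _ (by linarith)) (by positivity)
      _ ≤ _ := mul_le_mul_of_nonneg_right (by linarith) (hP _).le
  · have key := H2 T N a S (T ^ w / 2) hT1 hN ha hS hI hW hD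
    obtain ⟨x1, x2⟩ := expo_gamma (e := e) (y := y) h
    rw [← hw] at x1 x2
    have e4 : (N : ℝ) ^ 4 = T ^ (4 * ν) := by rw [hNT, rpow_nat hT0.le]; norm_num
    have e8 : (N : ℝ) ^ 8 = T ^ (8 * ν) := by rw [hNT, rpow_nat hT0.le]; norm_num
    have w4 : (T ^ w / 2) ^ (-4 : ℝ) = 16 * T ^ (-4 * w) := by
      have := half_rpow (T := T) (w := w) hT0 4
      norm_num at this ⊢
      exact this
    have w12 : (T ^ w / 2) ^ (-12 : ℝ) = 4096 * T ^ (-12 * w) := by
      have := half_rpow (T := T) (w := w) hT0 12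
      norm_num at this ⊢
      exact this
    have i1 : (N : ℝ) ^ 4 * (T ^ w / 2) ^ (-4 : ℝ) ≤ 16 * T ^ (1 - u + 12 * e) := by
      rw [e4, w4, show T ^ (4 * ν) * (16 * T ^ (-4 * w)) = 16 * T ^ (4 * ν + -4 * w) by
        rw [Real.rpow_add hT0]; ring]
      exact mul_le_mul_of_nonneg_left (hmono _ _ (by linarith)) (by norm_num)
    have i2 : T * (N : ℝ) ^ 8 * (T ^ w / 2) ^ (-12 : ℝ) ≤ 4096 * T ^ (1 - u + 12 * e) := by
      rw [e8, w12, show T * T ^ (8 * ν) * (4096 * T ^ (-12 * w)) = 4096 * T ^ (1 + 8 * ν + -12 * w) by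
        rw [Real.rpow_add hT0, Real.rpow_add hT0, Real.rpow_one]; ring]
      exact mul_le_mul_of_nonneg_left (hmono _ _ (by linarith)) (by norm_num)
    calc (S.card : ℝ) ≤ _ := key
      _ ≤ C2 * T ^ (2 * e) * (16 * T ^ (1 - u + 12 * e) + 4096 * T ^ (1 - u + 12 * e)) := by
          apply mul_le_mul (mul_le_mul_of_nonneg_left hTN hC2.le) (add_le_add i1 i2) (by positivity) (by positivity)
      _ = 4112 * C2 * T ^ (2 * e + (1 - u + 12 * e)) := by
          rw [Real.rpow_add hT0 (2 * e)]; ring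
      _ ≤ 4112 * C2 * T ^ (1 - u + 14 * e) := by
          apply mul_le_mul_of_nonneg_left (hmono _ _ (by linarith)) (by positivity)
      _ ≤ _ := mul_le_mul_of_nonneg_right (by linarith) (hP _).le
  · have hN0 : (0 : ℝ) < N := by rw [hNT]; exact hP _
    have key := h3 T N a S hT3' (by rw [hNT]; exact hmono _ _ g1) (by rw [hNT]; exact hmono _ _ g2) ha hS hI (by
      intro t ht
      refine le_trans ?_ (hD t ht)
      rw [hNT, ← Real.rpow_mul hT0.le, ← Real.rpow_add hT0, le_div_iff₀ (by norm_num : (0 : ℝ) < 2)]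
      calc T ^ (ν * (3 / 4) + -b) * 2 ≤ T ^ (ν * (3 / 4) + -b) * T ^ (b / 2) :=
            mul_le_mul_of_nonneg_left hTc (hP _).le
        _ = T ^ (ν * (3 / 4) + -b + b / 2) := by rw [← Real.rpow_add hT0]
        _ ≤ T ^ w := hmono _ _ (by linarith))
    calc (S.card : ℝ) ≤ T ^ (1 - b) / N := key
      _ = T ^ (1 - b - ν) := by rw [hNT, ← Real.rpow_sub hT0]
      _ ≤ T ^ (1 - u + 14 * e) := hmono _ _ (by linarith)
      _ = 1 * T ^ (1 - u + 14 * e) := (one_mul _).symm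
      _ ≤ _ := mul_le_mul_of_nonneg_right (by nlinarith) (hP _).le

  · -- no large values
    have hemp : S = ∅ := by
      rw [Finset.eq_empty_iff_forall_notMem]
      intro t ht
      have k1 := hD t ht
      have k2 := Dn_le ha N t
      have k3 : T ^ ν * T ^ (1 / 20 : ℝ) ≤ T ^ w := by
        rw [← Real.rpow_add hT0]
        exact hmono _ _ g0
      have k4 : (2:ℝ) < T ^ (1 / 20 : ℝ) := by
        have h : ((2:ℝ) ^ 21) ^ (1 / 20 : ℝ) ≤ T ^ (1 / 20 : ℝ) :=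
          Real.rpow_le_rpow (by positivity) hT21 (by norm_num)
        refine lt_of_lt_of_le ?_ h
        rw [← Real.rpow_natCast, ← Real.rpow_mul (by norm_num)]
        calc (2:ℝ) = 2 ^ (1:ℝ) := (Real.rpow_one 2).symm
          _ < 2 ^ (((21:ℕ):ℝ) * (1 / 20)) := Real.rpow_lt_rpow_of_exponent_lt (by norm_num) (by norm_num)
      rw [hNT] at k2
      have k5 := mul_lt_mul_of_pos_left k4 (hP ν)
      linarith
    rw [hemp]
    simp only [Finset.card_empty, Nat.cast_zero]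
    have := hP (1 - u + 14 * e)
    positivity

end H25

end OL
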