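import Pool.Agent.Lib.MP_39df77_nt.OL.H25

/-! Level sets of `ζ(3/4 - a - c + it)`, assembly. -/

set_option autoImplicit false

open Complex MeasureTheory Set

namespace OL

open OL.R25

/-- level sets on the line `3/4 - a - c`, of order `1/a` -/
def HRA (a c : ℝ) : Prop := ∀ e : ℝ, 0 < e → ∃ C : ℝ, 0 < C ∧ ∀ (T V : ℝ) (S : Finset ℝ), 1 ≤ T → T ^ e ≤ V →
  Sep S → (∀ t ∈ S, T ≤ t ∧ t ≤ 2 * T) → (∀ t ∈ S, V ≤ ‖riemannZeta ((3 / 4 - a - c : ℝ) + t * I)‖) →
  (S.card : ℝ) ≤ C * T ^ (1 + e) * V ^ (-(1 / a))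

/-- level sets, all orders between `4` and `8` -/
theorem rA_at (h1 : HA1) (h2 : HA2) {al b c d T3 : ℝ} (ha1 : 1 / 8 - d / 1000 ≤ al) (ha2 : al < 1 / 4)
    (hb : 0 < b) (hb2 : b ≤ 1 / 1700) (hd : 0 < d) (hd1 : d ≤ 1 / 1000)
    (hc : 0 < c) (hc1 : c ≤ (1 - 4 * al) * (b / 4000))
    (hc2 : c ≤ (1 - 4 * al) * (d / 1000)) (hT3 : 1 ≤ T3)
    (H3 : ∀ (T : ℝ) (N : ℕ) (a : ℕ → ℂ) (S : Finset ℝ), T3 ≤ T → T ^ (2 / 5 - b) ≤ N →
      (N : ℝ) ≤ T ^ (1 / 2 - 1 / 340 : ℝ) → (∀ n, ‖a n‖ ≤ 1) → Sep S → InI S T →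
      (∀ t ∈ S, (N : ℝ) ^ (3 / 4 : ℝ) * T ^ (-b) ≤ ‖Dn a N t‖) → (S.card : ℝ) ≤ T ^ (1 - b) / N)
    (h21 : HR21) (h4 : ∀ e : ℝ, 0 < e → HR22 4 (1 + e))
    (h6 : HR22 6 (5 / 4 - 1 / 85)) (h12 : HR22 12 (2 - d)) (h23 : HR23) : HRA al c := by
  intro e he
  have hal0 : 0 < al := by linarith
  obtain ⟨e', he'def⟩ : ∃ e', e' = min (c / 100) (e / 100) := ⟨_, rfl⟩
  have he' : 0 < e' := by rw [he'def]; positivity
  have he'1 : e' ≤ c / 100 := by rw [he'def]; exact min_le_left _ _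
  have he'2 : e' ≤ e / 100 := by rw [he'def]; exact min_le_right _ _
  have hpar : H25.Par al b c d e' := ⟨ha1, ha2, hb, hb2, hd, hd1, hc, hc1, hc2, he', he'1⟩
  obtain ⟨-, -, hca, -, -⟩ := H25.par_small hpar
  have hcs : c ≤ (1 - 4 * al) / 100 := by linarith
  set σ : ℝ := 3 / 4 - al - c with hσ
  obtain ⟨C21, hC21, H21⟩ := h21 (1 / 2) σ le_rfl (by rw [hσ]; linarith) (by rw [hσ]; linarith)
  have hK : 0 < 4 * C21 := by positivity
  obtain ⟨C4, hC4, H4⟩ := second (h4 e' he') hK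
  obtain ⟨C6, hC6, H6⟩ := second h6 hK
  obtain ⟨C12, hC12, H12⟩ := second h12 hK
  obtain ⟨X0, hX0, H23⟩ := h23 σ e' (by rw [hσ]; linarith) (by rw [hσ]; linarith) he'
  obtain ⟨C0, T0, hC0, hT0, H0⟩ := H25.block_bound (al := al) (c := c) h1 h2 hb hT3 H3 he'
  obtain ⟨Te, hTe⟩ := exp_small hC21
  -- thresholds
  obtain ⟨μ, hμdef⟩ : ∃ μ, μ = min e (d / 3) := ⟨_, rfl⟩
  have hμ : 0 < μ := by rw [hμdef]; exact lt_min he (by linarith)
  obtain ⟨T1, hT1def⟩ : ∃ T1, T1 = max (max (max T0 2) (max Te (16 ^ (1 / e)))) (X0 ^ (1 / μ)) := ⟨_, rfl⟩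
  have hT1a : T0 ≤ T1 := by rw [hT1def]; simp
  have hT1b : 2 ≤ T1 := by rw [hT1def]; simp
  have hT1c : Te ≤ T1 := by rw [hT1def]; simp
  have hT1d : (16 : ℝ) ^ (1 / e) ≤ T1 := by rw [hT1def]; simp
  have hT1e : X0 ^ (1 / μ) ≤ T1 := by rw [hT1def]; simp
  -- bound for small T
  obtain ⟨B, hB⟩ : ∃ B : ℝ, ∀ t : ℝ, t ∈ Set.Icc (1 : ℝ) (2 * T1) → ‖riemannZeta (σ + t * I)‖ ≤ B := by
    have := isCompact_Icc.exists_bound_of_continuousOn (f := fun t : ℝ => ‖riemannZeta (σ + t * I)‖)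
      (s := Set.Icc (1 : ℝ) (2 * T1)) (zeta_cont_line (by rw [hσ]; linarith)).continuousOn
    obtain ⟨B, hB⟩ := this
    exact ⟨B, fun t ht => by simpa using hB t ht⟩
  refine ⟨C0 + C4 + C6 + C12 + 2 * (1 + |B|) ^ (1 / al), by positivity, ?_⟩
  intro T V S hT hV hS hI hz
  have hTpos : 0 < T := by linarith
  have hVpos : 0 < V := lt_of_lt_of_le (Real.rpow_pos_of_pos hTpos e) hV
  have hVrp : 0 < V ^ (-(1 / al)) := Real.rpow_pos_of_pos hVpos _
  rcases S.eq_empty_or_nonempty with hemp | hne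
  · rw [hemp]; simp only [Finset.card_empty, Nat.cast_zero]; positivity
  by_cases hTs : T < T1
  · obtain ⟨t, ht⟩ := hne
    have hVB : V ≤ 1 + |B| := by
      have h := hz t ht
      have h' := hB t ⟨by linarith [(hI t ht).1], by linarith [(hI t ht).2]⟩
      have := le_abs_self B
      linarith
    have hc1 := sep_card (by linarith) hS (inI_of hI)
    have hV6 : 1 ≤ (1 + |B|) ^ (1 / al) * V ^ (-(1 / al)) := by
      rw [Real.rpow_neg hVpos.le, ← div_eq_mul_inv, le_div_iff₀ (Real.rpow_pos_of_pos hVpos _), one_mul]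
      exact Real.rpow_le_rpow hVpos.le hVB (by positivity)
    have hT1e' : T ≤ T ^ (1 + e) := by
      nth_rewrite 1 [← Real.rpow_one T]
      exact Real.rpow_le_rpow_of_exponent_le hT (by linarith)
    have hTe0 : 0 < T ^ (1 + e) := Real.rpow_pos_of_pos hTpos _
    calc (S.card : ℝ) ≤ T + 1 := hc1
      _ ≤ 2 * T ^ (1 + e) * 1 := by linarith
      _ ≤ 2 * T ^ (1 + e) * ((1 + |B|) ^ (1 / al) * V ^ (-(1 / al))) := mul_le_mul_of_nonneg_left hV6 (by positivity)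
      _ = 2 * (1 + |B|) ^ (1 / al) * (T ^ (1 + e) * V ^ (-(1 / al))) := by ring
      _ ≤ (C0 + C4 + C6 + C12 + 2 * (1 + |B|) ^ (1 / al)) * (T ^ (1 + e) * V ^ (-(1 / al))) :=
          mul_le_mul_of_nonneg_right (by linarith) (by positivity)
      _ = _ := by ring
  push Not at hTs
  have hT2 : 2 ≤ T := by linarith
  have hTgt : 1 < T := by linarith
  have hlog : 0 < Real.log T := Real.log_pos hTgt
  have hP : ∀ x : ℝ, 0 < T ^ x := fun x => Real.rpow_pos_of_pos hTpos x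
  have hmono : ∀ x z : ℝ, x ≤ z → T ^ x ≤ T ^ z := fun x z h => Real.rpow_le_rpow_of_exponent_le hT h
  -- v
  obtain ⟨v, hv⟩ : ∃ v, v = Real.log V / Real.log T := ⟨_, rfl⟩
  have hVv : V = T ^ v := by
    rw [hv, Real.rpow_def_of_pos hTpos, mul_div_cancel₀ _ hlog.ne', Real.exp_log hVpos]
  have hev : e ≤ v := by
    rw [hVv] at hV
    exact (Real.rpow_le_rpow_left_iff hTgt).1 hV
  have hv0 : 0 < v := by linarith
  obtain ⟨u, hudef⟩ : ∃ u, u = v / al := ⟨_, rfl⟩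
  have hvu : v = al * u := by rw [hudef]; field_simp
  have hu0 : 0 < u := by rw [hudef]; positivity
  have hvu1 : v ≤ u := by
    rw [hvu]
    have : al * u ≤ 1 * u := mul_le_mul_of_nonneg_right (by linarith) hu0.le
    linarith
  have hTe16 : 16 ≤ T ^ e := by
    have h : (16 : ℝ) ^ (1 / e) ≤ T := le_trans hT1d hTs
    have := Real.rpow_le_rpow (by positivity) h he.le
    rwa [← Real.rpow_mul (by norm_num), one_div, inv_mul_cancel₀ he.ne', Real.rpow_one] at this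
  have hV16 : 16 ≤ V := le_trans hTe16 hV
  obtain ⟨y, hy1, hy2, hyc, hysec⟩ := H25.choose_y hpar hu0
  have hyμ : μ ≤ y := by
    refine le_trans ?_ hy1
    rw [hμdef]
    exact min_le_min (by linarith) le_rfl
  have hy0 : 0 < y := by linarith
  set X : ℝ := T ^ y with hX
  have hXX0 : X0 ≤ X := by
    have h : X0 ^ (1 / μ) ≤ T := le_trans hT1e hTs
    have h' := Real.rpow_le_rpow (Real.rpow_nonneg (by linarith) _) h hμ.le
    rw [← Real.rpow_mul (by linarith), one_div, inv_mul_cancel₀ hμ.ne', Real.rpow_one] at h'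
    exact le_trans h' (hmono _ _ hyμ)
  have hX1 : 1 ≤ X := le_trans hX0 hXX0
  have hXT : X ≤ T := by
    calc X ≤ T ^ (1 : ℝ) := hmono _ _ (by linarith)
      _ = T := Real.rpow_one T
  -- split
  have hsplit : ∀ t ∈ S, V / 2 ≤ ‖Sx σ X t‖ ∨ T ^ (v + (1 / 4 - al - c) * y) ≤ 4 * C21 * Zl (1 / 2) t := by
    intro t ht
    by_contra hcon
    push Not at hcon
    obtain ⟨q1, q2⟩ := hcon
    have hzt := hz t ht
    have h21t := H21 X t hX1
    have e1 : X ^ (1 - σ) ≤ T := by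
      calc X ^ (1 - σ) ≤ X ^ (1 : ℝ) := Real.rpow_le_rpow_of_exponent_le hX1 (by rw [hσ]; linarith)
        _ = X := Real.rpow_one X
        _ ≤ T := hXT
    have e2 : Real.exp (-|t|) ≤ Real.exp (-T) := by
      apply Real.exp_le_exp.2
      rw [abs_of_nonneg (by linarith [(hI t ht).1])]
      linarith [(hI t ht).1]
    have e3 : C21 * (X ^ (1 - σ) * Real.exp (-|t|)) ≤ 1 := by
      refine le_trans ?_ (hTe T (le_trans hT1c hTs))
      apply mul_le_mul_of_nonneg_left _ hC21.le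
      exact mul_le_mul e1 e2 (Real.exp_pos _).le hTpos.le
    have e4 : V ≤ ‖Sx σ X t‖ + ‖riemannZeta (σ + t * I) - Sx σ X t‖ := by
      calc V ≤ ‖riemannZeta (σ + t * I)‖ := hzt
        _ = ‖Sx σ X t + (riemannZeta (σ + t * I) - Sx σ X t)‖ := by congr 1; ring
        _ ≤ _ := norm_add_le _ _
    have e5 : V / 4 ≤ C21 * (X ^ (1 / 2 - σ) * Zl (1 / 2) t) := by
      have : C21 * (X ^ (1 - σ) * Real.exp (-|t|) + X ^ (1 / 2 - σ) * Zl (1 / 2) t)
        = C21 * (X ^ (1 - σ) * Real.exp (-|t|)) + C21 * (X ^ (1 / 2 - σ) * Zl (1 / 2) t) := by ring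
      linarith
    have e6 : X ^ (1 / 2 - σ) = T ^ (-((1 / 4 - al - c) * y)) := by
      rw [hX, ← Real.rpow_mul hTpos.le]; congr 1; rw [hσ]; ring
    have e7 : T ^ (v + (1 / 4 - al - c) * y) * T ^ (-((1 / 4 - al - c) * y)) = V := by
      rw [← Real.rpow_add hTpos, hVv]; congr 1; ring
    have e8 : V ≤ 4 * C21 * Zl (1 / 2) t * T ^ (-((1 / 4 - al - c) * y)) := by
      rw [e6] at e5
      have e5' : C21 * (T ^ (-((1 / 4 - al - c) * y)) * Zl (1 / 2) t) =
        C21 * Zl (1 / 2) t * T ^ (-((1 / 4 - al - c) * y)) := by ring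
      rw [e5'] at e5
      linarith
    have e9 := mul_lt_mul_of_pos_right q2 (hP (-((1 / 4 - al - c) * y)))
    rw [e7] at e9
    linarith
  classical
  set S1 := S.filter (fun t => V / 2 ≤ ‖Sx σ X t‖) with hS1
  set S2 := S.filter (fun t => ¬ V / 2 ≤ ‖Sx σ X t‖) with hS2
  have hcard : S.card = S1.card + S2.card := by
    rw [hS1, hS2]; exact (Finset.card_filter_add_card_filter_not _).symm
  have hS2Z : ∀ t ∈ S2, T ^ (v + (1 / 4 - al - c) * y) ≤ 4 * C21 * Zl (1 / 2) t := by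
    intro t ht
    rw [hS2, Finset.mem_filter] at ht
    rcases hsplit t ht.1 with h | h
    · exact absurd h ht.2
    · exact h
  have hS2sub : S2 ⊆ S := Finset.filter_subset _ _
  have hS1sub : S1 ⊆ S := Finset.filter_subset _ _
  have hS2I : ∀ t ∈ S2, T ≤ t ∧ t ≤ 2 * T := fun t ht => hI t (hS2sub ht)
  have hb2 : (S2.card : ℝ) ≤ (C4 + C6 + C12) * T ^ (1 - u + 15 * e') := by
    have hx : T ^ (1 - u + e') ≤ T ^ (1 - u + 15 * e') := hmono _ _ (by linarith)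
    rcases hysec with h | h | h
    · have := H4 T _ S2 hT2 (sep_subset hS2sub hS) hS2I hS2Z
      have hq : T ^ (1 + e' - ((4 : ℕ) : ℝ) * (v + (1 / 4 - al - c) * y)) ≤ T ^ (1 - u + e') :=
        hmono _ _ (by push_cast; linarith)
      have hp := hP (1 - u + 15 * e')
      calc (S2.card : ℝ) ≤ _ := this
        _ ≤ C4 * T ^ (1 - u + 15 * e') := mul_le_mul_of_nonneg_left (le_trans hq hx) hC4.le
        _ ≤ _ := mul_le_mul_of_nonneg_right (by linarith) hp.le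
    · have := H6 T _ S2 hT2 (sep_subset hS2sub hS) hS2I hS2Z
      have hq : T ^ (5 / 4 - 1 / 85 - ((6 : ℕ) : ℝ) * (v + (1 / 4 - al - c) * y)) ≤ T ^ (1 - u + e') :=
        hmono _ _ (by push_cast; linarith)
      have hp := hP (1 - u + 15 * e')
      calc (S2.card : ℝ) ≤ _ := this
        _ ≤ C6 * T ^ (1 - u + 15 * e') := mul_le_mul_of_nonneg_left (le_trans hq hx) hC6.le
        _ ≤ _ := mul_le_mul_of_nonneg_right (by linarith) hp.le
    · have := H12 T _ S2 hT2 (sep_subset hS2sub hS) hS2I hS2Z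
      have hq : T ^ (2 - d - ((12 : ℕ) : ℝ) * (v + (1 / 4 - al - c) * y)) ≤ T ^ (1 - u + e') :=
        hmono _ _ (by push_cast; linarith)
      have hp := hP (1 - u + 15 * e')
      calc (S2.card : ℝ) ≤ _ := this
        _ ≤ C12 * T ^ (1 - u + 15 * e') := mul_le_mul_of_nonneg_left (le_trans hq hx) hC12.le
        _ ≤ _ := mul_le_mul_of_nonneg_right (by linarith) hp.le
  have hb1 : (S1.card : ℝ) ≤ C0 * T ^ (1 - u + 15 * e') := by
    obtain ⟨N, a, S', hN1, hNX, ha, hS', hcS, hD⟩ := H23 X (V / 2) S1 hXX0 (by linarith) (by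
      intro t ht
      rw [hS1, Finset.mem_filter] at ht
      exact ht.2)
    obtain ⟨ν, hν⟩ : ∃ ν, ν = Real.log N / Real.log T := ⟨_, rfl⟩
    have hNpos : (0 : ℝ) < N := by exact_mod_cast hN1
    have hNν : (N : ℝ) = T ^ ν := by
      rw [hν, Real.rpow_def_of_pos hTpos, mul_div_cancel₀ _ hlog.ne', Real.exp_log hNpos]
    have hν0 : 0 ≤ ν := by
      rw [hν]; exact div_nonneg (Real.log_nonneg (by exact_mod_cast hN1)) hlog.le
    have hνy : ν ≤ (1 + e') * y := by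
      rw [hNν, hX, ← Real.rpow_mul hTpos.le] at hNX
      have := (Real.rpow_le_rpow_left_iff hTgt).1 hNX
      linarith
    have hν1 : ν ≤ 1 := by
      have : e' * y ≤ e' * 1 := mul_le_mul_of_nonneg_left (by linarith) he'.le
      linarith
    have hSS : S' ⊆ S := fun t ht => hS1sub (hS' ht)
    have hb := H0 T u y ν N a S' (le_trans hT1a hTs) hν0 hν1 hy0.le (by linarith) (hyc ν hν0 hνy) hNν hN1 ha
      (sep_subset hSS hS) (inI_subset hSS (inI_of hI)) (by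
        intro t ht
        have hd := hD t ht
        rw [hNν, hX, ← Real.rpow_mul hTpos.le, ← Real.rpow_mul hTpos.le, hVv] at hd
        have e1 : T ^ (H25.wexp al c e' u y ν) * T ^ (y * e') = T ^ (ν * σ) * T ^ v := by
          rw [← Real.rpow_add hTpos, ← Real.rpow_add hTpos]; congr 1; unfold H25.wexp; rw [hσ, hvu]; ring
        have hp := hP (y * e')
        by_contra hcon
        push Not at hcon
        have := mul_lt_mul_of_pos_left hcon hp
        have e2 : T ^ (y * e') * (T ^ (H25.wexp al c e' u y ν) / 2) = T ^ (ν * σ) * (T ^ v / 2) := by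
          rw [← mul_div_assoc, mul_comm, ← mul_div_assoc, ← e1]
        linarith)
    calc (S1.card : ℝ) ≤ X ^ e' * S'.card := hcS
      _ ≤ T ^ e' * (C0 * T ^ (1 - u + 14 * e')) := by
          exact mul_le_mul (Real.rpow_le_rpow (by linarith) hXT he'.le) hb (Nat.cast_nonneg _) (hP _).le
      _ = C0 * T ^ (e' + (1 - u + 14 * e')) := by
          rw [Real.rpow_add hTpos e' (1 - u + 14 * e')]; ring
      _ = C0 * T ^ (1 - u + 15 * e') := by congr 2; ring
  have hfin : T ^ (1 - u + 15 * e') ≤ T ^ (1 + e) * V ^ (-(1 / al)) := by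
    rw [hVv, ← Real.rpow_mul hTpos.le, ← Real.rpow_add hTpos]
    have hvu2 : v * (-(1 / al)) = -u := by rw [hvu]; field_simp
    rw [hvu2]
    exact hmono _ _ (by linarith)
  have hBp : 0 ≤ 2 * (1 + |B|) ^ (1 / al) := by positivity
  calc (S.card : ℝ) = (S1.card : ℝ) + S2.card := by rw [hcard]; push_cast; ring
    _ ≤ C0 * T ^ (1 - u + 15 * e') + (C4 + C6 + C12) * T ^ (1 - u + 15 * e') := add_le_add hb1 hb2
    _ = (C0 + C4 + C6 + C12) * T ^ (1 - u + 15 * e') := by ring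
    _ ≤ (C0 + C4 + C6 + C12) * (T ^ (1 + e) * V ^ (-(1 / al))) := mul_le_mul_of_nonneg_left hfin (by positivity)
    _ ≤ (C0 + C4 + C6 + C12 + 2 * (1 + |B|) ^ (1 / al)) * (T ^ (1 + e) * V ^ (-(1 / al))) :=
        mul_le_mul_of_nonneg_right (by linarith) (mul_pos (hP (1 + e)) hVrp).le
    _ = _ := by ring


end OL
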