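import Pool.Agent.Lib.MP_39df77_nt.OL.F1
import Pool.Agent.Lib.MP_069854_nt.R8.M3b

/-!
# Moments of zeta of real order off the critical line: definitions
-/

set_option autoImplicit false

open Complex MeasureTheory Set Filter Topology
open scoped ComplexConjugate

namespace OL

/-- the moment of order `A` on the line `σ` is `O(T^{1+e})` -/
def MB (σ A : ℝ) : Prop := ∀ e : ℝ, 0 < e → ∃ C : ℝ, ∀ T : ℝ, 1 ≤ T →
  ∫ t in (0 : ℝ)..T, ‖riemannZeta (σ + t * I)‖ ^ A ≤ C * T ^ (1 + e)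

/-- the coefficients of `ζ(s)^z` -/
noncomputable def dz (z : ℝ) (n : ℕ) : ℝ :=
  n.factorization.prod fun _ j => ∏ i ∈ Finset.range j, (z + i) / (i + 1)

/-! ### zeta with a Gaussian weight -/

/-- `ζ(s)` with a Gaussian weight centred at height `3T/2` -/
noncomputable def FG (T : ℝ) (s : ℂ) : ℂ :=
  riemannZeta s * cexp (((s - ((3 * T / 2 : ℝ) : ℂ) * I) / (T : ℂ)) ^ 2)

lemma norm_FG {T : ℝ} (hT : T ≠ 0) (σ t : ℝ) : ‖FG T (σ + t * I)‖ =
    ‖riemannZeta (σ + t * I)‖ * Real.exp ((σ ^ 2 - (t - 3 * T / 2) ^ 2) / T ^ 2) := by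
  unfold FG
  rw [norm_mul, Complex.norm_exp]
  congr 2
  have hT' : (T : ℂ) ≠ 0 := by exact_mod_cast hT
  have e1 : ((σ : ℂ) + t * I - ((3 * T / 2 : ℝ) : ℂ) * I) / (T : ℂ) =
      ((σ / T : ℝ) : ℂ) + (((t - 3 * T / 2) / T : ℝ) : ℂ) * I := by
    push_cast
    field_simp
    ring
  rw [e1]
  simp only [sq, Complex.mul_re, Complex.add_re, Complex.add_im, Complex.ofReal_re, Complex.ofReal_im,
    Complex.mul_im, Complex.I_re, Complex.I_im]
  field_simp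
  ring

lemma FG_diff (T : ℝ) : DifferentiableOn ℂ (FG T) {s : ℂ | s.re < 1} := by
  intro s hs
  have h1 : s ≠ 1 := by
    rintro rfl
    simp at hs
  unfold FG
  apply DifferentiableAt.differentiableWithinAt
  apply DifferentiableAt.mul
  · exact differentiableAt_riemannZeta h1
  · apply DifferentiableAt.cexp
    apply DifferentiableAt.pow
    fun_prop

/-- decay of `FG` -/
lemma FG_decay {s1 T : ℝ} (h1 : s1 < 1) (hT : 1 ≤ T) : ∃ B : ℝ, 0 < B ∧ ∀ σ t : ℝ, 1 / 2 ≤ σ → σ ≤ s1 →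
    ‖FG T (σ + t * I)‖ ≤ B * (1 + ((t - 3 * T / 2) / T) ^ 2)⁻¹ := by
  obtain ⟨C, hC, H⟩ := Cx.zeta_le h1
  have hT0 : 0 < T := by linarith
  refine ⟨C * (1 + 5 * T / 2) * (6 * Real.exp (1 + 5 / 4)) * Real.exp 1, by positivity, ?_⟩
  intro σ t hσ hσ1
  rw [norm_FG hT0.ne']
  obtain ⟨y, hy⟩ : ∃ y, y = |(t - 3 * T / 2) / T| := ⟨_, rfl⟩
  have hy0 : 0 ≤ y := by rw [hy]; exact abs_nonneg _
  have hy2 : ((t - 3 * T / 2) / T) ^ 2 = y ^ 2 := by rw [hy, sq_abs]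
  have hty : |t| ≤ 3 * T / 2 + T * y := by
    have e1 : t = 3 * T / 2 + T * ((t - 3 * T / 2) / T) := by field_simp; ring
    rw [e1]
    refine le_trans (abs_add_le _ _) ?_
    rw [abs_mul, abs_of_nonneg (by positivity : 0 ≤ 3 * T / 2), abs_of_pos hT0, hy]
  have hz := H σ t hσ hσ1
  have hz2 : ‖riemannZeta (σ + t * I)‖ ≤ C * ((1 + 5 * T / 2) * (1 + y)) := by
    refine le_trans hz (mul_le_mul_of_nonneg_left ?_ (by linarith))
    nlinarith
  have hexp : Real.exp ((σ ^ 2 - (t - 3 * T / 2) ^ 2) / T ^ 2) ≤ Real.exp 1 * Real.exp (-y ^ 2) := by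
    rw [← Real.exp_add]
    apply Real.exp_le_exp.2
    have e1 : (σ ^ 2 - (t - 3 * T / 2) ^ 2) / T ^ 2 = σ ^ 2 / T ^ 2 - ((t - 3 * T / 2) / T) ^ 2 := by
      field_simp
    rw [e1, hy2]
    have : σ ^ 2 / T ^ 2 ≤ 1 := by
      rw [div_le_one (by positivity)]
      nlinarith
    linarith
  have hpoly : (1 + y) ^ 3 ≤ 6 * Real.exp (1 + y) := by
    have := Real.pow_div_factorial_le_exp (1 + y) (by linarith) 3
    rw [div_le_iff₀ (by positivity)] at this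
    have e : ((3 : ℕ).factorial : ℝ) = 6 := by norm_num [Nat.factorial]
    rw [e] at this
    linarith
  have hmain : (1 + y) * Real.exp (-y ^ 2) ≤ 6 * Real.exp (1 + 5 / 4) * (1 + y ^ 2)⁻¹ := by
    rw [← div_eq_mul_inv, le_div_iff₀ (by positivity)]
    have a1 : (1 + y) * (1 + y ^ 2) ≤ (1 + y) ^ 3 := by nlinarith
    have a2 : Real.exp (1 + y) * Real.exp (-y ^ 2) ≤ Real.exp (1 + 5 / 4) := by
      rw [← Real.exp_add]
      apply Real.exp_le_exp.2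
      nlinarith [sq_nonneg (y - 1 / 2)]
    calc (1 + y) * Real.exp (-y ^ 2) * (1 + y ^ 2) = (1 + y) * (1 + y ^ 2) * Real.exp (-y ^ 2) := by ring
      _ ≤ (1 + y) ^ 3 * Real.exp (-y ^ 2) := mul_le_mul_of_nonneg_right a1 (Real.exp_pos _).le
      _ ≤ 6 * Real.exp (1 + y) * Real.exp (-y ^ 2) := mul_le_mul_of_nonneg_right hpoly (Real.exp_pos _).le
      _ = 6 * (Real.exp (1 + y) * Real.exp (-y ^ 2)) := by ring
      _ ≤ _ := mul_le_mul_of_nonneg_left a2 (by norm_num)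
  rw [hy2]
  calc ‖riemannZeta (σ + t * I)‖ * Real.exp ((σ ^ 2 - (t - 3 * T / 2) ^ 2) / T ^ 2)
      ≤ (C * ((1 + 5 * T / 2) * (1 + y))) * (Real.exp 1 * Real.exp (-y ^ 2)) :=
        mul_le_mul hz2 hexp (Real.exp_pos _).le (by positivity)
    _ = C * (1 + 5 * T / 2) * Real.exp 1 * ((1 + y) * Real.exp (-y ^ 2)) := by ring
    _ ≤ C * (1 + 5 * T / 2) * Real.exp 1 * (6 * Real.exp (1 + 5 / 4) * (1 + y ^ 2)⁻¹) :=
        mul_le_mul_of_nonneg_left hmain (by positivity)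
    _ = _ := by ring

/-! ### duality -/

/-- `conj z / |z|` -/
noncomputable def sg (z : ℂ) : ℂ := conj z / (‖z‖ : ℂ)

/-- the duality integral over a set `E` -/
noncomputable def Pg (T σ : ℝ) (E : Set ℝ) (z : ℂ) : ℂ :=
  ∫ u in E, FG T (z + u * I) * sg (FG T (σ + u * I))

/-- the smoothed power of zeta -/
noncomputable def GR (A s0 t : ℝ) : ℝ :=
  ∫ y : ℝ, ‖riemannZeta (s0 + (t + y : ℝ) * I)‖ ^ A * Real.exp (-|y|)

/-! ### smooth numbers -/

open Classical in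
/-- the indicator function of the numbers all of whose prime factors are `< M` -/
noncomputable def sI (M n : ℕ) : ℝ := if n ∈ Nat.smoothNumbers M then 1 else 0

open Classical in
/-- `e^{-n/X}` on the positive `n` with a prime factor `≥ M` -/
noncomputable def NR (M : ℕ) (X : ℝ) : ArithmeticFunction ℝ :=
  ⟨fun n => if n = 0 ∨ n ∈ Nat.smoothNumbers M then 0 else Real.exp (-(n / X)), by simp⟩

/-- the part of `Sx σ X t` over the `n` with a prime factor `≥ M` -/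
noncomputable def Qx (M : ℕ) (σ X t : ℝ) : ℂ :=
  ∑' n : ℕ, ((NR M X (n + 1) * (n + 1 : ℝ) ^ (-σ) : ℝ) : ℂ) * ei (-(t * Real.log (n + 1 : ℝ)))

/-- the Euler product over the primes `< M`, as a series -/
noncomputable def EM (M : ℕ) (σ t : ℝ) : ℂ :=
  ∑' n : ℕ, ((sI M (n + 1) * (n + 1 : ℝ) ^ (-σ) : ℝ) : ℂ) * ei (-(t * Real.log (n + 1 : ℝ)))

/-- the power `z` of this Euler product, as a series -/
noncomputable def EZ (M : ℕ) (z σ t : ℝ) : ℂ :=
  ∑' n : ℕ, ((sI M (n + 1) * dz z (n + 1) * (n + 1 : ℝ) ^ (-σ) : ℝ) : ℂ) *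
    ei (-(t * Real.log (n + 1 : ℝ)))

/-- the tail of the sum of `d_m(n)^2 n^{-2σ}` -/
noncomputable def tl (m M : ℕ) (σ : ℝ) : ℝ :=
  ∑' n : ℕ, if M ≤ n + 1 then (oneR ^ m) (n + 1) ^ 2 * (n + 1 : ℝ) ^ (-(2 * σ)) else 0

end OL
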