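import Pool.Agent.Lib.MP_39df77_nt.OL.K0

/-! # the `A`-th power of `FG` is integrable on a line -/

set_option autoImplicit false

open Complex MeasureTheory Set Filter Topology
open scoped ComplexConjugate

namespace OL

lemma k2_cont {s A : ℝ} (hs1 : s < 1) (hA : 1 ≤ A) :
    Continuous (fun t : ℝ => ‖riemannZeta (s + t * I)‖ ^ A) := by
  have hzd : DifferentiableOn ℂ riemannZeta {s : ℂ | s.re < 1} := by
    intro z hz
    have h1 : z ≠ 1 := by rintro rfl; simp at hz
    exact (differentiableAt_riemannZeta h1).differentiableWithinAt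
  exact (Cx.line_cont hzd hs1).norm.rpow_const (fun _ => Or.inr (by linarith))

lemma k2_contF {s A T : ℝ} (hs1 : s < 1) (hA : 1 ≤ A) :
    Continuous (fun t : ℝ => ‖FG T (s + t * I)‖ ^ A) :=
  (Cx.line_cont (FG_diff T) hs1).norm.rpow_const (fun _ => Or.inr (by linarith))

lemma k2_int {T s A : ℝ} (hT : 1 ≤ T) (h0 : 1 / 2 ≤ s) (h1 : s < 1) (hA : 1 ≤ A) :
    Integrable (fun t : ℝ => ‖FG T (s + t * I)‖ ^ A) := by
  have hT0 : 0 < T := by linarith
  obtain ⟨B, hB, H⟩ := FG_decay h1 hT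
  have hi : Integrable (fun t : ℝ => B ^ A * (1 + ((t - 3 * T / 2) / T) ^ 2)⁻¹) := by
    apply Integrable.const_mul
    have := (integrable_inv_one_add_sq.comp_div hT0.ne').comp_sub_right (3 * T / 2)
    exact this
  refine hi.mono' (k2_contF h1 hA).aestronglyMeasurable ?_
  filter_upwards with t
  rw [Real.norm_of_nonneg (by positivity)]
  have h := H s t h0 le_rfl
  have h2 : (1 + ((t - 3 * T / 2) / T) ^ 2)⁻¹ ≤ 1 := inv_le_one_of_one_le₀ (by nlinarith [sq_nonneg ((t - 3 * T / 2) / T)])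
  have h3 : 0 < (1 + ((t - 3 * T / 2) / T) ^ 2)⁻¹ := by positivity
  calc ‖FG T (s + t * I)‖ ^ A ≤ (B * (1 + ((t - 3 * T / 2) / T) ^ 2)⁻¹) ^ A :=
        Real.rpow_le_rpow (norm_nonneg _) h (by linarith)
    _ = B ^ A * ((1 + ((t - 3 * T / 2) / T) ^ 2)⁻¹) ^ A := Real.mul_rpow hB.le h3.le
    _ ≤ B ^ A * ((1 + ((t - 3 * T / 2) / T) ^ 2)⁻¹) ^ (1 : ℝ) := by
        apply mul_le_mul_of_nonneg_left _ (by positivity)
        exact Real.rpow_le_rpow_of_exponent_ge h3 h2 hA
    _ = _ := by rw [Real.rpow_one]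

/-- Row `k-2`. The moment of `FG` on a line. PROOF: copy `OL.Cx.FF_L2` and `OL.Cx.FF_sq_int` of `OL/F1.lean`
(which do this for `‖ζ‖^6`, `A = 2`), with the real exponent `A ≥ 1`. Put `g t = ‖ζ(s+it)‖^A`
(continuous: `(zeta_cont hs1).norm.rpow_const`, even in `t` by `riemannZeta_conj`). By `norm_FG`,
`‖FG T (s+it)‖^A = g t * exp (A * (s^2 - (t - 3T/2)^2)/T^2)` (`Real.mul_rpow`, `Real.exp_mul`).
Integrable: by `FG_decay`, `‖FG‖^A ≤ B^A * (1 + ((t-3T/2)/T)^2)⁻¹` as `(1+y^2)⁻¹ ≤ 1` and `A ≥ 1`.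
Bound: `∫ ≤ 2 ∫_{Ioi 0}`, on `[0,T]` the exponential factor is `≤ exp A`, on `[2^k T, 2^(k+1) T]`, with `x = t/T ≥ 2^k`,
`A * (s^2/T^2 - (x-3/2)^2) ≤ A * (11/4 - x) ≤ 11 A/4 - x`, so the factor is `≤ exp (11A/4) * exp (-2^k)`, and
`∫_{2^k T}^{2^(k+1) T} g ≤ C (2^(k+1) T)^(1+e)` from `h`; sum with `Cx.dy_sum`. -/
theorem FG_Lp {s A : ℝ} (hs0 : 1 / 2 ≤ s) (hs1 : s < 1) (hA : 1 ≤ A) (h : MB s A) {e : ℝ} (he : 0 < e) :
    ∃ C : ℝ, 0 < C ∧ ∀ T : ℝ, 1 ≤ T → Integrable (fun t : ℝ => ‖FG T (s + t * I)‖ ^ A) ∧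
      ∫ t : ℝ, ‖FG T (s + t * I)‖ ^ A ≤ C * T ^ (1 + e) := by
  obtain ⟨C0, h⟩ := h e he
  obtain ⟨m, hmdef⟩ : ∃ m : ℝ, m = 1 + e := ⟨_, rfl⟩
  have hm : 1 ≤ m := by linarith
  rw [← hmdef] at h ⊢
  obtain ⟨C, hCdef⟩ : ∃ C, C = |C0| := ⟨_, rfl⟩
  have hC : 0 ≤ C := by rw [hCdef]; exact abs_nonneg _
  obtain ⟨g, hg⟩ : ∃ g : ℝ → ℝ, g = fun t : ℝ => ‖riemannZeta (s + t * I)‖ ^ A := ⟨_, rfl⟩
  have hgc : Continuous g := by rw [hg]; exact k2_cont hs1 hA
  have hg0 : ∀ t, 0 ≤ g t := by intro t; rw [hg]; positivity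
  have h1 : ∀ T : ℝ, 1 ≤ T → ∫ t in (0 : ℝ)..T, g t ≤ C * T ^ m := by
    intro T hT
    rw [hg]
    refine le_trans (h T hT) ?_
    apply mul_le_mul_of_nonneg_right _ (by positivity)
    rw [hCdef]; exact le_abs_self _
  have hii0 : ∀ a b : ℝ, IntervalIntegrable g volume a b := fun a b => hgc.intervalIntegrable a b
  have hgh : ∀ T : ℝ, 1 ≤ T → ∫ t in T..(2 * T), g t ≤ C * 2 ^ m * T ^ m := by
    intro T hT
    have h2 := h1 (2 * T) (by linarith)
    rw [← intervalIntegral.integral_add_adjacent_intervals (hii0 0 T) (hii0 T (2 * T))] at h2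
    have h3 : 0 ≤ ∫ t in (0 : ℝ)..T, g t :=
      intervalIntegral.integral_nonneg (by linarith) fun t _ => hg0 t
    rw [Real.mul_rpow (by norm_num) (by linarith)] at h2
    nlinarith
  have hgeven : ∀ t, g (-t) = g t := by
    intro t
    rw [hg]
    simp only
    have : ((s : ℂ) + ((-t : ℝ) : ℂ) * I) = conj ((s : ℂ) + t * I) := by simp
    rw [this, riemannZeta_conj, RCLike.norm_conj]
  obtain ⟨Sm, hSm⟩ : ∃ Sm : ℝ, Sm = 2 * ((⌈m⌉₊ + 1).factorial : ℝ) := ⟨_, rfl⟩
  have hSm0 : 0 < Sm := by rw [hSm]; positivity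
  have h2m : (0 : ℝ) < 2 ^ m := by positivity
  refine ⟨2 * (Real.exp A * C + Real.exp (11 * A / 4) * (C * 2 ^ m) * Sm) + 1, by positivity,
    fun T hT => ⟨k2_int hT hs0 hs1 hA, ?_⟩⟩
  have hT0 : 0 < T := by linarith
  have hTm : 0 < T ^ m := by positivity
  obtain ⟨f, hf⟩ : ∃ f : ℝ → ℝ, f = fun t : ℝ => ‖FG T (s + t * I)‖ ^ A := ⟨_, rfl⟩
  have hfeq : ∀ t, f t = g t * Real.exp (A * ((s ^ 2 - (t - 3 * T / 2) ^ 2) / T ^ 2)) := by
    intro t
    rw [hf, hg]
    simp only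
    rw [norm_FG hT0.ne', Real.mul_rpow (norm_nonneg _) (Real.exp_pos _).le, ← Real.exp_mul]
    congr 2
    ring
  have hfi : Integrable f := by rw [hf]; exact k2_int hT hs0 hs1 hA
  have hf0 : ∀ t, 0 ≤ f t := by intro t; rw [hf]; positivity
  have hfc : Continuous f := by rw [hf]; exact k2_contF hs1 hA
  have hsym : ∀ t, f t ≤ f |t| := by
    intro t
    rw [hfeq, hfeq]
    rcases le_total 0 t with ht | ht
    · rw [abs_of_nonneg ht]
    · rw [abs_of_nonpos ht, hgeven]
      apply mul_le_mul_of_nonneg_left _ (hg0 t)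
      apply Real.exp_le_exp.2
      apply mul_le_mul_of_nonneg_left _ (by linarith)
      apply div_le_div_of_nonneg_right _ (by positivity)
      nlinarith
  have hfabs : ∫ t : ℝ, f t ≤ 2 * ∫ t in Ioi (0 : ℝ), f t := by
    rw [← integral_comp_abs]
    apply integral_mono hfi _ hsym
    have e1 : IntegrableOn (fun t => f |t|) (Ioi 0) := by
      refine hfi.integrableOn.congr_fun ?_ measurableSet_Ioi
      intro t ht
      simp only [abs_of_pos (show 0 < t from ht)]
    have e2 : IntegrableOn (fun t => f |t|) (Iic 0) := by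
      refine (hfi.comp_neg.integrableOn (s := Iic 0)).congr_fun ?_ measurableSet_Iic
      intro t ht
      simp only [abs_of_nonpos (show t ≤ 0 from ht)]
    rw [← integrableOn_univ, ← Iic_union_Ioi (a := (0:ℝ))]
    exact e2.union e1
  have hle : ∀ n : ℕ, ∫ t in (0 : ℝ)..(2 ^ n * T), f t ≤
      (Real.exp A * C + Real.exp (11 * A / 4) * (C * 2 ^ m) * Sm) * T ^ m := by
    intro n
    have hii : ∀ a b : ℝ, IntervalIntegrable f volume a b := fun a b => hfc.intervalIntegrable a b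
    rw [← intervalIntegral.integral_add_adjacent_intervals (hii 0 T) (hii T (2 ^ n * T))]
    have hp1 : ∫ t in (0 : ℝ)..T, f t ≤ Real.exp A * C * T ^ m := by
      calc ∫ t in (0 : ℝ)..T, f t ≤ ∫ t in (0 : ℝ)..T, Real.exp A * g t := by
            apply intervalIntegral.integral_mono_on hT0.le (hii 0 T) ((hgc.const_mul _).intervalIntegrable _ _)
            intro t _
            rw [hfeq, mul_comm]
            apply mul_le_mul_of_nonneg_right _ (hg0 t)
            apply Real.exp_le_exp.2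
            have : (s ^ 2 - (t - 3 * T / 2) ^ 2) / T ^ 2 ≤ 1 := by
              rw [div_le_one (by positivity)]
              nlinarith [sq_nonneg (t - 3 * T / 2)]
            nlinarith
        _ = Real.exp A * ∫ t in (0 : ℝ)..T, g t := by rw [intervalIntegral.integral_const_mul]
        _ ≤ Real.exp A * (C * T ^ m) := mul_le_mul_of_nonneg_left (h1 T hT) (Real.exp_pos _).le
        _ = _ := by ring
    have hp2 : ∫ t in T..(2 ^ n * T), f t ≤ Real.exp (11 * A / 4) * (C * 2 ^ m) * Sm * T ^ m := by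
      have hs := intervalIntegral.sum_integral_adjacent_intervals (f := f) (μ := volume) (a := fun k : ℕ => 2 ^ k * T) (n := n)
        (fun k _ => hii _ _)
      simp only [pow_zero, one_mul] at hs
      rw [← hs]
      have hone : ∀ k ∈ Finset.range n, ∫ t in (2 ^ k * T)..(2 ^ (k + 1) * T), f t ≤
          Real.exp (11 * A / 4) * (C * 2 ^ m) * T ^ m * (((2 : ℝ) ^ k) ^ m * Real.exp (-(2 : ℝ) ^ k)) := by
        intro k _
        have hk1 : (1 : ℝ) ≤ 2 ^ k := one_le_pow₀ (by norm_num)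
        have hkT : 1 ≤ 2 ^ k * T := by nlinarith
        have e2 : (2 : ℝ) ^ (k + 1) * T = 2 * (2 ^ k * T) := by rw [pow_succ]; ring
        rw [e2]
        calc ∫ t in (2 ^ k * T)..(2 * (2 ^ k * T)), f t
            ≤ ∫ t in (2 ^ k * T)..(2 * (2 ^ k * T)), Real.exp (11 * A / 4) * Real.exp (-(2 : ℝ) ^ k) * g t := by
              apply intervalIntegral.integral_mono_on (by nlinarith) (hii _ _) ((hgc.const_mul _).intervalIntegrable _ _)
              intro t ht
              rw [hfeq, mul_comm]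
              apply mul_le_mul_of_nonneg_right _ (hg0 t)
              rw [← Real.exp_add]
              apply Real.exp_le_exp.2
              obtain ⟨x, hx⟩ : ∃ x, x = t / T := ⟨_, rfl⟩
              have htx : t = x * T := by rw [hx]; field_simp
              have hxk : 2 ^ k ≤ x := by rw [hx, le_div_iff₀ hT0]; exact ht.1
              have e3 : (s ^ 2 - (t - 3 * T / 2) ^ 2) / T ^ 2 = s ^ 2 / T ^ 2 - (x - 3 / 2) ^ 2 := by
                rw [htx]; field_simp
              rw [e3]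
              have h5 : s ^ 2 / T ^ 2 ≤ 1 := by
                rw [div_le_one (by positivity)]
                nlinarith
              have h6 : s ^ 2 / T ^ 2 - (x - 3 / 2) ^ 2 ≤ 11 / 4 - x := by
                nlinarith [sq_nonneg (x - 2)]
              have h7 : A * (s ^ 2 / T ^ 2 - (x - 3 / 2) ^ 2) ≤ A * (11 / 4 - x) :=
                mul_le_mul_of_nonneg_left h6 (by linarith)
              have hx0 : 0 ≤ x := by linarith
              nlinarith [mul_nonneg (by linarith : 0 ≤ A - 1) hx0]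
          _ = Real.exp (11 * A / 4) * Real.exp (-(2 : ℝ) ^ k) * ∫ t in (2 ^ k * T)..(2 * (2 ^ k * T)), g t := by
              rw [intervalIntegral.integral_const_mul]
          _ ≤ Real.exp (11 * A / 4) * Real.exp (-(2 : ℝ) ^ k) * (C * 2 ^ m * (2 ^ k * T) ^ m) :=
              mul_le_mul_of_nonneg_left (hgh _ hkT) (by positivity)
          _ = _ := by rw [Real.mul_rpow (x := 2 ^ k) (by positivity) hT0.le]; ring
      refine le_trans (Finset.sum_le_sum hone) ?_
      rw [← Finset.mul_sum]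
      have := Cx.dy_sum (m := m) (by linarith) n
      rw [← hSm] at this
      calc _ ≤ Real.exp (11 * A / 4) * (C * 2 ^ m) * T ^ m * Sm := mul_le_mul_of_nonneg_left this (by positivity)
        _ = _ := by ring
    calc _ ≤ _ := add_le_add hp1 hp2
      _ = _ := by ring
  have htend : Tendsto (fun n : ℕ => (2 : ℝ) ^ n * T) atTop atTop :=
    (tendsto_pow_atTop_atTop_of_one_lt (by norm_num)).atTop_mul_const hT0
  have hlim := intervalIntegral_tendsto_integral_Ioi (0 : ℝ) (hfi.integrableOn (s := Ioi 0)) htend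
  have hIoi := le_of_tendsto' hlim hle
  rw [← hf]
  calc ∫ t : ℝ, f t ≤ 2 * ∫ t in Ioi (0 : ℝ), f t := hfabs
    _ ≤ 2 * ((Real.exp A * C + Real.exp (11 * A / 4) * (C * 2 ^ m) * Sm) * T ^ m) := by linarith
    _ ≤ _ := by nlinarith

end OL
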