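import Pool.Agent.Lib.MP_39df77_nt.OL.K0

/-! # the duality integral: the factor `sg`, differentiability -/

set_option autoImplicit false

open Complex MeasureTheory Set Filter Topology
open scoped ComplexConjugate

namespace OL

/-- Row `k-3a`, part 1: `z * sg z = |z|`. -/
lemma mul_sg (z : ℂ) : z * sg z = (‖z‖ : ℂ) := by
  unfold sg
  rcases eq_or_ne z 0 with rfl | hz
  · simp
  · have h1 : (‖z‖ : ℂ) ≠ 0 := by
      exact_mod_cast norm_ne_zero_iff.2 hz
    rw [← mul_div_assoc, Complex.mul_conj, Complex.normSq_eq_norm_sq, div_eq_iff h1]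
    push_cast
    ring

/-- part 2 -/
lemma sg_le (z : ℂ) : ‖sg z‖ ≤ 1 := by
  unfold sg
  rw [norm_div, RCLike.norm_conj, Complex.norm_real, norm_norm]
  exact div_self_le_one _

/-- part 3 -/
lemma sg_meas : Measurable sg := by
  unfold sg
  exact (Complex.continuous_conj.measurable).div (Complex.continuous_ofReal.measurable.comp measurable_norm)

/-- part 4. PROOF: copy `OL.Cx.Ph_diff` (`OL/F1.lean`) with the interval `[T, 2T]` replaced by the measurable set `E ⊆ Icc T (2T)`
and `conj (FF ...)` by `sg (FG T (σ + u I))`, which is bounded by `1` and measurable in `u`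
(`hasDerivAt_integral_of_dominated_loc_of_deriv_le` for `μ = volume.restrict E`, which is finite; the derivative is
`deriv (FG T) (z + u I) * sg (...)`, bounded on the compact set; a.e. statements on `volume.restrict E` by
`ae_restrict_of_forall_mem hE`; `Cx.line_cont'` gives the continuity in `u`). -/
theorem Pg_diff {T σ : ℝ} (hσ : σ < 1) {E : Set ℝ} (hE : MeasurableSet E) (hET : E ⊆ Icc T (2 * T)) :
    DifferentiableOn ℂ (Pg T σ E) {s : ℂ | s.re < 1} := by
  intro z0 hz0
  have hz0' : z0.re < 1 := hz0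
  apply DifferentiableAt.differentiableWithinAt
  have ho : IsOpen {s : ℂ | s.re < 1} := isOpen_lt Complex.continuous_re continuous_const
  obtain ⟨r, hr⟩ : ∃ r, r = (1 - z0.re) / 2 := ⟨_, rfl⟩
  have hr0 : 0 < r := by rw [hr]; linarith
  have hball : ∀ z ∈ Metric.closedBall z0 r, z.re < 1 := by
    intro z hz
    rw [Metric.mem_closedBall, dist_eq_norm] at hz
    have h1 := abs_re_le_norm (z - z0)
    rw [Complex.sub_re] at h1
    have h2 := le_abs_self (z.re - z0.re)
    rw [hr] at hz
    linarith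
  have hd : ContinuousOn (deriv (FG T)) {s : ℂ | s.re < 1} := ((FG_diff T).deriv ho).continuousOn
  have hh : Measurable (fun u : ℝ => sg (FG T (σ + u * I))) :=
    sg_meas.comp (Cx.line_cont (FG_diff T) hσ).measurable
  have hfin : IsFiniteMeasure (volume.restrict E) := by
    refine ⟨?_⟩
    rw [Measure.restrict_apply_univ]
    exact (measure_mono hET).trans_lt measure_Icc_lt_top
  -- bound on the compact set
  have hK : IsCompact ((fun p : ℂ × ℝ => p.1 + p.2 * I) '' (Metric.closedBall z0 r ×ˢ Icc T (2 * T))) := by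
    apply IsCompact.image
    · exact (isCompact_closedBall z0 r).prod isCompact_Icc
    · fun_prop
  have hKsub : ((fun p : ℂ × ℝ => p.1 + p.2 * I) '' (Metric.closedBall z0 r ×ˢ Icc T (2 * T))) ⊆
      {s : ℂ | s.re < 1} := by
    rintro _ ⟨p, hp, rfl⟩
    have := hball p.1 hp.1
    simpa using this
  obtain ⟨D, hD⟩ := hK.exists_bound_of_continuousOn (hd.mono hKsub)
  obtain ⟨D', hD'⟩ := hK.exists_bound_of_continuousOn ((FG_diff T).continuousOn.mono hKsub)
  have hDn : ∀ u ∈ E, 0 ≤ D := fun u hu => (norm_nonneg _).trans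
    (hD _ ⟨(z0, u), ⟨Metric.mem_closedBall_self hr0.le, hET hu⟩, rfl⟩)
  have hmeas : ∀ z : ℂ, z.re < 1 → AEStronglyMeasurable
      (fun u : ℝ => FG T (z + u * I) * sg (FG T (σ + u * I))) (volume.restrict E) := fun z hz =>
    ((Cx.line_cont' (FG_diff T).continuousOn hz).measurable.mul hh).aestronglyMeasurable
  have hres := hasDerivAt_integral_of_dominated_loc_of_deriv_le (μ := volume.restrict E)
    (F := fun z u => FG T (z + u * I) * sg (FG T (σ + u * I)))
    (F' := fun z u => deriv (FG T) (z + u * I) * sg (FG T (σ + u * I)))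
    (x₀ := z0) (s := Metric.closedBall z0 r) (bound := fun _ => D)
    (Metric.closedBall_mem_nhds z0 hr0)
    (by
      filter_upwards [Metric.closedBall_mem_nhds z0 hr0] with z hz
      exact hmeas z (hball z hz))
    (by
      refine Integrable.of_bound (hmeas z0 hz0') D' (ae_restrict_of_forall_mem hE fun u hu => ?_)
      rw [norm_mul]
      have h1 := hD' _ ⟨(z0, u), ⟨Metric.mem_closedBall_self hr0.le, hET hu⟩, rfl⟩
      exact (mul_le_of_le_one_right (norm_nonneg _) (sg_le _)).trans h1)
    ((Cx.line_cont' hd hz0').measurable.mul hh).aestronglyMeasurable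
    (by
      refine ae_restrict_of_forall_mem hE fun u hu z hz => ?_
      rw [norm_mul]
      exact (mul_le_of_le_one_right (norm_nonneg _) (sg_le _)).trans (hD _ ⟨(z, u), ⟨hz, hET hu⟩, rfl⟩))
    (integrable_const _)
    (by
      refine ae_of_all _ fun u z hz => ?_
      have h1 : (z + u * I) ∈ {s : ℂ | s.re < 1} := by
        have := hball z hz
        simpa using this
      have h2 : HasDerivAt (FG T) (deriv (FG T) (z + u * I)) (z + u * I) :=
        ((FG_diff T).differentiableAt (ho.mem_nhds h1)).hasDerivAt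
      exact (h2.comp_add_const z (u * I)).mul_const _)
  exact hres.2.differentiableAt

/-- part 5. PROOF: `Pg T σ E σ = ∫_E FG * sg FG = ∫_E ‖FG‖` by `mul_sg` and `integral_ofReal`. -/
theorem Pg_self (T σ : ℝ) (E : Set ℝ) : Pg T σ E (σ : ℂ) = ((∫ u in E, ‖FG T (σ + u * I)‖ : ℝ) : ℂ) := by
  unfold Pg
  simp only [mul_sg]
  exact integral_ofReal

/-- part 6. PROOF: `FG_decay` (at `s1`, `z.re ≤ s1`), `sg_le`; a constant bound on a set of measure `≤ T`
(`norm_setIntegral_le_of_norm_le_const`). -/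
theorem Pg_bdd {T σ s0 s1 : ℝ} (hT : 1 ≤ T) (h0 : 1 / 2 ≤ s0) (h1 : s1 < 1) {E : Set ℝ}
    (hE : MeasurableSet E) (hET : E ⊆ Icc T (2 * T)) : ∃ B : ℝ, ∀ z : ℂ, s0 ≤ z.re → z.re ≤ s1 →
    ‖Pg T σ E z‖ ≤ B := by
  obtain ⟨B, hB, H⟩ := FG_decay h1 hT
  refine ⟨B * volume.real E, fun z hz0 hz1 => ?_⟩
  unfold Pg
  refine norm_setIntegral_le_of_norm_le_const ((measure_mono hET).trans_lt measure_Icc_lt_top) fun u _ => ?_
  rw [norm_mul]
  refine (mul_le_of_le_one_right (norm_nonneg _) (sg_le _)).trans ?_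
  have e1 : z + u * I = (z.re : ℂ) + ((z.im + u : ℝ) : ℂ) * I := by
    apply Complex.ext <;> simp
  rw [e1]
  refine (H z.re (z.im + u) (h0.trans hz0) hz1).trans ?_
  refine mul_le_of_le_one_right hB.le (inv_le_one_of_one_le₀ ?_)
  have := sq_nonneg ((z.im + u - 3 * T / 2) / T)
  linarith

end OL
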