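import Pool.Agent.Lib.MP_39df77_nt.OL.K3a

/-! # the duality integral: Hoelder -/

set_option autoImplicit false

open Complex MeasureTheory Set Filter Topology
open scoped ComplexConjugate

namespace OL

/-- Row `k-3b`. PROOF: `‖Pg T σ E z‖ ≤ ∫_E ‖FG T (z + u I)‖ du` (`norm_integral_le_integral_norm`, `sg_le`). Hoelder on
`volume.restrict E` with the exponents `A`, `A/(A-1)` and the function `1` (`MeasureTheory.integral_mul_le_Lp_mul_Lq_of_nonneg`,
`Real.HolderConjugate`): `≤ (∫_E ‖FG T (z + u I)‖^A)^(1/A) * (volume.real E)^(1 - 1/A)`, and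
`∫_E ‖FG T (z + u I)‖^A ≤ ∫_ℝ ‖FG T (s + (z.im + u) I)‖^A du = ∫_ℝ ‖FG T (s + t I)‖^A dt ≤ M`
(`setIntegral_le_integral`, `integral_add_left_eq_self`). For the membership in `L^A` on `E`: `u ↦ FG T (z + u I)` is continuous
(`Cx.line_cont'`) and bounded on `Icc T (2T)`, the measure is finite. -/
theorem Pg_holder {T σ s A M : ℝ} (hT : 1 ≤ T) (hs1 : s < 1) (hA : 1 < A)
    (hi : Integrable fun t : ℝ => ‖FG T (s + t * I)‖ ^ A) (h : ∫ t : ℝ, ‖FG T (s + t * I)‖ ^ A ≤ M)
    {E : Set ℝ} (hE : MeasurableSet E) (hET : E ⊆ Icc T (2 * T)) (z : ℂ) (hz : z.re = s) :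
    ‖Pg T σ E z‖ ≤ M ^ (1 / A) * volume.real E ^ (1 - 1 / A) := by
  have hA0 : 0 < A := by linarith
  have hfin : volume E < ⊤ := lt_of_le_of_lt (measure_mono hET) (by simp)
  have : IsFiniteMeasure (volume.restrict E) := ⟨by simpa using hfin⟩
  have hzr : z.re < 1 := by rw [hz]; exact hs1
  have c1 : Continuous (fun u : ℝ => FG T (z + u * I)) := Cx.line_cont' (FG_diff T).continuousOn hzr
  obtain ⟨B, hB⟩ : ∃ B, ∀ u ∈ Icc T (2 * T), ‖FG T (z + u * I)‖ ≤ B :=
    isCompact_Icc.exists_bound_of_continuousOn c1.continuousOn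
  have hBae : ∀ᵐ u : ℝ ∂(volume.restrict E), ‖‖FG T (z + u * I)‖‖ ≤ B :=
    ae_restrict_of_forall_mem hE (fun u hu => by rw [norm_norm]; exact hB u (hET hu))
  have m1 : MemLp (fun u : ℝ => ‖FG T (z + u * I)‖) (ENNReal.ofReal A) (volume.restrict E) :=
    MemLp.of_bound c1.norm.aestronglyMeasurable B hBae
  have m2 : MemLp (fun _ : ℝ => (1 : ℝ)) (ENNReal.ofReal (A / (A - 1))) (volume.restrict E) := memLp_const 1
  have hq : A.HolderConjugate (A / (A - 1)) := Real.HolderConjugate.conjExponent hA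
  have i1 : Integrable (fun u : ℝ => ‖FG T (z + u * I)‖ * 1) (volume.restrict E) := by
    simp only [mul_one]
    exact Integrable.of_bound c1.norm.aestronglyMeasurable B hBae
  have h1 : ‖Pg T σ E z‖ ≤ ∫ u in E, ‖FG T (z + u * I)‖ * 1 := by
    unfold Pg
    refine le_trans (norm_integral_le_integral_norm _) ?_
    refine integral_mono_of_nonneg (ae_of_all _ fun _ => norm_nonneg _) i1 (ae_of_all _ fun u => ?_)
    simp only [norm_mul]
    exact mul_le_mul_of_nonneg_left (sg_le _) (norm_nonneg _)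
  have h2 := integral_mul_le_Lp_mul_Lq_of_nonneg hq (ae_of_all _ fun u : ℝ => norm_nonneg (FG T (z + u * I)))
    (ae_of_all _ fun _ => zero_le_one) m1 m2
  have h3 : ∫ u in E, ‖FG T (z + u * I)‖ ^ A ≤ M := by
    refine le_trans ?_ h
    have e1 : ∀ u : ℝ, ‖FG T (z + u * I)‖ ^ A = (fun t : ℝ => ‖FG T (s + t * I)‖ ^ A) (z.im + u) := by
      intro u
      simp only
      congr 3
      apply Complex.ext <;> simp [hz]
    simp_rw [e1]
    refine le_trans (setIntegral_le_integral (hi.comp_add_left z.im) (ae_of_all _ fun t => ?_)) (le_of_eq ?_)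
    · exact Real.rpow_nonneg (norm_nonneg _) _
    · exact integral_add_left_eq_self (fun t : ℝ => ‖FG T (s + t * I)‖ ^ A) z.im
  have h4 : ∫ _u in E, (1 : ℝ) ^ (A / (A - 1)) = volume.real E := by simp
  have h5 : 1 / (A / (A - 1)) = 1 - 1 / A := by
    have : A - 1 ≠ 0 := by linarith
    field_simp
  rw [h4, h5] at h2
  refine le_trans h1 (le_trans h2 ?_)
  refine mul_le_mul_of_nonneg_right (Real.rpow_le_rpow ?_ h3 (by positivity)) (Real.rpow_nonneg measureReal_nonneg _)
  exact integral_nonneg fun u => Real.rpow_nonneg (norm_nonneg _) _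

end OL
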