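import Pool.Agent.Lib.MP_39df77_nt.OL.K3b

/-! # the duality integral: three lines -/

set_option autoImplicit false

open Complex MeasureTheory Set Filter Topology
open scoped ComplexConjugate

namespace OL

/-- Row `k-3c`. PROOF: `Pg_self` at `σ = (1-θ) s0 + θ s1`, `Pg_holder` on the two lines, `Pg_diff`, `Pg_bdd` and
`HadamardThreeLines.norm_le_interp_of_mem_verticalClosedStrip'` exactly as at the end of `OL.convex6` in `OL/F1.lean`. -/
theorem Pg_three {s0 s1 θ A0 A1 T M0 M1 : ℝ} (hs0 : 1 / 2 ≤ s0) (hs01 : s0 < s1) (hs1 : s1 < 1)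
    (hθ0 : 0 ≤ θ) (hθ1 : θ ≤ 1) (hA0 : 1 < A0) (hA1 : 1 < A1) (hT : 1 ≤ T)
    (i0 : Integrable fun t : ℝ => ‖FG T (s0 + t * I)‖ ^ A0)
    (h0 : ∫ t : ℝ, ‖FG T (s0 + t * I)‖ ^ A0 ≤ M0)
    (i1 : Integrable fun t : ℝ => ‖FG T (s1 + t * I)‖ ^ A1)
    (h1 : ∫ t : ℝ, ‖FG T (s1 + t * I)‖ ^ A1 ≤ M1)
    {E : Set ℝ} (hE : MeasurableSet E) (hET : E ⊆ Icc T (2 * T)) :
    ∫ u in E, ‖FG T (((1 - θ) * s0 + θ * s1 : ℝ) + u * I)‖ ≤
      (M0 ^ (1 / A0) * volume.real E ^ (1 - 1 / A0)) ^ (1 - θ) *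
      (M1 ^ (1 / A1) * volume.real E ^ (1 - 1 / A1)) ^ θ := by
  obtain ⟨σ, hσdef⟩ : ∃ σ, σ = (1 - θ) * s0 + θ * s1 := ⟨_, rfl⟩
  have hσ0 : s0 ≤ σ := by rw [hσdef]; nlinarith
  have hσ1 : σ ≤ s1 := by rw [hσdef]; nlinarith
  have hσlt : σ < 1 := by linarith
  rw [← hσdef]
  have hbdd : BddAbove ((norm ∘ Pg T σ E) '' HadamardThreeLines.verticalClosedStrip s0 s1) := by
    obtain ⟨B, hB⟩ := Pg_bdd (σ := σ) hT hs0 hs1 hE hET
    refine ⟨B, ?_⟩
    rintro _ ⟨z, hz, rfl⟩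
    have hz' : z.re ∈ Set.Icc s0 s1 := hz
    exact hB z hz'.1 hz'.2
  have hdc : DiffContOnCl ℂ (Pg T σ E) (HadamardThreeLines.verticalStrip s0 s1) := by
    apply DifferentiableOn.diffContOnCl
    refine (Pg_diff hσlt hE hET).mono ?_
    intro z hz
    have hcl : closure (HadamardThreeLines.verticalStrip s0 s1) ⊆ HadamardThreeLines.verticalClosedStrip s0 s1 := by
      apply closure_minimal
      · intro w hw
        exact ⟨le_of_lt (show w.re ∈ Set.Ioo s0 s1 from hw).1, le_of_lt (show w.re ∈ Set.Ioo s0 s1 from hw).2⟩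
      · exact isClosed_Icc.preimage Complex.continuous_re
    have := (show z.re ∈ Set.Icc s0 s1 from hcl hz).2
    show z.re < 1
    linarith
  have hthree := HadamardThreeLines.norm_le_interp_of_mem_verticalClosedStrip' (f := Pg T σ E) (z := (σ : ℂ)) hs01
    (show (σ : ℂ).re ∈ Set.Icc s0 s1 by rw [Complex.ofReal_re]; exact ⟨hσ0, hσ1⟩) hdc hbdd
    (fun z hz => Pg_holder hT (by linarith) hA0 i0 h0 hE hET z hz)
    (fun z hz => Pg_holder hT hs1 hA1 i1 h1 hE hET z hz)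
  have hθeq : ((σ : ℂ).re - s0) / (s1 - s0) = θ := by
    rw [Complex.ofReal_re, hσdef, div_eq_iff (by linarith)]; ring
  rw [hθeq] at hthree
  have hval : ‖Pg T σ E (σ : ℂ)‖ = ∫ u in E, ‖FG T (σ + u * I)‖ := by
    rw [Pg_self, Complex.norm_real, Real.norm_of_nonneg (integral_nonneg fun _ => norm_nonneg _)]
  rw [hval] at hthree
  exact hthree

end OL
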