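import Pool.Agent.Lib.MP_39df77_nt.OL.K0

/-! # from level sets to moments -/

set_option autoImplicit false

open Complex MeasureTheory Set Filter Topology
open scoped ComplexConjugate

namespace OL

lemma k4_point {A : ℝ} (hA : 0 < A) (N : ℕ) : ∀ x : ℝ, 0 ≤ x → x < 2 ^ N →
    x ^ A ≤ 1 + ∑ k ∈ Finset.range N, 2 ^ A * ((2 : ℝ) ^ k) ^ A * (Set.Ici ((2 : ℝ) ^ k)).indicator (fun _ => (1 : ℝ)) x := by
  induction N with
  | zero =>
    intro x hx hx1
    simp only [pow_zero] at hx1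
    simp only [Finset.range_zero, Finset.sum_empty, add_zero]
    exact Real.rpow_le_one hx hx1.le hA.le
  | succ N ih =>
    intro x hx hx1
    rw [Finset.sum_range_succ]
    by_cases hc : x < 2 ^ N
    · have h1 := ih x hx hc
      have h2 : 0 ≤ 2 ^ A * ((2 : ℝ) ^ N) ^ A * (Set.Ici ((2 : ℝ) ^ N)).indicator (fun _ => (1 : ℝ)) x := by
        apply mul_nonneg (by positivity)
        exact Set.indicator_nonneg (fun _ _ => zero_le_one) _
      linarith
    · push Not at hc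
      have h3 : (Set.Ici ((2 : ℝ) ^ N)).indicator (fun _ => (1 : ℝ)) x = 1 :=
        Set.indicator_of_mem (by exact hc) _
      rw [h3, mul_one]
      have h4 : x ^ A ≤ 2 ^ A * ((2 : ℝ) ^ N) ^ A := by
        calc x ^ A ≤ ((2 : ℝ) ^ (N + 1)) ^ A := Real.rpow_le_rpow hx hx1.le hA.le
          _ = 2 ^ A * ((2 : ℝ) ^ N) ^ A := by
            rw [pow_succ, Real.mul_rpow (by positivity) (by norm_num), mul_comm]
      have h5 : 0 ≤ ∑ k ∈ Finset.range N, 2 ^ A * ((2 : ℝ) ^ k) ^ A *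
          (Set.Ici ((2 : ℝ) ^ k)).indicator (fun _ => (1 : ℝ)) x := by
        apply Finset.sum_nonneg
        intro k _
        apply mul_nonneg (by positivity)
        exact Set.indicator_nonneg (fun _ _ => zero_le_one) _
      linarith

/-- the integral of the indicator of a level set over a dyadic interval -/
lemma k4_ind {x : ℝ → ℝ} (hx : Continuous x) {T V : ℝ} (hT : 1 ≤ T) :
    IntervalIntegrable (fun t => (Set.Ici V).indicator (fun _ => (1 : ℝ)) (x t)) volume T (2 * T) ∧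
    ∫ t in T..(2 * T), (Set.Ici V).indicator (fun _ => (1 : ℝ)) (x t) ≤
      volume.real {t : ℝ | t ∈ Icc T (2 * T) ∧ V ≤ x t} := by
  have hTT : T ≤ 2 * T := by linarith
  have e : (fun t => (Set.Ici V).indicator (fun _ => (1 : ℝ)) (x t)) =
      (x ⁻¹' (Set.Ici V)).indicator (fun _ => (1 : ℝ)) := by
    funext t
    rfl
  have hm : MeasurableSet (x ⁻¹' (Set.Ici V)) := hx.measurable measurableSet_Ici
  rw [e]
  constructor
  · rw [intervalIntegrable_iff_integrableOn_Ioc_of_le hTT]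
    have h1 : IntegrableOn (fun _ : ℝ => (1 : ℝ)) (Ioc T (2 * T)) volume :=
      integrableOn_const (by simp)
    exact h1.indicator hm
  · rw [intervalIntegral.integral_of_le hTT, integral_indicator hm, Measure.restrict_restrict hm]
    rw [setIntegral_const, smul_eq_mul, mul_one]
    apply measureReal_mono
    · rintro t ⟨h1, h2⟩
      exact ⟨Ioc_subset_Icc_self h2, h1⟩
    · apply ne_of_lt
      refine lt_of_le_of_lt (measure_mono (t := Icc T (2 * T)) fun t ht => ht.1) ?_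
      rw [Real.volume_Icc]
      exact ENNReal.ofReal_lt_top

/-- the number of dyadic levels -/
lemma k4_N {K e : ℝ} (hK : 1 ≤ K) (he : 0 < e) : ∃ C : ℝ, 0 ≤ C ∧ ∀ T : ℝ, 1 ≤ T → ∃ N : ℕ,
    K * (1 + 2 * T) < 2 ^ N ∧ (N : ℝ) ≤ C * T ^ e := by
  have hl : 0 < Real.log 2 := Real.log_pos (by norm_num)
  refine ⟨(3 * K) ^ e / e / Real.log 2 + 1, by positivity, ?_⟩
  intro T hT
  have hy : 1 ≤ K * (1 + 2 * T) := by nlinarith
  obtain ⟨n, hn1, hn2⟩ := exists_nat_pow_near hy (by norm_num : (1 : ℝ) < 2)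
  refine ⟨n + 1, hn2, ?_⟩
  have h1 : (n : ℝ) * Real.log 2 ≤ Real.log (K * (1 + 2 * T)) := by
    rw [← Real.log_pow]
    exact Real.log_le_log (by positivity) hn1
  have h2 : Real.log (K * (1 + 2 * T)) ≤ (K * (1 + 2 * T)) ^ e / e :=
    Real.log_le_rpow_div (by linarith) he
  have h3 : (K * (1 + 2 * T)) ^ e ≤ (3 * K) ^ e * T ^ e := by
    rw [← Real.mul_rpow (by linarith) (by linarith)]
    apply Real.rpow_le_rpow (by linarith) _ he.le
    nlinarith
  have h4 : (n : ℝ) * Real.log 2 ≤ (3 * K) ^ e * T ^ e / e := by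
    refine h1.trans (h2.trans ?_)
    gcongr
  have h5 : (n : ℝ) ≤ (3 * K) ^ e * T ^ e / e / Real.log 2 := by
    rw [le_div_iff₀ hl]
    exact h4
  have h6 : 1 ≤ T ^ e := Real.one_le_rpow hT he.le
  push_cast
  calc (n : ℝ) + 1 ≤ (3 * K) ^ e * T ^ e / e / Real.log 2 + T ^ e := add_le_add h5 h6
    _ = ((3 * K) ^ e / e / Real.log 2 + 1) * T ^ e := by ring

/-- Row `k-4`. PROOF: let `x t = ‖ζ(σ+it)‖`, continuous (`zeta_cont`), `x t ≤ K (1+|t|)` (`Cx.zeta_le`). For `0 ≤ x < 2^N`: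
`x^A ≤ 1 + ∑_{k<N} 2^((k+1)A) * 1[2^k ≤ x]`. Integrate over `[T, 2T]`: `∫_T^{2T} x^A ≤ T + ∑_{k<N} 2^A * (2^k)^A * vol{t ∈ Icc T (2T) | 2^k ≤ x t}
≤ T + N * 2^A * C * T^(1+e)`, where `2^N > K(1+2T)` with `N ≤ C' T^e` (`N = ⌊log₂(K(1+2T))⌋ + 1`; `log y ≤ y^e/e`). Use `h` with `e/2`
(and `N ≤ C' T^(e/2)`). Then go from dyadic intervals to `[0,T]` by `OL.Cx.from_zero`. -/
theorem K4_level {σ A : ℝ} (h0 : 1 / 2 ≤ σ) (h1 : σ < 1) (hA : 0 < A)
    (h : ∀ e : ℝ, 0 < e → ∃ C : ℝ, ∀ T : ℝ, 1 ≤ T → ∀ V : ℝ, 1 ≤ V →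
      V ^ A * volume.real {t : ℝ | t ∈ Icc T (2 * T) ∧ V ≤ ‖riemannZeta (σ + t * I)‖} ≤ C * T ^ (1 + e)) :
    MB σ A := by
  intro e he
  obtain ⟨C0, hC0⟩ := h (e / 2) (by linarith)
  obtain ⟨K, hK1, hK⟩ := Cx.zeta_le h1
  obtain ⟨C1, hC10, hN⟩ := k4_N hK1 (by linarith : 0 < e / 2)
  have hz : Continuous fun t : ℝ => ‖riemannZeta (σ + t * I)‖ := (zeta_cont h1).norm
  have hzA : Continuous fun t : ℝ => ‖riemannZeta (σ + t * I)‖ ^ A :=
    hz.rpow_const fun t => Or.inr hA.le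
  obtain ⟨C, hC, hCC⟩ : ∃ C : ℝ, 0 ≤ C ∧ C0 ≤ C := ⟨max C0 0, le_max_right _ _, le_max_left _ _⟩
  have key : ∀ T : ℝ, 1 ≤ T → ∫ t in T..(2 * T), ‖riemannZeta (σ + t * I)‖ ^ A ≤
      (1 + C1 * (2 ^ A * C)) * T ^ (1 + e) := by
    intro T hT
    have hT0 : 0 < T := by linarith
    have hTT : T ≤ 2 * T := by linarith
    obtain ⟨N, hN1, hN2⟩ := hN T hT
    have hint : ∀ k ∈ Finset.range N, IntervalIntegrable (fun t : ℝ => 2 ^ A * ((2 : ℝ) ^ k) ^ A *
        (Set.Ici ((2 : ℝ) ^ k)).indicator (fun _ => (1 : ℝ)) ‖riemannZeta (σ + t * I)‖) volume T (2 * T) :=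
      fun k _ => (k4_ind hz hT).1.const_mul _
    have hsum : IntervalIntegrable (fun t : ℝ => ∑ k ∈ Finset.range N, 2 ^ A * ((2 : ℝ) ^ k) ^ A *
        (Set.Ici ((2 : ℝ) ^ k)).indicator (fun _ => (1 : ℝ)) ‖riemannZeta (σ + t * I)‖) volume T (2 * T) := by
      have h7 := IntervalIntegrable.sum (Finset.range N) hint
      have h8 : (fun t : ℝ => ∑ k ∈ Finset.range N, 2 ^ A * ((2 : ℝ) ^ k) ^ A *
          (Set.Ici ((2 : ℝ) ^ k)).indicator (fun _ => (1 : ℝ)) ‖riemannZeta (σ + t * I)‖) =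
          ∑ k ∈ Finset.range N, fun t : ℝ => 2 ^ A * ((2 : ℝ) ^ k) ^ A *
          (Set.Ici ((2 : ℝ) ^ k)).indicator (fun _ => (1 : ℝ)) ‖riemannZeta (σ + t * I)‖ := by
        funext t
        rw [Finset.sum_apply]
      rw [h8]
      exact h7
    have h1' : ∫ t in T..(2 * T), ‖riemannZeta (σ + t * I)‖ ^ A ≤
        ∫ t in T..(2 * T), (1 + ∑ k ∈ Finset.range N, 2 ^ A * ((2 : ℝ) ^ k) ^ A *
        (Set.Ici ((2 : ℝ) ^ k)).indicator (fun _ => (1 : ℝ)) ‖riemannZeta (σ + t * I)‖) := by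
      apply intervalIntegral.integral_mono_on hTT (hzA.intervalIntegrable _ _)
        (intervalIntegrable_const.add hsum)
      intro t ht
      apply k4_point hA N _ (norm_nonneg _)
      refine lt_of_le_of_lt (hK σ t h0 le_rfl) (lt_of_le_of_lt ?_ hN1)
      apply mul_le_mul_of_nonneg_left _ (by linarith)
      rw [abs_of_nonneg (by linarith [ht.1])]
      linarith [ht.2]
    rw [intervalIntegral.integral_add intervalIntegrable_const hsum,
      intervalIntegral.integral_finsetSum hint] at h1'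
    have h2' : ∀ k ∈ Finset.range N, ∫ t in T..(2 * T), 2 ^ A * ((2 : ℝ) ^ k) ^ A *
        (Set.Ici ((2 : ℝ) ^ k)).indicator (fun _ => (1 : ℝ)) ‖riemannZeta (σ + t * I)‖ ≤
        2 ^ A * C * T ^ (1 + e / 2) := by
      intro k _
      rw [intervalIntegral.integral_const_mul]
      have h3 := (k4_ind (V := (2 : ℝ) ^ k) hz hT).2
      have h4 := hC0 T hT ((2 : ℝ) ^ k) (one_le_pow₀ (by norm_num))
      calc 2 ^ A * ((2 : ℝ) ^ k) ^ A * ∫ t in T..(2 * T),
            (Set.Ici ((2 : ℝ) ^ k)).indicator (fun _ => (1 : ℝ)) ‖riemannZeta (σ + t * I)‖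
          ≤ 2 ^ A * ((2 : ℝ) ^ k) ^ A *
            volume.real {t : ℝ | t ∈ Icc T (2 * T) ∧ (2 : ℝ) ^ k ≤ ‖riemannZeta (σ + t * I)‖} :=
            mul_le_mul_of_nonneg_left h3 (by positivity)
        _ = 2 ^ A * (((2 : ℝ) ^ k) ^ A *
            volume.real {t : ℝ | t ∈ Icc T (2 * T) ∧ (2 : ℝ) ^ k ≤ ‖riemannZeta (σ + t * I)‖}) := by ring
        _ ≤ 2 ^ A * (C0 * T ^ (1 + e / 2)) := mul_le_mul_of_nonneg_left h4 (by positivity)
        _ ≤ 2 ^ A * (C * T ^ (1 + e / 2)) := by gcongr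
        _ = _ := by ring
    have h3' := Finset.sum_le_sum h2'
    rw [Finset.sum_const, Finset.card_range, nsmul_eq_mul] at h3'
    have h4' : ∫ t in T..(2 * T), (1 : ℝ) = T := by
      rw [intervalIntegral.integral_const, smul_eq_mul, mul_one]
      ring
    rw [h4'] at h1'
    have h5' : T ≤ T ^ (1 + e) := by
      calc T = T ^ (1 : ℝ) := (Real.rpow_one T).symm
        _ ≤ T ^ (1 + e) := Real.rpow_le_rpow_of_exponent_le hT (by linarith)
    have h6' : T ^ (e / 2) * T ^ (1 + e / 2) = T ^ (1 + e) := by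
      rw [← Real.rpow_add hT0]
      congr 1
      ring
    calc ∫ t in T..(2 * T), ‖riemannZeta (σ + t * I)‖ ^ A
        ≤ T + N * (2 ^ A * C * T ^ (1 + e / 2)) := h1'.trans (add_le_add le_rfl h3')
      _ ≤ T ^ (1 + e) + C1 * T ^ (e / 2) * (2 ^ A * C * T ^ (1 + e / 2)) :=
          add_le_add h5' (mul_le_mul_of_nonneg_right hN2 (by positivity))
      _ = T ^ (1 + e) + C1 * (2 ^ A * C) * (T ^ (e / 2) * T ^ (1 + e / 2)) := by ring
      _ = (1 + C1 * (2 ^ A * C)) * T ^ (1 + e) := by rw [h6']; ring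
  obtain ⟨C2, _, hC2⟩ := Cx.from_zero hzA (fun t => Real.rpow_nonneg (norm_nonneg _) _)
    (by linarith : (1 : ℝ) ≤ 1 + e) (by positivity) key
  exact ⟨C2, hC2⟩

end OL
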