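import Pool.Agent.Lib.MP_39df77_nt.OL.K2
import Pool.Agent.Lib.MP_39df77_nt.OL.K3c
import Pool.Agent.Lib.MP_39df77_nt.OL.K4
import Pool.Agent.Lib.MP_39df77_nt.OL.E7

/-! # Convexity of the moments in the line and in the order -/

set_option autoImplicit false

open Complex MeasureTheory Set Filter Topology
open scoped ComplexConjugate

namespace OL

/-- algebra: from the three lines bound to the level set bound -/
lemma k5_alg {A A0 A1 θ V v M0 M1 : ℝ} (hA : 0 < A) (hV : 0 ≤ V) (hv : 0 ≤ v)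
    (hM0 : 0 ≤ M0) (hM1 : 0 ≤ M1) (hAe : 1 / A = (1 - θ) / A0 + θ / A1)
    (h : V * v ≤ (M0 ^ (1 / A0) * v ^ (1 - 1 / A0)) ^ (1 - θ) * (M1 ^ (1 / A1) * v ^ (1 - 1 / A1)) ^ θ) :
    V ^ A * v ≤ (M0 ^ ((1 - θ) / A0) * M1 ^ (θ / A1)) ^ A := by
  rcases hv.eq_or_lt with h0 | h0
  · rw [← h0, mul_zero]
    positivity
  have e1 : (M0 ^ (1 / A0) * v ^ (1 - 1 / A0)) ^ (1 - θ) * (M1 ^ (1 / A1) * v ^ (1 - 1 / A1)) ^ θ =
      (M0 ^ ((1 - θ) / A0) * M1 ^ (θ / A1)) * v ^ (1 - 1 / A) := by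
    rw [Real.mul_rpow (by positivity) (by positivity), Real.mul_rpow (by positivity) (by positivity),
      ← Real.rpow_mul hM0, ← Real.rpow_mul hM1, ← Real.rpow_mul hv, ← Real.rpow_mul hv]
    have e2 : v ^ (1 - 1 / A) = v ^ ((1 - 1 / A0) * (1 - θ)) * v ^ ((1 - 1 / A1) * θ) := by
      rw [← Real.rpow_add h0]
      congr 1
      rw [hAe]
      ring
    rw [e2, show 1 / A0 * (1 - θ) = (1 - θ) / A0 by ring, show 1 / A1 * θ = θ / A1 by ring]
    ring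
  rw [e1] at h
  have e3 : v ^ (1 - 1 / A) = v * v ^ (-(1 / A)) := by
    rw [sub_eq_add_neg, Real.rpow_add h0, Real.rpow_one]
  rw [e3] at h
  have h2 : V ≤ (M0 ^ ((1 - θ) / A0) * M1 ^ (θ / A1)) * v ^ (-(1 / A)) := by
    have h3 : v * V ≤ v * ((M0 ^ ((1 - θ) / A0) * M1 ^ (θ / A1)) * v ^ (-(1 / A))) := by
      linarith
    exact le_of_mul_le_mul_left h3 h0
  have h4 := Real.rpow_le_rpow hV h2 hA.le
  rw [Real.mul_rpow (by positivity) (by positivity), ← Real.rpow_mul hv] at h4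
  have e5 : -(1 / A) * A = -1 := by field_simp
  rw [e5, Real.rpow_neg_one] at h4
  calc V ^ A * v ≤ ((M0 ^ ((1 - θ) / A0) * M1 ^ (θ / A1)) ^ A * v⁻¹) * v :=
        mul_le_mul_of_nonneg_right h4 hv
    _ = _ := by rw [mul_assoc, inv_mul_cancel₀ h0.ne', mul_one]

/-- **convexity in the line and in the order** -/
theorem convexP {s0 s1 θ A0 A1 A : ℝ} (hs0 : 1 / 2 ≤ s0) (hs01 : s0 < s1) (hs1 : s1 < 1) (hθ0 : 0 ≤ θ)
    (hθ1 : θ ≤ 1) (hA0 : 1 < A0) (hA1 : 1 < A1) (hA : 0 < A) (hAe : 1 / A = (1 - θ) / A0 + θ / A1)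
    (h0 : MB s0 A0) (h1 : MB s1 A1) : MB ((1 - θ) * s0 + θ * s1) A := by
  obtain ⟨σ, hσ⟩ : ∃ σ, σ = (1 - θ) * s0 + θ * s1 := ⟨_, rfl⟩
  have hσ0 : s0 ≤ σ := by rw [hσ]; nlinarith
  have hσ1 : σ ≤ s1 := by rw [hσ]; nlinarith
  rw [← hσ]
  refine K4_level (by linarith) (by linarith) hA fun e he => ?_
  obtain ⟨C0, hC0, H0⟩ := FG_Lp hs0 (by linarith) hA0.le h0 he
  obtain ⟨C1, hC1, H1⟩ := FG_Lp (by linarith) hs1 hA1.le h1 he
  refine ⟨(Real.exp (1 / 4) * (C0 ^ ((1 - θ) / A0) * C1 ^ (θ / A1))) ^ A, fun T hT V hV => ?_⟩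
  have hT0 : 0 < T := by linarith
  obtain ⟨i0, b0⟩ := H0 T hT
  obtain ⟨i1, b1⟩ := H1 T hT
  obtain ⟨E, hE⟩ : ∃ E, E = {t : ℝ | t ∈ Icc T (2 * T) ∧ V ≤ ‖riemannZeta (σ + t * I)‖} := ⟨_, rfl⟩
  rw [← hE]
  have hcz : Continuous fun t : ℝ => ‖riemannZeta (σ + t * I)‖ := (zeta_cont (by linarith)).norm
  have hEm : MeasurableSet E := by
    rw [hE]
    exact (isClosed_Icc.inter (isClosed_le continuous_const hcz)).measurableSet
  have hET : E ⊆ Icc T (2 * T) := by rw [hE]; exact fun t ht => ht.1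
  have h3 := Pg_three hs0 hs01 hs1 hθ0 hθ1 hA0 hA1 hT i0 b0 i1 b1 hEm hET
  rw [← hσ] at h3
  obtain ⟨v, hv⟩ : ∃ v, v = volume.real E := ⟨_, rfl⟩
  rw [← hv] at h3 ⊢
  have hv0 : 0 ≤ v := by rw [hv]; exact measureReal_nonneg
  have hfin : volume E ≠ ⊤ := ((measure_mono hET).trans_lt (by rw [Real.volume_Icc]; exact ENNReal.ofReal_lt_top)).ne
  -- lower bound of the integral
  have hlow : V * Real.exp (-(1 / 4)) * v ≤ ∫ u in E, ‖FG T (σ + u * I)‖ := by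
    have hcF : ContinuousOn (fun u : ℝ => ‖FG T (σ + u * I)‖) (Icc T (2 * T)) :=
      (Cx.line_cont (FG_diff T) (by linarith)).norm.continuousOn
    have hi : IntegrableOn (fun u : ℝ => ‖FG T (σ + u * I)‖) E :=
      (hcF.integrableOn_compact isCompact_Icc).mono_set hET
    have h4 : ∫ _u in E, V * Real.exp (-(1 / 4)) ≤ ∫ u in E, ‖FG T (σ + u * I)‖ := by
      refine setIntegral_mono_on (integrableOn_const hfin) hi hEm fun u hu => ?_
      rw [norm_FG hT0.ne']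
      rw [hE] at hu
      refine mul_le_mul hu.2 (Real.exp_le_exp.2 ?_) (Real.exp_pos _).le (norm_nonneg _)
      have hu1 := hu.1
      rw [le_div_iff₀ (by positivity)]
      have a1 : |u - 3 * T / 2| ≤ T / 2 := by rw [abs_le]; constructor <;> linarith [hu1.1, hu1.2]
      have a2 := pow_le_pow_left₀ (abs_nonneg _) a1 2
      rw [sq_abs] at a2
      nlinarith [sq_nonneg σ]
    rw [setIntegral_const, smul_eq_mul] at h4
    rw [hv]
    linarith
  have hM : ∀ {C : ℝ}, 0 < C → 0 ≤ C * T ^ (1 + e) := fun hC => by positivity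
  have h5 := k5_alg hA (by positivity : 0 ≤ V * Real.exp (-(1 / 4))) hv0 (hM hC0) (hM hC1)
    hAe (hlow.trans h3)
  rw [Real.mul_rpow (by linarith) (Real.exp_pos _).le] at h5
  have e1 : ((C0 * T ^ (1 + e)) ^ ((1 - θ) / A0) * (C1 * T ^ (1 + e)) ^ (θ / A1)) ^ A =
      (C0 ^ ((1 - θ) / A0) * C1 ^ (θ / A1)) ^ A * T ^ (1 + e) := by
    rw [Real.mul_rpow hC0.le (by positivity), Real.mul_rpow hC1.le (by positivity), ← Real.rpow_mul hT0.le,
      ← Real.rpow_mul hT0.le]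
    have e2 : C0 ^ ((1 - θ) / A0) * T ^ ((1 + e) * ((1 - θ) / A0)) *
        (C1 ^ (θ / A1) * T ^ ((1 + e) * (θ / A1))) =
        (C0 ^ ((1 - θ) / A0) * C1 ^ (θ / A1)) * T ^ ((1 + e) * (1 / A)) := by
      rw [hAe, mul_add, Real.rpow_add hT0]
      ring
    rw [e2, Real.mul_rpow (by positivity) (by positivity), ← Real.rpow_mul hT0.le]
    congr 2
    field_simp
  rw [e1] at h5
  have e3 : Real.exp (1 / 4) ^ A * Real.exp (-(1 / 4)) ^ A = 1 := by
    rw [← Real.mul_rpow (Real.exp_pos _).le (Real.exp_pos _).le, ← Real.exp_add]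
    simp
  calc V ^ A * v = Real.exp (1 / 4) ^ A * (V ^ A * Real.exp (-(1 / 4)) ^ A * v) := by
        rw [show Real.exp (1 / 4) ^ A * (V ^ A * Real.exp (-(1 / 4)) ^ A * v) =
          (Real.exp (1 / 4) ^ A * Real.exp (-(1 / 4)) ^ A) * (V ^ A * v) by ring, e3, one_mul]
    _ ≤ Real.exp (1 / 4) ^ A * ((C0 ^ ((1 - θ) / A0) * C1 ^ (θ / A1)) ^ A * T ^ (1 + e)) :=
        mul_le_mul_of_nonneg_left h5 (by positivity)
    _ = _ := by
        rw [Real.mul_rpow (Real.exp_pos _).le (by positivity)]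
        ring

end OL
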