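import Pool.Agent.Lib.MP_39df77_nt.OL.K0
import Pool.Agent.Lib.MP_39df77_nt.OL.D1
import Pool.Agent.Lib.MP_39df77_nt.OL.E7

/-! # the smoothed moment, real exponents -/

set_option autoImplicit false

open Complex MeasureTheory Set Filter Topology
open scoped ComplexConjugate

namespace OL

/-- tangent inequality -/
lemma k6a_tan {A : ℝ} (hA : 1 ≤ A) {x c : ℝ} (hx : 0 ≤ x) (hc : 0 ≤ c) :
    A * c ^ (A - 1) * x ≤ x ^ A + (A - 1) * c ^ A := by
  rcases hc.eq_or_lt with h | h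
  · rw [← h]
    rcases hA.eq_or_lt with h1 | h1
    · rw [← h1]
      simp
    · rw [Real.zero_rpow (by linarith), Real.zero_rpow (by linarith)]
      have : 0 ≤ x ^ A := Real.rpow_nonneg hx A
      simpa using this
  · have h1 := one_add_mul_self_le_rpow_one_add (show (-1 : ℝ) ≤ x / c - 1 by
      have : 0 ≤ x / c := by positivity
      linarith) hA
    have h2 : 1 + (x / c - 1) = x / c := by ring
    rw [h2, Real.div_rpow hx hc] at h1
    have h3 : 0 < c ^ A := Real.rpow_pos_of_pos h A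
    have h4 : (1 + A * (x / c - 1)) * c ^ A ≤ x ^ A := by
      rw [← le_div_iff₀ h3]
      exact h1
    have h5 : c ^ A = c ^ (A - 1) * c := by
      rw [Real.rpow_sub_one h.ne']
      field_simp
    have h6 : (1 + A * (x / c - 1)) * c ^ A = A * c ^ (A - 1) * x - (A - 1) * c ^ A := by
      have : x / c * c ^ A = c ^ (A - 1) * x := by
        rw [h5]
        field_simp
      calc (1 + A * (x / c - 1)) * c ^ A = A * (x / c * c ^ A) - (A - 1) * c ^ A := by ring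
        _ = _ := by rw [this]; ring
    linarith

lemma k6a_jensen {A : ℝ} (hA : 1 ≤ A) {f w : ℝ → ℝ} (hf : ∀ y, 0 ≤ f y) (hw : ∀ y, 0 ≤ w y)
    (i1 : Integrable w) (h2 : ∫ y, w y = 2) (i2 : Integrable fun y => f y * w y)
    (i3 : Integrable fun y => f y ^ A * w y) :
    (∫ y, f y * w y) ^ A ≤ 2 ^ (A - 1) * ∫ y, f y ^ A * w y := by
  obtain ⟨Z, hZ⟩ : ∃ Z : ℝ, Z = ∫ y, f y * w y := ⟨_, rfl⟩
  have hZ0 : 0 ≤ Z := by
    rw [hZ]
    exact integral_nonneg fun y => mul_nonneg (hf y) (hw y)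
  obtain ⟨c, hc⟩ : ∃ c : ℝ, c = Z / 2 := ⟨_, rfl⟩
  have hc0 : 0 ≤ c := by rw [hc]; positivity
  have h3 : ∫ y, A * c ^ (A - 1) * (f y * w y) ≤ ∫ y, (f y ^ A * w y + (A - 1) * c ^ A * w y) := by
    refine integral_mono (i2.const_mul _) (i3.add (i1.const_mul _)) fun y => ?_
    have := mul_le_mul_of_nonneg_right (k6a_tan hA (hf y) hc0) (hw y)
    calc A * c ^ (A - 1) * (f y * w y) = A * c ^ (A - 1) * f y * w y := by ring
      _ ≤ (f y ^ A + (A - 1) * c ^ A) * w y := this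
      _ = _ := by ring
  rw [integral_const_mul, integral_add i3 (i1.const_mul _), integral_const_mul, h2, ← hZ] at h3
  have h5 : c ^ A = c ^ (A - 1) * c := by
    rcases hc0.eq_or_lt with h | h
    · rw [← h, Real.zero_rpow (by linarith), mul_zero]
    · rw [Real.rpow_sub_one h.ne']
      field_simp
  have h6 : Z = 2 * c := by rw [hc]; ring
  have h7 : 2 * c ^ A ≤ ∫ y, f y ^ A * w y := by
    have h9 : A * c ^ (A - 1) * Z = 2 * A * c ^ A := by
      rw [h6, h5]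
      ring
    rw [h9] at h3
    linarith
  have h8 : Z ^ A = 2 ^ (A - 1) * (2 * c ^ A) := by
    rw [h6, Real.mul_rpow (by norm_num) hc0, Real.rpow_sub_one (by norm_num)]
    ring
  rw [← hZ, h8]
  exact mul_le_mul_of_nonneg_left h7 (by positivity)

/-- the constant of the majorant -/
noncomputable def k6a_c (m : ℕ) : ℝ := (m + 2).factorial * Real.exp 1

lemma k6a_maj (m : ℕ) (y : ℝ) : (1 + |y|) ^ m * Real.exp (-|y|) ≤ k6a_c m * (1 + y ^ 2)⁻¹ := by
  have hy := abs_nonneg y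
  have hf : (0 : ℝ) < ((m + 2).factorial : ℝ) := by exact_mod_cast Nat.factorial_pos _
  have h1 : (1 + |y|) ^ (m + 2) / ((m + 2).factorial : ℝ) ≤ Real.exp (1 + |y|) :=
    Real.pow_div_factorial_le_exp (1 + |y|) (by positivity) (m + 2)
  rw [Real.exp_add, div_le_iff₀ hf] at h1
  have h2 : Real.exp |y| * Real.exp (-|y|) = 1 := by rw [← Real.exp_add]; simp
  have h3 : (1 + |y|) ^ (m + 2) * Real.exp (-|y|) ≤ k6a_c m := by
    have h4 := mul_le_mul_of_nonneg_right h1 (Real.exp_pos (-|y|)).le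
    have h5 : Real.exp 1 * Real.exp |y| * ((m + 2).factorial : ℝ) * Real.exp (-|y|) = k6a_c m := by
      unfold k6a_c
      calc _ = ((m + 2).factorial : ℝ) * Real.exp 1 * (Real.exp |y| * Real.exp (-|y|)) := by ring
        _ = _ := by rw [h2, mul_one]
    linarith
  rw [← div_eq_mul_inv, le_div_iff₀ (by positivity)]
  have h5 : 1 + y ^ 2 ≤ (1 + |y|) ^ 2 := by nlinarith [sq_abs y]
  have hE := (Real.exp_pos (-|y|)).le
  calc (1 + |y|) ^ m * Real.exp (-|y|) * (1 + y ^ 2)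
      ≤ (1 + |y|) ^ m * Real.exp (-|y|) * (1 + |y|) ^ 2 := by gcongr
    _ = (1 + |y|) ^ (m + 2) * Real.exp (-|y|) := by rw [pow_add]; ring
    _ ≤ _ := h3

/-- part 2, for `A ≥ 0` -/
lemma k6a_int {s0 A : ℝ} (h0 : 1 / 2 ≤ s0) (h1 : s0 < 1) (hA : 0 ≤ A) (t : ℝ) :
    Integrable fun y : ℝ => ‖riemannZeta (s0 + (t + y : ℝ) * I)‖ ^ A * Real.exp (-|y|) := by
  obtain ⟨K, hK1, hK⟩ := E4_growth h0 h1
  obtain ⟨m, hm⟩ : ∃ m : ℕ, m = ⌈A⌉₊ := ⟨_, rfl⟩
  have hAm : A ≤ (m : ℝ) := by rw [hm]; exact Nat.le_ceil A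
  have hmaj : Integrable fun y : ℝ => (K * (1 + |t|)) ^ m * k6a_c m * (1 + y ^ 2)⁻¹ :=
    integrable_inv_one_add_sq.const_mul _
  refine hmaj.mono' (Continuous.aestronglyMeasurable ?_) (Eventually.of_forall fun y => ?_)
  · have hc : Continuous fun u : ℝ => ‖riemannZeta (s0 + (u : ℝ) * I)‖ := (zeta_cont h1).norm
    have hc2 : Continuous fun y : ℝ => ‖riemannZeta (s0 + (t + y : ℝ) * I)‖ :=
      hc.comp (continuous_const.add continuous_id)
    exact (hc2.rpow_const fun _ => Or.inr hA).mul (by fun_prop)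
  · have hr0 : 0 ≤ ‖riemannZeta (s0 + (t + y : ℝ) * I)‖ ^ A := Real.rpow_nonneg (norm_nonneg _) A
    rw [Real.norm_of_nonneg (mul_nonneg hr0 (Real.exp_pos _).le)]
    have hy := abs_nonneg y
    have ht0 := abs_nonneg t
    have b1 : ‖riemannZeta (s0 + (t + y : ℝ) * I)‖ ≤ K * (1 + |t|) * (1 + |y|) := by
      refine (hK (t + y)).trans ?_
      have h2 : 1 + |t + y| ≤ (1 + |t|) * (1 + |y|) := by
        have := abs_add_le t y
        nlinarith
      calc K * (1 + |t + y|) ≤ K * ((1 + |t|) * (1 + |y|)) :=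
            mul_le_mul_of_nonneg_left h2 (by linarith)
        _ = _ := by ring
    have b2 : 1 ≤ K * (1 + |t|) * (1 + |y|) := by
      have h3 : 1 ≤ K * (1 + |t|) := by nlinarith
      nlinarith
    have b3 : ‖riemannZeta (s0 + (t + y : ℝ) * I)‖ ^ A ≤ (K * (1 + |t|) * (1 + |y|)) ^ m := by
      calc ‖riemannZeta (s0 + (t + y : ℝ) * I)‖ ^ A ≤ (K * (1 + |t|) * (1 + |y|)) ^ A :=
            Real.rpow_le_rpow (norm_nonneg _) b1 hA
        _ ≤ (K * (1 + |t|) * (1 + |y|)) ^ (m : ℝ) := Real.rpow_le_rpow_of_exponent_le b2 hAm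
        _ = _ := Real.rpow_natCast _ _
    have hKt : 0 ≤ (K * (1 + |t|)) ^ m := by
      have : 0 ≤ K := by linarith
      positivity
    calc ‖riemannZeta (s0 + (t + y : ℝ) * I)‖ ^ A * Real.exp (-|y|)
        ≤ (K * (1 + |t|) * (1 + |y|)) ^ m * Real.exp (-|y|) :=
          mul_le_mul_of_nonneg_right b3 (Real.exp_pos _).le
      _ = (K * (1 + |t|)) ^ m * ((1 + |y|) ^ m * Real.exp (-|y|)) := by
          rw [mul_pow]
          ring
      _ ≤ (K * (1 + |t|)) ^ m * (k6a_c m * (1 + y ^ 2)⁻¹) :=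
          mul_le_mul_of_nonneg_left (k6a_maj m y) hKt
      _ = _ := by ring

/-- Row `k-6a`. PROOF: the real exponent version of `OL.M4_tan`, `OL.M4_jensen`, `OL.M4_maj`, `OL.M4_bound`, `OL.M4_GMint`, `OL.M4_Zl` of
`Pool/Agent/Lib/MP_069854_nt/R8/M4b.lean` (natural exponents `m ≥ 2`). Tangent line: `A c^(A-1) x ≤ x^A + (A-1) c^A` for `x, c ≥ 0`, `A ≥ 1`
(`one_add_mul_self_le_rpow_one_add`, or `Real.inner_le_nnorm_mul_nnorm`/Young). The integrability of `GR` (`zeta_growth`-type bound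
`E4_growth`, `(1+|y|)^A ≤ (1+|y|)^⌈A⌉`) is part of this row. -/
theorem K6_Zl {s0 A : ℝ} (h0 : 1 / 2 ≤ s0) (h1 : s0 < 1) (hA : 1 ≤ A) (t : ℝ) :
    Zl s0 t ^ A ≤ 2 ^ (A - 1) * GR A s0 t := by
  unfold Zl GR
  exact k6a_jensen hA (f := fun y => ‖riemannZeta (s0 + (t + y : ℝ) * I)‖)
    (w := fun y => Real.exp (-|y|)) (fun y => norm_nonneg _) (fun y => (Real.exp_pos _).le)
    E4_w.1 E4_w.2 (D1_Zl_int h0 h1 t) (k6a_int h0 h1 (by linarith) t)

/-- part 2 -/
theorem K6_int {s0 A : ℝ} (h0 : 1 / 2 ≤ s0) (h1 : s0 < 1) (hA : 0 ≤ A) (t : ℝ) :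
    Integrable fun y : ℝ => ‖riemannZeta (s0 + (t + y : ℝ) * I)‖ ^ A * Real.exp (-|y|) :=
  k6a_int h0 h1 hA t

end OL
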