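import Pool.Agent.Lib.MP_39df77_nt.OL.K6a

/-! # the smoothed moment, real exponents: mean value -/

set_option autoImplicit false

open Complex MeasureTheory Set Filter Topology
open scoped ComplexConjugate

namespace OL

theorem k6b_cont {s0 A : ℝ} (h1 : s0 < 1) (hA : 0 ≤ A) :
    Continuous fun u : ℝ => ‖riemannZeta (s0 + (u : ℝ) * I)‖ ^ A :=
  (zeta_cont h1).norm.rpow_const fun _ => Or.inr hA

theorem k6b_maj (m : ℕ) (y : ℝ) : (1 + |y|) ^ m * Real.exp (-|y|) ≤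
    ((m + 2).factorial * Real.exp 1) * (1 + y ^ 2)⁻¹ := by
  have hy := abs_nonneg y
  have hf : (0 : ℝ) < ((m + 2).factorial : ℝ) := by exact_mod_cast Nat.factorial_pos _
  have h1 : (1 + |y|) ^ (m + 2) / ((m + 2).factorial : ℝ) ≤ Real.exp (1 + |y|) :=
    Real.pow_div_factorial_le_exp (1 + |y|) (by positivity) (m + 2)
  rw [Real.exp_add, div_le_iff₀ hf] at h1
  have h2 : Real.exp |y| * Real.exp (-|y|) = 1 := by rw [← Real.exp_add]; simp
  have h3 : (1 + |y|) ^ (m + 2) * Real.exp (-|y|) ≤ (m + 2).factorial * Real.exp 1 := by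
    have h4 := mul_le_mul_of_nonneg_right h1 (Real.exp_pos (-|y|)).le
    have h5 : Real.exp 1 * Real.exp |y| * ((m + 2).factorial : ℝ) * Real.exp (-|y|) =
        (m + 2).factorial * Real.exp 1 := by
      calc _ = ((m + 2).factorial : ℝ) * Real.exp 1 * (Real.exp |y| * Real.exp (-|y|)) := by ring
        _ = _ := by rw [h2, mul_one]
    linarith
  rw [← div_eq_mul_inv, le_div_iff₀ (by positivity)]
  have h5 : 1 + y ^ 2 ≤ (1 + |y|) ^ 2 := by nlinarith [sq_abs y]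
  have hE := (Real.exp_pos (-|y|)).le
  calc (1 + |y|) ^ m * Real.exp (-|y|) * (1 + y ^ 2)
      ≤ (1 + |y|) ^ m * Real.exp (-|y|) * (1 + |y|) ^ 2 := by gcongr
    _ = (1 + |y|) ^ (m + 2) * Real.exp (-|y|) := by rw [pow_add]; ring
    _ ≤ _ := h3

theorem k6b_bound {s0 K A : ℝ} (hA : 0 ≤ A) (hK1 : 1 ≤ K)
    (hK : ∀ u : ℝ, ‖riemannZeta (s0 + (u : ℝ) * I)‖ ≤ K * (1 + |u|))
    {T t : ℝ} (ht : |t| ≤ T) (y : ℝ) :
    ‖riemannZeta (s0 + (t + y : ℝ) * I)‖ ^ A * Real.exp (-|y|) ≤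
      (K * (1 + T)) ^ A * ((⌈A⌉₊ + 2).factorial * Real.exp 1) * (1 + y ^ 2)⁻¹ := by
  have hy := abs_nonneg y
  have ht0 := abs_nonneg t
  have hT : 0 ≤ 1 + T := by linarith
  have hKT : 0 ≤ K * (1 + T) := by positivity
  have h1 : ‖riemannZeta (s0 + (t + y : ℝ) * I)‖ ≤ K * (1 + T) * (1 + |y|) := by
    refine (hK (t + y)).trans ?_
    have h2 : 1 + |t + y| ≤ (1 + T) * (1 + |y|) := by
      have := abs_add_le t y
      nlinarith
    calc K * (1 + |t + y|) ≤ K * ((1 + T) * (1 + |y|)) :=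
          mul_le_mul_of_nonneg_left h2 (by linarith)
      _ = _ := by ring
  have h2 : ‖riemannZeta (s0 + (t + y : ℝ) * I)‖ ^ A ≤ (K * (1 + T) * (1 + |y|)) ^ A :=
    Real.rpow_le_rpow (norm_nonneg _) h1 hA
  have h3 : (1 + |y|) ^ A ≤ (1 + |y|) ^ ⌈A⌉₊ := by
    rw [← Real.rpow_natCast]
    exact Real.rpow_le_rpow_of_exponent_le (by linarith) (Nat.le_ceil A)
  calc _ ≤ (K * (1 + T) * (1 + |y|)) ^ A * Real.exp (-|y|) :=
        mul_le_mul_of_nonneg_right h2 (Real.exp_pos _).le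
    _ = (K * (1 + T)) ^ A * ((1 + |y|) ^ A * Real.exp (-|y|)) := by
        rw [Real.mul_rpow hKT (by linarith)]
        ring
    _ ≤ (K * (1 + T)) ^ A * ((1 + |y|) ^ ⌈A⌉₊ * Real.exp (-|y|)) := by
        apply mul_le_mul_of_nonneg_left _ (Real.rpow_nonneg hKT A)
        exact mul_le_mul_of_nonneg_right h3 (Real.exp_pos _).le
    _ ≤ (K * (1 + T)) ^ A * (((⌈A⌉₊ + 2).factorial * Real.exp 1) * (1 + y ^ 2)⁻¹) := by
        apply mul_le_mul_of_nonneg_left _ (Real.rpow_nonneg hKT A)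
        exact k6b_maj _ y
    _ = _ := by ring

theorem k6b_win {s0 A e C : ℝ} (h1 : s0 < 1) (hA : 0 ≤ A) (he : 0 < e) (he1 : e ≤ 1)
    (hC0 : 0 ≤ C) (hC : ∀ T : ℝ, 1 ≤ T →
      ∫ t in (0 : ℝ)..T, ‖riemannZeta (s0 + t * I)‖ ^ A ≤ C * T ^ (1 + e))
    {T : ℝ} (hT : 1 ≤ T) (y : ℝ) :
    ∫ t in (0 : ℝ)..T, ‖riemannZeta (s0 + (t + y : ℝ) * I)‖ ^ A ≤
      8 * C * T ^ (1 + e) * (1 + |y|) ^ 2 := by
  have hcont := k6b_cont (s0 := s0) h1 hA
  have hsym : ∀ u : ℝ, ‖riemannZeta (s0 + ((-u : ℝ) : ℂ) * I)‖ ^ A =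
      ‖riemannZeta (s0 + (u : ℝ) * I)‖ ^ A := by
    intro u
    have : (s0 + ((-u : ℝ) : ℂ) * I) = (starRingEnd ℂ) (s0 + (u : ℝ) * I) := by
      simp
    rw [this, riemannZeta_conj, Complex.norm_conj]
  have hint : ∀ a b : ℝ, IntervalIntegrable (fun u : ℝ => ‖riemannZeta (s0 + (u : ℝ) * I)‖ ^ A)
      volume a b := fun a b => hcont.intervalIntegrable a b
  have hy := abs_nonneg y
  set U : ℝ := T + |y| with hU
  have hU1 : 1 ≤ U := by linarith
  have e1 : ∫ t in (0 : ℝ)..T, ‖riemannZeta (s0 + (t + y : ℝ) * I)‖ ^ A =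
      ∫ t in y..(T + y), ‖riemannZeta (s0 + (t : ℝ) * I)‖ ^ A := by
    have := intervalIntegral.integral_comp_add_right (a := 0) (b := T)
      (fun u : ℝ => ‖riemannZeta (s0 + (u : ℝ) * I)‖ ^ A) y
    rw [zero_add] at this
    exact this
  have e2 : ∫ t in y..(T + y), ‖riemannZeta (s0 + (t : ℝ) * I)‖ ^ A ≤
      ∫ t in (-U)..U, ‖riemannZeta (s0 + (t : ℝ) * I)‖ ^ A := by
    have a1 : -U ≤ y := by
      have := neg_abs_le y
      linarith
    have a2 : T + y ≤ U := by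
      have := le_abs_self y
      linarith
    rw [← intervalIntegral.integral_add_adjacent_intervals (hint (-U) y) (hint y U),
      ← intervalIntegral.integral_add_adjacent_intervals (hint y (T + y)) (hint (T + y) U)]
    have b1 : 0 ≤ ∫ t in (-U)..y, ‖riemannZeta (s0 + (t : ℝ) * I)‖ ^ A :=
      intervalIntegral.integral_nonneg a1 fun t _ => by positivity
    have b2 : 0 ≤ ∫ t in (T + y)..U, ‖riemannZeta (s0 + (t : ℝ) * I)‖ ^ A :=
      intervalIntegral.integral_nonneg a2 fun t _ => by positivity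
    linarith
  have e3 : ∫ t in (-U)..U, ‖riemannZeta (s0 + (t : ℝ) * I)‖ ^ A =
      2 * ∫ t in (0 : ℝ)..U, ‖riemannZeta (s0 + (t : ℝ) * I)‖ ^ A := by
    rw [← intervalIntegral.integral_add_adjacent_intervals (hint (-U) 0) (hint 0 U)]
    have h3 : ∫ t in (-U)..0, ‖riemannZeta (s0 + (t : ℝ) * I)‖ ^ A =
        ∫ t in (0 : ℝ)..U, ‖riemannZeta (s0 + (t : ℝ) * I)‖ ^ A := by
      have h4 := intervalIntegral.integral_comp_neg (a := 0) (b := U)
        (fun u : ℝ => ‖riemannZeta (s0 + (u : ℝ) * I)‖ ^ A)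
      rw [neg_zero] at h4
      rw [← h4]
      congr 1
      funext t
      exact hsym t
    rw [h3]
    ring
  have e4 := hC U hU1
  have e5 : U ^ (1 + e) ≤ 4 * (T ^ (1 + e) * (1 + |y|) ^ 2) := by
    have h5 : U ≤ 2 * T * (1 + |y|) := by
      rw [hU]
      nlinarith
    have h6 : (1 + |y|) ^ (1 + e) ≤ (1 + |y|) ^ 2 := by
      rw [← Real.rpow_natCast]
      exact Real.rpow_le_rpow_of_exponent_le (by linarith) (by push_cast; linarith)
    have h7 : (2 : ℝ) ^ (1 + e) ≤ 4 := by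
      have : (2 : ℝ) ^ (1 + e) ≤ 2 ^ (2 : ℝ) :=
        Real.rpow_le_rpow_of_exponent_le one_le_two (by linarith)
      refine this.trans (le_of_eq ?_)
      norm_num
    calc U ^ (1 + e) ≤ (2 * T * (1 + |y|)) ^ (1 + e) :=
          Real.rpow_le_rpow (by linarith) h5 (by linarith)
      _ = 2 ^ (1 + e) * T ^ (1 + e) * (1 + |y|) ^ (1 + e) := by
          rw [Real.mul_rpow (by linarith) (by linarith), Real.mul_rpow (by norm_num) (by linarith)]
      _ ≤ 4 * T ^ (1 + e) * (1 + |y|) ^ 2 := by gcongr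
      _ = _ := by ring
  rw [e1]
  refine e2.trans ?_
  rw [e3]
  calc 2 * ∫ t in (0 : ℝ)..U, ‖riemannZeta (s0 + (t : ℝ) * I)‖ ^ A ≤ 2 * (C * U ^ (1 + e)) := by
        gcongr
    _ ≤ 2 * (C * (4 * (T ^ (1 + e) * (1 + |y|) ^ 2))) := by gcongr
    _ = _ := by ring

theorem k6b_small {s0 A e : ℝ} (h0 : 1 / 2 ≤ s0) (h1 : s0 < 1) (hA : 0 ≤ A) (h : MB s0 A)
    (he : 0 < e) (he1 : e ≤ 1) :
    ∃ C : ℝ, 0 ≤ C ∧ ∀ T : ℝ, 1 ≤ T → IntervalIntegrable (fun t => GR A s0 t) volume 0 T ∧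
      ∫ t in (0 : ℝ)..T, GR A s0 t ≤ C * T ^ (1 + e) := by
  have hcont := k6b_cont (s0 := s0) h1 hA
  obtain ⟨C', hC'⟩ := h e he
  obtain ⟨C, hC0, hC⟩ : ∃ C : ℝ, 0 ≤ C ∧ ∀ T : ℝ, 1 ≤ T →
      ∫ t in (0 : ℝ)..T, ‖riemannZeta (s0 + t * I)‖ ^ A ≤ C * T ^ (1 + e) := by
    refine ⟨max C' 0, le_max_right _ _, fun T hT => (hC' T hT).trans ?_⟩
    exact mul_le_mul_of_nonneg_right (le_max_left _ _) (Real.rpow_nonneg (by linarith) _)
  obtain ⟨K, hK1, hK⟩ := E4_growth h0 h1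
  refine ⟨8 * C * ∫ y : ℝ, (1 + |y|) ^ 2 * Real.exp (-|y|), ?_, ?_⟩
  · have : 0 ≤ ∫ y : ℝ, (1 + |y|) ^ 2 * Real.exp (-|y|) := integral_nonneg fun y => by positivity
    positivity
  intro T hT
  have hT0 : (0 : ℝ) ≤ T := by linarith
  -- Fubini
  set F : ℝ × ℝ → ℝ := fun z => ‖riemannZeta (s0 + (z.1 + z.2 : ℝ) * I)‖ ^ A * Real.exp (-|z.2|)
    with hF
  have hFc : Continuous F := by
    have h2 : Continuous fun z : ℝ × ℝ => ‖riemannZeta (s0 + (z.1 + z.2 : ℝ) * I)‖ ^ A :=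
      hcont.comp (continuous_fst.add continuous_snd)
    exact h2.mul (by fun_prop)
  have hconst : Integrable (fun _ : ℝ => (K * (1 + T)) ^ A *
      ((⌈A⌉₊ + 2).factorial * Real.exp 1)) (volume.restrict (Ioc 0 T)) := by
    exact integrable_const _
  have hFi : Integrable F ((volume.restrict (Ioc 0 T)).prod volume) := by
    have hm := hconst.mul_prod integrable_inv_one_add_sq (μ := volume.restrict (Ioc 0 T))
      (ν := (volume : Measure ℝ))
    refine hm.mono' hFc.aestronglyMeasurable ?_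
    have hae : ∀ᵐ z : ℝ × ℝ ∂((volume.restrict (Ioc 0 T)).prod volume), z.1 ∈ Ioc 0 T := by
      have := (Measure.quasiMeasurePreserving_fst (μ := volume.restrict (Ioc (0 : ℝ) T))
        (ν := (volume : Measure ℝ))).ae (ae_restrict_mem measurableSet_Ioc)
      exact this
    filter_upwards [hae] with z hz
    rw [Real.norm_of_nonneg (by positivity)]
    refine k6b_bound hA hK1 hK ?_ z.2
    rw [abs_of_pos hz.1]
    exact hz.2
  have hG : ∀ t, GR A s0 t = ∫ y : ℝ, F (t, y) := fun t => rfl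
  have hGi : Integrable (fun t => GR A s0 t) (volume.restrict (Ioc 0 T)) :=
    hFi.integral_prod_left
  refine ⟨(intervalIntegrable_iff_integrableOn_Ioc_of_le hT0).2 hGi, ?_⟩
  rw [intervalIntegral.integral_of_le hT0]
  have e6 : ∫ t in Ioc 0 T, GR A s0 t = ∫ y : ℝ, ∫ t in Ioc 0 T, F (t, y) := by
    have := integral_integral_swap (μ := volume.restrict (Ioc 0 T)) (ν := (volume : Measure ℝ))
      (f := fun t y => F (t, y)) hFi
    exact this
  rw [e6]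
  have hmaj : Integrable fun y : ℝ => (1 + |y|) ^ 2 * Real.exp (-|y|) := by
    have hm : Integrable fun y : ℝ => ((2 + 2).factorial * Real.exp 1) * (1 + y ^ 2)⁻¹ :=
      integrable_inv_one_add_sq.const_mul _
    refine hm.mono' (Continuous.aestronglyMeasurable (by fun_prop)) (Eventually.of_forall fun y => ?_)
    rw [Real.norm_of_nonneg (by positivity)]
    exact k6b_maj 2 y
  have e7 : ∫ y : ℝ, ∫ t in Ioc 0 T, F (t, y) ≤
      ∫ y : ℝ, 8 * C * T ^ (1 + e) * ((1 + |y|) ^ 2 * Real.exp (-|y|)) := by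
    refine integral_mono hFi.integral_prod_right (hmaj.const_mul _) fun y => ?_
    have h8 : ∫ t in Ioc 0 T, F (t, y) =
        (∫ t in (0 : ℝ)..T, ‖riemannZeta (s0 + (t + y : ℝ) * I)‖ ^ A) * Real.exp (-|y|) := by
      rw [intervalIntegral.integral_of_le hT0, ← integral_mul_const]
    show ∫ t in Ioc 0 T, F (t, y) ≤ _
    rw [h8]
    calc _ ≤ (8 * C * T ^ (1 + e) * (1 + |y|) ^ 2) * Real.exp (-|y|) :=
          mul_le_mul_of_nonneg_right (k6b_win h1 hA he he1 hC0 hC hT y) (Real.exp_pos _).le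
      _ = _ := by ring
  refine e7.trans (le_of_eq ?_)
  rw [integral_const_mul]
  ring

/-- Row `k-6b`. PROOF: the real exponent version of `OL.M4_GM` of `Pool/Agent/Lib/MP_069854_nt/R8/M4b.lean` (with `x = 0`), or of
`OL.E4_GG` in `OL/E4.lean`: exchange the integrals; `∫_0^T ‖ζ(s0+i(t+y))‖^A dt ≤ 2 ∫_0^{T+|y|} ‖ζ(s0+iu)‖^A du ≤ 2 C (T (1+|y|))^(1+e)`
and `(1+|y|)^(1+e) ≤ (1+|y|)^2`, `∫ (1+|y|)^2 e^{-|y|} dy < ∞` (take `e ≤ 1` first). -/
theorem K6_GR {s0 A : ℝ} (h0 : 1 / 2 ≤ s0) (h1 : s0 < 1) (hA : 0 ≤ A) (h : MB s0 A) : ∀ e : ℝ, 0 < e →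
    ∃ C : ℝ, 0 ≤ C ∧ ∀ T : ℝ, 1 ≤ T → IntervalIntegrable (fun t => GR A s0 t) volume 0 T ∧
      ∫ t in (0 : ℝ)..T, GR A s0 t ≤ C * T ^ (1 + e) := by
  intro e he
  obtain ⟨C, hC0, hC⟩ := k6b_small (e := min e 1) h0 h1 hA h (lt_min he one_pos) (min_le_right _ _)
  refine ⟨C, hC0, fun T hT => ⟨(hC T hT).1, (hC T hT).2.trans ?_⟩⟩
  apply mul_le_mul_of_nonneg_left _ hC0
  exact Real.rpow_le_rpow_of_exponent_le hT (by linarith [min_le_left e 1])

end OL
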