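import Pool.Agent.Lib.MP_39df77_nt.OL.K6b
import Pool.Agent.Lib.MP_39df77_nt.OL.E6

/-! # zeta against the smoothed series in mean of real order -/

set_option autoImplicit false

open Complex MeasureTheory Set Filter Topology
open scoped ComplexConjugate

namespace OL

/-- `(a + b)^A ≤ 2^A (a^A + b^A)` -/
lemma k7_add {a b A : ℝ} (ha : 0 ≤ a) (hb : 0 ≤ b) (hA : 0 ≤ A) :
    (a + b) ^ A ≤ 2 ^ A * (a ^ A + b ^ A) := by
  have h2 : (0 : ℝ) ≤ 2 ^ A := Real.rpow_nonneg (by norm_num) A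
  have ha' : 0 ≤ a ^ A := Real.rpow_nonneg ha A
  have hb' : 0 ≤ b ^ A := Real.rpow_nonneg hb A
  rcases le_total a b with h | h
  · calc (a + b) ^ A ≤ (2 * b) ^ A := Real.rpow_le_rpow (by linarith) (by linarith) hA
      _ = 2 ^ A * b ^ A := Real.mul_rpow (by norm_num) hb
      _ ≤ 2 ^ A * (a ^ A + b ^ A) := mul_le_mul_of_nonneg_left (by linarith) h2
  · calc (a + b) ^ A ≤ (2 * a) ^ A := Real.rpow_le_rpow (by linarith) (by linarith) hA
      _ = 2 ^ A * a ^ A := Real.mul_rpow (by norm_num) ha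
      _ ≤ 2 ^ A * (a ^ A + b ^ A) := mul_le_mul_of_nonneg_left (by linarith) h2

/-- the pointwise bound -/
lemma k7_pt {C A x y Z G n t : ℝ} (hA : 1 ≤ A) (hC : 0 < C) (hx : 0 ≤ x) (hy : 0 ≤ y) (hZ : 0 ≤ Z)
    (ht : 0 ≤ t) (hn : 0 ≤ n) (h1 : n ≤ C * (x * Real.exp (-t) + y * Z))
    (h2 : Z ^ A ≤ 2 ^ (A - 1) * G) :
    n ^ A ≤ 2 ^ A * C ^ A * x ^ A * Real.exp (-t) + 2 ^ A * C ^ A * y ^ A * (2 ^ (A - 1) * G) := by
  have hA0 : 0 ≤ A := by linarith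
  have hK : 0 ≤ 2 ^ A * C ^ A := mul_nonneg (Real.rpow_nonneg (by norm_num) A) (Real.rpow_nonneg hC.le A)
  have he : Real.exp (-t) ^ A ≤ Real.exp (-t) := by
    rw [← Real.exp_mul]
    apply Real.exp_le_exp.2
    nlinarith
  have a1 : n ≤ C * (x * Real.exp (-t)) + C * (y * Z) := by
    rw [← mul_add]
    exact h1
  have e1 : (C * (x * Real.exp (-t))) ^ A = C ^ A * (x ^ A * Real.exp (-t) ^ A) := by
    rw [Real.mul_rpow hC.le (mul_nonneg hx (Real.exp_pos _).le), Real.mul_rpow hx (Real.exp_pos _).le]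
  have e2 : (C * (y * Z)) ^ A = C ^ A * (y ^ A * Z ^ A) := by
    rw [Real.mul_rpow hC.le (mul_nonneg hy hZ), Real.mul_rpow hy hZ]
  have hxA : 0 ≤ x ^ A := Real.rpow_nonneg hx A
  have hyA : 0 ≤ y ^ A := Real.rpow_nonneg hy A
  calc n ^ A ≤ (C * (x * Real.exp (-t)) + C * (y * Z)) ^ A := Real.rpow_le_rpow hn a1 hA0
    _ ≤ 2 ^ A * ((C * (x * Real.exp (-t))) ^ A + (C * (y * Z)) ^ A) :=
        k7_add (mul_nonneg hC.le (mul_nonneg hx (Real.exp_pos _).le)) (mul_nonneg hC.le (mul_nonneg hy hZ)) hA0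
    _ = 2 ^ A * C ^ A * x ^ A * Real.exp (-t) ^ A + 2 ^ A * C ^ A * y ^ A * Z ^ A := by
        rw [e1, e2]
        ring
    _ ≤ _ := add_le_add (mul_le_mul_of_nonneg_left he (mul_nonneg hK hxA))
        (mul_le_mul_of_nonneg_left h2 (mul_nonneg hK hyA))

/-- Row `k-7`. PROOF: as `OL.E5_diff` in `OL/E7.lean` / `OL.M4_diff` in `MP_069854_nt/R8/M4.lean`. By `hr21` (with `β = s0`), for `X = T^δ ≥ 1`:
`‖ζ(σ+it) - Sx σ X t‖ ≤ C (X^(1-σ) e^{-|t|} + X^(s0-σ) Zl s0 t)`, so the `A`-th power is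
`≤ (2C)^A (X^((1-σ)A) e^{-A|t|} + X^(-(σ-s0)A) Zl^A)`, `Zl^A ≤ 2^(A-1) GR A s0 t` (`K6_Zl`), `∫_0^T GR ≤ C' T^(1+e)` (`K6_GR`),
`e = δ (σ-s0) A / 2`. So `T⁻¹ ∫ ≤ C'' (T^(δ(1-σ)A - 1) + T^(e - δ(σ-s0)A)) → 0` as `δ A < 1`. Continuity of the integrand:
`zeta_cont`, `Sx_cont`. -/
theorem K7_diff {s0 σ A δ : ℝ} (h0 : 1 / 2 ≤ s0) (h1 : s0 < σ) (h2 : σ < 1) (hA : 1 ≤ A) (hδ : 0 < δ)
    (hδA : δ * A < 1) (h : MB s0 A) : Tendsto (fun T : ℝ => T⁻¹ * ∫ t in (0 : ℝ)..T,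
      ‖riemannZeta (σ + t * I) - Sx σ (T ^ δ) t‖ ^ A) atTop (𝓝 0) := by
  have hA0 : 0 < A := by linarith
  have h01 : s0 < 1 := by linarith
  obtain ⟨e, he⟩ : ∃ e : ℝ, e = δ * (σ - s0) * A / 2 := ⟨_, rfl⟩
  have he0 : 0 < e := by
    rw [he]
    have : 0 < σ - s0 := by linarith
    positivity
  obtain ⟨r, hr⟩ : ∃ r : ℝ, r = 1 - δ * (1 - σ) * A := ⟨_, rfl⟩
  have hr0 : 0 < r := by
    rw [hr]
    have h3 : δ * A * (1 - σ) ≤ δ * A * 1 :=
      mul_le_mul_of_nonneg_left (by linarith) (mul_pos hδ hA0).le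
    nlinarith
  obtain ⟨D, hD0, hD⟩ := K6_GR h0 h01 hA0.le h e he0
  obtain ⟨C, hC0, hC⟩ := hr21 s0 σ h0 h1 h2
  obtain ⟨K, hK⟩ : ∃ K : ℝ, K = 2 ^ A * C ^ A := ⟨_, rfl⟩
  have hK0 : 0 ≤ K := by
    rw [hK]
    exact mul_nonneg (Real.rpow_nonneg (by norm_num) A) (Real.rpow_nonneg hC0.le A)
  have h2A : (0 : ℝ) ≤ 2 ^ (A - 1) := Real.rpow_nonneg (by norm_num) _
  have hlim : Tendsto (fun T : ℝ => K * (T ^ (-r) + 2 ^ (A - 1) * D * T ^ (-e))) atTop (𝓝 0) := by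
    have a1 := tendsto_rpow_neg_atTop hr0
    have a2 := (tendsto_rpow_neg_atTop he0).const_mul (2 ^ (A - 1) * D)
    have := (a1.add a2).const_mul K
    simpa using this
  refine squeeze_zero' ?_ ?_ hlim
  · filter_upwards [eventually_ge_atTop 0] with T hT
    have : 0 ≤ ∫ t in (0 : ℝ)..T, ‖riemannZeta (σ + t * I) - Sx σ (T ^ δ) t‖ ^ A :=
      intervalIntegral.integral_nonneg hT fun t _ => Real.rpow_nonneg (norm_nonneg _) A
    exact mul_nonneg (inv_nonneg.2 hT) this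
  · filter_upwards [eventually_ge_atTop 1] with T hT
    have hT0 : 0 < T := by linarith
    obtain ⟨g1, g2⟩ := hD T hT
    have hX1 : 1 ≤ T ^ δ := Real.one_le_rpow hT hδ.le
    obtain ⟨X, hX⟩ : ∃ X : ℝ, X = T ^ δ := ⟨_, rfl⟩
    rw [← hX] at hX1 ⊢
    have hX0 : 0 < X := by linarith
    have hpt : ∀ t ∈ Icc 0 T, ‖riemannZeta (σ + t * I) - Sx σ X t‖ ^ A ≤
        K * (X ^ (1 - σ)) ^ A * Real.exp (-t) +
          K * (X ^ (s0 - σ)) ^ A * (2 ^ (A - 1) * GR A s0 t) := by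
      intro t ht
      have b1 := hC X t hX1
      rw [abs_of_nonneg ht.1] at b1
      have hZ0 : 0 ≤ Zl s0 t := by
        unfold Zl
        exact integral_nonneg fun y => by positivity
      rw [hK]
      exact k7_pt hA hC0 (Real.rpow_nonneg hX0.le _) (Real.rpow_nonneg hX0.le _) hZ0 ht.1
        (norm_nonneg _) b1 (K6_Zl h0 h01 hA t)
    have hi1 : IntervalIntegrable (fun t : ℝ => ‖riemannZeta (σ + t * I) - Sx σ X t‖ ^ A) volume 0 T := by
      refine Continuous.intervalIntegrable ?_ _ _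
      exact ((zeta_cont h2).sub (Sx_cont hX0 σ)).norm.rpow_const fun t => Or.inr hA0.le
    have hi2 : IntervalIntegrable (fun t : ℝ => K * (X ^ (1 - σ)) ^ A * Real.exp (-t)) volume 0 T :=
      (Continuous.intervalIntegrable (by fun_prop) _ _)
    have hi3 : IntervalIntegrable (fun t : ℝ => K * (X ^ (s0 - σ)) ^ A * (2 ^ (A - 1) * GR A s0 t))
        volume 0 T := (g1.const_mul _).const_mul _
    have hI := intervalIntegral.integral_mono_on hT0.le hi1 (hi2.add hi3) hpt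
    rw [intervalIntegral.integral_add hi2 hi3, intervalIntegral.integral_const_mul,
      intervalIntegral.integral_const_mul, intervalIntegral.integral_const_mul] at hI
    have hexp : ∫ t in (0 : ℝ)..T, Real.exp (-t) ≤ 1 := by
      have h3 := intervalIntegral.integral_comp_neg (a := 0) (b := T) Real.exp
      rw [h3, neg_zero, integral_exp, Real.exp_zero]
      have := Real.exp_pos (-T)
      linarith
    have x1 : (X ^ (1 - σ)) ^ A = T ^ (1 - r) := by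
      rw [← Real.rpow_mul hX0.le, hX, ← Real.rpow_mul hT0.le, hr]
      congr 1
      ring
    have x2 : (X ^ (s0 - σ)) ^ A = T ^ (-(2 * e)) := by
      rw [← Real.rpow_mul hX0.le, hX, ← Real.rpow_mul hT0.le, he]
      congr 1
      ring
    rw [x1, x2] at hI
    have n1 : 0 ≤ T ^ (1 - r) := Real.rpow_nonneg hT0.le _
    have n3 : 0 ≤ T ^ (-(2 * e)) := Real.rpow_nonneg hT0.le _
    have hfin : ∫ t in (0 : ℝ)..T, ‖riemannZeta (σ + t * I) - Sx σ X t‖ ^ A ≤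
        K * (T ^ (1 - r) + 2 ^ (A - 1) * D * (T ^ (-(2 * e)) * T ^ (1 + e))) := by
      refine hI.trans ?_
      have c1 : K * T ^ (1 - r) * (∫ t in (0 : ℝ)..T, Real.exp (-t)) ≤ K * T ^ (1 - r) * 1 :=
        mul_le_mul_of_nonneg_left hexp (mul_nonneg hK0 n1)
      have c2 : K * T ^ (-(2 * e)) * (2 ^ (A - 1) * ∫ t in (0 : ℝ)..T, GR A s0 t) ≤
          K * T ^ (-(2 * e)) * (2 ^ (A - 1) * (D * T ^ (1 + e))) :=
        mul_le_mul_of_nonneg_left (mul_le_mul_of_nonneg_left g2 h2A) (mul_nonneg hK0 n3)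
      calc _ ≤ K * T ^ (1 - r) * 1 + K * T ^ (-(2 * e)) * (2 ^ (A - 1) * (D * T ^ (1 + e))) :=
            add_le_add c1 c2
        _ = _ := by ring
    have y1 : T⁻¹ * T ^ (1 - r) = T ^ (-r) := by
      rw [← Real.rpow_neg_one, ← Real.rpow_add hT0]
      congr 1
      ring
    have y2 : T⁻¹ * (T ^ (-(2 * e)) * T ^ (1 + e)) = T ^ (-e) := by
      rw [← Real.rpow_neg_one, ← Real.rpow_add hT0, ← Real.rpow_add hT0]
      congr 1
      ring
    calc _ ≤ T⁻¹ * (K * (T ^ (1 - r) + 2 ^ (A - 1) * D * (T ^ (-(2 * e)) * T ^ (1 + e)))) :=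
          mul_le_mul_of_nonneg_left hfin (inv_pos.2 hT0).le
      _ = K * (T⁻¹ * T ^ (1 - r) + 2 ^ (A - 1) * D * (T⁻¹ * (T ^ (-(2 * e)) * T ^ (1 + e)))) := by
          ring
      _ = _ := by rw [y1, y2]

end OL
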