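import Pool.Agent.Lib.MP_39df77_nt.OL.K0

/-! # the non-smooth part: powers -/

set_option autoImplicit false

open Complex MeasureTheory Set Filter Topology
open scoped ComplexConjugate

namespace OL

lemma k8a_NR_apply (M : ℕ) (X : ℝ) (n : ℕ) :
    NR M X n = 0 ∨ (n ≠ 0 ∧ n ∉ Nat.smoothNumbers M ∧ NR M X n = Real.exp (-(n / X))) := by
  unfold NR
  rw [ArithmeticFunction.coe_mk]
  split_ifs with h
  · exact Or.inl rfl
  · rw [not_or] at h
    exact Or.inr ⟨h.1, h.2, rfl⟩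

lemma k8a_NR_nonneg (M : ℕ) (X : ℝ) (n : ℕ) : 0 ≤ NR M X n := by
  rcases k8a_NR_apply M X n with h | ⟨_, _, h⟩
  · rw [h]
  · rw [h]
    exact (Real.exp_pos _).le

lemma k8a_NR_le_exp (M : ℕ) (X : ℝ) (n : ℕ) : NR M X n ≤ Real.exp (-(n / X)) := by
  rcases k8a_NR_apply M X n with h | ⟨_, _, h⟩
  · rw [h]
    exact (Real.exp_pos _).le
  · rw [h]

lemma k8a_NR_le (M : ℕ) (X : ℝ) (n : ℕ) : NR M X n ≤ ER X n := by
  rcases k8a_NR_apply M X n with h | ⟨h0, _, h⟩
  · rw [h]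
    exact ER_nonneg X n
  · rw [h, ER_apply h0]

/-- the complex version -/
noncomputable def k8a_f (M : ℕ) (X : ℝ) : ArithmeticFunction ℂ :=
  ⟨fun n => (NR M X n : ℂ), by simp⟩

lemma k8a_f_apply (M : ℕ) (X : ℝ) (n : ℕ) : k8a_f M X n = ((NR M X n : ℝ) : ℂ) := rfl

lemma k8a_f_pow (M : ℕ) (X : ℝ) (m n : ℕ) : (k8a_f M X ^ m) n = ((((NR M X) ^ m) n : ℝ) : ℂ) := by
  induction m generalizing n with
  | zero =>
    rw [pow_zero, pow_zero, ArithmeticFunction.one_apply, ArithmeticFunction.one_apply]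
    split_ifs <;> norm_num
  | succ k ih =>
    rw [pow_succ, pow_succ, ArithmeticFunction.mul_apply, ArithmeticFunction.mul_apply]
    push_cast
    exact Finset.sum_congr rfl fun p _ => by rw [ih, k8a_f_apply]

lemma k8a_summable (M : ℕ) {X : ℝ} (hX : 0 < X) (s : ℂ) : LSeriesSummable (k8a_f M X) s := by
  have h := (EX_summable hX s).norm
  unfold LSeriesSummable
  refine Summable.of_norm_bounded h fun n => ?_
  refine LSeries.norm_term_le s ?_
  rw [k8a_f_apply, Complex.norm_real, Real.norm_of_nonneg (k8a_NR_nonneg M X n)]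
  unfold EX
  rw [Complex.norm_real, Real.norm_of_nonneg (Real.exp_pos _).le]
  exact k8a_NR_le_exp M X n

lemma k8a_pow_LSeries (M : ℕ) {X : ℝ} (hX : 0 < X) (s : ℂ) (m : ℕ) :
    LSeriesSummable (k8a_f M X ^ m : ArithmeticFunction ℂ) s ∧
    LSeries (k8a_f M X ^ m : ArithmeticFunction ℂ) s = LSeries (k8a_f M X) s ^ m := by
  induction m with
  | zero =>
    rw [pow_zero, pow_zero]
    have hd : (⇑(1 : ArithmeticFunction ℂ) : ℕ → ℂ) = LSeries.delta := ArithmeticFunction.one_eq_delta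
    constructor
    · rw [hd]
      unfold LSeriesSummable
      have h := (hasSum_ite_eq (1 : ℕ) (1 : ℂ)).summable
      exact h.congr fun n => (LSeries.term_delta s n).symm
    · rw [hd, LSeries_delta]
      rfl
  | succ k ih =>
    rw [pow_succ, pow_succ]
    constructor
    · exact ArithmeticFunction.LSeriesSummable_mul ih.1 (k8a_summable M hX s)
    · rw [ArithmeticFunction.LSeries_mul' ih.1 (k8a_summable M hX s), ih.2]


/-- Row `k-8a`. PROOF: let `f : ArithmeticFunction ℂ` be `n ↦ (NR M X n : ℂ)`; `LSeriesSummable f s` for every `s` since `‖f n‖ ≤ e^{-n/X}`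
(compare with `EX_summable`); `Qx M σ X t = LSeries f (σ + it)` (`E2_shift`, `E2_pow`, as in the proof of `Sx_cube` in `OL/E2.lean`, and
`OL.M3_prod`, `EA_prod_LSeries` in `MP_069854_nt/R8/M2.lean, M3.lean`); by induction on `m`, `f ^ m` is summable at `s`,
`LSeries (f^m) s = (LSeries f s)^m` (`ArithmeticFunction.LSeriesSummable_mul`, `ArithmeticFunction.LSeries_mul'`, or `LSeries.convolution`), and
`(f^m) n = (((NR M X)^m) n : ℂ)` (as `EK_zero`). -/
theorem Qx_pow {m M : ℕ} {X : ℝ} (hX : 0 < X) (σ t : ℝ) : Qx M σ X t ^ m =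
    ∑' n : ℕ, ((((NR M X) ^ m) (n + 1) * (n + 1 : ℝ) ^ (-σ) : ℝ) : ℂ) * ei (-(t * Real.log (n + 1 : ℝ))) := by
  have hb : ∀ n : ℕ, ((((NR M X) ^ m) (n + 1) * (n + 1 : ℝ) ^ (-σ) : ℝ) : ℂ) *
      ei (-(t * Real.log (n + 1 : ℝ))) =
      (k8a_f M X ^ m) (n + 1) * ((n + 1 : ℝ) : ℂ) ^ (-(σ + t * I : ℂ)) := by
    intro n
    rw [E2_pow, k8a_f_pow]
    push_cast
    ring
  have hq : Qx M σ X t = LSeries (k8a_f M X) (σ + t * I) := by
    rw [(E2_shift (k8a_summable M hX _)).2]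
    unfold Qx
    refine tsum_congr fun n => ?_
    rw [E2_pow, k8a_f_apply]
    push_cast
    ring
  rw [hq, ← (k8a_pow_LSeries M hX _ m).2, (E2_shift (k8a_pow_LSeries M hX _ m).1).2]
  exact tsum_congr fun n => (hb n).symm

/-- part 2. PROOF: `NR M X n ≤ ER X n`, `af_pow_mono`. -/
theorem NR_pow_le {m M : ℕ} {X : ℝ} (n : ℕ) :
    0 ≤ ((NR M X) ^ m) n ∧ ((NR M X) ^ m) n ≤ ((ER X) ^ m) n := by
  exact ⟨af_pow_nonneg (k8a_NR_nonneg M X) m n, af_pow_mono (k8a_NR_nonneg M X) (k8a_NR_le M X) m n⟩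

/-- part 3. PROOF: `((NR M X)^m) n` is a sum of products; for `m ≥ 1` a nonzero term has a factor `d ∣ n` which is not `M`-smooth,
so a prime `p ≥ M` divides `n` and `n ≥ M`. (For `m = k+1`: `pow_succ`, `ArithmeticFunction.mul_apply`, the last factor.) -/
theorem NR_pow_zero {m M : ℕ} (hm : 1 ≤ m) {X : ℝ} {n : ℕ} (hn : n < M) : ((NR M X) ^ m) n = 0 := by
  obtain ⟨k, rfl⟩ : ∃ k, m = k + 1 := ⟨m - 1, by omega⟩
  rw [pow_succ, ArithmeticFunction.mul_apply]
  refine Finset.sum_eq_zero fun p hp => ?_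
  rw [Nat.mem_divisorsAntidiagonal] at hp
  have h2 : NR M X p.2 = 0 := by
    rcases k8a_NR_apply M X p.2 with h | ⟨h0, h1, _⟩
    · exact h
    · exfalso
      apply h1
      rw [Nat.mem_smoothNumbers']
      intro q hq hqp
      have hpn : p.2 ∣ n := ⟨p.1, by rw [← hp.1, mul_comm]⟩
      have h3 : q ≤ p.2 := Nat.le_of_dvd (Nat.pos_of_ne_zero h0) hqp
      have h4 : p.2 ≤ n := Nat.le_of_dvd (Nat.pos_of_ne_zero hp.2) hpn
      omega
  rw [h2, mul_zero]

/-- part 4: continuity. PROOF: as `Sx_cont` (`OL/E7.lean`). -/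
theorem Qx_cont (M : ℕ) {X : ℝ} (hX : 0 < X) (σ : ℝ) : Continuous fun t : ℝ => Qx M σ X t := by
  unfold Qx
  have h := (E2_real hX σ).2.1
  refine continuous_tsum (u := fun n : ℕ => Real.exp (-((n + 1 : ℝ) / X)) * (n + 1 : ℝ) ^ (-σ))
    (fun n => ?_) h (fun n t => ?_)
  · exact continuous_const.mul (ei_cont.comp (by fun_prop))
  · rw [norm_mul, ei_norm, mul_one, Complex.norm_real, Real.norm_of_nonneg
      (mul_nonneg (k8a_NR_nonneg M X _) (by positivity))]
    refine mul_le_mul_of_nonneg_right ?_ (by positivity)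
    have h5 := k8a_NR_le_exp M X (n + 1)
    push_cast at h5
    exact h5

end OL
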