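import Pool.Agent.Lib.MP_39df77_nt.OL.Intf
import Pool.Agent.Lib.MP_39df77_nt.OL.D22
import Pool.Agent.Lib.MP_39df77_nt.OL.D23
import Pool.Agent.Lib.MP_39df77_nt.T12.Final

/-! The inputs R22, R23 in the form of `Intf`. -/

set_option autoImplicit false

open Complex MeasureTheory Set

namespace OL

theorem hr23 : HR23 := by
  intro σ e h0 _ he
  obtain ⟨X0, h1, h⟩ := dyadic_block h0 he
  refine ⟨X0, h1, fun X U S hX hU hS => ?_⟩
  obtain ⟨N, hN1, hN2, a, ha, S', hS', hc, hd⟩ := h X hX U hU S hS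
  exact ⟨N, a, S', hN1, hN2, ha, hS', hc, hd⟩

lemma hr22_of (A : ℕ) (hA : 1 ≤ A) {m : ℝ} (hm : 0 ≤ m)
    (h : ∃ C : ℝ, ∀ T : ℝ, 1 ≤ T →
      ∫ t in T..(2 * T), ‖riemannZeta (1 / 2 + t * I)‖ ^ A ≤ C * T ^ m) : HR22 A m := by
  obtain ⟨C, hC, h⟩ := sum_Zl A hA hm h
  exact ⟨C, hC, fun T S hT hS hST => h T (by linarith) S hS hST⟩

theorem hr22_4 (e : ℝ) (he : 0 < e) : HR22 4 (1 + e) :=
  hr22_of 4 (by norm_num) (by linarith) (U6.fourth_moment e he)

theorem hr22_6 : HR22 6 (5 / 4 - 1 / 85) := by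
  refine hr22_of 6 (by norm_num) (by norm_num) ?_
  obtain ⟨C, hC⟩ := U6.sixth_moment_x (δ := 1 / 85) (by norm_num)
  refine ⟨|C| * 2 ^ (5 / 4 - 1 / 85 : ℝ), fun T hT => ?_⟩
  have hint : ∀ a b : ℝ, IntervalIntegrable (fun u => D22_zh u ^ 6) volume a b :=
    fun a b => (D22_zh_cont.pow 6).intervalIntegrable a b
  have h1 : ∫ t in T..(2 * T), ‖riemannZeta (1 / 2 + t * I)‖ ^ 6 ≤
      ∫ t in (0:ℝ)..(2 * T), ‖riemannZeta (1 / 2 + t * I)‖ ^ 6 := by
    refine intervalIntegral.integral_mono_interval (by linarith) (by linarith) le_rfl ?_ (hint _ _)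
    exact Filter.Eventually.of_forall fun u => by positivity
  refine h1.trans ((hC (2 * T) (by linarith)).trans ?_)
  rw [Real.mul_rpow (by norm_num) (by linarith), ← mul_assoc]
  refine mul_le_mul_of_nonneg_right ?_ (Real.rpow_nonneg (by linarith) _)
  exact mul_le_mul_of_nonneg_right (le_abs_self C) (by positivity)

theorem hr22_12 : HR22 12 2 := by
  refine hr22_of 12 (by norm_num) (by norm_num) ?_
  obtain ⟨δ, C, hδ, hC, h⟩ := T12.twelfth_x
  refine ⟨C, fun T hT => (h T hT).trans ?_⟩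
  exact mul_le_mul_of_nonneg_left (Real.rpow_le_rpow_of_exponent_le hT (by linarith)) hC.le

end OL
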