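import Pool.Agent.Lib.MP_39df77_nt.OL.C09
import Pool.Agent.Lib.MP_39df77_nt.OL.C10
import Pool.Agent.Lib.MP_39df77_nt.OL.C11
import Pool.Agent.Lib.MP_39df77_nt.OL.D25b
import Pool.Agent.Lib.MP_39df77_nt.OL.D26
import Pool.Agent.Lib.MP_39df77_nt.OL.E7
import Pool.Agent.Lib.MP_39df77_nt.OL.F2
import Pool.Agent.Lib.MP_39df77_nt.OL.Zin

/-! The sixth moment of zeta to the left of `7/12`: assembly. -/

set_option autoImplicit false

open Complex MeasureTheory Set Filter Topology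

namespace OL

/-- level sets on the line `7/12 - 1/(34 * 10^8)` -/
theorem hr25_x : HR25 (1 / 3400000 / 1000) := by
  obtain ⟨T0, h1, h2⟩ := hA3_at (1 / 340) (by norm_num) (by norm_num)
  have e : (1 / 340 / 10000 : ℝ) = 1 / 3400000 := by norm_num
  rw [e] at h2
  exact r25_at hA1 hA2 (by norm_num) (by norm_num) h1 h2 hr21 hr22_4 hr22_6 hr22_12 hr23

/-- the sixth moment on the line `7/12 - 1/(34 * 10^8)` -/
theorem hr26_x : HR26 (1 / 3400000 / 1000) := r26 (by norm_num) hr25_x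

/-- the sixth moment on the critical line, dyadic form -/
theorem six_half : ∃ C : ℝ, ∀ T : ℝ, 1 ≤ T →
    ∫ t in T..(2 * T), ‖riemannZeta ((1 / 2 : ℝ) + t * I)‖ ^ 6 ≤ C * T ^ (5 / 4 - 1 / 85 : ℝ) := by
  obtain ⟨C, hC⟩ := U6.sixth_moment_x (δ := 1 / 85) (by norm_num)
  refine ⟨|C| * 2 ^ (5 / 4 - 1 / 85 : ℝ), fun T hT => ?_⟩
  have e1 : ∀ t : ℝ, ‖riemannZeta (((1 / 2 : ℝ) : ℂ) + t * I)‖ ^ 6 =
      ‖riemannZeta (1 / 2 + t * I)‖ ^ 6 := by
    intro t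
    norm_num
  simp only [e1]
  have hint : ∀ a b : ℝ, IntervalIntegrable (fun u : ℝ => ‖riemannZeta (1 / 2 + u * I)‖ ^ 6) volume a b :=
    fun a b => (D22_zh_cont.pow 6).intervalIntegrable a b
  have h1 : ∫ t in T..(2 * T), ‖riemannZeta (1 / 2 + t * I)‖ ^ 6 ≤
      ∫ t in (0:ℝ)..(2 * T), ‖riemannZeta (1 / 2 + t * I)‖ ^ 6 := by
    refine intervalIntegral.integral_mono_interval (by linarith) (by linarith) le_rfl ?_ (hint _ _)
    exact Filter.Eventually.of_forall fun u => by positivity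
  refine h1.trans ((hC (2 * T) (by linarith)).trans ?_)
  rw [Real.mul_rpow (by norm_num) (by linarith), ← mul_assoc]
  refine mul_le_mul_of_nonneg_right ?_ (Real.rpow_nonneg (by linarith) _)
  exact mul_le_mul_of_nonneg_right (le_abs_self C) (by positivity)

/-- **upper bound to the left of `7/12 - 10^(-10)`** -/
theorem main_left {σ : ℝ} (h1 : 1 / 2 ≤ σ) (h2 : σ ≤ 7 / 12 - 1 / 10 ^ 10) : ∃ C : ℝ, ∀ T : ℝ, 1 ≤ T →
    ∫ t in (0 : ℝ)..T, ‖riemannZeta (σ + t * I)‖ ^ 6 ≤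
      C * T ^ (1 + 3 * (7 / 12 - 1 / 10 ^ 10 - σ)) :=
  left_of (by norm_num) (by norm_num) (by norm_num) hr26_x six_half h1 h2

/-- **asymptotic formula to the right of `7/12 - 10^(-10)`** -/
theorem main_right {σ : ℝ} (h1 : 7 / 12 - 1 / 10 ^ 10 < σ) (h2 : σ < 1) :
    Summable (fun n : ℕ => (d3 n : ℝ) ^ 2 * (n : ℝ) ^ (-(2 * σ))) ∧
    ∃ η C : ℝ, 0 < η ∧ ∀ T : ℝ, 1 ≤ T → |T⁻¹ * (∫ t in (0 : ℝ)..T, ‖riemannZeta (σ + t * I)‖ ^ 6) -
      ∑' n : ℕ, (d3 n : ℝ) ^ 2 * (n : ℝ) ^ (-(2 * σ))| ≤ C * T ^ (-η) := by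
  refine carlson_pow (s0 := 7 / 12 - 1 / 3400000 / 1000) (by norm_num) (by norm_num) hr26_x ?_ h2
  norm_num at h1 ⊢
  linarith

end OL
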